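import Pool.Agent.H75.LO.QMb

/-!
# LO-FinG: from bounded parts of the density to all states, for an arbitrary constant
-/

open MeasureTheory Set
open scoped ENNReal

namespace Pool.Agent.H75.LO

/-- the inequality for point processes with constant `K`, restricted to sets where the density is bounded -/
def BoundedLO (K : ℝ) : Prop :=
  ∀ {Ω : Type} [MeasurableSpace Ω] (P : Measure Ω) [IsProbabilityMeasure P] {N : ℕ}
    (X : Fin N → Ω → E3), (∀ i, Measurable (X i)) → ∀ {ρ : E3 → ℝ≥0∞}, Measurable ρ →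
    (∀ f : E3 → ℝ≥0∞, Measurable f → ∑ i, ∫⁻ ω, f (X i ω) ∂P = ∫⁻ x, f x * ρ x) →
    ∀ {E : Set E3}, MeasurableSet E → ∀ {B : ℝ}, (∀ x ∈ E, ρ x ≤ ENNReal.ofReal B) →
    ∫⁻ x in E, ρ x ^ (4 / 3 : ℝ) ≠ ∞ →
    ∫⁻ x in E, ∫⁻ y in E, ρ x * ρ y * (ENNReal.ofReal ‖x - y‖)⁻¹
      ≤ ∫⁻ ω, ∑ i, ∑ j ∈ Finset.univ.erase i, (ENNReal.ofReal ‖X i ω - X j ω‖)⁻¹ ∂P
        + ENNReal.ofReal K * ∫⁻ x in E, ρ x ^ (4 / 3 : ℝ)

theorem process_gen {K : ℝ} (hK : 0 < K) (hb : BoundedLO K) {Ω : Type} [MeasurableSpace Ω]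
    (P : Measure Ω) [IsProbabilityMeasure P] {N : ℕ} (X : Fin N → Ω → E3)
    (hX : ∀ i, Measurable (X i)) {ρ : E3 → ℝ≥0∞} (hρ : Measurable ρ)
    (hd : ∀ f : E3 → ℝ≥0∞, Measurable f → ∑ i, ∫⁻ ω, f (X i ω) ∂P = ∫⁻ x, f x * ρ x) :
    ∫⁻ x, ∫⁻ y, ρ x * ρ y * (ENNReal.ofReal ‖x - y‖)⁻¹
      ≤ ∫⁻ ω, ∑ i, ∑ j ∈ Finset.univ.erase i, (ENNReal.ofReal ‖X i ω - X j ω‖)⁻¹ ∂P
        + ENNReal.ofReal K * ∫⁻ x, ρ x ^ (4 / 3 : ℝ) := by
  by_cases htop : ∫⁻ x, ρ x ^ (4 / 3 : ℝ) = ∞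
  · rw [htop, ENNReal.mul_top (by rw [ne_eq, ENNReal.ofReal_eq_zero, not_le]; exact hK), add_top]
    exact le_top
  have hρ43 : Measurable fun x => ρ x ^ (4 / 3 : ℝ) := hρ.pow_const _
  have hae : ∀ᵐ x : E3, ρ x < ∞ := by
    filter_upwards [ae_lt_top hρ43 htop] with x hx
    by_contra h
    have h1 : ρ x = ∞ := not_lt_top_iff.mp h
    rw [h1, ENNReal.top_rpow_of_pos (by norm_num)] at hx
    exact lt_irrefl _ hx
  let E : ℕ → Set E3 := fun n => {x | ρ x ≤ ENNReal.ofReal n}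
  have hE : ∀ n, MeasurableSet (E n) := fun n => measurableSet_le hρ measurable_const
  have hmono : Monotone E := fun m n hmn x (hx : ρ x ≤ _) =>
    hx.trans (ENNReal.ofReal_le_ofReal (by exact_mod_cast hmn))
  have hdir : Directed (· ⊆ ·) E := hmono.directed_le
  have hU : ∀ᵐ x : E3, x ∈ ⋃ n, E n := by
    filter_upwards [hae] with x hx
    obtain ⟨n, hn⟩ := ENNReal.exists_nat_gt hx.ne
    refine mem_iUnion.mpr ⟨n, ?_⟩
    show ρ x ≤ ENNReal.ofReal n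
    rw [ENNReal.ofReal_natCast]
    exact hn.le
  have hres : (volume : Measure E3).restrict (⋃ n, E n) = volume :=
    Measure.restrict_eq_self_of_ae_mem hU
  have hF : Measurable fun p : E3 × E3 => ρ p.1 * ρ p.2 * (ENNReal.ofReal ‖p.1 - p.2‖)⁻¹ :=
    ((hρ.comp measurable_fst).mul (hρ.comp measurable_snd)).mul
      ((measurable_fst.sub measurable_snd).norm.ennreal_ofReal.inv)
  have key : ∀ n m : ℕ, ∫⁻ x in E m, ∫⁻ y in E n, ρ x * ρ y * (ENNReal.ofReal ‖x - y‖)⁻¹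
      ≤ ∫⁻ ω, ∑ i, ∑ j ∈ Finset.univ.erase i, (ENNReal.ofReal ‖X i ω - X j ω‖)⁻¹ ∂P
        + ENNReal.ofReal K * ∫⁻ x, ρ x ^ (4 / 3 : ℝ) := by
    intro n m
    have h1 : ∫⁻ x in E m, ∫⁻ y in E n, ρ x * ρ y * (ENNReal.ofReal ‖x - y‖)⁻¹
        ≤ ∫⁻ x in E (max n m), ∫⁻ y in E (max n m), ρ x * ρ y * (ENNReal.ofReal ‖x - y‖)⁻¹ :=
      lintegral_mono' (Measure.restrict_mono (hmono (le_max_right n m)) le_rfl)
        fun x => lintegral_mono' (Measure.restrict_mono (hmono (le_max_left n m)) le_rfl)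
          fun y => le_rfl
    have hle : ∫⁻ x in E (max n m), ρ x ^ (4 / 3 : ℝ) ≤ ∫⁻ x, ρ x ^ (4 / 3 : ℝ) :=
      setLIntegral_le_lintegral _ _
    have h2 := hb P X hX hρ hd (hE (max n m)) (B := ((max n m : ℕ) : ℝ))
      (fun x hx => hx) (ne_top_of_le_ne_top htop hle)
    exact h1.trans (h2.trans (add_le_add le_rfl (mul_le_mul' le_rfl hle)))
  have h0 : ∫⁻ x, ∫⁻ y, ρ x * ρ y * (ENNReal.ofReal ‖x - y‖)⁻¹
      = ∫⁻ x in ⋃ m, E m, ∫⁻ y in ⋃ n, E n, ρ x * ρ y * (ENNReal.ofReal ‖x - y‖)⁻¹ := by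
    rw [hres]
  rw [h0]
  have h1 : ∀ x, ∫⁻ y in ⋃ n, E n, ρ x * ρ y * (ENNReal.ofReal ‖x - y‖)⁻¹
      = ⨆ n, ∫⁻ y in E n, ρ x * ρ y * (ENNReal.ofReal ‖x - y‖)⁻¹ := fun x =>
    setLIntegral_iUnion_of_directed _ hdir
  simp only [h1]
  rw [lintegral_iSup]
  · refine iSup_le fun n => ?_
    rw [setLIntegral_iUnion_of_directed _ hdir]
    exact iSup_le fun m => key n m
  · intro n
    exact hF.lintegral_prod_right'
  · intro m n hmn x
    exact lintegral_mono' (Measure.restrict_mono (hmono hmn) le_rfl) fun y => le_rfl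

theorem qm_gen {K : ℝ} (hK : 0 < K) (hb : BoundedLO (2 * K)) {q n : ℕ} {ψ : Wave q (n + 1)}
    (h : Admissible ψ) : -K * ∫ x, rho ψ x ^ (4 / 3 : ℝ) ≤ indirect ψ := by
  obtain ⟨ρ', hρm, hρ', hd⟩ := marginal h.state
  haveI := mu_prob h.state
  have h1 := process_gen (by positivity) hb (mu ψ)
    (fun (i : Fin (n + 1)) (x : Fin (n + 1) → E3) => x i)
    (fun i => measurable_pi_apply i) hρm hd
  rw [qmb_inter h, qmb_43 h hρ'] at h1
  have h2 := (qmb_direct h hρm hρ').trans h1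
  have h43 : 0 ≤ ∫ x, rho ψ x ^ (4 / 3 : ℝ) :=
    integral_nonneg fun x => Real.rpow_nonneg (rho_nonneg ψ x) _
  have hI : 0 ≤ interaction ψ := by
    unfold interaction
    exact Finset.sum_nonneg fun σ _ => integral_nonneg fun x =>
      mul_nonneg (qmb_coulomb_nonneg x) (sq_nonneg _)
  rw [← ENNReal.ofReal_mul (by positivity), ← ENNReal.ofReal_add (by positivity)
    (mul_nonneg (by positivity) h43)] at h2
  rw [ENNReal.ofReal_le_ofReal_iff (add_nonneg (by positivity) (mul_nonneg (by positivity) h43))] at h2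
  unfold indirect
  linarith

end Pool.Agent.H75.LO
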