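import Pool.Agent.H75.LO.Ch

/-!
# LO2-Psd2: `P^{2q} Q G_0` as an integral of squares (see Psd.lean for the one-potential version)

`X := Q G0`, and `G0 = R_1 + G0 v R_1` (`R_resolvent`), so
`X(a,b) = ∫ v(z) R_1(a,z) R_1(b,z) dz + ∫_{t>0} ∫_w Ψ_{t,w}(a) Ψ_{t,w}(b) dw dt`, `Ψ_{t,w} = (Q h_{t/2})(·,w)`
(`gk_eq`, `heat_comp`, symmetry). `SK (2q) = it P q (SK q)` and `SK q` is symmetric, so with `SK q (z,y) = SK q (y,z) = (it P q X)(y,z)`
the kernel `SK (2q) (x,y)` is the same bilinear expression with `it P q` applied to each factor: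
`R_1 → TK q`, `Ψ → Phi2`.
-/

open MeasureTheory Set
open scoped ENNReal

namespace Pool.Agent.H75.LO

variable {Λ c : ℝ} {v : E3 → ℝ}

/-- first family of factors, indexed by `z` -/
noncomputable def Phi1 (Λ c : ℝ) (v : E3 → ℝ) (q : ℕ) (z : E3) (x : E3) : ℝ≥0∞ :=
  ENNReal.ofReal (Real.sqrt (v z)) * TK Λ c v q x z

/-- second family of factors, indexed by `(t,w)` -/
noncomputable def Phi2 (Λ c : ℝ) (v : E3 → ℝ) (q : ℕ) (p : ℝ × E3) (x : E3) : ℝ≥0∞ :=
  it (PK Λ c v) q (comp (RV Λ v) (heat (p.1 / 2))) x p.2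

/-! ### the action of a kernel on functions -/

/-- action of a kernel on a function -/
noncomputable def psd2_act (P : Ker) (f : E3 → ℝ≥0∞) (x : E3) : ℝ≥0∞ := ∫⁻ z, P x z * f z

noncomputable def psd2_actn (P : Ker) : ℕ → (E3 → ℝ≥0∞) → E3 → ℝ≥0∞
  | 0, f => f
  | n + 1, f => psd2_act P (psd2_actn P n f)

theorem psd2_it (P B : Ker) (n : ℕ) (x y : E3) :
    it P n B x y = psd2_actn P n (fun a => B a y) x := by
  induction n generalizing x with
  | zero => rfl
  | succ n ih =>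
    show (∫⁻ z, P x z * it P n B z y) = ∫⁻ z, P x z * psd2_actn P n (fun a => B a y) z
    simp only [ih]

section Family

variable {I : Type*} [MeasurableSpace I] {P : Ker} {F : I → E3 → ℝ≥0∞}

theorem psd2_act_meas (hP : MKer P) (hF : Measurable (fun s : I × E3 => F s.1 s.2)) :
    Measurable (fun s : I × E3 => psd2_act P (F s.1) s.2) := by
  have h1 : Measurable (fun q : (I × E3) × E3 => P q.1.2 q.2) :=
    Measurable.comp hP ((measurable_snd.comp measurable_fst).prodMk measurable_snd)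
  have h2 : Measurable (fun q : (I × E3) × E3 => F q.1.1 q.2) :=
    Measurable.comp hF ((measurable_fst.comp measurable_fst).prodMk measurable_snd)
  exact Measurable.lintegral_prod_right' (h1.mul h2)

theorem psd2_actn_meas (hP : MKer P) (hF : Measurable (fun s : I × E3 => F s.1 s.2)) (n : ℕ) :
    Measurable (fun s : I × E3 => psd2_actn P n (F s.1) s.2) := by
  induction n with
  | zero => exact hF
  | succ n ih => exact psd2_act_meas (F := fun i => psd2_actn P n (F i)) hP ih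

theorem psd2_act_int (hP : MKer P) (hF : Measurable (fun s : I × E3 => F s.1 s.2))
    {H : I → ℝ≥0∞} (hH : Measurable H) (μ : Measure I) [SFinite μ] (x : E3) :
    psd2_act P (fun a => ∫⁻ i, F i a * H i ∂μ) x = ∫⁻ i, psd2_act P (F i) x * H i ∂μ := by
  have hF1 : ∀ z, Measurable (fun i => F i z) := fun z =>
    Measurable.of_uncurry_right (f := F) hF
  have hF2 : ∀ i, Measurable (fun z => F i z) := fun i =>
    Measurable.of_uncurry_left (f := F) hF
  unfold psd2_act
  calc ∫⁻ z, P x z * ∫⁻ i, F i z * H i ∂μ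
      = ∫⁻ z, ∫⁻ i, P x z * (F i z * H i) ∂μ := by
        refine lintegral_congr fun z => ?_
        have hm : Measurable (fun i => F i z * H i) := (hF1 z).mul hH
        rw [lintegral_const_mul _ hm]
    _ = ∫⁻ i, (∫⁻ z, P x z * (F i z * H i)) ∂μ := by
        rw [lintegral_lintegral_swap]
        have h1 : Measurable (fun q : E3 × I => P x q.1) :=
          Measurable.comp (hP.right x) measurable_fst
        have h2 : Measurable (fun q : E3 × I => F q.2 q.1) :=
          Measurable.comp hF (measurable_snd.prodMk measurable_fst)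
        have h3 : Measurable (fun q : E3 × I => H q.2) := hH.comp measurable_snd
        exact (h1.mul (h2.mul h3)).aemeasurable
    _ = ∫⁻ i, (∫⁻ z, P x z * F i z) * H i ∂μ := by
        refine lintegral_congr fun i => ?_
        have hm : Measurable (fun z => P x z * F i z) := (hP.right x).mul (hF2 i)
        rw [← lintegral_mul_const _ hm]
        exact lintegral_congr fun z => (mul_assoc _ _ _).symm

theorem psd2_actn_int (hP : MKer P) (hF : Measurable (fun s : I × E3 => F s.1 s.2))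
    {H : I → ℝ≥0∞} (hH : Measurable H) (μ : Measure I) [SFinite μ] (n : ℕ) (x : E3) :
    psd2_actn P n (fun a => ∫⁻ i, F i a * H i ∂μ) x = ∫⁻ i, psd2_actn P n (F i) x * H i ∂μ := by
  induction n generalizing x with
  | zero => rfl
  | succ n ih =>
    have h1 : psd2_actn P n (fun a => ∫⁻ i, F i a * H i ∂μ) =
        fun a => ∫⁻ i, psd2_actn P n (F i) a * H i ∂μ := funext ih
    show psd2_act P (psd2_actn P n (fun a => ∫⁻ i, F i a * H i ∂μ)) x = _
    rw [h1]
    exact psd2_act_int (F := fun i => psd2_actn P n (F i)) hP (psd2_actn_meas hP hF n) hH μ x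

end Family

theorem psd2_actn_meas' {P : Ker} (hP : MKer P) {f : E3 → ℝ≥0∞} (hf : Measurable f) (n : ℕ) :
    Measurable (psd2_actn P n f) := by
  have h1 := psd2_actn_meas (I := Unit) (F := fun _ => f) hP (hf.comp measurable_snd) n
  exact h1.comp ((measurable_const (a := ())).prodMk measurable_id)

theorem psd2_actn_add {P : Ker} (hP : MKer P) {f g : E3 → ℝ≥0∞} (hf : Measurable f) (n : ℕ)
    (x : E3) : psd2_actn P n (fun a => f a + g a) x = psd2_actn P n f x + psd2_actn P n g x := by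
  induction n generalizing x with
  | zero => rfl
  | succ n ih =>
    show (∫⁻ z, P x z * psd2_actn P n (fun a => f a + g a) z) =
      (∫⁻ z, P x z * psd2_actn P n f z) + ∫⁻ z, P x z * psd2_actn P n g z
    have hm : Measurable (fun z => P x z * psd2_actn P n f z) :=
      (hP.right x).mul (psd2_actn_meas' hP hf n)
    rw [← lintegral_add_left hm]
    refine lintegral_congr fun z => ?_
    rw [ih z, mul_add]

theorem psd2_actn_mul {P : Ker} {k : ℝ≥0∞} (hk : k ≠ ∞) (f : E3 → ℝ≥0∞) (n : ℕ)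
    (x : E3) : psd2_actn P n (fun a => k * f a) x = k * psd2_actn P n f x := by
  induction n generalizing x with
  | zero => rfl
  | succ n ih =>
    show (∫⁻ z, P x z * psd2_actn P n (fun a => k * f a) z) = k * ∫⁻ z, P x z * psd2_actn P n f z
    rw [← lintegral_const_mul' k _ hk]
    refine lintegral_congr fun z => ?_
    rw [ih z]
    ring

/-! ### the free kernel and the kernel `Q G0` -/

/-- index measure `dt dw` on `(0,∞) × ℝ³` -/
noncomputable def psd2_mu : Measure (ℝ × E3) := (volume.restrict (Ioi (0 : ℝ))).prod volume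

noncomputable def psd2_h (p : ℝ × E3) (x : E3) : ℝ≥0∞ := heat (p.1 / 2) x p.2

theorem psd2_h_meas : Measurable (fun s : (ℝ × E3) × E3 => psd2_h s.1 s.2) :=
  measurable_heat.comp (((measurable_fst.comp measurable_fst).div_const 2).prodMk
    (measurable_snd.prodMk (measurable_snd.comp measurable_fst)))

theorem psd2_h_meas1 (x : E3) : Measurable (fun p : ℝ × E3 => psd2_h p x) :=
  Measurable.of_uncurry_right (f := psd2_h) psd2_h_meas

theorem psd2_G0 (x y : E3) : G0 x y = ∫⁻ p, psd2_h p x * psd2_h p y ∂psd2_mu := by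
  have hm : Measurable (fun p : ℝ × E3 => psd2_h p x * psd2_h p y) :=
    (psd2_h_meas1 x).mul (psd2_h_meas1 y)
  unfold psd2_mu
  rw [lintegral_prod _ hm.aemeasurable]
  unfold G0
  rw [gk_eq]
  refine setLIntegral_congr_fun measurableSet_Ioi fun t ht => ?_
  have ht0 : (0 : ℝ) < t := ht
  have h1 := congrFun (congrFun (heat_comp (half_pos ht0) (half_pos ht0)) x) y
  rw [add_halves] at h1
  simp only [pow_zero, Nat.factorial_zero, Nat.cast_one, div_one, zero_mul, neg_zero,
    Real.exp_zero, mul_one, ENNReal.ofReal_one, one_mul]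
  rw [← h1]
  refine lintegral_congr fun w => ?_
  show heat (t / 2) x w * heat (t / 2) w y = heat (t / 2) x w * heat (t / 2) y w
  rw [heat_symm (t / 2) w y]

/-- `Ψ_{t,w} = (Q h_{t/2})(·,w)` -/
noncomputable def psd2_Psi (Λ : ℝ) (v : E3 → ℝ) (p : ℝ × E3) (x : E3) : ℝ≥0∞ :=
  comp (RV Λ v) (heat (p.1 / 2)) x p.2

theorem psd2_Psi_eq (p : ℝ × E3) (x : E3) :
    psd2_Psi Λ v p x = psd2_act (RV Λ v) (psd2_h p) x := rfl

theorem psd2_Psi_meas (hv : Pot Λ v) :
    Measurable (fun s : (ℝ × E3) × E3 => psd2_Psi Λ v s.1 s.2) :=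
  psd2_act_meas (F := psd2_h) (RV_meas hv) psd2_h_meas

theorem psd2_Psi_meas1 (hv : Pot Λ v) (x : E3) :
    Measurable (fun p : ℝ × E3 => psd2_Psi Λ v p x) :=
  Measurable.of_uncurry_right (f := psd2_Psi Λ v) (psd2_Psi_meas hv)

instance psd2_mu_sfinite : SFinite psd2_mu := by
  unfold psd2_mu
  infer_instance

/-- `(Q G0)(x,z) = ∫ Ψ_p(x) h_p(z)` -/
theorem psd2_QG (hv : Pot Λ v) (x z : E3) :
    comp (RV Λ v) G0 x z = ∫⁻ p, psd2_Psi Λ v p x * psd2_h p z ∂psd2_mu := by
  have h1 : comp (RV Λ v) G0 x z = psd2_act (RV Λ v) (fun u => G0 u z) x := rfl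
  rw [h1]
  simp only [psd2_G0]
  exact psd2_act_int (F := psd2_h) (RV_meas hv) psd2_h_meas (psd2_h_meas1 z) psd2_mu x

/-- `φ_z(x) = √v(z) R_1(x,z)` -/
noncomputable def psd2_phi (Λ : ℝ) (v : E3 → ℝ) (z : E3) (x : E3) : ℝ≥0∞ :=
  ENNReal.ofReal (Real.sqrt (v z)) * R Λ 0 v x z

theorem psd2_sqrt_meas (hv : Pot Λ v) : Measurable (fun z => ENNReal.ofReal (Real.sqrt (v z))) :=
  ENNReal.measurable_ofReal.comp (hv.meas.sqrt)

theorem psd2_phi_meas (hv : Pot Λ v) :
    Measurable (fun s : E3 × E3 => psd2_phi Λ v s.1 s.2) :=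
  ((psd2_sqrt_meas hv).comp measurable_fst).mul
    (Measurable.comp (R_meas (ε := 0) hv) (measurable_snd.prodMk measurable_fst))

theorem psd2_phi_meas1 (hv : Pot Λ v) (x : E3) : Measurable (fun z => psd2_phi Λ v z x) :=
  Measurable.of_uncurry_right (f := psd2_phi Λ v) (psd2_phi_meas hv)

/-- the kernel `Q G0` as an integral of squares -/
theorem psd2_X (hv : Pot Λ v) (b a : E3) :
    comp (RV Λ v) G0 b a = (∫⁻ z, psd2_phi Λ v z b * psd2_phi Λ v z a)
      + ∫⁻ p, psd2_Psi Λ v p b * psd2_Psi Λ v p a ∂psd2_mu := by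
  have hG : MKer G0 := gk_meas 0 0
  have h0 : comp (RV Λ v) G0 = comp (RV Λ v) (R Λ 0 v) +
      comp (RV Λ v) (comp (mulV G0 (Vf v)) (R Λ 0 v)) := by
    rw [← comp_add_right (RV_meas hv) (R_meas hv), ← R_resolvent hv]
  rw [h0, Pi.add_apply, Pi.add_apply]
  congr 1
  · show (∫⁻ z, R Λ 0 v b z * ENNReal.ofReal (v z) * R Λ 0 v z a) = _
    refine lintegral_congr fun z => ?_
    unfold psd2_phi
    have h1 : ENNReal.ofReal (v z) =
        ENNReal.ofReal (Real.sqrt (v z)) * ENNReal.ofReal (Real.sqrt (v z)) := by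
      rw [← ENNReal.ofReal_mul (Real.sqrt_nonneg _), Real.mul_self_sqrt (hv.nonneg z)]
    rw [h1, R_symm hv z a]
    ring
  · have h2 : ∀ z, comp (mulV G0 (Vf v)) (R Λ 0 v) z a =
        ∫⁻ p, psd2_h p z * psd2_Psi Λ v p a ∂psd2_mu := by
      intro z
      rw [comp_mulV_symm (A := G0) (gk_symm 0 0) (R_symm hv) z a]
      have h3 := psd2_QG hv a z
      unfold RV at h3
      rw [h3]
      exact lintegral_congr fun p => mul_comm _ _
    show psd2_act (RV Λ v) (fun z => comp (mulV G0 (Vf v)) (R Λ 0 v) z a) b = _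
    simp only [h2]
    exact psd2_act_int (F := psd2_h) (RV_meas hv) psd2_h_meas (psd2_Psi_meas1 hv a) psd2_mu b

theorem psd2_Phi1 (q : ℕ) (z x : E3) :
    Phi1 Λ c v q z x = psd2_actn (PK Λ c v) q (psd2_phi Λ v z) x := by
  unfold Phi1 psd2_phi TK
  rw [psd2_actn_mul ENNReal.ofReal_ne_top, psd2_it]

theorem psd2_Phi2 (q : ℕ) (p : ℝ × E3) (x : E3) :
    Phi2 Λ c v q p x = psd2_actn (PK Λ c v) q (psd2_Psi Λ v p) x := by
  unfold Phi2
  rw [psd2_it]
  rfl

theorem psd2_PK_meas (h : Pot2 Λ c v) : MKer (PK Λ c v) := RV_meas h.potc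

theorem Phi1_meas (h : Pot2 Λ c v) (q : ℕ) :
    Measurable (fun s : E3 × E3 => Phi1 Λ c v q s.1 s.2) := by
  simp only [psd2_Phi1]
  exact psd2_actn_meas (F := psd2_phi Λ v) (psd2_PK_meas h) (psd2_phi_meas h.pot) q

theorem Phi2_meas (h : Pot2 Λ c v) (q : ℕ) :
    Measurable (fun s : (ℝ × E3) × E3 => Phi2 Λ c v q s.1 s.2) := by
  simp only [psd2_Phi2]
  exact psd2_actn_meas (F := psd2_Psi Λ v) (psd2_PK_meas h) (psd2_Psi_meas h.pot) q

theorem psd2_one (h : Pot2 Λ c v) (q : ℕ) (y a : E3) : SK Λ c v q a y =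
      (∫⁻ z, psd2_phi Λ v z a * Phi1 Λ c v q z y)
        + ∫⁻ p, psd2_Psi Λ v p a * Phi2 Λ c v q p y ∂psd2_mu := by
  have hP := psd2_PK_meas h
  have hφ := psd2_phi_meas h.pot
  have hΨ := psd2_Psi_meas h.pot
  rw [SK_symm h q a y]
  have h0 : SK Λ c v q y a = psd2_actn (PK Λ c v) q (fun b => comp (RV Λ v) G0 b a) y :=
    psd2_it _ _ q y a
  rw [h0]
  have h00 : (fun b => comp (RV Λ v) G0 b a) = fun b =>
      (∫⁻ z, psd2_phi Λ v z b * psd2_phi Λ v z a)
      + ∫⁻ p, psd2_Psi Λ v p b * psd2_Psi Λ v p a ∂psd2_mu := funext fun b => psd2_X h.pot b a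
  rw [h00]
  have hm : Measurable (fun b => ∫⁻ z, psd2_phi Λ v z b * psd2_phi Λ v z a) := by
    have h3 : Measurable (fun s : E3 × E3 => psd2_phi Λ v s.2 s.1 * psd2_phi Λ v s.2 a) :=
      (hφ.comp (measurable_snd.prodMk measurable_fst)).mul
        ((psd2_phi_meas1 h.pot a).comp measurable_snd)
    exact h3.lintegral_prod_right'
  rw [psd2_actn_add hP hm]
  congr 1
  · rw [psd2_actn_int hP hφ (psd2_phi_meas1 h.pot a) volume q y]
    refine lintegral_congr fun z => ?_
    rw [psd2_Phi1, mul_comm]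
  · rw [psd2_actn_int hP hΨ (psd2_Psi_meas1 h.pot a) psd2_mu q y]
    refine lintegral_congr fun p => ?_
    rw [psd2_Phi2, mul_comm]

theorem psd2_two (q : ℕ) (x y : E3) :
    SK Λ c v (2 * q) x y = psd2_actn (PK Λ c v) q (fun a => SK Λ c v q a y) x := by
  have h1 : SK Λ c v (2 * q) = it (PK Λ c v) q (SK Λ c v q) := by
    unfold SK
    rw [two_mul, it_add]
  rw [h1, psd2_it]

theorem psd2_main (h : Pot2 Λ c v) (q : ℕ) (x y : E3) :
    SK Λ c v (2 * q) x y
      = (∫⁻ z, Phi1 Λ c v q z x * Phi1 Λ c v q z y)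
        + ∫⁻ p, Phi2 Λ c v q p x * Phi2 Λ c v q p y ∂psd2_mu := by
  have hP := psd2_PK_meas h
  have hφ := psd2_phi_meas h.pot
  have hΨ := psd2_Psi_meas h.pot
  have hm1 : Measurable (fun z => Phi1 Λ c v q z y) :=
    Measurable.of_uncurry_right (f := Phi1 Λ c v q) (Phi1_meas h q)
  have hm2 : Measurable (fun p => Phi2 Λ c v q p y) :=
    Measurable.of_uncurry_right (f := Phi2 Λ c v q) (Phi2_meas h q)
  have h00 : (fun a => SK Λ c v q a y) = fun a =>
      (∫⁻ z, psd2_phi Λ v z a * Phi1 Λ c v q z y)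
        + ∫⁻ p, psd2_Psi Λ v p a * Phi2 Λ c v q p y ∂psd2_mu :=
    funext fun a => psd2_one h q y a
  refine (psd2_two q x y).trans ?_
  rw [h00]
  have hm : Measurable (fun a => ∫⁻ z, psd2_phi Λ v z a * Phi1 Λ c v q z y) := by
    have h3 : Measurable (fun s : E3 × E3 => psd2_phi Λ v s.2 s.1 * Phi1 Λ c v q s.2 y) :=
      (hφ.comp (measurable_snd.prodMk measurable_fst)).mul (hm1.comp measurable_snd)
    exact h3.lintegral_prod_right'
  rw [psd2_actn_add hP hm]
  congr 1
  · rw [psd2_actn_int hP hφ hm1 volume q x]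
    refine lintegral_congr fun z => ?_
    rw [psd2_Phi1 (c := c) q z x]
  · rw [psd2_actn_int hP hΨ hm2 psd2_mu q x]
    refine lintegral_congr fun p => ?_
    rw [psd2_Phi2 (c := c) q p x]

theorem SK_eq (h : Pot2 Λ c v) (q : ℕ) (x y : E3) :
    SK Λ c v (2 * q) x y
      = (∫⁻ z, Phi1 Λ c v q z x * Phi1 Λ c v q z y)
        + ∫⁻ p, Phi2 Λ c v q p x * Phi2 Λ c v q p y
            ∂((volume.restrict (Ioi (0 : ℝ))).prod volume) := by
  exact psd2_main h q x y

end Pool.Agent.H75.LO
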