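import Pool.Agent.H75.LO.Defs

/-!
# LO-Alg: algebra of kernels (associativity = Tonelli, linearity, iterates)
-/

open MeasureTheory Set
open scoped ENNReal

namespace Pool.Agent.H75.LO

theorem MKer.add {A B : Ker} (hA : MKer A) (hB : MKer B) : MKer (A + B) :=
  Measurable.add hA hB

theorem MKer.smul {A : Ker} (c : ℝ≥0∞) (hA : MKer A) : MKer (c • A) :=
  Measurable.const_mul hA c

theorem MKer.comp {A B : Ker} (hA : MKer A) (hB : MKer B) : MKer (comp A B) := by
  unfold MKer LO.comp
  have h : Measurable (fun q : (E3 × E3) × E3 => A q.1.1 q.2 * B q.2 q.1.2) :=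
    (Measurable.comp (g := fun p : E3 × E3 => A p.1 p.2) hA
      (measurable_fst.fst.prodMk measurable_snd)).mul
      (Measurable.comp (g := fun p : E3 × E3 => B p.1 p.2) hB
        (measurable_snd.prodMk measurable_fst.snd))
  exact h.lintegral_prod_right'

theorem MKer.mulV {A : Ker} {V : E3 → ℝ≥0∞} (hA : MKer A) (hV : Measurable V) :
    MKer (mulV A V) :=
  Measurable.mul hA (hV.comp measurable_snd)

theorem MKer.it {A B : Ker} (hA : MKer A) (hB : MKer B) (n : ℕ) : MKer (it A n B) := by
  induction n with
  | zero => exact hB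
  | succ n ih => exact hA.comp ih

theorem MKer.left {A : Ker} (hA : MKer A) (y : E3) : Measurable (fun x => A x y) :=
  Measurable.comp (g := fun p : E3 × E3 => A p.1 p.2) hA (measurable_id.prodMk measurable_const)

theorem MKer.right {A : Ker} (hA : MKer A) (x : E3) : Measurable (fun y => A x y) :=
  Measurable.comp (g := fun p : E3 × E3 => A p.1 p.2) hA (measurable_const.prodMk measurable_id)

theorem meas_mul {A B : Ker} (hA : MKer A) (hB : MKer B) (x y : E3) :
    Measurable (fun z => A x z * B z y) := (hA.right x).mul (hB.left y)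

theorem comp_assoc {A B C : Ker} (hA : MKer A) (hB : MKer B) (hC : MKer C) :
    comp (comp A B) C = comp A (comp B C) := by
  funext x y
  show ∫⁻ z, (∫⁻ w, A x w * B w z) * C z y = ∫⁻ w, A x w * ∫⁻ z, B w z * C z y
  have h1 : ∀ z, (∫⁻ w, A x w * B w z) * C z y = ∫⁻ w, A x w * B w z * C z y := fun z =>
    (lintegral_mul_const _ (meas_mul hA hB x z)).symm
  have h2 : ∀ w, A x w * ∫⁻ z, B w z * C z y = ∫⁻ z, A x w * B w z * C z y := fun w => by
    rw [← lintegral_const_mul _ (meas_mul hB hC w y)]
    simp only [mul_assoc]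
  simp only [h1, h2]
  rw [lintegral_lintegral_swap]
  refine Measurable.aemeasurable ?_
  refine Measurable.mul (Measurable.mul ((hA.right x).comp measurable_snd) ?_)
    ((hC.left y).comp measurable_fst)
  exact Measurable.comp (g := fun p : E3 × E3 => B p.1 p.2) hB
    (measurable_snd.prodMk measurable_fst)

theorem comp_add_right {A B C : Ker} (hA : MKer A) (hB : MKer B) :
    comp A (B + C) = comp A B + comp A C := by
  funext x y
  show ∫⁻ z, A x z * (B z y + C z y) = (∫⁻ z, A x z * B z y) + ∫⁻ z, A x z * C z y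
  rw [← lintegral_add_left (meas_mul hA hB x y)]
  simp only [mul_add]

theorem comp_add_left {A B C : Ker} (hA : MKer A) (hC : MKer C) :
    comp (A + B) C = comp A C + comp B C := by
  funext x y
  show ∫⁻ z, (A x z + B x z) * C z y = (∫⁻ z, A x z * C z y) + ∫⁻ z, B x z * C z y
  rw [← lintegral_add_left (meas_mul hA hC x y)]
  simp only [add_mul]

theorem comp_smul_right {A B : Ker} (c : ℝ≥0∞) (hA : MKer A) (hB : MKer B) :
    comp A (c • B) = c • comp A B := by
  funext x y
  show ∫⁻ z, A x z * (c * B z y) = c * ∫⁻ z, A x z * B z y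
  rw [← lintegral_const_mul _ (meas_mul hA hB x y)]
  refine lintegral_congr fun z => ?_
  ring

theorem comp_smul_left {A B : Ker} (c : ℝ≥0∞) (hA : MKer A) (hB : MKer B) :
    comp (c • A) B = c • comp A B := by
  funext x y
  show ∫⁻ z, (c * A x z) * B z y = c * ∫⁻ z, A x z * B z y
  rw [← lintegral_const_mul _ (meas_mul hA hB x y)]
  refine lintegral_congr fun z => ?_
  ring

theorem comp_mono {A A' B B' : Ker} (hA : A ≤ A') (hB : B ≤ B') : comp A B ≤ comp A' B' :=
  fun x y => lintegral_mono fun z => mul_le_mul' (hA x z) (hB z y)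

/-- splitting the potential: `A (V + U) B = A V B + A U B` -/
theorem comp_mulV_add {A B : Ker} {V U : E3 → ℝ≥0∞} (hA : MKer A) (hB : MKer B)
    (hV : Measurable V) : comp (mulV A (V + U)) B = comp (mulV A V) B + comp (mulV A U) B := by
  have h : mulV A (V + U) = mulV A V + mulV A U := by
    funext x z
    exact mul_add _ _ _
  rw [h, comp_add_left (hA.mulV hV) hB]

/-- constant potential -/
theorem comp_mulV_const {A B : Ker} (c : ℝ≥0∞) (hA : MKer A) (hB : MKer B) :
    comp (mulV A fun _ => c) B = c • comp A B := by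
  have h : mulV A (fun _ => c) = c • A := by
    funext x z
    exact mul_comm _ _
  rw [h, comp_smul_left c hA hB]

/-- `(A∘B) V = A∘(B V)` -/
theorem mulV_comp {A B : Ker} {V : E3 → ℝ≥0∞} (hA : MKer A) (hB : MKer B) (hV : Measurable V) :
    mulV (comp A B) V = comp A (mulV B V) := by
  funext x y
  show (∫⁻ z, A x z * B z y) * V y = ∫⁻ z, A x z * (B z y * V y)
  rw [← lintegral_mul_const _ (meas_mul hA hB x y)]
  simp only [mul_assoc]

/-- transposition of `A V B` for symmetric `A`, `B` -/
theorem comp_mulV_symm {A B : Ker} {V : E3 → ℝ≥0∞} (hA : SymK A) (hB : SymK B) (x y : E3) :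
    comp (mulV A V) B x y = comp (mulV B V) A y x := by
  show ∫⁻ z, A x z * V z * B z y = ∫⁻ z, B y z * V z * A z x
  refine lintegral_congr fun z => ?_
  rw [hA x z, hB z y]
  ring

theorem comp_symm {A B : Ker} (hA : SymK A) (hB : SymK B) (x y : E3) :
    comp A B x y = comp B A y x := by
  show ∫⁻ z, A x z * B z y = ∫⁻ z, B y z * A z x
  refine lintegral_congr fun z => ?_
  rw [hA x z, hB z y]
  ring

theorem it_zero (A B : Ker) : it A 0 B = B := rfl

theorem it_succ (A B : Ker) (n : ℕ) : it A (n + 1) B = comp A (it A n B) := rfl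

theorem it_succ' (A B : Ker) (n : ℕ) : it A (n + 1) B = it A n (comp A B) := by
  induction n with
  | zero => rfl
  | succ n ih => rw [it_succ A B (n + 1), ih, ← it_succ]

theorem it_add (A B : Ker) (m n : ℕ) : it A (m + n) B = it A m (it A n B) := by
  induction m with
  | zero => rw [Nat.zero_add, it_zero]
  | succ m ih => rw [Nat.succ_add, it_succ, ih, it_succ]

theorem it_comp {A B C : Ker} (hA : MKer A) (hB : MKer B) (hC : MKer C) (n : ℕ) :
    comp (it A n B) C = it A n (comp B C) := by
  induction n with
  | zero => rfl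
  | succ n ih => rw [it_succ, comp_assoc hA (hA.it hB n) hC, ih, it_succ]

theorem it_mono {A B B' : Ker} (hB : B ≤ B') (n : ℕ) : it A n B ≤ it A n B' := by
  induction n with
  | zero => exact hB
  | succ n ih => exact comp_mono le_rfl ih

theorem it_mono_left {A A' B : Ker} (hA : A ≤ A') (n : ℕ) : it A n B ≤ it A' n B := by
  induction n with
  | zero => exact le_rfl
  | succ n ih => exact comp_mono hA ih

theorem it_add_right {A B C : Ker} (hA : MKer A) (hB : MKer B) (n : ℕ) :
    it A n (B + C) = it A n B + it A n C := by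
  induction n with
  | zero => rfl
  | succ n ih => rw [it_succ, ih, comp_add_right hA (hA.it hB n), it_succ, it_succ]

theorem it_smul_right {A B : Ker} (c : ℝ≥0∞) (hA : MKer A) (hB : MKer B) (n : ℕ) :
    it A n (c • B) = c • it A n B := by
  induction n with
  | zero => rfl
  | succ n ih => rw [it_succ, ih, comp_smul_right c hA (hA.it hB n), it_succ]

/-- `(A V)^n A` is symmetric for symmetric `A` -/
theorem it_mulV_symm {A : Ker} {V : E3 → ℝ≥0∞} (hA : SymK A) (hAm : MKer A)
    (hV : Measurable V) (n : ℕ) : SymK (it (mulV A V) n A) := by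
  induction n with
  | zero => exact hA
  | succ n ih =>
    intro x y
    have h1 : it (mulV A V) (n + 1) A x y = comp (mulV (it (mulV A V) n A) V) A y x := by
      rw [it_succ]
      exact comp_mulV_symm hA ih x y
    rw [h1]
    have h2 : mulV (it (mulV A V) n A) V = it (mulV A V) n (mulV A V) := by
      clear ih h1
      induction n with
      | zero => rfl
      | succ n ih =>
        rw [it_succ, mulV_comp (hAm.mulV hV) ((hAm.mulV hV).it hAm n) hV, ih, it_succ]
    rw [h2, it_comp (hAm.mulV hV) (hAm.mulV hV) hAm, ← it_succ']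

end Pool.Agent.H75.LO
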