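import Pool.Agent.H75.LO.Defs

/-!
# LO2: definitions for the improved constant

Two potentials `v` and `c v` (`c > 1`): `P = R_c (c v)` with `R_c = (-½Δ + c v)⁻¹`, `Q = R_1 v` with `R_1 = (-½Δ+v)⁻¹`.
The truncated Coulomb kernel is `2π P^k Q G_0`.
-/

open MeasureTheory Set
open scoped ENNReal

namespace Pool.Agent.H75.LO

def scaleV (c : ℝ) (v : E3 → ℝ) : E3 → ℝ := fun z => c * v z

structure Pot2 (Λ c : ℝ) (v : E3 → ℝ) : Prop where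
  one_lt : 1 < c
  pot : Pot Λ v
  potc : Pot Λ (scaleV c v)

/-- `P = R_c (c v)` -/
noncomputable def PK (Λ c : ℝ) (v : E3 → ℝ) : Ker := RV Λ (scaleV c v)

/-- `P^k R_1` -/
noncomputable def TK (Λ c : ℝ) (v : E3 → ℝ) (k : ℕ) : Ker := it (PK Λ c v) k (R Λ 0 v)

/-- `P^k Q G_0` -/
noncomputable def SK (Λ c : ℝ) (v : E3 → ℝ) (k : ℕ) : Ker :=
  it (PK Λ c v) k (comp (RV Λ v) G0)

/-- the kernel `(cm)^{l+1} g_{cm}^{*(l+1)} * g_m`, as a function of the distance -/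
noncomputable def cr (c : ℝ) (l : ℕ) (m r : ℝ) : ℝ≥0∞ :=
  ENNReal.ofReal ((c * m) ^ (l + 1)) *
    ∫⁻ s in Ioi (0 : ℝ), ∫⁻ t in Ioi (0 : ℝ),
      ENNReal.ofReal (s ^ l / (l.factorial : ℝ) * Real.exp (-(c * m * s)) * Real.exp (-(m * t))
        * heatR (s + t) r)

/-- frozen diagonal values: `m (G_0 * (cm)^k g_{cm}^{*k} * g_m)(0) = alpha2 c k √m` -/
noncomputable def alpha2 (c : ℝ) : ℕ → ℝ
  | 0 => alpha 1
  | k + 1 => (c * alpha2 c k - Real.sqrt c * alpha (k + 1)) / (c - 1)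

noncomputable def Y2 (c : ℝ) (l : ℕ) (m r : ℝ) : ℝ≥0∞ :=
  ENNReal.ofReal (m ^ (3 / 2 : ℝ)) * cr c l m r

/-- the pointwise inequality for the chain kernels -/
def PL2 (c : ℝ) (l : ℕ) (y : ℝ) : Prop := ∀ a b r : ℝ, 0 ≤ a → 0 ≤ b → 0 < r →
  ENNReal.ofReal a * Y2 c l b r + ENNReal.ofReal b * Y2 c l a r
    ≤ ENNReal.ofReal a * Y2 c l a r + ENNReal.ofReal b * Y2 c l b r
      + ENNReal.ofReal (y ^ (-(3 / 2) : ℝ) * (a * b * (Real.sqrt a - Real.sqrt b) ^ 2))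

/-- `m² ∫_s^∞ e^{-(u-s)} (2πu)^{-3/2} e^{-m r²/(2u)} du` -/
noncomputable def Z (s m r : ℝ) : ℝ :=
  m ^ 2 * ∫ u in Ioi s, Real.exp (-(u - s)) * (2 * Real.pi * u) ^ (-(3 / 2) : ℝ)
    * Real.exp (-(m * r ^ 2 / (2 * u)))

end Pool.Agent.H75.LO
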