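import Pool.Agent.H75.LO.ResD

/-!
# LO-RJ: the kernels `R^{[j]} = (R v)^j R`

* `Rj_le`: from `G0 = R + (Rv) G0`: `R ≤ G0`, `(Rv) G0 ≤ G0`; induction;
* `Rj_row`: `∫ (Rv)(x,w) f(w) dw ≤ sup f` by `R_row`; induction;
* `G0_decomp`: induction on `k` from `R_resolvent'`, `it_add_right`, `it_succ'`.
* `it_G0_transpose`: `(Rv)^n G0` is symmetric:
  `comp (RV) G0 = comp (mulV G0 v) R`, so `(Rv)^n G0 = G0 (vR)^n`. (E.g. prove by induction
  `it (RV) n G0 x y = it (RV) n G0 y x` from `it_comp`, `R_comm`, `comp_mulV_symm`.)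
-/

open MeasureTheory Set
open scoped ENNReal

namespace Pool.Agent.H75.LO

variable {Λ : ℝ} {v : E3 → ℝ}

theorem Rj_zero : Rj Λ v 0 = R Λ 0 v := rfl

theorem Rj_succ (j : ℕ) : Rj Λ v (j + 1) = comp (RV Λ v) (Rj Λ v j) := rfl

theorem Rj_meas (hv : Pot Λ v) (j : ℕ) : MKer (Rj Λ v j) :=
  (RV_meas hv).it (R_meas hv) j

theorem Rj_symm (hv : Pot Λ v) (j : ℕ) : SymK (Rj Λ v j) :=
  it_mulV_symm (R_symm hv) (R_meas hv) hv.measVf j

theorem rj_R_le (hv : Pot Λ v) : R Λ 0 v ≤ G0 := by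
  intro x y
  have h := congrFun (congrFun (R_resolvent' hv) x) y
  rw [h, Pi.add_apply, Pi.add_apply]
  exact le_self_add

theorem rj_comp_le (hv : Pot Λ v) : comp (RV Λ v) G0 ≤ G0 := by
  intro x y
  have h := congrFun (congrFun (R_resolvent' hv) x) y
  calc comp (RV Λ v) G0 x y ≤ R Λ 0 v x y + comp (RV Λ v) G0 x y := le_add_self
    _ = G0 x y := by
      rw [h, Pi.add_apply, Pi.add_apply]

theorem RV_G0_le (hv : Pot Λ v) (n : ℕ) : it (RV Λ v) n G0 ≤ G0 := by
  induction n with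
  | zero => exact le_refl _
  | succ n ih =>
    rw [it_succ]
    exact (comp_mono le_rfl ih).trans (rj_comp_le hv)

theorem Rj_le (hv : Pot Λ v) (j : ℕ) : Rj Λ v j ≤ G0 :=
  (it_mono (rj_R_le hv) j).trans (RV_G0_le hv j)

theorem Rj_row (hv : Pot Λ v) (j : ℕ) (x : E3) :
    ∫⁻ z, Rj Λ v j x z * ENNReal.ofReal (v z) ≤ 1 := by
  induction j generalizing x with
  | zero =>
    rw [Rj_zero]
    exact R_row hv x
  | succ j ih =>
    have h1 : ∀ z, Rj Λ v (j + 1) x z * ENNReal.ofReal (v z)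
        = ∫⁻ w, RV Λ v x w * (Rj Λ v j w z * ENNReal.ofReal (v z)) := by
      intro z
      have h := congrFun (congrFun (mulV_comp (V := Vf v) (RV_meas hv) (Rj_meas hv j)
        hv.measVf) x) z
      rw [← Rj_succ] at h
      exact h
    simp only [h1]
    rw [lintegral_lintegral_swap]
    · calc ∫⁻ w, ∫⁻ z, RV Λ v x w * (Rj Λ v j w z * ENNReal.ofReal (v z))
          ≤ ∫⁻ w, RV Λ v x w := by
            refine lintegral_mono fun w => ?_
            rw [lintegral_const_mul]
            · calc RV Λ v x w * ∫⁻ z, Rj Λ v j w z * ENNReal.ofReal (v z)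
                  ≤ RV Λ v x w * 1 := by gcongr; exact ih w
                _ = RV Λ v x w := mul_one _
            · exact ((Rj_meas hv j).right w).mul hv.measVf
        _ ≤ 1 := R_row hv x
    · have hm1 : Measurable (fun p : E3 × E3 => RV Λ v x p.2) :=
        Measurable.comp ((RV_meas hv).right x) measurable_snd
      have hm2 : Measurable (fun p : E3 × E3 => Rj Λ v j p.2 p.1) :=
        Measurable.comp (Rj_meas hv j) (measurable_snd.prodMk measurable_fst)
      have hm3 : Measurable (fun p : E3 × E3 => ENNReal.ofReal (v p.1)) :=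
        hv.measVf.comp measurable_fst
      exact (hm1.mul (hm2.mul hm3)).aemeasurable

theorem G0_decomp (hv : Pot Λ v) (k : ℕ) (x y : E3) :
    G0 x y = ∑ j ∈ Finset.range k, Rj Λ v j x y + it (RV Λ v) k G0 x y := by
  induction k with
  | zero => simp [it_zero]
  | succ k ih =>
    have h : it (RV Λ v) k G0 = Rj Λ v k + it (RV Λ v) (k + 1) G0 := by
      rw [it_succ']
      calc it (RV Λ v) k G0 = it (RV Λ v) k (R Λ 0 v + comp (RV Λ v) G0) := by
            rw [← R_resolvent' hv]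
        _ = it (RV Λ v) k (R Λ 0 v) + it (RV Λ v) k (comp (RV Λ v) G0) :=
            it_add_right (RV_meas hv) (R_meas hv) k
    rw [Finset.sum_range_succ, ih, add_assoc]
    congr 1
    exact congrFun (congrFun h x) y

theorem rj_mulV_it {A B : Ker} {V : E3 → ℝ≥0∞} (hA : MKer A) (hB : MKer B) (hV : Measurable V)
    (n : ℕ) : mulV (it A n B) V = it A n (mulV B V) := by
  induction n with
  | zero => rfl
  | succ n ih =>
    rw [it_succ, it_succ, mulV_comp hA (hA.it hB n) hV, ih]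

theorem it_G0_symm (hv : Pot Λ v) (n : ℕ) : SymK (it (RV Λ v) n G0) := by
  have hG : MKer G0 := gk_meas 0 0
  induction n with
  | zero =>
    rw [it_zero]
    exact gk_symm 0 0
  | succ n ih =>
    intro x y
    have h1 : comp (mulV (it (RV Λ v) n G0) (Vf v)) (R Λ 0 v) = it (RV Λ v) (n + 1) G0 := by
      rw [rj_mulV_it (RV_meas hv) hG hv.measVf n,
        it_comp (RV_meas hv) (hG.mulV hv.measVf) (R_meas hv) n, R_comm hv, ← it_succ']
    have h2 : comp (mulV (R Λ 0 v) (Vf v)) (it (RV Λ v) n G0) x y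
        = comp (mulV (it (RV Λ v) n G0) (Vf v)) (R Λ 0 v) y x :=
      comp_mulV_symm (R_symm hv) ih x y
    rw [h1] at h2
    rw [it_succ]
    exact h2

end Pool.Agent.H75.LO
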