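import Pool.Agent.H75.LO.ResG
import Pool.Agent.H75.LO.RJ
import Pool.Agent.H75.LO.Defs2

/-!
# LO2-Ch: the kernels `T_k = P^k R_1`, `S_k = P^k Q G_0`

`P = R_c (cv)`, `Q = R_1 v`; `R_1 = R Λ 0 v`, `R_c = R Λ 0 (scaleV c v)`.

* `PR_rel`: `(c-1) P R_1 + c R_c = c R_1` everywhere. `R_general` with `(cv, v)`:
  `R_c + P R_1 = R_1 + R_c v R_1`, and `c R_c v R_1 = P R_1`. So `c R_c + c P R_1 = c R_1 + P R_1`; off the diagonal cancel
  `P R_1 ≤ P G0 ≤ G0 < ∞` (`RV_G0_le` for `cv`); on the diagonal both sides are `∞` (`R ≥ g_Λ`, `gk 0 Λ x x = ∞`).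
* `TK_rel`: apply `it P k`.
* `TK_symm`: induction, off the diagonal from `TK_rel`, `Rj_symm` and finiteness.
* `SK_rel` (off the diagonal): `(c-1) P Q G0 + P G0 = c Q G0` follows from `PR_rel`, `G0 = R_c + P G0`, `G0 = R_1 + Q G0`,
  `P G0 = P R_1 + P Q G0` (all finite off the diagonal); then apply `it P k` (for `k ≥ 1` it then holds everywhere).
* `SK_symm`: `comp (RV Λ v) G0` is symmetric (`it_G0_symm` with `n = 1`); induction with `SK_rel`, `it_G0_symm` for `cv`.
* `Ch_decomp`: `G0_decomp` for `cv` and `G0 = R_1 + Q G0`.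
* `TK_row`: `∫ R_1 v ≤ 1` (`R_row`), `∫ P f ≤ sup f` (`R_row` for `cv`).
-/

open MeasureTheory Set
open scoped ENNReal

namespace Pool.Agent.H75.LO

variable {Λ c : ℝ} {v : E3 → ℝ}

theorem ch_PK_eq (h : Pot2 Λ c v) :
    PK Λ c v = ENNReal.ofReal c • mulV (R Λ 0 (scaleV c v)) (Vf v) := by
  funext x z
  show R Λ 0 (scaleV c v) x z * ENNReal.ofReal (c * v z)
    = ENNReal.ofReal c * (R Λ 0 (scaleV c v) x z * ENNReal.ofReal (v z))
  rw [ENNReal.ofReal_mul (by linarith [h.one_lt])]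
  ring

theorem ch_PK_meas (h : Pot2 Λ c v) : MKer (PK Λ c v) := RV_meas h.potc

theorem ch_c_split (h : Pot2 Λ c v) : ENNReal.ofReal c = ENNReal.ofReal (c - 1) + 1 := by
  have h1 := h.one_lt
  rw [← ENNReal.ofReal_one, ← ENNReal.ofReal_add (by linarith) zero_le_one]
  congr 1
  ring

theorem ch_R_diag {w : E3 → ℝ} (hw : Pot Λ w) (x : E3) : R Λ 0 w x x = ∞ := by
  have h1 : gk 0 Λ x x ≤ R Λ 0 w x x := by
    have h := congrFun (congrFun (R_eq' (Λ := Λ) (ε := 0) hw) x) x
    rw [zero_add, Pi.add_apply, Pi.add_apply] at h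
    rw [h]
    exact le_self_add
  have h2 : G0 x x = gk 0 Λ x x + ENNReal.ofReal Λ * comp G0 (gk 0 Λ) x x := by
    have h := congrFun (congrFun (gk_resolvent hw.pos) x) x
    rw [sub_zero] at h
    exact h
  have h3 : G0 x x = ∞ := by
    rw [G0_eq]
    simp
  have h4 : ENNReal.ofReal Λ * comp G0 (gk 0 Λ) x x ≠ ∞ :=
    ENNReal.mul_ne_top ENNReal.ofReal_ne_top (G0_comp_lt_top hw.pos x x).ne
  have h5 : gk 0 Λ x x = ∞ := by
    rw [h3] at h2
    rcases ENNReal.add_eq_top.1 h2.symm with h6 | h6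
    · exact h6
    · exact absurd h6 h4
  exact top_le_iff.1 (h5 ▸ h1)

theorem ch_PR_le (h : Pot2 Λ c v) : comp (PK Λ c v) (R Λ 0 v) ≤ G0 :=
  (comp_mono le_rfl (rj_R_le h.pot)).trans (rj_comp_le h.potc)

theorem PR_rel (h : Pot2 Λ c v) :
    ENNReal.ofReal (c - 1) • comp (PK Λ c v) (R Λ 0 v)
        + ENNReal.ofReal c • R Λ 0 (scaleV c v)
      = ENNReal.ofReal c • R Λ 0 v := by
  have hc : ENNReal.ofReal c ≠ 0 := by
    rw [Ne, ENNReal.ofReal_eq_zero]
    linarith [h.one_lt]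
  funext x y
  show ENNReal.ofReal (c - 1) * comp (PK Λ c v) (R Λ 0 v) x y
      + ENNReal.ofReal c * R Λ 0 (scaleV c v) x y = ENNReal.ofReal c * R Λ 0 v x y
  by_cases hxy : x = y
  · subst hxy
    rw [ch_R_diag h.pot, ch_R_diag h.potc, ENNReal.mul_top hc, add_top]
  · have e1 := congrFun (congrFun (R_general h.potc h.pot) x) y
    rw [Pi.add_apply, Pi.add_apply, Pi.add_apply, Pi.add_apply] at e1
    have e2 : comp (PK Λ c v) (R Λ 0 v) x y
        = ENNReal.ofReal c * comp (mulV (R Λ 0 (scaleV c v)) (Vf v)) (R Λ 0 v) x y := by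
      rw [ch_PK_eq h, comp_smul_left _ ((R_meas h.potc).mulV h.pot.measVf) (R_meas h.pot)]
      rfl
    have hfin : comp (PK Λ c v) (R Λ 0 v) x y ≠ ∞ :=
      ((ch_PR_le h x y).trans_lt (G0_lt_top hxy)).ne
    refine (ENNReal.add_right_inj hfin).1 ?_
    have e3 : comp (mulV (R Λ 0 (scaleV c v)) (Vf (scaleV c v))) (R Λ 0 v) x y
        = comp (PK Λ c v) (R Λ 0 v) x y := rfl
    rw [e3] at e1
    calc comp (PK Λ c v) (R Λ 0 v) x y + (ENNReal.ofReal (c - 1) * comp (PK Λ c v) (R Λ 0 v) x y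
          + ENNReal.ofReal c * R Λ 0 (scaleV c v) x y)
        = (ENNReal.ofReal (c - 1) + 1) * comp (PK Λ c v) (R Λ 0 v) x y
          + ENNReal.ofReal c * R Λ 0 (scaleV c v) x y := by ring
      _ = ENNReal.ofReal c * (R Λ 0 (scaleV c v) x y + comp (PK Λ c v) (R Λ 0 v) x y) := by
          rw [← ch_c_split h]
          ring
      _ = ENNReal.ofReal c * (R Λ 0 v x y
          + comp (mulV (R Λ 0 (scaleV c v)) (Vf v)) (R Λ 0 v) x y) := by rw [e1]
      _ = ENNReal.ofReal c * comp (mulV (R Λ 0 (scaleV c v)) (Vf v)) (R Λ 0 v) x y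
          + ENNReal.ofReal c * R Λ 0 v x y := by ring
      _ = _ := by rw [← e2]

theorem TK_meas (h : Pot2 Λ c v) (k : ℕ) : MKer (TK Λ c v k) :=
  (ch_PK_meas h).it (R_meas h.pot) k

theorem TK_rel (h : Pot2 Λ c v) (k : ℕ) :
    ENNReal.ofReal (c - 1) • TK Λ c v (k + 1) + ENNReal.ofReal c • Rj Λ (scaleV c v) k
      = ENNReal.ofReal c • TK Λ c v k := by
  have hP := ch_PK_meas h
  have h1 : TK Λ c v (k + 1) = it (PK Λ c v) k (comp (PK Λ c v) (R Λ 0 v)) := it_succ' _ _ _
  have h2 : Rj Λ (scaleV c v) k = it (PK Λ c v) k (R Λ 0 (scaleV c v)) := rfl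
  have h3 : TK Λ c v k = it (PK Λ c v) k (R Λ 0 v) := rfl
  rw [h1, h2, h3, ← it_smul_right _ hP (hP.comp (R_meas h.pot)), ← it_smul_right _ hP (R_meas h.potc),
    ← it_smul_right _ hP (R_meas h.pot), ← it_add_right hP ((hP.comp (R_meas h.pot)).smul _), PR_rel h]

theorem TK_le (h : Pot2 Λ c v) (k : ℕ) : TK Λ c v k ≤ G0 :=
  (it_mono (rj_R_le h.pot) k).trans (RV_G0_le h.potc k)

theorem TK_symm (h : Pot2 Λ c v) (k : ℕ) : SymK (TK Λ c v k) := by
  have hc : ENNReal.ofReal (c - 1) ≠ 0 := by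
    rw [Ne, ENNReal.ofReal_eq_zero]
    linarith [h.one_lt]
  induction k with
  | zero => exact R_symm h.pot
  | succ k ih =>
    intro x y
    by_cases hxy : x = y
    · rw [hxy]
    · have h1 := congrFun (congrFun (TK_rel h k) x) y
      have h2 := congrFun (congrFun (TK_rel h k) y) x
      have e1 : ENNReal.ofReal (c - 1) * TK Λ c v (k + 1) x y
          + ENNReal.ofReal c * Rj Λ (scaleV c v) k x y = ENNReal.ofReal c * TK Λ c v k x y := h1
      have e2 : ENNReal.ofReal (c - 1) * TK Λ c v (k + 1) y x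
          + ENNReal.ofReal c * Rj Λ (scaleV c v) k y x = ENNReal.ofReal c * TK Λ c v k y x := h2
      rw [Rj_symm h.potc k y x, ih y x] at e2
      have hfin : ENNReal.ofReal c * Rj Λ (scaleV c v) k x y ≠ ∞ :=
        ENNReal.mul_ne_top ENNReal.ofReal_ne_top
          ((Rj_le h.potc k x y).trans_lt (G0_lt_top hxy)).ne
      have e3 := (ENNReal.add_left_inj hfin).1 (e1.trans e2.symm)
      exact (ENNReal.mul_right_inj hc ENNReal.ofReal_ne_top).1 e3

theorem ch_it_row {A B : Ker} {V : E3 → ℝ≥0∞} (hA : MKer A) (hB : MKer B) (hV : Measurable V)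
    (hrow : ∀ x, ∫⁻ z, A x z ≤ 1) {L : ℝ≥0∞} (hL : ∀ x, ∫⁻ z, B x z * V z ≤ L) (n : ℕ) (x : E3) :
    ∫⁻ z, it A n B x z * V z ≤ L := by
  induction n generalizing x with
  | zero => exact hL x
  | succ n ih =>
    have h1 : ∀ z, it A (n + 1) B x z * V z = ∫⁻ w, A x w * (it A n B w z * V z) := by
      intro z
      have h := congrFun (congrFun (mulV_comp (V := V) hA (hA.it hB n) hV) x) z
      rw [← it_succ] at h
      exact h
    simp only [h1]
    rw [lintegral_lintegral_swap]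
    · calc ∫⁻ w, ∫⁻ z, A x w * (it A n B w z * V z)
          ≤ ∫⁻ w, A x w * L := by
            refine lintegral_mono fun w => ?_
            rw [lintegral_const_mul]
            · gcongr
              exact ih w
            · exact ((hA.it hB n).right w).mul hV
        _ = (∫⁻ w, A x w) * L := lintegral_mul_const _ (hA.right x)
        _ ≤ 1 * L := by gcongr; exact hrow x
        _ = L := one_mul _
    · have hm1 : Measurable (fun p : E3 × E3 => A x p.2) :=
        Measurable.comp (hA.right x) measurable_snd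
      have hm2 : Measurable (fun p : E3 × E3 => it A n B p.2 p.1) :=
        Measurable.comp (hA.it hB n) (measurable_snd.prodMk measurable_fst)
      have hm3 : Measurable (fun p : E3 × E3 => V p.1) := hV.comp measurable_fst
      exact (hm1.mul (hm2.mul hm3)).aemeasurable

theorem TK_row (h : Pot2 Λ c v) (k : ℕ) (x : E3) :
    ∫⁻ z, TK Λ c v k x z * ENNReal.ofReal (v z) ≤ 1 :=
  ch_it_row (ch_PK_meas h) (R_meas h.pot) h.pot.measVf (fun x => R_row h.potc x)
    (fun x => R_row h.pot x) k x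

/-- row sums of `(R_c cv)^j R_c` against `v` -/
theorem Rjc_row (h : Pot2 Λ c v) (j : ℕ) (x : E3) :
    ∫⁻ z, Rj Λ (scaleV c v) j x z * ENNReal.ofReal (v z) ≤ ENNReal.ofReal (1 / c) := by
  have hc0 : 0 < c := by linarith [h.one_lt]
  refine ch_it_row (ch_PK_meas h) (R_meas h.potc) h.pot.measVf (fun x => R_row h.potc x)
    (fun x => ?_) j x
  have h1 : ∀ z, R Λ 0 (scaleV c v) x z * Vf v z
      = ENNReal.ofReal (1 / c) * (R Λ 0 (scaleV c v) x z * ENNReal.ofReal (scaleV c v z)) := by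
    intro z
    have h2 : Vf v z = ENNReal.ofReal (1 / c) * ENNReal.ofReal (scaleV c v z) := by
      unfold Vf scaleV
      rw [← ENNReal.ofReal_mul (by positivity)]
      congr 1
      field_simp
    rw [h2]
    ring
  simp only [h1]
  rw [lintegral_const_mul]
  · calc ENNReal.ofReal (1 / c) * ∫⁻ z, R Λ 0 (scaleV c v) x z * ENNReal.ofReal (scaleV c v z)
        ≤ ENNReal.ofReal (1 / c) * 1 := by gcongr; exact R_row h.potc x
      _ = _ := mul_one _
  · exact ((R_meas h.potc).right x).mul h.potc.measVf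

theorem SK_meas (h : Pot2 Λ c v) (k : ℕ) : MKer (SK Λ c v k) :=
  (ch_PK_meas h).it ((RV_meas h.pot).comp (gk_meas 0 0)) k

theorem ch_comp_congr {A X Y : Ker} {y : E3} (hXY : ∀ z, z ≠ y → X z y = Y z y) (x : E3) :
    comp A X x y = comp A Y x y := by
  refine lintegral_congr_ae ?_
  have h : ∀ᵐ z : E3, z ≠ y := by
    rw [ae_iff]
    have h1 : {a : E3 | ¬ a ≠ y} = {y} := by
      ext a
      simp
    rw [h1]
    exact measure_singleton y
  filter_upwards [h] with z hz
  rw [hXY z hz]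

theorem ch_SK_succ (k : ℕ) : SK Λ c v (k + 1) = comp (PK Λ c v) (SK Λ c v k) := rfl

theorem SK_rel (h : Pot2 Λ c v) (k : ℕ) {x y : E3} (hxy : x ≠ y) :
    ENNReal.ofReal (c - 1) * SK Λ c v (k + 1) x y + it (PK Λ c v) (k + 1) G0 x y
      = ENNReal.ofReal c * SK Λ c v k x y := by
  have hP := ch_PK_meas h
  have hG : MKer G0 := gk_meas 0 0
  have hQ : MKer (RV Λ v) := RV_meas h.pot
  induction k generalizing x with
  | zero =>
    -- `P G0 = P R_1 + P Q G0`
    have e1 : comp (PK Λ c v) G0 = comp (PK Λ c v) (R Λ 0 v)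
        + comp (PK Λ c v) (comp (RV Λ v) G0) := by
      conv_lhs => rw [R_resolvent' h.pot]
      exact comp_add_right hP (R_meas h.pot)
    have f1 := congrFun (congrFun e1 x) y
    have f2 := congrFun (congrFun (R_resolvent' h.pot) x) y
    have f3 := congrFun (congrFun (R_resolvent' h.potc) x) y
    have f4 := congrFun (congrFun (PR_rel h) x) y
    have f4' : ENNReal.ofReal (c - 1) * comp (PK Λ c v) (R Λ 0 v) x y
        + ENNReal.ofReal c * R Λ 0 (scaleV c v) x y = ENNReal.ofReal c * R Λ 0 v x y := f4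
    have f3' : G0 x y = R Λ 0 (scaleV c v) x y + comp (PK Λ c v) G0 x y := f3
    rw [Pi.add_apply, Pi.add_apply] at f1 f2
    have hfin : ENNReal.ofReal c * R Λ 0 v x y ≠ ∞ :=
      ENNReal.mul_ne_top ENNReal.ofReal_ne_top ((resD_R_le h.pot x y).trans_lt (G0_lt_top hxy)).ne
    refine (ENNReal.add_right_inj hfin).1 ?_
    show ENNReal.ofReal c * R Λ 0 v x y
        + (ENNReal.ofReal (c - 1) * comp (PK Λ c v) (comp (RV Λ v) G0) x y
          + comp (PK Λ c v) G0 x y)
      = ENNReal.ofReal c * R Λ 0 v x y + ENNReal.ofReal c * comp (RV Λ v) G0 x y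
    calc ENNReal.ofReal c * R Λ 0 v x y
          + (ENNReal.ofReal (c - 1) * comp (PK Λ c v) (comp (RV Λ v) G0) x y
            + comp (PK Λ c v) G0 x y)
        = ENNReal.ofReal (c - 1) * (comp (PK Λ c v) (R Λ 0 v) x y
            + comp (PK Λ c v) (comp (RV Λ v) G0) x y)
          + ENNReal.ofReal c * R Λ 0 (scaleV c v) x y + comp (PK Λ c v) G0 x y := by
          rw [← f4']
          ring
      _ = (ENNReal.ofReal (c - 1) + 1) * comp (PK Λ c v) G0 x y
          + ENNReal.ofReal c * R Λ 0 (scaleV c v) x y := by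
          rw [← f1]
          ring
      _ = ENNReal.ofReal c * (R Λ 0 (scaleV c v) x y + comp (PK Λ c v) G0 x y) := by
          rw [← ch_c_split h]
          ring
      _ = ENNReal.ofReal c * (R Λ 0 v x y + comp (RV Λ v) G0 x y) := by rw [← f3', f2]
      _ = _ := by ring
  | succ k ih =>
    have e1 : comp (PK Λ c v) (ENNReal.ofReal (c - 1) • SK Λ c v (k + 1)
          + it (PK Λ c v) (k + 1) G0) x y
        = comp (PK Λ c v) (ENNReal.ofReal c • SK Λ c v k) x y :=
      ch_comp_congr (fun z hz => ih hz) x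
    rw [comp_add_right hP ((SK_meas h (k + 1)).smul _), comp_smul_right _ hP (SK_meas h (k + 1)),
      comp_smul_right _ hP (SK_meas h k), ← ch_SK_succ, ← ch_SK_succ, ← it_succ] at e1
    exact e1

theorem SK_le (h : Pot2 Λ c v) (k : ℕ) : SK Λ c v k ≤ G0 :=
  (it_mono (rj_comp_le h.pot) k).trans (RV_G0_le h.potc k)

theorem SK_symm (h : Pot2 Λ c v) (k : ℕ) : SymK (SK Λ c v k) := by
  have hc : ENNReal.ofReal (c - 1) ≠ 0 := by
    rw [Ne, ENNReal.ofReal_eq_zero]
    linarith [h.one_lt]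
  induction k with
  | zero => exact it_G0_symm h.pot 1
  | succ k ih =>
    intro x y
    by_cases hxy : x = y
    · rw [hxy]
    · have e1 := SK_rel h k hxy
      have e2 := SK_rel h k (Ne.symm hxy)
      have e4 : it (PK Λ c v) (k + 1) G0 y x = it (PK Λ c v) (k + 1) G0 x y :=
        it_G0_symm h.potc (k + 1) y x
      rw [e4, ih y x] at e2
      have hfin : it (PK Λ c v) (k + 1) G0 x y ≠ ∞ :=
        ((RV_G0_le h.potc (k + 1) x y).trans_lt (G0_lt_top hxy)).ne
      have e3 := (ENNReal.add_left_inj hfin).1 (e1.trans e2.symm)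
      exact (ENNReal.mul_right_inj hc ENNReal.ofReal_ne_top).1 e3

theorem Ch_decomp (h : Pot2 Λ c v) (k : ℕ) (x y : E3) :
    G0 x y = ∑ j ∈ Finset.range k, Rj Λ (scaleV c v) j x y + TK Λ c v k x y
      + SK Λ c v k x y := by
  have h1 := G0_decomp h.potc k x y
  have h2 : it (RV Λ (scaleV c v)) k G0 = TK Λ c v k + SK Λ c v k := by
    calc it (RV Λ (scaleV c v)) k G0
        = it (RV Λ (scaleV c v)) k (R Λ 0 v + comp (RV Λ v) G0) := by rw [← R_resolvent' h.pot]
      _ = it (RV Λ (scaleV c v)) k (R Λ 0 v) + it (RV Λ (scaleV c v)) k (comp (RV Λ v) G0) :=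
          it_add_right (RV_meas h.potc) (R_meas h.pot) k
  rw [h1, h2, add_assoc]
  rfl

end Pool.Agent.H75.LO
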