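import Pool.Agent.H75.LO.GauB

/-!
# LO-GauB2: convolution identities for `gk`

All from `gk_eq`, `heat_comp` and Tonelli: `(gk l a ∘ gk l' b)(x,y)` is the double integral over `s,t>0` of
`f(s) g(t) h_{s+t}(x,y)`, i.e. the integral over `u>0` of `h_u(x,y) ∫_0^u f(s) g(u-s) ds`
(substitute `t = u-s` in the inner integral and swap, using indicator functions).
* `gk_comp`: `∫_0^u (s^l/l!) ds = u^{l+1}/(l+1)!`;
* `gk_resolvent`: `∫_0^u e^{-a s} e^{-b(u-s)} ds = (e^{-au}-e^{-bu})/(b-a)`.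
The primed versions follow from symmetry (`comp_symm`, `gk_symm`).
-/

open MeasureTheory Set
open scoped ENNReal

namespace Pool.Agent.H75.LO

/-- the weights as functions on the whole line -/
noncomputable def gwt (l : ℕ) (m : ℝ) : ℝ → ℝ≥0∞ :=
  (Ioi (0 : ℝ)).indicator fun t =>
    ENNReal.ofReal (t ^ l / (l.factorial : ℝ) * Real.exp (-(m * t)))

theorem gwt_meas (l : ℕ) (m : ℝ) : Measurable (gwt l m) := by
  refine Measurable.indicator ?_ measurableSet_Ioi
  refine ENNReal.measurable_ofReal.comp ?_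
  exact (Continuous.measurable (by fun_prop))

theorem gwt_nonpos (l : ℕ) (m : ℝ) {t : ℝ} (ht : t ≤ 0) : gwt l m t = 0 := by
  unfold gwt
  rw [indicator_of_notMem]
  exact not_lt.2 ht

theorem gwt_pos (l : ℕ) (m : ℝ) {t : ℝ} (ht : 0 < t) :
    gwt l m t = ENNReal.ofReal (t ^ l / (l.factorial : ℝ) * Real.exp (-(m * t))) := by
  unfold gwt
  rw [indicator_of_mem]
  exact ht

theorem gk_eq_gwt (l : ℕ) (m : ℝ) (x y : E3) :
    gk l m x y = ∫⁻ t, gwt l m t * heat t x y := by
  rw [gk_eq, ← lintegral_indicator measurableSet_Ioi]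
  refine lintegral_congr (fun t => ?_)
  rcases le_or_gt t 0 with ht | ht
  · rw [gwt_nonpos l m ht, zero_mul, indicator_of_notMem]
    exact not_lt.2 ht
  · rw [gwt_pos l m ht, indicator_of_mem]
    exact ht

theorem gwt_comp_abs {X : Type*} [MeasurableSpace X] (μ : Measure X) [SFinite μ]
    {f g : ℝ → ℝ≥0∞} (hf : Measurable f) (hg : Measurable g)
    (hf0 : ∀ t ≤ 0, f t = 0) (hg0 : ∀ t ≤ 0, g t = 0) {p q : ℝ → X → ℝ≥0∞} {r : ℝ → ℝ≥0∞}
    (hp : Measurable (fun a : ℝ × X => p a.1 a.2)) (hq : Measurable (fun a : ℝ × X => q a.1 a.2))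
    (hr : Measurable r)
    (hpq : ∀ s t, 0 < s → 0 < t → ∫⁻ z, p s z * q t z ∂μ = r (s + t)) :
    ∫⁻ z, (∫⁻ s, f s * p s z) * (∫⁻ t, g t * q t z) ∂μ
      = ∫⁻ u, (∫⁻ s, f s * g (u - s)) * r u := by
  have hp1 : ∀ z, Measurable (fun s => p s z) := fun z =>
    hp.comp (measurable_id.prodMk measurable_const)
  have hq1 : ∀ z, Measurable (fun s => q s z) := fun z =>
    hq.comp (measurable_id.prodMk measurable_const)
  have hp2 : ∀ s, Measurable (fun z => p s z) := fun s =>
    hp.comp (measurable_const.prodMk measurable_id)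
  have hq2 : ∀ s, Measurable (fun z => q s z) := fun s =>
    hq.comp (measurable_const.prodMk measurable_id)
  have m3 : Measurable (fun a : (X × ℝ) × ℝ =>
      f a.1.2 * g a.2 * (p a.1.2 a.1.1 * q a.2 a.1.1)) := by
    refine ((hf.comp measurable_fst.snd).mul (hg.comp measurable_snd)).mul ?_
    exact (hp.comp (measurable_fst.snd.prodMk measurable_fst.fst)).mul
      (hq.comp (measurable_snd.prodMk measurable_fst.fst))
  have e1 : ∫⁻ z, (∫⁻ s, f s * p s z) * (∫⁻ t, g t * q t z) ∂μ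
      = ∫⁻ z, (∫⁻ s, ∫⁻ t, f s * g t * (p s z * q t z)) ∂μ := by
    refine lintegral_congr fun z => ?_
    have k1 : Measurable (fun s => f s * p s z) := hf.mul (hp1 z)
    have k2 : Measurable (fun t => g t * q t z) := hg.mul (hq1 z)
    rw [← lintegral_mul_const _ k1]
    refine lintegral_congr fun s => ?_
    rw [← lintegral_const_mul _ k2]
    refine lintegral_congr fun t => ?_
    ring
  have e2 : ∫⁻ z, (∫⁻ s, ∫⁻ t, f s * g t * (p s z * q t z)) ∂μ
      = ∫⁻ s, ∫⁻ z, (∫⁻ t, f s * g t * (p s z * q t z)) ∂μ :=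
    lintegral_lintegral_swap (Measurable.lintegral_prod_right' m3).aemeasurable
  have e3 : ∀ s, ∫⁻ z, (∫⁻ t, f s * g t * (p s z * q t z)) ∂μ
      = ∫⁻ t, f s * g t * r (s + t) := by
    intro s
    have k3 : Measurable (fun a : X × ℝ => f s * g a.2 * (p s a.1 * q a.2 a.1)) :=
      m3.comp ((measurable_fst.prodMk measurable_const).prodMk measurable_snd)
    rw [lintegral_lintegral_swap k3.aemeasurable]
    refine lintegral_congr fun t => ?_
    have k4 : Measurable (fun z => p s z * q t z) := (hp2 s).mul (hq2 t)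
    rw [lintegral_const_mul _ k4]
    rcases le_or_gt s 0 with hs | hs
    · rw [hf0 s hs, zero_mul, zero_mul, zero_mul]
    rcases le_or_gt t 0 with ht | ht
    · rw [hg0 t ht, mul_zero, zero_mul, zero_mul]
    rw [hpq s t hs ht]
  have e4 : ∀ s, ∫⁻ t, f s * g t * r (s + t) = ∫⁻ u, f s * g (u - s) * r u := by
    intro s
    rw [← lintegral_sub_right_eq_self (fun t => f s * g t * r (s + t)) s]
    refine lintegral_congr fun u => ?_
    rw [add_sub_cancel]
  have k5 : Measurable (fun a : ℝ × ℝ => f a.1 * g (a.2 - a.1) * r a.2) :=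
    ((hf.comp measurable_fst).mul (hg.comp (measurable_snd.sub measurable_fst))).mul
      (hr.comp measurable_snd)
  have e5 : ∫⁻ s, ∫⁻ u, f s * g (u - s) * r u = ∫⁻ u, ∫⁻ s, f s * g (u - s) * r u :=
    lintegral_lintegral_swap k5.aemeasurable
  rw [e1, e2, lintegral_congr (fun s => (e3 s).trans (e4 s)), e5]
  refine lintegral_congr fun u => ?_
  have k6 : Measurable (fun s => f s * g (u - s)) :=
    hf.mul (hg.comp (measurable_const.sub measurable_id))
  rw [lintegral_mul_const _ k6]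

theorem gheat_m1 (x : E3) : Measurable (fun a : ℝ × E3 => heat a.1 x a.2) := by
  have h : Measurable (fun a : ℝ × E3 => ((a.1, (x, a.2)) : ℝ × E3 × E3)) := by fun_prop
  exact measurable_heat.comp h

theorem gheat_m2 (y : E3) : Measurable (fun a : ℝ × E3 => heat a.1 a.2 y) := by
  have h : Measurable (fun a : ℝ × E3 => ((a.1, (a.2, y)) : ℝ × E3 × E3)) := by fun_prop
  exact measurable_heat.comp h

theorem gheat_m3 (x y : E3) : Measurable (fun u : ℝ => heat u x y) := by
  have h : Measurable (fun a : ℝ => ((a, (x, y)) : ℝ × E3 × E3)) := by fun_prop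
  exact measurable_heat.comp h

theorem gwt_comp {f g : ℝ → ℝ≥0∞} (hf : Measurable f) (hg : Measurable g)
    (hf0 : ∀ t ≤ 0, f t = 0) (hg0 : ∀ t ≤ 0, g t = 0) (x y : E3) :
    ∫⁻ z : E3, (∫⁻ s, f s * heat s x z) * (∫⁻ t, g t * heat t z y)
      = ∫⁻ u, (∫⁻ s, f s * g (u - s)) * heat u x y :=
  gwt_comp_abs volume hf hg hf0 hg0 (p := fun s z => heat s x z)
    (q := fun t z => heat t z y) (r := fun u => heat u x y) (gheat_m1 x) (gheat_m2 y)
    (gheat_m3 x y) (fun _ _ hs ht => congrFun (congrFun (heat_comp hs ht) x) y)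

/-- the inner integral, by the fundamental theorem of calculus -/
theorem gwt_conv (l : ℕ) (a b : ℝ) {u : ℝ} (hu : 0 < u) (Φ : ℝ → ℝ)
    (hΦ : ∀ s, HasDerivAt Φ
      (s ^ l / (l.factorial : ℝ) * Real.exp (-(a * s)) * Real.exp (-(b * (u - s)))) s) :
    ∫⁻ s, gwt l a s * gwt 0 b (u - s) = ENNReal.ofReal (Φ u - Φ 0) := by
  set F : ℝ → ℝ := fun s =>
    s ^ l / (l.factorial : ℝ) * Real.exp (-(a * s)) * Real.exp (-(b * (u - s))) with hF
  have hFc : Continuous F := by
    rw [hF]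
    fun_prop
  have h1 : ∫⁻ s, gwt l a s * gwt 0 b (u - s) = ∫⁻ s in Ioo 0 u, ENNReal.ofReal (F s) := by
    rw [← lintegral_indicator measurableSet_Ioo]
    refine lintegral_congr (fun s => ?_)
    by_cases hs : s ∈ Ioo 0 u
    · rw [indicator_of_mem hs, gwt_pos l a hs.1, gwt_pos 0 b (sub_pos.2 hs.2),
        ← ENNReal.ofReal_mul (by have := hs.1.le; positivity)]
      congr 1
      simp [hF]
    · rw [indicator_of_notMem hs]
      rcases le_or_gt s 0 with h | h
      · rw [gwt_nonpos l a h, zero_mul]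
      · have h' : u ≤ s := by
          by_contra hlt
          exact hs ⟨h, not_le.1 hlt⟩
        rw [gwt_nonpos 0 b (sub_nonpos.2 h'), mul_zero]
  have h2 : ∫ s in (0 : ℝ)..u, F s = Φ u - Φ 0 :=
    intervalIntegral.integral_eq_sub_of_hasDerivAt (fun s _ => hΦ s)
      (hFc.intervalIntegrable 0 u)
  rw [h1, ← h2, intervalIntegral.integral_of_le hu.le, ← setLIntegral_congr Ioo_ae_eq_Ioc.symm,
    ofReal_integral_eq_lintegral_ofReal]
  · exact (hFc.intervalIntegrable 0 u).1
  · refine (ae_restrict_iff' measurableSet_Ioc).2 (Filter.Eventually.of_forall (fun s hs => ?_))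
    have := hs.1.le
    change 0 ≤ s ^ l / (l.factorial : ℝ) * Real.exp (-(a * s)) * Real.exp (-(b * (u - s)))
    positivity

theorem gwt_conv_nonpos (l : ℕ) (a b : ℝ) {u : ℝ} (hu : u ≤ 0) :
    ∫⁻ s, gwt l a s * gwt 0 b (u - s) = 0 := by
  have h : ∀ s, gwt l a s * gwt 0 b (u - s) = 0 := by
    intro s
    rcases le_or_gt s 0 with h | h
    · rw [gwt_nonpos l a h, zero_mul]
    · rw [gwt_nonpos 0 b (by linarith), mul_zero]
  simp only [h, lintegral_zero]

theorem gwt_conv_same (l : ℕ) (m u : ℝ) :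
    ∫⁻ s, gwt l m s * gwt 0 m (u - s) = gwt (l + 1) m u := by
  rcases le_or_gt u 0 with hu | hu
  · rw [gwt_conv_nonpos l m m hu, gwt_nonpos _ _ hu]
  · rw [gwt_conv l m m hu
      (fun s => s ^ (l + 1) / ((l + 1).factorial : ℝ) * Real.exp (-(m * u))), gwt_pos _ _ hu]
    · congr 1
      simp
    · intro s
      have h1 : HasDerivAt (fun s : ℝ => s ^ (l + 1)) (((l + 1 : ℕ) : ℝ) * s ^ l) s := by
        simpa using hasDerivAt_pow (l + 1) s
      have h2 := (h1.div_const ((l + 1).factorial : ℝ)).mul_const (Real.exp (-(m * u)))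
      refine h2.congr_deriv ?_
      rw [Nat.factorial_succ, mul_assoc (s ^ l / (l.factorial : ℝ)), ← Real.exp_add]
      have h3 : ((l : ℝ) + 1) ≠ 0 := by positivity
      have h4 : (l.factorial : ℝ) ≠ 0 := by positivity
      have h5 : -(m * s) + -(m * (u - s)) = -(m * u) := by ring
      rw [h5]
      push_cast
      field_simp

theorem gwt_conv_diff {a b : ℝ} (hab : a < b) (u : ℝ) :
    gwt 0 a u = gwt 0 b u
      + ENNReal.ofReal (b - a) * ∫⁻ s, gwt 0 a s * gwt 0 b (u - s) := by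
  rcases le_or_gt u 0 with hu | hu
  · rw [gwt_conv_nonpos 0 a b hu, gwt_nonpos _ _ hu, gwt_nonpos _ _ hu, mul_zero, add_zero]
  · have hd : b - a ≠ 0 := (sub_pos.2 hab).ne'
    rw [gwt_conv 0 a b hu
      (fun s => Real.exp ((b - a) * s - b * u) / (b - a)), gwt_pos _ _ hu, gwt_pos _ _ hu,
      ← ENNReal.ofReal_mul (sub_pos.2 hab).le, ← ENNReal.ofReal_add (by positivity)]
    · congr 1
      simp only [pow_zero, Nat.factorial_zero, Nat.cast_one, div_one, one_mul, mul_zero, zero_sub]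
      rw [show (b - a) * u - b * u = -(a * u) by ring]
      field_simp
      ring
    · refine mul_nonneg (sub_pos.2 hab).le ?_
      rw [← sub_div]
      refine div_nonneg ?_ (sub_pos.2 hab).le
      rw [sub_nonneg, Real.exp_le_exp]
      nlinarith [mul_pos (sub_pos.2 hab) hu]
    · intro s
      have h1 : HasDerivAt (fun s : ℝ => (b - a) * s - b * u) (b - a) s := by
        simpa using ((hasDerivAt_id s).const_mul (b - a)).sub_const (b * u)
      have h2 := (h1.exp).div_const (b - a)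
      refine h2.congr_deriv ?_
      simp only [pow_zero, Nat.factorial_zero, Nat.cast_one, div_one, one_mul]
      rw [← Real.exp_add, mul_div_cancel_right₀ _ hd]
      congr 1
      ring

theorem gk_comp_gwt (l : ℕ) (a b : ℝ) (x y : E3) :
    comp (gk l a) (gk 0 b) x y
      = ∫⁻ u, (∫⁻ s, gwt l a s * gwt 0 b (u - s)) * heat u x y := by
  rw [← gwt_comp (gwt_meas l a) (gwt_meas 0 b) (fun t ht => gwt_nonpos l a ht)
    (fun t ht => gwt_nonpos 0 b ht)]
  unfold comp
  simp only [gk_eq_gwt]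

theorem gk_comp (l : ℕ) (m : ℝ) : comp (gk l m) (gk 0 m) = gk (l + 1) m := by
  funext x y
  rw [gk_comp_gwt, gk_eq_gwt]
  simp only [gwt_conv_same]

theorem gk_comp' (l : ℕ) (m : ℝ) : comp (gk 0 m) (gk l m) = gk (l + 1) m := by
  funext x y
  rw [comp_symm (gk_symm 0 m) (gk_symm l m), gk_comp, gk_symm (l + 1) m]

theorem gk_resolvent {a b : ℝ} (hab : a < b) :
    gk 0 a = gk 0 b + ENNReal.ofReal (b - a) • comp (gk 0 a) (gk 0 b) := by
  funext x y
  rw [Pi.add_apply, Pi.add_apply, Pi.smul_apply, Pi.smul_apply, smul_eq_mul]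
  have k1 : Measurable (fun u : ℝ => gwt 0 b u * heat u x y) :=
    (gwt_meas 0 b).mul (gheat_m3 x y)
  rw [gk_comp_gwt, gk_eq_gwt, gk_eq_gwt 0 b, ← lintegral_const_mul' _ _ ENNReal.ofReal_ne_top,
    ← lintegral_add_left k1]
  refine lintegral_congr (fun u => ?_)
  rw [gwt_conv_diff hab u]
  ring

theorem gk_resolvent' {a b : ℝ} (hab : a < b) :
    gk 0 a = gk 0 b + ENNReal.ofReal (b - a) • comp (gk 0 b) (gk 0 a) := by
  funext x y
  have h := congrFun (congrFun (gk_resolvent hab) y) x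
  rw [Pi.add_apply, Pi.add_apply, Pi.smul_apply, Pi.smul_apply, smul_eq_mul] at h ⊢
  rw [gk_symm 0 a x y, gk_symm 0 b x y, comp_symm (gk_symm 0 b) (gk_symm 0 a) x y]
  exact h

end Pool.Agent.H75.LO
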