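import Pool.Agent.H75.LO.GauC
import Pool.Agent.H75.LO.GauB2

/-!
# LO-GauD: the frozen diagonal value and finiteness of `G0`

`(G_0 ∘ gk l m)(x,x) = ∫_0^∞ ds ∫_0^∞ dt (t^l/l!) e^{-mt} h_{s+t}(0)`
`= ∫_0^∞ (t^l/l!) e^{-mt} ∫_t^∞ (2πu)^{-3/2} du dt = 2(2π)^{-3/2} ∫_0^∞ (t^{l-1/2}/l!) e^{-mt} dt`
`= 2(2π)^{-3/2} Γ(l+1/2)/l! · m^{-l-1/2} = alpha (l+1) · m^{-l-1/2}`.
Use `gk_eq`, `heat_comp`, Tonelli (alternatively `gr_zero_zero` and radial integration).
-/

open MeasureTheory Set
open scoped ENNReal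

namespace Pool.Agent.H75.LO

theorem gauD_G0 (x z : E3) : G0 x z = ∫⁻ s in Ioi (0 : ℝ), heat s x z := by
  unfold G0
  rw [gk_eq]
  refine setLIntegral_congr_fun measurableSet_Ioi fun s _ => ?_
  simp

theorem gauD_inner {t : ℝ} (ht : 0 < t) (x : E3) :
    ∫⁻ s in Ioi (0 : ℝ), heat (s + t) x x =
      ENNReal.ofReal (2 * (2 * Real.pi) ^ (-(3 / 2) : ℝ) * t ^ (-(1 / 2) : ℝ)) := by
  have hp : 0 < 2 * Real.pi := by positivity
  have h1 : ∀ u ∈ Ioi t, heat u x x =
      ENNReal.ofReal ((2 * Real.pi) ^ (-(3 / 2) : ℝ) * u ^ (-(3 / 2) : ℝ)) := by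
    intro u hu
    have hu0 : 0 < u := ht.trans hu
    unfold heat heatR
    congr 1
    rw [sub_self, norm_zero, Real.mul_rpow hp.le hu0.le]
    simp
  have hmeas : Measurable (fun u : ℝ => heat u x x) :=
    measurable_heat.comp (measurable_id.prodMk (measurable_const.prodMk measurable_const))
  have h2 := (measurePreserving_add_right (volume : Measure ℝ) t).setLIntegral_comp_preimage
    (measurableSet_Ioi (a := t)) hmeas
  have h3 : (fun s : ℝ => s + t) ⁻¹' Ioi t = Ioi 0 := by
    ext s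
    simp
  rw [h3] at h2
  rw [h2, setLIntegral_congr_fun measurableSet_Ioi h1]
  have h4 : IntegrableOn (fun u : ℝ => (2 * Real.pi) ^ (-(3 / 2) : ℝ) * u ^ (-(3 / 2) : ℝ))
      (Ioi t) := (integrableOn_Ioi_rpow_of_lt (by norm_num) ht).const_mul _
  rw [← ofReal_integral_eq_lintegral_ofReal h4]
  · congr 1
    rw [integral_const_mul, integral_Ioi_rpow_of_lt (by norm_num) ht]
    have e : (-(3 / 2) + 1 : ℝ) = -(1 / 2) := by norm_num
    rw [e]
    ring
  · refine (ae_restrict_iff' measurableSet_Ioi).2 (Filter.Eventually.of_forall fun u hu => ?_)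
    have hu0 : 0 < u := ht.trans hu
    simp only [Pi.zero_apply]
    positivity

theorem gauD_outer (l : ℕ) {m : ℝ} (hm : 0 < m) :
    ∫⁻ t in Ioi (0 : ℝ),
      ENNReal.ofReal (t ^ l / (l.factorial : ℝ) * Real.exp (-(m * t))) *
        ENNReal.ofReal (2 * (2 * Real.pi) ^ (-(3 / 2) : ℝ) * t ^ (-(1 / 2) : ℝ)) =
      ENNReal.ofReal (alpha (l + 1) * m ^ (-(l : ℝ) - 1 / 2)) := by
  have hl : (-1 : ℝ) < (l : ℝ) - 1 / 2 := by
    have : (0 : ℝ) ≤ l := Nat.cast_nonneg l
    linarith
  have hl2 : (0 : ℝ) < (l : ℝ) + 1 / 2 := by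
    have : (0 : ℝ) ≤ l := Nat.cast_nonneg l
    linarith
  set K : ℝ := 2 * (2 * Real.pi) ^ (-(3 / 2) : ℝ) / (l.factorial : ℝ) with hK
  have h1 : ∀ t ∈ Ioi (0 : ℝ),
      ENNReal.ofReal (t ^ l / (l.factorial : ℝ) * Real.exp (-(m * t))) *
        ENNReal.ofReal (2 * (2 * Real.pi) ^ (-(3 / 2) : ℝ) * t ^ (-(1 / 2) : ℝ)) =
      ENNReal.ofReal (K * (t ^ ((l : ℝ) - 1 / 2) * Real.exp (-m * t ^ (1 : ℝ)))) := by
    intro t ht
    have ht0 : 0 < t := ht
    rw [← ENNReal.ofReal_mul (by positivity)]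
    congr 1
    rw [Real.rpow_one, sub_eq_add_neg, Real.rpow_add ht0, Real.rpow_natCast, hK, neg_mul]
    ring
  rw [setLIntegral_congr_fun measurableSet_Ioi h1]
  have h2 := integrableOn_rpow_mul_exp_neg_mul_rpow (s := (l : ℝ) - 1 / 2) (p := 1) (b := m)
    hl one_pos hm
  rw [← ofReal_integral_eq_lintegral_ofReal (h2.const_mul K)]
  · congr 1
    rw [integral_const_mul]
    have h3 := Real.integral_rpow_mul_exp_neg_mul_Ioi (a := (l : ℝ) + 1 / 2) (r := m) hl2 hm
    have h4 : ∫ t in Ioi (0 : ℝ), t ^ ((l : ℝ) - 1 / 2) * Real.exp (-m * t ^ (1 : ℝ)) =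
        (1 / m) ^ ((l : ℝ) + 1 / 2) * Real.Gamma ((l : ℝ) + 1 / 2) := by
      rw [← h3]
      refine setIntegral_congr_fun measurableSet_Ioi fun t _ => ?_
      rw [Real.rpow_one, neg_mul]
      congr 2
      ring
    rw [h4]
    unfold alpha
    have e1 : ((l + 1 : ℕ) : ℝ) - 1 / 2 = (l : ℝ) + 1 / 2 := by
      push_cast
      ring
    have e2 : Real.Gamma ((l + 1 : ℕ) : ℝ) = (l.factorial : ℝ) := by
      push_cast
      exact Real.Gamma_nat_eq_factorial l
    have e3 : (1 / m) ^ ((l : ℝ) + 1 / 2) = m ^ (-(l : ℝ) - 1 / 2) := by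
      rw [one_div, Real.inv_rpow hm.le, ← Real.rpow_neg hm.le]
      congr 1
      ring
    rw [e1, e2, e3, hK]
    ring
  · refine (ae_restrict_iff' measurableSet_Ioi).2 (Filter.Eventually.of_forall fun t ht => ?_)
    have ht0 : 0 < t := ht
    simp only [Pi.zero_apply]
    positivity

theorem frozen (l : ℕ) {m : ℝ} (hm : 0 < m) (x : E3) :
    comp G0 (gk l m) x x
      = ENNReal.ofReal (alpha (l + 1) * m ^ (-(l : ℝ) - 1 / 2)) := by
  rw [← gauD_outer l hm]
  set c : ℝ → ℝ≥0∞ := fun t =>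
    ENNReal.ofReal (t ^ l / (l.factorial : ℝ) * Real.exp (-(m * t))) with hc
  have hcm : Measurable c := by
    rw [hc]
    fun_prop
  have hH1 : Measurable (fun p : E3 × ℝ => heat p.2 x p.1) :=
    measurable_heat.comp (measurable_snd.prodMk (measurable_const.prodMk measurable_fst))
  have hH2 : Measurable (fun p : E3 × ℝ => heat p.2 p.1 x) :=
    measurable_heat.comp (measurable_snd.prodMk (measurable_fst.prodMk measurable_const))
  have hI : Measurable (fun z : E3 => ∫⁻ t in Ioi (0 : ℝ), c t * heat t z x) :=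
    Measurable.lintegral_prod_right' (f := fun p : E3 × ℝ => c p.2 * heat p.2 p.1 x)
      ((hcm.comp measurable_snd).mul hH2)
  have s1 : comp G0 (gk l m) x x = ∫⁻ z, ∫⁻ s in Ioi (0 : ℝ), heat s x z *
      (∫⁻ t in Ioi (0 : ℝ), c t * heat t z x) := by
    unfold comp
    refine lintegral_congr fun z => ?_
    rw [gauD_G0, gk_eq, lintegral_mul_const]
    exact measurable_heat.comp (measurable_id.prodMk (measurable_const.prodMk measurable_const))
  have s2 : ∫⁻ z, ∫⁻ s in Ioi (0 : ℝ), heat s x z *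
      (∫⁻ t in Ioi (0 : ℝ), c t * heat t z x) =
      ∫⁻ s in Ioi (0 : ℝ), ∫⁻ z, heat s x z *
      (∫⁻ t in Ioi (0 : ℝ), c t * heat t z x) := by
    apply lintegral_lintegral_swap
    exact (hH1.mul (hI.comp measurable_fst)).aemeasurable
  have s3 : ∀ s ∈ Ioi (0 : ℝ), ∫⁻ z, heat s x z *
      (∫⁻ t in Ioi (0 : ℝ), c t * heat t z x) =
      ∫⁻ t in Ioi (0 : ℝ), c t * heat (s + t) x x := by
    intro s hs
    have e1 : ∀ z, heat s x z * (∫⁻ t in Ioi (0 : ℝ), c t * heat t z x) =
        ∫⁻ t in Ioi (0 : ℝ), heat s x z * (c t * heat t z x) := by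
      intro z
      rw [lintegral_const_mul]
      exact hcm.mul
        (measurable_heat.comp (measurable_id.prodMk (measurable_const.prodMk measurable_const)))
    rw [lintegral_congr e1, lintegral_lintegral_swap]
    · refine setLIntegral_congr_fun measurableSet_Ioi fun t ht => ?_
      have e2 : ∀ z, heat s x z * (c t * heat t z x) = c t * (heat s x z * heat t z x) := by
        intro z
        ring
      rw [lintegral_congr e2, lintegral_const_mul]
      · congr 1
        exact congrFun (congrFun (heat_comp hs ht) x) x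
      · exact (measurable_heat.comp
          (measurable_const.prodMk (measurable_const.prodMk measurable_id))).mul
          (measurable_heat.comp
          (measurable_const.prodMk (measurable_id.prodMk measurable_const)))
    · refine Measurable.aemeasurable ?_
      exact (measurable_heat.comp
          (measurable_const.prodMk (measurable_const.prodMk measurable_fst))).mul
          ((hcm.comp measurable_snd).mul hH2)
  rw [s1, s2, setLIntegral_congr_fun measurableSet_Ioi s3, lintegral_lintegral_swap]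
  · refine setLIntegral_congr_fun measurableSet_Ioi fun t ht => ?_
    rw [lintegral_const_mul, gauD_inner ht]
    exact measurable_heat.comp ((measurable_id.add_const t).prodMk
      (measurable_const.prodMk measurable_const))
  · refine Measurable.aemeasurable ?_
    exact (hcm.comp measurable_snd).mul (measurable_heat.comp
      ((measurable_fst.add measurable_snd).prodMk (measurable_const.prodMk measurable_const)))

/-- `m^{l+1} (G_0 ∘ gk l m)(x,x) = alpha (l+1) √m` -/
theorem frozen' (l : ℕ) {m : ℝ} (hm : 0 < m) (x : E3) :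
    ENNReal.ofReal (m ^ (l + 1)) * comp G0 (gk l m) x x
      = ENNReal.ofReal (alpha (l + 1) * Real.sqrt m) := by
  rw [frozen l hm, ← ENNReal.ofReal_mul (by positivity)]
  congr 1
  have e : m ^ (l + 1) * m ^ (-(l : ℝ) - 1 / 2) = Real.sqrt m := by
    rw [← Real.rpow_natCast m (l + 1), ← Real.rpow_add hm, Real.sqrt_eq_rpow]
    congr 1
    push_cast
    ring
  rw [← e]
  ring

theorem G0_eq (x y : E3) : G0 x y = (ENNReal.ofReal (2 * Real.pi * ‖x - y‖))⁻¹ := by
  unfold G0 gk
  exact gr_zero_zero (norm_nonneg _)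

theorem G0_lt_top {x y : E3} (h : x ≠ y) : G0 x y < ∞ := by
  rw [G0_eq, ENNReal.inv_lt_top, ENNReal.ofReal_pos]
  have h1 : 0 < ‖x - y‖ := norm_pos_iff.2 (sub_ne_zero.2 h)
  positivity

/-- from the resolvent equation off the diagonal and `frozen` on it -/
theorem G0_comp_lt_top {m : ℝ} (hm : 0 < m) (x y : E3) : comp G0 (gk 0 m) x y < ∞ := by
  by_cases hxy : x = y
  · subst hxy
    rw [frozen 0 hm]
    exact ENNReal.ofReal_lt_top
  · have h1 := congrFun (congrFun (gk_resolvent hm) x) y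
    have h2 : ENNReal.ofReal m * comp G0 (gk 0 m) x y ≤ G0 x y := by
      have h3 : G0 x y = gk 0 m x y + ENNReal.ofReal (m - 0) * comp G0 (gk 0 m) x y := h1
      rw [h3, sub_zero]
      exact le_add_self
    by_contra hcon
    rw [not_lt, top_le_iff] at hcon
    rw [hcon, ENNReal.mul_top (by simpa using hm)] at h2
    exact absurd (lt_of_le_of_lt h2 (G0_lt_top hxy)) (lt_irrefl _)

end Pool.Agent.H75.LO
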