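import Pool.Agent.H75.LO.Defs2
import Pool.Agent.H75.LO.GauD

/-!
# LO2-Ck: the chain kernels of the free Laplacian

`ck c l m x y := cr c l m ‖x-y‖`.
* `ck_eq`: `ck c l m = ofReal ((cm)^{l+1}) • comp (gk l (cm)) (gk 0 m)` (`gk_eq`, `heat_comp`, Tonelli);
* `ck_step`: `(cm) • comp (gk 0 (cm)) (ck c l m) = ck c (l+1) m` (`gk_comp'`, `comp_assoc`);
* `ck_rel0`: `(c-1) ck c 0 m + c gk 0 (cm) = c gk 0 m` (from `gk_resolvent` with `a = m`, `b = cm`: multiply by `c`);
* `ck_rel`: `(c-1) ck c (l+1) m + c (cm)^{l+1} gk (l+1) (cm) = c ck c l m` (compose `ck_rel0` with `(cm)^{l+1} gk l (cm)`);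
* `ck_frozen`: `m (G0 ∘ ck c l m)(x,x) = alpha2 c (l+1) √m`: apply `comp G0 · x x` to `ck_rel0`, `ck_rel` and use
  `frozen'` at `cm`: `(cm)^{j+1} (G0 ∘ gk j (cm))(x,x) = alpha (j+1) √(cm)`; induction on `l`
  (all terms finite; `alpha2 c (l+1) = (c alpha2 c l - √c alpha (l+1))/(c-1)`).
-/

open MeasureTheory Set
open scoped ENNReal

namespace Pool.Agent.H75.LO

noncomputable def ck (c : ℝ) (l : ℕ) (m : ℝ) : Ker := fun x y => cr c l m ‖x - y‖

theorem measurable_cr (c : ℝ) (l : ℕ) : Measurable (fun p : ℝ × ℝ => cr c l p.1 p.2) := by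
  unfold cr
  have h : Measurable (fun q : ((ℝ × ℝ) × ℝ) × ℝ =>
      ENNReal.ofReal (q.1.2 ^ l / (l.factorial : ℝ) * Real.exp (-(c * q.1.1.1 * q.1.2)) *
        Real.exp (-(q.1.1.1 * q.2)) * heatR (q.1.2 + q.2) q.1.1.2)) := by
    have h1 : Measurable (fun q : ((ℝ × ℝ) × ℝ) × ℝ => heatR (q.1.2 + q.2) q.1.1.2) :=
      measurable_heatR.comp (f := fun q : ((ℝ × ℝ) × ℝ) × ℝ => (q.1.2 + q.2, q.1.1.2))
        (by fun_prop)
    have h2 : Measurable (fun q : ((ℝ × ℝ) × ℝ) × ℝ =>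
        q.1.2 ^ l / (l.factorial : ℝ) * Real.exp (-(c * q.1.1.1 * q.1.2)) *
          Real.exp (-(q.1.1.1 * q.2))) := by fun_prop
    exact (h2.mul h1).ennreal_ofReal
  have h3 := Measurable.lintegral_prod_right' (ν := volume.restrict (Ioi (0 : ℝ))) h
  have h4 := Measurable.lintegral_prod_right' (ν := volume.restrict (Ioi (0 : ℝ))) h3
  have h5 : Measurable (fun p : ℝ × ℝ => ENNReal.ofReal ((c * p.1) ^ (l + 1))) := by fun_prop
  exact h5.mul h4

theorem ck_meas (c : ℝ) (l : ℕ) (m : ℝ) : MKer (ck c l m) := by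
  unfold MKer ck
  have h : Measurable (fun p : E3 × E3 => ((m, ‖p.1 - p.2‖) : ℝ × ℝ)) := by fun_prop
  exact (measurable_cr c l).comp h

theorem ck_symm (c : ℝ) (l : ℕ) (m : ℝ) : SymK (ck c l m) := by
  intro x y
  unfold ck
  rw [norm_sub_rev]

/-- composition of two mixtures of heat kernels (Tonelli) -/
theorem ck_heat_comp {f g : ℝ → ℝ≥0∞} (hf : Measurable f) (hg : Measurable g) (x y : E3) :
    ∫⁻ z, (∫⁻ s in Ioi (0 : ℝ), f s * heat s x z) * (∫⁻ t in Ioi (0 : ℝ), g t * heat t z y) =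
      ∫⁻ s in Ioi (0 : ℝ), ∫⁻ t in Ioi (0 : ℝ), f s * g t * heat (s + t) x y := by
  have hx : Measurable (fun q : E3 × ℝ => heat q.2 x q.1) :=
    measurable_heat.comp (measurable_snd.prodMk (measurable_const.prodMk measurable_fst))
  have hy : Measurable (fun q : E3 × ℝ => heat q.2 q.1 y) :=
    measurable_heat.comp (measurable_snd.prodMk (measurable_fst.prodMk measurable_const))
  have hfx : Measurable (fun q : E3 × ℝ => f q.2 * heat q.2 x q.1) :=
    (hf.comp measurable_snd).mul hx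
  have hgy : Measurable (fun q : E3 × ℝ => g q.2 * heat q.2 q.1 y) :=
    (hg.comp measurable_snd).mul hy
  have hG : Measurable (fun z : E3 => ∫⁻ t in Ioi (0 : ℝ), g t * heat t z y) :=
    Measurable.lintegral_prod_right' (ν := volume.restrict (Ioi (0 : ℝ))) hgy
  have h1 : ∀ z, (∫⁻ s in Ioi (0 : ℝ), f s * heat s x z) *
      (∫⁻ t in Ioi (0 : ℝ), g t * heat t z y) =
      ∫⁻ s in Ioi (0 : ℝ), f s * heat s x z * ∫⁻ t in Ioi (0 : ℝ), g t * heat t z y := by
    intro z
    have hz : Measurable (fun s : ℝ => f s * heat s x z) :=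
      hfx.comp (f := fun s : ℝ => (z, s)) (by fun_prop)
    rw [lintegral_mul_const _ hz]
  simp_rw [h1]
  have hm1 : Measurable (Function.uncurry fun (z : E3) (s : ℝ) =>
      f s * heat s x z * ∫⁻ t in Ioi (0 : ℝ), g t * heat t z y) :=
    hfx.mul (hG.comp measurable_fst)
  rw [lintegral_lintegral_swap hm1.aemeasurable]
  refine setLIntegral_congr_fun measurableSet_Ioi fun s hs => ?_
  have hs' : (0 : ℝ) < s := hs
  have h2 : ∀ z, f s * heat s x z * ∫⁻ t in Ioi (0 : ℝ), g t * heat t z y =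
      ∫⁻ t in Ioi (0 : ℝ), f s * heat s x z * (g t * heat t z y) := by
    intro z
    have hz : Measurable (fun t : ℝ => g t * heat t z y) :=
      hgy.comp (f := fun t : ℝ => (z, t)) (by fun_prop)
    rw [lintegral_const_mul _ hz]
  simp_rw [h2]
  have hm2 : Measurable (Function.uncurry fun (z : E3) (t : ℝ) =>
      f s * heat s x z * (g t * heat t z y)) :=
    ((measurable_const.mul ((heat_meas s).right x)).comp measurable_fst).mul hgy
  rw [lintegral_lintegral_swap hm2.aemeasurable]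
  refine setLIntegral_congr_fun measurableSet_Ioi fun t ht => ?_
  have ht' : (0 : ℝ) < t := ht
  have h3 : ∀ z, f s * heat s x z * (g t * heat t z y) =
      f s * g t * (heat s x z * heat t z y) := by
    intro z
    ring
  simp_rw [h3]
  rw [lintegral_const_mul _ (meas_mul (heat_meas s) (heat_meas t) x y)]
  have h4 : ∫⁻ z, heat s x z * heat t z y = heat (s + t) x y :=
    congrFun (congrFun (heat_comp hs' ht') x) y
  rw [h4]

theorem ck_eq (c : ℝ) (l : ℕ) (m : ℝ) :
    ck c l m = ENNReal.ofReal ((c * m) ^ (l + 1)) • comp (gk l (c * m)) (gk 0 m) := by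
  funext x y
  show cr c l m ‖x - y‖ =
    ENNReal.ofReal ((c * m) ^ (l + 1)) * ∫⁻ z, gk l (c * m) x z * gk 0 m z y
  unfold cr
  congr 1
  simp_rw [gk_eq]
  rw [ck_heat_comp (f := fun s => ENNReal.ofReal (s ^ l / (l.factorial : ℝ) *
      Real.exp (-(c * m * s)))) (g := fun t => ENNReal.ofReal (t ^ 0 / (Nat.factorial 0 : ℝ) *
      Real.exp (-(m * t)))) (by fun_prop) (by fun_prop) x y]
  refine setLIntegral_congr_fun measurableSet_Ioi fun s hs => ?_
  have hs' : (0 : ℝ) < s := hs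
  refine setLIntegral_congr_fun measurableSet_Ioi fun t ht => ?_
  have ht' : (0 : ℝ) < t := ht
  show ENNReal.ofReal _ = ENNReal.ofReal _ * ENNReal.ofReal _ * ENNReal.ofReal _
  rw [← ENNReal.ofReal_mul (by positivity), ← ENNReal.ofReal_mul (by positivity)]
  simp

theorem ck_step {c m : ℝ} (hc : 1 < c) (hm : 0 < m) (l : ℕ) :
    ENNReal.ofReal (c * m) • comp (gk 0 (c * m)) (ck c l m) = ck c (l + 1) m := by
  have hcm : 0 < c * m := by positivity
  rw [ck_eq c l m, ck_eq c (l + 1) m, comp_smul_right _ (gk_meas _ _)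
    ((gk_meas _ _).comp (gk_meas _ _)), ← comp_assoc (gk_meas _ _) (gk_meas _ _) (gk_meas _ _),
    gk_comp', smul_smul, ← ENNReal.ofReal_mul hcm.le]
  congr 2
  ring

theorem ck_zero {c m : ℝ} (_hc : 1 < c) (_hm : 0 < m) :
    ENNReal.ofReal (c * m) • comp (gk 0 (c * m)) (gk 0 m) = ck c 0 m := by
  rw [ck_eq c 0 m, zero_add, pow_one]

theorem ck_rel0 {c m : ℝ} (hc : 1 < c) (hm : 0 < m) :
    ENNReal.ofReal (c - 1) • ck c 0 m + ENNReal.ofReal c • gk 0 (c * m)
      = ENNReal.ofReal c • gk 0 m := by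
  have hlt : m < c * m := by nlinarith
  rw [gk_resolvent' hlt, smul_add, ← ck_zero hc hm, smul_smul, smul_smul,
    ← ENNReal.ofReal_mul (by linarith), ← ENNReal.ofReal_mul (by linarith), add_comm]
  congr 3
  ring

theorem ck_rel {c m : ℝ} (hc : 1 < c) (hm : 0 < m) (l : ℕ) :
    ENNReal.ofReal (c - 1) • ck c (l + 1) m
        + ENNReal.ofReal (c * (c * m) ^ (l + 1)) • gk (l + 1) (c * m)
      = ENNReal.ofReal c • ck c l m := by
  have hcm : 0 < c * m := by positivity
  have h := congrArg (fun K => ENNReal.ofReal ((c * m) ^ (l + 1)) • comp (gk l (c * m)) K)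
    (ck_rel0 hc hm)
  rw [comp_add_right (gk_meas _ _) ((ck_meas _ _ _).smul _), comp_smul_right _ (gk_meas _ _)
    (ck_meas _ _ _), comp_smul_right _ (gk_meas _ _) (gk_meas _ _), comp_smul_right _ (gk_meas _ _)
    (gk_meas _ _), gk_comp, smul_add, smul_smul, smul_smul, smul_smul,
    mul_comm (ENNReal.ofReal ((c * m) ^ (l + 1))) (ENNReal.ofReal c), ← smul_smul (ENNReal.ofReal c)
    _ (comp (gk l (c * m)) (gk 0 m)), ← ck_eq] at h
  rw [← h, ENNReal.ofReal_mul (by linarith)]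
  congr 1
  rw [mul_comm, ← smul_smul]
  congr 1
  rw [ck_eq c (l + 1) m, ← ck_zero hc hm, comp_smul_right _ (gk_meas _ _)
    ((gk_meas _ _).comp (gk_meas _ _)), ← comp_assoc (gk_meas _ _) (gk_meas _ _) (gk_meas _ _),
    gk_comp, smul_smul, ← ENNReal.ofReal_mul (by positivity)]
  congr 2

theorem alpha_pos_succ (k : ℕ) : 0 < alpha (k + 1) := by
  unfold alpha
  have h1 : 0 < Real.Gamma (((k + 1 : ℕ) : ℝ) - 1 / 2) := by
    refine Real.Gamma_pos_of_pos ?_
    push_cast
    have : (0 : ℝ) ≤ k := Nat.cast_nonneg k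
    linarith
  have h2 : 0 < Real.Gamma ((k + 1 : ℕ) : ℝ) := Real.Gamma_pos_of_pos (by positivity)
  positivity

theorem ck_solve {d P Q : ℝ} (hd : 0 < d) (hP : 0 ≤ P) {X : ℝ≥0∞}
    (h : ENNReal.ofReal d * X + ENNReal.ofReal P = ENNReal.ofReal Q) :
    X = ENNReal.ofReal ((Q - P) / d) := by
  rw [ENNReal.ofReal_div_of_pos hd, ENNReal.ofReal_sub _ hP, ← h,
    ENNReal.add_sub_cancel_right ENNReal.ofReal_ne_top, mul_comm, ENNReal.mul_div_cancel_right
    (by simpa using hd) ENNReal.ofReal_ne_top]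

theorem ck_frozen_rel0 {c m : ℝ} (hc : 1 < c) (hm : 0 < m) (x : E3) :
    ENNReal.ofReal (c - 1) * (ENNReal.ofReal m * comp G0 (ck c 0 m) x x)
        + ENNReal.ofReal (Real.sqrt c * alpha 1 * Real.sqrt m)
      = ENNReal.ofReal (c * alpha 1 * Real.sqrt m) := by
  have hcm : 0 < c * m := by positivity
  have hG : MKer G0 := gk_meas 0 0
  have h := congrFun (congrFun (congrArg (fun K => ENNReal.ofReal m • comp G0 K)
    (ck_rel0 hc hm)) x) x
  rw [comp_add_right hG ((ck_meas _ _ _).smul _), comp_smul_right _ hG (ck_meas _ _ _),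
    comp_smul_right _ hG (gk_meas _ _), comp_smul_right _ hG (gk_meas _ _)] at h
  have h1 := frozen' 0 hm x
  have h2 := frozen' 0 hcm x
  rw [zero_add, pow_one] at h1 h2
  change ENNReal.ofReal m * (ENNReal.ofReal (c - 1) * comp G0 (ck c 0 m) x x +
    ENNReal.ofReal c * comp G0 (gk 0 (c * m)) x x) =
    ENNReal.ofReal m * (ENNReal.ofReal c * comp G0 (gk 0 m) x x) at h
  have h3 : ENNReal.ofReal m * (ENNReal.ofReal c * comp G0 (gk 0 (c * m)) x x) =
      ENNReal.ofReal (Real.sqrt c * alpha 1 * Real.sqrt m) := by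
    rw [← mul_assoc, ← ENNReal.ofReal_mul hm.le, mul_comm m c, h2,
      Real.sqrt_mul (by linarith)]
    congr 1
    ring
  have h4 : ENNReal.ofReal m * (ENNReal.ofReal c * comp G0 (gk 0 m) x x) =
      ENNReal.ofReal (c * alpha 1 * Real.sqrt m) := by
    rw [mul_left_comm, h1, ← ENNReal.ofReal_mul (by linarith), mul_assoc]
  rw [← h4, ← h, ← h3]
  ring

theorem ck_frozen_rel {c m : ℝ} (hc : 1 < c) (hm : 0 < m) (l : ℕ) (x : E3) :
    ENNReal.ofReal (c - 1) * (ENNReal.ofReal m * comp G0 (ck c (l + 1) m) x x)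
        + ENNReal.ofReal (Real.sqrt c * alpha (l + 2) * Real.sqrt m)
      = ENNReal.ofReal c * (ENNReal.ofReal m * comp G0 (ck c l m) x x) := by
  have hcm : 0 < c * m := by positivity
  have hG : MKer G0 := gk_meas 0 0
  have h := congrFun (congrFun (congrArg (fun K => ENNReal.ofReal m • comp G0 K)
    (ck_rel hc hm l)) x) x
  rw [comp_add_right hG ((ck_meas _ _ _).smul _), comp_smul_right _ hG (ck_meas _ _ _),
    comp_smul_right _ hG (gk_meas _ _), comp_smul_right _ hG (ck_meas _ _ _)] at h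
  have h2 := frozen' (l + 1) hcm x
  change ENNReal.ofReal m * (ENNReal.ofReal (c - 1) * comp G0 (ck c (l + 1) m) x x +
    ENNReal.ofReal (c * (c * m) ^ (l + 1)) * comp G0 (gk (l + 1) (c * m)) x x) =
    ENNReal.ofReal m * (ENNReal.ofReal c * comp G0 (ck c l m) x x) at h
  have h3 : ENNReal.ofReal m *
      (ENNReal.ofReal (c * (c * m) ^ (l + 1)) * comp G0 (gk (l + 1) (c * m)) x x) =
      ENNReal.ofReal (Real.sqrt c * alpha (l + 2) * Real.sqrt m) := by
    rw [← mul_assoc, ← ENNReal.ofReal_mul hm.le,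
      show m * (c * (c * m) ^ (l + 1)) = (c * m) ^ (l + 1 + 1) by ring, h2,
      Real.sqrt_mul (by linarith)]
    congr 1
    ring
  rw [mul_left_comm (ENNReal.ofReal c), ← h, ← h3]
  ring

theorem ck_frozen {c m : ℝ} (hc : 1 < c) (hm : 0 < m) (l : ℕ) (x : E3) :
    ENNReal.ofReal m * comp G0 (ck c l m) x x
      = ENNReal.ofReal (alpha2 c (l + 1) * Real.sqrt m) := by
  have hd : 0 < c - 1 := by linarith
  have hsm : 0 ≤ Real.sqrt m := Real.sqrt_nonneg m
  have hsc : 0 ≤ Real.sqrt c := Real.sqrt_nonneg c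
  induction l with
  | zero =>
    have h := ck_solve hd (mul_nonneg (mul_nonneg hsc (alpha_pos_succ 0).le) hsm)
      (ck_frozen_rel0 hc hm x)
    rw [h]
    congr 1
    show _ = (c * alpha 1 - Real.sqrt c * alpha (0 + 1)) / (c - 1) * Real.sqrt m
    rw [zero_add]
    ring
  | succ l ih =>
    have h1 := ck_frozen_rel hc hm l x
    rw [ih, ← ENNReal.ofReal_mul (by linarith)] at h1
    have h := ck_solve hd (mul_nonneg (mul_nonneg hsc (alpha_pos_succ (l + 1)).le) hsm) h1
    rw [h]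
    congr 1
    show _ = (c * alpha2 c (l + 1) - Real.sqrt c * alpha (l + 1 + 1)) / (c - 1) * Real.sqrt m
    ring

/-- for `k ≥ 1` from `ck_frozen` with `m = 1` (the left side is not `0`), for `k = 0` directly -/
theorem alpha2_nonneg {c : ℝ} (hc : 1 < c) (k : ℕ) : 0 ≤ alpha2 c k := by
  rcases k with _ | k
  · exact (alpha_pos_succ 0).le
  · by_contra hneg
    push Not at hneg
    have h1 := ck_frozen_rel hc one_pos k (0 : E3)
    rw [ck_frozen hc one_pos k, Real.sqrt_one, mul_one, mul_one,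
      ENNReal.ofReal_of_nonpos hneg.le, mul_zero, add_eq_zero] at h1
    have h2 := ENNReal.ofReal_eq_zero.1 h1.2
    have h3 : 0 < Real.sqrt c * alpha (k + 2) :=
      mul_pos (Real.sqrt_pos.2 (by linarith)) (alpha_pos_succ (k + 1))
    linarith

end Pool.Agent.H75.LO
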