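import Mathlib

/-!
# LO: basic definitions

Kernels on `ℝ³` with values in `[0,∞]`.

* `heatR t r = (2πt)^{-3/2} e^{-r²/2t}`: heat kernel of `½Δ` on `ℝ³` as a function of the distance `r`;
* `gr l m r = ∫_0^∞ (t^l/l!) e^{-mt} h_t(r) dt`, `gk l m` the corresponding kernel
  (`gk l m` is the `(l+1)`-fold convolution power of the kernel of `(-½Δ+m)⁻¹`);
* `comp`, `mulV`, `it`: composition, multiplication with a function, iterates;
* `R Λ ε v`: the kernel of `(-½Δ+ε+v)⁻¹`, as a Neumann series, for `0 ≤ v ≤ Λ`.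
-/

open MeasureTheory Set
open scoped ENNReal

namespace Pool.Agent.H75.LO

/-- three-dimensional space -/
abbrev E3 := EuclideanSpace ℝ (Fin 3)

/-- kernels with values in `[0,∞]` -/
abbrev Ker := E3 → E3 → ℝ≥0∞

/-- heat kernel of `½Δ` on `ℝ³`, as a function of time and distance -/
noncomputable def heatR (t r : ℝ) : ℝ :=
  (2 * Real.pi * t) ^ (-(3 / 2) : ℝ) * Real.exp (-(r ^ 2 / (2 * t)))

noncomputable def heat (t : ℝ) : Ker := fun x y => ENNReal.ofReal (heatR t ‖x - y‖)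

/-- `∫_0^∞ (t^l/l!) e^{-mt} h_t(r) dt` -/
noncomputable def gr (l : ℕ) (m r : ℝ) : ℝ≥0∞ :=
  ∫⁻ t in Ioi (0 : ℝ),
    ENNReal.ofReal (t ^ l / (l.factorial : ℝ) * Real.exp (-(m * t)) * heatR t r)

noncomputable def gk (l : ℕ) (m : ℝ) : Ker := fun x y => gr l m ‖x - y‖

/-- composition of kernels -/
noncomputable def comp (A B : Ker) : Ker := fun x y => ∫⁻ z, A x z * B z y

/-- the kernel `A(x,z) V(z)` -/
noncomputable def mulV (A : Ker) (V : E3 → ℝ≥0∞) : Ker := fun x z => A x z * V z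

/-- `it A n B = Aⁿ B` -/
noncomputable def it (A : Ker) : ℕ → Ker → Ker
  | 0, B => B
  | n + 1, B => comp A (it A n B)

/-- joint measurability -/
def MKer (A : Ker) : Prop := Measurable (fun p : E3 × E3 => A p.1 p.2)

/-- symmetry -/
def SymK (A : Ker) : Prop := ∀ x y, A x y = A y x

/-- kernel of `(-½Δ)⁻¹`, which is `1/(2π|x-y|)` -/
noncomputable def G0 : Ker := gk 0 0

/-- admissible potentials -/
structure Pot (Λ : ℝ) (v : E3 → ℝ) : Prop where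
  pos : 0 < Λ
  meas : Measurable v
  nonneg : ∀ z, 0 ≤ v z
  le : ∀ z, v z ≤ Λ

noncomputable def Vf (v : E3 → ℝ) : E3 → ℝ≥0∞ := fun z => ENNReal.ofReal (v z)

/-- Neumann series for `(-½Δ+ε+v)⁻¹` around `(-½Δ+ε+Λ)⁻¹` -/
noncomputable def R (Λ ε : ℝ) (v : E3 → ℝ) : Ker := fun x y =>
  ∑' n, it (mulV (gk 0 (ε + Λ)) (Vf fun z => Λ - v z)) n (gk 0 (ε + Λ)) x y

/-- partial sums of the Neumann series -/
noncomputable def RS (Λ ε : ℝ) (v : E3 → ℝ) (N : ℕ) : Ker := fun x y =>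
  ∑ n ∈ Finset.range N, it (mulV (gk 0 (ε + Λ)) (Vf fun z => Λ - v z)) n (gk 0 (ε + Λ)) x y

/-- `R v` -/
noncomputable def RV (Λ : ℝ) (v : E3 → ℝ) : Ker := mulV (R Λ 0 v) (Vf v)

/-- `(R v)^j R` -/
noncomputable def Rj (Λ : ℝ) (v : E3 → ℝ) (j : ℕ) : Ker := it (RV Λ v) j (R Λ 0 v)

/-- `2(2π)^{-3/2} Γ(k-1/2)/Γ(k)` -/
noncomputable def alpha (k : ℕ) : ℝ :=
  2 * (2 * Real.pi) ^ (-(3 / 2) : ℝ) * Real.Gamma ((k : ℝ) - 1 / 2) / Real.Gamma (k : ℝ)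

/-- `Y_l(m;r) = m^{3/2+l} ∫ (t^l/l!) e^{-mt} h_t(r) dt` -/
noncomputable def Y (l : ℕ) (m r : ℝ) : ℝ≥0∞ :=
  ENNReal.ofReal (m ^ (3 / 2 : ℝ) * m ^ l) * gr l m r

/-- the pointwise inequality `(P_l)` -/
def PL (l : ℕ) (y : ℝ) : Prop := ∀ a b r : ℝ, 0 ≤ a → 0 ≤ b → 0 < r →
  ENNReal.ofReal a * Y l b r + ENNReal.ofReal b * Y l a r
    ≤ ENNReal.ofReal a * Y l a r + ENNReal.ofReal b * Y l b r
      + ENNReal.ofReal (y ^ (-(3 / 2) : ℝ) * (a * b * (Real.sqrt a - Real.sqrt b) ^ 2))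

end Pool.Agent.H75.LO
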