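import Mathlib

/-!
# LO3-Dz: the kernel `𝒟(τ,ζ)` of the sharp cutoff

`Dz τ ζ = 2 coth(τ/2) sinh(2τ(ζ-1)) e^{-2ζ τ coth τ}`, `D1 ζ = 8(ζ-1)e^{-2ζ}` (its limit for `τ → 0`).

* `Dz_rep`: with `τ = ½ ln(a/b)`, `ζ = σ/u`, `σ = (a-b) r²/(4 ln(a/b))`, `p = b r²/(2u)`, `P = a r²/(2u)`:
  `P = e^{2τ}p`, `s̃ := √(pP) = e^{τ} p`, `P - p = 2 s̃ sinh τ = 4τζ`, `P + p = 2 s̃ cosh τ`,
  `(a-b)(b²e^{-p} - a²e^{-P})/(ab(√a-√b)²) = 2 coth(τ/2) e^{-s̃ cosh τ} sinh(s̃ sinh τ - 2τ)`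
  (`a = √(ab) e^τ`, `b = √(ab) e^{-τ}`: `a-b = 2√(ab) sinh τ`, `(√a-√b)² = 4√(ab) sinh²(τ/2)`, `sinh τ = 2 sinh(τ/2)cosh(τ/2)`,
  `b²e^{-p}-a²e^{-P} = ab e^{-s̃ cosh τ}(e^{s̃ sinh τ-2τ} - e^{-(s̃ sinh τ - 2τ)})`), and `s̃ sinh τ = 2τζ`, `s̃ cosh τ = 2ζτ coth τ`.
* `Dz_le_low`: `Dz τ ζ = 8(ζ-1)e^{-2ζ} · [(τ/2)coth(τ/2)] · [sinh w/w] · e^{-2ζ(τ coth τ-1)}`, `w = 2τ(ζ-1)`; so the claim is
  `sinh w/w ≤ e^{2(ζ-1)(τ coth τ-1)}` for `1 ≤ ζ ≤ 2` and `≥` for `ζ ≤ 1` (trivial: left `≥ 1 ≥` right).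
  For `1 ≤ ζ ≤ 2`: `ln(sinh x/x)` is convex and `0` at `0`, so it is enough to have it at `ζ = 2`:
  `sinh(2τ)/(2τ) ≤ e^{2(τ coth τ - 1)}` for all `τ > 0`, i.e. `g(τ) := 2(τ coth τ - 1) - ln(sinh 2τ/(2τ)) ≥ 0`
  (series: `g = (2/45)τ⁴ + …`; e.g. show `g' ≥ 0`: `g' = 2 coth τ - 2τ/sinh²τ - 2 coth 2τ + 1/τ = 2/sinh 2τ + 1/τ - 2τ/sinh² τ`,
  as `coth τ - coth 2τ = 1/sinh 2τ`; multiply by `sinh²τ`: `tanh τ + sinh²τ/τ ≥ 2τ`).
  `E1 τ ≤ 1`: `(τ/2)coth(τ/2) ≤ 1 + τ²/12`-type bounds against `e^{2(τ coth τ-1)}` (`τ coth τ - 1 ≥ (τ/2) coth(τ/2) - 1`, `x ≤ e^{x-1}`).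
-/

open Real

namespace Pool.Agent.H75.LO

noncomputable def Dz (τ ζ : ℝ) : ℝ :=
  2 * (cosh (τ / 2) / sinh (τ / 2)) * sinh (2 * τ * (ζ - 1)) * exp (-(2 * ζ * (τ * cosh τ / sinh τ)))

noncomputable def D1 (ζ : ℝ) : ℝ := 8 * (ζ - 1) * exp (-(2 * ζ))

/-- `(τ/2) coth(τ/2) e^{-2(τ coth τ - 1)}` -/
noncomputable def E1 (τ : ℝ) : ℝ :=
  (τ / 2) * (cosh (τ / 2) / sinh (τ / 2)) * exp (-(2 * (τ * cosh τ / sinh τ - 1)))

noncomputable def Dbar (ζ : ℝ) : ℝ :=
  if ζ ≤ 5 / 2 then D1 ζ else if ζ ≤ 3 then 84 / 1000 else if ζ ≤ 4 then 49 / 1000 else 27 / 1000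

private theorem dz_nonneg_of_deriv {f f' : ℝ → ℝ} (h0 : 0 ≤ f 0)
    (hd : ∀ x, HasDerivAt f (f' x) x) (hn : ∀ x, 0 < x → 0 ≤ f' x) {x : ℝ} (hx : 0 ≤ x) :
    0 ≤ f x := by
  have hm : MonotoneOn f (Set.Ici 0) := by
    apply monotoneOn_of_deriv_nonneg (convex_Ici 0)
    · exact fun y _ => (hd y).continuousAt.continuousWithinAt
    · exact fun y _ => (hd y).differentiableAt.differentiableWithinAt
    · intro y hy
      rw [interior_Ici] at hy
      rw [(hd y).deriv]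
      exact hn y hy
  exact h0.trans (hm (Set.mem_Ici.2 le_rfl) (Set.mem_Ici.2 hx) hx)

private theorem dz_nonneg_of_deriv' {f f' ψ : ℝ → ℝ}
    (hd : ∀ x, 0 < x → HasDerivAt f (f' x) x) (hn : ∀ x, 0 < x → 0 ≤ f' x)
    (hψ : ∀ x, 0 < x → ψ x ≤ f x) (hψc : ContinuousAt ψ 0) (hψ0 : ψ 0 = 0) {x : ℝ}
    (hx : 0 < x) : 0 ≤ f x := by
  have hm : MonotoneOn f (Set.Ioi 0) := by
    apply monotoneOn_of_deriv_nonneg (convex_Ioi 0)
    · exact fun y hy => (hd y hy).continuousAt.continuousWithinAt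
    · intro y hy
      rw [interior_Ioi] at hy
      exact (hd y hy).differentiableAt.differentiableWithinAt
    · intro y hy
      rw [interior_Ioi] at hy
      rw [(hd y hy).deriv]
      exact hn y hy
  have ht : Filter.Tendsto ψ (nhdsWithin 0 (Set.Ioi 0)) (nhds 0) := by
    have := hψc.tendsto
    rw [hψ0] at this
    exact this.mono_left nhdsWithin_le_nhds
  refine le_of_tendsto ht ?_
  have : Set.Ioo (0 : ℝ) x ∈ nhdsWithin (0 : ℝ) (Set.Ioi 0) := Ioo_mem_nhdsGT hx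
  filter_upwards [this] with ε hε
  exact (hψ ε hε.1).trans (hm hε.1 hx hε.2.le)

private theorem dz_sinh_le {x : ℝ} (hx : 0 ≤ x) : sinh x ≤ x * cosh x := by
  have h := dz_nonneg_of_deriv (f := fun x : ℝ => x * cosh x - sinh x)
    (f' := fun y => (1 * cosh y + y * sinh y) - cosh y) (by simp)
    (fun y => ((hasDerivAt_id y).mul (hasDerivAt_cosh y)).sub (hasDerivAt_sinh y))
    (fun y hy => by
      have : 0 ≤ y * sinh y := mul_nonneg hy.le (sinh_nonneg_iff.2 hy.le)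
      linarith) hx
  linarith

private theorem dz_self_le_sinh {x : ℝ} (hx : 0 ≤ x) : x ≤ sinh x := by
  have h := dz_nonneg_of_deriv (f := fun x : ℝ => sinh x - x)
    (f' := fun y => cosh y - 1) (by simp)
    (fun y => (hasDerivAt_sinh y).sub (hasDerivAt_id y))
    (fun y _ => by
      have := one_le_cosh y
      linarith) hx
  linarith

private theorem dz_cosh_ge {x : ℝ} (hx : 0 ≤ x) : 1 + x ^ 2 / 2 ≤ cosh x := by
  have h := dz_nonneg_of_deriv (f := fun x : ℝ => cosh x - (1 + x ^ 2 / 2))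
    (f' := fun y => sinh y - y) (by simp)
    (fun y => by
      have h1 : HasDerivAt (fun x : ℝ => 1 + x ^ 2 / 2) y y := by
        have := ((hasDerivAt_pow 2 y).div_const 2).const_add 1
        have e : ((2 : ℕ) : ℝ) * y ^ (2 - 1) / 2 = y := by
          norm_num
        rw [e] at this
        exact this
      exact (hasDerivAt_cosh y).sub h1)
    (fun y hy => by
      have := dz_self_le_sinh hy.le
      linarith) hx
  linarith

private theorem dz_sinh_ge {x : ℝ} (hx : 0 ≤ x) : x + x ^ 3 / 6 ≤ sinh x := by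
  have h := dz_nonneg_of_deriv (f := fun x : ℝ => sinh x - (x + x ^ 3 / 6))
    (f' := fun y => cosh y - (1 + y ^ 2 / 2)) (by simp)
    (fun y => by
      have h1 : HasDerivAt (fun x : ℝ => x + x ^ 3 / 6) (1 + y ^ 2 / 2) y := by
        have := (hasDerivAt_id y).add ((hasDerivAt_pow 3 y).div_const 6)
        have e : (1 + y ^ 2 / 2 : ℝ) = 1 + ((3 : ℕ) : ℝ) * y ^ (3 - 1) / 6 := by
          norm_num
          ring
        rw [e]
        exact this
      exact (hasDerivAt_sinh y).sub h1)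
    (fun y hy => by
      have := dz_cosh_ge hy.le
      linarith) hx
  linarith

private theorem dz_tanh_ge {x : ℝ} (hx : 0 ≤ x) : (x - x ^ 3 / 3) * cosh x ≤ sinh x := by
  have h := dz_nonneg_of_deriv (f := fun x : ℝ => sinh x - (x - x ^ 3 / 3) * cosh x)
    (f' := fun y => cosh y - ((1 - y ^ 2) * cosh y + (y - y ^ 3 / 3) * sinh y)) (by simp)
    (fun y => by
      have h1 : HasDerivAt (fun x : ℝ => x - x ^ 3 / 3) (1 - y ^ 2) y := by
        have := (hasDerivAt_id y).sub ((hasDerivAt_pow 3 y).div_const 3)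
        have e : (1 - y ^ 2 : ℝ) = 1 - ((3 : ℕ) : ℝ) * y ^ (3 - 1) / 3 := by
          norm_num
        rw [e]
        exact this
      exact (hasDerivAt_sinh y).sub (h1.mul (hasDerivAt_cosh y)))
    (fun y hy => by
      have h1 := dz_sinh_le hy.le
      have h2 : 0 ≤ y ^ 3 * sinh y := mul_nonneg (by positivity) (sinh_nonneg_iff.2 hy.le)
      have h3 : 0 ≤ y * (y * cosh y - sinh y) := mul_nonneg hy.le (by linarith)
      nlinarith [h2, h3]) hx
  linarith

private theorem dz_coth_ge {x : ℝ} (hx : 0 < x) : 1 ≤ x * cosh x / sinh x := by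
  have hs : 0 < sinh x := sinh_pos_iff.2 hx
  rw [le_div_iff₀ hs, one_mul]
  exact dz_sinh_le hx.le

private theorem dz_hasDeriv_coth {x : ℝ} (hx : 0 < x) :
    HasDerivAt (fun x : ℝ => x * cosh x / sinh x) ((cosh x * sinh x - x) / sinh x ^ 2) x := by
  have hs : 0 < sinh x := sinh_pos_iff.2 hx
  have h := ((hasDerivAt_id x).mul (hasDerivAt_cosh x)).div (hasDerivAt_sinh x) hs.ne'
  have e : (cosh x * sinh x - x) / sinh x ^ 2
      = ((1 * cosh x + x * sinh x) * sinh x - x * cosh x * cosh x) / sinh x ^ 2 := by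
    have hc := cosh_sq x
    congr 1
    linear_combination x * hc
  rw [e]
  exact h

private theorem dz_M {x : ℝ} (hx : 0 < x) :
    log (sinh x) - log x ≤ x * cosh x / sinh x - 1 := by
  have h := dz_nonneg_of_deriv'
    (f := fun x : ℝ => (x * cosh x / sinh x - 1) - (log (sinh x) - log x))
    (f' := fun x => (cosh x * sinh x - x) / sinh x ^ 2 - (cosh x / sinh x - x⁻¹))
    (ψ := fun x => -log (cosh x))
    (fun y hy => by
      have hs : 0 < sinh y := sinh_pos_iff.2 hy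
      exact ((dz_hasDeriv_coth hy).sub_const 1).sub
        (((hasDerivAt_sinh y).log hs.ne').sub (hasDerivAt_log hy.ne')))
    (fun y hy => by
      have hs : 0 < sinh y := sinh_pos_iff.2 hy
      have h1 : y ≤ sinh y := dz_self_le_sinh hy.le
      have e : (cosh y * sinh y - y) / sinh y ^ 2 - (cosh y / sinh y - y⁻¹)
          = (sinh y ^ 2 - y ^ 2) / (y * sinh y ^ 2) := by
        field_simp
        ring
      rw [e]
      apply div_nonneg
      · nlinarith
      · positivity)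
    (fun y hy => by
      have hs : 0 < sinh y := sinh_pos_iff.2 hy
      have h1 : log (sinh y) ≤ log y + log (cosh y) := by
        rw [← log_mul hy.ne' (cosh_pos y).ne']
        exact log_le_log hs (dz_sinh_le hy.le)
      have h2 := dz_coth_ge hy
      linarith)
    (by
      have : ContinuousAt (fun x : ℝ => log (cosh x)) 0 :=
        continuous_cosh.continuousAt.log (by simp)
      exact this.neg)
    (by simp) hx
  linarith

private theorem dz_Q {x y : ℝ} (hx : 0 < x) (hxy : x ≤ y) :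
    (log (sinh x) - log x) / x ≤ (log (sinh y) - log y) / y := by
  have hd : ∀ z : ℝ, 0 < z → HasDerivAt (fun z : ℝ => (log (sinh z) - log z) / z)
      (((cosh z / sinh z - z⁻¹) * z - (log (sinh z) - log z) * 1) / z ^ 2) z := fun z hz => by
    have hs : 0 < sinh z := sinh_pos_iff.2 hz
    exact (((hasDerivAt_sinh z).log hs.ne').sub (hasDerivAt_log hz.ne')).div (hasDerivAt_id z)
      hz.ne'
  have hm : MonotoneOn (fun z : ℝ => (log (sinh z) - log z) / z) (Set.Ioi 0) := by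
    apply monotoneOn_of_deriv_nonneg (convex_Ioi 0)
    · exact fun z hz => (hd z hz).continuousAt.continuousWithinAt
    · intro z hz
      rw [interior_Ioi] at hz
      exact (hd z hz).differentiableAt.differentiableWithinAt
    · intro z hz
      rw [interior_Ioi] at hz
      rw [(hd z hz).deriv]
      have hz' : 0 < z := hz
      have hs : 0 < sinh z := sinh_pos_iff.2 hz'
      have hM := dz_M hz'
      apply div_nonneg _ (by positivity)
      have e : (cosh z / sinh z - z⁻¹) * z = z * cosh z / sinh z - 1 := by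
        field_simp
      rw [e]
      linarith
  exact hm (Set.mem_Ioi.2 hx) (Set.mem_Ioi.2 (hx.trans_le hxy)) hxy

private theorem dz_g {x : ℝ} (hx : 0 < x) :
    log (sinh (2 * x)) - log (2 * x) ≤ 2 * (x * cosh x / sinh x - 1) := by
  have h := dz_nonneg_of_deriv'
    (f := fun x : ℝ => 2 * (x * cosh x / sinh x - 1) - (log (sinh (2 * x)) - log (2 * x)))
    (f' := fun x => 2 * ((cosh x * sinh x - x) / sinh x ^ 2)
      - (cosh (2 * x) * 2 / sinh (2 * x) - 2 / (2 * x)))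
    (ψ := fun x => -log (cosh (2 * x)))
    (fun y hy => by
      have hs : 0 < sinh (2 * y) := sinh_pos_iff.2 (by linarith)
      have h2 : HasDerivAt (fun x : ℝ => 2 * x) 2 y := by
        simpa using (hasDerivAt_id y).const_mul 2
      exact (((dz_hasDeriv_coth hy).sub_const 1).const_mul 2).sub
        ((h2.sinh.log hs.ne').sub (h2.log (by positivity))))
    (fun y hy => by
      have hs : 0 < sinh y := sinh_pos_iff.2 hy
      have hc : 0 < cosh y := cosh_pos y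
      have h1 := dz_tanh_ge hy.le
      have h2 := dz_sinh_ge hy.le
      have hcs := cosh_sq y
      rw [cosh_two_mul, sinh_two_mul]
      have e : 2 * ((cosh y * sinh y - y) / sinh y ^ 2)
          - ((cosh y ^ 2 + sinh y ^ 2) * 2 / (2 * sinh y * cosh y) - 2 / (2 * y))
          = ((cosh y ^ 2 - sinh y ^ 2) * (sinh y * y) + sinh y ^ 2 * cosh y - 2 * y ^ 2 * cosh y)
            / (y * sinh y ^ 2 * cosh y) := by
        field_simp
        ring
      rw [e, cosh_sq_sub_sinh_sq, one_mul]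
      apply div_nonneg _ (by positivity)
      have h3 : y ^ 2 + y ^ 4 / 3 ≤ sinh y ^ 2 := by
        have : (y + y ^ 3 / 6) ^ 2 ≤ sinh y ^ 2 := by
          apply pow_le_pow_left₀ (by positivity) h2
        nlinarith [pow_pos hy 6]
      have h4 : y * ((y - y ^ 3 / 3) * cosh y) ≤ y * sinh y := mul_le_mul_of_nonneg_left h1 hy.le
      have h5 : (y ^ 2 + y ^ 4 / 3) * cosh y ≤ sinh y ^ 2 * cosh y :=
        mul_le_mul_of_nonneg_right h3 hc.le
      nlinarith [h4, h5])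
    (fun y hy => by
      have hy2 : 0 < 2 * y := by linarith
      have hs : 0 < sinh (2 * y) := sinh_pos_iff.2 hy2
      have h1 : log (sinh (2 * y)) ≤ log (2 * y) + log (cosh (2 * y)) := by
        rw [← log_mul hy2.ne' (cosh_pos _).ne']
        exact log_le_log hs (dz_sinh_le hy2.le)
      have h2 := dz_coth_ge hy
      linarith)
    (by
      have h1 : Continuous (fun x : ℝ => cosh (2 * x)) := by fun_prop
      have : ContinuousAt (fun x : ℝ => log (cosh (2 * x))) 0 :=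
        h1.continuousAt.log (by simp)
      exact this.neg)
    (by simp) hx
  linarith

/-- the comparison `sinh w ≤ w e^{2 s (τ coth τ - 1)}`, `w = 2 τ s`, `0 < s ≤ 1` -/
private theorem dz_key {τ s : ℝ} (hτ : 0 < τ) (hs : 0 < s) (hs1 : s ≤ 1) :
    sinh (2 * τ * s) ≤ 2 * τ * s * exp (2 * s * (τ * cosh τ / sinh τ - 1)) := by
  have hw : 0 < 2 * τ * s := by positivity
  have hw2 : 2 * τ * s ≤ 2 * τ := by nlinarith
  have h1 := dz_Q hw hw2
  have h2 := dz_g hτ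
  have hτ2 : 0 < 2 * τ := by linarith
  have hsh : 0 < sinh (2 * τ * s) := sinh_pos_iff.2 hw
  have h3 : log (sinh (2 * τ * s)) - log (2 * τ * s) ≤ 2 * s * (τ * cosh τ / sinh τ - 1) := by
    rw [div_le_iff₀ hw] at h1
    refine h1.trans ?_
    have e : (log (sinh (2 * τ)) - log (2 * τ)) / (2 * τ) * (2 * τ * s)
        = s * (log (sinh (2 * τ)) - log (2 * τ)) := by
      field_simp
    rw [e]
    nlinarith [mul_le_mul_of_nonneg_left h2 hs.le]
  have h4 : log (sinh (2 * τ * s)) ≤ log (2 * τ * s) + 2 * s * (τ * cosh τ / sinh τ - 1) := by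
    linarith
  calc sinh (2 * τ * s) = exp (log (sinh (2 * τ * s))) := (exp_log hsh).symm
    _ ≤ exp (log (2 * τ * s) + 2 * s * (τ * cosh τ / sinh τ - 1)) := exp_le_exp.2 h4
    _ = _ := by rw [exp_add, exp_log hw]

theorem Dz_rep {a b r u : ℝ} (hb : 0 < b) (hab : b < a) (hr : 0 < r) (hu : 0 < u) :
    (a - b) * (b ^ 2 * exp (-(b * r ^ 2 / (2 * u))) - a ^ 2 * exp (-(a * r ^ 2 / (2 * u))))
      = a * b * (sqrt a - sqrt b) ^ 2
        * Dz (log (a / b) / 2) ((a - b) * r ^ 2 / (4 * log (a / b)) / u) := by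
  have ha : 0 < a := hb.trans hab
  obtain ⟨A, hA, rfl⟩ : ∃ A : ℝ, 0 < A ∧ a = A ^ 2 :=
    ⟨sqrt a, sqrt_pos.2 ha, (sq_sqrt ha.le).symm⟩
  obtain ⟨B, hB, rfl⟩ : ∃ B : ℝ, 0 < B ∧ b = B ^ 2 :=
    ⟨sqrt b, sqrt_pos.2 hb, (sq_sqrt hb.le).symm⟩
  rw [sqrt_sq hA.le, sqrt_sq hB.le]
  have hAB : B < A := by nlinarith
  have hL : 0 < log (A ^ 2 / B ^ 2) := log_pos (by rw [lt_div_iff₀ hb]; linarith)
  set L := log (A ^ 2 / B ^ 2) with hLdef
  have hexp : exp (L / 2) = A / B := by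
    have : L = 2 * log (A / B) := by
      rw [hLdef, ← div_pow, log_pow]
      norm_num
    rw [this, mul_div_cancel_left₀ _ (by norm_num : (2 : ℝ) ≠ 0), exp_log (by positivity)]
  have hexpn : exp (-(L / 2)) = B / A := by
    rw [exp_neg, hexp, inv_div]
  have hAB0 : A - B ≠ 0 := by
    have : 0 < A - B := by linarith
    exact this.ne'
  have hABp : A + B ≠ 0 := by positivity
  -- coth (τ/2)
  have hcoth2 : cosh (L / 2 / 2) / sinh (L / 2 / 2) = (A + B) / (A - B) := by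
    have hs : 0 < sinh (L / 2 / 2) := sinh_pos_iff.2 (by positivity)
    rw [div_eq_div_iff hs.ne' hAB0]
    have e1 : exp (L / 2 / 2) * exp (L / 2 / 2) = A / B := by
      rw [← exp_add, ← hexp]
      congr 1
      ring
    have hx : 0 < exp (L / 2 / 2) := exp_pos _
    rw [cosh_eq, sinh_eq, exp_neg]
    set X := exp (L / 2 / 2) with hX
    have e2 : X ^ 2 * B = A := by
      rw [pow_two, e1]
      field_simp
    field_simp
    rw [← e2]
    ring
  have hsh : sinh (L / 2) = (A ^ 2 - B ^ 2) / (2 * A * B) := by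
    rw [sinh_eq, hexp, hexpn]
    field_simp
  have hch : cosh (L / 2) = (A ^ 2 + B ^ 2) / (2 * A * B) := by
    rw [cosh_eq, hexp, hexpn]
    field_simp
  have hAB2 : A ^ 2 - B ^ 2 ≠ 0 := by
    have : 0 < A ^ 2 - B ^ 2 := by linarith
    exact this.ne'
  have hL0 : L ≠ 0 := hL.ne'
  unfold Dz
  rw [hcoth2, hsh, hch]
  have e3 : 2 * ((A ^ 2 - B ^ 2) * r ^ 2 / (4 * L) / u) *
      (L / 2 * ((A ^ 2 + B ^ 2) / (2 * A * B)) / ((A ^ 2 - B ^ 2) / (2 * A * B)))
      = (A ^ 2 + B ^ 2) * r ^ 2 / (4 * u) := by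
    field_simp
    try ring
  have e4 : 2 * (L / 2) * ((A ^ 2 - B ^ 2) * r ^ 2 / (4 * L) / u - 1)
      = (A ^ 2 - B ^ 2) * r ^ 2 / (4 * u) - L := by
    field_simp
    try ring
  rw [e3, e4, sinh_eq]
  have hexpL : exp L = A ^ 2 / B ^ 2 := by
    rw [hLdef, exp_log (by positivity)]
  set q := (A ^ 2 - B ^ 2) * r ^ 2 / (4 * u) with hq
  set p := (A ^ 2 + B ^ 2) * r ^ 2 / (4 * u) with hp
  have e5 : exp (q - L) = exp q * (B ^ 2 / A ^ 2) := by
    rw [exp_sub, hexpL]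
    field_simp
  have e6 : exp (-(q - L)) = exp (-q) * (A ^ 2 / B ^ 2) := by
    rw [show -(q - L) = -q + L by ring, exp_add, hexpL]
  have e7 : exp (-(B ^ 2 * r ^ 2 / (2 * u))) = exp q * exp (-p) := by
    rw [← exp_add, hq, hp]
    congr 1
    field_simp
    ring
  have e8 : exp (-(A ^ 2 * r ^ 2 / (2 * u))) = exp (-q) * exp (-p) := by
    rw [← exp_add, hq, hp]
    congr 1
    field_simp
    ring
  rw [e5, e6, e7, e8]
  field_simp
  try ring

theorem E1_pos {τ : ℝ} (hτ : 0 < τ) : 0 < E1 τ := by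
  unfold E1
  have h1 : 0 < sinh (τ / 2) := sinh_pos_iff.2 (by positivity)
  have h2 : 0 < cosh (τ / 2) := cosh_pos _
  positivity

theorem E1_le_one {τ : ℝ} (hτ : 0 < τ) : E1 τ ≤ 1 := by
  unfold E1
  have hx : 0 < τ / 2 := by positivity
  have h1 : 0 < sinh (τ / 2) := sinh_pos_iff.2 hx
  have h2 : 0 < cosh (τ / 2) := cosh_pos _
  have hy := dz_coth_ge hx
  set y := τ / 2 * cosh (τ / 2) / sinh (τ / 2) with hyd
  have e0 : τ / 2 * (cosh (τ / 2) / sinh (τ / 2)) = y := by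
    rw [hyd]
    ring
  have e1 : y ≤ τ * cosh τ / sinh τ := by
    have e2 : τ * cosh τ / sinh τ = y + τ / 2 * sinh (τ / 2) / cosh (τ / 2) := by
      have e3 : cosh τ = cosh (τ / 2) ^ 2 + sinh (τ / 2) ^ 2 := by
        rw [← cosh_two_mul]
        congr 1
        ring
      have e4 : sinh τ = 2 * sinh (τ / 2) * cosh (τ / 2) := by
        rw [← sinh_two_mul]
        congr 1
        ring
      rw [e3, e4, hyd]
      field_simp
    rw [e2]
    have : 0 ≤ τ / 2 * sinh (τ / 2) / cosh (τ / 2) := by positivity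
    linarith
  rw [e0]
  have h3 : y ≤ exp (y - 1) := by
    have := add_one_le_exp (y - 1)
    linarith
  calc y * exp (-(2 * (τ * cosh τ / sinh τ - 1)))
      ≤ exp (y - 1) * exp (-(2 * (τ * cosh τ / sinh τ - 1))) :=
        mul_le_mul_of_nonneg_right h3 (exp_pos _).le
    _ = exp (y - 1 + -(2 * (τ * cosh τ / sinh τ - 1))) := (exp_add _ _).symm
    _ ≤ exp 0 := by
        apply exp_le_exp.2
        linarith
    _ = 1 := exp_zero

theorem Dz_le_low {τ ζ : ℝ} (hτ : 0 < τ) (hζ : 0 < ζ) (hζ2 : ζ ≤ 2) : Dz τ ζ ≤ E1 τ * D1 ζ := by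
  have hx : 0 < τ / 2 := by positivity
  have h1 : 0 < sinh (τ / 2) := sinh_pos_iff.2 hx
  have h2 : 0 < cosh (τ / 2) := cosh_pos _
  have hc := dz_coth_ge hτ
  have hK : 0 < cosh (τ / 2) / sinh (τ / 2) := div_pos h2 h1
  unfold Dz E1 D1
  set K := cosh (τ / 2) / sinh (τ / 2) with hKd
  set c := τ * cosh τ / sinh τ - 1 with hcd
  have hc0 : 0 ≤ c := by linarith
  have ec : τ * cosh τ / sinh τ = c + 1 := by rw [hcd]; ring
  rw [ec]
  have key : sinh (2 * τ * (ζ - 1)) ≤ 2 * τ * (ζ - 1) * exp (2 * (ζ - 1) * c) := by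
    rcases le_or_gt ζ 1 with h | h
    · have hw : 2 * τ * (ζ - 1) ≤ 0 := by nlinarith
      have h3 : sinh (2 * τ * (ζ - 1)) ≤ 2 * τ * (ζ - 1) := by
        have := dz_self_le_sinh (x := -(2 * τ * (ζ - 1))) (by linarith)
        rw [sinh_neg] at this
        linarith
      have h4 : exp (2 * (ζ - 1) * c) ≤ 1 := by
        rw [exp_le_one_iff]
        nlinarith
      nlinarith
    · have := dz_key hτ (s := ζ - 1) (by linarith) (by linarith)
      rw [hcd]
      exact this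
  have e1 : exp (-(2 * ζ * (c + 1))) = exp (-(2 * (ζ - 1) * c)) * exp (-(2 * c)) * exp (-(2 * ζ)) := by
    rw [← exp_add, ← exp_add]
    congr 1
    ring
  rw [e1]
  have h5 : sinh (2 * τ * (ζ - 1)) * exp (-(2 * (ζ - 1) * c)) ≤ 2 * τ * (ζ - 1) := by
    have := mul_le_mul_of_nonneg_right key (exp_pos (-(2 * (ζ - 1) * c))).le
    refine this.trans (le_of_eq ?_)
    rw [mul_assoc, ← exp_add]
    simp
  have h6 : 0 ≤ 2 * K * (exp (-(2 * c)) * exp (-(2 * ζ))) := by positivity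
  have h7 := mul_le_mul_of_nonneg_left h5 h6
  calc 2 * K * sinh (2 * τ * (ζ - 1)) * (exp (-(2 * (ζ - 1) * c)) * exp (-(2 * c)) * exp (-(2 * ζ)))
      = 2 * K * (exp (-(2 * c)) * exp (-(2 * ζ))) *
        (sinh (2 * τ * (ζ - 1)) * exp (-(2 * (ζ - 1) * c))) := by ring
    _ ≤ 2 * K * (exp (-(2 * c)) * exp (-(2 * ζ))) * (2 * τ * (ζ - 1)) := h7
    _ = τ / 2 * K * exp (-(2 * c)) * (8 * (ζ - 1) * exp (-(2 * ζ))) := by ring

theorem Dz_nonpos {τ ζ : ℝ} (hτ : 0 < τ) (hζ : ζ ≤ 1) : Dz τ ζ ≤ 0 := by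
  unfold Dz
  have h1 : 0 < sinh (τ / 2) := sinh_pos_iff.2 (by positivity)
  have h2 : 0 < cosh (τ / 2) := cosh_pos _
  have h3 : sinh (2 * τ * (ζ - 1)) ≤ 0 := by
    rw [sinh_nonpos_iff]
    nlinarith
  have h4 : 0 < cosh (τ / 2) / sinh (τ / 2) := div_pos h2 h1
  have h5 := exp_pos (-(2 * ζ * (τ * cosh τ / sinh τ)))
  have h6 : 2 * (cosh (τ / 2) / sinh (τ / 2)) * sinh (2 * τ * (ζ - 1)) ≤ 0 :=
    mul_nonpos_of_nonneg_of_nonpos (by positivity) h3
  exact mul_nonpos_of_nonpos_of_nonneg h6 h5.le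

end Pool.Agent.H75.LO
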