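import Pool.Agent.H75.LO.Dz

/-!
# LO3-DzBar: the envelope `Dz τ ζ ≤ Dbar ζ` for `ζ ≥ 1`

* `Dz_le_bar`: for `1 ≤ ζ ≤ 2` from `Dz_le_low`, `E1 ≤ 1`; for `2 ≤ ζ ≤ 5/2`:
  `ln((τ/2)coth(τ/2)) + ln(sinh w/w) ≤ 2ζ(τ coth τ-1)`, again convex in `ζ`, so only `ζ = 2` (known) and `ζ = 5/2`:
  `((τ/2) coth(τ/2)) · sinh(3τ)/(3τ) ≤ e^{5(τ coth τ-1)}`. For `ζ ≥ 5/2`: `Dz τ ·` is decreasing for `ζ ≥ 3/2` (for fixed `τ`
  the maximum is at `ζ = 3/2`), so it is enough to have `Dz τ (5/2) ≤ 0.084` (sup `0.08086`), `Dz τ 3 ≤ 0.049` (sup `0.04683`),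
  `Dz τ 4 ≤ 0.027` (sup `0.02489`) for all `τ > 0`.
-/

open Real

namespace Pool.Agent.H75.LO

/-! ### tools -/

theorem dzb_mono {f f' : ℝ → ℝ} {a b : ℝ} (hab : a ≤ b)
    (hf : ∀ x ∈ Set.Icc a b, HasDerivAt f (f' x) x) (h : ∀ x ∈ Set.Icc a b, 0 ≤ f' x) :
    f a ≤ f b := by
  have hm : MonotoneOn f (Set.Icc a b) := by
    refine monotoneOn_of_deriv_nonneg (convex_Icc a b)
      (fun x hx => (hf x hx).continuousAt.continuousWithinAt)
      (fun x hx => (hf x (interior_subset hx)).differentiableAt.differentiableWithinAt)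
      (fun x hx => ?_)
    rw [(hf x (interior_subset hx)).deriv]
    exact h x (interior_subset hx)
  exact hm (Set.left_mem_Icc.2 hab) (Set.right_mem_Icc.2 hab) hab

theorem dzb_exp_lt {x : ℝ} (hx : x < 0) : exp x < 1 := by
  rw [← Real.exp_zero]
  exact Real.exp_lt_exp.2 hx

theorem dzb_exp_lower {x : ℝ} (hx : 0 ≤ x) :
    1 + x + x ^ 2 / 2 + x ^ 3 / 6 + x ^ 4 / 24 + x ^ 5 / 120 + x ^ 6 / 720 + x ^ 7 / 5040 +
      x ^ 8 / 40320 ≤ exp x := by
  have h := Real.sum_le_exp_of_nonneg hx 9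
  simp only [Finset.sum_range_succ, Finset.sum_range_zero, Nat.factorial] at h
  norm_num at h
  linarith

theorem dzb_exp_upper {x : ℝ} (h0 : 0 ≤ x) (h1 : x ≤ 1) :
    exp x ≤ 1 + x + x ^ 2 / 2 + x ^ 3 / 6 + x ^ 4 / 24 + x ^ 5 / 120 + x ^ 6 / 720 +
      x ^ 7 / 4410 := by
  have h := Real.exp_bound' h0 h1 (n := 7) (by norm_num)
  simp only [Finset.sum_range_succ, Finset.sum_range_zero, Nat.factorial] at h
  norm_num at h
  linarith

/-- lower bound for a logarithm -/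
theorem dzb_log {v r : ℝ} (hv : 0 < v) (h0 : 0 ≤ r) (h1 : r ≤ 4)
    (h : (1 + r / 4 + (r / 4) ^ 2 / 2 + (r / 4) ^ 3 / 6 + (r / 4) ^ 4 / 24 + (r / 4) ^ 5 / 120 +
      (r / 4) ^ 6 / 720 + (r / 4) ^ 7 / 4410) ^ 4 * v ≤ 1) : r ≤ -log v := by
  have h2 := dzb_exp_upper (x := r / 4) (by linarith) (by linarith)
  have h3 : exp r = exp (r / 4) ^ 4 := by
    rw [← Real.exp_nat_mul]
    congr 1
    push_cast
    ring
  have h4 : exp r * v ≤ 1 := by
    refine le_trans (mul_le_mul_of_nonneg_right ?_ hv.le) h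
    rw [h3]
    exact pow_le_pow_left₀ (exp_pos _).le h2 4
  have h5 : log (exp r * v) ≤ 0 := Real.log_nonpos (by positivity) h4
  rw [Real.log_mul (exp_pos _).ne' hv.ne', Real.log_exp] at h5
  linarith

/-- lower bound for an exponential -/
theorem dzb_low {x M K : ℝ} (hx : 0 ≤ x) (hK : 0 ≤ K)
    (h : M ≤ K * (1 + x / 4 + (x / 4) ^ 2 / 2 + (x / 4) ^ 3 / 6 + (x / 4) ^ 4 / 24 +
      (x / 4) ^ 5 / 120 + (x / 4) ^ 6 / 720 + (x / 4) ^ 7 / 5040 + (x / 4) ^ 8 / 40320) ^ 4) :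
    M ≤ K * exp x := by
  have h2 := dzb_exp_lower (x := x / 4) (by linarith)
  have h3 : exp x = exp (x / 4) ^ 4 := by
    rw [← Real.exp_nat_mul]
    congr 1
    push_cast
    ring
  rw [h3]
  refine h.trans (mul_le_mul_of_nonneg_left ?_ hK)
  exact pow_le_pow_left₀ (by positivity) h2 4

/-! ### supporting lines of `τ coth τ` -/

theorem dzb_logbound {A B v₁ v : ℝ} (hA0 : 0 < A) (hB0 : 0 < B) (hAB : A + B = 2)
    (hv₁ : 0 < v₁) (hv : 0 < v)
    (h2 : B ^ 2 * v * v₁ ≤ A ^ 2) (h3 : B ^ 2 * v₁ * v₁ ≤ A ^ 2)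
    (hlog : (1 - v₁) * (A + B * v₁) / (2 * v₁) ≤ -log v₁) :
    (A + B * v₁) ^ 2 / (2 * v₁) * ((1 - v) / (A + B * v)) ≤ -log v := by
  set κ := (A + B * v₁) ^ 2 / (2 * v₁) with hκ
  set f : ℝ → ℝ := fun x => -log x - κ * ((1 - x) / (A + B * x)) with hf
  set f' : ℝ → ℝ := fun x =>
    (x - v₁) * (A ^ 2 - B ^ 2 * x * v₁) / (x * v₁ * (A + B * x) ^ 2) with hf'
  have hd : ∀ x, 0 < x → HasDerivAt f (f' x) x := by
    intro x hx
    have hABx : 0 < A + B * x := by positivity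
    have h1 : HasDerivAt (fun x : ℝ => -log x) (-x⁻¹) x := (Real.hasDerivAt_log hx.ne').neg
    have h5 : HasDerivAt (fun x : ℝ => 1 - x) (-1) x := by
      simpa using (hasDerivAt_id x).const_sub 1
    have h6 : HasDerivAt (fun x : ℝ => A + B * x) B x := by
      simpa using ((hasDerivAt_id x).const_mul B).const_add A
    have h4 := h5.div h6 hABx.ne'
    have h7 := h1.sub (h4.const_mul κ)
    have h8 : (-1) * (A + B * x) - (1 - x) * B = -2 := by
      linear_combination (-1) * hAB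
    rw [h8] at h7
    refine h7.congr_deriv ?_
    show -x⁻¹ - κ * (-2 / (A + B * x) ^ 2) =
      (x - v₁) * (A ^ 2 - B ^ 2 * x * v₁) / (x * v₁ * (A + B * x) ^ 2)
    rw [hκ]
    field_simp
    ring
  have hf1 : 0 ≤ f v₁ := by
    have hABv : 0 < A + B * v₁ := by positivity
    have e1 : κ * ((1 - v₁) / (A + B * v₁)) = (1 - v₁) * (A + B * v₁) / (2 * v₁) := by
      rw [hκ]
      field_simp
    show 0 ≤ -log v₁ - κ * ((1 - v₁) / (A + B * v₁))
    rw [e1]
    linarith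
  have hfin : f v₁ ≤ f v := by
    rcases le_total v v₁ with hle | hle
    · have h9 := dzb_mono (f := fun x => -f x) (f' := fun x => -f' x) hle
        (fun x hx => (hd x (hv.trans_le hx.1)).neg) (fun x hx => ?_)
      · have h9' : -f v ≤ -f v₁ := h9
        linarith
      · have hx0 : 0 < x := hv.trans_le hx.1
        have e1 : B ^ 2 * x * v₁ ≤ A ^ 2 := by
          refine le_trans ?_ h3
          have : B ^ 2 * x ≤ B ^ 2 * v₁ := mul_le_mul_of_nonneg_left hx.2 (by positivity)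
          exact mul_le_mul_of_nonneg_right this hv₁.le
        show 0 ≤ -((x - v₁) * (A ^ 2 - B ^ 2 * x * v₁) / (x * v₁ * (A + B * x) ^ 2))
        rw [← neg_div, ← neg_mul]
        have e2 : 0 ≤ -(x - v₁) := by linarith [hx.2]
        have e3 : 0 ≤ A ^ 2 - B ^ 2 * x * v₁ := by linarith
        positivity
    · refine dzb_mono (f := f) (f' := f') hle (fun x hx => hd x (hv₁.trans_le hx.1))
        (fun x hx => ?_)
      have hx0 : 0 < x := hv₁.trans_le hx.1
      have e1 : B ^ 2 * x * v₁ ≤ A ^ 2 := by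
        refine le_trans ?_ h2
        have : B ^ 2 * x ≤ B ^ 2 * v := mul_le_mul_of_nonneg_left hx.2 (by positivity)
        exact mul_le_mul_of_nonneg_right this hv₁.le
      show 0 ≤ (x - v₁) * (A ^ 2 - B ^ 2 * x * v₁) / (x * v₁ * (A + B * x) ^ 2)
      have e2 : 0 ≤ x - v₁ := by linarith [hx.1]
      have e3 : 0 ≤ A ^ 2 - B ^ 2 * x * v₁ := by linarith
      positivity
  have h10 : 0 ≤ f v := hf1.trans hfin
  have h11 : 0 ≤ -log v - κ * ((1 - v) / (A + B * v)) := h10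
  linarith

theorem dzb_coth {τ : ℝ} (hτ : 0 < τ) :
    cosh τ / sinh τ = (1 + exp (-τ) ^ 2) / (1 - exp (-τ) ^ 2) := by
  have hq0 : 0 < exp (-τ) := exp_pos _
  have hq1 : exp (-τ) < 1 := dzb_exp_lt (by linarith)
  have h1 : exp τ = (exp (-τ))⁻¹ := by rw [← Real.exp_neg, neg_neg]
  have hs : 0 < 1 - exp (-τ) ^ 2 := by nlinarith
  rw [Real.cosh_eq, Real.sinh_eq, h1]
  set q := exp (-τ)
  have h2 : q⁻¹ - q = (1 - q ^ 2) / q := by field_simp
  have h3 : q⁻¹ + q = (1 + q ^ 2) / q := by field_simp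
  rw [h2, h3]
  field_simp

theorem dzb_c {μ v₁ τ : ℝ} (hτ : 0 < τ) (hμ0 : 0 ≤ μ) (hμ1 : μ < 1) (hv₁ : 0 < v₁)
    (h2 : (1 + μ) ^ 2 * exp (-τ) ^ 2 * v₁ ≤ (1 - μ) ^ 2)
    (h3 : (1 + μ) ^ 2 * v₁ * v₁ ≤ (1 - μ) ^ 2)
    (hlog : (1 - v₁) * ((1 - μ) + (1 + μ) * v₁) / (2 * v₁) ≤ -log v₁) :
    ((1 - μ) + (1 + μ) * v₁) ^ 2 / (4 * v₁) + μ * τ ≤ τ * cosh τ / sinh τ := by
  have hq0 : 0 < exp (-τ) := exp_pos _
  have hq1 : exp (-τ) < 1 := dzb_exp_lt (by linarith)
  have hv := dzb_logbound (A := 1 - μ) (B := 1 + μ) (by linarith) (by linarith) (by ring) hv₁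
    (pow_pos hq0 2) h2 h3 hlog
  have hl : log (exp (-τ) ^ 2) = -(2 * τ) := by
    rw [Real.log_pow, Real.log_exp]
    push_cast
    ring
  rw [hl, neg_neg] at hv
  rw [mul_div_assoc, dzb_coth hτ]
  set q := exp (-τ)
  have hs : 0 < 1 - q ^ 2 := by nlinarith
  have hAB : 0 < (1 - μ) + (1 + μ) * q ^ 2 := by
    have : 0 < 1 - μ := by linarith
    positivity
  rw [← mul_div_assoc, le_div_iff₀ hs]
  rw [← mul_div_assoc, div_le_iff₀ hAB] at hv
  have e1 : ((1 - μ) + (1 + μ) * v₁) ^ 2 / (2 * v₁) =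
      2 * (((1 - μ) + (1 + μ) * v₁) ^ 2 / (4 * v₁)) := by
    field_simp
    ring
  rw [e1] at hv
  nlinarith

/-! ### the kernel in the variable `q = e^{-τ}` -/

theorem dzb_coth_half {τ : ℝ} (hτ : 0 < τ) :
    cosh (τ / 2) / sinh (τ / 2) = (1 + exp (-τ)) / (1 - exp (-τ)) := by
  have h := dzb_coth (half_pos hτ)
  have h2 : exp (-(τ / 2)) ^ 2 = exp (-τ) := by
    rw [← Real.exp_nat_mul]
    congr 1
    push_cast
    ring
  rw [h2] at h
  exact h

theorem dzb_sinh {τ : ℝ} (n : ℕ) :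
    2 * sinh (n * τ) = (1 - exp (-τ) ^ (2 * n)) / exp (-τ) ^ n := by
  have hq0 : 0 < exp (-τ) := exp_pos _
  have h1 : exp (-(n * τ)) = exp (-τ) ^ n := by
    rw [← Real.exp_nat_mul]
    congr 1
    ring
  have h2 : exp (n * τ) = (exp (-τ) ^ n)⁻¹ := by
    rw [← h1, ← Real.exp_neg, neg_neg]
  rw [Real.sinh_eq, h1, h2]
  set q := exp (-τ)
  rw [show 2 * n = n + n by ring, pow_add]
  field_simp

/-- the final step -/
theorem dzb_fin {τ α μ k M K Y : ℝ} {m : ℕ} (hk : 0 ≤ k) (hY : 0 < Y)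
    (hc : α + μ * τ ≤ τ * cosh τ / sinh τ) (hm : k * μ = m) {X : ℝ}
    (hX : X * exp (-τ) ^ m ≤ M * Y) (hM : M ≤ K * exp (k * α)) :
    X / Y * exp (-(k * (τ * cosh τ / sinh τ))) ≤ K ∨ X < 0 := by
  by_cases hX0 : 0 ≤ X
  · left
    have h1 : exp (-(k * (τ * cosh τ / sinh τ))) ≤ exp (-(k * α)) * exp (-τ) ^ m := by
      rw [← Real.exp_nat_mul, ← Real.exp_add]
      refine Real.exp_le_exp.2 ?_
      rw [← hm]
      nlinarith [mul_le_mul_of_nonneg_left hc hk]
    have h2 : X / Y * exp (-(k * (τ * cosh τ / sinh τ))) ≤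
        X / Y * (exp (-(k * α)) * exp (-τ) ^ m) :=
      mul_le_mul_of_nonneg_left h1 (by positivity)
    refine h2.trans ?_
    have h3 : X / Y * (exp (-(k * α)) * exp (-τ) ^ m) =
        (X * exp (-τ) ^ m) / Y * exp (-(k * α)) := by ring
    have h4 : (X * exp (-τ) ^ m) / Y ≤ M := (div_le_iff₀ hY).2 hX
    rw [h3]
    calc (X * exp (-τ) ^ m) / Y * exp (-(k * α)) ≤ M * exp (-(k * α)) :=
          mul_le_mul_of_nonneg_right h4 (exp_pos _).le
      _ ≤ K * exp (k * α) * exp (-(k * α)) := mul_le_mul_of_nonneg_right hM (exp_pos _).le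
      _ = K := by rw [mul_assoc, ← Real.exp_add]; simp
  · right
    exact not_le.1 hX0

theorem dzb_poly3 {q : ℝ} (h0 : 52 / 100 ≤ q) (h1 : q ≤ 77 / 100) :
    (1 + q) ^ 2 * (1 + q ^ 2) * (1 + q ^ 4) ≤ 1175 / 100 * q ^ 2 := by
  have key : (1175 / 100 * q ^ 2 - (1 + q) ^ 2 * (1 + q ^ 2) * (1 + q ^ 4)) * (1 / 4) ^ 8 =
        16761625591 / 610351562500 * ((q - 13 / 25) ^ 0 * (77 / 100 - q) ^ 8) +
        1441982179531 / 1220703125000 * ((q - 13 / 25) ^ 1 * (77 / 100 - q) ^ 7) +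
        70940232018343 / 9765625000000 * ((q - 13 / 25) ^ 2 * (77 / 100 - q) ^ 6) +
        97338808207943 / 4882812500000 * ((q - 13 / 25) ^ 3 * (77 / 100 - q) ^ 5) +
        117244711955043 / 3906250000000 * ((q - 13 / 25) ^ 4 * (77 / 100 - q) ^ 4) +
        255477019597411 / 9765625000000 * ((q - 13 / 25) ^ 5 * (77 / 100 - q) ^ 3) +
        2002186957682263 / 156250000000000 * ((q - 13 / 25) ^ 6 * (77 / 100 - q) ^ 2) +
        3831495023987419 / 1250000000000000 * ((q - 13 / 25) ^ 7 * (77 / 100 - q) ^ 1) +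
        2219024939301719 / 10000000000000000 * ((q - 13 / 25) ^ 8 * (77 / 100 - q) ^ 0) := by
    ring
  have e0 : 0 ≤ q - 13 / 25 := by linarith
  have e1 : 0 ≤ 77 / 100 - q := by linarith
  have hpos : 0 ≤ (1175 / 100 * q ^ 2 - (1 + q) ^ 2 * (1 + q ^ 2) * (1 + q ^ 4)) *
      (1 / 4) ^ 8 := by
    rw [key]
    positivity
  have h2 := nonneg_of_mul_nonneg_left hpos (by norm_num)
  linarith

theorem dzb_poly4 {q : ℝ} (h0 : 36 / 100 ≤ q) (h1 : q ≤ 62 / 100) :
    1 + q ≤ 166 / 10 * (q ^ 2 * (1 - q)) := by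
  have key : (166 / 10 * (q ^ 2 * (1 - q)) - (1 + q)) * (26 / 100) ^ 3 =
        1318 / 78125 * ((q - 9 / 25) ^ 0 * (31 / 50 - q) ^ 3) +
        95318 / 78125 * ((q - 9 / 25) ^ 1 * (31 / 50 - q) ^ 2) +
        359337 / 156250 * ((q - 9 / 25) ^ 2 * (31 / 50 - q) ^ 1) +
        502997 / 625000 * ((q - 9 / 25) ^ 3 * (31 / 50 - q) ^ 0) := by
    ring
  have e0 : 0 ≤ q - 9 / 25 := by linarith
  have e1 : 0 ≤ 31 / 50 - q := by linarith
  have hpos : 0 ≤ (166 / 10 * (q ^ 2 * (1 - q)) - (1 + q)) * (26 / 100) ^ 3 := by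
    rw [key]
    positivity
  have h2 := nonneg_of_mul_nonneg_left hpos (by norm_num)
  linarith

theorem dzb_Dz3 {τ : ℝ} (hτ : 0 < τ) : Dz τ 3 =
    (1 + exp (-τ)) * (1 - exp (-τ) ^ 8) / ((1 - exp (-τ)) * exp (-τ) ^ 4) *
      exp (-(6 * (τ * cosh τ / sinh τ))) := by
  have hq0 : 0 < exp (-τ) := exp_pos _
  have hq1 : exp (-τ) < 1 := dzb_exp_lt (by linarith)
  have h1 := dzb_sinh (τ := τ) 4
  have h2 : 2 * τ * (3 - 1) = ((4 : ℕ) : ℝ) * τ := by push_cast; ring
  unfold Dz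
  rw [dzb_coth_half hτ, h2]
  have h3 : sinh (((4 : ℕ) : ℝ) * τ) = (1 - exp (-τ) ^ (2 * 4)) / exp (-τ) ^ 4 / 2 := by
    rw [← h1]
    ring
  rw [h3, show (2 : ℝ) * 3 = 6 by norm_num]
  set q := exp (-τ)
  have hs : (1 - q) ≠ 0 := by
    have : 0 < 1 - q := by linarith
    exact this.ne'
  congr 1
  field_simp

theorem dzb_Dz4 {τ : ℝ} (hτ : 0 < τ) : Dz τ 4 =
    (1 + exp (-τ)) * (1 - exp (-τ) ^ 12) / ((1 - exp (-τ)) * exp (-τ) ^ 6) *
      exp (-(8 * (τ * cosh τ / sinh τ))) := by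
  have hq0 : 0 < exp (-τ) := exp_pos _
  have hq1 : exp (-τ) < 1 := dzb_exp_lt (by linarith)
  have h1 := dzb_sinh (τ := τ) 6
  have h2 : 2 * τ * (4 - 1) = ((6 : ℕ) : ℝ) * τ := by push_cast; ring
  unfold Dz
  rw [dzb_coth_half hτ, h2]
  have h3 : sinh (((6 : ℕ) : ℝ) * τ) = (1 - exp (-τ) ^ (2 * 6)) / exp (-τ) ^ 6 / 2 := by
    rw [← h1]
    ring
  rw [h3, show (2 : ℝ) * 4 = 8 by norm_num]
  set q := exp (-τ)
  have hs : (1 - q) ≠ 0 := by
    have : 0 < 1 - q := by linarith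
    exact this.ne'
  congr 1
  field_simp

theorem dzb_s {q a : ℝ} (h0 : 0 < a) (h1 : a ≤ q) (h2 : q ≤ 1) : q + q⁻¹ ≤ a + a⁻¹ := by
  have hq : 0 < q := h0.trans_le h1
  have ha1 : a ≤ 1 := h1.trans h2
  rw [← sub_nonneg]
  have e : a + a⁻¹ - (q + q⁻¹) = (q - a) * (1 - a * q) / (a * q) := by
    field_simp
    ring
  rw [e]
  have e1 : 0 ≤ q - a := by linarith
  have e2 : 0 ≤ 1 - a * q := by nlinarith
  positivity

theorem dzb_one_le {τ : ℝ} (hτ : 0 < τ) : 1 ≤ τ * cosh τ / sinh τ := by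
  have hq1 : exp (-τ) ≤ 1 := Real.exp_le_one_iff.2 (by linarith)
  have hq0 : 0 < exp (-τ) := exp_pos _
  have h := dzb_c (μ := 0) (v₁ := 1) hτ le_rfl (by norm_num) (by norm_num) (by nlinarith)
    (by norm_num) (by norm_num)
  norm_num at h
  exact h

theorem dzb_three {τ : ℝ} (hτ : 0 < τ) : Dz τ 3 ≤ 49 / 1000 := by
  rw [dzb_Dz3 hτ]
  have hq0 : 0 < exp (-τ) := exp_pos _
  have hq1 : exp (-τ) < 1 := dzb_exp_lt (by linarith)
  have hq8 : exp (-τ) ^ 8 ≤ 1 := pow_le_one₀ hq0.le hq1.le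
  have hX : 0 ≤ (1 + exp (-τ)) * (1 - exp (-τ) ^ 8) := by
    have : 0 ≤ 1 - exp (-τ) ^ 8 := by linarith
    positivity
  have hY : 0 < (1 - exp (-τ)) * exp (-τ) ^ 4 := by
    have : 0 < 1 - exp (-τ) := by linarith
    positivity
  rcases le_or_gt (77 / 100) (exp (-τ)) with hA | hA
  · -- `μ = 0`
    refine (dzb_fin (α := 1) (μ := 0) (k := 6) (M := 197 / 10) (m := 0) (by norm_num) hY
      (by simpa using dzb_one_le hτ) (by norm_num) ?_ ?_).resolve_right
      (not_lt.2 hX)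
    · set q := exp (-τ)
      have hs := dzb_s (q := q) (a := 77 / 100) (by norm_num) hA hq1.le
      have hs2 : q + q⁻¹ ≤ 207 / 100 := hs.trans (by norm_num)
      set s := q + q⁻¹ with hsd
      have hsp : 2 ≤ s := by
        have : 0 ≤ (1 - q) ^ 2 / q := by positivity
        have e : (1 - q) ^ 2 / q = s - 2 := by
          rw [hsd]
          field_simp
          ring
        linarith
      have e1 : (1 + q) * (1 - q ^ 8) = (1 - q) * q ^ 4 * ((s + 2) * s * (s ^ 2 - 2)) := by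
        rw [hsd]
        field_simp
        ring
      rw [pow_zero, mul_one, e1, mul_comm (197 / 10 : ℝ)]
      refine mul_le_mul_of_nonneg_left ?_ hY.le
      have e2 : s ^ 2 - 2 ≤ 22849 / 10000 := by nlinarith
      have e3 : 0 ≤ s ^ 2 - 2 := by nlinarith
      calc (s + 2) * s * (s ^ 2 - 2) ≤ (207 / 100 + 2) * (207 / 100) * (22849 / 10000) := by
            gcongr
        _ ≤ 197 / 10 := by norm_num
    · have h := dzb_low (x := 6 * 1) (M := 197 / 10) (K := 49 / 1000) (by norm_num) (by norm_num)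
        (by norm_num)
      exact h
  rcases le_or_gt (52 / 100) (exp (-τ)) with hB | hB
  · -- `μ = 1/3`
    have hc := dzb_c (μ := 1 / 3) (v₁ := 356 / 1000) hτ (by norm_num) (by norm_num) (by norm_num)
      (by nlinarith) (by norm_num)
      (dzb_log (by norm_num) (by norm_num) (by norm_num) (by norm_num))
    refine (dzb_fin (k := 6) (M := 1175 / 100) (m := 2) (by norm_num) hY
      hc (by norm_num) ?_ ?_).resolve_right (not_lt.2 hX)
    · set q := exp (-τ)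
      have h := dzb_poly3 hB hA.le
      have e1 : (1 + q) * (1 - q ^ 8) = (1 - q) * ((1 + q) ^ 2 * (1 + q ^ 2) * (1 + q ^ 4)) := by
        ring
      have e2 : 0 ≤ (1 - q) * q ^ 2 := by
        have : 0 < 1 - q := by linarith
        positivity
      rw [e1]
      nlinarith [mul_le_mul_of_nonneg_left h e2]
    · exact dzb_low (by norm_num) (by norm_num) (by norm_num)
  rcases le_or_gt (38 / 100) (exp (-τ)) with hC | hC
  · -- `μ = 1/2`
    have hc := dzb_c (μ := 1 / 2) (v₁ := 196 / 1000) hτ (by norm_num) (by norm_num) (by norm_num)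
      (by nlinarith) (by norm_num)
      (dzb_log (by norm_num) (by norm_num) (by norm_num) (by norm_num))
    refine (dzb_fin (k := 6) (M := 61 / 10) (m := 3) (by norm_num) hY
      hc (by norm_num) ?_ ?_).resolve_right (not_lt.2 hX)
    · set q := exp (-τ)
      have h : 1 + q ≤ 61 / 10 * (q * (1 - q)) := by
        nlinarith [mul_nonneg (sub_nonneg.2 hC) (sub_nonneg.2 hB.le)]
      have e0 : (1 + q) * (1 - q ^ 8) ≤ 1 + q := by nlinarith [pow_pos hq0 8]
      have e2 : 0 ≤ q ^ 3 := by positivity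
      nlinarith [mul_le_mul_of_nonneg_right (e0.trans h) e2]
    · exact dzb_low (by norm_num) (by norm_num) (by norm_num)
  · -- `μ = 2/3`
    have hc := dzb_c (μ := 2 / 3) (v₁ := 94 / 1000) hτ (by norm_num) (by norm_num) (by norm_num)
      (by nlinarith) (by norm_num)
      (dzb_log (by norm_num) (by norm_num) (by norm_num) (by norm_num))
    refine (dzb_fin (k := 6) (M := 225 / 100) (m := 4) (by norm_num) hY
      hc (by norm_num) ?_ ?_).resolve_right (not_lt.2 hX)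
    · set q := exp (-τ)
      have h : 1 + q ≤ 225 / 100 * (1 - q) := by linarith
      have e0 : (1 + q) * (1 - q ^ 8) ≤ 1 + q := by nlinarith [pow_pos hq0 8]
      have e2 : 0 ≤ q ^ 4 := by positivity
      nlinarith [mul_le_mul_of_nonneg_right (e0.trans h) e2]
    · exact dzb_low (by norm_num) (by norm_num) (by norm_num)

theorem dzb_four {τ : ℝ} (hτ : 0 < τ) : Dz τ 4 ≤ 27 / 1000 := by
  rw [dzb_Dz4 hτ]
  have hq0 : 0 < exp (-τ) := exp_pos _
  have hq1 : exp (-τ) < 1 := dzb_exp_lt (by linarith)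
  have hq12 : exp (-τ) ^ 12 ≤ 1 := pow_le_one₀ hq0.le hq1.le
  have hX : 0 ≤ (1 + exp (-τ)) * (1 - exp (-τ) ^ 12) := by
    have : 0 ≤ 1 - exp (-τ) ^ 12 := by linarith
    positivity
  have hY : 0 < (1 - exp (-τ)) * exp (-τ) ^ 6 := by
    have : 0 < 1 - exp (-τ) := by linarith
    positivity
  rcases le_or_gt (62 / 100) (exp (-τ)) with hA | hA
  · -- `μ = 0`
    refine (dzb_fin (α := 1) (μ := 0) (k := 8) (M := 80) (m := 0) (by norm_num) hY
      (by simpa using dzb_one_le hτ) (by norm_num) ?_ ?_).resolve_right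
      (not_lt.2 hX)
    · set q := exp (-τ)
      have hs := dzb_s (q := q) (a := 62 / 100) (by norm_num) hA hq1.le
      have hs2 : q + q⁻¹ ≤ 224 / 100 := hs.trans (by norm_num)
      set s := q + q⁻¹ with hsd
      have hsp : 2 ≤ s := by
        have : 0 ≤ (1 - q) ^ 2 / q := by positivity
        have e : (1 - q) ^ 2 / q = s - 2 := by
          rw [hsd]
          field_simp
          ring
        linarith
      have e1 : (1 + q) * (1 - q ^ 12) =
          (1 - q) * q ^ 6 * ((s + 2) * s * (s ^ 2 - 1) * (s ^ 2 - 3)) := by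
        rw [hsd]
        field_simp
        ring
      rw [pow_zero, mul_one, e1, mul_comm (80 : ℝ)]
      refine mul_le_mul_of_nonneg_left ?_ hY.le
      have e2 : s ^ 2 ≤ 50176 / 10000 := by nlinarith
      have e3 : 0 ≤ s ^ 2 - 3 := by nlinarith
      have e4 : 0 ≤ s ^ 2 - 1 := by linarith
      calc (s + 2) * s * (s ^ 2 - 1) * (s ^ 2 - 3) ≤
            (224 / 100 + 2) * (224 / 100) * (50176 / 10000 - 1) * (50176 / 10000 - 3) := by
            gcongr
        _ ≤ 80 := by norm_num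
    · have h := dzb_low (x := 8 * 1) (M := 80) (K := 27 / 1000) (by norm_num) (by norm_num)
        (by norm_num)
      exact h
  rcases le_or_gt (36 / 100) (exp (-τ)) with hB | hB
  · -- `μ = 1/2`
    have hc := dzb_c (μ := 1 / 2) (v₁ := 196 / 1000) hτ (by norm_num) (by norm_num) (by norm_num)
      (by nlinarith) (by norm_num)
      (dzb_log (by norm_num) (by norm_num) (by norm_num) (by norm_num))
    refine (dzb_fin (k := 8) (M := 166 / 10) (m := 4) (by norm_num) hY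
      hc (by norm_num) ?_ ?_).resolve_right (not_lt.2 hX)
    · set q := exp (-τ)
      have h := dzb_poly4 hB hA.le
      have e0 : (1 + q) * (1 - q ^ 12) ≤ 1 + q := by nlinarith [pow_pos hq0 12]
      have e2 : 0 ≤ q ^ 4 := by positivity
      nlinarith [mul_le_mul_of_nonneg_right (e0.trans h) e2]
    · exact dzb_low (by norm_num) (by norm_num) (by norm_num)
  rcases le_or_gt (28 / 100) (exp (-τ)) with hC | hC
  · -- `μ = 5/8`
    have hc := dzb_c (μ := 5 / 8) (v₁ := 115 / 1000) hτ (by norm_num) (by norm_num) (by norm_num)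
      (by nlinarith) (by norm_num)
      (dzb_log (by norm_num) (by norm_num) (by norm_num) (by norm_num))
    refine (dzb_fin (k := 8) (M := 645 / 100) (m := 5) (by norm_num) hY
      hc (by norm_num) ?_ ?_).resolve_right (not_lt.2 hX)
    · set q := exp (-τ)
      have h : 1 + q ≤ 645 / 100 * (q * (1 - q)) := by
        nlinarith [mul_nonneg (sub_nonneg.2 hC) (sub_nonneg.2 hB.le)]
      have e0 : (1 + q) * (1 - q ^ 12) ≤ 1 + q := by nlinarith [pow_pos hq0 12]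
      have e2 : 0 ≤ q ^ 5 := by positivity
      nlinarith [mul_le_mul_of_nonneg_right (e0.trans h) e2]
    · exact dzb_low (by norm_num) (by norm_num) (by norm_num)
  · -- `μ = 3/4`
    have hc := dzb_c (μ := 3 / 4) (v₁ := 585 / 10000) hτ (by norm_num) (by norm_num)
      (by norm_num) (by nlinarith) (by norm_num)
      (dzb_log (by norm_num) (by norm_num) (by norm_num) (by norm_num))
    refine (dzb_fin (k := 8) (M := 185 / 100) (m := 6) (by norm_num) hY
      hc (by norm_num) ?_ ?_).resolve_right (not_lt.2 hX)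
    · set q := exp (-τ)
      have h : 1 + q ≤ 185 / 100 * (1 - q) := by linarith
      have e0 : (1 + q) * (1 - q ^ 12) ≤ 1 + q := by nlinarith [pow_pos hq0 12]
      have e2 : 0 ≤ q ^ 6 := by positivity
      nlinarith [mul_le_mul_of_nonneg_right (e0.trans h) e2]
    · exact dzb_low (by norm_num) (by norm_num) (by norm_num)

/-! ### monotonicity in `ζ` -/

theorem dzb_anti {τ ζ₁ ζ₂ : ℝ} (hτ : 0 < τ) (h1 : 3 / 2 ≤ ζ₁) (h2 : ζ₁ ≤ ζ₂) :
    Dz τ ζ₂ ≤ Dz τ ζ₁ := by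
  have hs : 0 < sinh τ := Real.sinh_pos_iff.2 hτ
  have hsh : 0 < sinh (τ / 2) := Real.sinh_pos_iff.2 (by linarith)
  set x := 2 * τ * (ζ₁ - 1) with hx
  set h := 2 * τ * (ζ₂ - ζ₁) with hh
  set k := cosh τ / sinh τ with hk
  have hk1 : 1 ≤ k := by
    rw [hk, le_div_iff₀ hs, one_mul]
    exact (Real.sinh_lt_cosh τ).le
  have hxτ : τ ≤ x := by
    rw [hx]
    nlinarith
  have hh0 : 0 ≤ h := by
    rw [hh]
    have : 0 ≤ ζ₂ - ζ₁ := by linarith
    positivity
  have hsx : 0 < sinh x := Real.sinh_pos_iff.2 (hτ.trans_le hxτ)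
  have hcoth : cosh x ≤ k * sinh x := by
    rw [hk, div_mul_eq_mul_div, le_div_iff₀ hs]
    have e := Real.sinh_sub x τ
    have e2 : 0 ≤ sinh (x - τ) := Real.sinh_nonneg_iff.2 (by linarith)
    rw [e] at e2
    linarith
  -- `cosh h + k sinh h ≤ e^{k h}`
  have hE : cosh h + k * sinh h ≤ exp (k * h) := by
    have ha : 0 ≤ 2 / (1 + k) := by positivity
    have hb : 0 ≤ (k - 1) / (1 + k) := div_nonneg (by linarith) (by linarith)
    have hab : 2 / (1 + k) + (k - 1) / (1 + k) = 1 := by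
      have : 1 + k ≠ 0 := by linarith
      field_simp
      ring
    have hconv := convexOn_exp.2 (Set.mem_univ (k * h)) (Set.mem_univ (-h)) ha hb hab
    simp only [smul_eq_mul] at hconv
    have e1 : 2 / (1 + k) * (k * h) + (k - 1) / (1 + k) * -h = h := by
      have : 1 + k ≠ 0 := by linarith
      field_simp
      ring
    rw [e1] at hconv
    have hk0 : 0 < 1 + k := by linarith
    have h3 := mul_le_mul_of_nonneg_left hconv hk0.le
    have e2 : (1 + k) * (2 / (1 + k) * exp (k * h) + (k - 1) / (1 + k) * exp (-h)) =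
        2 * exp (k * h) + (k - 1) * exp (-h) := by
      field_simp
    rw [e2] at h3
    rw [Real.cosh_eq, Real.sinh_eq]
    nlinarith
  have hsum : sinh (2 * τ * (ζ₂ - 1)) ≤ sinh x * exp (k * h) := by
    have e1 : 2 * τ * (ζ₂ - 1) = x + h := by rw [hx, hh]; ring
    rw [e1, Real.sinh_add]
    have hsh0 : 0 ≤ sinh h := Real.sinh_nonneg_iff.2 hh0
    calc sinh x * cosh h + cosh x * sinh h ≤ sinh x * cosh h + (k * sinh x) * sinh h := by
          gcongr
      _ = sinh x * (cosh h + k * sinh h) := by ring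
      _ ≤ sinh x * exp (k * h) := mul_le_mul_of_nonneg_left hE hsx.le
  unfold Dz
  have hpre : 0 ≤ 2 * (cosh (τ / 2) / sinh (τ / 2)) := by
    have := Real.cosh_pos (τ / 2)
    positivity
  have hkey : sinh (2 * τ * (ζ₂ - 1)) * exp (-(2 * ζ₂ * (τ * cosh τ / sinh τ))) ≤
      sinh x * exp (-(2 * ζ₁ * (τ * cosh τ / sinh τ))) := by
    calc sinh (2 * τ * (ζ₂ - 1)) * exp (-(2 * ζ₂ * (τ * cosh τ / sinh τ)))
        ≤ sinh x * exp (k * h) * exp (-(2 * ζ₂ * (τ * cosh τ / sinh τ))) :=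
          mul_le_mul_of_nonneg_right hsum (exp_pos _).le
      _ = sinh x * exp (-(2 * ζ₁ * (τ * cosh τ / sinh τ))) := by
          rw [mul_assoc, ← Real.exp_add]
          congr 2
          rw [hk, hh]
          ring
  have h9 := mul_le_mul_of_nonneg_left hkey hpre
  rw [← mul_assoc, ← mul_assoc] at h9
  exact h9

/-! ### the value `ζ = 5/2` -/

/-- the inequality of Lazarevic -/
theorem dzb_laz {τ : ℝ} (hτ : 0 ≤ τ) : τ ^ 3 * cosh τ ≤ sinh τ ^ 3 := by
  -- elementary bounds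
  have hS : ∀ x : ℝ, 0 ≤ x → x ≤ sinh x := fun x hx => Real.self_le_sinh_iff.2 hx
  have hC : ∀ x : ℝ, 0 ≤ x → 1 + x ^ 2 / 2 ≤ cosh x := by
    intro x hx
    have h1 := hS (x / 2) (by linarith)
    have h2 : cosh x = 1 + 2 * sinh (x / 2) ^ 2 := by
      have h3 := Real.cosh_two_mul (x / 2)
      have h4 := Real.cosh_sq (x / 2)
      rw [show 2 * (x / 2) = x by ring] at h3
      rw [h3, h4]
      ring
    rw [h2]
    nlinarith
  have hd3 : ∀ x : ℝ, 0 ≤ x →
      0 ≤ 27 * cosh x * sinh x ^ 2 - 18 * x * sinh x - 9 * x ^ 2 * cosh x - x ^ 3 * sinh x := by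
    intro x hx
    have h1 := hS x hx
    have h2 := hC x hx
    have hs0 : 0 ≤ sinh x := hx.trans h1
    have hc1 : 1 ≤ cosh x := Real.one_le_cosh x
    have e1 : x ^ 2 ≤ sinh x ^ 2 := pow_le_pow_left₀ hx h1 2
    have e2 : 9 * x ^ 2 * cosh x ≤ 9 * cosh x * sinh x ^ 2 := by nlinarith
    have e3 : x + x ^ 3 / 2 ≤ cosh x * sinh x := by
      calc x + x ^ 3 / 2 = (1 + x ^ 2 / 2) * x := by ring
        _ ≤ cosh x * sinh x := mul_le_mul h2 h1 hx (by linarith)
    have e4 : (18 * x + x ^ 3) * sinh x ≤ 18 * (cosh x * sinh x) * sinh x := by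
      refine mul_le_mul_of_nonneg_right ?_ hs0
      have : 0 ≤ x ^ 3 := by positivity
      linarith
    nlinarith
  have d2 : ∀ x : ℝ, HasDerivAt (fun x => 6 * sinh x * cosh x ^ 2 + 3 * sinh x ^ 3 -
      6 * x * cosh x - 6 * x ^ 2 * sinh x - x ^ 3 * cosh x)
      (27 * cosh x * sinh x ^ 2 - 18 * x * sinh x - 9 * x ^ 2 * cosh x - x ^ 3 * sinh x) x := by
    intro x
    have hs := Real.hasDerivAt_sinh x
    have hc := Real.hasDerivAt_cosh x
    have hid := hasDerivAt_id x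
    have h := (((((hs.const_mul 6).mul (hc.pow 2)).add ((hs.pow 3).const_mul 3)).sub
      ((hid.const_mul 6).mul hc)).sub (((hid.pow 2).const_mul 6).mul hs)).sub ((hid.pow 3).mul hc)
    refine (h.congr_deriv ?_).congr_of_eventuallyEq ?_
    · simp only [id, Pi.pow_apply]
      have h4 := Real.cosh_sq x
      ring_nf
      have h5 : cosh x ^ 3 = cosh x * (sinh x ^ 2 + 1) := by
        rw [← h4]
        ring
      rw [h5]
      ring
    · refine Filter.Eventually.of_forall fun y => ?_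
      simp only [id, Pi.add_apply, Pi.sub_apply, Pi.mul_apply, Pi.pow_apply]
  have d1 : ∀ x : ℝ, HasDerivAt (fun x => 3 * sinh x ^ 2 * cosh x - 3 * x ^ 2 * cosh x -
      x ^ 3 * sinh x) (6 * sinh x * cosh x ^ 2 + 3 * sinh x ^ 3 -
      6 * x * cosh x - 6 * x ^ 2 * sinh x - x ^ 3 * cosh x) x := by
    intro x
    have hs := Real.hasDerivAt_sinh x
    have hc := Real.hasDerivAt_cosh x
    have hid := hasDerivAt_id x
    have h := (((((hs.pow 2).const_mul 3).mul hc).sub (((hid.pow 2).const_mul 3).mul hc))).sub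
      ((hid.pow 3).mul hs)
    refine (h.congr_deriv ?_).congr_of_eventuallyEq ?_
    · simp only [id, Pi.pow_apply]
      ring
    · refine Filter.Eventually.of_forall fun y => ?_
      simp only [id, Pi.add_apply, Pi.sub_apply, Pi.mul_apply, Pi.pow_apply]
  have d0 : ∀ x : ℝ, HasDerivAt (fun x => sinh x ^ 3 - x ^ 3 * cosh x)
      (3 * sinh x ^ 2 * cosh x - 3 * x ^ 2 * cosh x - x ^ 3 * sinh x) x := by
    intro x
    have hs := Real.hasDerivAt_sinh x
    have hc := Real.hasDerivAt_cosh x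
    have hid := hasDerivAt_id x
    have h := (hs.pow 3).sub ((hid.pow 3).mul hc)
    refine (h.congr_deriv ?_).congr_of_eventuallyEq ?_
    · simp only [id, Pi.pow_apply]
      ring
    · refine Filter.Eventually.of_forall fun y => ?_
      simp only [id, Pi.sub_apply, Pi.mul_apply, Pi.pow_apply]
  have p2 : ∀ x : ℝ, 0 ≤ x → 0 ≤ 6 * sinh x * cosh x ^ 2 + 3 * sinh x ^ 3 -
      6 * x * cosh x - 6 * x ^ 2 * sinh x - x ^ 3 * cosh x := by
    intro x hx
    have h := dzb_mono hx (fun y _ => d2 y) (fun y hy => hd3 y hy.1)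
    simpa using h
  have p1 : ∀ x : ℝ, 0 ≤ x → 0 ≤ 3 * sinh x ^ 2 * cosh x - 3 * x ^ 2 * cosh x -
      x ^ 3 * sinh x := by
    intro x hx
    have h := dzb_mono hx (fun y _ => d1 y) (fun y hy => p2 y hy.1)
    simpa using h
  have h := dzb_mono hτ (fun y _ => d0 y) (fun y hy => p1 y hy.1)
  have h' : (0 : ℝ) ≤ sinh τ ^ 3 - τ ^ 3 * cosh τ := by simpa using h
  linarith

theorem dzb_polyC {C : ℝ} (hC : 1 ≤ C) : ((C + 1) * (4 * C ^ 2 - 1) / 6) ^ 3 ≤ C ^ 10 := by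
  obtain ⟨x, rfl⟩ : ∃ x, C = 1 + x := ⟨C - 1, by ring⟩
  have hx : 0 ≤ x := by linarith
  have key : 216 * (1 + x) ^ 10 - ((1 + x + 1) * (4 * (1 + x) ^ 2 - 1)) ^ 3 =
      108 * x + 1494 * x ^ 2 + 7685 * x ^ 3 + 20688 * x ^ 4 + 33204 * x ^ 5 + 33680 * x ^ 6 +
      21936 * x ^ 7 + 8952 * x ^ 8 + 2096 * x ^ 9 + 216 * x ^ 10 := by ring
  have hpos : 0 ≤ 216 * (1 + x) ^ 10 - ((1 + x + 1) * (4 * (1 + x) ^ 2 - 1)) ^ 3 := by
    rw [key]
    positivity
  have e : ((1 + x + 1) * (4 * (1 + x) ^ 2 - 1) / 6) ^ 3 =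
      ((1 + x + 1) * (4 * (1 + x) ^ 2 - 1)) ^ 3 / 216 := by ring
  rw [e, div_le_iff₀ (by norm_num)]
  linarith

/-- `sinh 2τ / 2τ ≤ e^{2(τ coth τ - 1)}` -/
theorem dzb_X {τ : ℝ} (hτ : 0 < τ) :
    sinh τ * cosh τ / τ ≤ exp (2 * (τ * cosh τ / sinh τ - 1)) := by
  have hsh : 0 < sinh (τ / 2) := Real.sinh_pos_iff.2 (by linarith)
  have hch : 0 < cosh (τ / 2) := Real.cosh_pos _
  have h := Dz_le_low (ζ := 2) hτ (by norm_num) le_rfl
  unfold Dz E1 D1 at h
  set c := τ * cosh τ / sinh τ with hc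
  set t := cosh (τ / 2) / sinh (τ / 2) with ht
  have ht0 : 0 < t := by positivity
  rw [show 2 * τ * (2 - 1) = 2 * τ by ring, Real.sinh_two_mul] at h
  have e1 : exp (-(2 * 2 * c)) = exp (-(2 * (c - 1))) * exp (-(2 * 2)) *
      exp (-(2 * (c - 1))) * exp (0 * c) := by
    rw [← Real.exp_add, ← Real.exp_add, ← Real.exp_add]
    congr 1
    ring
  have e2 : exp (2 * (c - 1)) * exp (-(2 * (c - 1))) = 1 := by
    rw [← Real.exp_add]
    simp
  rw [e1, zero_mul, Real.exp_zero, mul_one] at h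
  set a := exp (-(2 * (c - 1))) with ha
  set b := exp (-(2 * 2 : ℝ)) with hb
  have ha0 : 0 < a := exp_pos _
  have hb0 : 0 < b := exp_pos _
  have hpos : 0 < 4 * t * a * b := by positivity
  have h3 : (4 * t * a * b) * (sinh τ * cosh τ * a) ≤ (4 * t * a * b) * τ := by
    calc (4 * t * a * b) * (sinh τ * cosh τ * a)
        = 2 * t * (2 * sinh τ * cosh τ) * (a * b * a) := by ring
      _ ≤ τ / 2 * t * a * (8 * (2 - 1) * b) := h
      _ = (4 * t * a * b) * τ := by ring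
  have h4 := le_of_mul_le_mul_left h3 hpos
  rw [div_le_iff₀ hτ]
  have hE : 0 < exp (2 * (c - 1)) := exp_pos _
  calc sinh τ * cosh τ = exp (2 * (c - 1)) * (sinh τ * cosh τ * a) := by
        rw [show exp (2 * (c - 1)) * (sinh τ * cosh τ * a) =
          (exp (2 * (c - 1)) * a) * (sinh τ * cosh τ) by ring, e2, one_mul]
    _ ≤ exp (2 * (c - 1)) * τ := mul_le_mul_of_nonneg_left h4 hE.le

theorem dzb_P {τ : ℝ} (hτ : 0 < τ) :
    (cosh τ + 1) * (4 * cosh τ ^ 2 - 1) / 6 ≤ exp (5 * (τ * cosh τ / sinh τ - 1)) := by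
  have hC1 : 1 ≤ cosh τ := Real.one_le_cosh τ
  have hS0 : 0 < sinh τ := Real.sinh_pos_iff.2 hτ
  have hL := dzb_laz hτ.le
  have hX := dzb_X hτ
  have hP := dzb_polyC hC1
  set C := cosh τ
  set S := sinh τ
  set P := (C + 1) * (4 * C ^ 2 - 1) / 6 with hPd
  have hP0 : 0 ≤ P := by
    have : 0 ≤ 4 * C ^ 2 - 1 := by nlinarith
    positivity
  have hC0 : 0 < C := by linarith
  set Xx := S * C / τ with hXd
  have hX0 : 0 < Xx := by positivity
  have h1 : C ^ 4 ≤ Xx ^ 3 := by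
    rw [hXd, div_pow, le_div_iff₀ (by positivity), mul_pow]
    calc C ^ 4 * τ ^ 3 = C ^ 3 * (τ ^ 3 * C) := by ring
      _ ≤ C ^ 3 * S ^ 3 := mul_le_mul_of_nonneg_left hL (by positivity)
      _ = S ^ 3 * C ^ 3 := by ring
  have h2 : (P ^ 2) ^ 3 ≤ (Xx ^ 5) ^ 3 := by
    calc (P ^ 2) ^ 3 = (P ^ 3) ^ 2 := by ring
      _ ≤ (C ^ 10) ^ 2 := pow_le_pow_left₀ (by positivity) hP 2
      _ = (C ^ 4) ^ 5 := by ring
      _ ≤ (Xx ^ 3) ^ 5 := pow_le_pow_left₀ (by positivity) h1 5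
      _ = (Xx ^ 5) ^ 3 := by ring
  have h3 : P ^ 2 ≤ Xx ^ 5 := (pow_le_pow_iff_left₀ (by positivity) (by positivity) (by norm_num)).1 h2
  have h4 : Xx ^ 5 ≤ exp (5 * (τ * C / S - 1)) ^ 2 := by
    refine (pow_le_pow_left₀ hX0.le hX 5).trans (le_of_eq ?_)
    rw [← Real.exp_nat_mul, ← Real.exp_nat_mul]
    congr 1
    push_cast
    ring
  exact (pow_le_pow_iff_left₀ hP0 (exp_pos _).le (by norm_num)).1 (h3.trans h4)

theorem dzb_half {τ : ℝ} (hτ : 0 < τ) :
    cosh (τ / 2) / sinh (τ / 2) = (cosh τ + 1) / sinh τ := by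
  have hsh : 0 < sinh (τ / 2) := Real.sinh_pos_iff.2 (by linarith)
  have hch : 0 < cosh (τ / 2) := Real.cosh_pos _
  have h1 := Real.cosh_two_mul (τ / 2)
  have h2 := Real.sinh_two_mul (τ / 2)
  have h3 := Real.cosh_sq (τ / 2)
  rw [show 2 * (τ / 2) = τ by ring] at h1 h2
  rw [h1, h2, h3]
  field_simp
  linarith

/-- `coth(τ/2) sinh 3τ / 6 ≤ e^{5(τ coth τ - 1)}` -/
theorem dzb_P' {τ : ℝ} (hτ : 0 < τ) :
    cosh (τ / 2) / sinh (τ / 2) * sinh (3 * τ) / 6 ≤ exp (5 * (τ * cosh τ / sinh τ - 1)) := by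
  have hS0 : 0 < sinh τ := Real.sinh_pos_iff.2 hτ
  refine (le_of_eq ?_).trans (dzb_P hτ)
  rw [dzb_half hτ, Real.sinh_three_mul]
  have h4 := Real.cosh_sq τ
  rw [h4]
  field_simp
  ring

theorem dzb_five {τ : ℝ} (hτ : 0 < τ) : Dz τ (5 / 2) ≤ 12 * exp (-5) := by
  have h := dzb_P' hτ
  unfold Dz
  rw [show 2 * τ * (5 / 2 - 1) = 3 * τ by ring, show (2 : ℝ) * (5 / 2) = 5 by norm_num]
  set c := τ * cosh τ / sinh τ
  set t := cosh (τ / 2) / sinh (τ / 2)
  have e1 : exp (5 * (c - 1)) * exp (-(5 * c)) = exp (-5) := by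
    rw [← Real.exp_add]
    congr 1
    ring
  calc 2 * t * sinh (3 * τ) * exp (-(5 * c)) = 12 * ((t * sinh (3 * τ) / 6) * exp (-(5 * c))) := by
        ring
    _ ≤ 12 * (exp (5 * (c - 1)) * exp (-(5 * c))) := by
        refine mul_le_mul_of_nonneg_left ?_ (by norm_num)
        exact mul_le_mul_of_nonneg_right h (exp_pos _).le
    _ = 12 * exp (-5) := by rw [e1]

/-! ### `2 ≤ ζ ≤ 5/2` -/

theorem dzb_convex : ConvexOn ℝ (Set.Ioi (0 : ℝ)) (fun x => log (sinh x) - log x) := by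
  have hint : interior (Set.Ioi (0 : ℝ)) = Set.Ioi 0 := interior_Ioi
  have hd1 : ∀ x : ℝ, 0 < x →
      HasDerivAt (fun x => log (sinh x) - log x) (cosh x / sinh x - x⁻¹) x := by
    intro x hx
    have hs : 0 < sinh x := Real.sinh_pos_iff.2 hx
    exact ((Real.hasDerivAt_sinh x).log hs.ne').sub (Real.hasDerivAt_log hx.ne')
  have hd2 : ∀ x : ℝ, 0 < x →
      HasDerivAt (fun x => cosh x / sinh x - x⁻¹) (1 / x ^ 2 - 1 / sinh x ^ 2) x := by
    intro x hx
    have hs : 0 < sinh x := Real.sinh_pos_iff.2 hx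
    have h1 := ((Real.hasDerivAt_cosh x).div (Real.hasDerivAt_sinh x) hs.ne').sub
      (hasDerivAt_inv hx.ne')
    refine h1.congr_deriv ?_
    have e1 : cosh x * cosh x = sinh x * sinh x + 1 := by
      have h4 := Real.cosh_sq x
      nlinarith
    rw [e1]
    field_simp
    ring
  refine convexOn_of_hasDerivWithinAt2_nonneg (convex_Ioi 0)
    (f' := fun x => cosh x / sinh x - x⁻¹) (f'' := fun x => 1 / x ^ 2 - 1 / sinh x ^ 2)
    (fun x hx => (hd1 x hx).continuousAt.continuousWithinAt) ?_ ?_ ?_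
  · intro x hx
    rw [hint] at hx ⊢
    exact (hd1 x hx).hasDerivWithinAt
  · intro x hx
    rw [hint] at hx ⊢
    exact (hd2 x hx).hasDerivWithinAt
  · intro x hx
    rw [hint] at hx
    have hx0 : 0 < x := hx
    have h1 : x ≤ sinh x := Real.self_le_sinh_iff.2 hx0.le
    have h2 : 1 / sinh x ^ 2 ≤ 1 / x ^ 2 :=
      one_div_le_one_div_of_le (by positivity) (pow_le_pow_left₀ hx0.le h1 2)
    show 0 ≤ 1 / x ^ 2 - 1 / sinh x ^ 2
    linarith

theorem dzb_mid {τ ζ : ℝ} (hτ : 0 < τ) (h1 : 2 ≤ ζ) (h2 : ζ ≤ 5 / 2) : Dz τ ζ ≤ D1 ζ := by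
  have hsh : 0 < sinh (τ / 2) := Real.sinh_pos_iff.2 (by linarith)
  have hch : 0 < cosh (τ / 2) := Real.cosh_pos _
  have ht0 : 0 < cosh (τ / 2) / sinh (τ / 2) := by positivity
  have hX := dzb_X hτ
  have hP := dzb_P' hτ
  have hE1 := E1_le_one hτ
  unfold E1 at hE1
  set c := τ * cosh τ / sinh τ with hc
  set t := cosh (τ / 2) / sinh (τ / 2) with ht
  -- the parameter
  set θ := 2 * (ζ - 2) with hθ
  have hθ0 : 0 ≤ θ := by rw [hθ]; linarith
  have hθ1 : 0 ≤ 1 - θ := by rw [hθ]; linarith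
  set w := 2 * τ * (ζ - 1) with hw
  have hw0 : 0 < w := by
    have : 0 < ζ - 1 := by linarith
    rw [hw]
    positivity
  have hcv := dzb_convex.2 (x := 2 * τ) (Set.mem_Ioi.2 (by positivity)) (y := 3 * τ)
    (Set.mem_Ioi.2 (by positivity)) hθ1 hθ0 (by ring)
  simp only [smul_eq_mul] at hcv
  have e1 : (1 - θ) * (2 * τ) + θ * (3 * τ) = w := by
    rw [hθ, hw]
    ring
  rw [e1] at hcv
  have hs2 : 0 < sinh (2 * τ) := Real.sinh_pos_iff.2 (by positivity)
  have hs3 : 0 < sinh (3 * τ) := Real.sinh_pos_iff.2 (by positivity)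
  have hsw : 0 < sinh w := Real.sinh_pos_iff.2 hw0
  -- end points
  have hp0 : 0 < τ / 2 * t := by positivity
  have q2 : log (τ / 2 * t) + (log (sinh (2 * τ)) - log (2 * τ)) ≤ 4 * (c - 1) := by
    rw [← Real.log_div hs2.ne' (by positivity), ← Real.log_mul hp0.ne' (by positivity),
      Real.log_le_iff_le_exp (by positivity)]
    have e2 : sinh (2 * τ) / (2 * τ) = sinh τ * cosh τ / τ := by
      rw [Real.sinh_two_mul]
      field_simp
    rw [e2]
    have e3 : τ / 2 * t ≤ exp (2 * (c - 1)) := by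
      have e4 : exp (-(2 * (c - 1))) * exp (2 * (c - 1)) = 1 := by
        rw [← Real.exp_add]
        simp
      calc τ / 2 * t = (τ / 2 * t * exp (-(2 * (c - 1)))) * exp (2 * (c - 1)) := by
            rw [mul_assoc, e4, mul_one]
        _ ≤ 1 * exp (2 * (c - 1)) := mul_le_mul_of_nonneg_right hE1 (exp_pos _).le
        _ = exp (2 * (c - 1)) := one_mul _
    have hS0 : 0 < sinh τ := Real.sinh_pos_iff.2 hτ
    have hC0 : 0 < cosh τ := Real.cosh_pos τ
    calc τ / 2 * t * (sinh τ * cosh τ / τ) ≤ exp (2 * (c - 1)) * exp (2 * (c - 1)) :=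
          mul_le_mul e3 hX (by positivity) (exp_pos _).le
      _ = exp (4 * (c - 1)) := by
          rw [← Real.exp_add]
          congr 1
          ring
  have q3 : log (τ / 2 * t) + (log (sinh (3 * τ)) - log (3 * τ)) ≤ 5 * (c - 1) := by
    rw [← Real.log_div hs3.ne' (by positivity), ← Real.log_mul hp0.ne' (by positivity),
      Real.log_le_iff_le_exp (by positivity)]
    refine (le_of_eq ?_).trans hP
    field_simp
    ring
  have q : log (τ / 2 * t) + (log (sinh w) - log w) ≤ 2 * ζ * (c - 1) := by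
    have h5 := mul_le_mul_of_nonneg_left q2 hθ1
    have h6 := mul_le_mul_of_nonneg_left q3 hθ0
    have e3 : 2 * ζ * (c - 1) = (1 - θ) * (4 * (c - 1)) + θ * (5 * (c - 1)) := by
      rw [hθ]
      ring
    rw [e3]
    linarith
  rw [← Real.log_div hsw.ne' hw0.ne', ← Real.log_mul hp0.ne' (by positivity),
    Real.log_le_iff_le_exp (by positivity)] at q
  unfold Dz D1
  have hz : 0 ≤ 8 * (ζ - 1) := by linarith
  have e4 : exp (2 * ζ * (c - 1)) * exp (-(2 * ζ * c)) = exp (-(2 * ζ)) := by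
    rw [← Real.exp_add]
    congr 1
    ring
  calc 2 * t * sinh w * exp (-(2 * ζ * c))
      = 8 * (ζ - 1) * ((τ / 2 * t * (sinh w / w)) * exp (-(2 * ζ * c))) := by
        rw [hw]
        have : ζ - 1 ≠ 0 := by
          have : 0 < ζ - 1 := by linarith
          exact this.ne'
        field_simp
        ring
    _ ≤ 8 * (ζ - 1) * (exp (2 * ζ * (c - 1)) * exp (-(2 * ζ * c))) := by
        refine mul_le_mul_of_nonneg_left ?_ hz
        exact mul_le_mul_of_nonneg_right q (exp_pos _).le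
    _ = 8 * (ζ - 1) * exp (-(2 * ζ)) := by rw [e4]

theorem Dz_le_bar {τ ζ : ℝ} (hτ : 0 < τ) (hζ : 1 ≤ ζ) : Dz τ ζ ≤ Dbar ζ := by
  unfold Dbar
  split_ifs with h1 h2 h3
  · rcases le_or_gt ζ 2 with h4 | h4
    · refine (Dz_le_low hτ (by linarith) h4).trans ?_
      have hD : 0 ≤ D1 ζ := by
        unfold D1
        have : 0 ≤ ζ - 1 := by linarith
        positivity
      calc E1 τ * D1 ζ ≤ 1 * D1 ζ := mul_le_mul_of_nonneg_right (E1_le_one hτ) hD
        _ = D1 ζ := one_mul _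
    · exact dzb_mid hτ h4.le h1
  · refine (dzb_anti hτ (by norm_num) (not_le.1 h1).le).trans ((dzb_five hτ).trans ?_)
    have h5 : (142.9 : ℝ) ≤ exp 5 := by
      have h6 := dzb_low (x := 5) (M := 142.9) (K := 1) (by norm_num) (by norm_num) (by norm_num)
      linarith
    have h7 : exp 5 * exp (-5) = 1 := by
      rw [← Real.exp_add]
      simp
    have h8 : 0 < exp (-5 : ℝ) := exp_pos _
    nlinarith
  · exact (dzb_anti hτ (by norm_num) (not_le.1 h2).le).trans (dzb_three hτ)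
  · exact (dzb_anti hτ (by norm_num) (not_le.1 h3).le).trans (dzb_four hτ)

end Pool.Agent.H75.LO
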