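import Pool.Agent.H75.LO.Defs

/-!
# LO-FinC: the numerical value

`2π(10/59 + alpha 10 · √59) ≤ 2 · 1.54` (the left side is `2 · 1.539836…`):
`alpha 10 = 2(2π)^{-3/2}Γ(19/2)/9!`, `Γ(19/2) = 34459425√π/512` (`Real.Gamma_nat_add_half` or `Real.Gamma_add_one`),
so `alpha 10 = (34459425/185794560)/(√2 π)` (as `2√π (2π)^{-3/2} = 1/(√2π)`) and
`π · alpha 10 · √59 = (34459425/185794560) · √(59/2) = 1.007363…`, `10π/59 = 0.532473…`.
-/

open MeasureTheory Set
open scoped ENNReal

namespace Pool.Agent.H75.LO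

theorem const_bound :
    2 * Real.pi * (10 / 59 + alpha 10 * Real.sqrt 59) ≤ 2 * (154 / 100) := by
  have hG1 : Real.Gamma (((10 : ℕ) : ℝ) - 1 / 2) = 34459425 / 512 * Real.sqrt Real.pi := by
    have h := Real.Gamma_nat_add_half 9
    have e : (((10 : ℕ) : ℝ) - 1 / 2) = ((9 : ℕ) : ℝ) + 1 / 2 := by norm_num
    rw [e, h]
    have e2 : ((2 * 9 - 1 : ℕ).doubleFactorial : ℝ) = 34459425 := by
      norm_num [Nat.doubleFactorial]
    rw [e2]
    ring
  have hG2 : Real.Gamma ((10 : ℕ) : ℝ) = 362880 := by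
    have h := Real.Gamma_nat_eq_factorial 9
    have e : ((10 : ℕ) : ℝ) = ((9 : ℕ) : ℝ) + 1 := by norm_num
    rw [e, h]
    norm_num [Nat.factorial]
  have hpi : 0 < Real.pi := Real.pi_pos
  have hs : 0 < Real.sqrt Real.pi := Real.sqrt_pos.2 hpi
  have hs2 : 0 < Real.sqrt 2 := Real.sqrt_pos.2 (by norm_num)
  have hP : (2 * Real.pi) ^ (-(3 / 2) : ℝ) =
      1 / (2 * Real.pi * (Real.sqrt 2 * Real.sqrt Real.pi)) := by
    have e1 : (-(3 / 2) : ℝ) = -(1 + 1 / 2) := by norm_num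
    rw [e1, Real.rpow_neg (by positivity), Real.rpow_add (by positivity), Real.rpow_one,
      ← Real.sqrt_eq_rpow, Real.sqrt_mul (by norm_num), one_div]
  have hA : Real.pi * alpha 10 = 34459425 / 185794560 / Real.sqrt 2 := by
    unfold alpha
    rw [hG1, hG2, hP]
    field_simp
    norm_num
  have h59 : Real.sqrt 59 ≤ 54314 / 10000 * Real.sqrt 2 := by
    rw [Real.sqrt_le_left (by positivity), mul_pow, Real.sq_sqrt (by norm_num)]
    norm_num
  have hpi6 := Real.pi_lt_d6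
  have e : 2 * Real.pi * (10 / 59 + alpha 10 * Real.sqrt 59) =
      20 * Real.pi / 59 + 2 * (Real.pi * alpha 10) * Real.sqrt 59 := by ring
  rw [e, hA]
  have h3 : 2 * (34459425 / 185794560 / Real.sqrt 2) * Real.sqrt 59 ≤
      2 * (34459425 / 185794560) * (54314 / 10000) := by
    have : 2 * (34459425 / 185794560 / Real.sqrt 2) * Real.sqrt 59 =
        2 * (34459425 / 185794560) * (Real.sqrt 59 / Real.sqrt 2) := by ring
    rw [this]
    refine mul_le_mul_of_nonneg_left ?_ (by norm_num)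
    rw [div_le_iff₀ hs2]
    exact h59
  have h4 : 20 * Real.pi / 59 ≤ 20 * 3.141593 / 59 := by
    rw [div_le_div_iff_of_pos_right (by norm_num)]
    linarith
  refine (add_le_add h4 h3).trans ?_
  norm_num

end Pool.Agent.H75.LO
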