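import Pool.Agent.H75.LO.FinB
import Pool.Agent.H75.LO.FinC

/-!
# LO-Fin: the inequality for point processes

Monotone convergence with `E_n = {ρ ≤ n}` in `bounded_case` (`ρ < ∞` a.e. if `∫ρ^{4/3} < ∞`; otherwise the right side is `∞`)
and `const_bound`.
-/

open MeasureTheory Set
open scoped ENNReal

namespace Pool.Agent.H75.LO

theorem process_bound {Ω : Type*} [MeasurableSpace Ω]
    (P : Measure Ω) [IsProbabilityMeasure P] {N : ℕ} (X : Fin N → Ω → E3)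
    (hX : ∀ i, Measurable (X i)) {ρ : E3 → ℝ≥0∞} (hρ : Measurable ρ)
    (hd : ∀ f : E3 → ℝ≥0∞, Measurable f → ∑ i, ∫⁻ ω, f (X i ω) ∂P = ∫⁻ x, f x * ρ x) :
    ∫⁻ x, ∫⁻ y, ρ x * ρ y * (ENNReal.ofReal ‖x - y‖)⁻¹
      ≤ ∫⁻ ω, ∑ i, ∑ j ∈ Finset.univ.erase i, (ENNReal.ofReal ‖X i ω - X j ω‖)⁻¹ ∂P
        + ENNReal.ofReal (2 * (154 / 100)) * ∫⁻ x, ρ x ^ (4 / 3 : ℝ) := by
  by_cases htop : ∫⁻ x, ρ x ^ (4 / 3 : ℝ) = ∞
  · rw [htop, ENNReal.mul_top (by norm_num), add_top]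
    exact le_top
  have hρ43 : Measurable fun x => ρ x ^ (4 / 3 : ℝ) := hρ.pow_const _
  have hae : ∀ᵐ x : E3, ρ x < ∞ := by
    filter_upwards [ae_lt_top hρ43 htop] with x hx
    by_contra h
    have h1 : ρ x = ∞ := not_lt_top_iff.mp h
    rw [h1, ENNReal.top_rpow_of_pos (by norm_num)] at hx
    exact lt_irrefl _ hx
  let E : ℕ → Set E3 := fun n => {x | ρ x ≤ ENNReal.ofReal n}
  have hE : ∀ n, MeasurableSet (E n) := fun n => measurableSet_le hρ measurable_const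
  have hmono : Monotone E := fun m n hmn x (hx : ρ x ≤ _) =>
    hx.trans (ENNReal.ofReal_le_ofReal (by exact_mod_cast hmn))
  have hdir : Directed (· ⊆ ·) E := hmono.directed_le
  have hU : ∀ᵐ x : E3, x ∈ ⋃ n, E n := by
    filter_upwards [hae] with x hx
    obtain ⟨n, hn⟩ := ENNReal.exists_nat_gt hx.ne
    refine mem_iUnion.mpr ⟨n, ?_⟩
    show ρ x ≤ ENNReal.ofReal n
    rw [ENNReal.ofReal_natCast]
    exact hn.le
  have hres : (volume : Measure E3).restrict (⋃ n, E n) = volume :=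
    Measure.restrict_eq_self_of_ae_mem hU
  have hF : Measurable fun p : E3 × E3 => ρ p.1 * ρ p.2 * (ENNReal.ofReal ‖p.1 - p.2‖)⁻¹ :=
    ((hρ.comp measurable_fst).mul (hρ.comp measurable_snd)).mul
      ((measurable_fst.sub measurable_snd).norm.ennreal_ofReal.inv)
  have key : ∀ n m : ℕ, ∫⁻ x in E m, ∫⁻ y in E n, ρ x * ρ y * (ENNReal.ofReal ‖x - y‖)⁻¹
      ≤ ∫⁻ ω, ∑ i, ∑ j ∈ Finset.univ.erase i, (ENNReal.ofReal ‖X i ω - X j ω‖)⁻¹ ∂P
        + ENNReal.ofReal (2 * (154 / 100)) * ∫⁻ x, ρ x ^ (4 / 3 : ℝ) := by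
    intro n m
    have h1 : ∫⁻ x in E m, ∫⁻ y in E n, ρ x * ρ y * (ENNReal.ofReal ‖x - y‖)⁻¹
        ≤ ∫⁻ x in E (max n m), ∫⁻ y in E (max n m), ρ x * ρ y * (ENNReal.ofReal ‖x - y‖)⁻¹ :=
      lintegral_mono' (Measure.restrict_mono (hmono (le_max_right n m)) le_rfl)
        fun x => lintegral_mono' (Measure.restrict_mono (hmono (le_max_left n m)) le_rfl)
          fun y => le_rfl
    have hle : ∫⁻ x in E (max n m), ρ x ^ (4 / 3 : ℝ) ≤ ∫⁻ x, ρ x ^ (4 / 3 : ℝ) :=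
      setLIntegral_le_lintegral _ _
    have h2 := bounded_case P X hX hρ hd (hE (max n m)) (B := ((max n m : ℕ) : ℝ))
      (fun x hx => hx) (ne_top_of_le_ne_top htop hle)
    exact h1.trans (h2.trans
      (add_le_add le_rfl (mul_le_mul' (ENNReal.ofReal_le_ofReal const_bound) hle)))
  have h0 : ∫⁻ x, ∫⁻ y, ρ x * ρ y * (ENNReal.ofReal ‖x - y‖)⁻¹
      = ∫⁻ x in ⋃ m, E m, ∫⁻ y in ⋃ n, E n, ρ x * ρ y * (ENNReal.ofReal ‖x - y‖)⁻¹ := by
    rw [hres]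
  rw [h0]
  have h1 : ∀ x, ∫⁻ y in ⋃ n, E n, ρ x * ρ y * (ENNReal.ofReal ‖x - y‖)⁻¹
      = ⨆ n, ∫⁻ y in E n, ρ x * ρ y * (ENNReal.ofReal ‖x - y‖)⁻¹ := fun x =>
    setLIntegral_iUnion_of_directed _ hdir
  simp only [h1]
  rw [lintegral_iSup]
  · refine iSup_le fun n => ?_
    rw [setLIntegral_iUnion_of_directed _ hdir]
    exact iSup_le fun m => key n m
  · intro n
    exact hF.lintegral_prod_right'
  · intro m n hmn x
    exact lintegral_mono' (Measure.restrict_mono (hmono hmn) le_rfl) fun y => le_rfl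

end Pool.Agent.H75.LO
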