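import Mathlib

/-!
# LO-Pr0: the sharp pointwise inequality for `l = 0`

`(A+B)(B³e^{-B} - A³e^{-A}) ≤ 0.0098 A²B²(A-B)` for `0 < B ≤ A` (the true constant is `0.0094198…`, attained
for `A, B → (3+√21)/2`). Write `B = s(1-θ)`, `A = s(1+θ)`, `q = θ²`, `κ = 0.0098`.

**Tangent trick.** `F(s) = (1-θ)³e^{-s(1-θ)} - (1+θ)³e^{-s(1+θ)} ≤ F(c) + F'(c)(s-c)` if `F'(c) ≥ 0`.
For `θ ≤ 7/9` take `c = 3.788 + 1.2 q + 0.85 q²`; then `F(c) ≤ c F'(c)` and `F'(c) ≤ κ(1-θ²)²θ`.
For `A ≥ 8B` the claim is elementary: either the left side is `≤ 0`, or `A > 7`.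
-/

namespace Pool.Agent.H75.LO

open Real

lemma Pr0_lower (u : ℝ) (h0 : 0 ≤ u) (h1 : u < 1) (n : ℕ) :
    ∑ k ∈ Finset.range n, (2 : ℝ) * (1 / (2 * k + 1)) * u ^ (2 * k + 1)
      ≤ log (1 + u) - log (1 - u) := by
  have h := Real.hasSum_log_sub_log_of_abs_lt_one (x := u) (by rw [abs_of_nonneg h0]; exact h1)
  exact sum_le_hasSum _ (fun k _ => by positivity) h

lemma Pr0_upper (u : ℝ) (h0 : 0 ≤ u) (h1 : u ^ 2 ≤ 49 / 81) :
    log (1 + u) - log (1 - u)
      ≤ 2 * (u + u ^ 3 / 3 + u ^ 5 / 5 + u ^ 7 / 7 + 9 / 32 * u ^ 9) := by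
  have hu : u < 1 := by nlinarith
  have h := Real.hasSum_log_sub_log_of_abs_lt_one (x := u) (by rw [abs_of_nonneg h0]; exact hu)
  have h4 := (hasSum_nat_add_iff' 4).mpr h
  have hg : HasSum (fun k : ℕ => (2 : ℝ) / 9 * u ^ 9 * (u ^ 2) ^ k)
      ((2 : ℝ) / 9 * u ^ 9 * (1 - u ^ 2)⁻¹) :=
    (hasSum_geometric_of_lt_one (by positivity) (by nlinarith)).mul_left _
  have hle := hasSum_le (fun k => ?_) h4 hg
  · simp only [Finset.sum_range_succ, Finset.sum_range_zero] at hle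
    norm_num at hle
    have h5 : (1 - u ^ 2)⁻¹ ≤ 81 / 32 := by
      rw [inv_le_comm₀ (by nlinarith) (by norm_num)]
      norm_num
      nlinarith
    have h6 : (2 : ℝ) / 9 * u ^ 9 * (1 - u ^ 2)⁻¹ ≤ 2 / 9 * u ^ 9 * (81 / 32) :=
      mul_le_mul_of_nonneg_left h5 (by positivity)
    linarith
  · push_cast
    have e1 : u ^ (2 * (k + 4) + 1) = u ^ 9 * (u ^ 2) ^ k := by ring
    rw [e1]
    have h7 : (1 : ℝ) / (2 * ((k : ℝ) + 4) + 1) ≤ 1 / 9 := by
      apply one_div_le_one_div_of_le (by norm_num)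
      have : (0 : ℝ) ≤ k := Nat.cast_nonneg k
      linarith
    have h8 : 0 ≤ u ^ 9 * (u ^ 2) ^ k := by positivity
    nlinarith

/-- tangent trick -/
lemma Pr0_tangent (a b x0 y0 d β : ℝ) (hβ : 1 ≤ β) (hb : 0 ≤ b)
    (hN : a * exp (-x0) ≤ β * b * exp (-y0)) :
    a * exp (-(x0 + d)) - b * exp (-(y0 + β * d))
      ≤ a * exp (-x0) - b * exp (-y0) + (β * b * exp (-y0) - a * exp (-x0)) * d := by
  have h1 : 1 + β * (exp (-d) - 1) ≤ exp (-(β * d)) := by
    have h := one_add_mul_self_le_rpow_one_add (s := exp (-d) - 1)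
      (by have := exp_pos (-d); linarith) hβ
    have e : (1 + (exp (-d) - 1)) ^ β = exp (-(β * d)) := by
      rw [add_sub_cancel, ← Real.exp_mul]
      congr 1
      ring
    rw [e] at h
    exact h
  have h2 : 1 - exp (-d) ≤ d := by
    have := add_one_le_exp (-d)
    linarith
  have e1 : exp (-(x0 + d)) = exp (-x0) * exp (-d) := by rw [← exp_add]; congr 1; ring
  have e2 : exp (-(y0 + β * d)) = exp (-y0) * exp (-(β * d)) := by rw [← exp_add]; congr 1; ring
  rw [e1, e2]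
  have hy : 0 ≤ b * exp (-y0) := mul_nonneg hb (exp_pos _).le
  have h3 := mul_le_mul_of_nonneg_left h1 hy
  have h4 := mul_le_mul_of_nonneg_left h2 (sub_nonneg.mpr hN)
  nlinarith

/-- the tangent point as a function of `q = θ²` -/
noncomputable def Pr0c (q : ℝ) : ℝ := 3788 / 1000 + 12 / 10 * q + 85 / 100 * q ^ 2

/-- condition (i) in logarithmic form -/
lemma Pr0_i (t : ℝ) (h0 : 0 < t) (h1 : t ≤ 7 / 9) :
    2 * (Pr0c (t ^ 2) * t) ≤ 3 * (log (1 + t) - log (1 - t))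
      + (log (1 + Pr0c (t ^ 2) + Pr0c (t ^ 2) * t) - log (1 + Pr0c (t ^ 2) - Pr0c (t ^ 2) * t)) := by
  set q := t ^ 2 with hq
  have hq0 : 0 ≤ q := by positivity
  set c := Pr0c q with hc
  have hc0 : 3788 / 1000 ≤ c := by rw [hc, Pr0c]; nlinarith
  have hA := Pr0_lower t h0.le (by linarith) 4
  simp only [Finset.sum_range_succ, Finset.sum_range_zero] at hA
  norm_num at hA
  set w := c / (1 + c) with hw
  have hw1 : w < 1 := by rw [hw, div_lt_one (by linarith)]; linarith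
  have hw0 : 0 ≤ w := by positivity
  have hB := Pr0_lower (w * t) (by positivity) (by nlinarith) 3
  simp only [Finset.sum_range_succ, Finset.sum_range_zero] at hB
  norm_num at hB
  have e1 : 1 + c + c * t = (1 + c) * (1 + w * t) := by rw [hw]; field_simp
  have e2 : 1 + c - c * t = (1 + c) * (1 - w * t) := by rw [hw]; field_simp
  have hwt : w * t < 1 := by nlinarith
  rw [e1, e2, log_mul (by linarith) (by positivity), log_mul (by linarith) (by linarith)]
  -- polynomial inequality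
  have hq1 : q ≤ 49 / 81 := by rw [hq]; nlinarith
  have hq2 := mul_nonneg hq0 hq0
  have hq3 := pow_nonneg hq0 3
  have hwl : 7911 / 10000 + 52 / 1000 * q ≤ w := by
    rw [hw, le_div_iff₀ (by linarith), hc, Pr0c]
    nlinarith [mul_nonneg hq2 (sub_nonneg.mpr hq1)]
  set v := 7911 / 10000 + 52 / 1000 * q with hv
  have hv0 : 0 ≤ v := by positivity
  have h3 : v ^ 3 ≤ w ^ 3 := pow_le_pow_left₀ hv0 hwl 3
  have h5 : v ^ 5 ≤ w ^ 5 := pow_le_pow_left₀ hv0 hwl 5
  have hP : c ≤ 3 * (1 + q / 3 + q ^ 2 / 5 + q ^ 3 / 7) + v + v ^ 3 * q / 3 + v ^ 5 * q ^ 2 / 5 := by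
    rw [hv, hc, Pr0c]
    have a := mul_nonneg hq0 (sq_nonneg (q - 19 / 100))
    have a4 := pow_nonneg hq0 4
    have a5 := pow_nonneg hq0 5
    have a6 := pow_nonneg hq0 6
    have a7 := pow_nonneg hq0 7
    ring_nf at a a4 a5 a6 a7 hq3 hq2 ⊢
    linarith
  have hP2 : c ≤ 3 * (1 + q / 3 + q ^ 2 / 5 + q ^ 3 / 7) + w + w ^ 3 * q / 3 + w ^ 5 * q ^ 2 / 5 := by
    have := mul_le_mul_of_nonneg_right h3 hq0
    have := mul_le_mul_of_nonneg_right h5 (pow_nonneg hq0 2)
    linarith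
  have hP3 := mul_le_mul_of_nonneg_right hP2 h0.le
  have e3 : (3 * (1 + q / 3 + q ^ 2 / 5 + q ^ 3 / 7) + w + w ^ 3 * q / 3 + w ^ 5 * q ^ 2 / 5) * t
    = 3 * (t + t ^ 3 / 3 + t ^ 5 / 5 + t ^ 7 / 7) + (w * t + (w * t) ^ 3 / 3 + (w * t) ^ 5 / 5) := by
    rw [hq]; ring
  rw [e3] at hP3
  linarith

lemma Pr0_e3788 : (44.1 : ℝ) ≤ exp (3788 / 1000) := by
  have h1 : exp (3788 / 1000) = exp 1 ^ 3 * exp (788 / 1000) := by
    rw [← exp_nat_mul, ← exp_add]; norm_num
  have h2 := Real.sum_le_exp_of_nonneg (x := 788 / 1000) (by norm_num) 7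
  simp only [Finset.sum_range_succ, Finset.sum_range_zero] at h2
  norm_num [Nat.factorial] at h2
  have h3 := Real.exp_one_gt_d9
  have h4 : (2.7182818283 : ℝ) ^ 3 ≤ exp 1 ^ 3 := pow_le_pow_left₀ (by norm_num) h3.le 3
  rw [h1]
  calc (44.1 : ℝ) ≤ 2.7182818283 ^ 3 * 2.198 := by norm_num
    _ ≤ exp 1 ^ 3 * exp (788 / 1000) := by
      apply mul_le_mul h4 _ (by norm_num) (by positivity)
      norm_num
      linarith

/-- condition (ii) -/
lemma Pr0_ii (t : ℝ) (h0 : 0 < t) (h1 : t ≤ 7 / 9) :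
    0 ≤ 2 * (log (1 + t) - log (1 - t)) - Pr0c (t ^ 2) * t ∧
    exp (2 * (log (1 + t) - log (1 - t)) - Pr0c (t ^ 2) * t)
      - exp (-(2 * (log (1 + t) - log (1 - t)) - Pr0c (t ^ 2) * t))
      ≤ 98 / 10000 * t * exp (Pr0c (t ^ 2)) := by
  set q := t ^ 2 with hq
  have hq0 : 0 ≤ q := by positivity
  have hq1 : q ≤ 49 / 81 := by rw [hq]; nlinarith
  set L := 2 * (log (1 + t) - log (1 - t)) - Pr0c q * t with hL
  have hA := Pr0_lower t h0.le (by linarith) 3
  simp only [Finset.sum_range_succ, Finset.sum_range_zero] at hA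
  norm_num at hA
  have hU := Pr0_upper t h0.le hq1
  have hq2 := mul_nonneg hq0 hq0
  -- lower bound of `L`
  have hL0 : 0 ≤ L := by
    have : 0 ≤ (212 / 1000 + q / 10) * t := by positivity
    have h5 : (212 / 1000 + q / 10) * t ≤ 4 * (t + t ^ 3 / 3 + t ^ 5 / 5) - Pr0c q * t := by
      have e : 4 * (t + t ^ 3 / 3 + t ^ 5 / 5) - Pr0c q * t
        = (4 * (1 + q / 3 + q ^ 2 / 5) - Pr0c q) * t := by rw [hq]; ring
      rw [e]
      apply mul_le_mul_of_nonneg_right _ h0.le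
      rw [Pr0c]
      nlinarith [mul_nonneg hq0 (sub_nonneg.mpr hq1)]
    rw [hL]
    linarith
  refine ⟨hL0, ?_⟩
  -- upper bound `L ≤ t M`
  set M := 212 / 1000 + 2 / 15 * q - 5 / 100 * q ^ 2 + 4 / 7 * q ^ 3 + 9 / 8 * q ^ 4 with hM
  have hLM : L ≤ t * M := by
    have e : t * M = 4 * (t + t ^ 3 / 3 + t ^ 5 / 5 + t ^ 7 / 7 + 9 / 32 * t ^ 9) - Pr0c q * t := by
      rw [hM, Pr0c, hq]; ring
    rw [e, hL]
    linarith
  have hM1 : M ≤ 552 / 1000 := by
    have h2 : q ^ 2 ≤ 49 / 81 * q := by nlinarith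
    have h3 : q ^ 3 ≤ (49 / 81) ^ 3 := pow_le_pow_left₀ hq0 hq1 3
    have h4 : q ^ 4 ≤ (49 / 81) ^ 4 := pow_le_pow_left₀ hq0 hq1 4
    have h5 : 2 / 15 * q - 5 / 100 * q ^ 2 ≤ 2 / 15 * (49 / 81) - 5 / 100 * (49 / 81) ^ 2 := by
      nlinarith
    rw [hM]
    norm_num at h3 h4 h5 ⊢
    linarith
  have hM0 : 0 ≤ M := by
    have : 0 ≤ t * M := hL0.trans hLM
    exact (mul_nonneg_iff_of_pos_left h0).mp this
  have hL1 : L ≤ 1 := by nlinarith
  -- exponential bounds
  have hb1 := Real.exp_bound (x := L) (by rw [abs_of_nonneg hL0]; exact hL1) (n := 5) (by norm_num)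
  have hb2 := Real.exp_bound (x := -L) (by rw [abs_neg, abs_of_nonneg hL0]; exact hL1) (n := 5)
    (by norm_num)
  rw [abs_neg, abs_of_nonneg hL0] at hb2
  rw [abs_of_nonneg hL0] at hb1
  have hb1' := (abs_le.mp hb1).2
  have hb2' := (abs_le.mp hb2).1
  simp only [Finset.sum_range_succ, Finset.sum_range_zero] at hb1' hb2'
  norm_num [Nat.factorial] at hb1' hb2'
  have hs : exp L - exp (-L) ≤ 2 * L + L ^ 3 / 3 + L ^ 5 / 50 := by
    nlinarith
  have hLt : L ^ 2 ≤ q * M ^ 2 := by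
    have := pow_le_pow_left₀ hL0 hLM 2
    rw [hq]; nlinarith
  have hM2 : M ^ 2 ≤ 305 / 1000 := by nlinarith
  have hL2 : L ^ 2 ≤ 305 / 1000 * q := hLt.trans (by nlinarith)
  have hs2 : 2 * L + L ^ 3 / 3 + L ^ 5 / 50 ≤ t * (M * (2 + 103 / 1000 * q)) := by
    have h1 : 2 + L ^ 2 / 3 + L ^ 4 / 50 ≤ 2 + 103 / 1000 * q := by
      have : L ^ 4 ≤ 305 / 1000 * q * (305 / 1000 * (49 / 81)) := by
        have h4 : L ^ 4 = L ^ 2 * L ^ 2 := by ring
        rw [h4]
        apply mul_le_mul hL2 _ (sq_nonneg _) (by positivity)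
        nlinarith
      nlinarith
    have h2 : 2 * L + L ^ 3 / 3 + L ^ 5 / 50 = L * (2 + L ^ 2 / 3 + L ^ 4 / 50) := by ring
    rw [h2, ← mul_assoc]
    exact mul_le_mul hLM h1 (by positivity) (by positivity)
  -- lower bound of exp c
  have hc : 441 / 10 * (1 + (12 / 10 * q + 85 / 100 * q ^ 2) + (12 / 10 * q + 85 / 100 * q ^ 2) ^ 2 / 2
      + (12 / 10 * q + 85 / 100 * q ^ 2) ^ 3 / 6) ≤ exp (Pr0c q) := by
    have e : exp (Pr0c q) = exp (3788 / 1000) * exp (12 / 10 * q + 85 / 100 * q ^ 2) := by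
      rw [← exp_add, Pr0c]; congr 1; ring
    rw [e]
    have h2 := Real.sum_le_exp_of_nonneg (x := 12 / 10 * q + 85 / 100 * q ^ 2) (by positivity) 4
    simp only [Finset.sum_range_succ, Finset.sum_range_zero] at h2
    norm_num [Nat.factorial] at h2
    apply mul_le_mul _ _ (by positivity) (by positivity)
    · have := Pr0_e3788; norm_num at this; linarith
    · linarith
  have hfin : M * (2 + 103 / 1000 * q) ≤ 98 / 10000 * (441 / 10 * (1 + (12 / 10 * q + 85 / 100 * q ^ 2)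
      + (12 / 10 * q + 85 / 100 * q ^ 2) ^ 2 / 2 + (12 / 10 * q + 85 / 100 * q ^ 2) ^ 3 / 6)) := by
    rw [hM]
    have a1 := mul_nonneg hq0 (sub_nonneg.mpr hq1)
    have a2 := mul_nonneg hq2 (sub_nonneg.mpr hq1)
    have a3 := mul_nonneg (pow_nonneg hq0 3) (sub_nonneg.mpr hq1)
    have a5 := pow_nonneg hq0 5
    have a6 := pow_nonneg hq0 6
    ring_nf at a1 a2 a3 a5 a6 ⊢
    linarith
  calc exp L - exp (-L) ≤ t * (M * (2 + 103 / 1000 * q)) := hs.trans hs2
    _ ≤ t * (98 / 10000 * (441 / 10 * (1 + (12 / 10 * q + 85 / 100 * q ^ 2)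
      + (12 / 10 * q + 85 / 100 * q ^ 2) ^ 2 / 2 + (12 / 10 * q + 85 / 100 * q ^ 2) ^ 3 / 6))) :=
        mul_le_mul_of_nonneg_left hfin h0.le
    _ ≤ t * (98 / 10000 * exp (Pr0c q)) := by
        apply mul_le_mul_of_nonneg_left _ h0.le
        apply mul_le_mul_of_nonneg_left hc (by norm_num)
    _ = 98 / 10000 * t * exp (Pr0c q) := by ring

/-- the case `θ ≤ 7/9` -/
lemma Pr0_case1 (s t : ℝ) (hs : 0 < s) (h0 : 0 < t) (h1 : t ≤ 7 / 9) :
    (1 - t) ^ 3 * exp (-(s * (1 - t))) - (1 + t) ^ 3 * exp (-(s * (1 + t)))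
      ≤ 98 / 10000 * (1 - t ^ 2) ^ 2 * t * s := by
  obtain ⟨hN0, hN1⟩ := Pr0_ii t h0 h1
  have hi := Pr0_i t h0 h1
  set c := Pr0c (t ^ 2) with hc
  have hc0 : 0 < c := by rw [hc, Pr0c]; positivity
  have h1t : 0 < 1 - t := by linarith
  have h2t : 0 < 1 + t := by linarith
  set L := 2 * (log (1 + t) - log (1 - t)) - c * t with hL
  -- `(1+t)^4 exp(-c(1+t)) = (1-t²)² e^{-c} e^L`
  have hE1 : (1 + t) ^ 4 * exp (-(c * (1 + t))) = (1 - t ^ 2) ^ 2 * exp (-c) * exp L := by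
    have e : exp L = (1 + t) ^ 2 * ((1 - t) ^ 2)⁻¹ * exp (-(c * t)) := by
      have : L = 2 * log (1 + t) + (-(2 * log (1 - t))) + (-(c * t)) := by rw [hL]; ring
      rw [this, exp_add, exp_add, exp_neg (2 * log (1 - t))]
      congr 2
      · rw [mul_comm, ← Real.rpow_def_of_pos h2t]; norm_num
      · rw [mul_comm, ← Real.rpow_def_of_pos h1t]; norm_num
    rw [e]
    have e2 : exp (-(c * (1 + t))) = exp (-c) * exp (-(c * t)) := by rw [← exp_add]; congr 1; ring
    rw [e2]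
    have : (1 - t ^ 2) = (1 - t) * (1 + t) := by ring
    rw [this]
    field_simp
  have hE2 : (1 - t) ^ 4 * exp (-(c * (1 - t))) = (1 - t ^ 2) ^ 2 * exp (-c) * exp (-L) := by
    have e : exp (-L) = ((1 + t) ^ 2)⁻¹ * (1 - t) ^ 2 * exp (c * t) := by
      have : -L = -(2 * log (1 + t)) + (2 * log (1 - t)) + (c * t) := by rw [hL]; ring
      rw [this, exp_add, exp_add, exp_neg (2 * log (1 + t))]
      congr 2
      · rw [mul_comm, ← Real.rpow_def_of_pos h2t]; norm_num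
      · rw [mul_comm, ← Real.rpow_def_of_pos h1t]; norm_num
    rw [e]
    have e2 : exp (-(c * (1 - t))) = exp (-c) * exp (c * t) := by rw [← exp_add]; congr 1; ring
    rw [e2]
    have : (1 - t ^ 2) = (1 - t) * (1 + t) := by ring
    rw [this]
    field_simp
  -- derivative at the tangent point
  set D := (1 + t) ^ 4 * exp (-(c * (1 + t))) - (1 - t) ^ 4 * exp (-(c * (1 - t))) with hD
  have hD1 : D ≤ 98 / 10000 * (1 - t ^ 2) ^ 2 * t := by
    rw [hD, hE1, hE2]
    have h2 := mul_le_mul_of_nonneg_left hN1 (show 0 ≤ (1 - t ^ 2) ^ 2 * exp (-c) by positivity)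
    have e : (1 - t ^ 2) ^ 2 * exp (-c) * (98 / 10000 * t * exp c)
      = 98 / 10000 * (1 - t ^ 2) ^ 2 * t := by
      have : exp (-c) * exp c = 1 := by rw [← exp_add]; simp
      calc _ = 98 / 10000 * (1 - t ^ 2) ^ 2 * t * (exp (-c) * exp c) := by ring
        _ = _ := by rw [this, mul_one]
    rw [e] at h2
    linarith
  have hD0 : 0 ≤ D := by
    rw [hD, hE1, hE2, ← mul_sub]
    apply mul_nonneg (by positivity)
    rw [sub_nonneg]
    exact exp_le_exp.mpr (by linarith)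
  -- value at the tangent point
  have hF : (1 - t) ^ 3 * exp (-(c * (1 - t))) - (1 + t) ^ 3 * exp (-(c * (1 + t))) ≤ D * c := by
    have hpos : 0 < 1 + c - c * t := by nlinarith
    have hpos2 : 0 < 1 + c + c * t := by positivity
    have key : (1 - t) ^ 3 * (1 + c - c * t) * exp (c * t)
        ≤ (1 + t) ^ 3 * (1 + c + c * t) * exp (-(c * t)) := by
      have hl : (1 - t) ^ 3 * (1 + c - c * t) * exp (c * t)
          = exp (3 * log (1 - t) + log (1 + c - c * t) + c * t) := by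
        rw [exp_add, exp_add, exp_log hpos]
        congr 2
        rw [mul_comm, ← Real.rpow_def_of_pos h1t]; norm_num
      have hr : (1 + t) ^ 3 * (1 + c + c * t) * exp (-(c * t))
          = exp (3 * log (1 + t) + log (1 + c + c * t) + (-(c * t))) := by
        rw [exp_add, exp_add, exp_log hpos2]
        congr 2
        rw [mul_comm, ← Real.rpow_def_of_pos h2t]; norm_num
      rw [hl, hr]
      apply exp_le_exp.mpr
      linarith
    have e1 : exp (-(c * (1 - t))) = exp (-c) * exp (c * t) := by rw [← exp_add]; congr 1; ring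
    have e2 : exp (-(c * (1 + t))) = exp (-c) * exp (-(c * t)) := by rw [← exp_add]; congr 1; ring
    have key2 := mul_le_mul_of_nonneg_left key (exp_pos (-c)).le
    rw [hD, e1, e2]
    nlinarith
  have ht := Pr0_tangent ((1 - t) ^ 3) ((1 + t) ^ 3) (c * (1 - t)) (c * (1 + t))
    ((s - c) * (1 - t)) ((1 + t) / (1 - t)) (by rw [le_div_iff₀ h1t]; linarith) (by positivity)
    (by
      have : (1 - t) ^ 4 * exp (-(c * (1 - t))) ≤ (1 + t) ^ 4 * exp (-(c * (1 + t))) := by linarith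
      rw [div_mul_eq_mul_div, div_mul_eq_mul_div, le_div_iff₀ h1t]
      nlinarith)
  have e3 : c * (1 - t) + (s - c) * (1 - t) = s * (1 - t) := by ring
  have e4 : c * (1 + t) + (1 + t) / (1 - t) * ((s - c) * (1 - t)) = s * (1 + t) := by
    field_simp; ring
  have e5 : ((1 + t) / (1 - t) * (1 + t) ^ 3 * exp (-(c * (1 + t)))
      - (1 - t) ^ 3 * exp (-(c * (1 - t)))) * ((s - c) * (1 - t)) = D * (s - c) := by
    rw [hD]; field_simp
  rw [e3, e4, e5] at ht
  nlinarith [mul_le_mul_of_nonneg_right hD1 hs.le]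

/-- the case `A ≥ 8 B` -/
lemma Pr0_case2 {A B : ℝ} (hB : 0 < B) (h8 : 8 * B ≤ A) :
    (A + B) * (B ^ 3 * exp (-B) - A ^ 3 * exp (-A)) ≤ 98 / 10000 * (A ^ 2 * B ^ 2 * (A - B)) := by
  have hA : 0 < A := by linarith
  have hR : 0 ≤ 98 / 10000 * (A ^ 2 * B ^ 2 * (A - B)) := by
    have : 0 < A - B := by linarith
    positivity
  rcases le_or_gt (B ^ 3 * exp (-B)) (A ^ 3 * exp (-A)) with h | h
  · have : (A + B) * (B ^ 3 * exp (-B) - A ^ 3 * exp (-A)) ≤ 0 :=
      mul_nonpos_of_nonneg_of_nonpos (by linarith) (by linarith)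
    linarith
  -- `3 log (A/B) < A - B`
  have h3 : 3 * log A - A < 3 * log B - B := by
    have e1 : A ^ 3 * exp (-A) = exp (3 * log A - A) := by
      rw [sub_eq_add_neg, exp_add]; congr 1
      rw [mul_comm, ← Real.rpow_def_of_pos hA]; norm_num
    have e2 : B ^ 3 * exp (-B) = exp (3 * log B - B) := by
      rw [sub_eq_add_neg, exp_add]; congr 1
      rw [mul_comm, ← Real.rpow_def_of_pos hB]; norm_num
    rw [e1, e2] at h
    exact exp_lt_exp.mp h
  set β := A / B with hβ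
  have hβ8 : 8 ≤ β := by rw [hβ, le_div_iff₀ hB]; exact h8
  have hAβ : A = β * B := by rw [hβ]; field_simp
  have hlog : log A - log B = log β := by rw [hβ, log_div hA.ne' hB.ne']
  have hlogβ : 7 - 7 / β ≤ 3 * log β := by
    have e : log β = 3 * log 2 + log (β / 8) := by
      have h88 : log (8 : ℝ) = 3 * log 2 := by
        rw [show (8 : ℝ) = 2 ^ 3 by norm_num, log_pow]; push_cast; ring
      have hb0 : β ≠ 0 := by linarith
      have hd := log_div hb0 (show (8 : ℝ) ≠ 0 by norm_num)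
      rw [hd, h88]; ring
    have h1 := Real.one_sub_inv_le_log_of_pos (show 0 < β / 8 by linarith)
    have h2 := Real.log_two_gt_d9
    rw [inv_div] at h1
    have h4 : 7 / β = 7 * β⁻¹ := rfl
    have h5 : 8 / β = 8 * β⁻¹ := rfl
    have h6 : β⁻¹ ≤ 1 / 8 := by rw [inv_eq_one_div]; exact one_div_le_one_div_of_le (by norm_num) hβ8
    rw [e, h4]
    rw [h5] at h1
    norm_num at h2
    linarith
  have hA7 : 7 < A := by
    have h4 : (7 - 7 / β) < A - B := by linarith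
    have h5 : A - B = A * (1 - 1 / β) := by rw [hAβ]; field_simp
    have h6 : 7 - 7 / β = 7 * (1 - 1 / β) := by ring
    have h7 : 0 < 1 - 1 / β := by
      rw [sub_pos, div_lt_one (by linarith)]; linarith
    rw [h5, h6] at h4
    exact lt_of_mul_lt_mul_right h4 h7.le
  -- main inequality
  set y := 7 / β with hy
  have hy0 : 0 < y := by positivity
  have hy1 : y ≤ 7 / 8 := by rw [hy]; exact div_le_div_of_nonneg_left (by norm_num) (by norm_num) hβ8
  have hyB : y ≤ B := by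
    rw [hy, div_le_iff₀ (by linarith)]
    nlinarith
  have hβy : β = 7 / y := by rw [hy]; field_simp
  have hexp : exp (-y) * (7 + y) * y ≤ 49 * (98 / 10000) * (7 - y) := by
    have h2 := Real.sum_le_exp_of_nonneg (x := y) hy0.le 5
    simp only [Finset.sum_range_succ, Finset.sum_range_zero] at h2
    norm_num [Nat.factorial] at h2
    have h3 : (7 + y) * y ≤ 49 * (98 / 10000) * (7 - y) * exp y := by
      have h4 : (7 + y) * y ≤ 49 * (98 / 10000) * (7 - y)
          * (1 + y + y ^ 2 / 2 + y ^ 3 / 6 + y ^ 4 / 24) := by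
        nlinarith [mul_nonneg hy0.le (sub_nonneg.mpr hy1), pow_nonneg hy0.le 3,
          mul_nonneg (pow_nonneg hy0.le 2) (sub_nonneg.mpr hy1),
          mul_nonneg (pow_nonneg hy0.le 3) (sub_nonneg.mpr hy1),
          mul_nonneg (pow_nonneg hy0.le 4) (sub_nonneg.mpr hy1)]
      refine h4.trans (mul_le_mul_of_nonneg_left (by linarith) ?_)
      nlinarith
    have h5 := mul_le_mul_of_nonneg_left h3 (exp_pos (-y)).le
    have e : exp (-y) * (49 * (98 / 10000) * (7 - y) * exp y) = 49 * (98 / 10000) * (7 - y) := by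
      have : exp (-y) * exp y = 1 := by rw [← exp_add]; simp
      calc _ = 49 * (98 / 10000) * (7 - y) * (exp (-y) * exp y) := by ring
        _ = _ := by rw [this, mul_one]
    rw [e] at h5
    linarith
  -- (A+B) e^{-B} ≤ κ A² (A-B)/B
  have hBy : exp (-B) ≤ exp (-y) := exp_le_exp.mpr (by linarith)
  have hmain : (A + B) * B * exp (-B) ≤ 98 / 10000 * (A ^ 2 * (A - B)) := by
    rw [hAβ, hβy]
    have h1 : exp (-B) * ((7 + y) * y) ≤ 49 * (98 / 10000) * (7 - y) := by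
      have := mul_le_mul_of_nonneg_right hBy (show 0 ≤ (7 + y) * y by positivity)
      linarith
    have e1 : (7 / y * B + B) * B * exp (-B) = (exp (-B) * ((7 + y) * y)) * (B ^ 2 / y ^ 2) := by
      field_simp
    have e2 : 98 / 10000 * ((7 / y * B) ^ 2 * (7 / y * B - B))
        = (49 * (98 / 10000) * (7 - y)) * (B ^ 2 / y ^ 2) * (B / y) := by
      field_simp
      ring
    rw [e1, e2]
    have h2 : 1 ≤ B / y := by rw [le_div_iff₀ hy0]; linarith
    have h3 := mul_le_mul_of_nonneg_right h1 (show 0 ≤ B ^ 2 / y ^ 2 by positivity)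
    have h4 : 0 ≤ (49 * (98 / 10000) * (7 - y)) * (B ^ 2 / y ^ 2) := by
      apply mul_nonneg _ (by positivity)
      nlinarith
    nlinarith
  have h9 := mul_le_mul_of_nonneg_left hmain (show 0 ≤ B ^ 2 by positivity)
  have h10 : 0 ≤ (A + B) * (A ^ 3 * exp (-A)) := by positivity
  nlinarith

theorem pr0 {A B : ℝ} (hB : 0 < B) (hAB : B ≤ A) :
    (A + B) * (B ^ 3 * exp (-B) - A ^ 3 * exp (-A)) ≤ 98 / 10000 * (A ^ 2 * B ^ 2 * (A - B)) := by
  rcases eq_or_lt_of_le hAB with h | h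
  · rw [← h]; simp
  rcases le_or_gt (8 * B) A with h8 | h8
  · exact Pr0_case2 hB h8
  set s := (A + B) / 2 with hs
  set t := (A - B) / (A + B) with ht
  have hs0 : 0 < s := by rw [hs]; linarith
  have ht0 : 0 < t := div_pos (by linarith) (by linarith)
  have ht1 : t ≤ 7 / 9 := by rw [ht, div_le_iff₀ (by linarith)]; linarith
  have hAB0 : A + B ≠ 0 := by linarith
  have et : s * t = (A - B) / 2 := by rw [hs, ht]; field_simp
  have eB : s * (1 - t) = B := by rw [mul_sub, et, hs]; ring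
  have eA : s * (1 + t) = A := by rw [mul_add, et, hs]; ring
  have hc := Pr0_case1 s t hs0 ht0 ht1
  rw [eB, eA] at hc
  have h2 := mul_le_mul_of_nonneg_left hc (show 0 ≤ 2 * s ^ 4 by positivity)
  have e1 : (A + B) * (B ^ 3 * exp (-B) - A ^ 3 * exp (-A))
      = 2 * s ^ 4 * ((1 - t) ^ 3 * exp (-B) - (1 + t) ^ 3 * exp (-A)) := by
    have : A + B = 2 * s := by rw [hs]; ring
    rw [this]
    have b3 : B ^ 3 = s ^ 3 * (1 - t) ^ 3 := by rw [← eB]; ring
    have a3 : A ^ 3 = s ^ 3 * (1 + t) ^ 3 := by rw [← eA]; ring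
    rw [b3, a3]
    ring
  have e2 : 98 / 10000 * (A ^ 2 * B ^ 2 * (A - B))
      = 2 * s ^ 4 * (98 / 10000 * (1 - t ^ 2) ^ 2 * t * s) := by
    rw [← eB, ← eA]; ring
  rw [e1, e2]
  exact h2

end Pool.Agent.H75.LO
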