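import Mathlib

/-!
# LO-Pr1: pointwise inequality for `l = 1`

`A = βx`, `B = x`, `β ≥ 1`, `L := ln β/(β-1) ≥ 2/(β+1)`. The claim is equivalent to
`(β+1)(e^{-x} - β⁴e^{-βx}) ≤ κ β²(β-1)`, `κ = 0.0196`. The maximum over `x` of `e^{-x} - β⁴e^{-βx}` is at `x* = 5L`
(`e^{-(β-1)x*} = β^{-5}`), value `e^{-5L}(1-1/β)` (to get the bound at all `x` without calculus: `z = e^{-(x-x*)}`,
`z^β ≥ 1+β(z-1)`). So it is enough that `(β+1) e^{-10/(β+1)} ≤ κ β³`; with `s = 10/(β+1) ∈ (0,5]`: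
`10 s² e^{-s} ≤ κ (10-s)³` (`s=5`: `1.6845 ≤ 2.45`).
(The true supremum is `0.01348` against `0.0196`.)
-/

namespace Pool.Agent.H75.LO

open Real

theorem pr1_core {b : ℝ} (h : 1 ≤ b) :
    b + 1 ≤ 196 / 10000 * b ^ 3 * exp (10 / (b + 1)) := by
  obtain ⟨w, rfl⟩ : ∃ w, b = 1 + w := ⟨b - 1, by ring⟩
  have hw : 0 ≤ w := by linarith
  have h1 : 0 ≤ 10 / (1 + w + 1) := by positivity
  have h2 := Real.sum_le_exp_of_nonneg h1 7
  have h3 : (1 + w + 1) ≤ 196 / 10000 * (1 + w) ^ 3 *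
      ∑ i ∈ Finset.range 7, (10 / (1 + w + 1)) ^ i / (Nat.factorial i : ℝ) := by
    rw [← sub_nonneg]
    have h4 : 196 / 10000 * (1 + w) ^ 3 *
        ∑ i ∈ Finset.range 7, (10 / (1 + w + 1)) ^ i / (Nat.factorial i : ℝ) - (1 + w + 1) =
        (78161 / 5625 * w ^ 0 + 218792 / 1875 * w ^ 1 + 908873 / 3750 * w ^ 2 +
         530999 / 2250 * w ^ 3 + 90237 / 625 * w ^ 4 + 250117 / 3750 * w ^ 5 +
         163079 / 7500 * w ^ 6 + 11171 / 2500 * w ^ 7 + 49 / 100 * w ^ 8 + 49 / 2500 * w ^ 9) / (1 + w + 1) ^ 6 := by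
      simp only [Finset.sum_range_succ, Finset.sum_range_zero, Nat.factorial]
      push_cast
      field_simp
      ring
    rw [h4]
    positivity
  exact h3.trans (mul_le_mul_of_nonneg_left h2 (by positivity))

theorem pr1 {A B : ℝ} (hB : 0 < B) (hAB : B ≤ A) :
    (A + B) * (B ^ 4 * exp (-B) - A ^ 4 * exp (-A))
      ≤ 196 / 10000 * (A ^ 2 * B ^ 2 * (A - B)) := by
  rcases hAB.eq_or_lt with h | h
  · rw [← h]
    simp
  obtain ⟨b, rfl⟩ : ∃ b, A = b * B := ⟨A / B, by field_simp⟩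
  have hb : 1 < b := by
    by_contra h1
    have : b * B ≤ 1 * B := mul_le_mul_of_nonneg_right (not_lt.1 h1) hB.le
    linarith
  have hb0 : 0 < b := by linarith
  have hb1 : 0 < b - 1 := by linarith
  -- the point of maximum
  set x : ℝ := 5 * (log b / (b - 1)) with hx
  have hbx : (b - 1) * x = 5 * log b := by
    rw [hx]
    field_simp
  have hxs : 10 / (b + 1) ≤ x := by
    have h1 := Real.le_log_one_add_of_nonneg hb1.le
    rw [show 1 + (b - 1) = b by ring, show b - 1 + 2 = b + 1 by ring] at h1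
    rw [hx, div_le_iff₀ (by linarith)]
    rw [div_le_iff₀ (by linarith)] at h1
    have h2 : 5 * (log b / (b - 1)) * (b + 1) = 5 * (log b * (b + 1)) / (b - 1) := by
      field_simp
    rw [h2, le_div_iff₀ hb1]
    linarith
  have hexp : exp (-(b * x)) = exp (-x) * (b ^ 5)⁻¹ := by
    have h1 : (b ^ 5)⁻¹ = exp (-(5 * log b)) := by
      rw [exp_neg, show (5 : ℝ) * log b = ((5 : ℕ) : ℝ) * log b by norm_num, Real.exp_nat_mul,
        exp_log hb0]
    rw [h1, ← hbx, ← exp_add]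
    congr 1
    ring
  -- tangent inequality
  set z : ℝ := exp (-(B - x)) with hz
  have hz0 : 0 < z := exp_pos _
  have e1 : exp (-B) = exp (-x) * z := by
    rw [hz, ← exp_add]
    congr 1
    ring
  have e2 : exp (-(b * B)) = exp (-(b * x)) * z ^ b := by
    rw [hz, ← exp_mul, ← exp_add]
    congr 1
    ring
  have e3 : 1 + b * (z - 1) ≤ z ^ b := by
    have := one_add_mul_self_le_rpow_one_add (s := z - 1) (by linarith) hb.le
    simpa using this
  have hf : exp (-B) - b ^ 4 * exp (-(b * B)) ≤ exp (-x) * (1 - b⁻¹) := by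
    rw [e1, e2, hexp]
    have h1 : b ^ 4 * (exp (-x) * (b ^ 5)⁻¹ * z ^ b) = exp (-x) * (b⁻¹ * z ^ b) := by
      field_simp
    rw [h1, ← mul_sub]
    refine mul_le_mul_of_nonneg_left ?_ (exp_pos _).le
    have h2 : b⁻¹ * (1 + b * (z - 1)) ≤ b⁻¹ * z ^ b :=
      mul_le_mul_of_nonneg_left e3 (by positivity)
    have h3 : b⁻¹ * (1 + b * (z - 1)) = b⁻¹ + z - 1 := by
      field_simp
      ring
    linarith
  have hcore : (b + 1) * exp (-x) ≤ 196 / 10000 * b ^ 3 := by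
    have h1 := pr1_core hb.le
    have h2 : exp (10 / (b + 1)) ≤ exp x := exp_le_exp.2 hxs
    have h3 : b + 1 ≤ 196 / 10000 * b ^ 3 * exp x :=
      h1.trans (mul_le_mul_of_nonneg_left h2 (by positivity))
    have h4 := mul_le_mul_of_nonneg_right h3 (exp_pos (-x)).le
    have h5 : exp x * exp (-x) = 1 := by rw [← exp_add]; simp
    calc (b + 1) * exp (-x) ≤ 196 / 10000 * b ^ 3 * exp x * exp (-x) := h4
      _ = 196 / 10000 * b ^ 3 * (exp x * exp (-x)) := by ring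
      _ = _ := by rw [h5, mul_one]
  calc (b * B + B) * (B ^ 4 * exp (-B) - (b * B) ^ 4 * exp (-(b * B)))
      = (b + 1) * B ^ 5 * (exp (-B) - b ^ 4 * exp (-(b * B))) := by ring
    _ ≤ (b + 1) * B ^ 5 * (exp (-x) * (1 - b⁻¹)) :=
        mul_le_mul_of_nonneg_left hf (by positivity)
    _ = (b + 1) * exp (-x) * (B ^ 5 * (1 - b⁻¹)) := by ring
    _ ≤ 196 / 10000 * b ^ 3 * (B ^ 5 * (1 - b⁻¹)) := by
        refine mul_le_mul_of_nonneg_right hcore ?_
        have : b⁻¹ ≤ 1 := inv_le_one_of_one_le₀ hb.le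
        have : 0 ≤ 1 - b⁻¹ := by linarith
        positivity
    _ = _ := by
        field_simp

end Pool.Agent.H75.LO
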