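import Mathlib

/-!
# LO-Pr2: pointwise inequality for `l = 2`

`A = βx`, `B = x`, `β ≥ 1`, `L := ln β/(β-1) ≥ 2/(β+1)`, `f(x) = (1+x)e^{-x} - β⁴(1+βx)e^{-βx}`, `κ = 0.0784`; the claim is
`(β+1) f(x) ≤ κβ²(β-1)`. `f'(x) = -x e^{-x} + β⁶ x e^{-βx}`, maximum at `x* = 6L`, value
`e^{-x*}[(1-β^{-2}) + x*(1-1/β)]`. Enough: `(β+1) e^{-x*}[(β+1) + β x*] ≤ κ β⁴` with `x* = 6L`
(`(1+x)e^{-x}` and `x e^{-x}` are decreasing for `x ≥ 1`; use `x* ≥ 12/(β+1)` when this is `≥ 1`, etc.).
`β → 1`: `0.0397 ≤ 0.0784` (the true supremum is `0.03967` against `0.0784`).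
-/

namespace Pool.Agent.H75.LO

open Real

theorem Pr2_poly {t : ℝ} (ht : 0 ≤ t) :
    ((1 + t) ^ 2 + 14 * (1 + t) + 1) * exp (-(12 / (t + 2))) ≤ 784 / 10000 * (1 + t) ^ 4 := by
  have h2 : 0 < t + 2 := by linarith
  have hs : 0 ≤ 12 / (t + 2) := by positivity
  have hexp := Real.sum_le_exp_of_nonneg hs 7
  have hP : ∑ i ∈ Finset.range 7, (12 / (t + 2)) ^ i / (i.factorial : ℝ) =
      (t ^ 6 + 24 * t ^ 5 + 252 * t ^ 4 + 1504 * t ^ 3 + 5520 * t ^ 2 + 62208 / 5 * t
        + 78272 / 5) / (t + 2) ^ 6 := by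
    simp only [Finset.sum_range_succ, Finset.sum_range_zero, Nat.factorial]
    push_cast
    field_simp
    ring
  rw [hP] at hexp
  rw [exp_neg, ← div_eq_mul_inv, div_le_iff₀ (exp_pos _)]
  refine le_trans ?_ (mul_le_mul_of_nonneg_left hexp (by positivity))
  rw [← mul_div_assoc, le_div_iff₀ (by positivity)]
  have hd : 0 ≤ 635328 / 3125 + 5589504 / 3125 * t + 14757136 / 3125 * t ^ 2 +
      18808544 / 3125 * t ^ 3 + 13928156 / 3125 * t ^ 4 + 6821512 / 3125 * t ^ 5 +
      95321 / 125 * t ^ 6 + 22568 / 125 * t ^ 7 + 16721 / 625 * t ^ 8 + 1372 / 625 * t ^ 9 +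
      49 / 625 * t ^ 10 := by positivity
  have e : 784 / 10000 * (1 + t) ^ 4 * (t ^ 6 + 24 * t ^ 5 + 252 * t ^ 4 + 1504 * t ^ 3 +
        5520 * t ^ 2 + 62208 / 5 * t + 78272 / 5) -
      ((1 + t) ^ 2 + 14 * (1 + t) + 1) * (t + 2) ^ 6 =
      635328 / 3125 + 5589504 / 3125 * t + 14757136 / 3125 * t ^ 2 +
      18808544 / 3125 * t ^ 3 + 13928156 / 3125 * t ^ 4 + 6821512 / 3125 * t ^ 5 +
      95321 / 125 * t ^ 6 + 22568 / 125 * t ^ 7 + 16721 / 625 * t ^ 8 + 1372 / 625 * t ^ 9 +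
      49 / 625 * t ^ 10 := by ring
  linarith

theorem Pr2_deriv (b x : ℝ) :
    HasDerivAt (fun x : ℝ => (1 + x) * exp (-x) - b ^ 4 * ((1 + b * x) * exp (-(b * x))))
      (x * (b ^ 6 * exp (-(b * x)) - exp (-x))) x := by
  have h1 : HasDerivAt (fun x : ℝ => exp (-x)) (exp (-x) * (-1)) x := (hasDerivAt_neg x).exp
  have h2 : HasDerivAt (fun x : ℝ => 1 + x) 1 x := (hasDerivAt_id x).const_add 1
  have h3 : HasDerivAt (fun x : ℝ => b * x) b x := by
    simpa using (hasDerivAt_id x).const_mul b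
  have h4 : HasDerivAt (fun x : ℝ => exp (-(b * x))) (exp (-(b * x)) * (-b)) x := h3.neg.exp
  have h5 : HasDerivAt (fun x : ℝ => 1 + b * x) b x := h3.const_add 1
  have h6 := (h2.mul h1).sub ((h5.mul h4).const_mul (b ^ 4))
  refine h6.congr_deriv ?_
  ring

theorem Pr2_max {b : ℝ} (hb : 1 < b) {x : ℝ} (hx : 0 < x) :
    (1 + x) * exp (-x) - b ^ 4 * ((1 + b * x) * exp (-(b * x))) ≤
      (1 + 6 * log b / (b - 1)) * exp (-(6 * log b / (b - 1))) -
        b ^ 4 * ((1 + b * (6 * log b / (b - 1))) * exp (-(b * (6 * log b / (b - 1))))) := by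
  have hb1 : 0 < b - 1 := by linarith
  have hb0 : 0 < b := by linarith
  have hlog : 0 < log b := log_pos hb
  set X := 6 * log b / (b - 1) with hX
  have hX0 : 0 < X := by positivity
  have hXe : (b - 1) * X = 6 * log b := by rw [hX]; field_simp
  set f : ℝ → ℝ := fun x => (1 + x) * exp (-x) - b ^ 4 * ((1 + b * x) * exp (-(b * x))) with hf
  have hd : ∀ y, HasDerivAt f (y * (b ^ 6 * exp (-(b * y)) - exp (-y))) y := fun y => Pr2_deriv b y
  have hcont : Continuous f := by
    rw [hf]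
    fun_prop
  have hpow : b ^ 6 = exp (6 * log b) := by
    rw [show (6 : ℝ) * log b = ((6 : ℕ) : ℝ) * log b by norm_num, ← log_pow, exp_log (by positivity)]
  have hkey : ∀ y, b ^ 6 * exp (-(b * y)) = exp (-y) * exp (6 * log b - (b - 1) * y) := by
    intro y
    rw [hpow, ← exp_add, ← exp_add]
    congr 1
    ring
  show f x ≤ f X
  rcases le_total x X with h | h
  · have hmono : MonotoneOn f (Set.Icc 0 X) := by
      refine monotoneOn_of_deriv_nonneg (convex_Icc _ _) hcont.continuousOn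
        (fun y _ => (hd y).differentiableAt.differentiableWithinAt) ?_
      intro y hy
      rw [interior_Icc] at hy
      rw [(hd y).deriv, hkey]
      have h1 : (b - 1) * y ≤ (b - 1) * X := mul_le_mul_of_nonneg_left hy.2.le hb1.le
      have h2 : 1 ≤ exp (6 * log b - (b - 1) * y) := one_le_exp (by linarith)
      have h3 := exp_pos (-y)
      have h4 : 0 ≤ exp (-y) * exp (6 * log b - (b - 1) * y) - exp (-y) := by nlinarith
      exact mul_nonneg hy.1.le h4
    exact hmono ⟨hx.le, h⟩ ⟨hX0.le, le_refl _⟩ h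
  · have hanti : AntitoneOn f (Set.Ici X) := by
      refine antitoneOn_of_deriv_nonpos (convex_Ici _) hcont.continuousOn
        (fun y _ => (hd y).differentiableAt.differentiableWithinAt) ?_
      intro y hy
      rw [interior_Ici] at hy
      have hy' : X < y := hy
      rw [(hd y).deriv, hkey]
      have h1 : (b - 1) * X ≤ (b - 1) * y := mul_le_mul_of_nonneg_left hy'.le hb1.le
      have h2 : exp (6 * log b - (b - 1) * y) ≤ 1 := exp_le_one_iff.2 (by linarith)
      have h3 := exp_pos (-y)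
      have h4 : exp (-y) * exp (6 * log b - (b - 1) * y) - exp (-y) ≤ 0 := by nlinarith
      exact mul_nonpos_of_nonneg_of_nonpos (hX0.trans hy').le h4
    exact hanti (Set.mem_Ici.2 (le_refl X)) h h

theorem Pr2_main {b : ℝ} (hb : 1 < b) {x : ℝ} (hx : 0 < x) :
    (b + 1) * ((1 + x) * exp (-x) - b ^ 4 * ((1 + b * x) * exp (-(b * x)))) ≤
      784 / 10000 * (b ^ 2 * (b - 1)) := by
  have hb1 : 0 < b - 1 := by linarith
  have hb0 : 0 < b := by linarith
  have hlog : 0 < log b := log_pos hb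
  have hmax := Pr2_max hb hx
  set X := 6 * log b / (b - 1) with hX
  have hX0 : 0 < X := by positivity
  have hXe : (b - 1) * X = 6 * log b := by rw [hX]; field_simp
  have hpow : exp (-(6 * log b)) * b ^ 6 = 1 := by
    rw [show (6 : ℝ) * log b = ((6 : ℕ) : ℝ) * log b by norm_num, ← log_pow, exp_neg,
      exp_log (by positivity)]
    field_simp
  have hE : exp (-(b * X)) = exp (-X) * exp (-(6 * log b)) := by
    rw [← exp_add, ← hXe]
    congr 1
    ring
  -- the maximal value times b^2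
  have hval : b ^ 2 * ((1 + X) * exp (-X) - b ^ 4 * ((1 + b * X) * exp (-(b * X)))) =
      exp (-X) * (b - 1) * ((b + 1) + b * X) := by
    rw [hE]
    have : b ^ 2 * ((1 + X) * exp (-X) - b ^ 4 * ((1 + b * X) * (exp (-X) * exp (-(6 * log b))))) =
        b ^ 2 * (1 + X) * exp (-X) - (1 + b * X) * exp (-X) * (exp (-(6 * log b)) * b ^ 6) := by
      ring
    rw [this, hpow]
    ring
  -- the lower bound for X
  have hy : 12 / (b + 1) ≤ X := by
    have h := Real.le_log_one_add_of_nonneg hb1.le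
    have e1 : b - 1 + 2 = b + 1 := by ring
    have e2 : 1 + (b - 1) = b := by ring
    rw [e1, e2] at h
    rw [hX, div_le_div_iff₀ (by linarith) hb1]
    rw [div_le_iff₀ (by linarith)] at h
    linarith
  set y := 12 / (b + 1) with hydef
  have hy0 : 0 < y := by positivity
  have hmonoX : exp (-X) * ((b + 1) + b * X) ≤ exp (-y) * ((b + 1) + b * y) := by
    have h1 : exp (-y) = exp (-X) * exp (X - y) := by
      rw [← exp_add]; congr 1; ring
    have h2 : X - y + 1 ≤ exp (X - y) := add_one_le_exp _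
    have h3 : (b + 1) + b * X ≤ exp (X - y) * ((b + 1) + b * y) := by
      have h4 : (X - y + 1) * ((b + 1) + b * y) ≤ exp (X - y) * ((b + 1) + b * y) :=
        mul_le_mul_of_nonneg_right h2 (by positivity)
      have h5 : (b + 1) + b * X ≤ (X - y + 1) * ((b + 1) + b * y) := by
        have h6 : 0 ≤ (X - y) * (1 + b * y) := mul_nonneg (by linarith) (by positivity)
        nlinarith
      exact h5.trans h4
    rw [h1, mul_assoc]
    exact mul_le_mul_of_nonneg_left h3 (exp_pos _).le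
  have hpoly := Pr2_poly (t := b - 1) hb1.le
  have e3 : b - 1 + 2 = b + 1 := by ring
  have e4 : 1 + (b - 1) = b := by ring
  rw [e3, e4, ← hydef] at hpoly
  have hby : (b + 1) * (b * y) = 12 * b := by rw [hydef]; field_simp
  have h7 : (b + 1) * (exp (-y) * ((b + 1) + b * y)) ≤ 784 / 10000 * b ^ 4 := by
    have : (b + 1) * (exp (-y) * ((b + 1) + b * y)) =
        ((b + 1) ^ 2 + (b + 1) * (b * y)) * exp (-y) := by ring
    rw [this, hby]
    have e5 : (b + 1) ^ 2 + 12 * b = b ^ 2 + 14 * b + 1 := by ring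
    rw [e5]
    exact hpoly
  set W := (1 + X) * exp (-X) - b ^ 4 * ((1 + b * X) * exp (-(b * X))) with hW
  have h8 : (b + 1) * (b ^ 2 * W) ≤ 784 / 10000 * b ^ 4 * (b - 1) := by
    rw [hval]
    calc (b + 1) * (exp (-X) * (b - 1) * ((b + 1) + b * X))
        = (b + 1) * (b - 1) * (exp (-X) * ((b + 1) + b * X)) := by ring
      _ ≤ (b + 1) * (b - 1) * (exp (-y) * ((b + 1) + b * y)) :=
          mul_le_mul_of_nonneg_left hmonoX (by positivity)
      _ = (b + 1) * (exp (-y) * ((b + 1) + b * y)) * (b - 1) := by ring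
      _ ≤ 784 / 10000 * b ^ 4 * (b - 1) := mul_le_mul_of_nonneg_right h7 hb1.le
  have h9 : (b + 1) * W ≤ 784 / 10000 * (b ^ 2 * (b - 1)) := by
    have hb2 : 0 < b ^ 2 := by positivity
    refine le_of_mul_le_mul_left ?_ hb2
    calc b ^ 2 * ((b + 1) * W) = (b + 1) * (b ^ 2 * W) := by ring
      _ ≤ 784 / 10000 * b ^ 4 * (b - 1) := h8
      _ = b ^ 2 * (784 / 10000 * (b ^ 2 * (b - 1))) := by ring
  exact (mul_le_mul_of_nonneg_left hmax (by linarith)).trans h9

theorem pr2 {A B : ℝ} (hB : 0 < B) (hAB : B ≤ A) :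
    (A + B) * (B ^ 4 * (1 + B) * exp (-B) - A ^ 4 * (1 + A) * exp (-A))
      ≤ 784 / 10000 * (A ^ 2 * B ^ 2 * (A - B)) := by
  rcases hAB.eq_or_lt with rfl | h
  · simp
  · obtain ⟨b, hb⟩ : ∃ b, A = b * B := ⟨A / B, by field_simp⟩
    have hb1 : 1 < b := by
      rw [hb] at h
      by_contra hcon
      push Not at hcon
      have := mul_le_mul_of_nonneg_right hcon hB.le
      linarith
    subst hb
    have hm := Pr2_main hb1 hB
    have hB5 : 0 < B ^ 5 := by positivity
    have h2 := mul_le_mul_of_nonneg_left hm hB5.le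
    calc (b * B + B) * (B ^ 4 * (1 + B) * exp (-B) - (b * B) ^ 4 * (1 + b * B) * exp (-(b * B)))
        = B ^ 5 * ((b + 1) * ((1 + B) * exp (-B) - b ^ 4 * ((1 + b * B) * exp (-(b * B))))) := by
          ring
      _ ≤ B ^ 5 * (784 / 10000 * (b ^ 2 * (b - 1))) := h2
      _ = 784 / 10000 * ((b * B) ^ 2 * B ^ 2 * (b * B - B)) := by ring

end Pool.Agent.H75.LO
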