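import Mathlib

/-!
# LO-Pr3: pointwise inequality for `l = 3` 

`A = βx`, `B = x`: `f(x) = (x²+3x+3)e^{-x} - β⁴(β²x²+3βx+3)e^{-βx}`, `κ = 0.4704`,
`f'(x) = -x[(x+1)e^{-x} - β⁶(βx+1)e^{-βx}]`; at the maximum point `x = x_m` one has
`e^{-βx} = (1+x)e^{-x}/(β⁶(1+βx))`, hence `e^{(β-1)x} = β⁶(1+βx)/(1+x) ≥ β⁶`,
`x_m ≥ 6 ln β/(β-1) ≥ 12/(β+1)`, and the value is
`e^{-x}[(x²+3x+3) - (β²x²+3βx+3)(1+x)/(β²(1+βx))] ≤ (β-1) e^{-x} {(1+x)(xβ+2(β+1)) + β²+β+1}/β²`
(since `β²x²+3βx+3 = (1+βx)(βx+2)+1`, `x²+3x+3 = (1+x)(x+2)+1`).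
Enough: `(β+1)e^{-x}{(1+x)(xβ+2β+2)+β²+β+1} ≤ κ β⁴` for all `x ≥ 12/(β+1)` (`β → 1`, `x=6`: `0.362 ≤ 0.4704`).
To avoid the maximum point: `f(x) → 0` at infinity, `f(0) < 0`; or show directly that `f(x) ≤` bound separately
where `(x+1)e^{-x} ≤ β⁶(βx+1)e^{-βx}` (f increasing there) and beyond.
Any other proof is fine (the true supremum is `0.1833` against `0.4704`, so there is a lot of room).
-/

namespace Pool.Agent.H75.LO

open Real

theorem pr3_core {b : ℝ} (h : 1 ≤ b) (h' : b ≤ 7 / 2) :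
    (b + 1) * (36 / ((b + 1) * b) + 3 * (b + 1) / b ^ 2 +
        12 / (b + 13) * ((144 + 36 * (b + 1) + 3 * (b + 1) ^ 2) / (b + 1) ^ 2))
      ≤ 4704 / 10000 * b ^ 2 * exp (12 / (b + 1)) := by
  obtain ⟨w, rfl⟩ : ∃ w, b = 1 + w := ⟨b - 1, by ring⟩
  have hw : 0 ≤ w := by linarith
  have hw' : 0 ≤ 5 / 2 - w := by linarith
  have h1 : 0 ≤ 12 / (1 + w + 1) := by positivity
  have h2 := Real.sum_le_exp_of_nonneg h1 9
  have h3 : (1 + w + 1) * (36 / ((1 + w + 1) * (1 + w)) + 3 * (1 + w + 1) / (1 + w) ^ 2 +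
        12 / (1 + w + 13) * ((144 + 36 * (1 + w + 1) + 3 * (1 + w + 1) ^ 2) / (1 + w + 1) ^ 2)) ≤
      4704 / 10000 * (1 + w) ^ 2 *
      ∑ i ∈ Finset.range 9, (12 / (1 + w + 1)) ^ i / (Nat.factorial i : ℝ) := by
    rw [← sub_nonneg]
    have h4 : 4704 / 10000 * (1 + w) ^ 2 *
        ∑ i ∈ Finset.range 9, (12 / (1 + w + 1)) ^ i / (Nat.factorial i : ℝ) -
        (1 + w + 1) * (36 / ((1 + w + 1) * (1 + w)) + 3 * (1 + w + 1) / (1 + w) ^ 2 +
        12 / (1 + w + 13) * ((144 + 36 * (1 + w + 1) + 3 * (1 + w + 1) ^ 2) / (1 + w + 1) ^ 2)) =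
        (1382534873088 / 3814697265625 * (w ^ 0 * (5 / 2 - w) ^ 13) +
         34661449334784 / 3814697265625 * (w ^ 1 * (5 / 2 - w) ^ 12) +
         370083882860544 / 3814697265625 * (w ^ 2 * (5 / 2 - w) ^ 11) +
         2213392805265408 / 3814697265625 * (w ^ 3 * (5 / 2 - w) ^ 10) +
         1628365748895744 / 762939453125 * (w ^ 4 * (5 / 2 - w) ^ 9) +
         18834668141101056 / 3814697265625 * (w ^ 5 * (5 / 2 - w) ^ 8) +
         26347571198373888 / 3814697265625 * (w ^ 6 * (5 / 2 - w) ^ 7) +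
         19270682566714368 / 3814697265625 * (w ^ 7 * (5 / 2 - w) ^ 6) +
         6303923518571136 / 3814697265625 * (w ^ 8 * (5 / 2 - w) ^ 5) +
         3051437105350944 / 762939453125 * (w ^ 9 * (5 / 2 - w) ^ 4) +
         44761073611513968 / 3814697265625 * (w ^ 10 * (5 / 2 - w) ^ 3) +
         54565108454969604 / 3814697265625 * (w ^ 11 * (5 / 2 - w) ^ 2) +
         31442091387709824 / 3814697265625 * (w ^ 12 * (5 / 2 - w) ^ 1) +
         7194050367834978 / 3814697265625 * (w ^ 13 * (5 / 2 - w) ^ 0)) /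
          ((1 + w) ^ 2 * (1 + w + 13) * (1 + w + 1) ^ 8) := by
      simp only [Finset.sum_range_succ, Finset.sum_range_zero, Nat.factorial]
      push_cast
      field_simp
      ring
    rw [h4]
    positivity
  exact h3.trans (mul_le_mul_of_nonneg_left h2 (by positivity))

/-- decrease of `e^{-x} Q(x)` -/
theorem pr3_dec {b s x : ℝ} (hb : 0 < b) (hs : 2 ≤ s) (hx : s ≤ x) :
    exp (-x) * (3 * x / b + 3 * (b + 1) / b ^ 2 + ((x + 1) ^ 2 - 1 / (x + 1))) ≤
      exp (-s) * (3 * s / b + 3 * (b + 1) / b ^ 2 + ((s + 1) ^ 2 - 1 / (s + 1))) := by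
  obtain ⟨t, rfl⟩ : ∃ t, x = s + t := ⟨x - s, by ring⟩
  have ht : 0 ≤ t := by linarith
  have he : 1 + t + t ^ 2 / 2 ≤ exp t := Real.quadratic_le_exp_of_nonneg ht
  have h1 : (s + t + 1) ^ 2 - 1 / (s + t + 1) ≤
      ((s + 1) ^ 2 - 1 / (s + 1)) * (1 + t + t ^ 2 / 2) := by
    set a : ℝ := 1 / (s + 1) with ha
    have ha0 : 0 < a := by positivity
    have ha3 : a ≤ 1 / 3 := by
      rw [ha]
      exact one_div_le_one_div_of_le (by norm_num) (by linarith)
    have h2 : a - a ^ 2 * t ≤ 1 / (s + t + 1) := by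
      rw [le_div_iff₀ (by linarith)]
      have h3 : a * (s + 1) = 1 := by rw [ha]; field_simp
      have h4 : (a - a ^ 2 * t) * (s + t + 1) = a * (s + 1) + a * t * (1 - a * (s + 1)) -
          a ^ 2 * t ^ 2 := by ring
      rw [h4, h3]
      have : 0 ≤ a ^ 2 * t ^ 2 := by positivity
      linarith
    have h5 : 0 ≤ t * ((s + 1) ^ 2 - a - 2 * (s + 1) - a ^ 2) := by
      refine mul_nonneg ht ?_
      have : a ^ 2 ≤ 1 / 9 := by nlinarith
      nlinarith
    have h6 : 0 ≤ t ^ 2 * (((s + 1) ^ 2 - a) / 2 - 1) := by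
      refine mul_nonneg (by positivity) ?_
      nlinarith
    nlinarith
  have h2 : 3 * (s + t) / b ≤ 3 * s / b * (1 + t + t ^ 2 / 2) := by
    rw [div_mul_eq_mul_div]
    refine div_le_div_of_nonneg_right ?_ hb.le
    have : 0 ≤ t * (s - 1) := mul_nonneg ht (by linarith)
    have : 0 ≤ s * t ^ 2 := by positivity
    nlinarith
  have h3 : 3 * (b + 1) / b ^ 2 ≤ 3 * (b + 1) / b ^ 2 * (1 + t + t ^ 2 / 2) := by
    refine le_mul_of_one_le_right (by positivity) ?_
    have : 0 ≤ t ^ 2 := by positivity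
    linarith
  have h4 : 0 ≤ 3 * s / b + 3 * (b + 1) / b ^ 2 + ((s + 1) ^ 2 - 1 / (s + 1)) := by
    have h5 : 1 / (s + 1) ≤ 1 := by
      rw [div_le_one (by linarith)]
      linarith
    have h6 : 1 ≤ (s + 1) ^ 2 := by nlinarith
    have h7 : 0 ≤ 3 * s / b := by positivity
    have h8 : 0 ≤ 3 * (b + 1) / b ^ 2 := by positivity
    linarith
  have h5 : 3 * (s + t) / b + 3 * (b + 1) / b ^ 2 + ((s + t + 1) ^ 2 - 1 / (s + t + 1)) ≤
      (3 * s / b + 3 * (b + 1) / b ^ 2 + ((s + 1) ^ 2 - 1 / (s + 1))) * exp t := by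
    refine le_trans ?_ (mul_le_mul_of_nonneg_left he h4)
    calc _ ≤ 3 * s / b * (1 + t + t ^ 2 / 2) + 3 * (b + 1) / b ^ 2 * (1 + t + t ^ 2 / 2) +
        ((s + 1) ^ 2 - 1 / (s + 1)) * (1 + t + t ^ 2 / 2) := by linarith
      _ = _ := by ring
  calc _ ≤ exp (-(s + t)) *
      ((3 * s / b + 3 * (b + 1) / b ^ 2 + ((s + 1) ^ 2 - 1 / (s + 1))) * exp t) :=
        mul_le_mul_of_nonneg_left h5 (exp_pos _).le
    _ = (exp (-(s + t)) * exp t) *
      (3 * s / b + 3 * (b + 1) / b ^ 2 + ((s + 1) ^ 2 - 1 / (s + 1))) := by ring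
    _ = _ := by
        rw [← exp_add]
        congr 2
        ring

/-- the auxiliary function -/
noncomputable def pr3F (b K x : ℝ) : ℝ :=
  K * ((x ^ 2 + 3 * x + 3) * exp (-x)) -
    b ^ 4 * ((b ^ 2 * x ^ 2 + 3 * b * x + 3) * exp (-(b * x)))

theorem pr3_deriv (b K x : ℝ) : HasDerivAt (pr3F b K)
    (x * (b ^ 6 * (b * x + 1) * exp (-(b * x)) - K * (x + 1) * exp (-x))) x := by
  have h1 : HasDerivAt (fun y : ℝ => exp (-y)) (-exp (-x)) x :=
    (hasDerivAt_neg x).exp.congr_deriv (by ring)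
  have h2 : HasDerivAt (fun y : ℝ => exp (-(b * y))) (-b * exp (-(b * x))) x := by
    have h3 : HasDerivAt (fun y : ℝ => -(b * y)) (-b) x :=
      ((hasDerivAt_id x).const_mul b).neg.congr_deriv (by ring)
    exact h3.exp.congr_deriv (by ring)
  have h3 : HasDerivAt (fun y : ℝ => y ^ 2 + 3 * y + 3) (2 * x + 3) x :=
    (((hasDerivAt_pow 2 x).add ((hasDerivAt_id x).const_mul 3)).add_const 3).congr_deriv
      (by norm_num)
  have h4 : HasDerivAt (fun y : ℝ => b ^ 2 * y ^ 2 + 3 * b * y + 3)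
      (b ^ 2 * (2 * x) + 3 * b) x :=
    ((((hasDerivAt_pow 2 x).const_mul (b ^ 2)).add
      ((hasDerivAt_id x).const_mul (3 * b))).add_const 3).congr_deriv (by norm_num)
  have h5 := ((h3.mul h1).const_mul K).sub ((h4.mul h2).const_mul (b ^ 4))
  exact h5.congr_deriv (by ring)

theorem pr3_max {b x₀ : ℝ} (hb : 1 < b) (hx₀ : 0 < x₀) (h6 : b ^ 6 = exp ((b - 1) * x₀)) {x : ℝ}
    (hx : 0 < x) :
    pr3F b ((b * x₀ + 1) / (x₀ + 1)) x ≤ pr3F b ((b * x₀ + 1) / (x₀ + 1)) x₀ := by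
  set K : ℝ := (b * x₀ + 1) / (x₀ + 1) with hK
  have hb1 : 0 < b - 1 := by linarith
  have hd : ∀ y, deriv (pr3F b K) y =
      y * (b ^ 6 * (b * y + 1) * exp (-(b * y)) - K * (y + 1) * exp (-y)) :=
    fun y => (pr3_deriv b K y).deriv
  have hc : ∀ s : Set ℝ, ContinuousOn (pr3F b K) s :=
    fun s y _ => (pr3_deriv b K y).continuousAt.continuousWithinAt
  have he : ∀ y, b ^ 6 * (b * y + 1) * exp (-(b * y)) =
      (b * y + 1) * exp ((b - 1) * (x₀ - y)) * exp (-y) := by
    intro y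
    have h1 : b ^ 6 * exp (-(b * y)) = exp ((b - 1) * (x₀ - y)) * exp (-y) := by
      rw [h6, ← exp_add, ← exp_add]
      congr 1
      ring
    calc _ = (b * y + 1) * (b ^ 6 * exp (-(b * y))) := by ring
      _ = _ := by rw [h1]; ring
  rcases le_total x x₀ with hxx | hxx
  · -- increasing
    have hmono : MonotoneOn (pr3F b K) (Set.Icc 0 x₀) := by
      refine monotoneOn_of_deriv_nonneg (convex_Icc _ _) (hc _) ?_ ?_
      · intro y _
        exact (pr3_deriv b K y).differentiableAt.differentiableWithinAt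
      · intro y hy
        rw [interior_Icc] at hy
        obtain ⟨hy0, hy1⟩ := hy
        rw [hd, he, ← sub_mul]
        refine mul_nonneg hy0.le (mul_nonneg ?_ (exp_pos _).le)
        have h1 : 1 + (b - 1) * (x₀ - y) ≤ exp ((b - 1) * (x₀ - y)) := by
          rw [add_comm]
          exact Real.add_one_le_exp _
        have h2 : 0 ≤ b * y + 1 := by nlinarith
        have h3 := mul_le_mul_of_nonneg_left h1 h2
        have h4 : K * (y + 1) ≤ (b * y + 1) * (1 + (b - 1) * (x₀ - y)) := by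
          rw [hK, div_mul_eq_mul_div, div_le_iff₀ (by linarith)]
          have h5 : 0 ≤ (b - 1) * (x₀ - y) := mul_nonneg hb1.le (by linarith)
          have h6 : 0 ≤ b * y := by nlinarith
          have h7 : 0 ≤ (b - 1) * (x₀ - y) * (b * y) := mul_nonneg h5 h6
          have h8 : 0 ≤ (b - 1) * (x₀ - y) * x₀ := mul_nonneg h5 hx₀.le
          have h9 : 0 ≤ (b - 1) * (x₀ - y) * (b * y) * x₀ := mul_nonneg h7 hx₀.le
          nlinarith
        linarith
    exact hmono ⟨hx.le, hxx⟩ ⟨hx₀.le, le_rfl⟩ hxx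
  · -- decreasing
    have hanti : AntitoneOn (pr3F b K) (Set.Ici x₀) := by
      refine antitoneOn_of_deriv_nonpos (convex_Ici _) (hc _) ?_ ?_
      · intro y _
        exact (pr3_deriv b K y).differentiableAt.differentiableWithinAt
      · intro y hy
        rw [interior_Ici] at hy
        have hy1 : x₀ < y := hy
        have hy0 : 0 < y := hx₀.trans hy1
        rw [hd, he, ← sub_mul]
        refine mul_nonpos_of_nonneg_of_nonpos hy0.le
          (mul_nonpos_of_nonpos_of_nonneg ?_ (exp_pos _).le)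
        have h0 : 0 ≤ (b - 1) * (y - x₀) := mul_nonneg hb1.le (by linarith)
        have h1 : exp ((b - 1) * (x₀ - y)) * (1 + (b - 1) * (y - x₀)) ≤ 1 := by
          have h2 : 1 + (b - 1) * (y - x₀) ≤ exp ((b - 1) * (y - x₀)) := by
            rw [add_comm]
            exact Real.add_one_le_exp _
          calc _ ≤ exp ((b - 1) * (x₀ - y)) * exp ((b - 1) * (y - x₀)) :=
                mul_le_mul_of_nonneg_left h2 (exp_pos _).le
            _ = 1 := by
                rw [← exp_add, show (b - 1) * (x₀ - y) + (b - 1) * (y - x₀) = 0 by ring, exp_zero]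
        have h4 : b * y + 1 ≤ K * (y + 1) * (1 + (b - 1) * (y - x₀)) := by
          rw [hK, div_mul_eq_mul_div, div_mul_eq_mul_div, le_div_iff₀ (by linarith)]
          have h6 : 0 ≤ b * x₀ := by nlinarith
          have h7 : 0 ≤ (b - 1) * (y - x₀) * (b * x₀) := mul_nonneg h0 h6
          have h8 : 0 ≤ (b - 1) * (y - x₀) * y := mul_nonneg h0 hy0.le
          have h9 : 0 ≤ (b - 1) * (y - x₀) * (b * x₀) * y := mul_nonneg h7 hy0.le
          nlinarith
        have hE := exp_pos ((b - 1) * (x₀ - y))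
        have hKy : 0 ≤ K * (y + 1) := by
          have : 0 ≤ K := div_nonneg (by nlinarith) (by linarith)
          exact mul_nonneg this (by linarith)
        have h5 : (b * y + 1) * exp ((b - 1) * (x₀ - y)) ≤ K * (y + 1) := by
          calc (b * y + 1) * exp ((b - 1) * (x₀ - y))
              ≤ K * (y + 1) * (1 + (b - 1) * (y - x₀)) * exp ((b - 1) * (x₀ - y)) :=
                mul_le_mul_of_nonneg_right h4 hE.le
            _ = K * (y + 1) * (exp ((b - 1) * (x₀ - y)) * (1 + (b - 1) * (y - x₀))) := by ring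
            _ ≤ K * (y + 1) * 1 := mul_le_mul_of_nonneg_left h1 hKy
            _ = _ := by ring
        linarith
    exact hanti (Set.mem_Ici.2 le_rfl) (Set.mem_Ici.2 hxx) hxx

theorem pr3 {A B : ℝ} (hB : 0 < B) (hAB : B ≤ A) :
    (A + B) * (B ^ 4 * (B ^ 2 + 3 * B + 3) * exp (-B) - A ^ 4 * (A ^ 2 + 3 * A + 3) * exp (-A))
      ≤ 4704 / 10000 * (A ^ 2 * B ^ 2 * (A - B)) := by
  rcases hAB.eq_or_lt with h | h
  · rw [← h]
    simp
  obtain ⟨b, rfl⟩ : ∃ b, A = b * B := ⟨A / B, by field_simp⟩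
  have hb : 1 < b := by
    by_contra h1
    have : b * B ≤ 1 * B := mul_le_mul_of_nonneg_right (not_lt.1 h1) hB.le
    linarith
  have hb0 : 0 < b := by linarith
  have hb1 : 0 < b - 1 := by linarith
  -- reduction to one function
  have key : (b + 1) * ((B ^ 2 + 3 * B + 3) * exp (-B) -
      b ^ 4 * ((b ^ 2 * B ^ 2 + 3 * b * B + 3) * exp (-(b * B)))) ≤
      4704 / 10000 * b ^ 2 * (b - 1) := by
    rcases le_total (7 / 2) b with h7 | h7
    · have h1 : (B ^ 2 + 3 * B + 3) * exp (-B) ≤ 3 := by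
        have h2 : B ^ 2 + 3 * B + 3 ≤ 3 * exp B := by
          have := Real.quadratic_le_exp_of_nonneg hB.le
          nlinarith
        calc (B ^ 2 + 3 * B + 3) * exp (-B) ≤ 3 * exp B * exp (-B) :=
              mul_le_mul_of_nonneg_right h2 (exp_pos _).le
          _ = 3 := by rw [mul_assoc, ← exp_add]; simp
      have h3 : 0 ≤ b ^ 4 * ((b ^ 2 * B ^ 2 + 3 * b * B + 3) * exp (-(b * B))) := by positivity
      have h4 : (b + 1) * ((B ^ 2 + 3 * B + 3) * exp (-B) -
          b ^ 4 * ((b ^ 2 * B ^ 2 + 3 * b * B + 3) * exp (-(b * B)))) ≤ (b + 1) * 3 :=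
        mul_le_mul_of_nonneg_left (by linarith) (by linarith)
      refine h4.trans ?_
      nlinarith [mul_nonneg (sub_nonneg.2 h7) (sub_nonneg.2 h7),
        mul_nonneg (mul_nonneg (sub_nonneg.2 h7) (sub_nonneg.2 h7)) (sub_nonneg.2 h7)]
    · set x : ℝ := 6 * (log b / (b - 1)) with hx
      have hbx : (b - 1) * x = 6 * log b := by
        rw [hx]
        field_simp
      have hxs : 12 / (b + 1) ≤ x := by
        have h1 := Real.le_log_one_add_of_nonneg hb1.le
        rw [show 1 + (b - 1) = b by ring, show b - 1 + 2 = b + 1 by ring] at h1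
        rw [hx, div_le_iff₀ (by linarith)]
        rw [div_le_iff₀ (by linarith)] at h1
        have h2 : 6 * (log b / (b - 1)) * (b + 1) = 6 * (log b * (b + 1)) / (b - 1) := by
          field_simp
        rw [h2, le_div_iff₀ hb1]
        linarith
      have hs2 : 2 ≤ 12 / (b + 1) := by
        rw [le_div_iff₀ (by linarith)]
        linarith
      have hx0 : 0 < x := by linarith
      have h6 : b ^ 6 = exp ((b - 1) * x) := by
        rw [hbx, show (6 : ℝ) * log b = ((6 : ℕ) : ℝ) * log b by norm_num, Real.exp_nat_mul,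
          exp_log hb0]
      have hexp : exp (-(b * x)) = exp (-x) * (b ^ 6)⁻¹ := by
        rw [h6, ← exp_neg, ← exp_add]
        congr 1
        ring
      have h1 := pr3_max hb hx0 h6 hB
      have h2 : (B ^ 2 + 3 * B + 3) * exp (-B) -
          b ^ 4 * ((b ^ 2 * B ^ 2 + 3 * b * B + 3) * exp (-(b * B))) ≤
          pr3F b ((b * x + 1) / (x + 1)) B := by
        unfold pr3F
        have h3 : 1 ≤ (b * x + 1) / (x + 1) := by
          rw [le_div_iff₀ (by linarith)]
          nlinarith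
        have h4 : 0 ≤ (B ^ 2 + 3 * B + 3) * exp (-B) := by positivity
        have h5 := mul_le_mul_of_nonneg_right h3 h4
        linarith
      have h3 : pr3F b ((b * x + 1) / (x + 1)) x = (b - 1) *
          (exp (-x) * (3 * x / b + 3 * (b + 1) / b ^ 2 + ((x + 1) ^ 2 - 1 / (x + 1)))) := by
        unfold pr3F
        rw [hexp]
        have : x + 1 ≠ 0 := by linarith
        field_simp
        ring
      have h4 := pr3_dec hb0 hs2 hxs
      have h5 := pr3_core hb.le h7
      have h7' : (b + 1) * (exp (-(12 / (b + 1))) * (3 * (12 / (b + 1)) / b +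
          3 * (b + 1) / b ^ 2 + ((12 / (b + 1) + 1) ^ 2 - 1 / (12 / (b + 1) + 1)))) ≤
          4704 / 10000 * b ^ 2 := by
        have h8 : 3 * (12 / (b + 1)) / b + 3 * (b + 1) / b ^ 2 +
            ((12 / (b + 1) + 1) ^ 2 - 1 / (12 / (b + 1) + 1)) =
            36 / ((b + 1) * b) + 3 * (b + 1) / b ^ 2 +
            12 / (b + 13) * ((144 + 36 * (b + 1) + 3 * (b + 1) ^ 2) / (b + 1) ^ 2) := by
          have : b + 1 ≠ 0 := by linarith
          have : b + 13 ≠ 0 := by linarith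
          have h9 : 12 / (b + 1) + 1 = (b + 13) / (b + 1) := by
            field_simp
            ring
          rw [h9]
          field_simp
          ring
        rw [h8]
        have h9 := mul_le_mul_of_nonneg_right h5 (exp_pos (-(12 / (b + 1)))).le
        have h10 : exp (12 / (b + 1)) * exp (-(12 / (b + 1))) = 1 := by rw [← exp_add]; simp
        calc _ = (b + 1) * (36 / ((b + 1) * b) + 3 * (b + 1) / b ^ 2 +
              12 / (b + 13) * ((144 + 36 * (b + 1) + 3 * (b + 1) ^ 2) / (b + 1) ^ 2)) *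
              exp (-(12 / (b + 1))) := by ring
          _ ≤ 4704 / 10000 * b ^ 2 * exp (12 / (b + 1)) * exp (-(12 / (b + 1))) := h9
          _ = 4704 / 10000 * b ^ 2 * (exp (12 / (b + 1)) * exp (-(12 / (b + 1)))) := by ring
          _ = _ := by rw [h10, mul_one]
      have h11 := mul_le_mul_of_nonneg_left h4 (by linarith : (0 : ℝ) ≤ b + 1)
      have h12 := h11.trans h7'
      calc _ ≤ (b + 1) * pr3F b ((b * x + 1) / (x + 1)) x :=
            mul_le_mul_of_nonneg_left (h2.trans h1) (by linarith)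
        _ = (b + 1) * (exp (-x) *
            (3 * x / b + 3 * (b + 1) / b ^ 2 + ((x + 1) ^ 2 - 1 / (x + 1)))) * (b - 1) := by
            rw [h3]
            ring
        _ ≤ _ := mul_le_mul_of_nonneg_right h12 hb1.le
  calc (b * B + B) * (B ^ 4 * (B ^ 2 + 3 * B + 3) * exp (-B) -
        (b * B) ^ 4 * ((b * B) ^ 2 + 3 * (b * B) + 3) * exp (-(b * B)))
      = B ^ 5 * ((b + 1) * ((B ^ 2 + 3 * B + 3) * exp (-B) -
      b ^ 4 * ((b ^ 2 * B ^ 2 + 3 * b * B + 3) * exp (-(b * B))))) := by ring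
    _ ≤ B ^ 5 * (4704 / 10000 * b ^ 2 * (b - 1)) :=
        mul_le_mul_of_nonneg_left key (by positivity)
    _ = _ := by ring

end Pool.Agent.H75.LO
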