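import Pool.Agent.H75.LO.GauC2
import Pool.Agent.H75.LO.Pr0
import Pool.Agent.H75.LO.Pr1
import Pool.Agent.H75.LO.Pr2
import Pool.Agent.H75.LO.Pr3

/-!
# LO-PLa: `(P_l)` for `l = 0,1,2,3`, `y = 59`, from the closed forms

For `a = 0` or `b = 0` it is trivial (`Y l 0 r = 0` because `0^{3/2} = 0`). For `a ≥ b > 0` (by symmetry) put
`s = √(2a)`, `u = √(2b)`, `A = s r`, `B = u r`; `a^{3/2} = s³/(2√2)`,
`Y 0 a r = s³e^{-A}/(4√2πr)`, `Y 1 = s⁴e^{-A}/(8√2π)`, `Y 2 = s⁴(1+A)e^{-A}/(32√2π)`,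
`Y 3 = s⁴(A²+3A+3)e^{-A}/(192√2π)`; the claim is `(s+u)(Y(b)-Y(a)) ≤ 59^{-3/2} s²u²(s-u)/4`, i.e. `pr0`, …, `pr3` with
constants `√2π·59^{-3/2} = 0.0098036…`, `2√2π·59^{-3/2}`, `8√2π·59^{-3/2}`, `48√2π·59^{-3/2}`.
-/

open MeasureTheory Set
open scoped ENNReal

namespace Pool.Agent.H75.LO

theorem pla_rpow {m : ℝ} (hm : 0 < m) :
    m ^ (3 / 2 : ℝ) = Real.sqrt (2 * m) ^ 3 / (2 * Real.sqrt 2) := by
  have h2 : 0 < Real.sqrt 2 := Real.sqrt_pos.2 (by norm_num)
  have hs2 : Real.sqrt 2 ^ 2 = 2 := Real.sq_sqrt (by norm_num)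
  have hsm : Real.sqrt m ^ 2 = m := Real.sq_sqrt hm.le
  have h1 : m ^ (3 / 2 : ℝ) = m * Real.sqrt m := by
    rw [show (3 / 2 : ℝ) = 1 + 1 / 2 by norm_num, Real.rpow_add hm, Real.rpow_one,
      Real.sqrt_eq_rpow]
  rw [h1, Real.sqrt_mul (by norm_num) m, eq_div_iff (by positivity)]
  calc m * Real.sqrt m * (2 * Real.sqrt 2) = 2 * m * (Real.sqrt m * Real.sqrt 2) := by ring
    _ = Real.sqrt 2 ^ 2 * Real.sqrt m ^ 2 * (Real.sqrt m * Real.sqrt 2) := by rw [hs2, hsm]
    _ = (Real.sqrt 2 * Real.sqrt m) ^ 3 := by ring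

theorem pla_K : 98 / 10000 ≤ Real.sqrt 2 * Real.pi * (59 : ℝ) ^ (-(3 / 2) : ℝ) := by
  have h1 : (59 : ℝ) ^ (-(3 / 2) : ℝ) = 1 / (59 * Real.sqrt 59) := by
    rw [Real.rpow_neg (by norm_num), show (3 / 2 : ℝ) = 1 + 1 / 2 by norm_num,
      Real.rpow_add (by norm_num), Real.rpow_one, Real.sqrt_eq_rpow]
    exact (one_div _).symm
  have h2 : Real.sqrt 59 ≤ 76812 / 10000 := by
    rw [Real.sqrt_le_left (by norm_num)]
    norm_num
  have h3 : 14142 / 10000 ≤ Real.sqrt 2 := by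
    apply Real.le_sqrt_of_sq_le
    norm_num
  have h4 : (31415 : ℝ) / 10000 ≤ Real.pi := by
    have := Real.pi_gt_d6
    linarith
  have h5 : 0 < Real.sqrt 59 := Real.sqrt_pos.2 (by norm_num)
  rw [h1, mul_one_div, le_div_iff₀ (by positivity)]
  have h6 : (14142 / 10000 : ℝ) * (31415 / 10000) ≤ Real.sqrt 2 * Real.pi :=
    mul_le_mul h3 h4 (by norm_num) (Real.sqrt_nonneg 2)
  nlinarith

/-- reduction of `PL` to a real inequality -/
theorem pla_reduce {l : ℕ} {y : ℝ} (f : ℝ → ℝ → ℝ) (hf0 : ∀ r, 0 < r → f r 0 = 0)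
    (hfn : ∀ r s, 0 < r → 0 ≤ s → 0 ≤ f r s)
    (hY : ∀ m r, 0 < m → 0 < r → Y l m r = ENNReal.ofReal (f r (Real.sqrt (2 * m))))
    (hmain : ∀ r s u, 0 < r → 0 < u → u ≤ s →
      (s + u) * (f r u - f r s) ≤ y ^ (-(3 / 2) : ℝ) * (s ^ 2 * u ^ 2 * (s - u)) / 4)
    (hy : 0 ≤ y) : PL l y := by
  set K : ℝ := y ^ (-(3 / 2) : ℝ) with hK
  have hK0 : 0 ≤ K := Real.rpow_nonneg hy _
  have hw : 0 < Real.sqrt 2 := Real.sqrt_pos.2 (by norm_num)
  have hw2 : Real.sqrt 2 ^ 2 = 2 := Real.sq_sqrt (by norm_num)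
  have hY' : ∀ m r, 0 ≤ m → 0 < r → Y l m r = ENNReal.ofReal (f r (Real.sqrt (2 * m))) := by
    intro m r hm hr
    rcases hm.eq_or_lt with h | h
    · rw [← h, mul_zero, Real.sqrt_zero, hf0 r hr, ENNReal.ofReal_zero]
      unfold Y
      rw [Real.zero_rpow (by norm_num), zero_mul, ENNReal.ofReal_zero, zero_mul]
    · exact hY m r h hr
  -- the real inequality
  have key : ∀ a b r : ℝ, 0 ≤ b → b ≤ a → 0 < r →
      a * f r (Real.sqrt (2 * b)) + b * f r (Real.sqrt (2 * a)) ≤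
      a * f r (Real.sqrt (2 * a)) + b * f r (Real.sqrt (2 * b)) +
        K * (a * b * (Real.sqrt a - Real.sqrt b) ^ 2) := by
    intro a b r hb hab hr
    have ha : 0 ≤ a := hb.trans hab
    have hfa := hfn r (Real.sqrt (2 * a)) hr (Real.sqrt_nonneg _)
    rcases hb.eq_or_lt with h | h
    · rw [← h, mul_zero, Real.sqrt_zero, hf0 r hr]
      have : 0 ≤ a * f r (Real.sqrt (2 * a)) := mul_nonneg ha hfa
      simp only [mul_zero, zero_mul, add_zero]
      exact this
    · have h1 := hmain r (Real.sqrt (2 * a)) (Real.sqrt (2 * b)) hr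
        (Real.sqrt_pos.2 (by linarith)) (Real.sqrt_le_sqrt (by linarith))
      set fa := f r (Real.sqrt (2 * a)) with hfa'
      set fb := f r (Real.sqrt (2 * b)) with hfb'
      rw [Real.sqrt_mul (by norm_num) a, Real.sqrt_mul (by norm_num) b] at h1
      have hp2 : Real.sqrt a ^ 2 = a := Real.sq_sqrt ha
      have hq2 : Real.sqrt b ^ 2 = b := Real.sq_sqrt hb
      have hpq : Real.sqrt b ≤ Real.sqrt a := Real.sqrt_le_sqrt hab
      set p := Real.sqrt a
      set q := Real.sqrt b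
      set w := Real.sqrt 2
      have h2 : w * ((p + q) * (fb - fa)) ≤ w * (K * (p ^ 2 * q ^ 2 * (p - q))) := by
        calc w * ((p + q) * (fb - fa)) = (w * p + w * q) * (fb - fa) := by ring
          _ ≤ K * ((w * p) ^ 2 * (w * q) ^ 2 * (w * p - w * q)) / 4 := h1
          _ = (w ^ 2) * (w ^ 2) / 4 * (w * (K * (p ^ 2 * q ^ 2 * (p - q)))) := by ring
          _ = w * (K * (p ^ 2 * q ^ 2 * (p - q))) := by rw [hw2]; ring
      have h3 := le_of_mul_le_mul_left h2 hw
      have h4 := mul_le_mul_of_nonneg_left h3 (sub_nonneg.2 hpq)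
      rw [← hp2, ← hq2]
      nlinarith
  intro a b r ha hb hr
  rw [hY' a r ha hr, hY' b r hb hr]
  have hfa := hfn r (Real.sqrt (2 * a)) hr (Real.sqrt_nonneg _)
  have hfb := hfn r (Real.sqrt (2 * b)) hr (Real.sqrt_nonneg _)
  have hr0 : 0 ≤ K * (a * b * (Real.sqrt a - Real.sqrt b) ^ 2) := by positivity
  rw [← ENNReal.ofReal_mul ha, ← ENNReal.ofReal_mul hb, ← ENNReal.ofReal_mul ha,
    ← ENNReal.ofReal_mul hb, ← ENNReal.ofReal_add (mul_nonneg ha hfb) (mul_nonneg hb hfa),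
    ← ENNReal.ofReal_add (mul_nonneg ha hfa) (mul_nonneg hb hfb),
    ← ENNReal.ofReal_add (add_nonneg (mul_nonneg ha hfa) (mul_nonneg hb hfb)) hr0]
  refine ENNReal.ofReal_le_ofReal ?_
  rcases le_total b a with h | h
  · exact key a b r hb h hr
  · have h1 := key b a r ha h hr
    nlinarith

/-- the constants -/
theorem pla_final {X T c κ K d : ℝ} (hX : X ≤ κ * T) (hT : 0 ≤ T) (hd : 0 < d)
    (hκ : κ ≤ c) (hc : c = K * d / 4) : X / d ≤ K * T / 4 := by
  rw [div_le_iff₀ hd]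
  have h1 : κ * T ≤ c * T := mul_le_mul_of_nonneg_right hκ hT
  rw [hc] at h1
  nlinarith

theorem PL_zero : PL 0 59 := by
  have hw : 0 < Real.sqrt 2 := Real.sqrt_pos.2 (by norm_num)
  refine pla_reduce (fun r s => s ^ 3 * Real.exp (-(s * r)) / (4 * Real.sqrt 2 * Real.pi * r))
    (fun r hr => by simp) (fun r s hr hs => by positivity) (fun m r hm hr => ?_)
    (fun r s u hr hu hus => ?_) (by norm_num)
  · unfold Y
    rw [gr_zero hm hr, ← ENNReal.ofReal_mul (by positivity), pla_rpow hm]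
    congr 1
    rw [pow_zero]
    field_simp
    ring
  · have hs : 0 < s := hu.trans_le hus
    have h := pr0 (A := s * r) (B := u * r) (by positivity)
      (mul_le_mul_of_nonneg_right hus hr.le)
    have hT : 0 ≤ s ^ 2 * u ^ 2 * (s - u) := mul_nonneg (by positivity) (by linarith)
    have h' : (s + u) * (u ^ 3 * Real.exp (-(u * r)) - s ^ 3 * Real.exp (-(s * r))) ≤
        (98 / 10000 * r) * (s ^ 2 * u ^ 2 * (s - u)) := by
      refine le_of_mul_le_mul_left ?_ (pow_pos hr 4)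
      calc r ^ 4 * ((s + u) * (u ^ 3 * Real.exp (-(u * r)) - s ^ 3 * Real.exp (-(s * r))))
          = (s * r + u * r) * ((u * r) ^ 3 * Real.exp (-(u * r)) -
              (s * r) ^ 3 * Real.exp (-(s * r))) := by ring
        _ ≤ _ := h
        _ = _ := by ring
    have h2 := pla_final h' hT (d := 4 * Real.sqrt 2 * Real.pi * r) (by positivity)
      (mul_le_mul_of_nonneg_right pla_K hr.le)
      (K := (59 : ℝ) ^ (-(3 / 2) : ℝ)) (by ring)
    refine le_trans (le_of_eq ?_) h2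
    ring

theorem PL_one : PL 1 59 := by
  have hw : 0 < Real.sqrt 2 := Real.sqrt_pos.2 (by norm_num)
  refine pla_reduce (fun r s => s ^ 4 * Real.exp (-(s * r)) / (8 * Real.sqrt 2 * Real.pi))
    (fun r hr => by simp) (fun r s hr hs => by positivity) (fun m r hm hr => ?_)
    (fun r s u hr hu hus => ?_) (by norm_num)
  · unfold Y
    rw [gr_one hm hr, ← ENNReal.ofReal_mul (by positivity), pla_rpow hm]
    congr 1
    have hs : 0 < Real.sqrt (2 * m) := Real.sqrt_pos.2 (by linarith)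
    have hm2 : m = Real.sqrt (2 * m) ^ 2 / 2 := by
      rw [Real.sq_sqrt (by linarith)]
      ring
    set s := Real.sqrt (2 * m) with hsdef
    rw [hm2]
    field_simp
    ring
  · have hs : 0 < s := hu.trans_le hus
    have h := pr1 (A := s * r) (B := u * r) (by positivity)
      (mul_le_mul_of_nonneg_right hus hr.le)
    have hT : 0 ≤ s ^ 2 * u ^ 2 * (s - u) := mul_nonneg (by positivity) (by linarith)
    have h' : (s + u) * (u ^ 4 * Real.exp (-(u * r)) - s ^ 4 * Real.exp (-(s * r))) ≤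
        196 / 10000 * (s ^ 2 * u ^ 2 * (s - u)) := by
      refine le_of_mul_le_mul_left ?_ (pow_pos hr 5)
      refine le_trans (le_of_eq ?_) (h.trans (le_of_eq ?_))
      · ring
      · ring
    have hK := pla_K
    have h2 := pla_final h' hT (d := 8 * Real.sqrt 2 * Real.pi) (by positivity)
      (c := 2 * (Real.sqrt 2 * Real.pi * (59 : ℝ) ^ (-(3 / 2) : ℝ))) (by linarith)
      (K := (59 : ℝ) ^ (-(3 / 2) : ℝ)) (by ring)
    refine le_trans (le_of_eq ?_) h2
    ring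

theorem PL_two : PL 2 59 := by
  have hw : 0 < Real.sqrt 2 := Real.sqrt_pos.2 (by norm_num)
  refine pla_reduce (fun r s => s ^ 4 * (1 + s * r) * Real.exp (-(s * r)) / (32 * Real.sqrt 2 * Real.pi))
    (fun r hr => by simp) (fun r s hr hs => by positivity) (fun m r hm hr => ?_)
    (fun r s u hr hu hus => ?_) (by norm_num)
  · unfold Y
    rw [gr_two hm hr, ← ENNReal.ofReal_mul (by positivity), pla_rpow hm]
    congr 1
    have hs : 0 < Real.sqrt (2 * m) := Real.sqrt_pos.2 (by linarith)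
    have hm2 : m = Real.sqrt (2 * m) ^ 2 / 2 := by
      rw [Real.sq_sqrt (by linarith)]
      ring
    set s := Real.sqrt (2 * m) with hsdef
    rw [hm2]
    field_simp
    ring
  · have hs : 0 < s := hu.trans_le hus
    have h := pr2 (A := s * r) (B := u * r) (by positivity)
      (mul_le_mul_of_nonneg_right hus hr.le)
    have hT : 0 ≤ s ^ 2 * u ^ 2 * (s - u) := mul_nonneg (by positivity) (by linarith)
    have h' : (s + u) * (u ^ 4 * (1 + u * r) * Real.exp (-(u * r)) - s ^ 4 * (1 + s * r) * Real.exp (-(s * r))) ≤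
        784 / 10000 * (s ^ 2 * u ^ 2 * (s - u)) := by
      refine le_of_mul_le_mul_left ?_ (pow_pos hr 5)
      refine le_trans (le_of_eq ?_) (h.trans (le_of_eq ?_))
      · ring
      · ring
    have hK := pla_K
    have h2 := pla_final h' hT (d := 32 * Real.sqrt 2 * Real.pi) (by positivity)
      (c := 8 * (Real.sqrt 2 * Real.pi * (59 : ℝ) ^ (-(3 / 2) : ℝ))) (by linarith)
      (K := (59 : ℝ) ^ (-(3 / 2) : ℝ)) (by ring)
    refine le_trans (le_of_eq ?_) h2
    ring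

theorem PL_three : PL 3 59 := by
  have hw : 0 < Real.sqrt 2 := Real.sqrt_pos.2 (by norm_num)
  refine pla_reduce (fun r s => s ^ 4 * ((s * r) ^ 2 + 3 * (s * r) + 3) * Real.exp (-(s * r)) / (192 * Real.sqrt 2 * Real.pi))
    (fun r hr => by simp) (fun r s hr hs => by positivity) (fun m r hm hr => ?_)
    (fun r s u hr hu hus => ?_) (by norm_num)
  · unfold Y
    rw [gr_three hm hr, ← ENNReal.ofReal_mul (by positivity), pla_rpow hm]
    congr 1
    have hs : 0 < Real.sqrt (2 * m) := Real.sqrt_pos.2 (by linarith)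
    have hm2 : m = Real.sqrt (2 * m) ^ 2 / 2 := by
      rw [Real.sq_sqrt (by linarith)]
      ring
    set s := Real.sqrt (2 * m) with hsdef
    rw [hm2]
    field_simp
    ring
  · have hs : 0 < s := hu.trans_le hus
    have h := pr3 (A := s * r) (B := u * r) (by positivity)
      (mul_le_mul_of_nonneg_right hus hr.le)
    have hT : 0 ≤ s ^ 2 * u ^ 2 * (s - u) := mul_nonneg (by positivity) (by linarith)
    have h' : (s + u) * (u ^ 4 * ((u * r) ^ 2 + 3 * (u * r) + 3) * Real.exp (-(u * r)) - s ^ 4 * ((s * r) ^ 2 + 3 * (s * r) + 3) * Real.exp (-(s * r))) ≤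
        4704 / 10000 * (s ^ 2 * u ^ 2 * (s - u)) := by
      refine le_of_mul_le_mul_left ?_ (pow_pos hr 5)
      refine le_trans (le_of_eq ?_) (h.trans (le_of_eq ?_))
      · ring
      · ring
    have hK := pla_K
    have h2 := pla_final h' hT (d := 192 * Real.sqrt 2 * Real.pi) (by positivity)
      (c := 48 * (Real.sqrt 2 * Real.pi * (59 : ℝ) ^ (-(3 / 2) : ℝ))) (by linarith)
      (K := (59 : ℝ) ^ (-(3 / 2) : ℝ)) (by ring)
    refine le_trans (le_of_eq ?_) h2
    ring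

end Pool.Agent.H75.LO
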