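import Mathlib

/-!
# LO-Hc: the pointwise inequality for a sharp cutoff in time

`(a-b)(b²e^{-bs} - a²e^{-as}) ≤ 4e^{-3} a b (√a-√b)²` for `a, b ≥ 0`, `s > 0`.

By symmetry `a > b > 0` and by scaling (`a,b → as, bs`) `s = 1`... Put `a = β²b`. Maximising
`e^{-b}-β⁴e^{-β²b}` over `b` (`z = e^{-(b-b*)}`, `z^{β²} ≥ 1+β²(z-1)`, `b* = 6 ln β/(β²-1)`) the value is
`β^{-6/(β²-1)}(1-β^{-2})`, and the claim becomes `(β+1)² β^{-6/(β²-1)} ≤ 4e^{-3}β⁴`, i.e.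
`3 + 2 ln((β+1)/2) ≤ 4 ln β + 6 ln β/(β²-1)`. With `β = (1+θ)/(1-θ)`: `ln β = 2 artanh θ`, `(β+1)/2 = 1/(1-θ)`,
`6 ln β/(β²-1) = 3(1-θ)² artanh θ/θ ≥ 3(1-θ)²(1+θ²/3)`, `4 ln β - 2 ln((β+1)/2) = 4 ln(1+θ) - 2 ln(1-θ)`
`≥ 4θ-2θ²+2θ+θ²+(2/3)θ³`; sum `= 3 + 3θ² - (4/3)θ³ + θ⁴ ≥ 3`.
-/

namespace Pool.Agent.H75.LO

open Real

theorem hc_neglog {x : ℝ} (h0 : 0 ≤ x) (h1 : x < 1) :
    x + x ^ 2 / 2 + x ^ 3 / 3 ≤ -log (1 - x) := by
  have h := Real.hasSum_pow_div_log_of_abs_lt_one (x := x) (by rw [abs_of_nonneg h0]; exact h1)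
  have h2 := sum_le_hasSum (Finset.range 3) (fun i _ => by positivity) h
  simp only [Finset.sum_range_succ, Finset.sum_range_zero] at h2
  norm_num at h2
  linarith

theorem hc_artanh {x : ℝ} (h0 : 0 ≤ x) (h1 : x < 1) :
    2 * x + 2 * x ^ 3 / 3 ≤ log (1 + x) - log (1 - x) := by
  have h := Real.hasSum_log_sub_log_of_abs_lt_one (x := x) (by rw [abs_of_nonneg h0]; exact h1)
  have h2 := sum_le_hasSum (Finset.range 2) (fun i _ => by positivity) h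
  simp only [Finset.sum_range_succ, Finset.sum_range_zero] at h2
  norm_num at h2
  linarith

theorem hc_log1p {t : ℝ} (h0 : 0 ≤ t) : t - t ^ 2 / 2 ≤ log (1 + t) := by
  have ht : (0:ℝ) < 1 + t := by linarith
  have hx0 : 0 ≤ t / (1 + t) := by positivity
  have hx1 : t / (1 + t) < 1 := by rw [div_lt_one ht]; linarith
  have h := hc_neglog hx0 hx1
  have e : 1 - t / (1 + t) = (1 + t)⁻¹ := by field_simp; ring
  rw [e, log_inv, neg_neg] at h
  have h3 : 0 ≤ (t / (1 + t)) ^ 3 / 3 := by positivity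
  have h4 : t - t ^ 2 / 2 ≤ t / (1 + t) + (t / (1 + t)) ^ 2 / 2 := by
    have : t / (1 + t) + (t / (1 + t)) ^ 2 / 2 - (t - t ^ 2 / 2) = t ^ 4 / (2 * (1 + t) ^ 2) := by
      field_simp; ring
    have h5 : 0 ≤ t ^ 4 / (2 * (1 + t) ^ 2) := by positivity
    linarith
  linarith

/-- `3 + 2 ln((β+1)/2) ≤ 4 ln β + 6 ln β/(β²-1)` -/
theorem hc_core {β : ℝ} (hβ : 1 < β) :
    3 + 2 * log ((β + 1) / 2) ≤ 4 * log β + 6 * log β / (β ^ 2 - 1) := by
  obtain ⟨t, ht0, ht1, rfl⟩ : ∃ t : ℝ, 0 < t ∧ t < 1 ∧ β = (1 + t) / (1 - t) := by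
    refine ⟨(β - 1) / (β + 1), by apply div_pos <;> linarith, ?_, ?_⟩
    · rw [div_lt_one (by linarith)]; linarith
    · have : β + 1 ≠ 0 := by linarith
      field_simp
      ring
  have h1t : 0 < 1 - t := by linarith
  have h1p : 0 < 1 + t := by linarith
  have e1 : ((1 + t) / (1 - t) + 1) / 2 = (1 - t)⁻¹ := by field_simp; ring
  have e2 : ((1 + t) / (1 - t)) ^ 2 - 1 = 4 * t / (1 - t) ^ 2 := by field_simp; ring
  rw [e1, e2, log_inv, log_div h1p.ne' h1t.ne']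
  have hA := hc_artanh ht0.le ht1
  have hN := hc_neglog ht0.le ht1
  have hP := hc_log1p ht0.le
  have e3 : 6 * (log (1 + t) - log (1 - t)) / (4 * t / (1 - t) ^ 2)
      = (3 / 2) * (1 - t) ^ 2 / t * (log (1 + t) - log (1 - t)) := by
    field_simp; ring
  rw [e3]
  have h5 : (3 / 2) * (1 - t) ^ 2 / t * (2 * t + 2 * t ^ 3 / 3)
      ≤ (3 / 2) * (1 - t) ^ 2 / t * (log (1 + t) - log (1 - t)) :=
    mul_le_mul_of_nonneg_left hA (by positivity)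
  have e4 : (3 / 2) * (1 - t) ^ 2 / t * (2 * t + 2 * t ^ 3 / 3) = (1 - t) ^ 2 * (3 + t ^ 2) := by
    field_simp
  rw [e4] at h5
  have h6 : 0 ≤ t ^ 2 * (3 - 4 / 3 * t + t ^ 2) := by
    apply mul_nonneg (by positivity); nlinarith [sq_nonneg t]
  nlinarith [h5, hN, hP, h6]

theorem hc_exp {β : ℝ} (hβ : 1 < β) :
    (β + 1) ^ 2 * exp (-(6 * log β / (β ^ 2 - 1))) ≤ 4 * exp (-3) * β ^ 4 := by
  have h := hc_core hβ
  have hb : 0 < β := by linarith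
  have hb1 : 0 < (β + 1) / 2 := by linarith
  have e1 : (β + 1) ^ 2 = 4 * exp (2 * log ((β + 1) / 2)) := by
    rw [mul_comm 2 (log _), exp_mul, exp_log hb1]
    norm_num
    ring
  have e2 : β ^ 4 = exp (4 * log β) := by
    rw [mul_comm 4 (log _), exp_mul, exp_log hb]
    norm_cast
  rw [e1, e2, mul_assoc, mul_assoc, ← exp_add, ← exp_add]
  apply mul_le_mul_of_nonneg_left _ (by norm_num)
  apply exp_le_exp.mpr
  linarith

/-- the maximum over `b` -/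
theorem hc_max {β b : ℝ} (hβ : 1 < β) :
    exp (-b) - β ^ 4 * exp (-(β ^ 2 * b))
      ≤ exp (-(6 * log β / (β ^ 2 - 1))) * (1 - (β ^ 2)⁻¹) := by
  set B := 6 * log β / (β ^ 2 - 1) with hB
  have hb : 0 < β := by linarith
  have hb2 : 0 < β ^ 2 - 1 := by nlinarith
  have hBe : (β ^ 2 - 1) * B = 6 * log β := by rw [hB]; field_simp
  have e6 : exp (-(β ^ 2 * B)) = (β ^ 6)⁻¹ * exp (-B) := by
    have : β ^ 6 = exp (6 * log β) := by
      rw [mul_comm 6 (log _), exp_mul, exp_log hb]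
      norm_cast
    rw [this, ← exp_neg, ← exp_add]
    congr 1
    linarith
  -- Bernoulli
  have hbern := one_add_mul_self_le_rpow_one_add (s := exp (-(b - B)) - 1)
    (by have := exp_pos (-(b - B)); linarith) (p := β ^ 2) (by nlinarith)
  have e7 : (1 + (exp (-(b - B)) - 1)) ^ (β ^ 2 : ℝ) = exp (-(β ^ 2 * (b - B))) := by
    rw [show 1 + (exp (-(b - B)) - 1) = exp (-(b - B)) by ring, ← exp_mul]
    congr 1; ring
  rw [e7] at hbern
  have e8 : exp (-(β ^ 2 * b)) = exp (-(β ^ 2 * B)) * exp (-(β ^ 2 * (b - B))) := by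
    rw [← exp_add]; congr 1; ring
  have e9 : exp (-b) = exp (-B) * exp (-(b - B)) := by
    rw [← exp_add]; congr 1; ring
  rw [e8, e9, e6]
  have hpos : 0 < exp (-B) := exp_pos _
  set z := exp (-(b - B)) with hz
  set w := exp (-(β ^ 2 * (b - B))) with hw
  have h10 : exp (-B) * z - β ^ 4 * ((β ^ 6)⁻¹ * exp (-B) * w)
      = exp (-B) * (z - (β ^ 2)⁻¹ * w) := by
    field_simp
  rw [h10]
  apply mul_le_mul_of_nonneg_left _ hpos.le
  have h11 : (β ^ 2)⁻¹ * (1 + β ^ 2 * (z - 1)) ≤ (β ^ 2)⁻¹ * w :=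
    mul_le_mul_of_nonneg_left hbern (by positivity)
  have h12 : (β ^ 2)⁻¹ * (1 + β ^ 2 * (z - 1)) = (β ^ 2)⁻¹ + (z - 1) := by
    field_simp
  linarith

/-- the ordered case `0 < b < a`, `s = 1`, with square roots `x = √a`, `y = √b` -/
theorem hc_ord {x y : ℝ} (hy : 0 < y) (hxy : y < x) :
    (x ^ 2 - y ^ 2) * ((y ^ 2) ^ 2 * exp (-(y ^ 2)) - (x ^ 2) ^ 2 * exp (-(x ^ 2)))
      ≤ 4 * exp (-3) * (x ^ 2 * y ^ 2 * (x - y) ^ 2) := by
  obtain ⟨β, hβ, rfl⟩ : ∃ β : ℝ, 1 < β ∧ x = β * y := by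
    refine ⟨x / y, by rw [lt_div_iff₀ hy]; linarith, by field_simp⟩
  have hm := hc_max (b := y ^ 2) hβ
  have he := hc_exp hβ
  have hb : 0 < β := by linarith
  have hb1 : 0 < β - 1 := by linarith
  have e1 : (β * y) ^ 2 = β ^ 2 * y ^ 2 := by ring
  have key : (β + 1) * (exp (-(y ^ 2)) - β ^ 4 * exp (-(β ^ 2 * y ^ 2)))
      ≤ 4 * exp (-3) * β ^ 2 * (β - 1) := by
    calc (β + 1) * (exp (-(y ^ 2)) - β ^ 4 * exp (-(β ^ 2 * y ^ 2)))
        ≤ (β + 1) * (exp (-(6 * log β / (β ^ 2 - 1))) * (1 - (β ^ 2)⁻¹)) :=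
          mul_le_mul_of_nonneg_left hm (by linarith)
      _ = ((β + 1) ^ 2 * exp (-(6 * log β / (β ^ 2 - 1)))) * ((β - 1) / β ^ 2) := by
          field_simp; ring
      _ ≤ (4 * exp (-3) * β ^ 4) * ((β - 1) / β ^ 2) :=
          mul_le_mul_of_nonneg_right he (by positivity)
      _ = 4 * exp (-3) * β ^ 2 * (β - 1) := by field_simp
  rw [e1]
  have h2 : (β ^ 2 * y ^ 2 - y ^ 2) * ((y ^ 2) ^ 2 * exp (-(y ^ 2))
        - (β ^ 2 * y ^ 2) ^ 2 * exp (-(β ^ 2 * y ^ 2)))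
      = (y ^ 6 * (β - 1)) * ((β + 1) * (exp (-(y ^ 2)) - β ^ 4 * exp (-(β ^ 2 * y ^ 2)))) := by
    ring
  have h3 : 4 * exp (-3) * (β ^ 2 * y ^ 2 * y ^ 2 * (β * y - y) ^ 2)
      = (y ^ 6 * (β - 1)) * (4 * exp (-3) * β ^ 2 * (β - 1)) := by ring
  rw [h2, h3]
  exact mul_le_mul_of_nonneg_left key (by positivity)

theorem hc_one {a b : ℝ} (ha : 0 ≤ a) (hb : 0 ≤ b) :
    (a - b) * (b ^ 2 * exp (-b) - a ^ 2 * exp (-a))
      ≤ 4 * exp (-3) * (a * b * (sqrt a - sqrt b) ^ 2) := by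
  have hea := exp_pos (-a)
  have heb := exp_pos (-b)
  rcases eq_or_lt_of_le ha with ha0 | ha0
  · subst ha0
    have : 0 ≤ b * (b ^ 2 * exp (-b)) := by positivity
    simp only [zero_sub, neg_zero, exp_zero, zero_mul, mul_zero]
    nlinarith
  rcases eq_or_lt_of_le hb with hb0 | hb0
  · subst hb0
    have : 0 ≤ a * (a ^ 2 * exp (-a)) := by positivity
    simp only [sub_zero, neg_zero, exp_zero, zero_mul, mul_zero]
    nlinarith
  rcases lt_trichotomy a b with h | h | h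
  · have := hc_ord (sqrt_pos.mpr ha0) (sqrt_lt_sqrt ha h)
    rw [sq_sqrt ha, sq_sqrt hb] at this
    calc (a - b) * (b ^ 2 * exp (-b) - a ^ 2 * exp (-a))
        = (b - a) * (a ^ 2 * exp (-a) - b ^ 2 * exp (-b)) := by ring
      _ ≤ 4 * exp (-3) * (b * a * (sqrt b - sqrt a) ^ 2) := this
      _ = 4 * exp (-3) * (a * b * (sqrt a - sqrt b) ^ 2) := by ring
  · subst h; simp
  · have := hc_ord (sqrt_pos.mpr hb0) (sqrt_lt_sqrt hb h)
    rw [sq_sqrt ha, sq_sqrt hb] at this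
    exact this

theorem hardcut {a b s : ℝ} (ha : 0 ≤ a) (hb : 0 ≤ b) (hs : 0 < s) :
    (a - b) * (b ^ 2 * exp (-(b * s)) - a ^ 2 * exp (-(a * s)))
      ≤ 4 * exp (-3) * (a * b * (sqrt a - sqrt b) ^ 2) := by
  have h := hc_one (mul_nonneg ha hs.le) (mul_nonneg hb hs.le)
  rw [sqrt_mul ha, sqrt_mul hb] at h
  have hss : sqrt s ^ 2 = s := sq_sqrt hs.le
  have e1 : (a * s - b * s) * ((b * s) ^ 2 * exp (-(b * s)) - (a * s) ^ 2 * exp (-(a * s)))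
      = s ^ 3 * ((a - b) * (b ^ 2 * exp (-(b * s)) - a ^ 2 * exp (-(a * s)))) := by ring
  have e2 : 4 * exp (-3) * (a * s * (b * s) * (sqrt a * sqrt s - sqrt b * sqrt s) ^ 2)
      = s ^ 3 * (4 * exp (-3) * (a * b * (sqrt a - sqrt b) ^ 2)) := by
    have : (sqrt a * sqrt s - sqrt b * sqrt s) ^ 2 = sqrt s ^ 2 * (sqrt a - sqrt b) ^ 2 := by ring
    rw [this, hss]; ring
  rw [e1, e2] at h
  exact le_of_mul_le_mul_left h (by positivity)

end Pool.Agent.H75.LO
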