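import Pool.Agent.H75.LO.GauB
import Pool.Agent.H75.LO.Hc

/-!
# LO-PLb: `(P_l)` for `4 ≤ l ≤ 9` (all `l ≥ 4`), `y = 59`, from the sharp-cutoff inequality

Substituting `t = σ/m`: `Y l m r = ∫_0^∞ (σ^l/l!) e^{-σ} (2πσ)^{-3/2} m² e^{-m r²/(2σ)} dσ` for `m > 0` (and `Y l 0 r = 0`).
`hardcut` with `s = r²/(2σ)`, integrated:
`a Y(b) + b Y(a) ≤ a Y(a) + b Y(b) + 4e^{-3}(2π)^{-3/2} (Γ(l-1/2)/l!) a b (√a-√b)²`, and
`4e^{-3}(2π)^{-3/2} Γ(l-1/2)/l! ≤ 59^{-3/2} = 0.0022066` for `l ≥ 4` (`l = 4`: `0.0017509`; decreasing in `l`).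
(`e^{-3} < 0.0498`, `Γ(7/2) = 15√π/8`, `(2π)^{-3/2} ≤ 0.0635`.)
-/

open MeasureTheory Set
open scoped ENNReal

namespace Pool.Agent.H75.LO

noncomputable def plbW (l : ℕ) (σ : ℝ) : ℝ :=
  σ ^ l / (l.factorial : ℝ) * Real.exp (-σ) * (2 * Real.pi * σ) ^ (-(3 / 2) : ℝ)

lemma plbW_nonneg (l : ℕ) {σ : ℝ} (hσ : 0 < σ) : 0 ≤ plbW l σ := by
  unfold plbW
  have := Real.pi_pos
  positivity

lemma plbW_meas (l : ℕ) : Measurable (plbW l) := by
  unfold plbW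
  fun_prop

lemma plb_subst {m : ℝ} (hm : 0 < m) (f : ℝ → ℝ≥0∞) :
    ∫⁻ t in Ioi (0 : ℝ), f t =
      ∫⁻ σ in Ioi (0 : ℝ), ENNReal.ofReal m⁻¹ * f (m⁻¹ * σ) := by
  have himg : (fun σ : ℝ => m⁻¹ * σ) '' Ioi 0 = Ioi 0 := by
    ext t
    constructor
    · rintro ⟨σ, hσ, rfl⟩
      exact mul_pos (inv_pos.2 hm) hσ
    · intro ht
      exact ⟨m * t, mul_pos hm ht, by field_simp⟩
  have h := lintegral_image_eq_lintegral_abs_deriv_mul (s := Ioi (0 : ℝ)) measurableSet_Ioi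
    (f := fun σ : ℝ => m⁻¹ * σ) (f' := fun _ => m⁻¹)
    (fun x _ => by simpa using ((hasDerivAt_id x).const_mul m⁻¹).hasDerivWithinAt)
    (fun x _ y _ h => by
      have hne : m⁻¹ ≠ 0 := (inv_pos.2 hm).ne'
      exact mul_left_cancel₀ hne h) f
  rw [himg] at h
  rw [h, abs_of_pos (inv_pos.2 hm)]

lemma plb_real {l : ℕ} {m σ r : ℝ} (hm : 0 < m) (hσ : 0 < σ) :
    m ^ (3 / 2 : ℝ) * m ^ l * (m⁻¹ * ((m⁻¹ * σ) ^ l / (l.factorial : ℝ) *
      Real.exp (-(m * (m⁻¹ * σ))) * heatR (m⁻¹ * σ) r)) =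
    plbW l σ * (m ^ 2 * Real.exp (-(m * (r ^ 2 / (2 * σ))))) := by
  have hpi := Real.pi_pos
  have e1 : (2 * Real.pi * (m⁻¹ * σ)) ^ (-(3 / 2) : ℝ) =
      (2 * Real.pi * σ) ^ (-(3 / 2) : ℝ) * m ^ (3 / 2 : ℝ) := by
    have h1 : 2 * Real.pi * (m⁻¹ * σ) = (2 * Real.pi * σ) * m⁻¹ := by ring
    rw [h1, Real.mul_rpow (by positivity) (by positivity)]
    congr 1
    rw [Real.inv_rpow hm.le, Real.rpow_neg hm.le, inv_inv]
  have e2 : r ^ 2 / (2 * (m⁻¹ * σ)) = m * (r ^ 2 / (2 * σ)) := by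
    field_simp
  have e3 : m ^ (3 / 2 : ℝ) * m ^ (3 / 2 : ℝ) = m ^ 3 := by
    rw [← Real.rpow_add hm, ← Real.rpow_natCast]
    norm_num
  have e4 : m * (m⁻¹ * σ) = σ := by field_simp
  have hml : m ^ l ≠ 0 := (pow_pos hm l).ne'
  unfold heatR plbW
  rw [e1, e2, e4, mul_pow, inv_pow]
  have h5 : m ^ (3 / 2 : ℝ) * m ^ l * (m⁻¹ * ((m ^ l)⁻¹ * σ ^ l / (l.factorial : ℝ) *
      Real.exp (-σ) * ((2 * Real.pi * σ) ^ (-(3 / 2) : ℝ) * m ^ (3 / 2 : ℝ) *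
        Real.exp (-(m * (r ^ 2 / (2 * σ))))))) =
      (m ^ (3 / 2 : ℝ) * m ^ (3 / 2 : ℝ)) * (m ^ l * (m ^ l)⁻¹) * m⁻¹ *
        (σ ^ l / (l.factorial : ℝ) * Real.exp (-σ) * (2 * Real.pi * σ) ^ (-(3 / 2) : ℝ)) *
        Real.exp (-(m * (r ^ 2 / (2 * σ)))) := by ring
  rw [h5, e3, mul_inv_cancel₀ hml]
  have h6 : m ^ 3 * 1 * m⁻¹ = m ^ 2 := by field_simp
  rw [h6]
  ring

noncomputable def plbF (l : ℕ) (m r σ : ℝ) : ℝ :=
  plbW l σ * (m ^ 2 * Real.exp (-(m * (r ^ 2 / (2 * σ)))))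

lemma plbF_meas (l : ℕ) (m r : ℝ) : Measurable (plbF l m r) := by
  unfold plbF
  have := plbW_meas l
  fun_prop

lemma plbF_nonneg (l : ℕ) (m r : ℝ) {σ : ℝ} (hσ : 0 < σ) : 0 ≤ plbF l m r σ := by
  unfold plbF
  have := plbW_nonneg l hσ
  positivity

lemma plb_Y (l : ℕ) {m r : ℝ} (hm : 0 ≤ m) :
    Y l m r = ∫⁻ σ in Ioi (0 : ℝ), ENNReal.ofReal (plbF l m r σ) := by
  rcases hm.eq_or_lt with h0 | hm
  · subst h0
    have h1 : Y l 0 r = 0 := by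
      unfold Y
      rw [Real.zero_rpow (by norm_num)]
      simp
    rw [h1]
    symm
    simp [plbF]
  · unfold Y gr
    rw [plb_subst hm, ← lintegral_const_mul' _ _ ENNReal.ofReal_ne_top]
    refine setLIntegral_congr_fun measurableSet_Ioi fun σ hσ => ?_
    have hσ' : (0 : ℝ) < σ := hσ
    have hm' : (0 : ℝ) < m⁻¹ := inv_pos.2 hm
    rw [← ENNReal.ofReal_mul hm'.le, ← ENNReal.ofReal_mul (by positivity)]
    congr 1
    rw [plb_real hm hσ']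
    rfl

lemma plb_mass {l : ℕ} (hl : 4 ≤ l) : ∫⁻ σ in Ioi (0 : ℝ), ENNReal.ofReal (plbW l σ) =
    ENNReal.ofReal ((2 * Real.pi) ^ (-(3 / 2) : ℝ) / (l.factorial : ℝ) *
      Real.Gamma ((l : ℝ) - 1 / 2)) := by
  have hl' : (4 : ℝ) ≤ l := by exact_mod_cast hl
  have hs : (0 : ℝ) < (l : ℝ) - 1 / 2 := by linarith
  have hpi := Real.pi_pos
  have hc : (0 : ℝ) ≤ (2 * Real.pi) ^ (-(3 / 2) : ℝ) / (l.factorial : ℝ) := by positivity
  have h1 : ∀ σ ∈ Ioi (0 : ℝ), plbW l σ = (2 * Real.pi) ^ (-(3 / 2) : ℝ) / (l.factorial : ℝ) *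
      (Real.exp (-σ) * σ ^ ((l : ℝ) - 1 / 2 - 1)) := by
    intro σ hσ
    have hσ' : (0 : ℝ) < σ := hσ
    unfold plbW
    rw [Real.mul_rpow (by positivity) hσ'.le]
    have h2 : σ ^ ((l : ℝ) - 1 / 2 - 1) = σ ^ l * σ ^ (-(3 / 2) : ℝ) := by
      rw [← Real.rpow_natCast σ l, ← Real.rpow_add hσ']
      congr 1
      ring
    rw [h2]
    ring
  have h3 : ∫⁻ σ in Ioi (0 : ℝ), ENNReal.ofReal (plbW l σ) =
      ∫⁻ σ in Ioi (0 : ℝ), ENNReal.ofReal ((2 * Real.pi) ^ (-(3 / 2) : ℝ) / (l.factorial : ℝ) *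
      (Real.exp (-σ) * σ ^ ((l : ℝ) - 1 / 2 - 1))) :=
    setLIntegral_congr_fun measurableSet_Ioi fun σ hσ => by simp only [h1 σ hσ]
  rw [h3, Real.Gamma_eq_integral hs, ← integral_const_mul]
  rw [ofReal_integral_eq_lintegral_ofReal]
  · exact (Real.GammaIntegral_convergent hs).const_mul _
  · refine (ae_restrict_iff' measurableSet_Ioi).2 (Filter.Eventually.of_forall fun σ hσ => ?_)
    have hσ' : (0 : ℝ) < σ := hσ
    simp only [Pi.zero_apply]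
    positivity

lemma plb_Gamma {l : ℕ} (hl : 4 ≤ l) :
    Real.Gamma ((l : ℝ) - 1 / 2) / (l.factorial : ℝ) ≤ 15 * Real.sqrt Real.pi / 8 / 24 := by
  induction l, hl using Nat.le_induction with
  | base =>
    have h1 : Real.Gamma (((4 : ℕ) : ℝ) - 1 / 2) = 15 * Real.sqrt Real.pi / 8 := by
      have e1 : (((4 : ℕ) : ℝ) - 1 / 2) = (1 / 2 + 1 + 1) + 1 := by norm_num
      rw [e1, Real.Gamma_add_one (by norm_num), Real.Gamma_add_one (by norm_num),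
        Real.Gamma_add_one (by norm_num), Real.Gamma_one_half_eq]
      ring
    rw [h1]
    norm_num [Nat.factorial]
  | succ l hl ih =>
    have hl' : (4 : ℝ) ≤ l := by exact_mod_cast hl
    have e1 : (((l + 1 : ℕ) : ℝ) - 1 / 2) = ((l : ℝ) - 1 / 2) + 1 := by
      push_cast
      ring
    have hpos : 0 < Real.Gamma ((l : ℝ) - 1 / 2) := Real.Gamma_pos_of_pos (by linarith)
    have hf : (0 : ℝ) < (l.factorial : ℝ) := by positivity
    rw [e1, Real.Gamma_add_one (by linarith), Nat.factorial_succ]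
    push_cast
    refine le_trans ?_ ih
    rw [div_le_div_iff₀ (by positivity) hf]
    have h2 : ((l : ℝ) - 1 / 2) ≤ (l : ℝ) + 1 := by linarith
    have h3 : 0 < Real.Gamma ((l : ℝ) - 1 / 2) * (l.factorial : ℝ) := mul_pos hpos hf
    nlinarith

lemma plb_num : 4 * Real.exp (-3) * ((2 * Real.pi) ^ (-(3 / 2) : ℝ) *
    (15 * Real.sqrt Real.pi / 8 / 24)) ≤ (59 : ℝ) ^ (-(3 / 2) : ℝ) := by
  have hpi := Real.pi_pos
  have hpi3 := Real.pi_gt_d2
  have he : Real.exp (-3) ≤ 1 / 20 := by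
    have h1 := Real.exp_one_gt_d9
    have h2 : Real.exp 3 = Real.exp 1 ^ 3 := by
      rw [← Real.exp_nat_mul]
      norm_num
    have h3 : (20 : ℝ) ≤ Real.exp 3 := by
      rw [h2]
      calc (20 : ℝ) ≤ 2.7182818283 ^ 3 := by norm_num
        _ ≤ Real.exp 1 ^ 3 := pow_le_pow_left₀ (by norm_num) h1.le 3
    rw [Real.exp_neg, one_div]
    exact inv_anti₀ (by norm_num) h3
  have hx : (22 : ℝ) / 10000 ≤ (59 : ℝ) ^ (-(3 / 2) : ℝ) := by
    have h1 : (59 : ℝ) ^ (-(3 / 2) : ℝ) * (59 : ℝ) ^ (-(3 / 2) : ℝ) = ((59 : ℝ) ^ 3)⁻¹ := by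
      rw [← Real.rpow_add (by norm_num), ← Real.rpow_natCast, ← Real.rpow_neg (by norm_num)]
      norm_num
    have h2 : 0 < (59 : ℝ) ^ (-(3 / 2) : ℝ) := by positivity
    by_contra hcon
    push Not at hcon
    have h3 : (59 : ℝ) ^ (-(3 / 2) : ℝ) * (59 : ℝ) ^ (-(3 / 2) : ℝ) <
        22 / 10000 * (22 / 10000) := by nlinarith
    rw [h1] at h3
    norm_num at h3
  have hc : (2 * Real.pi) ^ (-(3 / 2) : ℝ) * Real.sqrt Real.pi ≤ 12 / 100 := by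
    have h1 : ((2 * Real.pi) ^ (-(3 / 2) : ℝ)) * ((2 * Real.pi) ^ (-(3 / 2) : ℝ)) =
        ((2 * Real.pi) ^ 3)⁻¹ := by
      rw [← Real.rpow_add (by positivity), ← Real.rpow_natCast, ← Real.rpow_neg (by positivity)]
      norm_num
    have h2 : 0 < (2 * Real.pi) ^ (-(3 / 2) : ℝ) := by positivity
    have h3 : 0 < Real.sqrt Real.pi := Real.sqrt_pos.2 hpi
    have h4 : Real.sqrt Real.pi * Real.sqrt Real.pi = Real.pi := Real.mul_self_sqrt hpi.le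
    have h5 : ((2 * Real.pi) ^ (-(3 / 2) : ℝ) * Real.sqrt Real.pi) ^ 2 =
        (8 * Real.pi ^ 2)⁻¹ := by
      have : ((2 * Real.pi) ^ (-(3 / 2) : ℝ) * Real.sqrt Real.pi) ^ 2 =
        (((2 * Real.pi) ^ (-(3 / 2) : ℝ)) * ((2 * Real.pi) ^ (-(3 / 2) : ℝ))) *
          (Real.sqrt Real.pi * Real.sqrt Real.pi) := by ring
      rw [this, h1, h4]
      field_simp
      ring
    have h6 : (8 * Real.pi ^ 2)⁻¹ ≤ (12 / 100) ^ 2 := by
      rw [inv_le_comm₀ (by positivity) (by positivity)]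
      norm_num
      nlinarith
    have h7 : ((2 * Real.pi) ^ (-(3 / 2) : ℝ) * Real.sqrt Real.pi) ^ 2 ≤ (12 / 100) ^ 2 := by
      rw [h5]
      exact h6
    exact (pow_le_pow_iff_left₀ (by positivity) (by norm_num) two_ne_zero).1 h7
  have hp : 0 ≤ (2 * Real.pi) ^ (-(3 / 2) : ℝ) * Real.sqrt Real.pi := by positivity
  have he0 := Real.exp_pos (-3)
  calc 4 * Real.exp (-3) * ((2 * Real.pi) ^ (-(3 / 2) : ℝ) *
      (15 * Real.sqrt Real.pi / 8 / 24))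
      = (15 / 48) * (Real.exp (-3) * ((2 * Real.pi) ^ (-(3 / 2) : ℝ) * Real.sqrt Real.pi)) := by
        ring
    _ ≤ (15 / 48) * ((1 / 20) * (12 / 100)) := by
        refine mul_le_mul_of_nonneg_left ?_ (by norm_num)
        exact mul_le_mul he hc hp (by norm_num)
    _ ≤ 22 / 10000 := by norm_num
    _ ≤ _ := hx

theorem PL_large {l : ℕ} (hl : 4 ≤ l) : PL l 59 := by
  intro a b r ha hb hr
  have hpi := Real.pi_pos
  rw [plb_Y l ha, plb_Y l hb]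
  set X : ℝ := a * b * (Real.sqrt a - Real.sqrt b) ^ 2 with hX
  have hX0 : 0 ≤ X := by positivity
  have hK0 : 0 ≤ 4 * Real.exp (-3) * X := by positivity
  have hFa := (plbF_meas l a r).ennreal_ofReal
  have hFb := (plbF_meas l b r).ennreal_ofReal
  have hW := (plbW_meas l).ennreal_ofReal
  have hkey : (∫⁻ σ in Ioi (0 : ℝ), (ENNReal.ofReal a * ENNReal.ofReal (plbF l b r σ) +
      ENNReal.ofReal b * ENNReal.ofReal (plbF l a r σ))) ≤
      ∫⁻ σ in Ioi (0 : ℝ), ((ENNReal.ofReal a * ENNReal.ofReal (plbF l a r σ) +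
        ENNReal.ofReal b * ENNReal.ofReal (plbF l b r σ)) +
        ENNReal.ofReal (4 * Real.exp (-3) * X) * ENNReal.ofReal (plbW l σ)) := by
    refine setLIntegral_mono' measurableSet_Ioi fun σ hσ => ?_
    have hσ' : (0 : ℝ) < σ := hσ
    have hs : 0 < r ^ 2 / (2 * σ) := by positivity
    have h1 := hardcut ha hb hs
    have hW0 := plbW_nonneg l hσ'
    have hA0 := plbF_nonneg l a r hσ'
    have hB0 := plbF_nonneg l b r hσ'
    rw [← ENNReal.ofReal_mul ha, ← ENNReal.ofReal_mul hb, ← ENNReal.ofReal_mul ha,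
      ← ENNReal.ofReal_mul hb, ← ENNReal.ofReal_mul hK0,
      ← ENNReal.ofReal_add (by positivity) (by positivity),
      ← ENNReal.ofReal_add (by positivity) (by positivity),
      ← ENNReal.ofReal_add (by positivity) (by positivity)]
    refine ENNReal.ofReal_le_ofReal ?_
    have h2 := mul_le_mul_of_nonneg_left h1 hW0
    unfold plbF
    rw [← hX] at h2
    nlinarith [h2]
  have hL : (∫⁻ σ in Ioi (0 : ℝ), (ENNReal.ofReal a * ENNReal.ofReal (plbF l b r σ) +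
      ENNReal.ofReal b * ENNReal.ofReal (plbF l a r σ))) =
      ENNReal.ofReal a * (∫⁻ σ in Ioi (0 : ℝ), ENNReal.ofReal (plbF l b r σ)) +
      ENNReal.ofReal b * (∫⁻ σ in Ioi (0 : ℝ), ENNReal.ofReal (plbF l a r σ)) := by
    rw [lintegral_add_left (hFb.const_mul _), lintegral_const_mul _ hFb,
      lintegral_const_mul _ hFa]
  have hR : (∫⁻ σ in Ioi (0 : ℝ), ((ENNReal.ofReal a * ENNReal.ofReal (plbF l a r σ) +
        ENNReal.ofReal b * ENNReal.ofReal (plbF l b r σ)) +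
        ENNReal.ofReal (4 * Real.exp (-3) * X) * ENNReal.ofReal (plbW l σ))) =
      ENNReal.ofReal a * (∫⁻ σ in Ioi (0 : ℝ), ENNReal.ofReal (plbF l a r σ)) +
      ENNReal.ofReal b * (∫⁻ σ in Ioi (0 : ℝ), ENNReal.ofReal (plbF l b r σ)) +
      ENNReal.ofReal (4 * Real.exp (-3) * X) *
        (∫⁻ σ in Ioi (0 : ℝ), ENNReal.ofReal (plbW l σ)) := by
    have hm : Measurable (fun σ : ℝ => ENNReal.ofReal a * ENNReal.ofReal (plbF l a r σ) +
        ENNReal.ofReal b * ENNReal.ofReal (plbF l b r σ)) :=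
      (hFa.const_mul _).add (hFb.const_mul _)
    rw [lintegral_add_left hm, lintegral_add_left (hFa.const_mul _), lintegral_const_mul _ hFa,
      lintegral_const_mul _ hFb, lintegral_const_mul _ hW]
  rw [← hL]
  refine hkey.trans ?_
  rw [hR]
  refine add_le_add le_rfl ?_
  rw [plb_mass hl, ← ENNReal.ofReal_mul hK0]
  refine ENNReal.ofReal_le_ofReal ?_
  have h3 := plb_Gamma hl
  have h4 := plb_num
  have h5 : 0 ≤ (2 * Real.pi) ^ (-(3 / 2) : ℝ) := by positivity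
  have he0 := Real.exp_pos (-3)
  calc 4 * Real.exp (-3) * X * ((2 * Real.pi) ^ (-(3 / 2) : ℝ) / (l.factorial : ℝ) *
      Real.Gamma ((l : ℝ) - 1 / 2))
      = (4 * Real.exp (-3) * ((2 * Real.pi) ^ (-(3 / 2) : ℝ) *
        (Real.Gamma ((l : ℝ) - 1 / 2) / (l.factorial : ℝ)))) * X := by ring
    _ ≤ (4 * Real.exp (-3) * ((2 * Real.pi) ^ (-(3 / 2) : ℝ) *
        (15 * Real.sqrt Real.pi / 8 / 24))) * X := by
        refine mul_le_mul_of_nonneg_right ?_ hX0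
        refine mul_le_mul_of_nonneg_left ?_ (by positivity)
        exact mul_le_mul_of_nonneg_left h3 h5
    _ ≤ (59 : ℝ) ^ (-(3 / 2) : ℝ) * X := mul_le_mul_of_nonneg_right h4 hX0

end Pool.Agent.H75.LO
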