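import Pool.Agent.H75.LO.RJ

/-!
# LO-Psd: `(R v)^{2q} G0` as an integral of squares

`(Rv)^{2q} G0 = (Rv)^q (Rv)^q G0`, `(Rv)^q G0` is symmetric (`it_G0_symm`), so
`it RV (2q) G0 x y = ∫ ((Rv)^q)(x,·) [(Rv)^q G0](y, ·)` etc. In detail:
`G0 a b = ∫_{t>0} h_t(a,b) dt = ∫_{t>0} ∫_w h_{t/2}(a,w) h_{t/2}(w,b) dw dt` (`gk_eq` with `l=m=0`, `heat_comp`).
Hence `it RV q G0 a b = ∫_t∫_w Φ_{t,w}(a) h_{t/2}(w,b)`, `Φ_{t,w} = it RV q (heat (t/2)) · w`
(linearity of `it RV q` under integrals: Tonelli by induction), and with symmetry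
`it RV (2q) G0 x y = it RV q (it RV q G0) x y`; as function of the first variable, for fixed `y`,
`(it RV q G0) a y = (it RV q G0) y a = ∫_t∫_w Φ_{t,w}(y) h_{t/2}(a,w)`; apply `it RV q` in `a`.
-/

open MeasureTheory Set
open scoped ENNReal

namespace Pool.Agent.H75.LO

variable {Λ : ℝ} {v : E3 → ℝ}

/-- the factor `Φ_{t,w}(x)` -/
noncomputable def Phi (Λ : ℝ) (v : E3 → ℝ) (q : ℕ) (p : ℝ × E3) (x : E3) : ℝ≥0∞ :=
  it (RV Λ v) q (heat (p.1 / 2)) x p.2

theorem Phi_succ (q : ℕ) (p : ℝ × E3) (x : E3) :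
    Phi Λ v (q + 1) p x = ∫⁻ z, RV Λ v x z * Phi Λ v q p z := by
  unfold Phi
  rw [it_succ]
  rfl

theorem Phi_meas (hv : Pot Λ v) (q : ℕ) :
    Measurable (fun s : (ℝ × E3) × E3 => Phi Λ v q s.1 s.2) := by
  induction q with
  | zero =>
    have h : (fun s : (ℝ × E3) × E3 => Phi Λ v 0 s.1 s.2) =
        fun s : (ℝ × E3) × E3 => heat (s.1.1 / 2) s.2 s.1.2 := by
      funext s
      unfold Phi
      rw [it_zero]
    rw [h]
    have h2 : Measurable (fun s : (ℝ × E3) × E3 => ((s.1.1 / 2, s.2, s.1.2) : ℝ × E3 × E3)) := by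
      fun_prop
    have h3 := Measurable.comp measurable_heat h2
    simp only [Function.comp_def] at h3
    exact h3
  | succ q ih =>
    simp only [Phi_succ]
    refine Measurable.lintegral_prod_right' (f := fun (r : ((ℝ × E3) × E3) × E3) =>
      RV Λ v r.1.2 r.2 * Phi Λ v q r.1.1 r.2) ?_
    have hK : Measurable (fun r : ((ℝ × E3) × E3) × E3 => RV Λ v r.1.2 r.2) := by
      have h1 : Measurable (fun r : ((ℝ × E3) × E3) × E3 => ((r.1.2, r.2) : E3 × E3)) := by
        fun_prop
      have h3 := Measurable.comp (RV_meas hv) h1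
      simp only [Function.comp_def] at h3
      exact h3
    have hP : Measurable (fun r : ((ℝ × E3) × E3) × E3 => Phi Λ v q r.1.1 r.2) := by
      have h1 : Measurable (fun r : ((ℝ × E3) × E3) × E3 => ((r.1.1, r.2) : (ℝ × E3) × E3)) := by
        fun_prop
      have h3 := Measurable.comp ih h1
      simp only [Function.comp_def] at h3
      exact h3
    exact hK.mul hP

theorem Phi_meas_left (hv : Pot Λ v) (q : ℕ) (x : E3) :
    Measurable (fun p : ℝ × E3 => Phi Λ v q p x) := by
  have h2 : Measurable (fun p : ℝ × E3 => ((p, x) : (ℝ × E3) × E3)) := by fun_prop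
  have h3 := Measurable.comp (Phi_meas hv q) h2
  simp only [Function.comp_def] at h3
  exact h3

theorem Phi_meas_right (hv : Pot Λ v) (q : ℕ) (p : ℝ × E3) :
    Measurable (fun z : E3 => Phi Λ v q p z) := by
  have h2 : Measurable (fun z : E3 => ((p, z) : (ℝ × E3) × E3)) := by fun_prop
  have h3 := Measurable.comp (Phi_meas hv q) h2
  simp only [Function.comp_def] at h3
  exact h3

/-- the measure -/
noncomputable abbrev muP : Measure (ℝ × E3) := (volume.restrict (Ioi (0 : ℝ))).prod volume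

/-- linearity of `it RV n` under the integral -/
theorem it_integral (hv : Pot Λ v) (F : Ker) (y : E3) (g : ℝ × E3 → ℝ≥0∞) (hg : Measurable g)
    (hF : ∀ x, F x y = ∫⁻ p, Phi Λ v 0 p x * g p ∂muP) (n : ℕ) :
    ∀ x, it (RV Λ v) n F x y = ∫⁻ p, Phi Λ v n p x * g p ∂muP := by
  induction n with
  | zero =>
    intro x
    rw [it_zero]
    exact hF x
  | succ n ih =>
    intro x
    rw [it_succ]
    have hPm := Phi_meas hv n
    have hK : Measurable (fun z => RV Λ v x z) := (RV_meas hv).right x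
    have h1 : comp (RV Λ v) (it (RV Λ v) n F) x y =
        ∫⁻ z, ∫⁻ p, RV Λ v x z * (Phi Λ v n p z * g p) ∂muP := by
      unfold comp
      refine lintegral_congr fun z => ?_
      rw [ih z, lintegral_const_mul]
      exact (Phi_meas_left hv n z).mul hg
    rw [h1, lintegral_lintegral_swap]
    · refine lintegral_congr fun p => ?_
      rw [Phi_succ, ← lintegral_mul_const]
      · refine lintegral_congr fun z => ?_
        rw [mul_assoc]
      · exact hK.mul (Phi_meas_right hv n p)
    · have h3 : Measurable (fun r : E3 × (ℝ × E3) => ((r.2, r.1) : (ℝ × E3) × E3)) := by fun_prop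
      have h5 := Measurable.comp hPm h3
      simp only [Function.comp_def] at h5
      have h6 : Measurable (fun r : E3 × (ℝ × E3) => RV Λ v x r.1) := by
        have h9 : Measurable (fun r : E3 × (ℝ × E3) => r.1) := measurable_fst
        have h7 := Measurable.comp hK h9
        simp only [Function.comp_def] at h7
        exact h7
      have h8 : Measurable (fun r : E3 × (ℝ × E3) => g r.2) := hg.comp measurable_snd
      have h4 : Measurable (fun r : E3 × (ℝ × E3) =>
          RV Λ v x r.1 * (Phi Λ v n r.2 r.1 * g r.2)) := h6.mul (h5.mul h8)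
      exact h4.aemeasurable

theorem heat_fac_meas (y : E3) :
    Measurable (fun p : ℝ × E3 => heat (p.1 / 2) p.2 y) := by
  have h2 : Measurable (fun p : ℝ × E3 => ((p.1 / 2, p.2, y) : ℝ × E3 × E3)) := by
    fun_prop
  have h3 := Measurable.comp measurable_heat h2
  simp only [Function.comp_def] at h3
  exact h3

theorem G0_integral (x y : E3) :
    G0 x y = ∫⁻ p, Phi Λ v 0 p x * heat (p.1 / 2) p.2 y ∂muP := by
  have h1 : G0 x y = ∫⁻ t in Ioi (0 : ℝ), heat t x y := by
    unfold G0
    rw [gk_eq]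
    refine lintegral_congr fun t => ?_
    simp
  have h2 : G0 x y = ∫⁻ t in Ioi (0 : ℝ), ∫⁻ w, heat (t / 2) x w * heat (t / 2) w y := by
    rw [h1]
    refine setLIntegral_congr_fun measurableSet_Ioi fun t ht => ?_
    have ht0 : (0 : ℝ) < t := ht
    have ht2 : 0 < t / 2 := by positivity
    have h3 := congrFun (congrFun (heat_comp ht2 ht2) x) y
    rw [add_halves] at h3
    rw [← h3]
    rfl
  rw [h2]
  have h5 : (fun p : ℝ × E3 => Phi Λ v 0 p x * heat (p.1 / 2) p.2 y) =
      fun p : ℝ × E3 => heat (p.1 / 2) x p.2 * heat (p.1 / 2) p.2 y := by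
    funext p
    unfold Phi
    rw [it_zero]
  rw [h5, lintegral_prod]
  have h6 : Measurable (fun p : ℝ × E3 => heat (p.1 / 2) x p.2) := by
    have h7 : Measurable (fun p : ℝ × E3 => ((p.1 / 2, x, p.2) : ℝ × E3 × E3)) := by
      fun_prop
    have h8 := Measurable.comp measurable_heat h7
    simp only [Function.comp_def] at h8
    exact h8
  exact (h6.mul (heat_fac_meas y)).aemeasurable

theorem it_G0_integral (hv : Pot Λ v) (q : ℕ) (x y : E3) :
    it (RV Λ v) q G0 x y = ∫⁻ p, Phi Λ v q p x * heat (p.1 / 2) p.2 y ∂muP :=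
  it_integral hv G0 y _ (heat_fac_meas y) (fun x => G0_integral x y) q x

theorem it_G0_eq (hv : Pot Λ v) (q : ℕ) (x y : E3) :
    it (RV Λ v) (2 * q) G0 x y
      = ∫⁻ p, Phi Λ v q p x * Phi Λ v q p y ∂((volume.restrict (Ioi (0 : ℝ))).prod volume) := by
  rw [two_mul, it_add]
  have hg : Measurable (fun p : ℝ × E3 => Phi Λ v q p y) := Phi_meas_left hv q y
  refine it_integral hv (it (RV Λ v) q G0) y _ hg ?_ q x
  intro a
  rw [it_G0_symm hv q a y, it_G0_integral hv q y a]
  refine lintegral_congr fun p => ?_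
  rw [mul_comm]
  congr 1
  unfold Phi
  rw [it_zero]
  exact heat_symm _ _ _

end Pool.Agent.H75.LO
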