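import Pool.Agent.H75.LO.Defs

/-!
# LO-Sq: positive definiteness against a point process

For each `t`: `S_t(ω) = Σ_i Φ_t(X_i ω)`; `∫ S_t dP = ∫ Φ_t ρ` by `hd`; `(∫ S_t)² ≤ ∫ S_t²` (Cauchy-Schwarz for
`lintegral` on a probability space, e.g. `ENNReal.lintegral_mul_le_Lp_mul_Lq` with `p=q=2`); integrate over `t`
and use Tonelli on both sides.
-/

open MeasureTheory Set
open scoped ENNReal

namespace Pool.Agent.H75.LO

theorem lintegral_sq_le {Ω : Type*} [MeasurableSpace Ω] (P : Measure Ω) [IsProbabilityMeasure P]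
    {f : Ω → ℝ≥0∞} (hf : AEMeasurable f P) : (∫⁻ ω, f ω ∂P) ^ 2 ≤ ∫⁻ ω, f ω ^ 2 ∂P := by
  have h := ENNReal.lintegral_mul_le_Lp_mul_Lq P (p := 2) (q := 2)
    (by constructor <;> norm_num) hf (g := fun _ => (1 : ℝ≥0∞)) aemeasurable_const
  simp only [Pi.mul_apply, mul_one, ENNReal.one_rpow, lintegral_one, measure_univ] at h
  have h2 := ENNReal.rpow_le_rpow h (z := 2) (by norm_num)
  rw [← ENNReal.rpow_mul] at h2
  norm_num at h2
  exact_mod_cast h2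

theorem psd_process {Ω T : Type*} [MeasurableSpace Ω] [MeasurableSpace T]
    (P : Measure Ω) [IsProbabilityMeasure P] (τ : Measure T) [SFinite τ]
    {N : ℕ} (X : Fin N → Ω → E3) (hX : ∀ i, Measurable (X i))
    {ρ : E3 → ℝ≥0∞} (hρ : Measurable ρ)
    (hd : ∀ f : E3 → ℝ≥0∞, Measurable f → ∑ i, ∫⁻ ω, f (X i ω) ∂P = ∫⁻ x, f x * ρ x)
    {Φ : T → E3 → ℝ≥0∞} (hΦ : Measurable (fun s : T × E3 => Φ s.1 s.2)) :
    ∫⁻ x, ∫⁻ y, ρ x * ρ y * ∫⁻ t, Φ t x * Φ t y ∂τ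
      ≤ ∫⁻ ω, ∑ i, ∑ j, ∫⁻ t, Φ t (X i ω) * Φ t (X j ω) ∂τ ∂P := by
  have hΦt : ∀ t, Measurable (Φ t) := fun t => hΦ.comp measurable_prodMk_left
  have hΦx : ∀ x, Measurable (fun t => Φ t x) := fun x => hΦ.comp measurable_prodMk_right
  -- left side as `∫ t, (∫ x, Φ t x * ρ x)^2`
  have hL : ∫⁻ x, ∫⁻ y, ρ x * ρ y * ∫⁻ t, Φ t x * Φ t y ∂τ
      = ∫⁻ t, (∫⁻ x, Φ t x * ρ x) ^ 2 ∂τ := by
    have e1 : ∀ x y, ρ x * ρ y * ∫⁻ t, Φ t x * Φ t y ∂τ
        = ∫⁻ t, (Φ t x * ρ x) * (Φ t y * ρ y) ∂τ := by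
      intro x y
      rw [← lintegral_const_mul (f := fun t => Φ t x * Φ t y) _ ((hΦx x).mul (hΦx y))]
      exact lintegral_congr fun t => by ring
    simp only [e1]
    have e2 : ∀ x, ∫⁻ y, ∫⁻ t, (Φ t x * ρ x) * (Φ t y * ρ y) ∂τ
        = ∫⁻ t, (Φ t x * ρ x) * (∫⁻ y, Φ t y * ρ y) ∂τ := by
      intro x
      rw [lintegral_lintegral_swap]
      · refine lintegral_congr fun t => ?_
        rw [lintegral_const_mul (f := fun y => Φ t y * ρ y) _ ((hΦt t).mul hρ)]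
      · refine Measurable.aemeasurable ?_
        have h1 : Measurable (fun p : E3 × T => Φ p.2 x) :=
          (hΦx x).comp measurable_snd
        have h2 : Measurable (fun p : E3 × T => Φ p.2 p.1) :=
          hΦ.comp (measurable_snd.prodMk measurable_fst)
        exact (h1.mul_const _).mul (h2.mul (hρ.comp measurable_fst))
    simp only [e2]
    rw [lintegral_lintegral_swap]
    · refine lintegral_congr fun t => ?_
      rw [lintegral_mul_const (f := fun x => Φ t x * ρ x) _ ((hΦt t).mul hρ), sq]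
    · refine Measurable.aemeasurable ?_
      have h2 : Measurable (fun p : E3 × T => Φ p.2 p.1) :=
        hΦ.comp (measurable_snd.prodMk measurable_fst)
      have h3 : Measurable (fun t => ∫⁻ y, Φ t y * ρ y) := by
        refine Measurable.lintegral_prod_right' (f := fun p : T × E3 => Φ p.1 p.2 * ρ p.2) ?_
        exact hΦ.mul (hρ.comp measurable_snd)
      exact (h2.mul (hρ.comp measurable_fst)).mul (h3.comp measurable_snd)
  have hR : ∫⁻ ω, ∑ i, ∑ j, ∫⁻ t, Φ t (X i ω) * Φ t (X j ω) ∂τ ∂P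
      = ∫⁻ t, ∫⁻ ω, (∑ i, Φ t (X i ω)) ^ 2 ∂P ∂τ := by
    have e1 : ∀ ω, ∑ i, ∑ j, ∫⁻ t, Φ t (X i ω) * Φ t (X j ω) ∂τ
        = ∫⁻ t, (∑ i, Φ t (X i ω)) ^ 2 ∂τ := by
      intro ω
      have hm : ∀ i j, Measurable (fun t => Φ t (X i ω) * Φ t (X j ω)) := fun i j =>
        (hΦx _).mul (hΦx _)
      have e3 : ∀ t, (∑ i, Φ t (X i ω)) ^ 2 = ∑ i, ∑ j, Φ t (X i ω) * Φ t (X j ω) := by
        intro t
        rw [sq, Finset.sum_mul_sum]
      simp only [e3]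
      rw [lintegral_finsetSum _ (fun i _ => Finset.measurable_sum _ fun j _ => hm i j)]
      refine Finset.sum_congr rfl fun i _ => ?_
      rw [lintegral_finsetSum _ (fun j _ => hm i j)]
    simp only [e1]
    rw [lintegral_lintegral_swap]
    refine Measurable.aemeasurable ?_
    have : Measurable (fun p : Ω × T => ∑ i, Φ p.2 (X i p.1)) :=
      Finset.measurable_sum _ fun i _ =>
        hΦ.comp (measurable_snd.prodMk ((hX i).comp measurable_fst))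
    exact this.pow_const 2
  rw [hL, hR]
  refine lintegral_mono fun t => ?_
  have hS : Measurable (fun ω => ∑ i, Φ t (X i ω)) :=
    Finset.measurable_sum _ fun i _ => (hΦt t).comp (hX i)
  have h1 : ∫⁻ x, Φ t x * ρ x = ∫⁻ ω, ∑ i, Φ t (X i ω) ∂P := by
    rw [← hd _ (hΦt t), lintegral_finsetSum (f := fun i ω => Φ t (X i ω)) _ (fun i _ => (hΦt t).comp (hX i))]
  show (∫⁻ x, Φ t x * ρ x) ^ 2 ≤ ∫⁻ ω, (∑ i, Φ t (X i ω)) ^ 2 ∂P
  rw [h1]
  exact lintegral_sq_le P hS.aemeasurable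

end Pool.Agent.H75.LO
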