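import Pool.Agent.H75.LO.Int
import Pool.Agent.H75.LO.Psd
import Pool.Agent.H75.LO.Sq
import Pool.Agent.H75.LO.PLa
import Pool.Agent.H75.LO.PLb

/-!
# LO-FinB: the inequality for point processes, bounded part of the density

`v x = 59 (ρ x)^{2/3}` on `E`, `0` off `E`, `Λ = 59 (|B|+1)^{2/3}`. Then `(v/59)^{3/2} = ρ 1_E`, `∫ v² = 59² ∫_E ρ^{4/3}`.
With `K(x,y) = (RV)^{10} G0(x,y) = ∫ Φ_p(x) Φ_p(y)` (`it_G0_eq`, `q = 5`):
`∬_{E×E} ρρ G0 = Σ_{j<10} ∬ Rj ρρ + ∬_{E×E} ρρ K` (`G0_decomp`), and by `psd_process` with `1_E Φ_p`: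
`∬_{E×E} ρρK ≤ E Σ_{i,j} 1_E(X_i)1_E(X_j)K(X_i,X_j) ≤ E Σ_{i≠j} G0(X_i,X_j) + ∫_E ρ(x)K(x,x)dx` (`RV_G0_le`; for `i = j` use `hd`).
`integ` (with `PL_all`) bounds the rest by `((10/59 + alpha 10 √59)/59²) ∫ v²`. Multiply by `2π`: `2π G0 x y = (ofReal ‖x-y‖)⁻¹` (`G0_eq`).
-/

open MeasureTheory Set
open scoped ENNReal

namespace Pool.Agent.H75.LO

theorem PL_all {l : ℕ} : PL l 59 := by
  rcases Nat.lt_or_ge l 4 with h | h
  · interval_cases l
    · exact PL_zero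
    · exact PL_one
    · exact PL_two
    · exact PL_three
  · exact PL_large h

/-- the potential `59 ρ^{2/3}` on `E` -/
noncomputable def finBv (ρ : E3 → ℝ≥0∞) (E : Set E3) : E3 → ℝ :=
  E.indicator (fun x => 59 * (ρ x).toReal ^ (2 / 3 : ℝ))

theorem finB_pot {ρ : E3 → ℝ≥0∞} (hρ : Measurable ρ) {E : Set E3} (hE : MeasurableSet E) {B : ℝ}
    (hB : ∀ x ∈ E, ρ x ≤ ENNReal.ofReal B) :
    Pot (59 * (|B| + 1) ^ (2 / 3 : ℝ)) (finBv ρ E) := by
  have h1 : (0 : ℝ) < |B| + 1 := by positivity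
  refine ⟨by positivity, ?_, ?_, ?_⟩
  · exact (measurable_const.mul (hρ.ennreal_toReal.pow_const _)).indicator hE
  · intro z
    exact Set.indicator_nonneg (fun x _ => by positivity) z
  · intro z
    unfold finBv
    by_cases hz : z ∈ E
    · rw [Set.indicator_of_mem hz]
      refine mul_le_mul_of_nonneg_left ?_ (by norm_num)
      refine Real.rpow_le_rpow ENNReal.toReal_nonneg ?_ (by norm_num)
      have h2 := ENNReal.toReal_mono ENNReal.ofReal_ne_top (hB z hz)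
      rw [ENNReal.toReal_ofReal'] at h2
      have h3 : max B 0 ≤ |B| := max_le (le_abs_self B) (abs_nonneg B)
      linarith
    · rw [Set.indicator_of_notMem hz]
      positivity

theorem finB_rho {ρ : E3 → ℝ≥0∞} {E : Set E3} (hf : ∀ x ∈ E, ρ x ≠ ∞) (x : E3) :
    ENNReal.ofReal ((finBv ρ E x / 59) ^ (3 / 2 : ℝ)) = E.indicator ρ x := by
  unfold finBv
  by_cases hx : x ∈ E
  · rw [Set.indicator_of_mem hx, Set.indicator_of_mem hx]
    have h1 : 59 * (ρ x).toReal ^ (2 / 3 : ℝ) / 59 = (ρ x).toReal ^ (2 / 3 : ℝ) := by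
      field_simp
    rw [h1, ← Real.rpow_mul ENNReal.toReal_nonneg]
    have h2 : (2 / 3 : ℝ) * (3 / 2) = 1 := by norm_num
    rw [h2, Real.rpow_one]
    exact ENNReal.ofReal_toReal (hf x hx)
  · rw [Set.indicator_of_notMem hx, Set.indicator_of_notMem hx, zero_div,
      Real.zero_rpow (by norm_num), ENNReal.ofReal_zero]

theorem finB_sq {ρ : E3 → ℝ≥0∞} {E : Set E3} (hf : ∀ x ∈ E, ρ x ≠ ∞) (x : E3) :
    ENNReal.ofReal (finBv ρ E x ^ 2) =
      ENNReal.ofReal (59 ^ 2) * E.indicator (fun x => ρ x ^ (4 / 3 : ℝ)) x := by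
  unfold finBv
  by_cases hx : x ∈ E
  · rw [Set.indicator_of_mem hx, Set.indicator_of_mem hx, mul_pow,
      ENNReal.ofReal_mul (by positivity)]
    congr 1
    have h1 : ((ρ x).toReal ^ (2 / 3 : ℝ)) ^ 2 = (ρ x).toReal ^ (4 / 3 : ℝ) := by
      rw [← Real.rpow_natCast, ← Real.rpow_mul ENNReal.toReal_nonneg]
      norm_num
    rw [h1, ← ENNReal.ofReal_rpow_of_nonneg ENNReal.toReal_nonneg (by norm_num),
      ENNReal.ofReal_toReal (hf x hx)]
  · rw [Set.indicator_of_notMem hx, Set.indicator_of_notMem hx, mul_zero]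
    simp

theorem finB_m1 {f : E3 → ℝ≥0∞} (hf : Measurable f) {A : Ker} (hA : MKer A) :
    Measurable (fun p : E3 × E3 => f p.1 * f p.2 * A p.1 p.2) :=
  ((hf.comp measurable_fst).mul (hf.comp measurable_snd)).mul hA

theorem finB_m2 {f : E3 → ℝ≥0∞} (hf : Measurable f) {A : Ker} (hA : MKer A) :
    Measurable (fun x => ∫⁻ y, f x * f y * A x y) :=
  (finB_m1 hf hA).lintegral_prod_right'

theorem finB_m3 {f : E3 → ℝ≥0∞} (hf : Measurable f) {A : Ker} (hA : MKer A) (x : E3) :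
    Measurable (fun y => f x * f y * A x y) :=
  (measurable_const.mul hf).mul (hA.right x)

theorem finB_decomp {Λ : ℝ} {v : E3 → ℝ} (hv : Pot Λ v) {f : E3 → ℝ≥0∞} (hf : Measurable f)
    (k : ℕ) :
    ∫⁻ x, ∫⁻ y, f x * f y * G0 x y =
      (∑ j ∈ Finset.range k, ∫⁻ x, ∫⁻ y, Rj Λ v j x y * (f x * f y))
        + ∫⁻ x, ∫⁻ y, f x * f y * it (RV Λ v) k G0 x y := by
  have hK : MKer (it (RV Λ v) k G0) := ((R_meas hv).mulV hv.measVf).it (gk_meas 0 0) k
  have h1 : ∀ x y, f x * f y * G0 x y =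
      ∑ j ∈ Finset.range k, f x * f y * Rj Λ v j x y
        + f x * f y * it (RV Λ v) k G0 x y := by
    intro x y
    rw [G0_decomp hv k x y, mul_add, Finset.mul_sum]
  have h2 : ∀ x, ∫⁻ y, f x * f y * G0 x y =
      (∑ j ∈ Finset.range k, ∫⁻ y, f x * f y * Rj Λ v j x y)
        + ∫⁻ y, f x * f y * it (RV Λ v) k G0 x y := by
    intro x
    simp only [h1]
    rw [lintegral_add_right _ (finB_m3 hf hK x),
      lintegral_finsetSum _ (fun j _ => finB_m3 hf (Rj_meas hv j) x)]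
  simp only [h2]
  rw [lintegral_add_right _ (finB_m2 hf hK),
    lintegral_finsetSum _ (fun j _ => finB_m2 hf (Rj_meas hv j))]
  congr 1
  refine Finset.sum_congr rfl fun j _ => lintegral_congr fun x => lintegral_congr fun y => ?_
  rw [mul_comm]

/-- the localized factors -/
theorem finB_phi {Λ : ℝ} {v : E3 → ℝ} (hv : Pot Λ v) (E : Set E3) (a b : E3) :
    ∫⁻ p, E.indicator (Phi Λ v 5 p) a * E.indicator (Phi Λ v 5 p) b
        ∂((volume.restrict (Ioi (0 : ℝ))).prod volume) =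
      E.indicator 1 a * E.indicator 1 b * it (RV Λ v) 10 G0 a b := by
  have h := it_G0_eq hv 5 a b
  by_cases ha : a ∈ E
  · by_cases hb : b ∈ E
    · simp only [Set.indicator_of_mem ha, Set.indicator_of_mem hb, Pi.one_apply, one_mul]
      exact h.symm
    · simp [Set.indicator_of_notMem hb]
  · simp [Set.indicator_of_notMem ha]

theorem finB_phi_meas {Λ : ℝ} {v : E3 → ℝ} (hv : Pot Λ v) {E : Set E3} (hE : MeasurableSet E) :
    Measurable (fun s : (ℝ × E3) × E3 => E.indicator (Phi Λ v 5 s.1) s.2) := by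
  have h := (Phi_meas hv 5).indicator (hE.preimage (measurable_snd (α := ℝ × E3)))
  exact h

theorem finB_psd {Ω : Type*} [MeasurableSpace Ω]
    (P : Measure Ω) [IsProbabilityMeasure P] {N : ℕ} (X : Fin N → Ω → E3)
    (hX : ∀ i, Measurable (X i)) {ρ : E3 → ℝ≥0∞} (hρ : Measurable ρ)
    (hd : ∀ f : E3 → ℝ≥0∞, Measurable f → ∑ i, ∫⁻ ω, f (X i ω) ∂P = ∫⁻ x, f x * ρ x)
    {E : Set E3} (hE : MeasurableSet E) {Λ : ℝ} {v : E3 → ℝ} (hv : Pot Λ v) :
    ∫⁻ x, ∫⁻ y, E.indicator ρ x * E.indicator ρ y * it (RV Λ v) 10 G0 x y ≤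
      ∫⁻ ω, ∑ i, ∑ j ∈ Finset.univ.erase i, G0 (X i ω) (X j ω) ∂P
        + ∫⁻ x, E.indicator ρ x * it (RV Λ v) 10 G0 x x := by
  have hK : MKer (it (RV Λ v) 10 G0) := ((R_meas hv).mulV hv.measVf).it (gk_meas 0 0) 10
  have hK' : Measurable (fun p : E3 × E3 => it (RV Λ v) 10 G0 p.1 p.2) := hK
  have hKd : Measurable (fun x => it (RV Λ v) 10 G0 x x) :=
    hK'.comp (measurable_id.prodMk measurable_id)
  have h1E : Measurable (E.indicator (1 : E3 → ℝ≥0∞)) := measurable_one.indicator hE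
  have h := psd_process P ((volume.restrict (Ioi (0 : ℝ))).prod (volume : Measure E3)) X hX hρ hd
    (Φ := fun p x => E.indicator (Phi Λ v 5 p) x) (finB_phi_meas hv hE)
  simp only [finB_phi hv E] at h
  have hL : ∫⁻ x, ∫⁻ y, E.indicator ρ x * E.indicator ρ y * it (RV Λ v) 10 G0 x y =
      ∫⁻ x, ∫⁻ y, ρ x * ρ y * (E.indicator 1 x * E.indicator 1 y * it (RV Λ v) 10 G0 x y) := by
    refine lintegral_congr fun x => lintegral_congr fun y => ?_
    by_cases hx : x ∈ E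
    · by_cases hy : y ∈ E
      · simp [Set.indicator_of_mem hx, Set.indicator_of_mem hy]
      · simp [Set.indicator_of_notMem hy]
    · simp [Set.indicator_of_notMem hx]
  rw [hL]
  refine h.trans ?_
  have hle1 : ∀ x, E.indicator (1 : E3 → ℝ≥0∞) x ≤ 1 := by
    intro x
    exact Set.indicator_le_self' (fun _ _ => zero_le) x
  have hstep : ∀ ω, ∑ i, ∑ j, E.indicator 1 (X i ω) * E.indicator 1 (X j ω) *
      it (RV Λ v) 10 G0 (X i ω) (X j ω) ≤
      (∑ i, E.indicator 1 (X i ω) * it (RV Λ v) 10 G0 (X i ω) (X i ω))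
        + ∑ i, ∑ j ∈ Finset.univ.erase i, G0 (X i ω) (X j ω) := by
    intro ω
    rw [← Finset.sum_add_distrib]
    refine Finset.sum_le_sum fun i _ => ?_
    rw [← Finset.add_sum_erase Finset.univ _ (Finset.mem_univ i)]
    refine add_le_add ?_ (Finset.sum_le_sum fun j _ => ?_)
    · refine mul_le_mul_left ?_ _
      calc E.indicator (1 : E3 → ℝ≥0∞) (X i ω) * E.indicator 1 (X i ω)
          ≤ E.indicator 1 (X i ω) * 1 := mul_le_mul_right (hle1 _) _
        _ = _ := mul_one _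
    · calc E.indicator (1 : E3 → ℝ≥0∞) (X i ω) * E.indicator 1 (X j ω) *
            it (RV Λ v) 10 G0 (X i ω) (X j ω)
          ≤ 1 * 1 * G0 (X i ω) (X j ω) :=
            mul_le_mul' (mul_le_mul' (hle1 _) (hle1 _)) (RV_G0_le hv 10 _ _)
        _ = _ := by rw [one_mul, one_mul]
  refine (lintegral_mono hstep).trans ?_
  have hm : ∀ i, Measurable (fun ω => E.indicator (1 : E3 → ℝ≥0∞) (X i ω) *
      it (RV Λ v) 10 G0 (X i ω) (X i ω)) := fun i =>
    (h1E.mul hKd).comp (hX i)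
  rw [lintegral_add_left (Finset.measurable_fun_sum _ fun i _ => hm i),
    lintegral_finsetSum _ (fun i _ => hm i), add_comm]
  have h2 := hd (fun x => E.indicator (1 : E3 → ℝ≥0∞) x * it (RV Λ v) 10 G0 x x) (h1E.mul hKd)
  rw [h2]
  refine add_le_add le_rfl (le_of_eq ?_)
  refine lintegral_congr fun x => ?_
  by_cases hx : x ∈ E
  · simp [Set.indicator_of_mem hx, mul_comm]
  · simp [Set.indicator_of_notMem hx]

theorem finB_G0 (x y : E3) :
    (ENNReal.ofReal ‖x - y‖)⁻¹ = ENNReal.ofReal (2 * Real.pi) * G0 x y := by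
  have h0 : (0 : ℝ) < 2 * Real.pi := by positivity
  have h1 : ENNReal.ofReal (2 * Real.pi) ≠ 0 := by
    rw [Ne, ENNReal.ofReal_eq_zero, not_le]
    exact h0
  rw [G0_eq, ENNReal.ofReal_mul h0.le, ENNReal.mul_inv (Or.inl h1) (Or.inl ENNReal.ofReal_ne_top),
    ← mul_assoc, ENNReal.mul_inv_cancel h1 ENNReal.ofReal_ne_top, one_mul]

theorem bounded_case {Ω : Type*} [MeasurableSpace Ω]
    (P : Measure Ω) [IsProbabilityMeasure P] {N : ℕ} (X : Fin N → Ω → E3)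
    (hX : ∀ i, Measurable (X i)) {ρ : E3 → ℝ≥0∞} (hρ : Measurable ρ)
    (hd : ∀ f : E3 → ℝ≥0∞, Measurable f → ∑ i, ∫⁻ ω, f (X i ω) ∂P = ∫⁻ x, f x * ρ x)
    {E : Set E3} (hE : MeasurableSet E) {B : ℝ} (hB : ∀ x ∈ E, ρ x ≤ ENNReal.ofReal B)
    (hfin : ∫⁻ x in E, ρ x ^ (4 / 3 : ℝ) ≠ ∞) :
    ∫⁻ x in E, ∫⁻ y in E, ρ x * ρ y * (ENNReal.ofReal ‖x - y‖)⁻¹
      ≤ ∫⁻ ω, ∑ i, ∑ j ∈ Finset.univ.erase i, (ENNReal.ofReal ‖X i ω - X j ω‖)⁻¹ ∂P
        + ENNReal.ofReal (2 * Real.pi * (10 / 59 + alpha 10 * Real.sqrt 59))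
          * ∫⁻ x in E, ρ x ^ (4 / 3 : ℝ) := by
  have hf : ∀ x ∈ E, ρ x ≠ ∞ := fun x hx => ne_top_of_le_ne_top ENNReal.ofReal_ne_top (hB x hx)
  have hv := finB_pot hρ hE hB
  set v := finBv ρ E with hvdef
  set Λ : ℝ := 59 * (|B| + 1) ^ (2 / 3 : ℝ) with hΛ
  have hρE : Measurable (E.indicator ρ) := hρ.indicator hE
  have h0 : (0 : ℝ) < 2 * Real.pi := by positivity
  -- the left side
  have hL : ∫⁻ x in E, ∫⁻ y in E, ρ x * ρ y * (ENNReal.ofReal ‖x - y‖)⁻¹ =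
      ENNReal.ofReal (2 * Real.pi) *
        ∫⁻ x, ∫⁻ y, E.indicator ρ x * E.indicator ρ y * G0 x y := by
    rw [← lintegral_const_mul' _ _ ENNReal.ofReal_ne_top, ← lintegral_indicator hE]
    refine lintegral_congr fun x => ?_
    rw [← lintegral_const_mul' _ _ ENNReal.ofReal_ne_top]
    by_cases hx : x ∈ E
    · rw [Set.indicator_of_mem hx, ← lintegral_indicator hE]
      refine lintegral_congr fun y => ?_
      by_cases hy : y ∈ E
      · rw [Set.indicator_of_mem hy, Set.indicator_of_mem hx, Set.indicator_of_mem hy, finB_G0]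
        ring
      · rw [Set.indicator_of_notMem hy, Set.indicator_of_notMem hy]
        simp
    · rw [Set.indicator_of_notMem hx, Set.indicator_of_notMem hx]
      simp
  -- the right side
  have hR : ∫⁻ ω, ∑ i, ∑ j ∈ Finset.univ.erase i, (ENNReal.ofReal ‖X i ω - X j ω‖)⁻¹ ∂P =
      ENNReal.ofReal (2 * Real.pi) *
        ∫⁻ ω, ∑ i, ∑ j ∈ Finset.univ.erase i, G0 (X i ω) (X j ω) ∂P := by
    rw [← lintegral_const_mul' _ _ ENNReal.ofReal_ne_top]
    refine lintegral_congr fun ω => ?_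
    rw [Finset.mul_sum]
    refine Finset.sum_congr rfl fun i _ => ?_
    rw [Finset.mul_sum]
    exact Finset.sum_congr rfl fun j _ => finB_G0 _ _
  -- the square of the potential
  have hV : ∫⁻ x, ENNReal.ofReal (v x ^ 2) =
      ENNReal.ofReal (59 ^ 2) * ∫⁻ x in E, ρ x ^ (4 / 3 : ℝ) := by
    rw [← lintegral_indicator hE, ← lintegral_const_mul' _ _ ENNReal.ofReal_ne_top]
    exact lintegral_congr fun x => finB_sq hf x
  have hVfin : ∫⁻ x, ENNReal.ofReal (v x ^ 2) ≠ ∞ := by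
    rw [hV]
    exact ENNReal.mul_ne_top ENNReal.ofReal_ne_top hfin
  have hint := integ hv (k := 10) (by norm_num) (y := 59) (by norm_num) (fun l _ => PL_all) hVfin
  simp only [hvdef, finB_rho hf] at hint
  rw [← hvdef, hV, ← mul_assoc] at hint
  have hc : ENNReal.ofReal ((((10 : ℕ) : ℝ) / 59 + alpha 10 * Real.sqrt 59) / 59 ^ 2) *
      ENNReal.ofReal (59 ^ 2) = ENNReal.ofReal (10 / 59 + alpha 10 * Real.sqrt 59) := by
    rw [← ENNReal.ofReal_mul' (by norm_num)]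
    congr 1
    push_cast
    field_simp
  rw [hc] at hint
  have hdec := finB_decomp hv hρE 10
  have hpsd := finB_psd P X hX hρ hd hE hv
  have hmain : ∫⁻ x, ∫⁻ y, E.indicator ρ x * E.indicator ρ y * G0 x y ≤
      ∫⁻ ω, ∑ i, ∑ j ∈ Finset.univ.erase i, G0 (X i ω) (X j ω) ∂P
        + ENNReal.ofReal (10 / 59 + alpha 10 * Real.sqrt 59) * ∫⁻ x in E, ρ x ^ (4 / 3 : ℝ) := by
    rw [hdec]
    calc _ ≤ (∑ j ∈ Finset.range 10, ∫⁻ x, ∫⁻ y, Rj Λ v j x y *
            (E.indicator ρ x * E.indicator ρ y))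
          + (∫⁻ ω, ∑ i, ∑ j ∈ Finset.univ.erase i, G0 (X i ω) (X j ω) ∂P
            + ∫⁻ x, E.indicator ρ x * it (RV Λ v) 10 G0 x x) := add_le_add le_rfl hpsd
      _ = ∫⁻ ω, ∑ i, ∑ j ∈ Finset.univ.erase i, G0 (X i ω) (X j ω) ∂P
          + ((∑ j ∈ Finset.range 10, ∫⁻ x, ∫⁻ y, Rj Λ v j x y *
            (E.indicator ρ x * E.indicator ρ y))
            + ∫⁻ x, E.indicator ρ x * it (RV Λ v) 10 G0 x x) := by ring
      _ ≤ _ := add_le_add le_rfl hint
  rw [hL, hR, ENNReal.ofReal_mul h0.le, mul_assoc, ← mul_add]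
  exact mul_le_mul_right hmain _

end Pool.Agent.H75.LO
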