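import Pool.Agent.H75.LO.GauB

/-!
# LO-GauC: closed forms, `l = 0, 1`

With `ρ = r²/2`:
* `∫_0^∞ t^{-1/2} e^{-mt-ρ/t} dt = √(π/m) e^{-2√(mρ)}`: substitute `t = √(ρ/m) u²`; with `c = √(mρ)` it is
  `2 (ρ/m)^{1/4} ∫_0^∞ e^{-c(u²+1/u²)} du`, `e^{-c(u²+1/u²)} = e^{-2c} e^{-c(u-1/u)²}` and
  `∫_0^∞ e^{-c(u-1/u)²} du = ½√(π/c)` (average with the substitution `u → 1/u` to get
  `½∫_0^∞ e^{-c(u-1/u)²}(1+1/u²) du`, then put `w = u-1/u`, which maps `(0,∞)` onto `ℝ`).
  Other proofs (e.g. ODE in `r`) are fine too.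
* `∫_0^∞ t^{-3/2} e^{-mt-ρ/t} dt = √(π/ρ) e^{-2√(mρ)}` from it by the substitution `t → ρ/(m t)`.
* `m = 0`: `∫_0^∞ t^{-3/2} e^{-ρ/t} dt = √(π/ρ)` by `t → 1/t` (Gamma function).
-/

open MeasureTheory Set
open scoped ENNReal

namespace Pool.Agent.H75.LO

/-! ### auxiliary -/

theorem gauC_gauss : ∫⁻ x : ℝ, ENNReal.ofReal (Real.exp (-x ^ 2)) = ENNReal.ofReal (Real.sqrt Real.pi) := by
  have h1 := integral_gaussian 1
  have h2 : Integrable (fun x : ℝ => Real.exp (-1 * x ^ 2)) := integrable_exp_neg_mul_sq (by norm_num)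
  rw [div_one] at h1
  rw [← h1, ofReal_integral_eq_lintegral_ofReal h2 (Filter.Eventually.of_forall fun x => (Real.exp_pos _).le)]
  simp

theorem gauC_gauss_half : ∫⁻ x in Ioi (0 : ℝ), ENNReal.ofReal (Real.exp (-x ^ 2)) =
    ENNReal.ofReal (Real.sqrt Real.pi / 2) := by
  have h1 := integral_gaussian_Ioi 1
  have h2 : Integrable (fun x : ℝ => Real.exp (-1 * x ^ 2)) := integrable_exp_neg_mul_sq (by norm_num)
  rw [div_one] at h1
  rw [← h1, ofReal_integral_eq_lintegral_ofReal h2.integrableOn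
    (Filter.Eventually.of_forall fun x => (Real.exp_pos _).le)]
  simp

/-- the map `a√t - b/√t` and its derivative -/
theorem gauC_deriv (a b : ℝ) {t : ℝ} (ht : 0 < t) :
    HasDerivAt (fun t => a * Real.sqrt t - b / Real.sqrt t)
      ((a * (1 / Real.sqrt t) + b * (1 / (t * Real.sqrt t))) / 2) t := by
  have hs : 0 < Real.sqrt t := Real.sqrt_pos.2 ht
  have h1 := Real.hasDerivAt_sqrt ht.ne'
  have h2 := (h1.const_mul a).sub ((hasDerivAt_const t b).div h1 hs.ne')
  refine h2.congr_deriv ?_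
  have hsq : Real.sqrt t ^ 2 = t := Real.sq_sqrt ht.le
  rw [hsq]
  field_simp
  ring

theorem gauC_lint_comb {a b : ℝ} (ha : 0 < a) (hb : 0 < b) :
    ∫⁻ t in Ioi (0 : ℝ), ENNReal.ofReal |(a * (1 / Real.sqrt t) + b * (1 / (t * Real.sqrt t))) / 2| *
      ENNReal.ofReal (Real.exp (-(a * Real.sqrt t - b / Real.sqrt t) ^ 2)) =
    ENNReal.ofReal (Real.sqrt Real.pi) := by
  have himg : (fun t => a * Real.sqrt t - b / Real.sqrt t) '' Ioi (0 : ℝ) = univ := by
    apply Set.eq_univ_of_forall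
    intro w
    set s := (w + Real.sqrt (w ^ 2 + 4 * a * b)) / (2 * a) with hs
    have hpos : 0 < w ^ 2 + 4 * a * b := by positivity
    have hlt : |w| < Real.sqrt (w ^ 2 + 4 * a * b) := by
      rw [← Real.sqrt_sq_eq_abs]
      exact Real.sqrt_lt_sqrt (sq_nonneg w) (by nlinarith [mul_pos ha hb])
    have hs0 : 0 < s := by
      rw [hs]
      have := neg_abs_le w
      apply div_pos _ (by positivity)
      linarith
    refine ⟨s ^ 2, by simp only [mem_Ioi]; positivity, ?_⟩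
    simp only
    rw [Real.sqrt_sq hs0.le]
    have hq : a * s ^ 2 - w * s - b = 0 := by
      have hsq := Real.sq_sqrt hpos.le
      have hs2 : 2 * a * s - w = Real.sqrt (w ^ 2 + 4 * a * b) := by
        rw [hs]
        field_simp
        ring
      rw [← hs2] at hsq
      have : 4 * a * (a * s ^ 2 - w * s - b) = 0 := by linarith
      rcases mul_eq_zero.1 this with h | h
      · exact absurd h (by positivity)
      · exact h
    have : a * s - b / s = (a * s ^ 2 - b) / s := by field_simp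
    rw [this, div_eq_iff hs0.ne']
    linarith
  have hinj : InjOn (fun t => a * Real.sqrt t - b / Real.sqrt t) (Ioi (0 : ℝ)) := by
    have hm : StrictMonoOn (fun t => a * Real.sqrt t - b / Real.sqrt t) (Ioi (0 : ℝ)) := by
      intro x hx y hy hxy
      have hx' : 0 < Real.sqrt x := Real.sqrt_pos.2 hx
      have hlt : Real.sqrt x < Real.sqrt y := Real.sqrt_lt_sqrt (le_of_lt hx) hxy
      have h1 : a * Real.sqrt x < a * Real.sqrt y := by gcongr
      have h2 : b / Real.sqrt y ≤ b / Real.sqrt x := by gcongr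
      simp only
      linarith
    exact hm.injOn
  have h := lintegral_image_eq_lintegral_abs_deriv_mul (measurableSet_Ioi)
    (fun t ht => (gauC_deriv a b ht).hasDerivWithinAt) hinj
    (fun x => ENNReal.ofReal (Real.exp (-x ^ 2)))
  rw [himg, Measure.restrict_univ, gauC_gauss] at h
  exact h.symm

/-- `t ↦ k/t` -/
theorem gauC_swap {k : ℝ} (hk : 0 < k) (g : ℝ → ℝ≥0∞) :
    ∫⁻ t in Ioi (0 : ℝ), g t = ∫⁻ t in Ioi (0 : ℝ), ENNReal.ofReal (k / t ^ 2) * g (k / t) := by
  have himg : (fun t => k / t) '' Ioi (0 : ℝ) = Ioi 0 := by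
    ext y
    simp only [mem_image, mem_Ioi]
    constructor
    · rintro ⟨t, ht, rfl⟩; positivity
    · intro hy
      exact ⟨k / y, by positivity, by field_simp⟩
  have hinj : InjOn (fun t => k / t) (Ioi (0 : ℝ)) := by
    intro x hx y hy hxy
    simp only [mem_Ioi] at hx hy
    simp only at hxy
    field_simp at hxy
    exact hxy.symm
  have h := lintegral_image_eq_lintegral_abs_deriv_mul (f' := fun t => -k / t ^ 2) (measurableSet_Ioi)
    (fun t (ht : t ∈ Ioi (0 : ℝ)) => by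
      have := ((hasDerivAt_const t k).div (hasDerivAt_id t) (ne_of_gt ht)).hasDerivWithinAt (s := Ioi 0)
      refine this.congr_deriv ?_
      simp) hinj g
  rw [himg] at h
  rw [h]
  refine setLIntegral_congr_fun measurableSet_Ioi fun t ht => ?_
  congr 2
  rw [neg_div, abs_neg, abs_of_nonneg (by positivity)]

theorem gauC_KL {a b : ℝ} (ha : 0 < a) (hb : 0 < b) :
    ∫⁻ t in Ioi (0 : ℝ), ENNReal.ofReal (a * (1 / Real.sqrt t) *
        Real.exp (-(a ^ 2 * t + b ^ 2 / t))) =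
    ∫⁻ t in Ioi (0 : ℝ), ENNReal.ofReal (b * (1 / (t * Real.sqrt t)) *
        Real.exp (-(a ^ 2 * t + b ^ 2 / t))) := by
  rw [gauC_swap (k := b ^ 2 / a ^ 2) (by positivity)]
  refine setLIntegral_congr_fun measurableSet_Ioi fun t ht => ?_
  simp only [mem_Ioi] at ht
  have hs : 0 < Real.sqrt t := Real.sqrt_pos.2 ht
  rw [← ENNReal.ofReal_mul (by positivity)]
  congr 1
  have h1 : Real.sqrt (b ^ 2 / a ^ 2 / t) = b / a / Real.sqrt t := by
    rw [Real.sqrt_div (by positivity), ← div_pow, Real.sqrt_sq (by positivity)]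
  have h2 : a ^ 2 * (b ^ 2 / a ^ 2 / t) + b ^ 2 / (b ^ 2 / a ^ 2 / t) = a ^ 2 * t + b ^ 2 / t := by
    field_simp
    ring
  rw [h1, h2]
  have hsq : Real.sqrt t ^ 2 = t := Real.sq_sqrt ht.le
  have : b ^ 2 / a ^ 2 / t ^ 2 * (a * (1 / (b / a / Real.sqrt t)) ) = b * (1 / (t * Real.sqrt t)) := by
    field_simp
    nlinarith [hsq]
  rw [← this]
  ring

theorem gauC_K {a b : ℝ} (ha : 0 < a) (hb : 0 < b) :
    ∫⁻ t in Ioi (0 : ℝ), ENNReal.ofReal (a * (1 / Real.sqrt t) *
        Real.exp (-(a ^ 2 * t + b ^ 2 / t))) =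
    ENNReal.ofReal (Real.sqrt Real.pi * Real.exp (-(2 * a * b))) := by
  set K := ∫⁻ t in Ioi (0 : ℝ), ENNReal.ofReal (a * (1 / Real.sqrt t) *
        Real.exp (-(a ^ 2 * t + b ^ 2 / t))) with hK
  have h1 := gauC_lint_comb ha hb
  have h2 : ∫⁻ t in Ioi (0 : ℝ), ENNReal.ofReal |(a * (1 / Real.sqrt t) + b * (1 / (t * Real.sqrt t))) / 2| *
      ENNReal.ofReal (Real.exp (-(a * Real.sqrt t - b / Real.sqrt t) ^ 2)) =
      ENNReal.ofReal (Real.exp (2 * a * b) / 2) * (K + K) := by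
    have h3 : K + K = ∫⁻ t in Ioi (0 : ℝ), (ENNReal.ofReal (a * (1 / Real.sqrt t) *
        Real.exp (-(a ^ 2 * t + b ^ 2 / t))) + ENNReal.ofReal (b * (1 / (t * Real.sqrt t)) *
        Real.exp (-(a ^ 2 * t + b ^ 2 / t)))) := by
      rw [lintegral_add_left (by fun_prop), ← gauC_KL ha hb]
    rw [h3, ← lintegral_const_mul' _ _ ENNReal.ofReal_ne_top]
    refine setLIntegral_congr_fun measurableSet_Ioi fun t ht => ?_
    simp only [mem_Ioi] at ht
    have hs : 0 < Real.sqrt t := Real.sqrt_pos.2 ht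
    have hsq : Real.sqrt t ^ 2 = t := Real.sq_sqrt ht.le
    rw [abs_of_nonneg (by positivity), ← ENNReal.ofReal_mul (by positivity),
      ← ENNReal.ofReal_add (by positivity) (by positivity), ← ENNReal.ofReal_mul (by positivity)]
    congr 1
    have h4 : (a * Real.sqrt t - b / Real.sqrt t) ^ 2 = a ^ 2 * t + b ^ 2 / t - 2 * a * b := by
      have e1 : (a * Real.sqrt t - b / Real.sqrt t) ^ 2 =
          a ^ 2 * Real.sqrt t ^ 2 + b ^ 2 / Real.sqrt t ^ 2 - 2 * a * b := by
        field_simp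
        ring
      rw [e1, hsq]
    rw [h4, show -(a ^ 2 * t + b ^ 2 / t - 2 * a * b) = 2 * a * b + -(a ^ 2 * t + b ^ 2 / t) by ring,
      Real.exp_add]
    ring
  rw [h2, ← two_mul, ← mul_assoc, ← ENNReal.ofReal_ofNat, ← ENNReal.ofReal_mul (by positivity)] at h1
  have h5 : Real.exp (2 * a * b) / 2 * OfNat.ofNat 2 = Real.exp (2 * a * b) := by
    have : (OfNat.ofNat 2 : ℝ) = 2 := rfl
    rw [this]; ring
  rw [h5] at h1
  have h6 : K = ENNReal.ofReal (Real.exp (-(2 * a * b))) * (ENNReal.ofReal (Real.exp (2 * a * b)) * K) := by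
    rw [← mul_assoc, ← ENNReal.ofReal_mul (by positivity), ← Real.exp_add]
    simp
  rw [h6, h1, ← ENNReal.ofReal_mul (by positivity), mul_comm]

theorem gauC_L {a b : ℝ} (ha : 0 < a) (hb : 0 < b) :
    ∫⁻ t in Ioi (0 : ℝ), ENNReal.ofReal (b * (1 / (t * Real.sqrt t)) *
        Real.exp (-(a ^ 2 * t + b ^ 2 / t))) =
    ENNReal.ofReal (Real.sqrt Real.pi * Real.exp (-(2 * a * b))) := by
  rw [← gauC_KL ha hb, gauC_K ha hb]

theorem gauC_L0 {b : ℝ} (hb : 0 < b) :
    ∫⁻ t in Ioi (0 : ℝ), ENNReal.ofReal (b * (1 / (t * Real.sqrt t)) * Real.exp (-(b ^ 2 / t))) =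
    ENNReal.ofReal (Real.sqrt Real.pi) := by
  have himg : (fun t => b / Real.sqrt t) '' Ioi (0 : ℝ) = Ioi 0 := by
    ext y
    simp only [mem_image, mem_Ioi]
    constructor
    · rintro ⟨t, ht, rfl⟩
      have := Real.sqrt_pos.2 ht
      positivity
    · intro hy
      refine ⟨(b / y) ^ 2, by positivity, ?_⟩
      rw [Real.sqrt_sq (by positivity)]
      field_simp
  have hinj : InjOn (fun t => b / Real.sqrt t) (Ioi (0 : ℝ)) := by
    intro x hx y hy hxy
    simp only [mem_Ioi] at hx hy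
    have hx' := Real.sqrt_pos.2 hx
    have hy' := Real.sqrt_pos.2 hy
    simp only at hxy
    rw [div_eq_div_iff hx'.ne' hy'.ne'] at hxy
    have h3 : Real.sqrt y = Real.sqrt x := mul_left_cancel₀ hb.ne' hxy
    exact ((Real.sqrt_inj hy.le hx.le).1 h3).symm
  have h := lintegral_image_eq_lintegral_abs_deriv_mul
    (f := fun t => b / Real.sqrt t) (f' := fun t => -(b * (1 / (t * Real.sqrt t)) / 2)) (measurableSet_Ioi)
    (fun t (ht : t ∈ Ioi (0 : ℝ)) => by
      have := (gauC_deriv 0 (-b) ht).hasDerivWithinAt (s := Ioi 0)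
      refine (this.congr_deriv ?_).congr_of_eventuallyEq ?_ ?_
      · ring
      · exact Filter.Eventually.of_forall fun t => by simp [neg_div]
      · simp [neg_div]) hinj (fun x => ENNReal.ofReal (Real.exp (-x ^ 2)))
  rw [himg, gauC_gauss_half] at h
  have h2 : ENNReal.ofReal (Real.sqrt Real.pi) = ENNReal.ofReal 2 * ENNReal.ofReal (Real.sqrt Real.pi / 2) := by
    rw [← ENNReal.ofReal_mul (by norm_num)]
    congr 1; ring
  rw [h2, h, ← lintegral_const_mul' _ _ ENNReal.ofReal_ne_top]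
  refine setLIntegral_congr_fun measurableSet_Ioi fun t ht => ?_
  simp only [mem_Ioi] at ht
  have hs : 0 < Real.sqrt t := Real.sqrt_pos.2 ht
  have hsq : Real.sqrt t ^ 2 = t := Real.sq_sqrt ht.le
  rw [abs_neg, abs_of_nonneg (by positivity), ← ENNReal.ofReal_mul (by positivity),
    ← ENNReal.ofReal_mul (by positivity)]
  congr 1
  rw [div_pow, hsq]
  ring

theorem gauC_rpow {t : ℝ} (ht : 0 < t) : (2 * Real.pi * t) ^ (-(3 / 2) : ℝ) =
    1 / (2 * Real.pi * Real.sqrt (2 * Real.pi)) * (1 / (t * Real.sqrt t)) := by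
  have hp : 0 < 2 * Real.pi := by positivity
  have key : ∀ x : ℝ, 0 < x → x ^ (-(3 / 2) : ℝ) = 1 / (x * Real.sqrt x) := by
    intro x hx
    rw [Real.rpow_neg hx.le, show (3 / 2 : ℝ) = 1 + 1 / 2 by norm_num, Real.rpow_add hx,
      Real.rpow_one, ← Real.sqrt_eq_rpow, one_div]
  rw [key _ (by positivity), Real.sqrt_mul hp.le]
  have := Real.sqrt_pos.2 hp
  have := Real.sqrt_pos.2 ht
  field_simp

theorem gauC_gr_zero_zero_pos {r : ℝ} (hr : 0 < r) :
    gr 0 0 r = (ENNReal.ofReal (2 * Real.pi * r))⁻¹ := by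
  have hp : 0 < 2 * Real.pi := by positivity
  have hp' := Real.sqrt_pos.2 hp
  have h2 : 0 < Real.sqrt 2 := Real.sqrt_pos.2 (by norm_num)
  have hb : 0 < r / Real.sqrt 2 := by positivity
  unfold gr
  have h : ∀ t ∈ Ioi (0 : ℝ), ENNReal.ofReal (t ^ 0 / ((0 : ℕ).factorial : ℝ) * Real.exp (-(0 * t)) * heatR t r) =
      ENNReal.ofReal (Real.sqrt 2 / (r * (2 * Real.pi * Real.sqrt (2 * Real.pi)))) *
      ENNReal.ofReal (r / Real.sqrt 2 * (1 / (t * Real.sqrt t)) * Real.exp (-((r / Real.sqrt 2) ^ 2 / t))) := by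
    intro t ht
    simp only [mem_Ioi] at ht
    have hs := Real.sqrt_pos.2 ht
    rw [← ENNReal.ofReal_mul (by positivity)]
    congr 1
    unfold heatR
    rw [gauC_rpow ht]
    simp only [pow_zero, Nat.factorial_zero, Nat.cast_one, div_one, zero_mul, neg_zero, Real.exp_zero,
      one_mul]
    have e : (r / Real.sqrt 2) ^ 2 / t = r ^ 2 / (2 * t) := by
      rw [div_pow, Real.sq_sqrt (by norm_num)]; field_simp
    rw [e]
    field_simp
  rw [setLIntegral_congr_fun measurableSet_Ioi h, lintegral_const_mul' _ _ ENNReal.ofReal_ne_top,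
    gauC_L0 hb, ← ENNReal.ofReal_mul (by positivity), ← ENNReal.ofReal_inv_of_pos (by positivity)]
  congr 1
  rw [Real.sqrt_mul (by norm_num)]
  have := Real.sqrt_pos.2 Real.pi_pos
  field_simp

/-- case `m = 0`: `∫_0^∞ h_t(r) dt = 1/(2πr)` (also for `r = 0`, where both sides are `∞`) -/
theorem gr_zero_zero {r : ℝ} (hr : 0 ≤ r) : gr 0 0 r = (ENNReal.ofReal (2 * Real.pi * r))⁻¹ := by
  rcases hr.eq_or_lt with rfl | hr
  · rw [mul_zero, ENNReal.ofReal_zero, ENNReal.inv_zero]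
    have hmono : ∀ s : ℝ, 0 < s → (ENNReal.ofReal (2 * Real.pi * s))⁻¹ ≤ gr 0 0 0 := by
      intro s hs
      rw [← gauC_gr_zero_zero_pos hs]
      unfold gr
      refine setLIntegral_mono' measurableSet_Ioi fun t ht => ?_
      simp only [mem_Ioi] at ht
      apply ENNReal.ofReal_le_ofReal
      apply mul_le_mul_of_nonneg_left _ (by positivity)
      unfold heatR
      apply mul_le_mul_of_nonneg_left _ (by positivity)
      apply Real.exp_le_exp.2
      have : 0 ≤ s ^ 2 / (2 * t) := by positivity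
      simp
      exact this
    apply ENNReal.eq_top_of_forall_nnreal_le
    intro q
    have hq : 0 < (q : ℝ) + 1 := by positivity
    refine le_trans ?_ (hmono (1 / (2 * Real.pi * ((q : ℝ) + 1))) (by positivity))
    rw [← ENNReal.ofReal_inv_of_pos (by positivity)]
    have : (2 * Real.pi * (1 / (2 * Real.pi * ((q : ℝ) + 1))))⁻¹ = (q : ℝ) + 1 := by
      have := Real.pi_pos
      field_simp
    rw [this]
    rw [← ENNReal.ofReal_coe_nnreal]
    exact ENNReal.ofReal_le_ofReal (by linarith)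
  · exact gauC_gr_zero_zero_pos hr

theorem gr_zero {m r : ℝ} (hm : 0 < m) (hr : 0 < r) :
    gr 0 m r = ENNReal.ofReal (Real.exp (-(Real.sqrt (2 * m) * r)) / (2 * Real.pi * r)) := by
  have hp : 0 < 2 * Real.pi := by positivity
  have hp' := Real.sqrt_pos.2 hp
  have h2 : 0 < Real.sqrt 2 := Real.sqrt_pos.2 (by norm_num)
  have hb : 0 < r / Real.sqrt 2 := by positivity
  have ha : 0 < Real.sqrt m := Real.sqrt_pos.2 hm
  unfold gr
  have h : ∀ t ∈ Ioi (0 : ℝ), ENNReal.ofReal (t ^ 0 / ((0 : ℕ).factorial : ℝ) * Real.exp (-(m * t)) * heatR t r) =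
      ENNReal.ofReal (Real.sqrt 2 / (r * (2 * Real.pi * Real.sqrt (2 * Real.pi)))) *
      ENNReal.ofReal (r / Real.sqrt 2 * (1 / (t * Real.sqrt t)) *
        Real.exp (-(Real.sqrt m ^ 2 * t + (r / Real.sqrt 2) ^ 2 / t))) := by
    intro t ht
    simp only [mem_Ioi] at ht
    have hs := Real.sqrt_pos.2 ht
    rw [← ENNReal.ofReal_mul (by positivity)]
    congr 1
    unfold heatR
    rw [gauC_rpow ht]
    simp only [pow_zero, Nat.factorial_zero, Nat.cast_one, div_one, one_mul]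
    have e : (r / Real.sqrt 2) ^ 2 / t = r ^ 2 / (2 * t) := by
      rw [div_pow, Real.sq_sqrt (by norm_num)]; field_simp
    rw [e, Real.sq_sqrt hm.le, neg_add, Real.exp_add]
    field_simp
  rw [setLIntegral_congr_fun measurableSet_Ioi h, lintegral_const_mul' _ _ ENNReal.ofReal_ne_top,
    gauC_L ha hb, ← ENNReal.ofReal_mul (by positivity)]
  congr 1
  have e2 : 2 * Real.sqrt m * (r / Real.sqrt 2) = Real.sqrt (2 * m) * r := by
    rw [Real.sqrt_mul (by norm_num)]
    have : Real.sqrt 2 ^ 2 = 2 := Real.sq_sqrt (by norm_num)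
    field_simp
    nlinarith
  rw [e2, Real.sqrt_mul (by norm_num) Real.pi]
  have := Real.sqrt_pos.2 Real.pi_pos
  field_simp

theorem gr_one {m r : ℝ} (hm : 0 < m) (hr : 0 < r) :
    gr 1 m r = ENNReal.ofReal
      (Real.exp (-(Real.sqrt (2 * m) * r)) / (2 * Real.pi * Real.sqrt (2 * m))) := by
  have hp : 0 < 2 * Real.pi := by positivity
  have hp' := Real.sqrt_pos.2 hp
  have h2 : 0 < Real.sqrt 2 := Real.sqrt_pos.2 (by norm_num)
  have hb : 0 < r / Real.sqrt 2 := by positivity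
  have ha : 0 < Real.sqrt m := Real.sqrt_pos.2 hm
  unfold gr
  have h : ∀ t ∈ Ioi (0 : ℝ), ENNReal.ofReal (t ^ 1 / ((1 : ℕ).factorial : ℝ) * Real.exp (-(m * t)) * heatR t r) =
      ENNReal.ofReal (1 / (Real.sqrt m * (2 * Real.pi * Real.sqrt (2 * Real.pi)))) *
      ENNReal.ofReal (Real.sqrt m * (1 / Real.sqrt t) *
        Real.exp (-(Real.sqrt m ^ 2 * t + (r / Real.sqrt 2) ^ 2 / t))) := by
    intro t ht
    simp only [mem_Ioi] at ht
    have hs := Real.sqrt_pos.2 ht
    rw [← ENNReal.ofReal_mul (by positivity)]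
    congr 1
    unfold heatR
    rw [gauC_rpow ht]
    simp only [pow_one, Nat.factorial_one, Nat.cast_one, div_one]
    have e : (r / Real.sqrt 2) ^ 2 / t = r ^ 2 / (2 * t) := by
      rw [div_pow, Real.sq_sqrt (by norm_num)]; field_simp
    rw [e, Real.sq_sqrt hm.le, neg_add, Real.exp_add]
    field_simp
  rw [setLIntegral_congr_fun measurableSet_Ioi h, lintegral_const_mul' _ _ ENNReal.ofReal_ne_top,
    gauC_K ha hb, ← ENNReal.ofReal_mul (by positivity)]
  congr 1
  have e2 : 2 * Real.sqrt m * (r / Real.sqrt 2) = Real.sqrt (2 * m) * r := by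
    rw [Real.sqrt_mul (by norm_num)]
    have : Real.sqrt 2 ^ 2 = 2 := Real.sq_sqrt (by norm_num)
    field_simp
    nlinarith
  rw [e2, Real.sqrt_mul (by norm_num) Real.pi, Real.sqrt_mul (by norm_num) m]
  have := Real.sqrt_pos.2 Real.pi_pos
  field_simp

end Pool.Agent.H75.LO
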