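import Pool.Agent.H75.LO.Zs
import Pool.Agent.H75.LO.GauC

/-!
# LO2-PLc: from `Zs_bound` to `PL 0 29` and `PL2 c l 29`

* `PL 0 29`: `Y 0 m r = ofReal (Z 0 m r)` for `m > 0` (substitution `u = m t`, or `gr_zero` and `Z_zero`); `Y 0 0 r = 0`.
* `Y2 c l m r = ∫_{s>0} γ(s) ofReal (Z s m r) ds`, `γ(s) = c^{l+1} s^l e^{-cs}/l!` (a probability density):
  in the definition of `cr` substitute `s → s/m`, `t → t/m`, then `u = s + t`:
  `(cm)^{l+1} ∬ (s^l/l!) e^{-cms-mt} h_{s+t}(r) = c^{l+1} m^{1/2} ∫ (s^l/l!) e^{-cs} ∫_{u>s} e^{-(u-s)} (2πu)^{-3/2} e^{-m r²/(2u)} du ds`.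
  Then integrate `Zs_bound` (in the additive form `a Z(b) + b Z(a) ≤ a Z(a) + b Z(b) + …`) against `γ`, `∫γ = 1`.
-/

open MeasureTheory Set
open scoped ENNReal

namespace Pool.Agent.H75.LO

/-- scaling `t ↦ k t` -/
theorem plc_scale {k : ℝ} (hk : 0 < k) (g : ℝ → ℝ≥0∞) :
    ∫⁻ t in Ioi (0 : ℝ), g t = ∫⁻ t in Ioi (0 : ℝ), ENNReal.ofReal k * g (k * t) := by
  have himg : (fun t => k * t) '' Ioi (0 : ℝ) = Ioi 0 := by
    ext y
    simp only [mem_image, mem_Ioi]
    constructor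
    · rintro ⟨t, ht, rfl⟩; positivity
    · intro hy
      exact ⟨y / k, by positivity, by field_simp⟩
  have hinj : InjOn (fun t => k * t) (Ioi (0 : ℝ)) := by
    intro x _ y _ hxy
    exact mul_left_cancel₀ hk.ne' hxy
  have h := lintegral_image_eq_lintegral_abs_deriv_mul (f' := fun _ => k) (measurableSet_Ioi)
    (fun t (_ : t ∈ Ioi (0 : ℝ)) => by
      have := ((hasDerivAt_id t).const_mul k).hasDerivWithinAt (s := Ioi 0)
      refine this.congr_deriv ?_
      simp) hinj g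
  rw [himg] at h
  rw [h]
  refine setLIntegral_congr_fun measurableSet_Ioi fun t ht => ?_
  simp only [abs_of_pos hk]

/-- shift `t ↦ s + t` -/
theorem plc_shift (s : ℝ) (g : ℝ → ℝ≥0∞) :
    ∫⁻ u in Ioi s, g u = ∫⁻ t in Ioi (0 : ℝ), g (s + t) := by
  have himg : (fun t => s + t) '' Ioi (0 : ℝ) = Ioi s := by
    ext y
    simp only [mem_image, mem_Ioi]
    constructor
    · rintro ⟨t, ht, rfl⟩; linarith
    · intro hy
      exact ⟨y - s, by linarith, by ring⟩
  have hinj : InjOn (fun t => s + t) (Ioi (0 : ℝ)) := by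
    intro x _ y _ hxy
    exact add_left_cancel hxy
  have h := lintegral_image_eq_lintegral_abs_deriv_mul (f' := fun _ => 1) (measurableSet_Ioi)
    (fun t (_ : t ∈ Ioi (0 : ℝ)) => by
      exact ((hasDerivAt_id t).const_add s).hasDerivWithinAt (s := Ioi 0)) hinj g
  rw [himg] at h
  rw [h]
  refine setLIntegral_congr_fun measurableSet_Ioi fun t ht => ?_
  simp

theorem plc_Z_zero_mass (s r : ℝ) : Z s 0 r = 0 := by
  simp [Z]

theorem plc_Z_nonneg {s m r : ℝ} (hs : 0 ≤ s) : 0 ≤ Z s m r := by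
  unfold Z
  apply mul_nonneg (sq_nonneg m)
  apply setIntegral_nonneg measurableSet_Ioi
  intro u hu
  have hu' : s < u := hu
  have hu0 : 0 < u := by linarith
  positivity

/-- `ofReal (Z s m r)` as an integral over `t > 0` -/
noncomputable def plcZl (m r s : ℝ) : ℝ≥0∞ :=
  ENNReal.ofReal (m ^ 2) * ∫⁻ t in Ioi (0 : ℝ), ENNReal.ofReal (Real.exp (-t)
    * (2 * Real.pi * (s + t)) ^ (-(3 / 2) : ℝ) * Real.exp (-(m * r ^ 2 / (2 * (s + t)))))

theorem plcZl_meas (m r : ℝ) : Measurable (plcZl m r) := by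
  unfold plcZl
  apply Measurable.const_mul
  have h : Measurable (fun q : ℝ × ℝ => ENNReal.ofReal (Real.exp (-q.2)
    * (2 * Real.pi * (q.1 + q.2)) ^ (-(3 / 2) : ℝ) * Real.exp (-(m * r ^ 2 / (2 * (q.1 + q.2)))))) := by
    fun_prop
  exact Measurable.lintegral_prod_right' (ν := volume.restrict (Ioi (0 : ℝ))) h

theorem plcZl_eq {s m r : ℝ} (hs : 0 ≤ s) (hm : 0 < m) (hr : 0 < r) :
    plcZl m r s = ENNReal.ofReal (Z s m r) := by
  unfold plcZl Z
  rw [ENNReal.ofReal_mul (sq_nonneg m)]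
  congr 1
  rw [ofReal_integral_eq_lintegral_ofReal (Z_integrable hs hm hr), plc_shift s]
  · refine setLIntegral_congr_fun measurableSet_Ioi fun t ht => ?_
    simp
  · refine (ae_restrict_iff' measurableSet_Ioi).2 (Filter.Eventually.of_forall fun u hu => ?_)
    have hu' : s < u := hu
    have hu0 : 0 < u := by linarith
    simp only [Pi.zero_apply]
    positivity

theorem plcZl_eq' {s m r : ℝ} (hs : 0 ≤ s) (hm : 0 ≤ m) (hr : 0 < r) :
    plcZl m r s = ENNReal.ofReal (Z s m r) := by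
  rcases hm.eq_or_lt with rfl | hm
  · rw [plc_Z_zero_mass]; simp [plcZl]
  · exact plcZl_eq hs hm hr

theorem plc_Y_eq {m r : ℝ} (hm : 0 ≤ m) (hr : 0 < r) : Y 0 m r = ENNReal.ofReal (Z 0 m r) := by
  rcases hm.eq_or_lt with rfl | hm
  · rw [plc_Z_zero_mass]
    simp [Y]
  · rw [Z_zero hm hr, Y, gr_zero hm hr, ← ENNReal.ofReal_mul (by positivity)]
    congr 1
    ring

/-- additive form of the inequality -/
theorem plc_add {a b A B K : ℝ} (ha : 0 ≤ a) (hb : 0 ≤ b) (hA : 0 ≤ A) (hB : 0 ≤ B) (hK : 0 ≤ K)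
    (h : (a - b) * (B - A) ≤ K) :
    ENNReal.ofReal a * ENNReal.ofReal B + ENNReal.ofReal b * ENNReal.ofReal A
      ≤ ENNReal.ofReal a * ENNReal.ofReal A + ENNReal.ofReal b * ENNReal.ofReal B
        + ENNReal.ofReal K := by
  rw [← ENNReal.ofReal_mul ha, ← ENNReal.ofReal_mul hb, ← ENNReal.ofReal_mul ha,
    ← ENNReal.ofReal_mul hb, ← ENNReal.ofReal_add (by positivity) (by positivity),
    ← ENNReal.ofReal_add (by positivity) (by positivity),
    ← ENNReal.ofReal_add (by positivity) hK]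
  apply ENNReal.ofReal_le_ofReal
  linarith

theorem PL_zero29 : PL 0 29 := by
  intro a b r ha hb hr
  rw [plc_Y_eq ha hr, plc_Y_eq hb hr]
  exact plc_add ha hb (plc_Z_nonneg le_rfl) (plc_Z_nonneg le_rfl) (by positivity)
    (Zs_bound le_rfl ha hb hr)

theorem plc_Y2 {c m r : ℝ} (hc : 0 < c) (hm : 0 < m) (l : ℕ) :
    Y2 c l m r = ∫⁻ s in Ioi (0 : ℝ),
      ENNReal.ofReal (c ^ (l + 1) * s ^ l * Real.exp (-(c * s)) / (l.factorial : ℝ))
        * plcZl m r s := by
  have hk : 0 < m⁻¹ := by positivity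
  unfold Y2 cr
  rw [plc_scale hk, ← mul_assoc, ← lintegral_const_mul' _ _ (by simp [ENNReal.mul_eq_top])]
  refine setLIntegral_congr_fun measurableSet_Ioi fun s hs => ?_
  have hs' : 0 < s := hs
  have hlp : (0 : ℝ) < (l.factorial : ℝ) := by positivity
  rw [plc_scale hk, ← mul_assoc, ← lintegral_const_mul' _ _ (by simp [ENNReal.mul_eq_top]), plcZl,
    ← lintegral_const_mul' _ _ (by simp), ← lintegral_const_mul' _ _ (by simp)]
  refine setLIntegral_congr_fun measurableSet_Ioi fun t ht => ?_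
  have ht' : 0 < t := ht
  have hst : 0 < s + t := by positivity
  have e0 : heatR (m⁻¹ * s + m⁻¹ * t) r = m ^ (3 / 2 : ℝ) * (2 * Real.pi * (s + t)) ^ (-(3 / 2) : ℝ)
      * Real.exp (-(m * r ^ 2 / (2 * (s + t)))) := by
    unfold heatR
    rw [show 2 * Real.pi * (m⁻¹ * s + m⁻¹ * t) = m⁻¹ * (2 * Real.pi * (s + t)) by ring,
      Real.mul_rpow hk.le (by positivity), Real.inv_rpow hm.le, ← Real.rpow_neg hm.le, neg_neg]
    congr 3
    field_simp
  rw [← ENNReal.ofReal_mul (by positivity), ← ENNReal.ofReal_mul (by positivity),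
    ← ENNReal.ofReal_mul (by positivity), ← ENNReal.ofReal_mul (by positivity),
    ← ENNReal.ofReal_mul (by positivity), ← ENNReal.ofReal_mul (by positivity)]
  congr 1
  rw [e0]
  have e1 : c * m * (m⁻¹ * s) = c * s := by field_simp
  have e2 : m * (m⁻¹ * t) = t := by field_simp
  have e3 : m ^ (3 / 2 : ℝ) * m ^ (3 / 2 : ℝ) = m ^ 3 := by
    rw [← Real.rpow_add hm, ← Real.rpow_natCast]
    norm_num
  rw [e1, e2]
  set P := (2 * Real.pi * (s + t)) ^ (-(3 / 2) : ℝ) with hP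
  set X := Real.exp (-(m * r ^ 2 / (2 * (s + t)))) with hX
  set M := m ^ (3 / 2 : ℝ) with hM
  have e5 : (c * m) ^ (l + 1) * m⁻¹ * m⁻¹ * (m⁻¹ * s) ^ l = c ^ (l + 1) * s ^ l * m⁻¹ := by
    rw [mul_pow, mul_pow, inv_pow]
    field_simp
    ring
  calc M * (c * m) ^ (l + 1) * m⁻¹ * (m⁻¹ *
        ((m⁻¹ * s) ^ l / (l.factorial : ℝ) * Real.exp (-(c * s)) * Real.exp (-t) * (M * P * X)))
      = (M * M) * ((c * m) ^ (l + 1) * m⁻¹ * m⁻¹ * (m⁻¹ * s) ^ l) *
        (1 / (l.factorial : ℝ) * Real.exp (-(c * s)) * Real.exp (-t) * P * X) := by ring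
    _ = c ^ (l + 1) * s ^ l * Real.exp (-(c * s)) / (l.factorial : ℝ) *
        (m ^ 2 * (Real.exp (-t) * P * X)) := by
        rw [e3, e5]
        field_simp

theorem Y2_eq {c m r : ℝ} (hc : 1 < c) (hm : 0 < m) (hr : 0 < r) (l : ℕ) :
    Y2 c l m r = ∫⁻ s in Ioi (0 : ℝ),
      ENNReal.ofReal (c ^ (l + 1) * s ^ l * Real.exp (-(c * s)) / (l.factorial : ℝ))
        * ENNReal.ofReal (Z s m r) := by
  rw [plc_Y2 (by linarith) hm l]
  refine setLIntegral_congr_fun measurableSet_Ioi fun s hs => ?_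
  have hs' : (0 : ℝ) < s := hs
  rw [plcZl_eq hs'.le hm hr]

theorem plc_Y2' {c m r : ℝ} (hc : 0 < c) (hm : 0 ≤ m) (l : ℕ) :
    Y2 c l m r = ∫⁻ s in Ioi (0 : ℝ),
      ENNReal.ofReal (c ^ (l + 1) * s ^ l * Real.exp (-(c * s)) / (l.factorial : ℝ))
        * plcZl m r s := by
  rcases hm.eq_or_lt with rfl | hm
  · simp [Y2, plcZl]
  · exact plc_Y2 hc hm l

theorem plc_gamma {c : ℝ} (hc : 0 < c) (l : ℕ) :
    ∫⁻ s in Ioi (0 : ℝ),
      ENNReal.ofReal (c ^ (l + 1) * s ^ l * Real.exp (-(c * s)) / (l.factorial : ℝ)) = 1 := by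
  have hI : IntegrableOn (fun s : ℝ => s ^ l * Real.exp (-(c * s))) (Ioi 0) := by
    have := integrableOn_rpow_mul_exp_neg_mul_rpow (s := (l : ℝ)) (p := 1) (b := c)
      (by have : (0:ℝ) ≤ l := by positivity
          linarith) one_pos hc
    refine this.congr_fun (fun x hx => ?_) measurableSet_Ioi
    simp
  have hV : ∫ s in Ioi (0 : ℝ), s ^ l * Real.exp (-(c * s)) = (l.factorial : ℝ) / c ^ (l + 1) := by
    have := Real.integral_rpow_mul_exp_neg_mul_Ioi (a := (l : ℝ) + 1) (r := c) (by positivity) hc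
    have h2 : ∫ s in Ioi (0 : ℝ), s ^ l * Real.exp (-(c * s)) =
        ∫ t in Ioi (0 : ℝ), t ^ ((l : ℝ) + 1 - 1) * Real.exp (-(c * t)) := by
      refine setIntegral_congr_fun measurableSet_Ioi fun x hx => ?_
      simp
    rw [h2, this, Real.Gamma_nat_eq_factorial]
    rw [show ((l : ℝ) + 1) = ((l + 1 : ℕ) : ℝ) by push_cast; ring, Real.rpow_natCast]
    rw [one_div, inv_pow]
    field_simp
  have h3 : ∀ s ∈ Ioi (0 : ℝ),
      ENNReal.ofReal (c ^ (l + 1) * s ^ l * Real.exp (-(c * s)) / (l.factorial : ℝ))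
      = ENNReal.ofReal (c ^ (l + 1) / (l.factorial : ℝ)) *
        ENNReal.ofReal (s ^ l * Real.exp (-(c * s))) := by
    intro s hs
    have hs' : (0 : ℝ) < s := hs
    rw [← ENNReal.ofReal_mul (by positivity)]
    congr 1
    ring
  rw [setLIntegral_congr_fun measurableSet_Ioi h3, lintegral_const_mul' _ _ ENNReal.ofReal_ne_top,
    ← ofReal_integral_eq_lintegral_ofReal hI, hV, ← ENNReal.ofReal_mul (by positivity)]
  · have : c ^ (l + 1) / (l.factorial : ℝ) * ((l.factorial : ℝ) / c ^ (l + 1)) = 1 := by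
      have : (l.factorial : ℝ) ≠ 0 := by positivity
      field_simp
    rw [this, ENNReal.ofReal_one]
  · refine (ae_restrict_iff' measurableSet_Ioi).2 (Filter.Eventually.of_forall fun s hs => ?_)
    have hs' : (0 : ℝ) < s := hs
    simp only [Pi.zero_apply]
    positivity

theorem PL2_all {c : ℝ} (hc : 1 < c) (l : ℕ) : PL2 c l 29 := by
  intro a b r ha hb hr
  have hc0 : 0 < c := by linarith
  set K := ENNReal.ofReal ((29 : ℝ) ^ (-(3 / 2) : ℝ) * (a * b * (Real.sqrt a - Real.sqrt b) ^ 2)) with hK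
  rw [plc_Y2' hc0 ha l, plc_Y2' hc0 hb l]
  set γ : ℝ → ℝ≥0∞ := fun s =>
    ENNReal.ofReal (c ^ (l + 1) * s ^ l * Real.exp (-(c * s)) / (l.factorial : ℝ)) with hγ
  have hγm : Measurable γ := by rw [hγ]; fun_prop
  have hKe : K = ∫⁻ s in Ioi (0 : ℝ), K * γ s := by
    rw [lintegral_const_mul _ hγm, plc_gamma hc0 l, mul_one]
  have hA : Measurable (fun s => γ s * plcZl a r s) := hγm.mul (plcZl_meas a r)
  have hB : Measurable (fun s => γ s * plcZl b r s) := hγm.mul (plcZl_meas b r)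
  rw [hKe, ← lintegral_const_mul _ hA, ← lintegral_const_mul _ hB, ← lintegral_const_mul _ hA,
    ← lintegral_const_mul _ hB, ← lintegral_add_left (hB.const_mul _),
    ← lintegral_add_left (hA.const_mul _),
    ← lintegral_add_right _ (hγm.const_mul K)]
  refine setLIntegral_mono' measurableSet_Ioi fun s hs => ?_
  have hs' : (0 : ℝ) < s := hs
  have h := plc_add ha hb (plc_Z_nonneg (m := a) (r := r) hs'.le) (plc_Z_nonneg (m := b) (r := r) hs'.le)
    (by positivity) (Zs_bound hs'.le ha hb hr)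
  rw [← plcZl_eq' hs'.le ha hr, ← plcZl_eq' hs'.le hb hr] at h
  calc ENNReal.ofReal a * (γ s * plcZl b r s) + ENNReal.ofReal b * (γ s * plcZl a r s)
      = γ s * (ENNReal.ofReal a * plcZl b r s + ENNReal.ofReal b * plcZl a r s) := by ring
    _ ≤ γ s * (ENNReal.ofReal a * plcZl a r s + ENNReal.ofReal b * plcZl b r s + K) := by
        gcongr
    _ = ENNReal.ofReal a * (γ s * plcZl a r s) + ENNReal.ofReal b * (γ s * plcZl b r s) + K * γ s := by
        ring

end Pool.Agent.H75.LO
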