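import Pool.Agent.H75.LO.Int2
import Pool.Agent.H75.LO.Psd2
import Pool.Agent.H75.LO.Sq
import Pool.Agent.H75.LO.PLc

/-!
# LO2-FinB2: the inequality for point processes, bounded part of the density, improved constant

As in FinB.lean: `v x = 29 (ρ x)^{2/3}` on `E`, `0` off `E`, `c = 64`, `Λ = 64 · 29 (|B|+1)^{2/3}` (so `Pot2 Λ 64 v`), `k = 244 = 2·122`.
`∬_{E×E} ρρ G0 = Σ_{j<k} ∬ Rj_c ρρ + ∬ TK k ρρ + ∬_{E×E} ρρ SK k` (`Ch_decomp`); `SK k` is a sum of two integrals of squares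
(`SK_eq`); apply `psd_process` to both (with `1_E Phi1`, `1_E Phi2`) and add:
`∬_{E×E} ρρ SK k ≤ E Σ_{i,j} 1_E(X_i)1_E(X_j) SK k (X_i,X_j) ≤ E Σ_{i≠j} G0(X_i,X_j) + ∫_E ρ(x) SK k (x,x) dx` (`SK_le`, `hd`).
`integ2` with `y = 29` (`PL_zero29`, `PL2_all`) bounds the rest. Multiply by `2π`: `2π G0 x y = (ofReal ‖x-y‖)⁻¹` (`G0_eq`).
-/

open MeasureTheory Set
open scoped ENNReal

namespace Pool.Agent.H75.LO

/-! ### weighted double integrals of kernels -/

/-- the double integral of a kernel with a weight -/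
noncomputable def fb2I (w : E3 → ℝ≥0∞) (K : Ker) : ℝ≥0∞ := ∫⁻ x, ∫⁻ y, K x y * (w x * w y)

theorem fb2I_meas {w : E3 → ℝ≥0∞} (hw : Measurable w) {A : Ker} (hA : MKer A) :
    Measurable (fun p : E3 × E3 => A p.1 p.2 * (w p.1 * w p.2)) :=
  Measurable.mul hA ((hw.comp measurable_fst).mul (hw.comp measurable_snd))

theorem fb2I_add {w : E3 → ℝ≥0∞} (hw : Measurable w) {A B : Ker} (hA : MKer A) :
    fb2I w (fun x y => A x y + B x y) = fb2I w A + fb2I w B := by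
  unfold fb2I
  have hm := fb2I_meas hw hA
  rw [← lintegral_add_left (Measurable.lintegral_prod_right' hm)]
  refine lintegral_congr fun x => ?_
  have hmx : Measurable (fun y => A x y * (w x * w y)) :=
    Measurable.comp (g := fun p : E3 × E3 => A p.1 p.2 * (w p.1 * w p.2)) hm
      measurable_prodMk_left
  rw [← lintegral_add_left hmx]
  refine lintegral_congr fun y => ?_
  rw [add_mul]

theorem fb2_sum_meas {A : ℕ → Ker} (hA : ∀ j, MKer (A j)) (k : ℕ) :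
    MKer (fun x y => ∑ j ∈ Finset.range k, A j x y) := by
  unfold MKer
  exact Finset.measurable_sum _ (fun j _ => hA j)

theorem fb2I_sum {w : E3 → ℝ≥0∞} (hw : Measurable w) {A : ℕ → Ker} (hA : ∀ j, MKer (A j))
    (k : ℕ) :
    fb2I w (fun x y => ∑ j ∈ Finset.range k, A j x y)
      = ∑ j ∈ Finset.range k, fb2I w (A j) := by
  induction k with
  | zero => simp [fb2I]
  | succ k ih =>
    rw [Finset.sum_range_succ, ← ih, ← fb2I_add hw (fb2_sum_meas hA k)]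
    congr 1
    funext x y
    rw [Finset.sum_range_succ]

theorem fb2I_congr {w : E3 → ℝ≥0∞} {A B : Ker} (h : ∀ x y, A x y = B x y) :
    fb2I w A = fb2I w B := by
  have : A = B := by
    funext x y
    exact h x y
  rw [this]

/-! ### the positive definite part -/

/-- indicator function with values in `[0,∞]` -/
noncomputable def fb2u (E : Set E3) : E3 → ℝ≥0∞ := E.indicator (fun _ => 1)

theorem fb2u_le (E : Set E3) (x : E3) : fb2u E x ≤ 1 := by
  unfold fb2u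
  by_cases h : x ∈ E <;> simp [h]

theorem fb2u_meas {E : Set E3} (hE : MeasurableSet E) : Measurable (fb2u E) :=
  measurable_const.indicator hE

theorem fb2u_mul (E : Set E3) (ρ : E3 → ℝ≥0∞) (x : E3) :
    E.indicator ρ x = fb2u E x * ρ x := by
  unfold fb2u
  by_cases h : x ∈ E <;> simp [h]

theorem fb2_psd {Ω T : Type*} [MeasurableSpace Ω] [MeasurableSpace T]
    (P : Measure Ω) [IsProbabilityMeasure P] (τ : Measure T) [SFinite τ]
    {N : ℕ} (X : Fin N → Ω → E3) (hX : ∀ i, Measurable (X i))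
    {ρ : E3 → ℝ≥0∞} (hρ : Measurable ρ)
    (hd : ∀ f : E3 → ℝ≥0∞, Measurable f → ∑ i, ∫⁻ ω, f (X i ω) ∂P = ∫⁻ x, f x * ρ x)
    {E : Set E3} (hE : MeasurableSet E)
    {Φ : T → E3 → ℝ≥0∞} (hΦ : Measurable (fun s : T × E3 => Φ s.1 s.2)) :
    fb2I (E.indicator ρ) (fun x y => ∫⁻ t, Φ t x * Φ t y ∂τ)
      ≤ ∫⁻ ω, ∑ i, ∑ j, fb2u E (X i ω) * fb2u E (X j ω)
          * ∫⁻ t, Φ t (X i ω) * Φ t (X j ω) ∂τ ∂P := by
  have hΦ' : Measurable (fun s : T × E3 => (fun t x => fb2u E x * Φ t x) s.1 s.2) :=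
    ((fb2u_meas hE).comp measurable_snd).mul hΦ
  have key : ∀ x y : E3, ∫⁻ t, (fb2u E x * Φ t x) * (fb2u E y * Φ t y) ∂τ
      = fb2u E x * fb2u E y * ∫⁻ t, Φ t x * Φ t y ∂τ := by
    intro x y
    rw [← lintegral_const_mul']
    · refine lintegral_congr fun t => ?_
      ring
    · exact ENNReal.mul_ne_top (ne_top_of_le_ne_top ENNReal.one_ne_top (fb2u_le E x))
        (ne_top_of_le_ne_top ENNReal.one_ne_top (fb2u_le E y))
  have h := psd_process P τ X hX hρ hd (Φ := fun t x => fb2u E x * Φ t x) hΦ'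
  simp only [key] at h
  refine le_trans (le_of_eq ?_) h
  unfold fb2I
  refine lintegral_congr fun x => lintegral_congr fun y => ?_
  rw [fb2u_mul, fb2u_mul]
  ring

/-! ### the Coulomb kernel -/

theorem fb2_G0 (x y : E3) :
    (ENNReal.ofReal ‖x - y‖)⁻¹ = ENNReal.ofReal (2 * Real.pi) * G0 x y := by
  have hpi : (0 : ℝ) < 2 * Real.pi := by positivity
  have h0 : ENNReal.ofReal (2 * Real.pi) ≠ 0 := by
    rw [Ne, ENNReal.ofReal_eq_zero, not_le]
    exact hpi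
  rw [G0_eq, ENNReal.ofReal_mul hpi.le, ENNReal.mul_inv (Or.inl h0) (Or.inl ENNReal.ofReal_ne_top),
    ← mul_assoc, ENNReal.mul_inv_cancel h0 ENNReal.ofReal_ne_top, one_mul]

/-! ### the potential -/

/-- the potential -/
noncomputable def fb2v (ρ : E3 → ℝ≥0∞) (E : Set E3) : E3 → ℝ :=
  E.indicator (fun x => 29 * (ρ x).toReal ^ (2 / 3 : ℝ))

theorem fb2v_meas {ρ : E3 → ℝ≥0∞} (hρ : Measurable ρ) {E : Set E3} (hE : MeasurableSet E) :
    Measurable (fb2v ρ E) :=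
  ((hρ.ennreal_toReal.pow_const _).const_mul _).indicator hE

theorem fb2v_nonneg (ρ : E3 → ℝ≥0∞) (E : Set E3) (x : E3) : 0 ≤ fb2v ρ E x := by
  unfold fb2v
  by_cases h : x ∈ E
  · simp only [h, indicator_of_mem]
    positivity
  · simp [h]

theorem fb2v_le {ρ : E3 → ℝ≥0∞} {E : Set E3} {B : ℝ} (hB : ∀ x ∈ E, ρ x ≤ ENNReal.ofReal B)
    (x : E3) : fb2v ρ E x ≤ 29 * (|B| + 1) ^ (2 / 3 : ℝ) := by
  unfold fb2v
  by_cases h : x ∈ E
  · simp only [h, indicator_of_mem]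
    have h1 : (ρ x).toReal ≤ |B| + 1 := by
      have h2 : (ρ x).toReal ≤ (ENNReal.ofReal B).toReal :=
        ENNReal.toReal_mono ENNReal.ofReal_ne_top (hB x h)
      have h3 : (ENNReal.ofReal B).toReal ≤ |B| := by
        rw [ENNReal.toReal_ofReal']
        exact max_le (le_abs_self B) (abs_nonneg B)
      linarith
    exact mul_le_mul_of_nonneg_left (Real.rpow_le_rpow ENNReal.toReal_nonneg h1 (by norm_num))
      (by norm_num)
  · simp only [h, not_false_eq_true, indicator_of_notMem]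
    positivity

theorem fb2v_pot {ρ : E3 → ℝ≥0∞} (hρ : Measurable ρ) {E : Set E3} (hE : MeasurableSet E)
    {B : ℝ} (hB : ∀ x ∈ E, ρ x ≤ ENNReal.ofReal B) :
    Pot2 (64 * (29 * (|B| + 1) ^ (2 / 3 : ℝ))) 64 (fb2v ρ E) := by
  have hpos : 0 < 29 * (|B| + 1) ^ (2 / 3 : ℝ) := by positivity
  refine ⟨by norm_num, ⟨by positivity, fb2v_meas hρ hE, fb2v_nonneg ρ E, fun z => ?_⟩,
    ⟨by positivity, ?_, fun z => ?_, fun z => ?_⟩⟩
  · have := fb2v_le hB z
    linarith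
  · unfold scaleV
    exact (fb2v_meas hρ hE).const_mul _
  · exact mul_nonneg (by norm_num) (fb2v_nonneg ρ E z)
  · exact mul_le_mul_of_nonneg_left (fb2v_le hB z) (by norm_num)

theorem fb2v_rho {ρ : E3 → ℝ≥0∞} {E : Set E3} {B : ℝ} (hB : ∀ x ∈ E, ρ x ≤ ENNReal.ofReal B)
    (x : E3) : ENNReal.ofReal ((fb2v ρ E x / 29) ^ (3 / 2 : ℝ)) = E.indicator ρ x := by
  unfold fb2v
  by_cases h : x ∈ E
  · simp only [h, indicator_of_mem]
    have hne : ρ x ≠ ∞ := ne_top_of_le_ne_top ENNReal.ofReal_ne_top (hB x h)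
    have h1 : 29 * (ρ x).toReal ^ (2 / 3 : ℝ) / 29 = (ρ x).toReal ^ (2 / 3 : ℝ) := by ring
    rw [h1, ← Real.rpow_mul ENNReal.toReal_nonneg]
    have h2 : (2 / 3 : ℝ) * (3 / 2) = 1 := by norm_num
    rw [h2, Real.rpow_one, ENNReal.ofReal_toReal hne]
  · simp only [h, not_false_eq_true, indicator_of_notMem, zero_div]
    rw [Real.zero_rpow (by norm_num), ENNReal.ofReal_zero]

theorem fb2v_sq {ρ : E3 → ℝ≥0∞} {E : Set E3} {B : ℝ} (hB : ∀ x ∈ E, ρ x ≤ ENNReal.ofReal B)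
    (x : E3) : ENNReal.ofReal (fb2v ρ E x ^ 2)
      = ENNReal.ofReal (29 ^ 2) * E.indicator (fun x => ρ x ^ (4 / 3 : ℝ)) x := by
  unfold fb2v
  by_cases h : x ∈ E
  · simp only [h, indicator_of_mem]
    have hne : ρ x ≠ ∞ := ne_top_of_le_ne_top ENNReal.ofReal_ne_top (hB x h)
    have h1 : (29 * (ρ x).toReal ^ (2 / 3 : ℝ)) ^ 2 = 29 ^ 2 * (ρ x).toReal ^ (4 / 3 : ℝ) := by
      rw [mul_pow, ← Real.rpow_natCast ((ρ x).toReal ^ (2 / 3 : ℝ)) 2,
        ← Real.rpow_mul ENNReal.toReal_nonneg]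
      norm_num
    rw [h1, ENNReal.ofReal_mul (by norm_num),
      ← ENNReal.ofReal_rpow_of_nonneg ENNReal.toReal_nonneg (by norm_num),
      ENNReal.ofReal_toReal hne]
  · simp [h]

theorem fb2v_int {ρ : E3 → ℝ≥0∞} {E : Set E3} (hE : MeasurableSet E)
    {B : ℝ} (hB : ∀ x ∈ E, ρ x ≤ ENNReal.ofReal B) :
    ∫⁻ x, ENNReal.ofReal (fb2v ρ E x ^ 2)
      = ENNReal.ofReal (29 ^ 2) * ∫⁻ x in E, ρ x ^ (4 / 3 : ℝ) := by
  rw [← lintegral_indicator hE, ← lintegral_const_mul' _ _ ENNReal.ofReal_ne_top]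
  exact lintegral_congr fun x => fb2v_sq hB x

/-! ### the three parts of the proof -/

theorem fb2_dec {Λ c : ℝ} {v : E3 → ℝ} (h : Pot2 Λ c v) {w : E3 → ℝ≥0∞} (hw : Measurable w)
    (k : ℕ) :
    fb2I w G0 = ∑ j ∈ Finset.range k, fb2I w (Rj Λ (scaleV c v) j) + fb2I w (TK Λ c v k)
      + fb2I w (SK Λ c v k) := by
  have hR : ∀ j, MKer (Rj Λ (scaleV c v) j) := fun j => Rj_meas h.potc j
  have hT : MKer (TK Λ c v k) := TK_meas h k
  have h1 : MKer (fun x y => ∑ j ∈ Finset.range k, Rj Λ (scaleV c v) j x y) :=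
    fb2_sum_meas hR k
  have h2 : MKer (fun x y => ∑ j ∈ Finset.range k, Rj Λ (scaleV c v) j x y + TK Λ c v k x y) :=
    Measurable.add h1 hT
  rw [fb2I_congr (fun x y => Ch_decomp h k x y),
    fb2I_add (A := fun x y => ∑ j ∈ Finset.range k, Rj Λ (scaleV c v) j x y + TK Λ c v k x y)
      (B := SK Λ c v k) hw h2,
    fb2I_add (A := fun x y => ∑ j ∈ Finset.range k, Rj Λ (scaleV c v) j x y)
      (B := TK Λ c v k) hw h1, fb2I_sum hw hR]

theorem fb2_psdS {Ω : Type*} [MeasurableSpace Ω]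
    (P : Measure Ω) [IsProbabilityMeasure P] {N : ℕ} (X : Fin N → Ω → E3)
    (hX : ∀ i, Measurable (X i)) {ρ : E3 → ℝ≥0∞} (hρ : Measurable ρ)
    (hd : ∀ f : E3 → ℝ≥0∞, Measurable f → ∑ i, ∫⁻ ω, f (X i ω) ∂P = ∫⁻ x, f x * ρ x)
    {E : Set E3} (hE : MeasurableSet E) {Λ c : ℝ} {v : E3 → ℝ} (h : Pot2 Λ c v) (q : ℕ) :
    fb2I (E.indicator ρ) (SK Λ c v (2 * q))
      ≤ ∫⁻ ω, ∑ i, ∑ j, fb2u E (X i ω) * fb2u E (X j ω)
          * SK Λ c v (2 * q) (X i ω) (X j ω) ∂P := by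
  have hw : Measurable (E.indicator ρ) := hρ.indicator hE
  have h1 := fb2_psd P volume X hX hρ hd hE (Phi1_meas h q)
  have h2 := fb2_psd P ((volume.restrict (Ioi (0 : ℝ))).prod volume) X hX hρ hd hE
    (Phi2_meas h q)
  have hm : MKer (fun x y => ∫⁻ z, Phi1 Λ c v q z x * Phi1 Λ c v q z y) := by
    have ha : Measurable (fun s : (E3 × E3) × E3 => Phi1 Λ c v q s.2 s.1.1) :=
      (Phi1_meas h q).comp (measurable_snd.prodMk (measurable_fst.comp measurable_fst))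
    have hb : Measurable (fun s : (E3 × E3) × E3 => Phi1 Λ c v q s.2 s.1.2) :=
      (Phi1_meas h q).comp (measurable_snd.prodMk (measurable_snd.comp measurable_fst))
    exact Measurable.lintegral_prod_right' (ha.mul hb)
  rw [fb2I_congr (fun x y => SK_eq h q x y), fb2I_add hw hm]
  refine (add_le_add h1 h2).trans ((le_lintegral_add _ _).trans (le_of_eq ?_))
  refine lintegral_congr fun ω => ?_
  rw [← Finset.sum_add_distrib]
  refine Finset.sum_congr rfl fun i _ => ?_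
  rw [← Finset.sum_add_distrib]
  refine Finset.sum_congr rfl fun j _ => ?_
  rw [SK_eq h q, mul_add]

theorem fb2_split {Ω : Type*} [MeasurableSpace Ω]
    (P : Measure Ω) [IsProbabilityMeasure P] {N : ℕ} (X : Fin N → Ω → E3)
    (hX : ∀ i, Measurable (X i)) {ρ : E3 → ℝ≥0∞}
    (hd : ∀ f : E3 → ℝ≥0∞, Measurable f → ∑ i, ∫⁻ ω, f (X i ω) ∂P = ∫⁻ x, f x * ρ x)
    {E : Set E3} (hE : MeasurableSet E) {Λ c : ℝ} {v : E3 → ℝ} (h : Pot2 Λ c v) (k : ℕ) :
    ∫⁻ ω, ∑ i, ∑ j, fb2u E (X i ω) * fb2u E (X j ω) * SK Λ c v k (X i ω) (X j ω) ∂P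
      ≤ ∫⁻ ω, ∑ i, ∑ j ∈ Finset.univ.erase i, G0 (X i ω) (X j ω) ∂P
        + ∫⁻ x, E.indicator ρ x * SK Λ c v k x x := by
  have hdiag : Measurable (fun x => fb2u E x * SK Λ c v k x x) :=
    (fb2u_meas hE).mul (Measurable.comp (g := fun p : E3 × E3 => SK Λ c v k p.1 p.2)
      (SK_meas h k) (measurable_id.prodMk measurable_id))
  have hpt : ∀ ω, ∑ i, ∑ j, fb2u E (X i ω) * fb2u E (X j ω) * SK Λ c v k (X i ω) (X j ω)
      ≤ ∑ i, fb2u E (X i ω) * SK Λ c v k (X i ω) (X i ω)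
        + ∑ i, ∑ j ∈ Finset.univ.erase i, G0 (X i ω) (X j ω) := by
    intro ω
    rw [← Finset.sum_add_distrib]
    refine Finset.sum_le_sum fun i _ => ?_
    rw [← Finset.add_sum_erase Finset.univ _ (Finset.mem_univ i)]
    refine add_le_add ?_ (Finset.sum_le_sum fun j _ => ?_)
    · calc fb2u E (X i ω) * fb2u E (X i ω) * SK Λ c v k (X i ω) (X i ω)
          ≤ fb2u E (X i ω) * 1 * SK Λ c v k (X i ω) (X i ω) := by
            gcongr
            exact fb2u_le E _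
        _ = _ := by rw [mul_one]
    · calc fb2u E (X i ω) * fb2u E (X j ω) * SK Λ c v k (X i ω) (X j ω)
          ≤ 1 * 1 * SK Λ c v k (X i ω) (X j ω) := by
            gcongr
            · exact fb2u_le E _
            · exact fb2u_le E _
        _ = SK Λ c v k (X i ω) (X j ω) := by simp
        _ ≤ G0 (X i ω) (X j ω) := SK_le h k _ _
  refine (lintegral_mono hpt).trans ?_
  have hXi : ∀ i, Measurable (fun ω => fb2u E (X i ω) * SK Λ c v k (X i ω) (X i ω)) :=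
    fun i => hdiag.comp (hX i)
  rw [lintegral_add_left (Finset.measurable_sum _ fun i _ => hXi i), add_comm]
  refine add_le_add le_rfl (le_of_eq ?_)
  rw [lintegral_finsetSum _ (fun i _ => hXi i), hd _ hdiag]
  refine lintegral_congr fun x => ?_
  rw [fb2u_mul]
  ring

theorem bounded_case2 {Ω : Type*} [MeasurableSpace Ω]
    (P : Measure Ω) [IsProbabilityMeasure P] {N : ℕ} (X : Fin N → Ω → E3)
    (hX : ∀ i, Measurable (X i)) {ρ : E3 → ℝ≥0∞} (hρ : Measurable ρ)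
    (hd : ∀ f : E3 → ℝ≥0∞, Measurable f → ∑ i, ∫⁻ ω, f (X i ω) ∂P = ∫⁻ x, f x * ρ x)
    {E : Set E3} (hE : MeasurableSet E) {B : ℝ} (hB : ∀ x ∈ E, ρ x ≤ ENNReal.ofReal B)
    (hfin : ∫⁻ x in E, ρ x ^ (4 / 3 : ℝ) ≠ ∞) :
    ∫⁻ x in E, ∫⁻ y in E, ρ x * ρ y * (ENNReal.ofReal ‖x - y‖)⁻¹
      ≤ ∫⁻ ω, ∑ i, ∑ j ∈ Finset.univ.erase i, (ENNReal.ofReal ‖X i ω - X j ω‖)⁻¹ ∂P
        + ENNReal.ofReal (2 * Real.pi * ((244 / 64 + 1) / 29 + alpha2 64 244 * Real.sqrt 29))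
          * ∫⁻ x in E, ρ x ^ (4 / 3 : ℝ) := by
  have hP := fb2v_pot hρ hE hB
  have hwm : Measurable (E.indicator ρ) := hρ.indicator hE
  have hfin2 : ∫⁻ x, ENNReal.ofReal (fb2v ρ E x ^ 2) ≠ ∞ := by
    rw [fb2v_int hE hB]
    exact ENNReal.mul_ne_top ENNReal.ofReal_ne_top hfin
  have hint := integ2 hP (k := 244) (by norm_num) (y := 29) (by norm_num) PL_zero29
    (fun l _ => PL2_all (by norm_num) l) hfin2
  simp only [fb2v_rho hB] at hint
  rw [fb2v_int hE hB, ← mul_assoc (ENNReal.ofReal _) (ENNReal.ofReal _),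
    ← ENNReal.ofReal_mul' (by norm_num)] at hint
  have hc : ((((244 : ℕ) : ℝ) / 64 + 1) / 29 + alpha2 64 244 * Real.sqrt 29) / 29 ^ 2 * 29 ^ 2
      = (244 / 64 + 1) / 29 + alpha2 64 244 * Real.sqrt 29 := by
    rw [div_mul_cancel₀ _ (by norm_num)]
    norm_num
  rw [hc] at hint
  have hS := (fb2_psdS P X hX hρ hd hE hP 122).trans (fb2_split P X hX hd hE hP (2 * 122))
  have hdec := fb2_dec hP hwm 244
  have hmain : fb2I (E.indicator ρ) G0
      ≤ ∫⁻ ω, ∑ i, ∑ j ∈ Finset.univ.erase i, G0 (X i ω) (X j ω) ∂P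
        + ENNReal.ofReal ((244 / 64 + 1) / 29 + alpha2 64 244 * Real.sqrt 29)
          * ∫⁻ x in E, ρ x ^ (4 / 3 : ℝ) := by
    rw [hdec]
    refine (add_le_add le_rfl hS).trans ?_
    rw [add_left_comm]
    refine add_le_add le_rfl ?_
    exact hint
  have hpi : (0 : ℝ) ≤ 2 * Real.pi := by positivity
  have hL : ∫⁻ x in E, ∫⁻ y in E, ρ x * ρ y * (ENNReal.ofReal ‖x - y‖)⁻¹
      = ENNReal.ofReal (2 * Real.pi) * fb2I (E.indicator ρ) G0 := by
    unfold fb2I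
    rw [← lintegral_indicator hE, ← lintegral_const_mul' _ _ ENNReal.ofReal_ne_top]
    refine lintegral_congr fun x => ?_
    rw [← lintegral_const_mul' _ _ ENNReal.ofReal_ne_top]
    by_cases hx : x ∈ E
    · rw [indicator_of_mem hx, ← lintegral_indicator hE]
      refine lintegral_congr fun y => ?_
      by_cases hy : y ∈ E
      · rw [indicator_of_mem hy, indicator_of_mem hx, indicator_of_mem hy, fb2_G0]
        ring
      · rw [indicator_of_notMem hy, indicator_of_notMem hy]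
        simp
    · rw [indicator_of_notMem hx]
      simp [hx]
  have hR : ∫⁻ ω, ∑ i, ∑ j ∈ Finset.univ.erase i, (ENNReal.ofReal ‖X i ω - X j ω‖)⁻¹ ∂P
      = ENNReal.ofReal (2 * Real.pi)
        * ∫⁻ ω, ∑ i, ∑ j ∈ Finset.univ.erase i, G0 (X i ω) (X j ω) ∂P := by
    rw [← lintegral_const_mul' _ _ ENNReal.ofReal_ne_top]
    refine lintegral_congr fun ω => ?_
    rw [Finset.mul_sum]
    refine Finset.sum_congr rfl fun i _ => ?_
    rw [Finset.mul_sum]
    exact Finset.sum_congr rfl fun j _ => fb2_G0 _ _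
  rw [hL, hR, ENNReal.ofReal_mul hpi, mul_assoc (ENNReal.ofReal (2 * Real.pi)), ← mul_add]
  exact mul_le_mul_right hmain _

end Pool.Agent.H75.LO
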