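import Pool.Agent.H75.LO.FinB2
import Pool.Agent.H75.LO.FinG

/-!
# LO3-FinB3: the inequality for point processes, bounded part of the density, general parameters

Same proof as FinB2.lean with `v x = η (ρ x)^{2/3}`, general `c > 1`, `k = 2q ≥ 2`.
-/

open MeasureTheory Set
open scoped ENNReal

namespace Pool.Agent.H75.LO

/-- the potential -/
noncomputable def fb3v (η : ℝ) (ρ : E3 → ℝ≥0∞) (E : Set E3) : E3 → ℝ :=
  E.indicator (fun x => η * (ρ x).toReal ^ (2 / 3 : ℝ))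

theorem fb3v_meas {η : ℝ} {ρ : E3 → ℝ≥0∞} (hρ : Measurable ρ) {E : Set E3} (hE : MeasurableSet E) :
    Measurable (fb3v η ρ E) :=
  ((hρ.ennreal_toReal.pow_const _).const_mul _).indicator hE

theorem fb3v_nonneg {η : ℝ} (hη : 0 < η) (ρ : E3 → ℝ≥0∞) (E : Set E3) (x : E3) :
    0 ≤ fb3v η ρ E x := by
  unfold fb3v
  by_cases h : x ∈ E
  · simp only [h, indicator_of_mem]
    positivity
  · simp [h]

theorem fb3v_le {η : ℝ} (hη : 0 < η) {ρ : E3 → ℝ≥0∞} {E : Set E3} {B : ℝ}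
    (hB : ∀ x ∈ E, ρ x ≤ ENNReal.ofReal B)
    (x : E3) : fb3v η ρ E x ≤ η * (|B| + 1) ^ (2 / 3 : ℝ) := by
  unfold fb3v
  by_cases h : x ∈ E
  · simp only [h, indicator_of_mem]
    have h1 : (ρ x).toReal ≤ |B| + 1 := by
      have h2 : (ρ x).toReal ≤ (ENNReal.ofReal B).toReal :=
        ENNReal.toReal_mono ENNReal.ofReal_ne_top (hB x h)
      have h3 : (ENNReal.ofReal B).toReal ≤ |B| := by
        rw [ENNReal.toReal_ofReal']
        exact max_le (le_abs_self B) (abs_nonneg B)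
      linarith
    exact mul_le_mul_of_nonneg_left (Real.rpow_le_rpow ENNReal.toReal_nonneg h1 (by norm_num))
      hη.le
  · simp only [h, not_false_eq_true, indicator_of_notMem]
    positivity

theorem fb3v_pot {c η : ℝ} (hc : 1 < c) (hη : 0 < η) {ρ : E3 → ℝ≥0∞} (hρ : Measurable ρ)
    {E : Set E3} (hE : MeasurableSet E)
    {B : ℝ} (hB : ∀ x ∈ E, ρ x ≤ ENNReal.ofReal B) :
    Pot2 (c * (η * (|B| + 1) ^ (2 / 3 : ℝ))) c (fb3v η ρ E) := by
  have hc0 : 0 < c := by linarith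
  have hpos : 0 < η * (|B| + 1) ^ (2 / 3 : ℝ) := by positivity
  refine ⟨hc, ⟨by positivity, fb3v_meas hρ hE, fb3v_nonneg hη ρ E, fun z => ?_⟩,
    ⟨by positivity, ?_, fun z => ?_, fun z => ?_⟩⟩
  · have := fb3v_le hη hB z
    nlinarith
  · unfold scaleV
    exact (fb3v_meas hρ hE).const_mul _
  · exact mul_nonneg hc0.le (fb3v_nonneg hη ρ E z)
  · exact mul_le_mul_of_nonneg_left (fb3v_le hη hB z) hc0.le

theorem fb3v_rho {η : ℝ} (hη : 0 < η) {ρ : E3 → ℝ≥0∞} {E : Set E3} {B : ℝ}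
    (hB : ∀ x ∈ E, ρ x ≤ ENNReal.ofReal B)
    (x : E3) : ENNReal.ofReal ((fb3v η ρ E x / η) ^ (3 / 2 : ℝ)) = E.indicator ρ x := by
  unfold fb3v
  by_cases h : x ∈ E
  · simp only [h, indicator_of_mem]
    have hne : ρ x ≠ ∞ := ne_top_of_le_ne_top ENNReal.ofReal_ne_top (hB x h)
    have h1 : η * (ρ x).toReal ^ (2 / 3 : ℝ) / η = (ρ x).toReal ^ (2 / 3 : ℝ) := by
      field_simp
    rw [h1, ← Real.rpow_mul ENNReal.toReal_nonneg]
    have h2 : (2 / 3 : ℝ) * (3 / 2) = 1 := by norm_num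
    rw [h2, Real.rpow_one, ENNReal.ofReal_toReal hne]
  · simp only [h, not_false_eq_true, indicator_of_notMem, zero_div]
    rw [Real.zero_rpow (by norm_num), ENNReal.ofReal_zero]

theorem fb3v_sq {η : ℝ} {ρ : E3 → ℝ≥0∞} {E : Set E3} {B : ℝ}
    (hB : ∀ x ∈ E, ρ x ≤ ENNReal.ofReal B)
    (x : E3) : ENNReal.ofReal (fb3v η ρ E x ^ 2)
      = ENNReal.ofReal (η ^ 2) * E.indicator (fun x => ρ x ^ (4 / 3 : ℝ)) x := by
  unfold fb3v
  by_cases h : x ∈ E
  · simp only [h, indicator_of_mem]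
    have hne : ρ x ≠ ∞ := ne_top_of_le_ne_top ENNReal.ofReal_ne_top (hB x h)
    have h1 : (η * (ρ x).toReal ^ (2 / 3 : ℝ)) ^ 2 = η ^ 2 * (ρ x).toReal ^ (4 / 3 : ℝ) := by
      rw [mul_pow, ← Real.rpow_natCast ((ρ x).toReal ^ (2 / 3 : ℝ)) 2,
        ← Real.rpow_mul ENNReal.toReal_nonneg]
      norm_num
    rw [h1, ENNReal.ofReal_mul (by positivity),
      ← ENNReal.ofReal_rpow_of_nonneg ENNReal.toReal_nonneg (by norm_num),
      ENNReal.ofReal_toReal hne]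
  · simp [h]

theorem fb3v_int {η : ℝ} {ρ : E3 → ℝ≥0∞} {E : Set E3} (hE : MeasurableSet E)
    {B : ℝ} (hB : ∀ x ∈ E, ρ x ≤ ENNReal.ofReal B) :
    ∫⁻ x, ENNReal.ofReal (fb3v η ρ E x ^ 2)
      = ENNReal.ofReal (η ^ 2) * ∫⁻ x in E, ρ x ^ (4 / 3 : ℝ) := by
  rw [← lintegral_indicator hE, ← lintegral_const_mul' _ _ ENNReal.ofReal_ne_top]
  exact lintegral_congr fun x => fb3v_sq hB x

theorem bounded_gen {c η : ℝ} (hc : 1 < c) (hη : 0 < η) {q : ℕ} (hq : 1 ≤ q)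
    (hP0 : PL 0 η) (hPL : ∀ l, PL2 c l η) :
    BoundedLO (2 * Real.pi * ((((2 * q : ℕ) : ℝ) / c + 1) / η + alpha2 c (2 * q) * Real.sqrt η)) := by
  intro Ω _ P _ N X hX ρ hρ hd E hE B hB hfin
  have hP := fb3v_pot hc hη hρ hE hB
  have hwm : Measurable (E.indicator ρ) := hρ.indicator hE
  have hfin2 : ∫⁻ x, ENNReal.ofReal (fb3v η ρ E x ^ 2) ≠ ∞ := by
    rw [fb3v_int hE hB]
    exact ENNReal.mul_ne_top ENNReal.ofReal_ne_top hfin
  have hint := integ2 hP (k := 2 * q) (by omega) (y := η) hη hP0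
    (fun l _ => hPL l) hfin2
  simp only [fb3v_rho hη hB] at hint
  rw [fb3v_int hE hB, ← mul_assoc (ENNReal.ofReal _) (ENNReal.ofReal _),
    ← ENNReal.ofReal_mul' (by positivity)] at hint
  have hcc : ((((2 * q : ℕ) : ℝ) / c + 1) / η + alpha2 c (2 * q) * Real.sqrt η) / η ^ 2 * η ^ 2
      = (((2 * q : ℕ) : ℝ) / c + 1) / η + alpha2 c (2 * q) * Real.sqrt η :=
    div_mul_cancel₀ _ (by positivity)
  rw [hcc] at hint
  have hS := (fb2_psdS P X hX hρ hd hE hP q).trans (fb2_split P X hX hd hE hP (2 * q))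
  have hdec := fb2_dec hP hwm (2 * q)
  have hmain : fb2I (E.indicator ρ) G0
      ≤ ∫⁻ ω, ∑ i, ∑ j ∈ Finset.univ.erase i, G0 (X i ω) (X j ω) ∂P
        + ENNReal.ofReal ((((2 * q : ℕ) : ℝ) / c + 1) / η + alpha2 c (2 * q) * Real.sqrt η)
          * ∫⁻ x in E, ρ x ^ (4 / 3 : ℝ) := by
    rw [hdec]
    refine (add_le_add le_rfl hS).trans ?_
    rw [add_left_comm]
    refine add_le_add le_rfl ?_
    exact hint
  have hpi : (0 : ℝ) ≤ 2 * Real.pi := by positivity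
  have hL : ∫⁻ x in E, ∫⁻ y in E, ρ x * ρ y * (ENNReal.ofReal ‖x - y‖)⁻¹
      = ENNReal.ofReal (2 * Real.pi) * fb2I (E.indicator ρ) G0 := by
    unfold fb2I
    rw [← lintegral_indicator hE, ← lintegral_const_mul' _ _ ENNReal.ofReal_ne_top]
    refine lintegral_congr fun x => ?_
    rw [← lintegral_const_mul' _ _ ENNReal.ofReal_ne_top]
    by_cases hx : x ∈ E
    · rw [indicator_of_mem hx, ← lintegral_indicator hE]
      refine lintegral_congr fun y => ?_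
      by_cases hy : y ∈ E
      · rw [indicator_of_mem hy, indicator_of_mem hx, indicator_of_mem hy, fb2_G0]
        ring
      · rw [indicator_of_notMem hy, indicator_of_notMem hy]
        simp
    · rw [indicator_of_notMem hx]
      simp [hx]
  have hR : ∫⁻ ω, ∑ i, ∑ j ∈ Finset.univ.erase i, (ENNReal.ofReal ‖X i ω - X j ω‖)⁻¹ ∂P
      = ENNReal.ofReal (2 * Real.pi)
        * ∫⁻ ω, ∑ i, ∑ j ∈ Finset.univ.erase i, G0 (X i ω) (X j ω) ∂P := by
    rw [← lintegral_const_mul' _ _ ENNReal.ofReal_ne_top]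
    refine lintegral_congr fun ω => ?_
    rw [Finset.mul_sum]
    refine Finset.sum_congr rfl fun i _ => ?_
    rw [Finset.mul_sum]
    exact Finset.sum_congr rfl fun j _ => fb2_G0 _ _
  rw [hL, hR, ENNReal.ofReal_mul hpi, mul_assoc (ENNReal.ofReal (2 * Real.pi)), ← mul_add]
  exact mul_le_mul_right hmain _

end Pool.Agent.H75.LO
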