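import Pool.Agent.H75.LO.Defs2

/-!
# LO2-FinC2: the numerical value of the improved constant

`c = 64`, `k = 244`, `y = 29`: `π((244/64 + 1)/29 + alpha2 64 244 · √29) = 1.514594… ≤ 1.515`.

`alpha (i+1) = 2(2π)^{-3/2} Γ(i+1/2)/i! = alpha 1 · C(2i,i)/4^i`, `alpha 1 = 1/(√2 π)`, and by induction
`alpha2 c k = alpha 1 · (c/(c-1))^k · (1 - (1/√c) Σ_{i<k} ((c-1)/c)^i C(2i,i)/4^i)`. For `c = 64` (`√c = 8`):
`alpha2 64 244 = alpha 1 · ρ`, `ρ = (64/63)^244 (1 - (1/8) Σ_{i<244} (63/256)^i C(2i,i))` — a rational number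
(numerators and denominators of about 2000 bits), to be bounded above by exact arithmetic on `ℕ` (e.g.
accumulate `C(2i,i)` by the recursion `C(2i+2,i+1) (i+1) = 2(2i+1) C(2i,i)`; kernel arithmetic on `ℕ` is fast;
`decide`/`norm_num`/`rfl` on a recursive function). Finally
`π · alpha 1 · √29 = √(29/2) = 3.8078865…`, so the value is `π (244/64+1)/29 + √(29/2) ρ`.
-/

open MeasureTheory Set
open scoped ENNReal

namespace Pool.Agent.H75.LO

/-- the recursion for the numerators and denominators: `(N, B, P, D)` -/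
def fc2st (k : ℕ) : ℕ × ℕ × ℕ × ℕ :=
  Nat.rec (1, 1, 1, 1) (fun k t => ((64 * t.1 - 8 * (t.2.2.1 * t.2.1)) * (2 * k + 2),
    t.2.1 * (2 * k + 1), t.2.2.1 * 63, t.2.2.2 * (2 * k + 2))) k

private theorem fc2st_zero : fc2st 0 = (1, 1, 1, 1) := rfl

private theorem fc2st_succ (k : ℕ) : fc2st (k + 1) =
    ((64 * (fc2st k).1 - 8 * ((fc2st k).2.2.1 * (fc2st k).2.1)) * (2 * k + 2),
      (fc2st k).2.1 * (2 * k + 1), (fc2st k).2.2.1 * 63, (fc2st k).2.2.2 * (2 * k + 2)) := rfl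

private theorem fc2_check :
    (fc2st 244).1 * 10000 ≤ 2609 * ((fc2st 244).2.2.1 * (fc2st 244).2.2.2) := by
  decide +kernel

private theorem fc2_P (k : ℕ) : 0 < (fc2st k).2.2.1 := by
  induction k with
  | zero => rw [fc2st_zero]; norm_num
  | succ k ih => rw [fc2st_succ]; positivity

private theorem fc2_D (k : ℕ) : 0 < (fc2st k).2.2.2 := by
  induction k with
  | zero => rw [fc2st_zero]; norm_num
  | succ k ih => rw [fc2st_succ]; positivity

private theorem fc2_alpha_succ (k : ℕ) :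
    alpha (k + 2) = alpha (k + 1) * ((2 * k + 1) / (2 * k + 2)) := by
  unfold alpha
  have e1 : (((k + 2 : ℕ) : ℝ) - 1 / 2) = ((k : ℝ) + 1 / 2) + 1 := by push_cast; ring
  have e2 : (((k + 1 : ℕ) : ℝ) - 1 / 2) = (k : ℝ) + 1 / 2 := by push_cast; ring
  have e3 : ((k + 2 : ℕ) : ℝ) = ((k : ℝ) + 1) + 1 := by push_cast; ring
  have e4 : ((k + 1 : ℕ) : ℝ) = (k : ℝ) + 1 := by push_cast; ring
  have hk : (0 : ℝ) ≤ (k : ℝ) := Nat.cast_nonneg k
  rw [e1, e2, e3, e4, Real.Gamma_add_one (by positivity), Real.Gamma_add_one (by positivity)]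
  have hG : Real.Gamma ((k : ℝ) + 1) ≠ 0 := (Real.Gamma_pos_of_pos (by positivity)).ne'
  have h1 : (k : ℝ) + 1 ≠ 0 := by positivity
  have h2 : 2 * (k : ℝ) + 2 ≠ 0 := by positivity
  field_simp
  try ring

private theorem fc2_alpha (k : ℕ) :
    alpha (k + 1) * ((fc2st k).2.2.2 : ℝ) = alpha 1 * ((fc2st k).2.1 : ℝ) := by
  induction k with
  | zero => rw [fc2st_zero]
  | succ k ih =>
    rw [fc2_alpha_succ, fc2st_succ]
    push_cast
    have hk : (0 : ℝ) ≤ (k : ℝ) := Nat.cast_nonneg k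
    have h2 : 2 * (k : ℝ) + 2 ≠ 0 := by positivity
    calc alpha (k + 1) * ((2 * k + 1) / (2 * k + 2)) * (((fc2st k).2.2.2 : ℝ) * (2 * k + 2))
        = (alpha (k + 1) * ((fc2st k).2.2.2 : ℝ)) * (2 * k + 1) := by
          field_simp
      _ = alpha 1 * (((fc2st k).2.1 : ℝ) * (2 * k + 1)) := by rw [ih]; ring

private theorem fc2_alpha1 : 0 < alpha 1 := by
  unfold alpha
  have h1 : 0 < Real.Gamma (((1 : ℕ) : ℝ) - 1 / 2) := Real.Gamma_pos_of_pos (by norm_num)
  have h2 : 0 < Real.Gamma ((1 : ℕ) : ℝ) := Real.Gamma_pos_of_pos (by norm_num)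
  have h3 : 0 < Real.pi := Real.pi_pos
  positivity

private theorem fc2_alpha2 (k : ℕ) :
    alpha2 64 k * (((fc2st k).2.2.1 : ℝ) * ((fc2st k).2.2.2 : ℝ)) ≤
      alpha 1 * ((fc2st k).1 : ℝ) := by
  induction k with
  | zero => rw [fc2st_zero]; simp [alpha2]
  | succ k ih =>
    have h8 : Real.sqrt 64 = 8 := by
      rw [show (64 : ℝ) = 8 ^ 2 by norm_num, Real.sqrt_sq (by norm_num)]
    have ha := fc2_alpha k
    have h1 := fc2_alpha1
    rw [fc2st_succ]
    unfold alpha2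
    rw [h8]
    generalize (fc2st k).1 = N at *
    generalize (fc2st k).2.1 = B at *
    generalize (fc2st k).2.2.1 = P at *
    generalize (fc2st k).2.2.2 = D at *
    generalize alpha2 64 k = x at *
    generalize alpha (k + 1) = a at *
    generalize alpha 1 = a1 at *
    have hsub : (64 * (N : ℝ) - 8 * ((P : ℝ) * (B : ℝ))) ≤
        ((64 * N - 8 * (P * B) : ℕ) : ℝ) := by
      rcases Nat.le_total (8 * (P * B)) (64 * N) with h | h
      · rw [Nat.cast_sub h]
        push_cast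
        exact le_rfl
      · rw [Nat.sub_eq_zero_of_le h]
        have : ((64 * N : ℕ) : ℝ) ≤ ((8 * (P * B) : ℕ) : ℝ) := by exact_mod_cast h
        push_cast at this ⊢
        linarith
    have hk : (0 : ℝ) ≤ (k : ℝ) := Nat.cast_nonneg k
    have hkey : (64 * x - 8 * a) * ((P : ℝ) * D) ≤ a1 * (64 * (N : ℝ) - 8 * ((P : ℝ) * B)) := by
      have e1 : (64 * x - 8 * a) * ((P : ℝ) * D) = 64 * (x * ((P : ℝ) * D)) - 8 * P * (a * D) := by
        ring
      rw [e1, ha]
      nlinarith [ih]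
    have hkey2 : (64 * x - 8 * a) * ((P : ℝ) * D) ≤
        a1 * ((64 * N - 8 * (P * B) : ℕ) : ℝ) :=
      hkey.trans (mul_le_mul_of_nonneg_left hsub h1.le)
    calc (64 * x - 8 * a) / (64 - 1) * (((P * 63 : ℕ) : ℝ) * ((D * (2 * k + 2) : ℕ) : ℝ))
        = ((64 * x - 8 * a) * ((P : ℝ) * D)) * (2 * k + 2) := by
          push_cast
          ring
      _ ≤ (a1 * ((64 * N - 8 * (P * B) : ℕ) : ℝ)) * (2 * k + 2) :=
          mul_le_mul_of_nonneg_right hkey2 (by positivity)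
      _ = a1 * (((64 * N - 8 * (P * B)) * (2 * k + 2) : ℕ) : ℝ) := by
          push_cast
          ring

theorem const_bound2 :
    2 * Real.pi * ((244 / 64 + 1) / 29 + alpha2 64 244 * Real.sqrt 29) ≤ 2 * (1515 / 1000) := by
  have h1 := fc2_alpha2 244
  have h2 : (((fc2st 244).1 * 10000 : ℕ) : ℝ) ≤
      ((2609 * ((fc2st 244).2.2.1 * (fc2st 244).2.2.2) : ℕ) : ℝ) := by
    exact_mod_cast fc2_check
  have hP : (0 : ℝ) < ((fc2st 244).2.2.1 : ℝ) := by exact_mod_cast fc2_P 244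
  have hD : (0 : ℝ) < ((fc2st 244).2.2.2 : ℝ) := by exact_mod_cast fc2_D 244
  have ha1 := fc2_alpha1
  have hal : alpha2 64 244 ≤ alpha 1 * (2609 / 10000) := by
    have hPD : (0 : ℝ) < ((fc2st 244).2.2.1 : ℝ) * ((fc2st 244).2.2.2 : ℝ) := mul_pos hP hD
    have h3 : alpha2 64 244 * (((fc2st 244).2.2.1 : ℝ) * ((fc2st 244).2.2.2 : ℝ)) ≤
        alpha 1 * (2609 / 10000) * (((fc2st 244).2.2.1 : ℝ) * ((fc2st 244).2.2.2 : ℝ)) := by
      refine h1.trans ?_
      have h4 : ((fc2st 244).1 : ℝ) ≤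
          2609 / 10000 * (((fc2st 244).2.2.1 : ℝ) * ((fc2st 244).2.2.2 : ℝ)) := by
        push_cast at h2
        linarith
      calc alpha 1 * ((fc2st 244).1 : ℝ) ≤ alpha 1 *
            (2609 / 10000 * (((fc2st 244).2.2.1 : ℝ) * ((fc2st 244).2.2.2 : ℝ))) :=
            mul_le_mul_of_nonneg_left h4 ha1.le
        _ = _ := by ring
    exact le_of_mul_le_mul_right h3 hPD
  have hpi : 0 < Real.pi := Real.pi_pos
  have hs : 0 < Real.sqrt Real.pi := Real.sqrt_pos.2 hpi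
  have hs2 : 0 < Real.sqrt 2 := Real.sqrt_pos.2 (by norm_num)
  have hA : Real.pi * alpha 1 = 1 / Real.sqrt 2 := by
    unfold alpha
    have hG1 : Real.Gamma (((1 : ℕ) : ℝ) - 1 / 2) = Real.sqrt Real.pi := by
      have e : (((1 : ℕ) : ℝ) - 1 / 2) = 1 / 2 := by norm_num
      rw [e, Real.Gamma_one_half_eq]
    have hG2 : Real.Gamma ((1 : ℕ) : ℝ) = 1 := by
      rw [Nat.cast_one, Real.Gamma_one]
    have hPP : (2 * Real.pi) ^ (-(3 / 2) : ℝ) =
        1 / (2 * Real.pi * (Real.sqrt 2 * Real.sqrt Real.pi)) := by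
      have e1 : (-(3 / 2) : ℝ) = -(1 + 1 / 2) := by norm_num
      rw [e1, Real.rpow_neg (by positivity), Real.rpow_add (by positivity), Real.rpow_one,
        ← Real.sqrt_eq_rpow, Real.sqrt_mul (by norm_num), one_div]
    rw [hG1, hG2, hPP]
    field_simp
  have h29 : Real.sqrt 29 ≤ 38079 / 10000 * Real.sqrt 2 := by
    rw [Real.sqrt_le_left (by positivity), mul_pow, Real.sq_sqrt (by norm_num)]
    norm_num
  have hpi6 := Real.pi_lt_d6
  have hs29 : 0 ≤ Real.sqrt 29 := Real.sqrt_nonneg _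
  have h5 : Real.pi * alpha2 64 244 * Real.sqrt 29 ≤ 2609 / 10000 * (38079 / 10000) := by
    calc Real.pi * alpha2 64 244 * Real.sqrt 29
        ≤ Real.pi * (alpha 1 * (2609 / 10000)) * Real.sqrt 29 := by
          refine mul_le_mul_of_nonneg_right ?_ hs29
          exact mul_le_mul_of_nonneg_left hal hpi.le
      _ = 2609 / 10000 * (Real.sqrt 29 / Real.sqrt 2) := by
          rw [show Real.pi * (alpha 1 * (2609 / 10000)) = (Real.pi * alpha 1) * (2609 / 10000) by
            ring, hA]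
          ring
      _ ≤ 2609 / 10000 * (38079 / 10000) := by
          refine mul_le_mul_of_nonneg_left ?_ (by norm_num)
          rw [div_le_iff₀ hs2]
          exact h29
  have e : 2 * Real.pi * ((244 / 64 + 1) / 29 + alpha2 64 244 * Real.sqrt 29) =
      2 * Real.pi * ((244 / 64 + 1) / 29) + 2 * (Real.pi * alpha2 64 244 * Real.sqrt 29) := by ring
  rw [e]
  have h6 : 2 * Real.pi * ((244 / 64 + 1) / 29) ≤ 2 * 3.141593 * ((244 / 64 + 1) / 29) := by
    refine mul_le_mul_of_nonneg_right ?_ (by norm_num)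
    linarith
  have h7 : (2 : ℝ) * 3.141593 * ((244 / 64 + 1) / 29) + 2 * (2609 / 10000 * (38079 / 10000)) ≤
      2 * (1515 / 1000) := by norm_num
  linarith

end Pool.Agent.H75.LO
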