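import Pool.Agent.H75.LO.Defs2

/-!
# LO3-FinC3: the numerical value of the second improved constant

`c = 256`, `k = 1216`, `y = 35`: `π((1216/256 + 1)/35 + alpha2 256 1216 · √35) = 1.5098523… ≤ 1.51`. Same as FinC2.lean (proved, with
`c = 64`, `k = 244`, `y = 29`): `alpha2 256 1216 = alpha 1 · ρ`, `ρ = (256/255)^1216 (1 - (1/16) Σ_{i<1216} (255/1024)^i C(2i,i)) = 0.23754773…`,
numbers of about 22000 bits; `π · alpha 1 · √35 = √(35/2) = 4.1833001…`, `π(1216/256+1)/35 = 0.5161178…`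
(so `ρ ≤ 0.23757` is enough: `0.5161179 + 4.1833002·0.23757 = 1.509945…`).
-/

open MeasureTheory Set
open scoped ENNReal

namespace Pool.Agent.H75.LO

/-- the recursion for the numerators and denominators: `(N, B, P, D)` -/
def fc3st (k : ℕ) : ℕ × ℕ × ℕ × ℕ :=
  Nat.rec (1, 1, 1, 1) (fun k t => ((256 * t.1 - 16 * (t.2.2.1 * t.2.1)) * (2 * k + 2),
    t.2.1 * (2 * k + 1), t.2.2.1 * 255, t.2.2.2 * (2 * k + 2))) k

private theorem fc3st_zero : fc3st 0 = (1, 1, 1, 1) := rfl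

private theorem fc3st_succ (k : ℕ) : fc3st (k + 1) =
    ((256 * (fc3st k).1 - 16 * ((fc3st k).2.2.1 * (fc3st k).2.1)) * (2 * k + 2),
      (fc3st k).2.1 * (2 * k + 1), (fc3st k).2.2.1 * 255, (fc3st k).2.2.2 * (2 * k + 2)) := rfl

private theorem fc3_check :
    (fc3st 1216).1 * 100000 ≤ 23757 * ((fc3st 1216).2.2.1 * (fc3st 1216).2.2.2) := by
  decide +kernel

private theorem fc3_P (k : ℕ) : 0 < (fc3st k).2.2.1 := by
  induction k with
  | zero => rw [fc3st_zero]; norm_num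
  | succ k ih => rw [fc3st_succ]; positivity

private theorem fc3_D (k : ℕ) : 0 < (fc3st k).2.2.2 := by
  induction k with
  | zero => rw [fc3st_zero]; norm_num
  | succ k ih => rw [fc3st_succ]; positivity

private theorem fc3_alpha_succ (k : ℕ) :
    alpha (k + 2) = alpha (k + 1) * ((2 * k + 1) / (2 * k + 2)) := by
  unfold alpha
  have e1 : (((k + 2 : ℕ) : ℝ) - 1 / 2) = ((k : ℝ) + 1 / 2) + 1 := by push_cast; ring
  have e2 : (((k + 1 : ℕ) : ℝ) - 1 / 2) = (k : ℝ) + 1 / 2 := by push_cast; ring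
  have e3 : ((k + 2 : ℕ) : ℝ) = ((k : ℝ) + 1) + 1 := by push_cast; ring
  have e4 : ((k + 1 : ℕ) : ℝ) = (k : ℝ) + 1 := by push_cast; ring
  have hk : (0 : ℝ) ≤ (k : ℝ) := Nat.cast_nonneg k
  rw [e1, e2, e3, e4, Real.Gamma_add_one (by positivity), Real.Gamma_add_one (by positivity)]
  have hG : Real.Gamma ((k : ℝ) + 1) ≠ 0 := (Real.Gamma_pos_of_pos (by positivity)).ne'
  have h1 : (k : ℝ) + 1 ≠ 0 := by positivity
  have h2 : 2 * (k : ℝ) + 2 ≠ 0 := by positivity
  field_simp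
  try ring

private theorem fc3_alpha (k : ℕ) :
    alpha (k + 1) * ((fc3st k).2.2.2 : ℝ) = alpha 1 * ((fc3st k).2.1 : ℝ) := by
  induction k with
  | zero => rw [fc3st_zero]
  | succ k ih =>
    rw [fc3_alpha_succ, fc3st_succ]
    push_cast
    have hk : (0 : ℝ) ≤ (k : ℝ) := Nat.cast_nonneg k
    have h2 : 2 * (k : ℝ) + 2 ≠ 0 := by positivity
    calc alpha (k + 1) * ((2 * k + 1) / (2 * k + 2)) * (((fc3st k).2.2.2 : ℝ) * (2 * k + 2))
        = (alpha (k + 1) * ((fc3st k).2.2.2 : ℝ)) * (2 * k + 1) := by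
          field_simp
      _ = alpha 1 * (((fc3st k).2.1 : ℝ) * (2 * k + 1)) := by rw [ih]; ring

private theorem fc3_alpha1 : 0 < alpha 1 := by
  unfold alpha
  have h1 : 0 < Real.Gamma (((1 : ℕ) : ℝ) - 1 / 2) := Real.Gamma_pos_of_pos (by norm_num)
  have h2 : 0 < Real.Gamma ((1 : ℕ) : ℝ) := Real.Gamma_pos_of_pos (by norm_num)
  have h3 : 0 < Real.pi := Real.pi_pos
  positivity

private theorem fc3_alpha2 (k : ℕ) :
    alpha2 256 k * (((fc3st k).2.2.1 : ℝ) * ((fc3st k).2.2.2 : ℝ)) ≤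
      alpha 1 * ((fc3st k).1 : ℝ) := by
  induction k with
  | zero => rw [fc3st_zero]; simp [alpha2]
  | succ k ih =>
    have h8 : Real.sqrt 256 = 16 := by
      rw [show (256 : ℝ) = 16 ^ 2 by norm_num, Real.sqrt_sq (by norm_num)]
    have ha := fc3_alpha k
    have h1 := fc3_alpha1
    rw [fc3st_succ]
    unfold alpha2
    rw [h8]
    generalize (fc3st k).1 = N at *
    generalize (fc3st k).2.1 = B at *
    generalize (fc3st k).2.2.1 = P at *
    generalize (fc3st k).2.2.2 = D at *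
    generalize alpha2 256 k = x at *
    generalize alpha (k + 1) = a at *
    generalize alpha 1 = a1 at *
    have hsub : (256 * (N : ℝ) - 16 * ((P : ℝ) * (B : ℝ))) ≤
        ((256 * N - 16 * (P * B) : ℕ) : ℝ) := by
      rcases Nat.le_total (16 * (P * B)) (256 * N) with h | h
      · rw [Nat.cast_sub h]
        push_cast
        exact le_rfl
      · rw [Nat.sub_eq_zero_of_le h]
        have : ((256 * N : ℕ) : ℝ) ≤ ((16 * (P * B) : ℕ) : ℝ) := by exact_mod_cast h
        push_cast at this ⊢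
        linarith
    have hk : (0 : ℝ) ≤ (k : ℝ) := Nat.cast_nonneg k
    have hkey : (256 * x - 16 * a) * ((P : ℝ) * D) ≤ a1 * (256 * (N : ℝ) - 16 * ((P : ℝ) * B)) := by
      have e1 : (256 * x - 16 * a) * ((P : ℝ) * D) = 256 * (x * ((P : ℝ) * D)) - 16 * P * (a * D) := by
        ring
      rw [e1, ha]
      nlinarith [ih]
    have hkey2 : (256 * x - 16 * a) * ((P : ℝ) * D) ≤
        a1 * ((256 * N - 16 * (P * B) : ℕ) : ℝ) :=
      hkey.trans (mul_le_mul_of_nonneg_left hsub h1.le)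
    calc (256 * x - 16 * a) / (256 - 1) * (((P * 255 : ℕ) : ℝ) * ((D * (2 * k + 2) : ℕ) : ℝ))
        = ((256 * x - 16 * a) * ((P : ℝ) * D)) * (2 * k + 2) := by
          push_cast
          ring
      _ ≤ (a1 * ((256 * N - 16 * (P * B) : ℕ) : ℝ)) * (2 * k + 2) :=
          mul_le_mul_of_nonneg_right hkey2 (by positivity)
      _ = a1 * (((256 * N - 16 * (P * B)) * (2 * k + 2) : ℕ) : ℝ) := by
          push_cast
          ring

theorem const_bound3 :
    2 * Real.pi * ((1216 / 256 + 1) / 35 + alpha2 256 1216 * Real.sqrt 35) ≤ 2 * (151 / 100) := by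
  have h1 := fc3_alpha2 1216
  have h2 : (((fc3st 1216).1 * 100000 : ℕ) : ℝ) ≤
      ((23757 * ((fc3st 1216).2.2.1 * (fc3st 1216).2.2.2) : ℕ) : ℝ) := by
    exact_mod_cast fc3_check
  have hP : (0 : ℝ) < ((fc3st 1216).2.2.1 : ℝ) := by exact_mod_cast fc3_P 1216
  have hD : (0 : ℝ) < ((fc3st 1216).2.2.2 : ℝ) := by exact_mod_cast fc3_D 1216
  have ha1 := fc3_alpha1
  have hal : alpha2 256 1216 ≤ alpha 1 * (23757 / 100000) := by
    have hPD : (0 : ℝ) < ((fc3st 1216).2.2.1 : ℝ) * ((fc3st 1216).2.2.2 : ℝ) := mul_pos hP hD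
    have h3 : alpha2 256 1216 * (((fc3st 1216).2.2.1 : ℝ) * ((fc3st 1216).2.2.2 : ℝ)) ≤
        alpha 1 * (23757 / 100000) * (((fc3st 1216).2.2.1 : ℝ) * ((fc3st 1216).2.2.2 : ℝ)) := by
      refine h1.trans ?_
      have h4 : ((fc3st 1216).1 : ℝ) ≤
          23757 / 100000 * (((fc3st 1216).2.2.1 : ℝ) * ((fc3st 1216).2.2.2 : ℝ)) := by
        push_cast at h2
        linarith
      calc alpha 1 * ((fc3st 1216).1 : ℝ) ≤ alpha 1 *
            (23757 / 100000 * (((fc3st 1216).2.2.1 : ℝ) * ((fc3st 1216).2.2.2 : ℝ))) :=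
            mul_le_mul_of_nonneg_left h4 ha1.le
        _ = _ := by ring
    exact le_of_mul_le_mul_right h3 hPD
  have hpi : 0 < Real.pi := Real.pi_pos
  have hs : 0 < Real.sqrt Real.pi := Real.sqrt_pos.2 hpi
  have hs2 : 0 < Real.sqrt 2 := Real.sqrt_pos.2 (by norm_num)
  have hA : Real.pi * alpha 1 = 1 / Real.sqrt 2 := by
    unfold alpha
    have hG1 : Real.Gamma (((1 : ℕ) : ℝ) - 1 / 2) = Real.sqrt Real.pi := by
      have e : (((1 : ℕ) : ℝ) - 1 / 2) = 1 / 2 := by norm_num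
      rw [e, Real.Gamma_one_half_eq]
    have hG2 : Real.Gamma ((1 : ℕ) : ℝ) = 1 := by
      rw [Nat.cast_one, Real.Gamma_one]
    have hPP : (2 * Real.pi) ^ (-(3 / 2) : ℝ) =
        1 / (2 * Real.pi * (Real.sqrt 2 * Real.sqrt Real.pi)) := by
      have e1 : (-(3 / 2) : ℝ) = -(1 + 1 / 2) := by norm_num
      rw [e1, Real.rpow_neg (by positivity), Real.rpow_add (by positivity), Real.rpow_one,
        ← Real.sqrt_eq_rpow, Real.sqrt_mul (by norm_num), one_div]
    rw [hG1, hG2, hPP]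
    field_simp
  have h35 : Real.sqrt 35 ≤ 418331 / 100000 * Real.sqrt 2 := by
    rw [Real.sqrt_le_left (by positivity), mul_pow, Real.sq_sqrt (by norm_num)]
    norm_num
  have hpi6 := Real.pi_lt_d6
  have hs35 : 0 ≤ Real.sqrt 35 := Real.sqrt_nonneg _
  have h5 : Real.pi * alpha2 256 1216 * Real.sqrt 35 ≤ 23757 / 100000 * (418331 / 100000) := by
    calc Real.pi * alpha2 256 1216 * Real.sqrt 35
        ≤ Real.pi * (alpha 1 * (23757 / 100000)) * Real.sqrt 35 := by
          refine mul_le_mul_of_nonneg_right ?_ hs35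
          exact mul_le_mul_of_nonneg_left hal hpi.le
      _ = 23757 / 100000 * (Real.sqrt 35 / Real.sqrt 2) := by
          rw [show Real.pi * (alpha 1 * (23757 / 100000)) = (Real.pi * alpha 1) * (23757 / 100000) by
            ring, hA]
          ring
      _ ≤ 23757 / 100000 * (418331 / 100000) := by
          refine mul_le_mul_of_nonneg_left ?_ (by norm_num)
          rw [div_le_iff₀ hs2]
          exact h35
  have e : 2 * Real.pi * ((1216 / 256 + 1) / 35 + alpha2 256 1216 * Real.sqrt 35) =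
      2 * Real.pi * ((1216 / 256 + 1) / 35) + 2 * (Real.pi * alpha2 256 1216 * Real.sqrt 35) := by ring
  rw [e]
  have h6 : 2 * Real.pi * ((1216 / 256 + 1) / 35) ≤ 2 * 3.141593 * ((1216 / 256 + 1) / 35) := by
    refine mul_le_mul_of_nonneg_right ?_ (by norm_num)
    linarith
  have h7 : (2 : ℝ) * 3.141593 * ((1216 / 256 + 1) / 35) + 2 * (23757 / 100000 * (418331 / 100000)) ≤
      2 * (151 / 100) := by norm_num
  linarith

end Pool.Agent.H75.LO
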