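import Pool.Agent.H75.LO.Alg

/-!
# LO-GauA: Gaussian semigroup

`heat_comp`: `h_s * h_t = h_{s+t}`. Complete the square,
`‖x-z‖²/2s + ‖z-y‖²/2t = ((s+t)/(2st)) ‖z - (t x + s y)/(s+t)‖² + ‖x-y‖²/(2(s+t))`,
and use the Gaussian integral over `EuclideanSpace ℝ (Fin 3)`
(`GaussianFourier.integral_rexp_neg_mul_sq_norm` or similar) plus translation invariance.
-/

open MeasureTheory Set
open scoped ENNReal

namespace Pool.Agent.H75.LO

theorem heatR_nonneg {t : ℝ} (ht : 0 < t) (r : ℝ) : 0 ≤ heatR t r := by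
  unfold heatR
  positivity

theorem measurable_heatR : Measurable (fun p : ℝ × ℝ => heatR p.1 p.2) := by
  unfold heatR
  fun_prop

theorem measurable_heat :
    Measurable (fun p : ℝ × E3 × E3 => heat p.1 p.2.1 p.2.2) := by
  unfold heat
  refine ENNReal.measurable_ofReal.comp ?_
  exact measurable_heatR.comp (f := fun p : ℝ × E3 × E3 => (p.1, ‖p.2.1 - p.2.2‖))
    (by fun_prop)

theorem heat_meas (t : ℝ) : MKer (heat t) := by
  unfold MKer
  exact measurable_heat.comp (f := fun p : E3 × E3 => (t, p)) (by fun_prop)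

theorem heat_symm (t : ℝ) : SymK (heat t) := by
  intro x y
  unfold heat
  rw [norm_sub_rev]

theorem gauA_integral {t : ℝ} (ht : 0 < t) : ∫ z : E3, heatR t ‖z‖ = 1 := by
  unfold heatR
  rw [MeasureTheory.integral_const_mul]
  have h1 := GaussianFourier.integral_rexp_neg_mul_sq_norm (V := E3) (b := 1 / (2 * t))
    (by positivity)
  have h2 : (fun z : E3 => Real.exp (-(‖z‖ ^ 2 / (2 * t)))) =
      fun z : E3 => Real.exp (-(1 / (2 * t)) * ‖z‖ ^ 2) := by
    funext z
    congr 1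
    ring
  rw [h2, h1, finrank_euclideanSpace_fin]
  have h3 : Real.pi / (1 / (2 * t)) = 2 * Real.pi * t := by
    field_simp
  have h4 : (0 : ℝ) < 2 * Real.pi * t := by positivity
  rw [h3, ← Real.rpow_add h4]
  norm_num

theorem gauA_lintegral {t : ℝ} (ht : 0 < t) : ∫⁻ z : E3, ENNReal.ofReal (heatR t ‖z‖) = 1 := by
  have h1 := gauA_integral ht
  have hi : Integrable (fun z : E3 => heatR t ‖z‖) := by
    by_contra hne
    rw [integral_undef hne] at h1
    exact zero_ne_one h1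
  rw [← ofReal_integral_eq_lintegral_ofReal hi
    (Filter.Eventually.of_forall fun z => heatR_nonneg ht _), h1, ENNReal.ofReal_one]

theorem heat_mass {t : ℝ} (ht : 0 < t) (x : E3) : ∫⁻ z, heat t x z = 1 := by
  unfold heat
  rw [← gauA_lintegral ht]
  exact lintegral_sub_left_eq_self (fun z : E3 => ENNReal.ofReal (heatR t ‖z‖)) x

theorem gauA_square {s t : ℝ} (hs : 0 < s) (ht : 0 < t) (x y z : E3) :
    ‖x - z‖ ^ 2 / (2 * s) + ‖z - y‖ ^ 2 / (2 * t) =
      ‖x - y‖ ^ 2 / (2 * (s + t)) +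
        ‖(s + t)⁻¹ • (t • x + s • y) - z‖ ^ 2 / (2 * (s * t / (s + t))) := by
  have hst : 0 < s + t := by positivity
  obtain ⟨u, hu⟩ : ∃ u, u = x - z := ⟨_, rfl⟩
  obtain ⟨v, hv⟩ : ∃ v, v = z - y := ⟨_, rfl⟩
  have h1 : x - y = u + v := by rw [hu, hv]; abel
  have h2 : (s + t)⁻¹ • (t • x + s • y) - z = (s + t)⁻¹ • (t • u - s • v) := by
    have h3 : t • u - s • v = (t • x + s • y) - (s + t) • z := by
      rw [hu, hv, smul_sub, smul_sub, add_smul]; abel
    rw [h3, smul_sub, smul_smul, inv_mul_cancel₀ hst.ne', one_smul]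
  rw [← hu, ← hv, h1, h2, norm_smul, mul_pow, Real.norm_of_nonneg (by positivity),
    norm_sub_sq_real, norm_add_sq_real, norm_smul, norm_smul, inner_smul_left, inner_smul_right,
    Real.norm_of_nonneg ht.le, Real.norm_of_nonneg hs.le]
  simp only [conj_trivial]
  field_simp
  ring

theorem gauA_mul {s t : ℝ} (hs : 0 < s) (ht : 0 < t) (x y z : E3) :
    heatR s ‖x - z‖ * heatR t ‖z - y‖ = heatR (s + t) ‖x - y‖ *
      heatR (s * t / (s + t)) ‖(s + t)⁻¹ • (t • x + s • y) - z‖ := by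
  have hst : 0 < s + t := by positivity
  unfold heatR
  have e1 : (2 * Real.pi * s) ^ (-(3 / 2) : ℝ) * (2 * Real.pi * t) ^ (-(3 / 2) : ℝ) =
      (2 * Real.pi * (s + t)) ^ (-(3 / 2) : ℝ) *
        (2 * Real.pi * (s * t / (s + t))) ^ (-(3 / 2) : ℝ) := by
    rw [← Real.mul_rpow (by positivity) (by positivity),
      ← Real.mul_rpow (by positivity) (by positivity)]
    congr 1
    field_simp
  have e2 : Real.exp (-(‖x - z‖ ^ 2 / (2 * s))) * Real.exp (-(‖z - y‖ ^ 2 / (2 * t))) =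
      Real.exp (-(‖x - y‖ ^ 2 / (2 * (s + t)))) *
        Real.exp (-(‖(s + t)⁻¹ • (t • x + s • y) - z‖ ^ 2 / (2 * (s * t / (s + t))))) := by
    rw [← Real.exp_add, ← Real.exp_add]
    congr 1
    have := gauA_square hs ht x y z
    linarith
  calc _ = ((2 * Real.pi * s) ^ (-(3 / 2) : ℝ) * (2 * Real.pi * t) ^ (-(3 / 2) : ℝ)) *
        (Real.exp (-(‖x - z‖ ^ 2 / (2 * s))) * Real.exp (-(‖z - y‖ ^ 2 / (2 * t)))) := by ring
    _ = _ := by rw [e1, e2]; ring

theorem heat_comp {s t : ℝ} (hs : 0 < s) (ht : 0 < t) :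
    comp (heat s) (heat t) = heat (s + t) := by
  have hst : 0 < s + t := by positivity
  funext x y
  unfold comp
  have h1 : ∀ z, heat s x z * heat t z y = ENNReal.ofReal (heatR (s + t) ‖x - y‖) *
      heat (s * t / (s + t)) ((s + t)⁻¹ • (t • x + s • y)) z := by
    intro z
    unfold heat
    rw [← ENNReal.ofReal_mul (heatR_nonneg hs _), gauA_mul hs ht x y z,
      ENNReal.ofReal_mul (heatR_nonneg hst _)]
  simp only [h1]
  rw [lintegral_const_mul' _ _ ENNReal.ofReal_ne_top, heat_mass (by positivity), mul_one]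
  rfl

end Pool.Agent.H75.LO
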