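import Pool.Agent.H75.LO.GauA

/-!
# LO-GauB: kernels `gk l m` of powers of the free resolvent

`gk l m x y = ∫⁻ t in Ioi 0, ofReal (t^l/l! * exp(-mt)) * heat t x y` and Tonelli.
* `gk_mass`: `∫_0^∞ e^{-bt} dt = 1/b`.
* `gk_iSup`: monotone convergence (`e^{-(b+1/(n+1))t}` increases to `e^{-bt}`).
* `gk_lt_top`: `h_t ≤ (2πt)^{-3/2}`, `∫ t^{l-3/2} e^{-mt} dt < ∞` for `l ≥ 1`.
-/

open MeasureTheory Set
open scoped ENNReal

namespace Pool.Agent.H75.LO

theorem measurable_gr (l : ℕ) : Measurable (fun p : ℝ × ℝ => gr l p.1 p.2) := by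
  unfold gr
  have h : Measurable (fun q : (ℝ × ℝ) × ℝ =>
      ENNReal.ofReal (q.2 ^ l / (l.factorial : ℝ) * Real.exp (-(q.1.1 * q.2)) *
        heatR q.2 q.1.2)) := by
    have h1 : Measurable (fun q : (ℝ × ℝ) × ℝ => heatR q.2 q.1.2) :=
      measurable_heatR.comp (measurable_snd.prodMk (measurable_snd.comp measurable_fst))
    have h2 : Measurable (fun q : (ℝ × ℝ) × ℝ =>
        q.2 ^ l / (l.factorial : ℝ) * Real.exp (-(q.1.1 * q.2))) := by fun_prop
    exact (h2.mul h1).ennreal_ofReal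
  exact Measurable.lintegral_prod_right' (ν := volume.restrict (Ioi (0 : ℝ))) h

theorem gk_meas (l : ℕ) (m : ℝ) : MKer (gk l m) := by
  unfold MKer gk
  have h : Measurable (fun p : E3 × E3 => ((m, ‖p.1 - p.2‖) : ℝ × ℝ)) := by fun_prop
  exact (measurable_gr l).comp h

theorem gk_symm (l : ℕ) (m : ℝ) : SymK (gk l m) := by
  intro x y
  unfold gk
  rw [norm_sub_rev]

/-- the kernel as an integral of heat kernels -/
theorem gk_eq (l : ℕ) (m : ℝ) (x y : E3) :
    gk l m x y = ∫⁻ t in Ioi (0 : ℝ),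
      ENNReal.ofReal (t ^ l / (l.factorial : ℝ) * Real.exp (-(m * t))) * heat t x y := by
  unfold gk gr heat
  refine setLIntegral_congr_fun measurableSet_Ioi fun t ht => ?_
  have ht' : (0 : ℝ) < t := ht
  rw [ENNReal.ofReal_mul (by positivity)]

theorem gk_mass {b : ℝ} (hb : 0 < b) (x : E3) :
    ∫⁻ z, gk 0 b x z = (ENNReal.ofReal b)⁻¹ := by
  have h1 : ∀ z, gk 0 b x z = ∫⁻ t in Ioi (0 : ℝ),
      ENNReal.ofReal (Real.exp (-(b * t))) * heat t x z := by
    intro z
    rw [gk_eq]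
    simp
  simp_rw [h1]
  have hm : Measurable (Function.uncurry fun (z : E3) (t : ℝ) =>
      ENNReal.ofReal (Real.exp (-(b * t))) * heat t x z) := by
    have h2 : Measurable (fun q : E3 × ℝ => heat q.2 x q.1) :=
      measurable_heat.comp (measurable_snd.prodMk (measurable_const.prodMk measurable_fst))
    have h3 : Measurable (fun q : E3 × ℝ => ENNReal.ofReal (Real.exp (-(b * q.2)))) := by
      fun_prop
    exact h3.mul h2
  rw [lintegral_lintegral_swap hm.aemeasurable]
  have h4 : ∫⁻ t in Ioi (0 : ℝ), ∫⁻ z, ENNReal.ofReal (Real.exp (-(b * t))) * heat t x z =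
      ∫⁻ t in Ioi (0 : ℝ), ENNReal.ofReal (Real.exp (-(b * t))) := by
    refine setLIntegral_congr_fun measurableSet_Ioi fun t ht => ?_
    rw [lintegral_const_mul _ ((heat_meas t).right x), heat_mass ht, mul_one]
  rw [h4]
  have h5 : IntegrableOn (fun t : ℝ => Real.exp (-(b * t))) (Ioi 0) := by
    have := integrableOn_exp_mul_Ioi (a := -b) (by linarith) 0
    simpa [neg_mul] using this
  rw [← ofReal_integral_eq_lintegral_ofReal h5
    (Filter.Eventually.of_forall fun t => (Real.exp_pos _).le)]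
  have h6 : ∫ t in Ioi (0 : ℝ), Real.exp (-(b * t)) = b⁻¹ := by
    have := integral_exp_mul_Ioi (a := -b) (by linarith) 0
    simp only [neg_mul, mul_zero, Real.exp_zero] at this
    rw [this]
    field_simp
  rw [h6, ENNReal.ofReal_inv_of_pos hb]

theorem gk_anti {a b : ℝ} (hab : a ≤ b) (l : ℕ) : gk l b ≤ gk l a := by
  intro x y
  unfold gk gr
  refine setLIntegral_mono' measurableSet_Ioi fun t ht => ?_
  have ht' : (0 : ℝ) < t := ht
  refine ENNReal.ofReal_le_ofReal ?_
  refine mul_le_mul_of_nonneg_right ?_ (heatR_nonneg ht' _)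
  refine mul_le_mul_of_nonneg_left ?_ (by positivity)
  refine Real.exp_le_exp.2 ?_
  have := mul_le_mul_of_nonneg_right hab ht'.le
  linarith

theorem gk_iSup (b : ℝ) (x y : E3) :
    ⨆ n : ℕ, gk 0 (1 / ((n : ℝ) + 1) + b) x y = gk 0 b x y := by
  unfold gk gr
  set r := ‖x - y‖
  have hmono : ∀ t ∈ Ioi (0 : ℝ), Monotone (fun n : ℕ =>
      ENNReal.ofReal (t ^ 0 / (Nat.factorial 0 : ℝ) *
        Real.exp (-((1 / ((n : ℝ) + 1) + b) * t)) * heatR t r)) := by
    intro t ht n n' hn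
    have ht' : (0 : ℝ) < t := ht
    refine ENNReal.ofReal_le_ofReal ?_
    refine mul_le_mul_of_nonneg_right ?_ (heatR_nonneg ht' _)
    refine mul_le_mul_of_nonneg_left ?_ (by positivity)
    refine Real.exp_le_exp.2 ?_
    have h1 : 1 / ((n' : ℝ) + 1) ≤ 1 / ((n : ℝ) + 1) := by
      have : (n : ℝ) ≤ n' := by exact_mod_cast hn
      gcongr
    have := mul_le_mul_of_nonneg_right h1 ht'.le
    nlinarith
  rw [← lintegral_iSup']
  · refine setLIntegral_congr_fun measurableSet_Ioi fun t ht => ?_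
    refine iSup_eq_of_tendsto (hmono t ht) ?_
    refine (ENNReal.continuous_ofReal.tendsto _).comp ?_
    refine Filter.Tendsto.mul_const _ ?_
    refine Filter.Tendsto.const_mul _ ?_
    refine (Real.continuous_exp.tendsto _).comp ?_
    refine Filter.Tendsto.neg ?_
    refine Filter.Tendsto.mul_const _ ?_
    have h2 := (tendsto_one_div_add_atTop_nhds_zero_nat (𝕜 := ℝ)).add_const b
    rwa [zero_add] at h2
  · intro n
    have h1 : Measurable (fun t : ℝ => heatR t r) :=
      measurable_heatR.comp (measurable_id.prodMk measurable_const)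
    have h2 : Measurable (fun t : ℝ => t ^ 0 / (Nat.factorial 0 : ℝ) *
        Real.exp (-((1 / ((n : ℝ) + 1) + b) * t))) := by fun_prop
    exact (h2.mul h1).ennreal_ofReal.aemeasurable
  · exact (ae_restrict_iff' measurableSet_Ioi).2 (Filter.Eventually.of_forall hmono)

theorem gk_lt_top {l : ℕ} (hl : 1 ≤ l) {m : ℝ} (hm : 0 < m) (x y : E3) : gk l m x y < ∞ := by
  unfold gk gr
  set r := ‖x - y‖
  have hl' : (1 : ℝ) ≤ l := by exact_mod_cast hl
  have h1 : IntegrableOn (fun t : ℝ => t ^ ((l : ℝ) - 3 / 2) * Real.exp (-m * t ^ (1 : ℝ)))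
      (Ioi 0) :=
    integrableOn_rpow_mul_exp_neg_mul_rpow (by linarith) (by norm_num) hm
  have h2 := (h1.const_mul ((1 / (l.factorial : ℝ)) * (2 * Real.pi) ^ (-(3 / 2) : ℝ))).lintegral_lt_top
  refine lt_of_le_of_lt ?_ h2
  refine setLIntegral_mono' measurableSet_Ioi fun t ht => ?_
  have ht' : (0 : ℝ) < t := ht
  refine ENNReal.ofReal_le_ofReal ?_
  have h3 : heatR t r ≤ (2 * Real.pi) ^ (-(3 / 2) : ℝ) * t ^ (-(3 / 2) : ℝ) := by
    unfold heatR
    rw [← Real.mul_rpow (by positivity) ht'.le]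
    refine mul_le_of_le_one_right (by positivity) ?_
    rw [← Real.exp_zero]
    refine Real.exp_le_exp.2 ?_
    have : 0 ≤ r ^ 2 / (2 * t) := by positivity
    linarith
  have h4 : t ^ ((l : ℝ) - 3 / 2) = t ^ l * t ^ (-(3 / 2) : ℝ) := by
    rw [sub_eq_add_neg, Real.rpow_add ht', Real.rpow_natCast]
  rw [h4, Real.rpow_one]
  calc t ^ l / (l.factorial : ℝ) * Real.exp (-(m * t)) * heatR t r
      ≤ t ^ l / (l.factorial : ℝ) * Real.exp (-(m * t)) *
        ((2 * Real.pi) ^ (-(3 / 2) : ℝ) * t ^ (-(3 / 2) : ℝ)) :=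
        mul_le_mul_of_nonneg_left h3 (by positivity)
    _ = _ := by
        rw [neg_mul]
        ring

end Pool.Agent.H75.LO
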