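import Pool.Agent.H75.LO.GauC

/-!
# LO-GauC2: closed forms, `l = 2, 3`

`I_l := ∫_0^∞ t^{l-3/2} e^{-mt-ρ/t} dt`, `ρ = r²/2`; integration by parts (derivative of
`t^{l-1/2} e^{-mt-ρ/t}`, which vanishes at `0` and `∞`) gives `m I_{l+1} = (l-1/2) I_l + ρ I_{l-1}`; so `I_2`, `I_3` from
`I_0`, `I_1` (`gr_zero`, `gr_one`).
-/

open MeasureTheory Set
open scoped ENNReal

namespace Pool.Agent.H75.LO

/-- the integrand -/
noncomputable def gauC2_k (m r : ℝ) (l : ℕ) (t : ℝ) : ℝ := t ^ l * Real.exp (-(m * t)) * heatR t r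

theorem gauC2_heat_nonneg {t : ℝ} (ht : 0 ≤ t) (r : ℝ) : 0 ≤ heatR t r := by
  unfold heatR
  positivity

theorem gauC2_k_nonneg (m r : ℝ) (l : ℕ) {t : ℝ} (ht : 0 ≤ t) : 0 ≤ gauC2_k m r l t := by
  unfold gauC2_k
  have := gauC2_heat_nonneg ht r
  positivity

theorem gauC2_meas (m r : ℝ) (l : ℕ) : Measurable (gauC2_k m r l) := by
  unfold gauC2_k heatR
  fun_prop

theorem gauC2_heat_deriv (r : ℝ) {t : ℝ} (ht : 0 < t) :
    HasDerivAt (fun t => heatR t r) ((-(3 / 2) / t + r ^ 2 / (2 * t ^ 2)) * heatR t r) t := by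
  have hp : 0 < 2 * Real.pi * t := by positivity
  have h1 : HasDerivAt (fun t : ℝ => 2 * Real.pi * t) (2 * Real.pi) t := by
    simpa using (hasDerivAt_id t).const_mul (2 * Real.pi)
  have h2 := h1.rpow_const (p := (-(3 / 2) : ℝ)) (Or.inl hp.ne')
  have h3 : HasDerivAt (fun t : ℝ => -(r ^ 2 / (2 * t))) (r ^ 2 / (2 * t ^ 2)) t := by
    have h4 : HasDerivAt (fun t : ℝ => 2 * t) 2 t := by
      simpa using (hasDerivAt_id t).const_mul (2 : ℝ)
    have h5 := ((hasDerivAt_const t (r ^ 2)).div h4 (by positivity : (2 * t) ≠ 0)).neg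
    refine h5.congr_deriv ?_
    field_simp
    ring
  have h6 := h2.mul h3.exp
  unfold heatR
  refine h6.congr_deriv ?_
  rw [Real.rpow_sub_one hp.ne']
  field_simp

theorem gauC2_deriv (m r : ℝ) (l : ℕ) {t : ℝ} (ht : 0 < t) :
    HasDerivAt (gauC2_k m r (l + 2)) (((l : ℝ) + 1 / 2) * gauC2_k m r (l + 1) t
      - m * gauC2_k m r (l + 2) t + r ^ 2 / 2 * gauC2_k m r l t) t := by
  have h1 := hasDerivAt_pow (l + 2) t
  have h2 : HasDerivAt (fun t : ℝ => Real.exp (-(m * t))) (Real.exp (-(m * t)) * (-m)) t := by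
    have h0 : HasDerivAt (fun t : ℝ => -(m * t)) (-(m * 1)) t :=
      ((hasDerivAt_id t).const_mul m).neg
    rw [mul_one] at h0
    exact h0.exp
  have h3 := (h1.mul h2).mul (gauC2_heat_deriv r ht)
  unfold gauC2_k
  refine h3.congr_deriv ?_
  simp only [show l + 2 - 1 = l + 1 by omega, Pi.mul_apply]
  push_cast
  field_simp
  ring

theorem gauC2_integrable {r : ℝ} (hr : 0 < r) (l : ℕ) : ∀ {m : ℝ}, 0 < m →
    IntegrableOn (gauC2_k m r l) (Ioi 0) := by
  induction l with
  | zero =>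
    intro m hm
    refine ⟨(gauC2_meas m r 0).aestronglyMeasurable, ?_⟩
    rw [hasFiniteIntegral_iff_ofReal]
    · have h := gr_zero hm hr
      unfold gr at h
      have h2 : ∫⁻ t in Ioi (0 : ℝ), ENNReal.ofReal (gauC2_k m r 0 t) =
          ENNReal.ofReal (Real.exp (-(Real.sqrt (2 * m) * r)) / (2 * Real.pi * r)) := by
        rw [← h]
        refine lintegral_congr fun t => ?_
        unfold gauC2_k
        simp
      rw [h2]
      exact ENNReal.ofReal_lt_top
    · rw [Filter.EventuallyLE, ae_restrict_iff' measurableSet_Ioi]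
      exact Filter.Eventually.of_forall fun t ht => gauC2_k_nonneg m r 0 (le_of_lt ht)
  | succ l ih =>
    intro m hm
    refine Integrable.mono' ((ih (m := m / 2) (by positivity)).const_mul (2 / m))
      (gauC2_meas m r (l + 1)).aestronglyMeasurable ?_
    rw [ae_restrict_iff' measurableSet_Ioi]
    refine Filter.Eventually.of_forall fun t ht => ?_
    have ht' : (0 : ℝ) < t := ht
    rw [Real.norm_of_nonneg (gauC2_k_nonneg m r _ ht'.le)]
    unfold gauC2_k
    have h1 := gauC2_heat_nonneg ht'.le r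
    have h2 : t * Real.exp (-(m * t)) ≤ 2 / m * Real.exp (-(m / 2 * t)) := by
      have h3 : m / 2 * t ≤ Real.exp (m / 2 * t) := by
        have := Real.add_one_le_exp (m / 2 * t)
        linarith
      have h4 : Real.exp (-(m * t)) = Real.exp (-(m / 2 * t)) * Real.exp (-(m / 2 * t)) := by
        rw [← Real.exp_add]
        congr 1
        ring
      have h5 : Real.exp (m / 2 * t) * Real.exp (-(m / 2 * t)) = 1 := by
        rw [← Real.exp_add]
        simp
      have h6 : t * Real.exp (-(m / 2 * t)) ≤ 2 / m := by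
        have h7 : m / 2 * t * Real.exp (-(m / 2 * t)) ≤ 1 := by
          rw [← h5]
          exact mul_le_mul_of_nonneg_right h3 (Real.exp_pos _).le
        rw [le_div_iff₀ hm]
        linarith
      rw [h4, ← mul_assoc]
      exact mul_le_mul_of_nonneg_right h6 (Real.exp_pos _).le
    calc t ^ (l + 1) * Real.exp (-(m * t)) * heatR t r
        = t ^ l * heatR t r * (t * Real.exp (-(m * t))) := by ring
      _ ≤ t ^ l * heatR t r * (2 / m * Real.exp (-(m / 2 * t))) :=
          mul_le_mul_of_nonneg_left h2 (by positivity)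
      _ = _ := by ring

theorem gauC2_heat_le (r : ℝ) {t : ℝ} (ht : 0 < t) : heatR t r ≤ 1 / (t * Real.sqrt t) := by
  unfold heatR
  rw [gauC_rpow ht]
  have hs := Real.sqrt_pos.2 ht
  have h1 : 1 / (2 * Real.pi * Real.sqrt (2 * Real.pi)) ≤ 1 := by
    rw [div_le_one (by positivity)]
    have h2 : (1 : ℝ) ≤ 2 * Real.pi := by linarith [Real.pi_gt_three]
    have h3 : (1 : ℝ) ≤ Real.sqrt (2 * Real.pi) := Real.one_le_sqrt.2 h2
    nlinarith
  have h4 : Real.exp (-(r ^ 2 / (2 * t))) ≤ 1 := by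
    rw [Real.exp_le_one_iff]
    have : 0 ≤ r ^ 2 / (2 * t) := by positivity
    linarith
  calc 1 / (2 * Real.pi * Real.sqrt (2 * Real.pi)) * (1 / (t * Real.sqrt t)) *
        Real.exp (-(r ^ 2 / (2 * t))) ≤ 1 * (1 / (t * Real.sqrt t)) * 1 := by gcongr
    _ = _ := by ring

theorem gauC2_tendsto_zero {m : ℝ} (hm : 0 < m) (r : ℝ) (l : ℕ) :
    ContinuousWithinAt (gauC2_k m r (l + 2)) (Ici 0) 0 := by
  have h0 : gauC2_k m r (l + 2) 0 = 0 := by
    unfold gauC2_k
    simp
  unfold ContinuousWithinAt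
  rw [h0]
  have hlim : Filter.Tendsto (fun t : ℝ => Real.sqrt t) (nhdsWithin 0 (Ici 0)) (nhds 0) := by
    have := (Real.continuous_sqrt.tendsto 0).mono_left (nhdsWithin_le_nhds (s := Ici (0 : ℝ)))
    simpa using this
  refine tendsto_of_tendsto_of_tendsto_of_le_of_le' tendsto_const_nhds hlim ?_ ?_
  · filter_upwards [self_mem_nhdsWithin] with t ht
    exact gauC2_k_nonneg m r _ ht
  · have h1 : Iio (1 : ℝ) ∈ nhdsWithin (0 : ℝ) (Ici 0) :=
      mem_nhdsWithin_of_mem_nhds (Iio_mem_nhds one_pos)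
    filter_upwards [self_mem_nhdsWithin, h1] with t ht ht1
    rcases eq_or_lt_of_le (show (0 : ℝ) ≤ t from ht) with h | h
    · rw [← h, h0, Real.sqrt_zero]
    · have hs := Real.sqrt_pos.2 h
      have hsq : Real.sqrt t * Real.sqrt t = t := Real.mul_self_sqrt h.le
      have h2 := gauC2_heat_le r h
      have h3 : Real.exp (-(m * t)) ≤ 1 := by
        rw [Real.exp_le_one_iff]
        nlinarith
      have h4 : t ^ (l + 2) ≤ t ^ 2 := pow_le_pow_of_le_one h.le (le_of_lt ht1) (by omega)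
      unfold gauC2_k
      calc t ^ (l + 2) * Real.exp (-(m * t)) * heatR t r ≤ t ^ 2 * 1 * (1 / (t * Real.sqrt t)) := by
            have := gauC2_heat_nonneg h.le r
            gcongr
        _ = Real.sqrt t := by
            field_simp
            nlinarith

theorem gauC2_tendsto_top {m : ℝ} (hm : 0 < m) (r : ℝ) (l : ℕ) :
    Filter.Tendsto (gauC2_k m r l) Filter.atTop (nhds 0) := by
  have h1 := (Real.tendsto_pow_mul_exp_neg_atTop_nhds_zero l).comp
    (Filter.tendsto_id.const_mul_atTop hm)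
  have h2 := h1.const_mul ((m ^ l)⁻¹)
  rw [mul_zero] at h2
  refine tendsto_of_tendsto_of_tendsto_of_le_of_le' tendsto_const_nhds h2 ?_ ?_
  · filter_upwards [Filter.eventually_ge_atTop 0] with t ht
    exact gauC2_k_nonneg m r _ ht
  · filter_upwards [Filter.eventually_ge_atTop 1] with t ht
    have ht0 : (0 : ℝ) < t := by linarith
    have h3 := gauC2_heat_le r ht0
    have h4 : 1 / (t * Real.sqrt t) ≤ 1 := by
      have : (1 : ℝ) ≤ Real.sqrt t := Real.one_le_sqrt.2 ht
      rw [div_le_one (by positivity)]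
      nlinarith
    have h5 : (m ^ l)⁻¹ * ((m * t) ^ l * Real.exp (-(m * t))) = t ^ l * Real.exp (-(m * t)) := by
      rw [mul_pow]
      field_simp
    unfold gauC2_k
    show _ ≤ (m ^ l)⁻¹ * ((m * t) ^ l * Real.exp (-(m * t)))
    rw [h5]
    calc t ^ l * Real.exp (-(m * t)) * heatR t r ≤ t ^ l * Real.exp (-(m * t)) * 1 :=
          mul_le_mul_of_nonneg_left (h3.trans h4) (by positivity)
      _ = _ := mul_one _

theorem gauC2_rec {m r : ℝ} (hm : 0 < m) (hr : 0 < r) (l : ℕ) :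
    m * ∫ t in Ioi (0 : ℝ), gauC2_k m r (l + 2) t =
      ((l : ℝ) + 1 / 2) * (∫ t in Ioi (0 : ℝ), gauC2_k m r (l + 1) t) +
        r ^ 2 / 2 * ∫ t in Ioi (0 : ℝ), gauC2_k m r l t := by
  have i0 := gauC2_integrable hr l hm
  have i1 := gauC2_integrable hr (l + 1) hm
  have i2 := gauC2_integrable hr (l + 2) hm
  have h := integral_Ioi_of_hasDerivAt_of_tendsto (gauC2_tendsto_zero hm r l)
    (fun t ht => gauC2_deriv m r l ht)
    (((i1.const_mul _).sub (i2.const_mul _)).add (i0.const_mul _)) (gauC2_tendsto_top hm r (l + 2))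
  have h0 : gauC2_k m r (l + 2) 0 = 0 := by
    unfold gauC2_k
    simp
  have hAB : IntegrableOn (fun t => ((l : ℝ) + 1 / 2) * gauC2_k m r (l + 1) t
      - m * gauC2_k m r (l + 2) t) (Ioi 0) := (i1.const_mul _).sub (i2.const_mul _)
  rw [h0, sub_zero, integral_add hAB (i0.const_mul _),
    integral_sub (i1.const_mul _) (i2.const_mul _), integral_const_mul, integral_const_mul,
    integral_const_mul] at h
  linarith

theorem gauC2_gr {m r : ℝ} (hm : 0 < m) (hr : 0 < r) (l : ℕ) :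
    gr l m r = ENNReal.ofReal ((∫ t in Ioi (0 : ℝ), gauC2_k m r l t) / (l.factorial : ℝ)) := by
  rw [div_eq_inv_mul, ENNReal.ofReal_mul (by positivity),
    ofReal_integral_eq_lintegral_ofReal (gauC2_integrable hr l hm) ?_,
    ← lintegral_const_mul' _ _ ENNReal.ofReal_ne_top]
  · unfold gr
    refine lintegral_congr fun t => ?_
    rw [← ENNReal.ofReal_mul (by positivity)]
    congr 1
    unfold gauC2_k
    field_simp
  · rw [Filter.EventuallyLE, ae_restrict_iff' measurableSet_Ioi]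
    exact Filter.Eventually.of_forall fun _ ht => gauC2_k_nonneg m r l (le_of_lt ht)

theorem gauC2_int_nonneg (m r : ℝ) (l : ℕ) : 0 ≤ ∫ t in Ioi (0 : ℝ), gauC2_k m r l t :=
  setIntegral_nonneg measurableSet_Ioi fun _ ht => gauC2_k_nonneg m r l (le_of_lt ht)

theorem gauC2_int_zero {m r : ℝ} (hm : 0 < m) (hr : 0 < r) :
    ∫ t in Ioi (0 : ℝ), gauC2_k m r 0 t =
      Real.exp (-(Real.sqrt (2 * m) * r)) / (2 * Real.pi * r) := by
  have h1 := gauC2_gr hm hr 0
  rw [gr_zero hm hr, Nat.factorial_zero, Nat.cast_one, div_one] at h1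
  exact ((ENNReal.ofReal_eq_ofReal_iff (by positivity) (gauC2_int_nonneg _ _ _)).1 h1).symm

theorem gauC2_int_one {m r : ℝ} (hm : 0 < m) (hr : 0 < r) :
    ∫ t in Ioi (0 : ℝ), gauC2_k m r 1 t =
      Real.exp (-(Real.sqrt (2 * m) * r)) / (2 * Real.pi * Real.sqrt (2 * m)) := by
  have h1 := gauC2_gr hm hr 1
  rw [gr_one hm hr, Nat.factorial_one, Nat.cast_one, div_one] at h1
  exact ((ENNReal.ofReal_eq_ofReal_iff (by positivity) (gauC2_int_nonneg _ _ _)).1 h1).symm

theorem gauC2_int_two {m r : ℝ} (hm : 0 < m) (hr : 0 < r) :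
    ∫ t in Ioi (0 : ℝ), gauC2_k m r 2 t =
      (1 + Real.sqrt (2 * m) * r) * Real.exp (-(Real.sqrt (2 * m) * r)) /
        (2 * Real.pi * Real.sqrt (2 * m) ^ 3) := by
  have h := gauC2_rec hm hr 0
  rw [zero_add, zero_add, gauC2_int_zero hm hr, gauC2_int_one hm hr] at h
  have hs : 0 < Real.sqrt (2 * m) := Real.sqrt_pos.2 (by positivity)
  have hsq : Real.sqrt (2 * m) ^ 2 = 2 * m := Real.sq_sqrt (by positivity)
  set s := Real.sqrt (2 * m) with hsdef
  have hm2 : m = s ^ 2 / 2 := by linarith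
  have hpi := Real.pi_pos
  set I := ∫ t in Ioi (0 : ℝ), gauC2_k m r 2 t with hI
  set e := Real.exp (-(s * r)) with he
  have h2 : s ^ 2 / 2 * I = (1 / 2) * (e / (2 * Real.pi * s)) + r ^ 2 / 2 * (e / (2 * Real.pi * r)) := by
    rw [← hm2, h]
    push_cast
    ring
  have h3 : I = 2 / s ^ 2 * ((1 / 2) * (e / (2 * Real.pi * s)) +
      r ^ 2 / 2 * (e / (2 * Real.pi * r))) := by
    rw [← h2]
    field_simp
  rw [h3]
  field_simp

theorem gauC2_int_three {m r : ℝ} (hm : 0 < m) (hr : 0 < r) :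
    ∫ t in Ioi (0 : ℝ), gauC2_k m r 3 t =
      ((Real.sqrt (2 * m) * r) ^ 2 + 3 * (Real.sqrt (2 * m) * r) + 3) *
        Real.exp (-(Real.sqrt (2 * m) * r)) / (2 * Real.pi * Real.sqrt (2 * m) ^ 5) := by
  have h := gauC2_rec hm hr 1
  rw [show 1 + 2 = 3 by norm_num, show 1 + 1 = 2 by norm_num, gauC2_int_two hm hr,
    gauC2_int_one hm hr] at h
  have hs : 0 < Real.sqrt (2 * m) := Real.sqrt_pos.2 (by positivity)
  have hsq : Real.sqrt (2 * m) ^ 2 = 2 * m := Real.sq_sqrt (by positivity)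
  set s := Real.sqrt (2 * m) with hsdef
  have hm2 : m = s ^ 2 / 2 := by linarith
  have hpi := Real.pi_pos
  set I := ∫ t in Ioi (0 : ℝ), gauC2_k m r 3 t with hI
  set e := Real.exp (-(s * r)) with he
  have h2 : s ^ 2 / 2 * I = (3 / 2) * ((1 + s * r) * e / (2 * Real.pi * s ^ 3)) +
      r ^ 2 / 2 * (e / (2 * Real.pi * s)) := by
    rw [← hm2, h]
    push_cast
    ring
  have h3 : I = 2 / s ^ 2 * ((3 / 2) * ((1 + s * r) * e / (2 * Real.pi * s ^ 3)) +
      r ^ 2 / 2 * (e / (2 * Real.pi * s))) := by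
    rw [← h2]
    field_simp
  rw [h3]
  field_simp
  ring

theorem gr_two {m r : ℝ} (hm : 0 < m) (hr : 0 < r) :
    gr 2 m r = ENNReal.ofReal
      ((1 + Real.sqrt (2 * m) * r) * Real.exp (-(Real.sqrt (2 * m) * r))
        / (4 * Real.pi * Real.sqrt (2 * m) ^ 3)) := by
  rw [gauC2_gr hm hr 2, gauC2_int_two hm hr]
  congr 1
  have hs : 0 < Real.sqrt (2 * m) := Real.sqrt_pos.2 (by positivity)
  have hpi := Real.pi_pos
  simp only [Nat.factorial]
  push_cast
  field_simp
  ring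

theorem gr_three {m r : ℝ} (hm : 0 < m) (hr : 0 < r) :
    gr 3 m r = ENNReal.ofReal
      (((Real.sqrt (2 * m) * r) ^ 2 + 3 * (Real.sqrt (2 * m) * r) + 3)
        * Real.exp (-(Real.sqrt (2 * m) * r))
        / (12 * Real.pi * Real.sqrt (2 * m) ^ 5)) := by
  rw [gauC2_gr hm hr 3, gauC2_int_three hm hr]
  congr 1
  have hs : 0 < Real.sqrt (2 * m) := Real.sqrt_pos.2 (by positivity)
  have hpi := Real.pi_pos
  simp only [Nat.factorial]
  push_cast
  field_simp
  ring

end Pool.Agent.H75.LO
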