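import Pool.Agent.H75.LO.Tel

/-!
# LO-Int: the integrated inequality

Let `ρ = (v/y)^{3/2}`, `Y l m r` as in Defs, and assume `∫ v² < ∞`.

1. Multiply `tel` by `ofReal (v x^{3/2})` (for `v x = 0` both sides vanish):
   `v_x^{3/2} F(x) + Σ_i ∫ Rj i x z · v_x · Y_l(v_x;|x-z|) dz = alpha k · v_x² + Σ_i ∫ Rj i x z · v_z · Y_l(v_x;|x-z|) dz`,
   `l = k-1-i`, `F(x) = (RV)^k G0 (x,x)`. Integrate over `x`.
2. `(P_l)` with `a = v_x`, `b = v_z` (`z ≠ x`, i.e. a.e.), integrated against `Rj i x z`, and symmetry of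
   `Rj i` (swap `x,z`, Tonelli): `2∬Rj v_z Y(v_x) ≤ 2∬Rj v_x Y(v_x) + y^{-3/2} J_i`,
   `J_i = ∬ Rj i · v_x v_z (√v_x-√v_z)²`.
3. `∬ Rj i v_x Y_l(v_x) ≤ ∫ v_x^{3/2} v_x^{l+1} (G0∘gk l v_x)(x,x) = alpha (l+1) ∫ v² < ∞` (`Rj_le`, `frozen'`), so
   these can be cancelled: `∫ v^{3/2} F ≤ alpha k ∫ v² + ½ y^{-3/2} Σ_i J_i`.
4. Pair part: `√a√b = (a+b-(√a-√b)²)/2`; `2∬Rj i v_x^{3/2} v_z^{3/2} + J_i ≤ 2 ∬ Rj i v_x² v_z ≤ 2∫v²` (`Rj_row`,
   `Rj_symm`). In particular `J_i < ∞`.
5. Add up: multiply 3 by `y^{-3/2}` and 4 by `½ y^{-3}`, cancel `½ y^{-3} Σ J_i`: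
   total `≤ (k y^{-3} + alpha k · y^{-3/2}) ∫ v² = ((k/y + alpha k √y)/y²) ∫ v²`.
-/

open MeasureTheory Set
open scoped ENNReal

namespace Pool.Agent.H75.LO

variable {Λ : ℝ} {v : E3 → ℝ}

/-! ### double integrals -/

/-- iterated integral of a kernel -/
noncomputable def intII (A : Ker) : ℝ≥0∞ := ∫⁻ x, ∫⁻ z, A x z

theorem int_meas_inner {A : Ker} (hA : MKer A) : Measurable (fun x => ∫⁻ z, A x z) :=
  Measurable.lintegral_prod_right' (f := fun p : E3 × E3 => A p.1 p.2) hA

theorem intII_add {A B : Ker} (hA : MKer A) : intII (A + B) = intII A + intII B := by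
  unfold intII
  rw [← lintegral_add_left (int_meas_inner hA)]
  refine lintegral_congr fun x => ?_
  have h : Measurable (fun z => A x z) :=
    Measurable.comp (g := fun p : E3 × E3 => A p.1 p.2) hA measurable_prodMk_left
  rw [← lintegral_add_left h]
  rfl

theorem intII_swap {A : Ker} (hA : MKer A) : intII A = intII (fun x z => A z x) := by
  unfold intII
  exact lintegral_lintegral_swap (f := A) (Measurable.aemeasurable hA)

theorem intII_mono {A B : Ker} (h : ∀ x z, x ≠ z → A x z ≤ B x z) : intII A ≤ intII B := by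
  unfold intII
  refine lintegral_mono fun x => ?_
  refine lintegral_mono_ae ?_
  have h0 : ∀ᵐ z : E3, z ≠ x := by
    have : (volume : Measure E3) {x} = 0 := measure_singleton x
    rw [ae_iff]
    simpa using this
  filter_upwards [h0] with z hz using h x z (Ne.symm hz)

theorem intII_const_mul {A : Ker} {c : ℝ≥0∞} (hc : c ≠ ∞) :
    intII (fun x z => c * A x z) = c * intII A := by
  unfold intII
  rw [← lintegral_const_mul' _ _ hc]
  refine lintegral_congr fun x => ?_
  rw [lintegral_const_mul' _ _ hc]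

theorem int_measY (l : ℕ) : Measurable (fun p : ℝ × ℝ => Y l p.1 p.2) := by
  unfold Y
  have h := measurable_gr l
  have h2 : Measurable (fun p : ℝ × ℝ => ENNReal.ofReal (p.1 ^ (3 / 2 : ℝ) * p.1 ^ l)) := by
    fun_prop
  exact h2.mul h

/-- `Rj · v_x · Y(v_x)` -/
noncomputable def intA (Λ : ℝ) (v : E3 → ℝ) (i l : ℕ) : Ker := fun x z =>
  Rj Λ v i x z * (ENNReal.ofReal (v x) * Y l (v x) ‖x - z‖)

/-- `Rj · v_z · Y(v_x)` -/
noncomputable def intB (Λ : ℝ) (v : E3 → ℝ) (i l : ℕ) : Ker := fun x z =>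
  Rj Λ v i x z * (ENNReal.ofReal (v z) * Y l (v x) ‖x - z‖)

/-- `Rj · v_x v_z (√v_x - √v_z)²` -/
noncomputable def intJ (Λ : ℝ) (v : E3 → ℝ) (i : ℕ) : Ker := fun x z =>
  Rj Λ v i x z * ENNReal.ofReal (v x * v z * (Real.sqrt (v x) - Real.sqrt (v z)) ^ 2)

/-- `Rj · v_x^{3/2} v_z^{3/2}` -/
noncomputable def intP (Λ : ℝ) (v : E3 → ℝ) (i : ℕ) : Ker := fun x z =>
  Rj Λ v i x z * (ENNReal.ofReal (v x ^ (3 / 2 : ℝ)) * ENNReal.ofReal (v z ^ (3 / 2 : ℝ)))

theorem int_measYx (hv : Pot Λ v) (l : ℕ) : MKer (fun x z => Y l (v x) ‖x - z‖) := by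
  have h := int_measY l
  have hm := hv.meas
  exact h.comp (f := fun p : E3 × E3 => (v p.1, ‖p.1 - p.2‖)) (by fun_prop)

theorem intA_meas (hv : Pot Λ v) (i l : ℕ) : MKer (intA Λ v i l) := by
  have h1 := Rj_meas hv i
  have h2 := int_measYx hv l
  have hm := hv.meas
  unfold MKer at *
  unfold intA
  exact h1.mul ((by fun_prop : Measurable fun p : E3 × E3 => ENNReal.ofReal (v p.1)).mul h2)

theorem intB_meas (hv : Pot Λ v) (i l : ℕ) : MKer (intB Λ v i l) := by
  have h1 := Rj_meas hv i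
  have h2 := int_measYx hv l
  have hm := hv.meas
  unfold MKer at *
  unfold intB
  exact h1.mul ((by fun_prop : Measurable fun p : E3 × E3 => ENNReal.ofReal (v p.2)).mul h2)

theorem intJ_meas (hv : Pot Λ v) (i : ℕ) : MKer (intJ Λ v i) := by
  have h1 := Rj_meas hv i
  have hm := hv.meas
  unfold MKer at *
  unfold intJ
  exact h1.mul (by fun_prop)

theorem intP_meas (hv : Pot Λ v) (i : ℕ) : MKer (intP Λ v i) := by
  have h1 := Rj_meas hv i
  have hm := hv.meas
  unfold MKer at *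
  unfold intP
  exact h1.mul (by fun_prop)

theorem int_swap_symm (hv : Pot Λ v) (i : ℕ) {f : E3 → E3 → ℝ≥0∞}
    (hf : MKer (fun x z => Rj Λ v i x z * f x z)) :
    intII (fun x z => Rj Λ v i x z * f x z) = intII (fun x z => Rj Λ v i x z * f z x) := by
  rw [intII_swap hf]
  unfold intII
  refine lintegral_congr fun x => lintegral_congr fun z => ?_
  show Rj Λ v i z x * f z x = Rj Λ v i x z * f z x
  rw [Rj_symm hv i z x]

theorem int_alpha_nonneg {k : ℕ} (hk : 1 ≤ k) : 0 ≤ alpha k := by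
  unfold alpha
  have hk' : (1 : ℝ) ≤ k := by exact_mod_cast hk
  have h1 : 0 < Real.Gamma ((k : ℝ) - 1 / 2) := Real.Gamma_pos_of_pos (by linarith)
  have h2 : 0 < Real.Gamma (k : ℝ) := Real.Gamma_pos_of_pos (by linarith)
  have := Real.pi_pos
  positivity

theorem int_pt (hv : Pot Λ v) {k : ℕ} (hk : 2 ≤ k) (x : E3) :
    ENNReal.ofReal (v x ^ (3 / 2 : ℝ)) * it (RV Λ v) k G0 x x
      + ∑ i ∈ Finset.range k, ∫⁻ z, intA Λ v i (k - 1 - i) x z
    = ENNReal.ofReal (alpha k) * ENNReal.ofReal (v x ^ 2)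
      + ∑ i ∈ Finset.range k, ∫⁻ z, intB Λ v i (k - 1 - i) x z := by
  rcases (hv.nonneg x).eq_or_lt with h0 | h0
  · have e1 : ∀ l z, intA Λ v l (k - 1 - l) x z = 0 := by
      intro l z; unfold intA; rw [← h0]; simp
    have e2 : ∀ l z, intB Λ v l (k - 1 - l) x z = 0 := by
      intro l z; unfold intB Y; rw [← h0]; simp
    simp only [e1, e2, lintegral_zero, Finset.sum_const_zero, add_zero]
    rw [← h0]
    simp
  · have h := tel hv hk h0
    have hc : ENNReal.ofReal (v x ^ (3 / 2 : ℝ)) ≠ ∞ := ENNReal.ofReal_ne_top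
    have h' := congrArg (fun t => ENNReal.ofReal (v x ^ (3 / 2 : ℝ)) * t) h
    simp only [mul_add, Finset.mul_sum] at h'
    have eA : ∀ i, ENNReal.ofReal (v x ^ (3 / 2 : ℝ)) * ∫⁻ z, Rj Λ v i x z * ENNReal.ofReal (v x)
          * (ENNReal.ofReal (v x ^ (k - 1 - i)) * gr (k - 1 - i) (v x) ‖x - z‖)
        = ∫⁻ z, intA Λ v i (k - 1 - i) x z := by
      intro i
      rw [← lintegral_const_mul' _ _ hc]
      refine lintegral_congr fun z => ?_
      unfold intA Y
      rw [ENNReal.ofReal_mul (by positivity)]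
      ring
    have eB : ∀ i, ENNReal.ofReal (v x ^ (3 / 2 : ℝ)) * ∫⁻ z, Rj Λ v i x z * ENNReal.ofReal (v z)
          * (ENNReal.ofReal (v x ^ (k - 1 - i)) * gr (k - 1 - i) (v x) ‖x - z‖)
        = ∫⁻ z, intB Λ v i (k - 1 - i) x z := by
      intro i
      rw [← lintegral_const_mul' _ _ hc]
      refine lintegral_congr fun z => ?_
      unfold intB Y
      rw [ENNReal.ofReal_mul (by positivity)]
      ring
    simp only [eA, eB] at h'
    rw [h']
    congr 1
    rw [← ENNReal.ofReal_mul (by positivity), ← ENNReal.ofReal_mul (int_alpha_nonneg (by omega))]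
    congr 1
    have : v x ^ (3 / 2 : ℝ) * Real.sqrt (v x) = v x ^ 2 := by
      rw [Real.sqrt_eq_rpow, ← Real.rpow_add h0]
      norm_num
    rw [← this]
    ring

theorem int_step1 (hv : Pot Λ v) {k : ℕ} (hk : 2 ≤ k) :
    (∫⁻ x, ENNReal.ofReal (v x ^ (3 / 2 : ℝ)) * it (RV Λ v) k G0 x x)
      + ∑ i ∈ Finset.range k, intII (intA Λ v i (k - 1 - i))
    = ENNReal.ofReal (alpha k) * (∫⁻ x, ENNReal.ofReal (v x ^ 2))
      + ∑ i ∈ Finset.range k, intII (intB Λ v i (k - 1 - i)) := by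
  have hA : ∀ i ∈ Finset.range k, Measurable (fun x => ∫⁻ z, intA Λ v i (k - 1 - i) x z) :=
    fun i _ => int_meas_inner (intA_meas hv i _)
  have hB : ∀ i ∈ Finset.range k, Measurable (fun x => ∫⁻ z, intB Λ v i (k - 1 - i) x z) :=
    fun i _ => int_meas_inner (intB_meas hv i _)
  unfold intII
  rw [← lintegral_finsetSum _ hA, ← lintegral_finsetSum _ hB,
    ← lintegral_add_right _ (Finset.measurable_sum _ hA),
    ← lintegral_const_mul' _ _ ENNReal.ofReal_ne_top,
    ← lintegral_add_right _ (Finset.measurable_sum _ hB)]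
  exact lintegral_congr fun x => int_pt hv hk x

theorem int_step2 (hv : Pot Λ v) {l : ℕ} {y : ℝ} (hP : PL l y) (i : ℕ) :
    intII (intB Λ v i l) + intII (intB Λ v i l)
      ≤ intII (intA Λ v i l) + intII (intA Λ v i l)
        + ENNReal.ofReal (y ^ (-(3 / 2) : ℝ)) * intII (intJ Λ v i) := by
  have hA := intA_meas hv i l
  have hB := intB_meas hv i l
  have hA' : intII (intA Λ v i l) =
      intII (fun x z => Rj Λ v i x z * (ENNReal.ofReal (v z) * Y l (v z) ‖z - x‖)) :=
    int_swap_symm hv i hA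
  have hB' : intII (intB Λ v i l) =
      intII (fun x z => Rj Λ v i x z * (ENNReal.ofReal (v x) * Y l (v z) ‖z - x‖)) :=
    int_swap_symm hv i hB
  have hAA : intII (intA Λ v i l) + intII (intA Λ v i l) = intII (intA Λ v i l +
      fun x z => Rj Λ v i x z * (ENNReal.ofReal (v z) * Y l (v z) ‖z - x‖)) := by
    rw [intII_add hA, ← hA']
  have hBB : intII (intB Λ v i l) + intII (intB Λ v i l) = intII (intB Λ v i l +
      fun x z => Rj Λ v i x z * (ENNReal.ofReal (v x) * Y l (v z) ‖z - x‖)) := by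
    rw [intII_add hB, ← hB']
  rw [hAA, hBB, ← intII_const_mul ENNReal.ofReal_ne_top]
  have hJ : MKer (fun x z => ENNReal.ofReal (y ^ (-(3 / 2) : ℝ)) * intJ Λ v i x z) := by
    have := intJ_meas hv i
    unfold MKer at *
    exact this.const_mul _
  have hadd : intII (intA Λ v i l +
      fun x z => Rj Λ v i x z * (ENNReal.ofReal (v z) * Y l (v z) ‖z - x‖)) +
      intII (fun x z => ENNReal.ofReal (y ^ (-(3 / 2) : ℝ)) * intJ Λ v i x z) =
      intII ((fun x z => ENNReal.ofReal (y ^ (-(3 / 2) : ℝ)) * intJ Λ v i x z) + (intA Λ v i l +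
      fun x z => Rj Λ v i x z * (ENNReal.ofReal (v z) * Y l (v z) ‖z - x‖))) := by
    rw [intII_add hJ, add_comm]
  rw [hadd]
  refine intII_mono fun x z hxz => ?_
  have hr : 0 < ‖x - z‖ := norm_pos_iff.2 (sub_ne_zero.2 hxz)
  have h := hP (v x) (v z) ‖x - z‖ (hv.nonneg x) (hv.nonneg z) hr
  simp only [Pi.add_apply]
  unfold intA intB intJ
  rw [norm_sub_rev z x]
  have h2 := mul_le_mul_right h (Rj Λ v i x z)
  have hofr : ENNReal.ofReal (y ^ (-(3 / 2) : ℝ) * (v x * v z * (Real.sqrt (v x) - Real.sqrt (v z)) ^ 2)) =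
      ENNReal.ofReal (y ^ (-(3 / 2) : ℝ)) *
        ENNReal.ofReal (v x * v z * (Real.sqrt (v x) - Real.sqrt (v z)) ^ 2) := by
    rw [mul_comm, ENNReal.ofReal_mul, mul_comm]
    have := hv.nonneg x
    have := hv.nonneg z
    positivity
  rw [hofr] at h2
  calc Rj Λ v i x z * (ENNReal.ofReal (v z) * Y l (v x) ‖x - z‖) +
        Rj Λ v i x z * (ENNReal.ofReal (v x) * Y l (v z) ‖x - z‖)
      = Rj Λ v i x z * (ENNReal.ofReal (v x) * Y l (v z) ‖x - z‖
        + ENNReal.ofReal (v z) * Y l (v x) ‖x - z‖) := by ring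
    _ ≤ _ := h2
    _ = _ := by ring

theorem int_step3 (hv : Pot Λ v) (i l : ℕ) :
    intII (intA Λ v i l) ≤ ENNReal.ofReal (alpha (l + 1)) * ∫⁻ x, ENNReal.ofReal (v x ^ 2) := by
  unfold intII
  rw [← lintegral_const_mul' _ _ ENNReal.ofReal_ne_top]
  refine lintegral_mono fun x => ?_
  rcases (hv.nonneg x).eq_or_lt with h0 | h0
  · have e1 : ∀ z, intA Λ v i l x z = 0 := by
      intro z; unfold intA; rw [← h0]; simp
    simp only [e1, lintegral_zero]
    exact bot_le
  · have hfr := frozen' l h0 x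
    have hle := Rj_le hv i
    calc ∫⁻ z, intA Λ v i l x z
        ≤ ∫⁻ z, ENNReal.ofReal (v x ^ (3 / 2 : ℝ)) * ENNReal.ofReal (v x ^ (l + 1)) *
            (G0 x z * gk l (v x) z x) := by
          refine lintegral_mono fun z => ?_
          unfold intA Y gk
          rw [norm_sub_rev z x, ENNReal.ofReal_mul (by positivity), pow_succ,
            ENNReal.ofReal_mul (by positivity)]
          calc Rj Λ v i x z * (ENNReal.ofReal (v x) *
                (ENNReal.ofReal (v x ^ (3 / 2 : ℝ)) * ENNReal.ofReal (v x ^ l) * gr l (v x) ‖x - z‖))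
              ≤ G0 x z * (ENNReal.ofReal (v x) *
                (ENNReal.ofReal (v x ^ (3 / 2 : ℝ)) * ENNReal.ofReal (v x ^ l) * gr l (v x) ‖x - z‖)) := by
                gcongr
                exact hle x z
            _ = _ := by ring
      _ = ENNReal.ofReal (v x ^ (3 / 2 : ℝ)) *
            (ENNReal.ofReal (v x ^ (l + 1)) * comp G0 (gk l (v x)) x x) := by
          rw [lintegral_const_mul' _ _ (ENNReal.mul_ne_top ENNReal.ofReal_ne_top ENNReal.ofReal_ne_top)]
          unfold comp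
          rw [mul_assoc]
      _ = ENNReal.ofReal (alpha (l + 1)) * ENNReal.ofReal (v x ^ 2) := by
          rw [hfr, ← ENNReal.ofReal_mul (by positivity),
            ← ENNReal.ofReal_mul (int_alpha_nonneg (by omega))]
          congr 1
          have : v x ^ (3 / 2 : ℝ) * Real.sqrt (v x) = v x ^ 2 := by
            rw [Real.sqrt_eq_rpow, ← Real.rpow_add h0]
            norm_num
          rw [← this]
          ring
      _ ≤ _ := le_rfl

theorem int_step4 (hv : Pot Λ v) (i : ℕ) :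
    intII (intP Λ v i) + intII (intP Λ v i) + intII (intJ Λ v i)
      ≤ (∫⁻ x, ENNReal.ofReal (v x ^ 2)) + ∫⁻ x, ENNReal.ofReal (v x ^ 2) := by
  have hP := intP_meas hv i
  have hJ := intJ_meas hv i
  have hm := hv.meas
  have h1 : MKer (fun x z => Rj Λ v i x z * ENNReal.ofReal (v x ^ 2 * v z)) := by
    have h1 := Rj_meas hv i
    unfold MKer at *
    exact h1.mul (by fun_prop)
  have hrow : intII (fun x z => Rj Λ v i x z * ENNReal.ofReal (v x ^ 2 * v z)) ≤
      ∫⁻ x, ENNReal.ofReal (v x ^ 2) := by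
    unfold intII
    refine lintegral_mono fun x => ?_
    have e : ∀ z, Rj Λ v i x z * ENNReal.ofReal (v x ^ 2 * v z) =
        ENNReal.ofReal (v x ^ 2) * (Rj Λ v i x z * ENNReal.ofReal (v z)) := by
      intro z
      rw [ENNReal.ofReal_mul (by positivity)]
      ring
    simp only [e]
    rw [lintegral_const_mul' _ _ ENNReal.ofReal_ne_top]
    calc ENNReal.ofReal (v x ^ 2) * ∫⁻ z, Rj Λ v i x z * ENNReal.ofReal (v z)
        ≤ ENNReal.ofReal (v x ^ 2) * 1 := by gcongr; exact Rj_row hv i x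
      _ = _ := mul_one _
  have hswap : intII (fun x z => Rj Λ v i x z * ENNReal.ofReal (v x ^ 2 * v z)) =
      intII (fun x z => Rj Λ v i x z * ENNReal.ofReal (v z ^ 2 * v x)) :=
    int_swap_symm hv i (f := fun x z => ENNReal.ofReal (v x ^ 2 * v z)) h1
  have hsum : intII (intP Λ v i) + intII (intP Λ v i) + intII (intJ Λ v i) =
      intII (intP Λ v i + (intP Λ v i + intJ Λ v i)) := by
    rw [intII_add hP, intII_add hP, add_assoc]
  have hsum2 : intII (fun x z => Rj Λ v i x z * ENNReal.ofReal (v x ^ 2 * v z)) +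
      intII (fun x z => Rj Λ v i x z * ENNReal.ofReal (v z ^ 2 * v x)) =
      intII ((fun x z => Rj Λ v i x z * ENNReal.ofReal (v x ^ 2 * v z)) +
        (fun x z => Rj Λ v i x z * ENNReal.ofReal (v z ^ 2 * v x))) := by
    rw [intII_add h1]
  calc intII (intP Λ v i) + intII (intP Λ v i) + intII (intJ Λ v i)
      = intII (intP Λ v i + (intP Λ v i + intJ Λ v i)) := hsum
    _ ≤ intII ((fun x z => Rj Λ v i x z * ENNReal.ofReal (v x ^ 2 * v z)) +
        (fun x z => Rj Λ v i x z * ENNReal.ofReal (v z ^ 2 * v x))) := by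
        refine intII_mono fun x z _ => ?_
        simp only [Pi.add_apply]
        unfold intP intJ
        have hx := hv.nonneg x
        have hz := hv.nonneg z
        rw [← mul_add, ← mul_add, ← mul_add]
        refine mul_le_mul_right ?_ _
        rw [← ENNReal.ofReal_mul (by positivity), ← ENNReal.ofReal_add (by positivity) (by positivity),
          ← ENNReal.ofReal_add (by positivity) (by positivity),
          ← ENNReal.ofReal_add (by positivity) (by positivity)]
        apply ENNReal.ofReal_le_ofReal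
        have e3 : ∀ t : ℝ, 0 ≤ t → t ^ (3 / 2 : ℝ) = t * Real.sqrt t := by
          intro t ht
          rcases ht.eq_or_lt with rfl | ht
          · rw [Real.zero_rpow (by norm_num)]; simp
          · rw [show (3 / 2 : ℝ) = 1 + 1 / 2 by norm_num, Real.rpow_add ht, Real.rpow_one,
              ← Real.sqrt_eq_rpow]
        rw [e3 _ hx, e3 _ hz]
        have sx := Real.sq_sqrt hx
        have sz := Real.sq_sqrt hz
        have : v x * Real.sqrt (v x) * (v z * Real.sqrt (v z)) +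
            (v x * Real.sqrt (v x) * (v z * Real.sqrt (v z)) +
              v x * v z * (Real.sqrt (v x) - Real.sqrt (v z)) ^ 2) =
            v x * v z * (Real.sqrt (v x) ^ 2 + Real.sqrt (v z) ^ 2) := by ring
        rw [this, sx, sz]
        apply le_of_eq
        ring
    _ = intII (fun x z => Rj Λ v i x z * ENNReal.ofReal (v x ^ 2 * v z)) +
      intII (fun x z => Rj Λ v i x z * ENNReal.ofReal (v z ^ 2 * v x)) := hsum2.symm
    _ ≤ _ := by
        rw [← hswap]
        exact add_le_add hrow hrow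

theorem int_rpow_div {t y : ℝ} (ht : 0 ≤ t) (hy : 0 < y) :
    ENNReal.ofReal ((t / y) ^ (3 / 2 : ℝ)) =
      ENNReal.ofReal (y ^ (-(3 / 2) : ℝ)) * ENNReal.ofReal (t ^ (3 / 2 : ℝ)) := by
  rw [← ENNReal.ofReal_mul (by positivity), Real.div_rpow ht hy.le, Real.rpow_neg hy.le]
  congr 1
  ring

theorem integ (hv : Pot Λ v) {k : ℕ} (hk : 2 ≤ k) {y : ℝ} (hy : 0 < y)
    (hP : ∀ l < k, PL l y) (hfin : ∫⁻ x, ENNReal.ofReal (v x ^ 2) ≠ ∞) :
    (∑ i ∈ Finset.range k, ∫⁻ x, ∫⁻ z, Rj Λ v i x z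
        * (ENNReal.ofReal ((v x / y) ^ (3 / 2 : ℝ)) * ENNReal.ofReal ((v z / y) ^ (3 / 2 : ℝ))))
      + ∫⁻ x, ENNReal.ofReal ((v x / y) ^ (3 / 2 : ℝ)) * it (RV Λ v) k G0 x x
    ≤ ENNReal.ofReal (((k : ℝ) / y + alpha k * Real.sqrt y) / y ^ 2)
        * ∫⁻ x, ENNReal.ofReal (v x ^ 2) := by
  set S := ∫⁻ x, ENNReal.ofReal (v x ^ 2) with hS
  set c := ENNReal.ofReal (y ^ (-(3 / 2) : ℝ)) with hc
  have hct : c ≠ ∞ := ENNReal.ofReal_ne_top
  set F := ∫⁻ x, ENNReal.ofReal (v x ^ (3 / 2 : ℝ)) * it (RV Λ v) k G0 x x with hF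
  set SP := ∑ i ∈ Finset.range k, intII (intP Λ v i) with hSP
  set SJ := ∑ i ∈ Finset.range k, intII (intJ Λ v i) with hSJ
  set SA := ∑ i ∈ Finset.range k, intII (intA Λ v i (k - 1 - i)) with hSA
  set SB := ∑ i ∈ Finset.range k, intII (intB Λ v i (k - 1 - i)) with hSB
  have e1 : ∑ i ∈ Finset.range k, ∫⁻ x, ∫⁻ z, Rj Λ v i x z
        * (ENNReal.ofReal ((v x / y) ^ (3 / 2 : ℝ)) * ENNReal.ofReal ((v z / y) ^ (3 / 2 : ℝ))) =
      c * c * SP := by
    rw [hSP, Finset.mul_sum]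
    refine Finset.sum_congr rfl fun i _ => ?_
    rw [← intII_const_mul (ENNReal.mul_ne_top hct hct)]
    unfold intII intP
    refine lintegral_congr fun x => lintegral_congr fun z => ?_
    rw [int_rpow_div (hv.nonneg x) hy, int_rpow_div (hv.nonneg z) hy]
    ring
  have e2 : ∫⁻ x, ENNReal.ofReal ((v x / y) ^ (3 / 2 : ℝ)) * it (RV Λ v) k G0 x x = c * F := by
    rw [hF, ← lintegral_const_mul' _ _ hct]
    refine lintegral_congr fun x => ?_
    rw [int_rpow_div (hv.nonneg x) hy]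
    ring
  have e3 : ENNReal.ofReal (((k : ℝ) / y + alpha k * Real.sqrt y) / y ^ 2) =
      k * (c * c) + ENNReal.ofReal (alpha k) * c := by
    have hα := int_alpha_nonneg (k := k) (by omega)
    rw [hc, ← ENNReal.ofReal_mul (by positivity), ← ENNReal.ofReal_mul hα,
      ← ENNReal.ofReal_natCast, ← ENNReal.ofReal_mul (by positivity),
      ← ENNReal.ofReal_add (by positivity) (by positivity)]
    congr 1
    have h1 : y ^ (-(3 / 2) : ℝ) * y ^ (-(3 / 2) : ℝ) = 1 / y ^ 3 := by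
      rw [← Real.rpow_add hy, show (-(3 / 2) + -(3 / 2) : ℝ) = -(3 : ℕ) by norm_num,
        Real.rpow_neg hy.le, Real.rpow_natCast]
      simp
    have h2 : y ^ (-(3 / 2) : ℝ) = Real.sqrt y / y ^ 2 := by
      rw [eq_div_iff (by positivity), Real.sqrt_eq_rpow, ← Real.rpow_natCast, ← Real.rpow_add hy]
      norm_num
    rw [h1, h2]
    field_simp
  rw [e1, e2, e3]
  -- finiteness
  have hJfin : SJ ≠ ∞ := by
    rw [hSJ]
    refine ENNReal.sum_ne_top.2 fun i _ => ?_
    have h := int_step4 hv i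
    refine ne_top_of_le_ne_top (ENNReal.add_ne_top.2 ⟨hfin, hfin⟩) (le_trans ?_ h)
    exact le_add_self
  have hAfin : SA ≠ ∞ := by
    rw [hSA]
    refine ENNReal.sum_ne_top.2 fun i _ => ?_
    exact ne_top_of_le_ne_top (ENNReal.mul_ne_top ENNReal.ofReal_ne_top hfin) (int_step3 hv i _)
  have s1 : F + SA = ENNReal.ofReal (alpha k) * S + SB := int_step1 hv hk
  have s2 : SB + SB ≤ SA + SA + c * SJ := by
    rw [hSB, hSA, hSJ, Finset.mul_sum, ← Finset.sum_add_distrib, ← Finset.sum_add_distrib,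
      ← Finset.sum_add_distrib]
    refine Finset.sum_le_sum fun i hi => ?_
    refine int_step2 hv (hP _ ?_) i
    have := Finset.mem_range.1 hi
    omega
  have s4 : SP + SP + SJ ≤ k * (S + S) := by
    rw [hSP, hSJ, ← Finset.sum_add_distrib, ← Finset.sum_add_distrib]
    calc ∑ i ∈ Finset.range k, (intII (intP Λ v i) + intII (intP Λ v i) + intII (intJ Λ v i))
        ≤ ∑ _i ∈ Finset.range k, (S + S) := Finset.sum_le_sum fun i _ => int_step4 hv i
      _ = _ := by rw [Finset.sum_const, Finset.card_range, nsmul_eq_mul]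
  have s3 : F + F ≤ ENNReal.ofReal (alpha k) * (S + S) + c * SJ := by
    have hAA : SA + SA ≠ ∞ := ENNReal.add_ne_top.2 ⟨hAfin, hAfin⟩
    refine (ENNReal.add_le_add_iff_right hAA).1 ?_
    calc F + F + (SA + SA) = (F + SA) + (F + SA) := by ring
      _ = (ENNReal.ofReal (alpha k) * S + SB) + (ENNReal.ofReal (alpha k) * S + SB) := by rw [s1]
      _ = ENNReal.ofReal (alpha k) * (S + S) + (SB + SB) := by ring
      _ ≤ ENNReal.ofReal (alpha k) * (S + S) + (SA + SA + c * SJ) := by gcongr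
      _ = _ := by ring
  have hfinal : (c * c * SP + c * F) + (c * c * SP + c * F) + c * c * SJ ≤
      ((k * (c * c) + ENNReal.ofReal (alpha k) * c) * S +
        (k * (c * c) + ENNReal.ofReal (alpha k) * c) * S) + c * c * SJ := by
    calc (c * c * SP + c * F) + (c * c * SP + c * F) + c * c * SJ
        = c * c * (SP + SP + SJ) + c * (F + F) := by ring
      _ ≤ c * c * (k * (S + S)) + c * (ENNReal.ofReal (alpha k) * (S + S) + c * SJ) := by gcongr
      _ = _ := by ring
  have hcJ : c * c * SJ ≠ ∞ := ENNReal.mul_ne_top (ENNReal.mul_ne_top hct hct) hJfin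
  have h2 := (ENNReal.add_le_add_iff_right hcJ).1 hfinal
  rw [← two_mul, ← two_mul] at h2
  exact (ENNReal.mul_le_mul_iff_right (by norm_num) (by norm_num)).1 h2

end Pool.Agent.H75.LO
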