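import Pool.Agent.H75.LO.Ch
import Pool.Agent.H75.LO.Ck

/-!
# LO2-Tel2: the diagonal identity for the chain (see Tel.lean for the one-potential version)

Fix `x`, `m = v x > 0`. `P = R_c (cv)`, `Q = R_1 v`, `g_m = gk 0 m`. Put, with `a_l := ck c l m`
(`= (cm)^{l+1} g_{cm}^{*(l+1)} * g_m`),
`F_j := it P j (m • comp G0 a_{k-j-1})` for `0 ≤ j < k`, `F_k := it P k (m • comp G0 g_m)`, `F_{k+1} := it P k (Q G0) = SK k`.

Steps (all at `(x,x)`, `k ≥ 1`):
* `j < k`, `l = k-1-j`: `F_{j+1} + m (Rj_c j ∘ a_l) = F_j + (Rj_c j) v ∘ a_l` where `Rj_c j = (R_c cv)^j R_c`.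
  `R_tel` for the potential `cv` and `m' = cm ≤ Λ`, off the diagonal:
  `P G0 + cm R_c∘g_{cm} = cm G0∘g_{cm} + P∘g_{cm}`; compose on the right with `m • a_{l-1}` (`l ≥ 1`) or `m • g_m` (`l = 0`), which involves
  an integration, so it holds everywhere; `cm • g_{cm}∘a_{l-1} = a_l` (`ck_step`, `ck_zero`); so
  `P (m G0∘a_{l-1}) + m R_c∘a_l = m G0∘a_l + (1/c) P∘a_l`, and `(1/c) P∘a_l = (R_c v)∘a_l`;
  then apply `it P j`.
* last step: `R_tel` for `v`, `m`: `Q G0 + m R_1∘g_m = m G0∘g_m + Q∘g_m` off the diagonal; apply `it P k` (`k ≥ 1`, so it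
  holds everywhere): `F_{k+1} + m TK k ∘ g_m = F_k + (TK k) v ∘ g_m`.

Sum over the steps, cancel `F_1(x,x), …, F_k(x,x)` (finite: `F_j ≤ m G0∘a` at `(x,x)` since `it P j G0 ≤ G0`, `ck_frozen`,
`frozen'`), `F_0(x,x) = alpha2 c k √m` (`ck_frozen`).
-/

open MeasureTheory Set
open scoped ENNReal

namespace Pool.Agent.H75.LO

variable {Λ c : ℝ} {v : E3 → ℝ}

theorem tel2_ae (x : E3) : ∀ᵐ z : E3, z ≠ x := by
  rw [ae_iff]
  simp

theorem tel2_congr_left {A B C : Ker} (h : ∀ x y, x ≠ y → A x y = B x y) :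
    comp A C = comp B C := by
  funext x y
  unfold comp
  refine lintegral_congr_ae ?_
  filter_upwards [tel2_ae x] with z hz
  rw [h x z hz.symm]

theorem tel2_congr_right {A B C : Ker} (h : ∀ x y, x ≠ y → B x y = C x y) :
    comp A B = comp A C := by
  funext x y
  unfold comp
  refine lintegral_congr_ae ?_
  filter_upwards [tel2_ae y] with z hz
  rw [h z y hz]

theorem tel2_G0_meas : MKer G0 := gk_meas 0 0

theorem tel2_PK_meas (h : Pot2 Λ c v) : MKer (PK Λ c v) := RV_meas h.potc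

/-- `P = c (R_c v)` -/
theorem tel2_PK_eq (h : Pot2 Λ c v) :
    PK Λ c v = ENNReal.ofReal c • mulV (R Λ 0 (scaleV c v)) (Vf v) := by
  have hc : (0 : ℝ) ≤ c := by linarith [h.one_lt]
  funext x z
  change R Λ 0 (scaleV c v) x z * ENNReal.ofReal (c * v z)
    = ENNReal.ofReal c * (R Λ 0 (scaleV c v) x z * ENNReal.ofReal (v z))
  rw [ENNReal.ofReal_mul hc]
  ring

/-- the basic identity, one factor `g_{cm}` -/
theorem tel2_base (h : Pot2 Λ c v) {m : ℝ} (hm : 0 < m) (hmΛ : c * m ≤ Λ) {A B : Ker}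
    (hA : MKer A) (hAB : ENNReal.ofReal (c * m) • comp (gk 0 (c * m)) A = B) :
    comp (PK Λ c v) (ENNReal.ofReal m • comp G0 A)
        + ENNReal.ofReal m • comp (R Λ 0 (scaleV c v)) B
      = ENNReal.ofReal m • comp G0 B
        + comp (mulV (R Λ 0 (scaleV c v)) (Vf v)) B := by
  have hc : (0 : ℝ) < c := by linarith [h.one_lt]
  have hcm : 0 < c * m := mul_pos hc hm
  have hR : MKer (R Λ 0 (scaleV c v)) := R_meas h.potc
  have hP : MKer (PK Λ c v) := tel2_PK_meas h
  have hg : MKer (gk 0 (c * m)) := gk_meas 0 (c * m)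
  have hG := tel2_G0_meas
  have hW : MKer (mulV (R Λ 0 (scaleV c v)) (Vf v)) := hR.mulV h.pot.measVf
  have hgA : MKer (comp (gk 0 (c * m)) A) := hg.comp hA
  have hC : MKer (ENNReal.ofReal m • A) := hA.smul _
  have key : comp (comp (PK Λ c v) G0
        + ENNReal.ofReal (c * m) • comp (R Λ 0 (scaleV c v)) (gk 0 (c * m)))
        (ENNReal.ofReal m • A)
      = comp (ENNReal.ofReal (c * m) • comp G0 (gk 0 (c * m))
        + comp (PK Λ c v) (gk 0 (c * m))) (ENNReal.ofReal m • A) := by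
    refine tel2_congr_left (fun x y hxy => ?_)
    exact R_tel h.potc hcm hmΛ hxy
  have e1 : comp (comp (PK Λ c v) G0) (ENNReal.ofReal m • A)
      = comp (PK Λ c v) (ENNReal.ofReal m • comp G0 A) := by
    rw [comp_assoc hP hG hC, comp_smul_right _ hG hA]
  have e2 : comp (gk 0 (c * m)) (ENNReal.ofReal m • A)
      = ENNReal.ofReal m • comp (gk 0 (c * m)) A := comp_smul_right _ hg hA
  have e3 : ENNReal.ofReal (c * m) • comp (comp (R Λ 0 (scaleV c v)) (gk 0 (c * m)))
      (ENNReal.ofReal m • A) = ENNReal.ofReal m • comp (R Λ 0 (scaleV c v)) B := by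
    rw [comp_assoc hR hg hC, e2, comp_smul_right _ hR hgA, smul_smul,
      mul_comm (ENNReal.ofReal (c * m)), ← smul_smul, ← comp_smul_right _ hR hgA, hAB]
  have e4 : ENNReal.ofReal (c * m) • comp (comp G0 (gk 0 (c * m))) (ENNReal.ofReal m • A)
      = ENNReal.ofReal m • comp G0 B := by
    rw [comp_assoc hG hg hC, e2, comp_smul_right _ hG hgA, smul_smul,
      mul_comm (ENNReal.ofReal (c * m)), ← smul_smul, ← comp_smul_right _ hG hgA, hAB]
  have e5 : comp (comp (PK Λ c v) (gk 0 (c * m))) (ENNReal.ofReal m • A)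
      = comp (mulV (R Λ 0 (scaleV c v)) (Vf v)) B := by
    rw [comp_assoc hP hg hC, e2, comp_smul_right _ hP hgA, tel2_PK_eq h,
      comp_smul_left _ hW hgA, smul_smul, mul_comm (ENNReal.ofReal m),
      ← ENNReal.ofReal_mul hc.le, ← comp_smul_right _ hW hgA, hAB]
  rw [comp_add_left (hP.comp hG) hC, comp_add_left ((hG.comp hg).smul _) hC,
    comp_smul_left _ (hR.comp hg) hC, comp_smul_left _ (hG.comp hg) hC, e1, e3, e4, e5] at key
  exact key

theorem tel2_step (h : Pot2 Λ c v) {m : ℝ} (hm : 0 < m) (hmΛ : c * m ≤ Λ) {A B : Ker}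
    (hA : MKer A) (hB : MKer B) (hAB : ENNReal.ofReal (c * m) • comp (gk 0 (c * m)) A = B)
    (j : ℕ) :
    it (PK Λ c v) (j + 1) (ENNReal.ofReal m • comp G0 A)
        + ENNReal.ofReal m • comp (Rj Λ (scaleV c v) j) B
      = it (PK Λ c v) j (ENNReal.ofReal m • comp G0 B)
        + comp (mulV (Rj Λ (scaleV c v) j) (Vf v)) B := by
  have hR : MKer (R Λ 0 (scaleV c v)) := R_meas h.potc
  have hP : MKer (PK Λ c v) := tel2_PK_meas h
  have hG := tel2_G0_meas
  have hW : MKer (mulV (R Λ 0 (scaleV c v)) (Vf v)) := hR.mulV h.pot.measVf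
  have hGA : MKer (ENNReal.ofReal m • comp G0 A) := (hG.comp hA).smul _
  have hGB : MKer (ENNReal.ofReal m • comp G0 B) := (hG.comp hB).smul _
  have key := congrArg (it (PK Λ c v) j) (tel2_base h hm hmΛ hA hAB)
  rw [it_add_right hP (hP.comp hGA), it_add_right hP hGB,
    it_smul_right _ hP (hR.comp hB), ← it_succ', ← it_comp hP hR hB, ← it_comp hP hW hB,
    ← rj_mulV_it hP hR h.pot.measVf] at key
  exact key

theorem tel2_last (h : Pot2 Λ c v) {m : ℝ} (hm : 0 < m) (hmΛ : m ≤ Λ) (n : ℕ) :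
    SK Λ c v (n + 1) + ENNReal.ofReal m • comp (TK Λ c v (n + 1)) (gk 0 m)
      = it (PK Λ c v) (n + 1) (ENNReal.ofReal m • comp G0 (gk 0 m))
        + comp (mulV (TK Λ c v (n + 1)) (Vf v)) (gk 0 m) := by
  have hR : MKer (R Λ 0 v) := R_meas h.pot
  have hRV : MKer (RV Λ v) := RV_meas h.pot
  have hP : MKer (PK Λ c v) := tel2_PK_meas h
  have hG := tel2_G0_meas
  have hg : MKer (gk 0 m) := gk_meas 0 m
  have key : comp (PK Λ c v)
        (comp (RV Λ v) G0 + ENNReal.ofReal m • comp (R Λ 0 v) (gk 0 m))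
      = comp (PK Λ c v)
        (ENNReal.ofReal m • comp G0 (gk 0 m) + comp (RV Λ v) (gk 0 m)) := by
    refine tel2_congr_right (fun x y hxy => ?_)
    exact R_tel h.pot hm hmΛ hxy
  have key2 := congrArg (it (PK Λ c v) n) key
  have hRVdef : RV Λ v = mulV (R Λ 0 v) (Vf v) := rfl
  rw [← it_succ', ← it_succ', it_add_right hP (hRV.comp hG),
    it_add_right hP ((hG.comp hg).smul _), it_smul_right _ hP (hR.comp hg),
    ← it_comp hP hR hg, ← it_comp hP hRV hg] at key2
  have e : it (PK Λ c v) (n + 1) (RV Λ v) = mulV (TK Λ c v (n + 1)) (Vf v) := by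
    rw [hRVdef, ← rj_mulV_it hP hR h.pot.measVf]
    rfl
  rw [e] at key2
  exact key2

theorem tel2 (h : Pot2 Λ c v) {k : ℕ} (hk : 1 ≤ k) {x : E3} (hx : 0 < v x) :
    SK Λ c v k x x
      + ((∑ i ∈ Finset.range k, ∫⁻ z, Rj Λ (scaleV c v) i x z * ENNReal.ofReal (v x)
          * cr c (k - 1 - i) (v x) ‖x - z‖)
        + ∫⁻ z, TK Λ c v k x z * ENNReal.ofReal (v x) * gr 0 (v x) ‖x - z‖)
    = ENNReal.ofReal (alpha2 c k * Real.sqrt (v x))
      + ((∑ i ∈ Finset.range k, ∫⁻ z, Rj Λ (scaleV c v) i x z * ENNReal.ofReal (v z)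
          * cr c (k - 1 - i) (v x) ‖x - z‖)
        + ∫⁻ z, TK Λ c v k x z * ENNReal.ofReal (v z) * gr 0 (v x) ‖x - z‖) := by
  have hP : MKer (PK Λ c v) := tel2_PK_meas h
  have hc1 : 1 < c := h.one_lt
  set m : ℝ := v x with hmdef
  have hmΛ : m ≤ Λ := h.pot.le x
  have hcmΛ : c * m ≤ Λ := h.potc.le x
  let F : ℕ → Ker := fun j =>
    if j < k then it (PK Λ c v) j (ENNReal.ofReal m • comp G0 (ck c (k - 1 - j) m))
    else it (PK Λ c v) j (ENNReal.ofReal m • comp G0 (gk 0 m))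
  have hL : ∀ i, ∫⁻ z, Rj Λ (scaleV c v) i x z * ENNReal.ofReal m
      * cr c (k - 1 - i) m ‖x - z‖
      = (ENNReal.ofReal m • comp (Rj Λ (scaleV c v) i) (ck c (k - 1 - i) m)) x x := by
    intro i
    rw [← comp_smul_left _ (Rj_meas h.potc i) (ck_meas _ _ _)]
    unfold comp
    refine lintegral_congr (fun z => ?_)
    rw [norm_sub_rev x z]
    change _ = (ENNReal.ofReal m * Rj Λ (scaleV c v) i x z) * cr c (k - 1 - i) m ‖z - x‖
    ring
  have hRr : ∀ i, ∫⁻ z, Rj Λ (scaleV c v) i x z * ENNReal.ofReal (v z)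
      * cr c (k - 1 - i) m ‖x - z‖
      = comp (mulV (Rj Λ (scaleV c v) i) (Vf v)) (ck c (k - 1 - i) m) x x := by
    intro i
    unfold comp
    refine lintegral_congr (fun z => ?_)
    rw [norm_sub_rev x z]
    rfl
  have hL' : ∫⁻ z, TK Λ c v k x z * ENNReal.ofReal m * gr 0 m ‖x - z‖
      = (ENNReal.ofReal m • comp (TK Λ c v k) (gk 0 m)) x x := by
    rw [← comp_smul_left _ (TK_meas h k) (gk_meas _ _)]
    unfold comp
    refine lintegral_congr (fun z => ?_)
    rw [norm_sub_rev x z]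
    change _ = (ENNReal.ofReal m * TK Λ c v k x z) * gr 0 m ‖z - x‖
    ring
  have hRr' : ∫⁻ z, TK Λ c v k x z * ENNReal.ofReal (v z) * gr 0 m ‖x - z‖
      = comp (mulV (TK Λ c v k) (Vf v)) (gk 0 m) x x := by
    unfold comp
    refine lintegral_congr (fun z => ?_)
    rw [norm_sub_rev x z]
    rfl
  have hstep : ∀ j, j < k → F (j + 1) x x
      + (ENNReal.ofReal m • comp (Rj Λ (scaleV c v) j) (ck c (k - 1 - j) m)) x x
      = F j x x + comp (mulV (Rj Λ (scaleV c v) j) (Vf v)) (ck c (k - 1 - j) m) x x := by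
    intro j hj
    by_cases hj' : j + 1 < k
    · obtain ⟨l, hl⟩ : ∃ l, k - 1 - j = l + 1 := ⟨k - 1 - j - 1, by omega⟩
      have hl' : k - 1 - (j + 1) = l := by omega
      have e1 : F (j + 1)
          = it (PK Λ c v) (j + 1) (ENNReal.ofReal m • comp G0 (ck c l m)) := by
        simp only [F, if_pos hj', hl']
      have e2 : F j = it (PK Λ c v) j (ENNReal.ofReal m • comp G0 (ck c (l + 1) m)) := by
        simp only [F, if_pos hj, hl]
      rw [e1, e2, hl]
      exact congrFun (congrFun (tel2_step h hx hcmΛ (ck_meas c l m) (ck_meas c (l + 1) m)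
        (ck_step hc1 hx l) j) x) x
    · have hl : k - 1 - j = 0 := by omega
      have e1 : F (j + 1)
          = it (PK Λ c v) (j + 1) (ENNReal.ofReal m • comp G0 (gk 0 m)) := by
        simp only [F, if_neg hj']
      have e2 : F j = it (PK Λ c v) j (ENNReal.ofReal m • comp G0 (ck c 0 m)) := by
        simp only [F, if_pos hj, hl]
      rw [e1, e2, hl]
      exact congrFun (congrFun (tel2_step h hx hcmΛ (gk_meas 0 m) (ck_meas c 0 m)
        (ck_zero hc1 hx) j) x) x
  have hind : ∀ n, n ≤ k → F n x x + ∑ i ∈ Finset.range n,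
        (ENNReal.ofReal m • comp (Rj Λ (scaleV c v) i) (ck c (k - 1 - i) m)) x x
      = F 0 x x + ∑ i ∈ Finset.range n,
        comp (mulV (Rj Λ (scaleV c v) i) (Vf v)) (ck c (k - 1 - i) m) x x := by
    intro n
    induction n with
    | zero => intro _; simp
    | succ n ih =>
      intro hn
      have ih' := ih (by omega)
      have hs := hstep n (by omega)
      rw [Finset.sum_range_succ, Finset.sum_range_succ]
      calc F (n + 1) x x + (∑ i ∈ Finset.range n,
            (ENNReal.ofReal m • comp (Rj Λ (scaleV c v) i) (ck c (k - 1 - i) m)) x x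
            + (ENNReal.ofReal m • comp (Rj Λ (scaleV c v) n) (ck c (k - 1 - n) m)) x x)
          = (F (n + 1) x x
              + (ENNReal.ofReal m • comp (Rj Λ (scaleV c v) n) (ck c (k - 1 - n) m)) x x)
            + ∑ i ∈ Finset.range n,
              (ENNReal.ofReal m • comp (Rj Λ (scaleV c v) i) (ck c (k - 1 - i) m)) x x := by
              ring
        _ = (F n x x + ∑ i ∈ Finset.range n,
              (ENNReal.ofReal m • comp (Rj Λ (scaleV c v) i) (ck c (k - 1 - i) m)) x x)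
            + comp (mulV (Rj Λ (scaleV c v) n) (Vf v)) (ck c (k - 1 - n) m) x x := by
              rw [hs]; ring
        _ = _ := by rw [ih']; ring
  have hfin := hind k le_rfl
  have e0 : F 0 x x = ENNReal.ofReal (alpha2 c k * Real.sqrt m) := by
    have h1 : F 0 = ENNReal.ofReal m • comp G0 (ck c (k - 1) m) := by
      simp only [F, if_pos (show 0 < k by omega), it_zero, Nat.sub_zero]
    have h2 := ck_frozen hc1 hx (k - 1) x
    rw [show k - 1 + 1 = k by omega] at h2
    rw [h1, ← h2]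
    rfl
  have ek : F k = it (PK Λ c v) k (ENNReal.ofReal m • comp G0 (gk 0 m)) := by
    simp only [F, if_neg (lt_irrefl k)]
  have hlast : SK Λ c v k x x + (ENNReal.ofReal m • comp (TK Λ c v k) (gk 0 m)) x x
      = F k x x + comp (mulV (TK Λ c v k) (Vf v)) (gk 0 m) x x := by
    obtain ⟨n, rfl⟩ : ∃ n, k = n + 1 := ⟨k - 1, by omega⟩
    rw [ek]
    exact congrFun (congrFun (tel2_last h hx hmΛ n) x) x
  rw [Finset.sum_congr rfl (fun i _ => hL i), Finset.sum_congr rfl (fun i _ => hRr i),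
    hL', hRr']
  rw [e0] at hfin
  set SL := ∑ i ∈ Finset.range k,
    (ENNReal.ofReal m • comp (Rj Λ (scaleV c v) i) (ck c (k - 1 - i) m)) x x with hSL
  set SR := ∑ i ∈ Finset.range k,
    comp (mulV (Rj Λ (scaleV c v) i) (Vf v)) (ck c (k - 1 - i) m) x x with hSR
  calc SK Λ c v k x x + (SL + (ENNReal.ofReal m • comp (TK Λ c v k) (gk 0 m)) x x)
      = (SK Λ c v k x x + (ENNReal.ofReal m • comp (TK Λ c v k) (gk 0 m)) x x) + SL := by ring
    _ = (F k x x + SL) + comp (mulV (TK Λ c v k) (Vf v)) (gk 0 m) x x := by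
        rw [hlast]; ring
    _ = _ := by rw [hfin]; ring

end Pool.Agent.H75.LO
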