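import Pool.Agent.H75.LO.Int
import Pool.Agent.H75.LO.Tel2

/-!
# LO2-Int2: the integrated inequality for the chain (see Int.lean for the one-potential version)

Same proof: multiply `tel2` by `ofReal (v x^{3/2})`, integrate over `x`; `PL2` for the terms with `Rj Λ (scaleV c v) i`
(`l = k-1-i`) and `PL 0` for the term with `TK k` (`Y 0 m r = m^{3/2} gr 0 m r`); symmetry of the kernels (`Rj_symm` for `cv`, `TK_symm`);
finiteness: `∬ Rj_c v_x Y2_l(v_x) ≤ ∫ v^{3/2} · v (G0∘ck c l v)(x,x) = alpha2 c (l+1) ∫ v²` (`ck_frozen`), and with `frozen'` for `TK`.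
Pair part: row sums against `v` are `≤ 1/c` (`Rjc_row`) and `≤ 1` (`TK_row`).
Total: `≤ ((k/c + 1) y^{-3} + alpha2 c k y^{-3/2}) ∫ v²`.
-/

open MeasureTheory Set
open scoped ENNReal

namespace Pool.Agent.H75.LO

variable {Λ c : ℝ} {v : E3 → ℝ}

/-! ### general kernels -/

/-- `K · v_x · G(v_x)` -/
noncomputable def int2A (K : Ker) (v : E3 → ℝ) (G : ℝ → ℝ → ℝ≥0∞) : Ker := fun x z =>
  K x z * (ENNReal.ofReal (v x) * G (v x) ‖x - z‖)

/-- `K · v_z · G(v_x)` -/
noncomputable def int2B (K : Ker) (v : E3 → ℝ) (G : ℝ → ℝ → ℝ≥0∞) : Ker := fun x z =>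
  K x z * (ENNReal.ofReal (v z) * G (v x) ‖x - z‖)

/-- `K · v_x v_z (√v_x - √v_z)²` -/
noncomputable def int2J (K : Ker) (v : E3 → ℝ) : Ker := fun x z =>
  K x z * ENNReal.ofReal (v x * v z * (Real.sqrt (v x) - Real.sqrt (v z)) ^ 2)

/-- `K · v_x^{3/2} v_z^{3/2}` -/
noncomputable def int2P (K : Ker) (v : E3 → ℝ) : Ker := fun x z =>
  K x z * (ENNReal.ofReal (v x ^ (3 / 2 : ℝ)) * ENNReal.ofReal (v z ^ (3 / 2 : ℝ)))

theorem int2_measG {G : ℝ → ℝ → ℝ≥0∞} (hG : Measurable fun p : ℝ × ℝ => G p.1 p.2)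
    (hv : Measurable v) : MKer (fun x z => G (v x) ‖x - z‖) :=
  hG.comp (f := fun p : E3 × E3 => (v p.1, ‖p.1 - p.2‖)) (by fun_prop)

theorem int2A_meas {K : Ker} (hK : MKer K) {G : ℝ → ℝ → ℝ≥0∞}
    (hG : Measurable fun p : ℝ × ℝ => G p.1 p.2) (hv : Measurable v) : MKer (int2A K v G) := by
  have h2 := int2_measG hG hv
  unfold MKer at *
  unfold int2A
  exact hK.mul ((by fun_prop : Measurable fun p : E3 × E3 => ENNReal.ofReal (v p.1)).mul h2)

theorem int2B_meas {K : Ker} (hK : MKer K) {G : ℝ → ℝ → ℝ≥0∞}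
    (hG : Measurable fun p : ℝ × ℝ => G p.1 p.2) (hv : Measurable v) : MKer (int2B K v G) := by
  have h2 := int2_measG hG hv
  unfold MKer at *
  unfold int2B
  exact hK.mul ((by fun_prop : Measurable fun p : E3 × E3 => ENNReal.ofReal (v p.2)).mul h2)

theorem int2J_meas {K : Ker} (hK : MKer K) (hv : Measurable v) : MKer (int2J K v) := by
  unfold MKer at *
  unfold int2J
  exact hK.mul (by fun_prop)

theorem int2P_meas {K : Ker} (hK : MKer K) (hv : Measurable v) : MKer (int2P K v) := by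
  unfold MKer at *
  unfold int2P
  exact hK.mul (by fun_prop)

theorem int2_swap_symm {K : Ker} (hs : SymK K) {f : E3 → E3 → ℝ≥0∞}
    (hf : MKer (fun x z => K x z * f x z)) :
    intII (fun x z => K x z * f x z) = intII (fun x z => K x z * f z x) := by
  rw [intII_swap hf]
  unfold intII
  refine lintegral_congr fun x => lintegral_congr fun z => ?_
  show K z x * f z x = K x z * f z x
  rw [hs z x]

theorem int2_step2 {K : Ker} (hK : MKer K) (hs : SymK K) {G : ℝ → ℝ → ℝ≥0∞}
    (hG : Measurable fun p : ℝ × ℝ => G p.1 p.2) (hv : Measurable v) (h0 : ∀ x, 0 ≤ v x) {y : ℝ}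
    (hP : ∀ a b r : ℝ, 0 ≤ a → 0 ≤ b → 0 < r →
      ENNReal.ofReal a * G b r + ENNReal.ofReal b * G a r
        ≤ ENNReal.ofReal a * G a r + ENNReal.ofReal b * G b r
          + ENNReal.ofReal (y ^ (-(3 / 2) : ℝ) * (a * b * (Real.sqrt a - Real.sqrt b) ^ 2))) :
    intII (int2B K v G) + intII (int2B K v G)
      ≤ intII (int2A K v G) + intII (int2A K v G)
        + ENNReal.ofReal (y ^ (-(3 / 2) : ℝ)) * intII (int2J K v) := by
  have hA := int2A_meas hK hG hv
  have hB := int2B_meas hK hG hv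
  have hA' : intII (int2A K v G) =
      intII (fun x z => K x z * (ENNReal.ofReal (v z) * G (v z) ‖z - x‖)) :=
    int2_swap_symm hs hA
  have hB' : intII (int2B K v G) =
      intII (fun x z => K x z * (ENNReal.ofReal (v x) * G (v z) ‖z - x‖)) :=
    int2_swap_symm hs hB
  have hAA : intII (int2A K v G) + intII (int2A K v G) = intII (int2A K v G +
      fun x z => K x z * (ENNReal.ofReal (v z) * G (v z) ‖z - x‖)) := by
    rw [intII_add hA, ← hA']
  have hBB : intII (int2B K v G) + intII (int2B K v G) = intII (int2B K v G +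
      fun x z => K x z * (ENNReal.ofReal (v x) * G (v z) ‖z - x‖)) := by
    rw [intII_add hB, ← hB']
  rw [hAA, hBB, ← intII_const_mul ENNReal.ofReal_ne_top]
  have hJ : MKer (fun x z => ENNReal.ofReal (y ^ (-(3 / 2) : ℝ)) * int2J K v x z) := by
    have := int2J_meas hK hv
    unfold MKer at *
    exact this.const_mul _
  have hadd : intII (int2A K v G +
      fun x z => K x z * (ENNReal.ofReal (v z) * G (v z) ‖z - x‖)) +
      intII (fun x z => ENNReal.ofReal (y ^ (-(3 / 2) : ℝ)) * int2J K v x z) =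
      intII ((fun x z => ENNReal.ofReal (y ^ (-(3 / 2) : ℝ)) * int2J K v x z) + (int2A K v G +
      fun x z => K x z * (ENNReal.ofReal (v z) * G (v z) ‖z - x‖))) := by
    rw [intII_add hJ, add_comm]
  rw [hadd]
  refine intII_mono fun x z hxz => ?_
  have hr : 0 < ‖x - z‖ := norm_pos_iff.2 (sub_ne_zero.2 hxz)
  have h := hP (v x) (v z) ‖x - z‖ (h0 x) (h0 z) hr
  simp only [Pi.add_apply]
  unfold int2A int2B int2J
  rw [norm_sub_rev z x]
  have h2 := mul_le_mul_right h (K x z)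
  have hofr : ENNReal.ofReal (y ^ (-(3 / 2) : ℝ) * (v x * v z * (Real.sqrt (v x) - Real.sqrt (v z)) ^ 2)) =
      ENNReal.ofReal (y ^ (-(3 / 2) : ℝ)) *
        ENNReal.ofReal (v x * v z * (Real.sqrt (v x) - Real.sqrt (v z)) ^ 2) := by
    rw [mul_comm, ENNReal.ofReal_mul, mul_comm]
    have := h0 x
    have := h0 z
    positivity
  rw [hofr] at h2
  calc K x z * (ENNReal.ofReal (v z) * G (v x) ‖x - z‖) +
        K x z * (ENNReal.ofReal (v x) * G (v z) ‖x - z‖)
      = K x z * (ENNReal.ofReal (v x) * G (v z) ‖x - z‖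
        + ENNReal.ofReal (v z) * G (v x) ‖x - z‖) := by ring
    _ ≤ _ := h2
    _ = _ := by ring

theorem int2_step4 {K : Ker} (hK : MKer K) (hs : SymK K) (hv : Measurable v) (h0 : ∀ x, 0 ≤ v x)
    {l : ℝ≥0∞} (hrow : ∀ x, ∫⁻ z, K x z * ENNReal.ofReal (v z) ≤ l) :
    intII (int2P K v) + intII (int2P K v) + intII (int2J K v)
      ≤ l * ((∫⁻ x, ENNReal.ofReal (v x ^ 2)) + ∫⁻ x, ENNReal.ofReal (v x ^ 2)) := by
  have hP := int2P_meas hK hv
  have hJ := int2J_meas hK hv
  have h1 : MKer (fun x z => K x z * ENNReal.ofReal (v x ^ 2 * v z)) := by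
    unfold MKer at *
    exact hK.mul (by fun_prop)
  have hm2 : Measurable fun x => ENNReal.ofReal (v x ^ 2) := by fun_prop
  have hrow' : intII (fun x z => K x z * ENNReal.ofReal (v x ^ 2 * v z)) ≤
      l * ∫⁻ x, ENNReal.ofReal (v x ^ 2) := by
    unfold intII
    rw [← lintegral_const_mul _ hm2]
    refine lintegral_mono fun x => ?_
    have e : ∀ z, K x z * ENNReal.ofReal (v x ^ 2 * v z) =
        ENNReal.ofReal (v x ^ 2) * (K x z * ENNReal.ofReal (v z)) := by
      intro z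
      rw [ENNReal.ofReal_mul (by positivity)]
      ring
    simp only [e]
    rw [lintegral_const_mul' _ _ ENNReal.ofReal_ne_top]
    calc ENNReal.ofReal (v x ^ 2) * ∫⁻ z, K x z * ENNReal.ofReal (v z)
        ≤ ENNReal.ofReal (v x ^ 2) * l := by gcongr; exact hrow x
      _ = _ := mul_comm _ _
  have hswap : intII (fun x z => K x z * ENNReal.ofReal (v x ^ 2 * v z)) =
      intII (fun x z => K x z * ENNReal.ofReal (v z ^ 2 * v x)) :=
    int2_swap_symm hs (f := fun x z => ENNReal.ofReal (v x ^ 2 * v z)) h1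
  have hsum : intII (int2P K v) + intII (int2P K v) + intII (int2J K v) =
      intII (int2P K v + (int2P K v + int2J K v)) := by
    rw [intII_add hP, intII_add hP, add_assoc]
  have hsum2 : intII (fun x z => K x z * ENNReal.ofReal (v x ^ 2 * v z)) +
      intII (fun x z => K x z * ENNReal.ofReal (v z ^ 2 * v x)) =
      intII ((fun x z => K x z * ENNReal.ofReal (v x ^ 2 * v z)) +
        (fun x z => K x z * ENNReal.ofReal (v z ^ 2 * v x))) := by
    rw [intII_add h1]
  calc intII (int2P K v) + intII (int2P K v) + intII (int2J K v)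
      = intII (int2P K v + (int2P K v + int2J K v)) := hsum
    _ ≤ intII ((fun x z => K x z * ENNReal.ofReal (v x ^ 2 * v z)) +
        (fun x z => K x z * ENNReal.ofReal (v z ^ 2 * v x))) := by
        refine intII_mono fun x z _ => ?_
        simp only [Pi.add_apply]
        unfold int2P int2J
        have hx := h0 x
        have hz := h0 z
        rw [← mul_add, ← mul_add, ← mul_add]
        refine mul_le_mul_right ?_ _
        rw [← ENNReal.ofReal_mul (by positivity), ← ENNReal.ofReal_add (by positivity) (by positivity),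
          ← ENNReal.ofReal_add (by positivity) (by positivity),
          ← ENNReal.ofReal_add (by positivity) (by positivity)]
        apply ENNReal.ofReal_le_ofReal
        have e3 : ∀ t : ℝ, 0 ≤ t → t ^ (3 / 2 : ℝ) = t * Real.sqrt t := by
          intro t ht
          rcases ht.eq_or_lt with rfl | ht
          · rw [Real.zero_rpow (by norm_num)]; simp
          · rw [show (3 / 2 : ℝ) = 1 + 1 / 2 by norm_num, Real.rpow_add ht, Real.rpow_one,
              ← Real.sqrt_eq_rpow]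
        rw [e3 _ hx, e3 _ hz]
        have sx := Real.sq_sqrt hx
        have sz := Real.sq_sqrt hz
        have : v x * Real.sqrt (v x) * (v z * Real.sqrt (v z)) +
            (v x * Real.sqrt (v x) * (v z * Real.sqrt (v z)) +
              v x * v z * (Real.sqrt (v x) - Real.sqrt (v z)) ^ 2) =
            v x * v z * (Real.sqrt (v x) ^ 2 + Real.sqrt (v z) ^ 2) := by ring
        rw [this, sx, sz]
        apply le_of_eq
        ring
    _ = intII (fun x z => K x z * ENNReal.ofReal (v x ^ 2 * v z)) +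
      intII (fun x z => K x z * ENNReal.ofReal (v z ^ 2 * v x)) := hsum2.symm
    _ ≤ _ := by
        rw [← hswap, mul_add]
        exact add_le_add hrow' hrow'

theorem int2_measY2 (c : ℝ) (l : ℕ) : Measurable (fun p : ℝ × ℝ => Y2 c l p.1 p.2) := by
  unfold Y2
  have h := measurable_cr c l
  have h2 : Measurable (fun p : ℝ × ℝ => ENNReal.ofReal (p.1 ^ (3 / 2 : ℝ))) := by
    fun_prop
  exact h2.mul h

/-! ### the chain -/

theorem int2_sqrt {t : ℝ} (h0 : 0 < t) : t ^ (3 / 2 : ℝ) * Real.sqrt t = t ^ 2 := by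
  rw [Real.sqrt_eq_rpow, ← Real.rpow_add h0]
  norm_num

/-- finiteness for the chain kernels -/
theorem int2_fin (h : Pot2 Λ c v) (i l : ℕ) :
    intII (int2A (Rj Λ (scaleV c v) i) v (Y2 c l)) ≤
      ENNReal.ofReal (alpha2 c (l + 1)) * ∫⁻ x, ENNReal.ofReal (v x ^ 2) := by
  unfold intII
  rw [← lintegral_const_mul' _ _ ENNReal.ofReal_ne_top]
  refine lintegral_mono fun x => ?_
  rcases (h.pot.nonneg x).eq_or_lt with h0 | h0
  · have e1 : ∀ z, int2A (Rj Λ (scaleV c v) i) v (Y2 c l) x z = 0 := by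
      intro z; unfold int2A; rw [← h0]; simp
    simp only [e1, lintegral_zero]
    exact bot_le
  · have hfr := ck_frozen h.one_lt h0 l x
    have hle := Rj_le h.potc i
    calc ∫⁻ z, int2A (Rj Λ (scaleV c v) i) v (Y2 c l) x z
        ≤ ∫⁻ z, ENNReal.ofReal (v x ^ (3 / 2 : ℝ)) * ENNReal.ofReal (v x) *
            (G0 x z * ck c l (v x) z x) := by
          refine lintegral_mono fun z => ?_
          unfold int2A Y2 ck
          rw [norm_sub_rev z x]
          calc Rj Λ (scaleV c v) i x z * (ENNReal.ofReal (v x) *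
                (ENNReal.ofReal (v x ^ (3 / 2 : ℝ)) * cr c l (v x) ‖x - z‖))
              ≤ G0 x z * (ENNReal.ofReal (v x) *
                (ENNReal.ofReal (v x ^ (3 / 2 : ℝ)) * cr c l (v x) ‖x - z‖)) := by
                gcongr
                exact hle x z
            _ = _ := by ring
      _ = ENNReal.ofReal (v x ^ (3 / 2 : ℝ)) *
            (ENNReal.ofReal (v x) * comp G0 (ck c l (v x)) x x) := by
          rw [lintegral_const_mul' _ _ (ENNReal.mul_ne_top ENNReal.ofReal_ne_top ENNReal.ofReal_ne_top)]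
          unfold comp
          rw [mul_assoc]
      _ = ENNReal.ofReal (alpha2 c (l + 1)) * ENNReal.ofReal (v x ^ 2) := by
          rw [hfr, ← ENNReal.ofReal_mul (by positivity),
            ← ENNReal.ofReal_mul (alpha2_nonneg h.one_lt _)]
          congr 1
          rw [← int2_sqrt h0]
          ring
      _ ≤ _ := le_rfl

/-- finiteness for the last kernel -/
theorem int2_finT (h : Pot2 Λ c v) (k : ℕ) :
    intII (int2A (TK Λ c v k) v (Y 0)) ≤
      ENNReal.ofReal (alpha 1) * ∫⁻ x, ENNReal.ofReal (v x ^ 2) := by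
  unfold intII
  rw [← lintegral_const_mul' _ _ ENNReal.ofReal_ne_top]
  refine lintegral_mono fun x => ?_
  rcases (h.pot.nonneg x).eq_or_lt with h0 | h0
  · have e1 : ∀ z, int2A (TK Λ c v k) v (Y 0) x z = 0 := by
      intro z; unfold int2A; rw [← h0]; simp
    simp only [e1, lintegral_zero]
    exact bot_le
  · have hfr := frozen' 0 h0 x
    rw [zero_add, pow_one] at hfr
    have hle := TK_le h k
    calc ∫⁻ z, int2A (TK Λ c v k) v (Y 0) x z
        ≤ ∫⁻ z, ENNReal.ofReal (v x ^ (3 / 2 : ℝ)) * ENNReal.ofReal (v x) *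
            (G0 x z * gk 0 (v x) z x) := by
          refine lintegral_mono fun z => ?_
          unfold int2A Y gk
          rw [norm_sub_rev z x, pow_zero, mul_one]
          calc TK Λ c v k x z * (ENNReal.ofReal (v x) *
                (ENNReal.ofReal (v x ^ (3 / 2 : ℝ)) * gr 0 (v x) ‖x - z‖))
              ≤ G0 x z * (ENNReal.ofReal (v x) *
                (ENNReal.ofReal (v x ^ (3 / 2 : ℝ)) * gr 0 (v x) ‖x - z‖)) := by
                gcongr
                exact hle x z
            _ = _ := by ring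
      _ = ENNReal.ofReal (v x ^ (3 / 2 : ℝ)) *
            (ENNReal.ofReal (v x) * comp G0 (gk 0 (v x)) x x) := by
          rw [lintegral_const_mul' _ _ (ENNReal.mul_ne_top ENNReal.ofReal_ne_top ENNReal.ofReal_ne_top)]
          unfold comp
          rw [mul_assoc]
      _ = ENNReal.ofReal (alpha 1) * ENNReal.ofReal (v x ^ 2) := by
          rw [hfr, ← ENNReal.ofReal_mul (by positivity),
            ← ENNReal.ofReal_mul (int_alpha_nonneg le_rfl)]
          congr 1
          rw [← int2_sqrt h0]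
          ring
      _ ≤ _ := le_rfl

theorem int2_pt (h : Pot2 Λ c v) {k : ℕ} (hk : 1 ≤ k) (x : E3) :
    ENNReal.ofReal (v x ^ (3 / 2 : ℝ)) * SK Λ c v k x x
      + ((∑ i ∈ Finset.range k, ∫⁻ z, int2A (Rj Λ (scaleV c v) i) v (Y2 c (k - 1 - i)) x z)
        + ∫⁻ z, int2A (TK Λ c v k) v (Y 0) x z)
    = ENNReal.ofReal (alpha2 c k) * ENNReal.ofReal (v x ^ 2)
      + ((∑ i ∈ Finset.range k, ∫⁻ z, int2B (Rj Λ (scaleV c v) i) v (Y2 c (k - 1 - i)) x z)
        + ∫⁻ z, int2B (TK Λ c v k) v (Y 0) x z) := by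
  rcases (h.pot.nonneg x).eq_or_lt with h0 | h0
  · have e1 : ∀ K G z, int2A K v G x z = 0 := by
      intro K G z; unfold int2A; rw [← h0]; simp
    have e2 : ∀ K l z, int2B K v (Y2 c l) x z = 0 := by
      intro K l z; unfold int2B Y2; rw [← h0]; simp
    have e3 : ∀ K z, int2B K v (Y 0) x z = 0 := by
      intro K z; unfold int2B Y; rw [← h0]; simp
    simp only [e1, e2, e3, lintegral_zero, Finset.sum_const_zero, add_zero]
    rw [← h0]
    simp
  · have ht := tel2 h hk h0
    have hc : ENNReal.ofReal (v x ^ (3 / 2 : ℝ)) ≠ ∞ := ENNReal.ofReal_ne_top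
    have h' := congrArg (fun t => ENNReal.ofReal (v x ^ (3 / 2 : ℝ)) * t) ht
    simp only [mul_add, Finset.mul_sum] at h'
    have eA : ∀ i, ENNReal.ofReal (v x ^ (3 / 2 : ℝ)) * ∫⁻ z, Rj Λ (scaleV c v) i x z *
          ENNReal.ofReal (v x) * cr c (k - 1 - i) (v x) ‖x - z‖
        = ∫⁻ z, int2A (Rj Λ (scaleV c v) i) v (Y2 c (k - 1 - i)) x z := by
      intro i
      rw [← lintegral_const_mul' _ _ hc]
      refine lintegral_congr fun z => ?_
      unfold int2A Y2
      ring
    have eB : ∀ i, ENNReal.ofReal (v x ^ (3 / 2 : ℝ)) * ∫⁻ z, Rj Λ (scaleV c v) i x z *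
          ENNReal.ofReal (v z) * cr c (k - 1 - i) (v x) ‖x - z‖
        = ∫⁻ z, int2B (Rj Λ (scaleV c v) i) v (Y2 c (k - 1 - i)) x z := by
      intro i
      rw [← lintegral_const_mul' _ _ hc]
      refine lintegral_congr fun z => ?_
      unfold int2B Y2
      ring
    have eTA : ENNReal.ofReal (v x ^ (3 / 2 : ℝ)) * ∫⁻ z, TK Λ c v k x z *
          ENNReal.ofReal (v x) * gr 0 (v x) ‖x - z‖
        = ∫⁻ z, int2A (TK Λ c v k) v (Y 0) x z := by
      rw [← lintegral_const_mul' _ _ hc]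
      refine lintegral_congr fun z => ?_
      unfold int2A Y
      rw [pow_zero, mul_one]
      ring
    have eTB : ENNReal.ofReal (v x ^ (3 / 2 : ℝ)) * ∫⁻ z, TK Λ c v k x z *
          ENNReal.ofReal (v z) * gr 0 (v x) ‖x - z‖
        = ∫⁻ z, int2B (TK Λ c v k) v (Y 0) x z := by
      rw [← lintegral_const_mul' _ _ hc]
      refine lintegral_congr fun z => ?_
      unfold int2B Y
      rw [pow_zero, mul_one]
      ring
    simp only [eA, eB, eTA, eTB] at h'
    rw [h']
    congr 1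
    rw [← ENNReal.ofReal_mul (by positivity), ← ENNReal.ofReal_mul (alpha2_nonneg h.one_lt _)]
    congr 1
    rw [← int2_sqrt h0]
    ring

theorem int2_step1 (h : Pot2 Λ c v) {k : ℕ} (hk : 1 ≤ k) :
    (∫⁻ x, ENNReal.ofReal (v x ^ (3 / 2 : ℝ)) * SK Λ c v k x x)
      + ((∑ i ∈ Finset.range k, intII (int2A (Rj Λ (scaleV c v) i) v (Y2 c (k - 1 - i))))
        + intII (int2A (TK Λ c v k) v (Y 0)))
    = ENNReal.ofReal (alpha2 c k) * (∫⁻ x, ENNReal.ofReal (v x ^ 2))
      + ((∑ i ∈ Finset.range k, intII (int2B (Rj Λ (scaleV c v) i) v (Y2 c (k - 1 - i))))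
        + intII (int2B (TK Λ c v k) v (Y 0))) := by
  have hm := h.pot.meas
  have hA : ∀ i ∈ Finset.range k, Measurable (fun x => ∫⁻ z,
      int2A (Rj Λ (scaleV c v) i) v (Y2 c (k - 1 - i)) x z) :=
    fun i _ => int_meas_inner (int2A_meas (Rj_meas h.potc i) (int2_measY2 c _) hm)
  have hB : ∀ i ∈ Finset.range k, Measurable (fun x => ∫⁻ z,
      int2B (Rj Λ (scaleV c v) i) v (Y2 c (k - 1 - i)) x z) :=
    fun i _ => int_meas_inner (int2B_meas (Rj_meas h.potc i) (int2_measY2 c _) hm)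
  have hTA : Measurable (fun x => ∫⁻ z, int2A (TK Λ c v k) v (Y 0) x z) :=
    int_meas_inner (int2A_meas (TK_meas h k) (int_measY 0) hm)
  have hTB : Measurable (fun x => ∫⁻ z, int2B (TK Λ c v k) v (Y 0) x z) :=
    int_meas_inner (int2B_meas (TK_meas h k) (int_measY 0) hm)
  have hSA : Measurable (fun x => (∑ i ∈ Finset.range k, ∫⁻ z,
      int2A (Rj Λ (scaleV c v) i) v (Y2 c (k - 1 - i)) x z)
        + ∫⁻ z, int2A (TK Λ c v k) v (Y 0) x z) :=
    (Finset.measurable_fun_sum _ hA).add hTA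
  have hSB : Measurable (fun x => (∑ i ∈ Finset.range k, ∫⁻ z,
      int2B (Rj Λ (scaleV c v) i) v (Y2 c (k - 1 - i)) x z)
        + ∫⁻ z, int2B (TK Λ c v k) v (Y 0) x z) :=
    (Finset.measurable_fun_sum _ hB).add hTB
  unfold intII
  rw [← lintegral_finsetSum _ hA, ← lintegral_finsetSum _ hB,
    ← lintegral_add_right _ hTA, ← lintegral_add_right _ hTB,
    ← lintegral_add_right _ hSA,
    ← lintegral_const_mul' _ _ ENNReal.ofReal_ne_top,
    ← lintegral_add_right _ hSB]
  exact lintegral_congr fun x => int2_pt h hk x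

theorem integ2 (h : Pot2 Λ c v) {k : ℕ} (hk : 1 ≤ k) {y : ℝ} (hy : 0 < y)
    (hP0 : PL 0 y) (hP : ∀ l < k, PL2 c l y) (hfin : ∫⁻ x, ENNReal.ofReal (v x ^ 2) ≠ ∞) :
    ((∑ i ∈ Finset.range k, ∫⁻ x, ∫⁻ z, Rj Λ (scaleV c v) i x z
        * (ENNReal.ofReal ((v x / y) ^ (3 / 2 : ℝ)) * ENNReal.ofReal ((v z / y) ^ (3 / 2 : ℝ))))
      + ∫⁻ x, ∫⁻ z, TK Λ c v k x z
        * (ENNReal.ofReal ((v x / y) ^ (3 / 2 : ℝ)) * ENNReal.ofReal ((v z / y) ^ (3 / 2 : ℝ))))
      + ∫⁻ x, ENNReal.ofReal ((v x / y) ^ (3 / 2 : ℝ)) * SK Λ c v k x x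
    ≤ ENNReal.ofReal ((((k : ℝ) / c + 1) / y + alpha2 c k * Real.sqrt y) / y ^ 2)
        * ∫⁻ x, ENNReal.ofReal (v x ^ 2) := by
  have hc0 : 0 < c := by linarith [h.one_lt]
  have hm := h.pot.meas
  have hnn := h.pot.nonneg
  have hRm := fun i => Rj_meas h.potc i
  have hRs := fun i => Rj_symm h.potc i
  have hTm := TK_meas h k
  have hTs := TK_symm h k
  set S := ∫⁻ x, ENNReal.ofReal (v x ^ 2) with hS
  set d := ENNReal.ofReal (y ^ (-(3 / 2) : ℝ)) with hd
  have hdt : d ≠ ∞ := ENNReal.ofReal_ne_top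
  set F := ∫⁻ x, ENNReal.ofReal (v x ^ (3 / 2 : ℝ)) * SK Λ c v k x x with hF
  set SP := (∑ i ∈ Finset.range k, intII (int2P (Rj Λ (scaleV c v) i) v)) +
    intII (int2P (TK Λ c v k) v) with hSP
  set SJ := (∑ i ∈ Finset.range k, intII (int2J (Rj Λ (scaleV c v) i) v)) +
    intII (int2J (TK Λ c v k) v) with hSJ
  set SA := (∑ i ∈ Finset.range k, intII (int2A (Rj Λ (scaleV c v) i) v (Y2 c (k - 1 - i))))
        + intII (int2A (TK Λ c v k) v (Y 0)) with hSA
  set SB := (∑ i ∈ Finset.range k, intII (int2B (Rj Λ (scaleV c v) i) v (Y2 c (k - 1 - i))))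
        + intII (int2B (TK Λ c v k) v (Y 0)) with hSB
  have e0 : ∀ K : Ker, ∫⁻ x, ∫⁻ z, K x z
        * (ENNReal.ofReal ((v x / y) ^ (3 / 2 : ℝ)) * ENNReal.ofReal ((v z / y) ^ (3 / 2 : ℝ))) =
      d * d * intII (int2P K v) := by
    intro K
    rw [← intII_const_mul (ENNReal.mul_ne_top hdt hdt)]
    unfold intII int2P
    refine lintegral_congr fun x => lintegral_congr fun z => ?_
    rw [int_rpow_div (hnn x) hy, int_rpow_div (hnn z) hy]
    ring
  have e1 : (∑ i ∈ Finset.range k, ∫⁻ x, ∫⁻ z, Rj Λ (scaleV c v) i x z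
        * (ENNReal.ofReal ((v x / y) ^ (3 / 2 : ℝ)) * ENNReal.ofReal ((v z / y) ^ (3 / 2 : ℝ))))
      + ∫⁻ x, ∫⁻ z, TK Λ c v k x z
        * (ENNReal.ofReal ((v x / y) ^ (3 / 2 : ℝ)) * ENNReal.ofReal ((v z / y) ^ (3 / 2 : ℝ))) =
      d * d * SP := by
    rw [hSP, mul_add, Finset.mul_sum, e0]
    congr 1
    exact Finset.sum_congr rfl fun i _ => e0 _
  have e2 : ∫⁻ x, ENNReal.ofReal ((v x / y) ^ (3 / 2 : ℝ)) * SK Λ c v k x x = d * F := by
    rw [hF, ← lintegral_const_mul' _ _ hdt]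
    refine lintegral_congr fun x => ?_
    rw [int_rpow_div (hnn x) hy]
    ring
  have e3 : ENNReal.ofReal ((((k : ℝ) / c + 1) / y + alpha2 c k * Real.sqrt y) / y ^ 2) =
      (k * ENNReal.ofReal (1 / c) + 1) * (d * d) + ENNReal.ofReal (alpha2 c k) * d := by
    have hα := alpha2_nonneg h.one_lt k
    rw [hd, ← ENNReal.ofReal_mul (by positivity), ← ENNReal.ofReal_mul hα,
      ← ENNReal.ofReal_natCast, ← ENNReal.ofReal_mul (by positivity), ← ENNReal.ofReal_one,
      ← ENNReal.ofReal_add (by positivity) (by positivity), ← ENNReal.ofReal_mul (by positivity),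
      ← ENNReal.ofReal_add (by positivity) (by positivity)]
    congr 1
    have h1 : y ^ (-(3 / 2) : ℝ) * y ^ (-(3 / 2) : ℝ) = 1 / y ^ 3 := by
      rw [← Real.rpow_add hy, show (-(3 / 2) + -(3 / 2) : ℝ) = -(3 : ℕ) by norm_num,
        Real.rpow_neg hy.le, Real.rpow_natCast]
      simp
    have h2 : y ^ (-(3 / 2) : ℝ) = Real.sqrt y / y ^ 2 := by
      rw [eq_div_iff (by positivity), Real.sqrt_eq_rpow, ← Real.rpow_natCast, ← Real.rpow_add hy]
      norm_num
    rw [h1, h2]
    field_simp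
  rw [e1, e2, e3]
  have step4 : ∀ i, intII (int2P (Rj Λ (scaleV c v) i) v) + intII (int2P (Rj Λ (scaleV c v) i) v) +
      intII (int2J (Rj Λ (scaleV c v) i) v) ≤ ENNReal.ofReal (1 / c) * (S + S) :=
    fun i => int2_step4 (hRm i) (hRs i) hm hnn (Rjc_row h i)
  have step4T : intII (int2P (TK Λ c v k) v) + intII (int2P (TK Λ c v k) v) +
      intII (int2J (TK Λ c v k) v) ≤ 1 * (S + S) :=
    int2_step4 hTm hTs hm hnn (TK_row h k)
  have hSS : S + S ≠ ∞ := ENNReal.add_ne_top.2 ⟨hfin, hfin⟩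
  -- finiteness
  have hJfin : SJ ≠ ∞ := by
    rw [hSJ]
    refine ENNReal.add_ne_top.2 ⟨ENNReal.sum_ne_top.2 fun i _ => ?_, ?_⟩
    · refine ne_top_of_le_ne_top (ENNReal.mul_ne_top ENNReal.ofReal_ne_top hSS) (le_trans ?_ (step4 i))
      exact le_add_self
    · refine ne_top_of_le_ne_top (ENNReal.mul_ne_top ENNReal.one_ne_top hSS) (le_trans ?_ step4T)
      exact le_add_self
  have hAfin : SA ≠ ∞ := by
    rw [hSA]
    refine ENNReal.add_ne_top.2 ⟨ENNReal.sum_ne_top.2 fun i _ => ?_, ?_⟩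
    · exact ne_top_of_le_ne_top (ENNReal.mul_ne_top ENNReal.ofReal_ne_top hfin) (int2_fin h i _)
    · exact ne_top_of_le_ne_top (ENNReal.mul_ne_top ENNReal.ofReal_ne_top hfin) (int2_finT h k)
  have s1 : F + SA = ENNReal.ofReal (alpha2 c k) * S + SB := int2_step1 h hk
  have s2 : SB + SB ≤ SA + SA + d * SJ := by
    have t1 : ∑ i ∈ Finset.range k, intII (int2B (Rj Λ (scaleV c v) i) v (Y2 c (k - 1 - i))) +
        ∑ i ∈ Finset.range k, intII (int2B (Rj Λ (scaleV c v) i) v (Y2 c (k - 1 - i))) ≤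
        ∑ i ∈ Finset.range k, intII (int2A (Rj Λ (scaleV c v) i) v (Y2 c (k - 1 - i))) +
        ∑ i ∈ Finset.range k, intII (int2A (Rj Λ (scaleV c v) i) v (Y2 c (k - 1 - i))) +
        d * ∑ i ∈ Finset.range k, intII (int2J (Rj Λ (scaleV c v) i) v) := by
      rw [Finset.mul_sum, ← Finset.sum_add_distrib, ← Finset.sum_add_distrib,
        ← Finset.sum_add_distrib]
      refine Finset.sum_le_sum fun i hi => ?_
      have hlt : k - 1 - i < k := by
        have := Finset.mem_range.1 hi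
        omega
      exact int2_step2 (hRm i) (hRs i) (int2_measY2 c _) hm hnn (hP _ hlt)
    have t2 : intII (int2B (TK Λ c v k) v (Y 0)) + intII (int2B (TK Λ c v k) v (Y 0)) ≤
        intII (int2A (TK Λ c v k) v (Y 0)) + intII (int2A (TK Λ c v k) v (Y 0)) +
        d * intII (int2J (TK Λ c v k) v) :=
      int2_step2 hTm hTs (int_measY 0) hm hnn hP0
    calc SB + SB = (∑ i ∈ Finset.range k, intII (int2B (Rj Λ (scaleV c v) i) v (Y2 c (k - 1 - i))) +
          ∑ i ∈ Finset.range k, intII (int2B (Rj Λ (scaleV c v) i) v (Y2 c (k - 1 - i)))) +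
          (intII (int2B (TK Λ c v k) v (Y 0)) + intII (int2B (TK Λ c v k) v (Y 0))) := by
            rw [hSB]; ring
      _ ≤ _ := add_le_add t1 t2
      _ = _ := by rw [hSA, hSJ]; ring
  have s4 : SP + SP + SJ ≤ (k * ENNReal.ofReal (1 / c) + 1) * (S + S) := by
    have t1 : ∑ i ∈ Finset.range k, intII (int2P (Rj Λ (scaleV c v) i) v) +
        ∑ i ∈ Finset.range k, intII (int2P (Rj Λ (scaleV c v) i) v) +
        ∑ i ∈ Finset.range k, intII (int2J (Rj Λ (scaleV c v) i) v) ≤
        k * (ENNReal.ofReal (1 / c) * (S + S)) := by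
      rw [← Finset.sum_add_distrib, ← Finset.sum_add_distrib]
      calc ∑ i ∈ Finset.range k, (intII (int2P (Rj Λ (scaleV c v) i) v) +
            intII (int2P (Rj Λ (scaleV c v) i) v) + intII (int2J (Rj Λ (scaleV c v) i) v))
          ≤ ∑ _i ∈ Finset.range k, (ENNReal.ofReal (1 / c) * (S + S)) :=
            Finset.sum_le_sum fun i _ => step4 i
        _ = _ := by rw [Finset.sum_const, Finset.card_range, nsmul_eq_mul]
    calc SP + SP + SJ = (∑ i ∈ Finset.range k, intII (int2P (Rj Λ (scaleV c v) i) v) +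
          ∑ i ∈ Finset.range k, intII (int2P (Rj Λ (scaleV c v) i) v) +
          ∑ i ∈ Finset.range k, intII (int2J (Rj Λ (scaleV c v) i) v)) +
          (intII (int2P (TK Λ c v k) v) + intII (int2P (TK Λ c v k) v) +
            intII (int2J (TK Λ c v k) v)) := by rw [hSP, hSJ]; ring
      _ ≤ k * (ENNReal.ofReal (1 / c) * (S + S)) + 1 * (S + S) := add_le_add t1 step4T
      _ = _ := by ring
  have s3 : F + F ≤ ENNReal.ofReal (alpha2 c k) * (S + S) + d * SJ := by
    have hAA : SA + SA ≠ ∞ := ENNReal.add_ne_top.2 ⟨hAfin, hAfin⟩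
    refine (ENNReal.add_le_add_iff_right hAA).1 ?_
    calc F + F + (SA + SA) = (F + SA) + (F + SA) := by ring
      _ = (ENNReal.ofReal (alpha2 c k) * S + SB) + (ENNReal.ofReal (alpha2 c k) * S + SB) := by rw [s1]
      _ = ENNReal.ofReal (alpha2 c k) * (S + S) + (SB + SB) := by ring
      _ ≤ ENNReal.ofReal (alpha2 c k) * (S + S) + (SA + SA + d * SJ) := by gcongr
      _ = _ := by ring
  set κ : ℝ≥0∞ := k * ENNReal.ofReal (1 / c) + 1 with hκ
  have hfinal : (d * d * SP + d * F) + (d * d * SP + d * F) + d * d * SJ ≤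
      ((κ * (d * d) + ENNReal.ofReal (alpha2 c k) * d) * S +
        (κ * (d * d) + ENNReal.ofReal (alpha2 c k) * d) * S) + d * d * SJ := by
    calc (d * d * SP + d * F) + (d * d * SP + d * F) + d * d * SJ
        = d * d * (SP + SP + SJ) + d * (F + F) := by ring
      _ ≤ d * d * (κ * (S + S)) + d * (ENNReal.ofReal (alpha2 c k) * (S + S) + d * SJ) := by gcongr
      _ = _ := by ring
  have hcJ : d * d * SJ ≠ ∞ := ENNReal.mul_ne_top (ENNReal.mul_ne_top hdt hdt) hJfin
  have h2 := (ENNReal.add_le_add_iff_right hcJ).1 hfinal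
  rw [← two_mul, ← two_mul] at h2
  exact (ENNReal.mul_le_mul_iff_right (by norm_num) (by norm_num)).1 h2

end Pool.Agent.H75.LO
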