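import Pool.Agent.H75.LO.FinB3
import Pool.Agent.H75.LO.FinC2

/-!
# LO2-Main2: the bound with constant `1.515`
-/

open MeasureTheory Set
open scoped ENNReal

namespace Pool.Agent.H75.LO

theorem BoundedLO.mono {K K' : ℝ} (h : BoundedLO K) (hK : K ≤ K') : BoundedLO K' := by
  intro Ω _ P _ N X hX ρ hρ hd E hE B hB hfin
  exact (h P X hX hρ hd hE hB hfin).trans
    (add_le_add le_rfl (mul_le_mul' (ENNReal.ofReal_le_ofReal hK) le_rfl))

theorem boundedLO_1515 : BoundedLO (2 * (1515 / 1000)) := by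
  refine BoundedLO.mono
    (K := 2 * Real.pi * ((244 / 64 + 1) / 29 + alpha2 64 244 * Real.sqrt 29)) ?_ const_bound2
  intro Ω _ P _ N X hX ρ hρ hd E hE B hB hfin
  exact bounded_case2 P X hX hρ hd hE hB hfin

theorem qm_1515 {q n : ℕ} {ψ : Wave q (n + 1)} (h : Admissible ψ) :
    -(1515 / 1000 : ℝ) * ∫ x, rho ψ x ^ (4 / 3 : ℝ) ≤ indirect ψ :=
  qm_gen (by norm_num) boundedLO_1515 h

end Pool.Agent.H75.LO
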