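import Pool.Agent.H75.LO.PLc

/-!
# LO3-PLcG: from a bound for shifted exponential times to `PL 0 y` and `PL2 c l y`, general `y`
-/

open MeasureTheory Set
open scoped ENNReal

namespace Pool.Agent.H75.LO

/-- the pointwise inequality for shifted exponential times -/
def ZB (y : ℝ) : Prop := ∀ {s a b r : ℝ}, 0 ≤ s → 0 ≤ a → 0 ≤ b → 0 < r →
  (a - b) * (Z s b r - Z s a r)
    ≤ y ^ (-(3 / 2) : ℝ) * (a * b * (Real.sqrt a - Real.sqrt b) ^ 2)

theorem PL_zero_gen {y : ℝ} (hy : 0 < y) (hZ : ZB y) : PL 0 y := by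
  intro a b r ha hb hr
  rw [plc_Y_eq ha hr, plc_Y_eq hb hr]
  exact plc_add ha hb (plc_Z_nonneg le_rfl) (plc_Z_nonneg le_rfl) (by positivity)
    (hZ le_rfl ha hb hr)

theorem PL2_gen {y : ℝ} (hy : 0 < y) (hZ : ZB y) {c : ℝ} (hc : 1 < c) (l : ℕ) : PL2 c l y := by
  intro a b r ha hb hr
  have hc0 : 0 < c := by linarith
  set K := ENNReal.ofReal (y ^ (-(3 / 2) : ℝ) * (a * b * (Real.sqrt a - Real.sqrt b) ^ 2)) with hK
  rw [plc_Y2' hc0 ha l, plc_Y2' hc0 hb l]
  set γ : ℝ → ℝ≥0∞ := fun s =>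
    ENNReal.ofReal (c ^ (l + 1) * s ^ l * Real.exp (-(c * s)) / (l.factorial : ℝ)) with hγ
  have hγm : Measurable γ := by rw [hγ]; fun_prop
  have hKe : K = ∫⁻ s in Ioi (0 : ℝ), K * γ s := by
    rw [lintegral_const_mul _ hγm, plc_gamma hc0 l, mul_one]
  have hA : Measurable (fun s => γ s * plcZl a r s) := hγm.mul (plcZl_meas a r)
  have hB : Measurable (fun s => γ s * plcZl b r s) := hγm.mul (plcZl_meas b r)
  rw [hKe, ← lintegral_const_mul _ hA, ← lintegral_const_mul _ hB, ← lintegral_const_mul _ hA,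
    ← lintegral_const_mul _ hB, ← lintegral_add_left (hB.const_mul _),
    ← lintegral_add_left (hA.const_mul _),
    ← lintegral_add_right _ (hγm.const_mul K)]
  refine setLIntegral_mono' measurableSet_Ioi fun s hs => ?_
  have hs' : (0 : ℝ) < s := hs
  have h := plc_add ha hb (plc_Z_nonneg (m := a) (r := r) hs'.le) (plc_Z_nonneg (m := b) (r := r) hs'.le)
    (by positivity) (hZ hs'.le ha hb hr)
  rw [← plcZl_eq' hs'.le ha hr, ← plcZl_eq' hs'.le hb hr] at h
  calc ENNReal.ofReal a * (γ s * plcZl b r s) + ENNReal.ofReal b * (γ s * plcZl a r s)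
      = γ s * (ENNReal.ofReal a * plcZl b r s + ENNReal.ofReal b * plcZl a r s) := by ring
    _ ≤ γ s * (ENNReal.ofReal a * plcZl a r s + ENNReal.ofReal b * plcZl b r s + K) := by
        gcongr
    _ = ENNReal.ofReal a * (γ s * plcZl a r s) + ENNReal.ofReal b * (γ s * plcZl b r s) + K * γ s := by
        ring

end Pool.Agent.H75.LO
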