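import Pool.Agent.H75.LO.Dz

/-!
# LO3-Num1: a one-parameter numerical inequality

`F(κ) = ∫_1^κ e^{-0.95(x-1)} x^{-3/2} Dbar(κ/x) dx ≤ 0.0741` for all `κ ≥ 1`. The true maximum is `0.06884` (at `κ ≈ 2.2`), so
there is a relative slack of 7.6%. Values: `F(1.5) = 0.0441`, `F(2) = 0.0678`, `F(2.5) = 0.0656`, `F(3) ≈ 0.0587`, `F(4) ≈ 0.0425`,
`F(6) ≈ 0.024`, decreasing afterwards (`≤ 0.027·∫_1^∞ + …`).

Suggestion: logarithmic grid `x = e^{p}`, `κ = e^{q}`, step `h` (`h = 0.01` or `0.02`): for `q` in the cell `[ih,(i+1)h]`,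
`F(κ) ≤ Σ_j W_j D_{i-j}` with `W_j ≥ ∫_{cell j} e^{-0.95(x-1)} x^{-3/2} dx` (the integrand is decreasing) and
`D_m ≥ sup of Dbar` over `ζ ∈ [e^{(m-1)h}, e^{(m+1)h}]`: a finite table of rational bounds for exponentials and a convolution, checked
by kernel arithmetic (`decide +kernel`); large `κ` (`κ ≥ 4` or so) by a crude bound. Any other proof is fine (e.g. piecewise
polynomial bounds for the integrand).
-/

open Real MeasureTheory Set

namespace Pool.Agent.H75.LO

/-! ### kernel arithmetic (scale `10^12`) -/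

/-- lower bounds of `10^12 * 1.01^m` -/
def num1lo : ℕ → ℕ
  | 0 => 1000000000000
  | m + 1 => num1lo m * 101 / 100

/-- upper bounds of `10^12 * 1.01^m` -/
def num1hi : ℕ → ℕ
  | 0 => 1000000000000
  | m + 1 => num1hi m * 101 / 100 + 1

/-- terms of the exponential series of `n / 10^12` -/
def num1T (n : ℕ) : ℕ → ℕ
  | 0 => 1000000000000
  | k + 1 => num1T n k * n / (1000000000000 * (k + 1))

/-- partial sums of the exponential series -/
def num1S (n : ℕ) : ℕ → ℕ
  | 0 => 0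
  | k + 1 => num1S n k + num1T n k

/-- check of an entry of the weight table -/
def num1W (m v : ℕ) : Bool :=
  decide (201 * 10 ^ 33 ≤
    v * 10201 * num1lo m * num1S (95 * (num1lo (2 * m) - 1000000000000) / 100) 24)

/-- check of an entry of the table of the suprema of `Dbar` -/
def num1D (j v : ℕ) : Bool :=
  if 2 * num1hi (2 * j + 2) ≤ 3000000000000 then
    decide (8 * (num1hi (2 * j + 2) - 1000000000000) * 10 ^ 9 ≤
      v * num1S (2 * num1lo (2 * j + 2)) 24)
  else if 4000000000000 < num1lo (2 * j) then decide (27000000 ≤ v)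
  else if 3000000000000 < num1lo (2 * j) then decide (49000000 ≤ v)
  else if 5000000000000 ≤ 2 * num1lo (2 * j) then decide (84000000 ≤ v)
  else if 3000000000000 ≤ 2 * num1lo (2 * j) then
    decide (84000000 ≤ v ∧ 8 * (num1hi (2 * j) - 1000000000000) * 10 ^ 9 ≤
      v * num1S (2 * num1lo (2 * j)) 24)
  else decide (199200000 ≤ v)

/-- weights, scale `10^9` -/
def num1wT : List ℕ :=
  [
    19703951, 19703951, 19139875, 18584812, 18038783, 17501804, 16973894, 16455066, 15945336,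
    15444714, 14953212, 14470836, 13997594, 13533489, 13078523, 12632693, 12195997, 11768427,
    11349974, 10940625, 10540364, 10149171, 9767024, 9393897, 9029759, 8674576, 8328311,
    7990922, 7662362, 7342583, 7031528, 6729141, 6435357, 6150109, 5873327, 5604932, 5344845,
    5092979, 4849246, 4613551, 4385796, 4165876, 3953685, 3749111, 3552038, 3362346, 3179912,
    3004606, 2836298, 2674852, 2520131, 2371991, 2230288, 2094875, 1965601, 1842313, 1724857,
    1613074, 1506807, 1405894, 1310176, 1219489, 1133671, 1052558, 975986, 903793, 835815,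
    771890, 711858, 655559, 602833, 553526, 507481, 464549, 424578, 387424, 352940, 320989,
    291432, 264136, 238972, 215814, 194540, 175032, 157178, 140869, 125999, 112469, 100183,
    89050, 78982, 69898, 61720, 54373, 47788, 41900, 36648, 31975, 27827, 24154, 20910, 18054,
    15545, 13347, 11427, 9754, 8302
  ]

/-- suprema of `Dbar` on the cells, scale `10^9` -/
def num1dT : List ℕ :=
  [
    20904436, 40532348, 58895579, 76008168, 91886337, 106548460, 120015033, 132308630,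
    143453852, 153477267, 162407337, 170274347, 177110310, 182948879, 187825238, 191775997,
    194839067, 197053538, 198459547, 199098139, 199200000, 199011125, 198240934, 196830461,
    194822914, 192261656, 189190050, 185651300, 181688292, 177343444, 172658548, 167674625,
    162431778, 156969058, 151324327, 145534138, 139633619, 133656362, 127634333, 121597784,
    115575174, 109593113, 103676308, 97847523, 92127557, 86535229, 84000000, 84000000,
    84000000, 84000000, 84000000, 84000000, 84000000, 84000000, 84000000, 84000000, 49000000,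
    49000000, 49000000, 49000000, 49000000, 49000000, 49000000, 49000000, 49000000, 49000000,
    49000000, 49000000, 49000000, 49000000, 27000000, 27000000, 27000000, 27000000, 27000000,
    27000000, 27000000, 27000000, 27000000, 27000000, 27000000, 27000000, 27000000, 27000000,
    27000000, 27000000, 27000000, 27000000, 27000000, 27000000, 27000000, 27000000, 27000000,
    27000000, 27000000, 27000000, 27000000, 27000000, 27000000, 27000000, 27000000, 27000000,
    27000000, 27000000, 27000000, 27000000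
  ]

/-- row sums -/
def num1row (i : ℕ) : ℕ → ℕ
  | 0 => 0
  | j + 1 => num1row i j + num1wT.getD (i - j) 0 * num1dT.getD j 0

theorem num1_checkW : ∀ m < 105, num1W m (num1wT.getD (m + 1) 0) = true := by
  decide +kernel

theorem num1_checkD : ∀ j < 106, num1D j (num1dT.getD j 0) = true := by
  decide +kernel

theorem num1_checkRow : ∀ i < 106, num1row i (i + 1) ≤ 74100000000000000 := by
  decide +kernel

theorem num1_checkEnd : 8200000000000 ≤ num1lo (2 * 106) := by
  decide +kernel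

theorem num1_check0 : 201 * 10 ^ 9 ≤ num1wT.getD 0 0 * 10201 := by
  decide +kernel

/-! ### soundness of the arithmetic -/

theorem num1lo_le (m : ℕ) : (num1lo m : ℝ) ≤ 10 ^ 12 * (101 / 100) ^ m := by
  induction m with
  | zero => simp [num1lo]; norm_num
  | succ m ih =>
    simp only [num1lo]
    refine (Nat.cast_div_le).trans ?_
    push_cast
    rw [pow_succ (101 / 100 : ℝ) m]
    linarith

theorem num1hi_ge (m : ℕ) : (10 ^ 12 * (101 / 100) ^ m : ℝ) ≤ num1hi m := by
  induction m with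
  | zero => simp [num1hi]; norm_num
  | succ m ih =>
    simp only [num1hi]
    have h : num1hi m * 101 ≤ (num1hi m * 101 / 100 + 1) * 100 := by omega
    have h' : (num1hi m : ℝ) * 101 ≤ ((num1hi m * 101 / 100 + 1 : ℕ) : ℝ) * 100 := by
      exact_mod_cast h
    rw [pow_succ (101 / 100 : ℝ) m]
    linarith

theorem num1T_le (n k : ℕ) :
    (num1T n k : ℝ) ≤ 10 ^ 12 * (((n : ℝ) / 10 ^ 12) ^ k / (k.factorial : ℝ)) := by
  induction k with
  | zero => simp [num1T]; norm_num
  | succ k ih =>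
    simp only [num1T]
    refine (Nat.cast_div_le).trans ?_
    push_cast
    rw [Nat.factorial_succ]
    push_cast
    have hk : (0 : ℝ) < (k : ℝ) + 1 := by positivity
    have hf : (0 : ℝ) < (k.factorial : ℝ) := by positivity
    have h1 : (10 : ℝ) ^ 12 * (((n : ℝ) / 10 ^ 12) ^ (k + 1) / (((k : ℝ) + 1) * (k.factorial : ℝ))) =
        (10 ^ 12 * (((n : ℝ) / 10 ^ 12) ^ k / (k.factorial : ℝ))) * n /
          (1000000000000 * ((k : ℝ) + 1)) := by
      rw [pow_succ ((n : ℝ) / 10 ^ 12) k]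
      field_simp
      norm_num
      ring
    rw [h1]
    gcongr

theorem num1S_le (n k : ℕ) : (num1S n k : ℝ) ≤ 10 ^ 12 * exp ((n : ℝ) / 10 ^ 12) := by
  have h : (num1S n k : ℝ) ≤ 10 ^ 12 *
      ∑ i ∈ Finset.range k, (((n : ℝ) / 10 ^ 12) ^ i / (i.factorial : ℝ)) := by
    induction k with
    | zero => simp [num1S]
    | succ k ih =>
      simp only [num1S]
      rw [Finset.sum_range_succ, mul_add]
      push_cast
      exact add_le_add ih (num1T_le n k)
  refine h.trans ?_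
  have := Real.sum_le_exp_of_nonneg (x := (n : ℝ) / 10 ^ 12) (by positivity) k
  linarith

theorem num1S_exp {n k : ℕ} {t : ℝ} (h : (n : ℝ) ≤ 10 ^ 12 * t) :
    (num1S n k : ℝ) * exp (-t) ≤ 10 ^ 12 := by
  have h1 : exp ((n : ℝ) / 10 ^ 12) ≤ exp t := by
    apply exp_le_exp.2
    rw [div_le_iff₀ (by positivity)]
    linarith
  have h2 := num1S_le n k
  calc (num1S n k : ℝ) * exp (-t) ≤ (10 ^ 12 * exp t) * exp (-t) := by
        refine mul_le_mul_of_nonneg_right ?_ (exp_pos _).le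
        linarith
    _ = 10 ^ 12 := by rw [mul_assoc, ← exp_add]; simp

theorem num1_one_le (m : ℕ) : (1 : ℝ) ≤ (101 / 100) ^ m := one_le_pow₀ (by norm_num)

theorem num1W_sound {m v : ℕ} (h : num1W m v = true) :
    201 / 10201 * (((101 / 100 : ℝ) ^ m)⁻¹ * exp (-(95 / 100 * ((101 / 100) ^ (2 * m) - 1)))) ≤
      v / 10 ^ 9 := by
  have h0 := of_decide_eq_true h
  have h1 : (201 * 10 ^ 33 : ℝ) ≤ v * 10201 * num1lo m *
      num1S (95 * (num1lo (2 * m) - 1000000000000) / 100) 24 := by exact_mod_cast h0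
  have hn : ((95 * (num1lo (2 * m) - 1000000000000) / 100 : ℕ) : ℝ) ≤
      10 ^ 12 * (95 / 100 * ((101 / 100 : ℝ) ^ (2 * m) - 1)) := by
    refine (Nat.cast_div_le).trans ?_
    push_cast
    have h2 : ((num1lo (2 * m) - 1000000000000 : ℕ) : ℝ) ≤
        10 ^ 12 * ((101 / 100 : ℝ) ^ (2 * m) - 1) := by
      rcases le_total 1000000000000 (num1lo (2 * m)) with h3 | h3
      · rw [Nat.cast_sub h3]
        have := num1lo_le (2 * m)
        push_cast
        linarith
      · rw [Nat.sub_eq_zero_of_le h3]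
        have := num1_one_le (2 * m)
        push_cast
        nlinarith
    linarith
  have hE := num1S_exp (k := 24) hn
  have hlo := num1lo_le m
  set E := exp (-(95 / 100 * ((101 / 100 : ℝ) ^ (2 * m) - 1))) with hEdef
  have hE0 : 0 ≤ E := (exp_pos _).le
  have hs : (0 : ℝ) < (101 / 100) ^ m := by positivity
  have hlo2 : (num1lo m : ℝ) * ((101 / 100 : ℝ) ^ m)⁻¹ ≤ 10 ^ 12 := by
    rw [← div_eq_mul_inv, div_le_iff₀ hs]
    exact hlo
  have hinv : (0 : ℝ) ≤ ((101 / 100 : ℝ) ^ m)⁻¹ := by positivity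
  generalize num1S (95 * (num1lo (2 * m) - 1000000000000) / 100) 24 = Sn at *
  have h3 : (201 * 10 ^ 33 : ℝ) * (((101 / 100 : ℝ) ^ m)⁻¹ * E) ≤ v * 10201 * 10 ^ 24 := by
    calc (201 * 10 ^ 33 : ℝ) * (((101 / 100 : ℝ) ^ m)⁻¹ * E)
        ≤ (v * 10201 * num1lo m * Sn) * (((101 / 100 : ℝ) ^ m)⁻¹ * E) :=
          mul_le_mul_of_nonneg_right h1 (mul_nonneg hinv hE0)
      _ = v * 10201 * ((num1lo m * ((101 / 100 : ℝ) ^ m)⁻¹) * (Sn * E)) := by ring
      _ ≤ v * 10201 * (10 ^ 12 * 10 ^ 12) := by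
          gcongr
      _ = v * 10201 * 10 ^ 24 := by ring
  rw [le_div_iff₀ (by positivity)]
  linarith

/-! ### the function `Dbar` -/

theorem num1_D1_mono {u v : ℝ} (huv : u ≤ v) (hv : v ≤ 3 / 2) (hu : 1 ≤ u) : D1 u ≤ D1 v := by
  unfold D1
  have h1 : u - 1 ≤ (v - 1) * (1 - 2 * (v - u)) := by nlinarith
  have h2 : 1 - 2 * (v - u) ≤ exp (-(2 * (v - u))) := by
    have := add_one_le_exp (-(2 * (v - u)))
    linarith
  have h3 : exp (-(2 * v)) = exp (-(2 * u)) * exp (-(2 * (v - u))) := by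
    rw [← exp_add]; congr 1; ring
  have h4 : u - 1 ≤ (v - 1) * exp (-(2 * (v - u))) :=
    h1.trans (mul_le_mul_of_nonneg_left h2 (by linarith))
  rw [h3]
  nlinarith [exp_pos (-(2 * u))]

theorem num1_D1_anti {u v : ℝ} (huv : u ≤ v) (hu : 3 / 2 ≤ u) : D1 v ≤ D1 u := by
  unfold D1
  have h2 : 2 * (v - u) + 1 ≤ exp (2 * (v - u)) := add_one_le_exp _
  have h3 : exp (-(2 * u)) = exp (-(2 * v)) * exp (2 * (v - u)) := by
    rw [← exp_add]; congr 1; ring
  have h4 : v - 1 ≤ (u - 1) * exp (2 * (v - u)) := by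
    refine le_trans ?_ (mul_le_mul_of_nonneg_left h2 (by linarith))
    nlinarith
  rw [h3]
  nlinarith [exp_pos (-(2 * v))]

theorem num1_exp3 : exp (-3 : ℝ) ≤ 498 / 10000 := by
  have h := num1S_exp (n := 3000000000000) (k := 24) (t := 3) (by norm_num)
  have h1 : 20085000000000 ≤ num1S 3000000000000 24 := by decide +kernel
  have h2 : (20085000000000 : ℝ) ≤ num1S 3000000000000 24 := by exact_mod_cast h1
  nlinarith [exp_pos (-3 : ℝ)]

theorem num1_exp5 : exp (-5 : ℝ) ≤ 7 / 1000 := by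
  have h := num1S_exp (n := 5000000000000) (k := 24) (t := 5) (by norm_num)
  have h1 : 148000000000000 ≤ num1S 5000000000000 24 := by decide +kernel
  have h2 : (148000000000000 : ℝ) ≤ num1S 5000000000000 24 := by exact_mod_cast h1
  nlinarith [exp_pos (-5 : ℝ)]

theorem num1_D1_max {u : ℝ} (hu : 1 ≤ u) : D1 u ≤ 1992 / 10000 := by
  have h0 : D1 (3 / 2) ≤ 1992 / 10000 := by
    unfold D1
    have : exp (-(2 * (3 / 2 : ℝ))) = exp (-3) := by norm_num
    rw [this]
    linarith [num1_exp3]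
  rcases le_total u (3 / 2) with h | h
  · exact (num1_D1_mono h le_rfl hu).trans h0
  · exact (num1_D1_anti h le_rfl).trans h0

theorem num1_D1_nonneg {u : ℝ} (hu : 1 ≤ u) : 0 ≤ D1 u := by
  unfold D1
  exact mul_nonneg (by linarith) (exp_pos _).le

theorem num1_Dbar_nonneg {u : ℝ} (hu : 1 ≤ u) : 0 ≤ Dbar u := by
  unfold Dbar
  split_ifs
  · exact num1_D1_nonneg hu
  · norm_num
  · norm_num
  · norm_num

theorem num1_Dbar_max {u : ℝ} (hu : 1 ≤ u) : Dbar u ≤ 1992 / 10000 := by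
  unfold Dbar
  split_ifs
  · exact num1_D1_max hu
  · norm_num
  · norm_num
  · norm_num

theorem num1_Dbar_le1 {u b : ℝ} (hu : 1 ≤ u) (hub : u ≤ b) (hb : b ≤ 3 / 2) : Dbar u ≤ D1 b := by
  unfold Dbar
  rw [if_pos (by linarith)]
  exact num1_D1_mono hub hb hu

theorem num1_Dbar_le5 {u : ℝ} (hu : 5 / 2 ≤ u) : Dbar u ≤ 84 / 1000 := by
  unfold Dbar
  split_ifs with h1
  · have : u = 5 / 2 := le_antisymm h1 hu
    rw [this]
    unfold D1
    have : exp (-(2 * (5 / 2 : ℝ))) = exp (-5) := by norm_num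
    rw [this]
    linarith [num1_exp5]
  · exact le_rfl
  · norm_num
  · norm_num

theorem num1_Dbar_le6 {u : ℝ} (hu : 3 < u) : Dbar u ≤ 49 / 1000 := by
  unfold Dbar
  rw [if_neg (by linarith), if_neg (by linarith)]
  split_ifs
  · exact le_rfl
  · norm_num

theorem num1_Dbar_le8 {u : ℝ} (hu : 4 < u) : Dbar u ≤ 27 / 1000 := by
  unfold Dbar
  rw [if_neg (by linarith), if_neg (by linarith), if_neg (by linarith)]

theorem num1_Dbar_le3 {u a : ℝ} (ha : 3 / 2 ≤ a) (hu : a ≤ u) : Dbar u ≤ max (84 / 1000) (D1 a) := by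
  rcases le_total u (5 / 2) with h | h
  · refine le_trans ?_ (le_max_right _ _)
    unfold Dbar
    rw [if_pos h]
    exact num1_D1_anti hu ha
  · exact (num1_Dbar_le5 h).trans (le_max_left _ _)

theorem num1_D1_bound {p v : ℕ} (h : 8 * (num1hi p - 1000000000000) * 10 ^ 9 ≤
    v * num1S (2 * num1lo p) 24) : D1 ((101 / 100) ^ p) ≤ v / 10 ^ 9 := by
  have h1 : (8 * ((num1hi p - 1000000000000 : ℕ) : ℝ) * 10 ^ 9 : ℝ) ≤
      v * num1S (2 * num1lo p) 24 := by exact_mod_cast h
  have h2 : (num1hi p : ℝ) ≤ ((num1hi p - 1000000000000 : ℕ) : ℝ) + 1000000000000 := by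
    have : num1hi p ≤ (num1hi p - 1000000000000) + 1000000000000 := by omega
    exact_mod_cast this
  have h3 := num1hi_ge p
  have h4 := num1lo_le p
  have hE := num1S_exp (n := 2 * num1lo p) (k := 24) (t := 2 * (101 / 100) ^ p) (by
    push_cast
    linarith)
  unfold D1
  set E := exp (-(2 * (101 / 100 : ℝ) ^ p)) with hEdef
  have hE0 : 0 ≤ E := (exp_pos _).le
  generalize num1S (2 * num1lo p) 24 = Sn at *
  generalize (num1hi p - 1000000000000 : ℕ) = d at *
  have h5 : 10 ^ 12 * ((101 / 100 : ℝ) ^ p - 1) ≤ d := by linarith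
  rw [le_div_iff₀ (by positivity)]
  have h6 : 8 * (10 ^ 12 * ((101 / 100 : ℝ) ^ p - 1)) * 10 ^ 9 * E ≤ v * 10 ^ 12 := by
    calc 8 * (10 ^ 12 * ((101 / 100 : ℝ) ^ p - 1)) * 10 ^ 9 * E
        ≤ 8 * d * 10 ^ 9 * E := by gcongr
      _ ≤ (v * Sn) * E := mul_le_mul_of_nonneg_right h1 hE0
      _ = v * (Sn * E) := by ring
      _ ≤ v * 10 ^ 12 := by gcongr
  linarith

theorem num1D_sound {j v : ℕ} (h : num1D j v = true) {u : ℝ} (h1 : (101 / 100 : ℝ) ^ (2 * j) ≤ u)
    (h2 : u ≤ (101 / 100 : ℝ) ^ (2 * j + 2)) : Dbar u ≤ v / 10 ^ 9 := by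
  have hu : 1 ≤ u := (num1_one_le _).trans h1
  have hlo := num1lo_le (2 * j)
  unfold num1D at h
  split_ifs at h with c1 c2 c3 c4 c5
  · have h3 := of_decide_eq_true h
    have h4 : (2 * num1hi (2 * j + 2) : ℝ) ≤ 3000000000000 := by exact_mod_cast c1
    have h5 := num1hi_ge (2 * j + 2)
    exact (num1_Dbar_le1 hu h2 (by linarith)).trans (num1_D1_bound h3)
  · have h3 : (27000000 : ℝ) ≤ v := by exact_mod_cast of_decide_eq_true h
    have h4 : (4000000000000 : ℝ) < num1lo (2 * j) := by exact_mod_cast c2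
    refine (num1_Dbar_le8 (by linarith)).trans ?_
    rw [le_div_iff₀ (by positivity)]
    linarith
  · have h3 : (49000000 : ℝ) ≤ v := by exact_mod_cast of_decide_eq_true h
    have h4 : (3000000000000 : ℝ) < num1lo (2 * j) := by exact_mod_cast c3
    refine (num1_Dbar_le6 (by linarith)).trans ?_
    rw [le_div_iff₀ (by positivity)]
    linarith
  · have h3 : (84000000 : ℝ) ≤ v := by exact_mod_cast of_decide_eq_true h
    have h4 : (5000000000000 : ℝ) ≤ 2 * num1lo (2 * j) := by exact_mod_cast c4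
    refine (num1_Dbar_le5 (by linarith)).trans ?_
    rw [le_div_iff₀ (by positivity)]
    linarith
  · obtain ⟨h3', h3⟩ := of_decide_eq_true h
    have h3'' : (84000000 : ℝ) ≤ v := by exact_mod_cast h3'
    have h4 : (3000000000000 : ℝ) ≤ 2 * num1lo (2 * j) := by exact_mod_cast c5
    refine (num1_Dbar_le3 (by linarith) h1).trans (max_le ?_ (num1_D1_bound h3))
    rw [le_div_iff₀ (by positivity)]
    linarith
  · have h3 : (199200000 : ℝ) ≤ v := by exact_mod_cast of_decide_eq_true h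
    refine (num1_Dbar_max hu).trans ?_
    rw [le_div_iff₀ (by positivity)]
    linarith

/-! ### the integral -/

/-- the integrand -/
noncomputable def num1f (κ x : ℝ) : ℝ :=
  exp (-(95 / 100 * (x - 1))) * x ^ (-(3 / 2) : ℝ) * Dbar (κ / x)

theorem num1_g_le {s x : ℝ} (hs : 1 ≤ s) (hx : s ^ 2 ≤ x) :
    exp (-(95 / 100 * (x - 1))) * x ^ (-(3 / 2) : ℝ) ≤
      s * exp (-(95 / 100 * (s ^ 2 - 1))) * (x ^ 2)⁻¹ := by
  have hs2 : 1 ≤ s ^ 2 := one_le_pow₀ hs
  have hx0 : 0 < x := by linarith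
  have h1 : x ^ (-(3 / 2) : ℝ) = sqrt x * (x ^ 2)⁻¹ := by
    rw [sqrt_eq_rpow, ← rpow_natCast x 2, ← rpow_neg hx0.le, ← rpow_add hx0]
    norm_num
  have h2 : sqrt x ≤ s * exp ((x - s ^ 2) / 2) := by
    rw [sqrt_le_left (by positivity), mul_pow, ← exp_nat_mul]
    have h3 : x - s ^ 2 + 1 ≤ exp (x - s ^ 2) := add_one_le_exp _
    have h4 : exp (((2 : ℕ) : ℝ) * ((x - s ^ 2) / 2)) = exp (x - s ^ 2) := by
      congr 1; push_cast; ring
    rw [h4]
    nlinarith
  have h3 : exp ((x - s ^ 2) / 2) ≤ exp (95 / 100 * (x - s ^ 2)) := by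
    apply exp_le_exp.2
    linarith
  have h4 : exp (-(95 / 100 * (s ^ 2 - 1))) =
      exp (-(95 / 100 * (x - 1))) * exp (95 / 100 * (x - s ^ 2)) := by
    rw [← exp_add]; congr 1; ring
  have h5 : sqrt x ≤ s * exp (95 / 100 * (x - s ^ 2)) :=
    h2.trans (mul_le_mul_of_nonneg_left h3 (by linarith))
  rw [h1, h4]
  have h6 : 0 ≤ (x ^ 2)⁻¹ := by positivity
  calc exp (-(95 / 100 * (x - 1))) * (sqrt x * (x ^ 2)⁻¹)
      ≤ exp (-(95 / 100 * (x - 1))) * ((s * exp (95 / 100 * (x - s ^ 2))) * (x ^ 2)⁻¹) := by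
        gcongr
    _ = _ := by ring

theorem num1_measurable_Dbar : Measurable Dbar := by
  have h1 : Measurable D1 := by
    unfold D1
    fun_prop
  unfold Dbar
  refine Measurable.ite (measurableSet_le measurable_id measurable_const) h1 ?_
  refine Measurable.ite (measurableSet_le measurable_id measurable_const) measurable_const ?_
  exact Measurable.ite (measurableSet_le measurable_id measurable_const) measurable_const
    measurable_const

theorem num1f_bound {κ x : ℝ} (hx : 1 ≤ x) (hxκ : x ≤ κ) :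
    0 ≤ num1f κ x ∧ num1f κ x ≤ 1 := by
  have hx0 : 0 < x := by linarith
  have hz : 1 ≤ κ / x := by rw [le_div_iff₀ hx0]; linarith
  have h1 := num1_Dbar_nonneg hz
  have h2 := num1_Dbar_max hz
  have h3 : exp (-(95 / 100 * (x - 1))) ≤ 1 := exp_le_one_iff.2 (by linarith)
  have h4 : x ^ (-(3 / 2) : ℝ) ≤ 1 := rpow_le_one_of_one_le_of_nonpos hx (by norm_num)
  have h5 : 0 ≤ x ^ (-(3 / 2) : ℝ) := rpow_nonneg hx0.le _
  have h6 : 0 < exp (-(95 / 100 * (x - 1))) := exp_pos _
  unfold num1f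
  constructor
  · positivity
  · calc exp (-(95 / 100 * (x - 1))) * x ^ (-(3 / 2) : ℝ) * Dbar (κ / x)
        ≤ 1 * 1 * 1 := by
          gcongr
          linarith
      _ = 1 := by norm_num

theorem num1f_integrable {κ : ℝ} : IntegrableOn (num1f κ) (Ioc 1 κ) := by
  refine Measure.integrableOn_of_bounded (M := 1) ?_ ?_ ?_
  · simp
  · have : Measurable (num1f κ) := by
      unfold num1f
      have := num1_measurable_Dbar.comp (measurable_const.div measurable_id : Measurable fun x : ℝ => κ / x)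
      have h2 : Measurable fun x : ℝ => exp (-(95 / 100 * (x - 1))) * x ^ (-(3 / 2) : ℝ) := by
        fun_prop
      exact h2.mul this
    exact this.aestronglyMeasurable
  · rw [ae_restrict_iff' measurableSet_Ioc]
    refine Filter.Eventually.of_forall fun x hx => ?_
    obtain ⟨h1, h2⟩ := num1f_bound hx.1.le hx.2
    rw [norm_eq_abs, abs_of_nonneg h1]
    exact h2

theorem num1f_ii {κ a b : ℝ} (ha : 1 ≤ a) (hab : a ≤ b) (hb : b ≤ κ) :
    IntervalIntegrable (num1f κ) volume a b := by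
  rw [intervalIntegrable_iff_integrableOn_Ioc_of_le hab]
  exact num1f_integrable.mono_set (Ioc_subset_Ioc ha hb)

theorem num1_piece {κ a b s D : ℝ} (hs : 1 ≤ s) (hsa : s ^ 2 ≤ a) (hab : a ≤ b) (hb : b ≤ κ)
    (hD : ∀ u, κ / b ≤ u → u ≤ κ / a → Dbar u ≤ D) (hD0 : 0 ≤ D) :
    ∫ x in a..b, num1f κ x ≤ s * exp (-(95 / 100 * (s ^ 2 - 1))) * D * (1 / a - 1 / b) := by
  have hs2 : 1 ≤ s ^ 2 := one_le_pow₀ hs
  have ha1 : 1 ≤ a := hs2.trans hsa
  have ha0 : 0 < a := by linarith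
  have hb0 : 0 < b := by linarith
  have hκ0 : 0 < κ := by linarith
  set C := s * exp (-(95 / 100 * (s ^ 2 - 1))) * D with hC
  have hC0 : 0 ≤ C := by positivity
  have hne : ∀ x ∈ Set.uIcc a b, x ≠ 0 := by
    intro x hx
    rw [Set.uIcc_of_le hab] at hx
    linarith [hx.1]
  have hint : ∫ x in a..b, C * (x ^ 2)⁻¹ = C * (1 / a - 1 / b) := by
    have hderiv : ∀ x ∈ Set.uIcc a b, HasDerivAt (fun x : ℝ => -(C * x⁻¹)) (C * (x ^ 2)⁻¹) x := by
      intro x hx
      have h := ((hasDerivAt_inv (hne x hx)).const_mul C).neg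
      have e : -(C * -(x ^ 2)⁻¹) = C * (x ^ 2)⁻¹ := by ring
      rw [e] at h
      exact h
    have hii : IntervalIntegrable (fun x : ℝ => C * (x ^ 2)⁻¹) volume a b := by
      refine ContinuousOn.intervalIntegrable ?_
      refine ContinuousOn.mul continuousOn_const (ContinuousOn.inv₀ (by fun_prop) ?_)
      intro x hx
      exact pow_ne_zero 2 (hne x hx)
    rw [intervalIntegral.integral_eq_sub_of_hasDerivAt hderiv hii]
    ring
  rw [← hint]
  refine intervalIntegral.integral_mono_on hab (num1f_ii ha1 hab hb) ?_ ?_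
  · refine ContinuousOn.intervalIntegrable ?_
    refine ContinuousOn.mul continuousOn_const (ContinuousOn.inv₀ (by fun_prop) ?_)
    intro x hx
    exact pow_ne_zero 2 (hne x hx)
  · intro x hx
    have hx0 : 0 < x := by linarith [hx.1]
    have h1 := num1_g_le hs (hsa.trans hx.1)
    have h2 : Dbar (κ / x) ≤ D := by
      apply hD
      · exact div_le_div_of_nonneg_left hκ0.le hx0 hx.2
      · exact div_le_div_of_nonneg_left hκ0.le ha0 hx.1
    have hz : 1 ≤ κ / x := by rw [le_div_iff₀ hx0]; linarith [hx.2]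
    have h3 := num1_Dbar_nonneg hz
    unfold num1f
    calc exp (-(95 / 100 * (x - 1))) * x ^ (-(3 / 2) : ℝ) * Dbar (κ / x)
        ≤ (s * exp (-(95 / 100 * (s ^ 2 - 1))) * (x ^ 2)⁻¹) * D := by
          refine mul_le_mul h1 h2 h3 ?_
          positivity
      _ = C * (x ^ 2)⁻¹ := by rw [hC]; ring

/-- all pieces except the first one -/
theorem num1_sum {κ : ℝ} {i : ℕ} (hi : i < 106) (h1 : (101 / 100 : ℝ) ^ (2 * i) ≤ κ) (n : ℕ)
    (hn : n ≤ i) :
    ∫ x in (κ / (101 / 100) ^ (2 * n))..κ, num1f κ x ≤ (num1row i n : ℝ) / 10 ^ 18 := by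
  induction n with
  | zero => simp [num1row]
  | succ n ih =>
    have ih' := ih (by omega)
    have hκ0 : 0 < κ := lt_of_lt_of_le (by positivity) h1
    have hp : ∀ m : ℕ, (0 : ℝ) < (101 / 100) ^ m := fun m => by positivity
    -- the index of the weight
    obtain ⟨m, rfl⟩ : ∃ m, i = n + 1 + m := ⟨i - (n + 1), by omega⟩
    have hm : n + 1 + m - n = m + 1 := by omega
    have ha1 : ((101 / 100 : ℝ) ^ m) ^ 2 ≤ κ / (101 / 100) ^ (2 * (n + 1)) := by
      rw [le_div_iff₀ (hp _), ← pow_mul, ← pow_add]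
      have : m * 2 + 2 * (n + 1) = 2 * (n + 1 + m) := by ring
      rw [this]
      exact h1
    have hab : κ / (101 / 100 : ℝ) ^ (2 * (n + 1)) ≤ κ / (101 / 100) ^ (2 * n) :=
      div_le_div_of_nonneg_left hκ0.le (hp _) (pow_le_pow_right₀ (by norm_num) (by omega))
    have hb : κ / (101 / 100 : ℝ) ^ (2 * n) ≤ κ := by
      rw [div_le_iff₀ (hp _)]
      nlinarith [num1_one_le (2 * n)]
    have h1a : 1 ≤ κ / (101 / 100 : ℝ) ^ (2 * (n + 1)) :=
      le_trans (one_le_pow₀ (num1_one_le m)) ha1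
    have hD : ∀ u, κ / (κ / (101 / 100 : ℝ) ^ (2 * n)) ≤ u →
        u ≤ κ / (κ / (101 / 100 : ℝ) ^ (2 * (n + 1))) → Dbar u ≤ (num1dT.getD n 0 : ℝ) / 10 ^ 9 := by
      intro u hu1 hu2
      rw [div_div_cancel₀ hκ0.ne'] at hu1 hu2
      exact num1D_sound (num1_checkD n (by omega)) hu1 hu2
    have hpiece := num1_piece (num1_one_le m) ha1 hab hb hD (by positivity)
    have hsplit : ∫ x in (κ / (101 / 100) ^ (2 * (n + 1)))..κ, num1f κ x =
        (∫ x in (κ / (101 / 100) ^ (2 * (n + 1)))..(κ / (101 / 100) ^ (2 * n)), num1f κ x) +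
        ∫ x in (κ / (101 / 100) ^ (2 * n))..κ, num1f κ x := by
      rw [intervalIntegral.integral_add_adjacent_intervals (num1f_ii h1a hab hb)
        (num1f_ii (h1a.trans hab) hb le_rfl)]
    have hW := num1W_sound (num1_checkW m (by omega))
    rw [hsplit]
    simp only [num1row]
    rw [hm]
    push_cast
    rw [add_div, add_comm]
    refine add_le_add ih' (hpiece.trans ?_)
    have hrec : (1 / (κ / (101 / 100 : ℝ) ^ (2 * (n + 1))) - 1 / (κ / (101 / 100 : ℝ) ^ (2 * n))) ≤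
        201 / 10201 * (((101 / 100 : ℝ) ^ m)⁻¹ * ((101 / 100 : ℝ) ^ m)⁻¹) := by
      rw [one_div_div, one_div_div, ← sub_div, div_le_iff₀ hκ0]
      have e1 : (101 / 100 : ℝ) ^ (2 * (n + 1)) - (101 / 100) ^ (2 * n) =
          201 / 10201 * (101 / 100) ^ (2 * (n + 1)) := by
        rw [show 2 * (n + 1) = 2 * n + 2 by ring, pow_add]; norm_num; ring
      rw [e1, mul_assoc]
      refine mul_le_mul_of_nonneg_left ?_ (by norm_num)
      calc (101 / 100 : ℝ) ^ (2 * (n + 1)) =
          ((101 / 100 : ℝ) ^ m)⁻¹ * ((101 / 100 : ℝ) ^ m)⁻¹ * (101 / 100) ^ (2 * (n + 1 + m)) := by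
            rw [show 2 * (n + 1 + m) = m + m + 2 * (n + 1) by ring, pow_add, pow_add]
            field_simp
        _ ≤ _ := mul_le_mul_of_nonneg_left h1 (by positivity)
    have hsm : ((101 / 100 : ℝ) ^ m) * (((101 / 100 : ℝ) ^ m)⁻¹ * ((101 / 100 : ℝ) ^ m)⁻¹) =
        ((101 / 100 : ℝ) ^ m)⁻¹ := by
      rw [← mul_assoc, mul_inv_cancel₀ (hp m).ne', one_mul]
    have hpw : ((101 / 100 : ℝ) ^ m) ^ 2 = (101 / 100) ^ (2 * m) := by rw [← pow_mul, mul_comm]
    rw [hpw]
    set E := exp (-(95 / 100 * ((101 / 100 : ℝ) ^ (2 * m) - 1))) with hE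
    have hE0 : 0 ≤ E := (exp_pos _).le
    calc (101 / 100 : ℝ) ^ m * E * ((num1dT.getD n 0 : ℝ) / 10 ^ 9) *
          (1 / (κ / (101 / 100 : ℝ) ^ (2 * (n + 1))) - 1 / (κ / (101 / 100 : ℝ) ^ (2 * n)))
        ≤ (101 / 100 : ℝ) ^ m * E * ((num1dT.getD n 0 : ℝ) / 10 ^ 9) *
          (201 / 10201 * (((101 / 100 : ℝ) ^ m)⁻¹ * ((101 / 100 : ℝ) ^ m)⁻¹)) :=
          mul_le_mul_of_nonneg_left hrec (by positivity)
      _ = (201 / 10201 * ((((101 / 100 : ℝ) ^ m) * (((101 / 100 : ℝ) ^ m)⁻¹ *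
          ((101 / 100 : ℝ) ^ m)⁻¹)) * E)) * ((num1dT.getD n 0 : ℝ) / 10 ^ 9) := by ring
      _ ≤ ((num1wT.getD (m + 1) 0 : ℝ) / 10 ^ 9) * ((num1dT.getD n 0 : ℝ) / 10 ^ 9) := by
          rw [hsm]
          exact mul_le_mul_of_nonneg_right hW (by positivity)
      _ = _ := by ring

theorem num1_small {κ : ℝ} {i : ℕ} (hi : i < 106) (h1 : (101 / 100 : ℝ) ^ (2 * i) ≤ κ)
    (h2 : κ ≤ (101 / 100 : ℝ) ^ (2 * i + 2)) : ∫ x in (1 : ℝ)..κ, num1f κ x ≤ 741 / 10000 := by
  have hκ0 : 0 < κ := lt_of_lt_of_le (by positivity) h1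
  have hp : ∀ m : ℕ, (0 : ℝ) < (101 / 100) ^ m := fun m => by positivity
  have h1a : 1 ≤ κ / (101 / 100 : ℝ) ^ (2 * i) := by
    rw [le_div_iff₀ (hp _), one_mul]; exact h1
  have hb : κ / (101 / 100 : ℝ) ^ (2 * i) ≤ κ := by
    rw [div_le_iff₀ (hp _)]
    nlinarith [num1_one_le (2 * i)]
  have hs := num1_sum hi h1 i le_rfl
  have hD : ∀ u, κ / (κ / (101 / 100 : ℝ) ^ (2 * i)) ≤ u →
      u ≤ κ / 1 → Dbar u ≤ (num1dT.getD i 0 : ℝ) / 10 ^ 9 := by
    intro u hu1 hu2
    rw [div_div_cancel₀ hκ0.ne'] at hu1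
    rw [div_one] at hu2
    exact num1D_sound (num1_checkD i hi) hu1 (hu2.trans h2)
  have hpiece := num1_piece (κ := κ) (s := 1) le_rfl (by norm_num : (1 : ℝ) ^ 2 ≤ 1) h1a hb hD
    (by positivity)
  rw [← intervalIntegral.integral_add_adjacent_intervals (num1f_ii le_rfl h1a hb)
        (num1f_ii h1a hb le_rfl)]
  have hrow : (num1row i (i + 1) : ℝ) ≤ 74100000000000000 := by
    exact_mod_cast num1_checkRow i hi
  simp only [num1row, Nat.sub_self] at hrow
  push_cast at hrow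
  have h0 : (201 * 10 ^ 9 : ℝ) ≤ num1wT.getD 0 0 * 10201 := by exact_mod_cast num1_check0
  have hrec : (1 / 1 - 1 / (κ / (101 / 100 : ℝ) ^ (2 * i))) ≤ 201 / 10201 := by
    rw [one_div_div, div_one]
    have : 10000 / 10201 ≤ (101 / 100 : ℝ) ^ (2 * i) / κ := by
      rw [le_div_iff₀ hκ0]
      rw [pow_add] at h2
      norm_num at h2 ⊢
      linarith
    linarith
  have hw0 : 201 / 10201 ≤ (num1wT.getD 0 0 : ℝ) / 10 ^ 9 := by
    rw [div_le_div_iff₀ (by norm_num) (by norm_num)]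
    linarith
  have hexp : (1 : ℝ) * exp (-(95 / 100 * ((1 : ℝ) ^ 2 - 1))) = 1 := by norm_num
  rw [hexp, one_mul] at hpiece
  have hp2 : ∫ x in (1 : ℝ)..(κ / (101 / 100 : ℝ) ^ (2 * i)), num1f κ x ≤
      (num1dT.getD i 0 : ℝ) / 10 ^ 9 * ((num1wT.getD 0 0 : ℝ) / 10 ^ 9) :=
    hpiece.trans (mul_le_mul_of_nonneg_left (hrec.trans hw0) (by positivity))
  have e1 : (num1dT.getD i 0 : ℝ) / 10 ^ 9 * ((num1wT.getD 0 0 : ℝ) / 10 ^ 9) =
      (num1wT.getD 0 0 : ℝ) * (num1dT.getD i 0 : ℝ) / 10 ^ 18 := by ring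
  rw [e1] at hp2
  have e2 : ((num1row i i : ℝ) + (num1wT.getD 0 0 : ℝ) * (num1dT.getD i 0 : ℝ)) / 10 ^ 18 ≤
      741 / 10000 := by
    rw [div_le_div_iff₀ (by norm_num) (by norm_num)]
    linarith
  rw [add_div] at e2
  linarith

theorem num1_exp95 : exp (-(95 / 100) : ℝ) ≤ 387 / 1000 := by
  have h := num1S_exp (n := 950000000000) (k := 24) (t := 95 / 100) (by norm_num)
  have h1 : 2585000000000 ≤ num1S 950000000000 24 := by decide +kernel
  have h2 : (2585000000000 : ℝ) ≤ num1S 950000000000 24 := by exact_mod_cast h1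
  nlinarith [exp_pos (-(95 / 100) : ℝ)]

theorem num1_expint (C a b : ℝ) :
    ∫ x in a..b, C * exp (-(95 / 100 * (x - 1))) =
      C * (100 / 95) * (exp (-(95 / 100 * (a - 1))) - exp (-(95 / 100 * (b - 1)))) := by
  have hderiv : ∀ x ∈ Set.uIcc a b, HasDerivAt
      (fun x : ℝ => -(C * (100 / 95) * exp (-(95 / 100 * (x - 1)))))
      (C * exp (-(95 / 100 * (x - 1)))) x := by
    intro x _
    have h1 : HasDerivAt (fun x : ℝ => -(95 / 100 * (x - 1))) (-(95 / 100 * 1)) x :=
      (((hasDerivAt_id x).sub_const 1).const_mul (95 / 100)).neg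
    have h := ((h1.exp).const_mul (C * (100 / 95))).neg
    have e : -(C * (100 / 95) * (exp (-(95 / 100 * (x - 1))) * (-(95 / 100 * 1)))) =
        C * exp (-(95 / 100 * (x - 1))) := by ring
    rw [e] at h
    exact h
  rw [intervalIntegral.integral_eq_sub_of_hasDerivAt hderiv (by
    refine Continuous.intervalIntegrable ?_ _ _
    fun_prop)]
  ring

theorem num1_large {κ : ℝ} (hκ : 82 / 10 ≤ κ) : ∫ x in (1 : ℝ)..κ, num1f κ x ≤ 741 / 10000 := by
  have h12 : (1 : ℝ) ≤ 2 := by norm_num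
  have h2κ : (2 : ℝ) ≤ κ := by linarith
  rw [← intervalIntegral.integral_add_adjacent_intervals (num1f_ii le_rfl h12 h2κ)
        (num1f_ii h12 h2κ le_rfl)]
  have hA : ∫ x in (1 : ℝ)..2, num1f κ x ≤
      ∫ x in (1 : ℝ)..2, (27 / 1000) * exp (-(95 / 100 * (x - 1))) := by
    refine intervalIntegral.integral_mono_on h12 (num1f_ii le_rfl h12 h2κ)
      (Continuous.intervalIntegrable (by fun_prop) _ _) ?_
    intro x hx
    have hx0 : 0 < x := by linarith [hx.1]
    have h1 : Dbar (κ / x) ≤ 27 / 1000 := by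
      apply num1_Dbar_le8
      rw [lt_div_iff₀ hx0]
      linarith [hx.2]
    have h2 : x ^ (-(3 / 2) : ℝ) ≤ 1 := rpow_le_one_of_one_le_of_nonpos hx.1 (by norm_num)
    have h3 : 0 ≤ x ^ (-(3 / 2) : ℝ) := rpow_nonneg hx0.le _
    have hz : 1 ≤ κ / x := by rw [le_div_iff₀ hx0]; linarith [hx.2]
    have h4 := num1_Dbar_nonneg hz
    unfold num1f
    calc exp (-(95 / 100 * (x - 1))) * x ^ (-(3 / 2) : ℝ) * Dbar (κ / x)
        ≤ exp (-(95 / 100 * (x - 1))) * 1 * (27 / 1000) := by gcongr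
      _ = _ := by ring
  have hB : ∫ x in (2 : ℝ)..κ, num1f κ x ≤
      ∫ x in (2 : ℝ)..κ, (996 / 10000) * exp (-(95 / 100 * (x - 1))) := by
    refine intervalIntegral.integral_mono_on h2κ (num1f_ii h12 h2κ le_rfl)
      (Continuous.intervalIntegrable (by fun_prop) _ _) ?_
    intro x hx
    have hx0 : 0 < x := by linarith [hx.1]
    have hz : 1 ≤ κ / x := by rw [le_div_iff₀ hx0]; linarith [hx.2]
    have h1 := num1_Dbar_max hz
    have h2 : x ^ (-(3 / 2) : ℝ) ≤ 1 / 2 := by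
      calc x ^ (-(3 / 2) : ℝ) ≤ x ^ (-1 : ℝ) :=
            rpow_le_rpow_of_exponent_le (by linarith [hx.1]) (by norm_num)
        _ = 1 / x := by rw [rpow_neg_one, one_div]
        _ ≤ 1 / 2 := one_div_le_one_div_of_le (by norm_num) hx.1
    have h3 : 0 ≤ x ^ (-(3 / 2) : ℝ) := rpow_nonneg hx0.le _
    have h4 := num1_Dbar_nonneg hz
    unfold num1f
    calc exp (-(95 / 100 * (x - 1))) * x ^ (-(3 / 2) : ℝ) * Dbar (κ / x)
        ≤ exp (-(95 / 100 * (x - 1))) * (1 / 2) * (1992 / 10000) := by gcongr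
      _ = _ := by ring
  rw [num1_expint] at hA hB
  have e1 : exp (-(95 / 100 * ((1 : ℝ) - 1))) = 1 := by norm_num
  have e2 : exp (-(95 / 100 * ((2 : ℝ) - 1))) = exp (-(95 / 100)) := by norm_num
  rw [e1, e2] at hA
  rw [e2] at hB
  have e3 : 0 < exp (-(95 / 100 * (κ - 1))) := exp_pos _
  have e4 := num1_exp95
  nlinarith

theorem num1 {κ : ℝ} (hκ : 1 ≤ κ) :
    ∫ x in Ioc 1 κ, exp (-(95 / 100 * (x - 1))) * x ^ (-(3 / 2) : ℝ) * Dbar (κ / x)
      ≤ 741 / 10000 := by
  have h : ∫ x in Ioc 1 κ, exp (-(95 / 100 * (x - 1))) * x ^ (-(3 / 2) : ℝ) * Dbar (κ / x) =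
      ∫ x in (1 : ℝ)..κ, num1f κ x := by
    rw [intervalIntegral.integral_of_le hκ]
    rfl
  rw [h]
  rcases le_total (82 / 10) κ with hl | hl
  · exact num1_large hl
  · -- find the cell
    have hend : (82 / 10 : ℝ) ≤ (101 / 100 : ℝ) ^ (2 * 106) := by
      have h1 : (8200000000000 : ℝ) ≤ num1lo (2 * 106) := by exact_mod_cast num1_checkEnd
      have h2 := num1lo_le (2 * 106)
      linarith
    have hex : ∃ i, κ ≤ (101 / 100 : ℝ) ^ (2 * i + 2) := ⟨105, by
      have : (101 / 100 : ℝ) ^ (2 * 106) = (101 / 100 : ℝ) ^ (2 * 105 + 2) := by norm_num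
      linarith⟩
    classical
    let i := Nat.find hex
    have hi1 : κ ≤ (101 / 100 : ℝ) ^ (2 * i + 2) := Nat.find_spec hex
    have hi2 : i ≤ 105 := Nat.find_min' hex (by
      have : (101 / 100 : ℝ) ^ (2 * 106) = (101 / 100 : ℝ) ^ (2 * 105 + 2) := by norm_num
      linarith)
    have hi3 : (101 / 100 : ℝ) ^ (2 * i) ≤ κ := by
      rcases Nat.eq_zero_or_pos i with h0 | h0
      · rw [h0]; simpa using hκ
      · have := Nat.find_min hex (m := i - 1) (by omega)
        push Not at this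
        have e : 2 * (i - 1) + 2 = 2 * i := by omega
        rw [e] at this
        exact this.le
    exact num1_small (by omega) hi3 hi1

end Pool.Agent.H75.LO
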