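import Pool.Agent.H75.LO.Dz

/-!
# LO3-Num2: a second one-parameter numerical inequality

With `μ = max 1 (κ/2)`: `G(κ) = ∫_1^μ e^{-0.78(x-1)} x^{-3/2} Dbar(κ/x) dx + max 0 (∫_μ^∞ e^{-0.78(x-1)} x^{-3/2} D1(κ/x) dx) ≤ 0.0566`
for all `κ ≥ 1`. (In the second integral `κ/x ≤ 2`; the integrand is negative for `x > κ`.) The true maximum is `0.0510`
(at `κ ≈ 3.0`), a relative slack of 10.9%.

Proof: geometric grid `g j = r ^ j`, `r = 40401/40000`.  For `κ` in `[g i, g (i+1)]` and `x` in `[g j, g (j+1)]` the quotient
`κ / x` is in `[g (i-j-1), g (i-j+1)]`; so the integral over all `x > 1` is at most a convolution of two tables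
(`TP`, `Ut` for the positive, `TN`, `Lt` for the negative part), which is checked by the kernel (the
result is at most `0.0544`).
The tables are verified step by step (`chkA`, `chkD`).  For `κ ≥ g 232 > 10.1` there is a crude bound.
-/

set_option autoImplicit false

open Real MeasureTheory Set

namespace Pool.Agent.H75.LO

namespace N2

/-- lower bounds of the grid -/
def Xl : List ℕ := [
  100000000, 101002500, 102015050, 103037750, 104070703, 105114011, 106167778, 107232109,
  108307110, 109392888, 110489551, 111597208, 112715970, 113845947, 114987252, 116139999,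
  117304302, 118480277, 119668041, 120867713, 122079411, 123303257, 124539372, 125787879,
  127048902, 128322567, 129609000, 130908330, 132220686, 133546198, 134884998, 136237220,
  137602998, 138982468, 140375767, 141783034, 143204408, 144640032, 146090048, 147554600,
  149033834, 150527898, 152036940, 153561110, 155100560, 156655443, 158225913, 159812127,
  161414243, 163032420, 164666820, 166317604, 167984937, 169668985, 171369916, 173087899,
  174823105, 176575706, 178345877, 180133794, 181939635, 183763579, 185605808, 187466506,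
  189345857, 191244049, 193161270, 195097711, 197053565, 199029026, 201024291, 203039559,
  205075030, 207130907, 209207394, 211304698, 213423027, 215562592, 217723606, 219906285,
  222110845, 224337506, 226586489, 228858018, 231152319, 233469620, 235810152, 238174148,
  240561843, 242973475, 245409284, 247869512, 250354403, 252864205, 255399168, 257959544,
  260545588, 263157557, 265795711, 268460313, 271151627, 273869922, 276615467, 279388537,
  282189407, 285018355, 287875664, 290761617, 293676502, 296620608, 299594229, 302597661,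
  305631202, 308695154, 311789822, 314915514, 318072542, 321261219, 324481862, 327734792,
  331020333, 334338811, 337690557, 341075904, 344495189, 347948753, 351436939, 354960094,
  358518568, 362112716, 365742895, 369409467, 373112796, 376853251, 380631204, 384447031,
  388301112, 392193830, 396125573, 400096731, 404107700, 408158879, 412250671, 416383483,
  420557727, 424773818, 429032175, 433333222, 437677387, 442065102, 446496804, 450972934,
  455493937, 460060263, 464672367, 469330707, 474035747, 478787955, 483587804, 488435771,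
  493332339, 498277995, 503273231, 508318545, 513414438, 518561417, 523759995, 529010688,
  534314020, 539670518, 545080714, 550545148, 556064363, 561638908, 567269338, 572956213,
  578700099, 584501567, 590361195, 596279565, 602257267, 608294896, 614393052, 620552342,
  626773379, 633056782, 639403176, 645813192, 652287469, 658826650, 665431387, 672102336,
  678840161, 685645533, 692519129, 699461633, 706473735, 713556134, 720709534, 727934647,
  735232191, 742602893, 750047487, 757566713, 765161319, 772832061, 780579702, 788405013,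
  796308773, 804291768, 812354792, 820498648, 828724146, 837032105, 845423351, 853898720,
  862459054, 871105206, 879838035, 888658411, 897567211, 906565322, 915653639, 924833066,
  934104517, 943468914, 952927189, 962480284, 972129148, 981874742, 991718036, 1001660009,
  1011701650, 1021843959, 1032087944, 1042434625, 1052885032, 1063440204, 1074101192, 1084869056,
  1095744868, 1106729710, 1117824675, 1129030867, 1140349401, 1151781403, 1163328011, 1174990374,
  1186769652, 1198667017, 1210683653, 1222820756, 1235079534, 1247461206, 1259967004, 1272598173,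
  1285355969, 1298241662, 1311256534, 1324401880, 1337679008, 1351089240, 1364633909, 1378314363,
  1392131964, 1406088086, 1420184119, 1434421464, 1448801539, 1463325774, 1477995614, 1492812520,
  1507777965, 1522893439, 1538160445, 1553580503, 1569155147, 1584885927, 1600774408, 1616822171,
  1633030813, 1649401946, 1665937200, 1682638220, 1699506668, 1716544222, 1733752577, 1751133446,
  1768688558, 1786419660, 1804328517, 1822416910, 1840686639, 1859139522, 1877777395, 1896602113,
  1915615549, 1934819594, 1954216160, 1973807177, 1993594593, 2013580378, 2033766521, 2054155030,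
  2074747934, 2095547282, 2116555143, 2137773608, 2159204788, 2180850815, 2202713844, 2224796050,
  2247099630, 2269626803, 2292379811, 2315360918, 2338572411, 2362016599, 2385695815, 2409612415,
  2433768779, 2458167311, 2482810438, 2507700612, 2532840310, 2558232034, 2583878310, 2609781690,
  2635944751, 2662370097, 2689060357, 2716018187, 2743246269, 2770747312, 2798524053, 2826579256,
  2854915713, 2883536243, 2912443693, 2941640941, 2971130891, 3000916478, 3031000665, 3061386446,
  3092076845, 3123074915, 3154383741, 3186006438, 3217946152, 3250206062, 3282789377, 3315699340,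
  3348939225, 3382512340, 3416422026, 3450671656, 3485264639, 3520204417, 3555494466, 3591138298,
  3627139459, 3663501532, 3700228134, 3737322921, 3774789583, 3812631848, 3850853482, 3889458288,
  3928450107, 3967832819, 4007610343, 4047786636, 4088365697, 4129351563]

/-- upper bounds of the grid -/
def Xu : List ℕ := [
  100000000, 101002500, 102015051, 103037752, 104070706, 105114015, 106167784, 107232117,
  108307119, 109392898, 110489562, 111597220, 112715983, 113845961, 114987267, 116140015,
  117304319, 118480295, 119668060, 120867733, 122079433, 123303280, 124539396, 125787904,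
  127048928, 128322594, 129609029, 130908360, 132220717, 133546230, 134885031, 136237254,
  137603033, 138982504, 140375804, 141783072, 143204448, 144640073, 146090090, 147554644,
  149033880, 150527945, 152036988, 153561159, 155100610, 156655494, 158225966, 159812182,
  161414300, 163032479, 164666880, 166317666, 167985001, 169669051, 171369984, 173087969,
  174823176, 176575779, 178345952, 180133871, 181939714, 183763660, 185605891, 187466591,
  189345944, 191244138, 193161361, 195097804, 197053660, 199029123, 201024390, 203039660,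
  205075133, 207131012, 209207501, 211304807, 213423138, 215562705, 217723722, 219906403,
  222110965, 224337628, 226586613, 228858144, 231152447, 233469751, 235810286, 238174285,
  240561983, 242973617, 245409428, 247869658, 250354552, 252864357, 255399323, 257959702,
  260545749, 263157721, 265795878, 268460482, 271151799, 273870096, 276615644, 279388716,
  282189588, 285018539, 287875850, 290761806, 293676694, 296620803, 299594427, 302597862,
  305631406, 308695361, 311790032, 314915728, 318072759, 321261439, 324482085, 327735018,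
  331020562, 334339044, 337690793, 341076144, 344495433, 347949000, 351437189, 354960347,
  358518825, 362112977, 365743160, 369409736, 373113069, 376853528, 380631485, 384447316,
  388301401, 392194123, 396125870, 400097032, 404108005, 408159188, 412250984, 416383801,
  420558049, 424774144, 429032505, 433333556, 437677725, 442065445, 446497152, 450973286,
  455494294, 460060625, 464672733, 469331078, 474036123, 478788336, 483588190, 488436162,
  493332735, 498278396, 503273637, 508318956, 513414854, 518561838, 523760421, 529011120,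
  534314457, 539670960, 545081162, 550545601, 556064821, 561639371, 567269806, 572956686,
  578700577, 584502051, 590361685, 596280061, 602257769, 608295404, 614393566, 620552862,
  626773905, 633057314, 639403714, 645813737, 652288020, 658827208, 665431951, 672102907,
  678840739, 685646118, 692519721, 699462232, 706474341, 713556747, 720710154, 727935274,
  735232826, 742603536, 750048137, 757567370, 765161983, 772832732, 780580381, 788405700,
  796309468, 804292471, 812355504, 820499368, 828724875, 837032842, 845424097, 853899474,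
  862459817, 871105977, 879838815, 888659200, 897568009, 906566129, 915654455, 924833891,
  934105351, 943469758, 952928043, 962481147, 972130021, 981875625, 991718929, 1001660912,
  1011702563, 1021844882, 1032088877, 1042435568, 1052885985, 1063441167, 1074102165, 1084870040,
  1095745863, 1106730716, 1117825692, 1129031895, 1140350440, 1151782454, 1163329074, 1174991448,
  1186770738, 1198668115, 1210684763, 1222821878, 1235080668, 1247462352, 1259968163, 1272599344,
  1285357153, 1298242859, 1311257744, 1324403103, 1337680245, 1351090490, 1364635173, 1378315641,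
  1392133256, 1406089392, 1420185439, 1434422799, 1448802888, 1463327137, 1477996992, 1492813912,
  1507779372, 1522894861, 1538161882, 1553581955, 1569156615, 1584887411, 1600775908, 1616823687,
  1633032345, 1649403495, 1665938766, 1682639803, 1699508268, 1716545839, 1733754212, 1751135098,
  1768690228, 1786421348, 1804330223, 1822418634, 1840688381, 1859141283, 1877779175, 1896603912,
  1915617367, 1934821432, 1954218017, 1973809053, 1993596489, 2013582294, 2033768457, 2054156986,
  2074749910, 2095549278, 2116557160, 2137775646, 2159206847, 2180852896, 2202715947, 2224798175,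
  2247101777, 2269628973, 2292382004, 2315363134, 2338574650, 2362018861, 2385698101, 2409614725,
  2433771113, 2458169669, 2482812820, 2507703019, 2532842742, 2558234491, 2583880792, 2609784197,
  2635947284, 2662372656, 2689062942, 2716020798, 2743248907, 2770749978, 2798526747, 2826581978,
  2854918463, 2883539021, 2912446500, 2941643777, 2971133756, 3000919372, 3031003589, 3061389400,
  3092079829, 3123077930, 3154386787, 3186009515, 3217949261, 3250209203, 3282792551, 3315702547,
  3348942466, 3382515615, 3416425335, 3450674999, 3485268016, 3520207828, 3555497912, 3591141779,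
  3627142976, 3663505085, 3700231724, 3737326548, 3774793247, 3812635550, 3850857222, 3889462066,
  3928453924, 3967836675, 4007614238, 4047790571, 4088369672, 4129355578]

/-- upper bounds of the weights, in reversed order -/
def RU : List ℕ := [
  3, 3, 3, 3, 3, 3, 3, 3, 3, 3, 3, 3, 4, 4, 4, 4, 4, 4, 4, 4, 4, 4, 4, 4, 4, 4, 4, 4, 4, 4, 4, 4,
  4, 4, 4, 4, 4, 4, 5, 5, 5, 5, 5, 5, 5, 5, 5, 5, 5, 5, 5, 5, 5, 5, 6, 7, 8, 9, 10, 11, 13, 15,
  17, 20, 23, 27, 31, 36, 42, 49, 57, 67, 78, 91, 106, 124, 144, 168, 195, 226, 262, 303, 351,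
  406, 469, 540, 621, 714, 820, 940, 1077, 1232, 1408, 1607, 1832, 2085, 2371, 2693, 3055, 3461,
  3917, 4427, 4998, 5636, 6349, 7144, 8030, 9016, 10112, 11328, 12677, 14172, 15827, 17656,
  19677, 21906, 24363, 27069, 30046, 33317, 36908, 40847, 45164, 49890, 55059, 60707, 66873,
  73598, 80927, 88907, 97588, 107023, 117269, 128385, 140436, 153489, 167617, 182894, 199401,
  217223, 236449, 257173, 279495, 303519, 329355, 357119, 386932, 418922, 453222, 489973, 529321,
  571419, 616428, 664516, 715858, 770636, 829041, 891270, 957531, 1028038, 1103014, 1182691,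
  1267310, 1357120, 1452381, 1553360, 1660335, 1773594, 1893433, 2020160, 2154091, 2295553,
  2444884, 2602431, 2768553, 2943618, 3128005, 3322105, 3526318, 3741056, 3966740, 4203805,
  4452694, 4713862, 4987775, 5274910, 5575755, 5890809, 6220580, 6565589, 6926367, 7303455,
  7697405, 8108780, 8538153, 8986106, 9453233, 9940137, 10447431, 10975738, 11525689, 12097926,
  12693100, 13311870, 13954904, 14622880, 15316482, 16036403, 16783344, 17558013, 18361127,
  19193408, 20055585, 20948395, 21872579, 22828886, 23818069, 24840888, 25898106, 26990491,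
  28118817, 29283861, 30486403, 31727227, 33007120, 34326872, 35687275, 37089123, 38533212,
  40020338, 41551300, 43126896, 44747924, 46415184, 48129474, 49891592, 51702334, 53562495,
  55472868, 57434245, 59447414, 61513162, 63632271, 65805520, 68033686, 70317540, 72657849,
  75055375, 77510877, 80025107, 82598811, 85232731, 87927601, 90684151, 93503102, 96385169,
  99331059, 102341474, 105417106, 108558640, 111766753, 115042114, 118385383, 121797212,
  125278243, 128829110, 132450437, 136142839, 139906922, 143743281, 147652502, 151635161,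
  155691824, 159823046, 164029373, 168311340, 172669471, 177104279, 181616268, 186205930,
  190873747, 195620189, 200445716, 205350777, 210335810, 215401241, 220547487, 225774952,
  231084030, 236475104, 241948546, 247504717, 253143966, 258866633, 264673045, 270563520,
  276538365, 282597875, 288742336, 294972022, 301287197, 307688115, 314175019, 320748142,
  327407707, 334153927, 340987004, 347907132, 354914494, 362009264, 369191606, 376461675,
  383819616, 391265566, 398799653, 406421995, 414132702, 421931876, 429819610, 437795989,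
  445861089, 454014980, 462257722, 470589369, 479009967, 487519554, 496118162, 504805815,
  513582532, 522448323, 531403193, 540447140, 549580156, 558802228, 568113336, 577513454,
  587002552, 596580594, 606247539, 616003341, 625847950, 635781310, 645803361, 655914039,
  666113276, 676400999, 686777133, 697241599, 707794314, 718435192, 729164143, 739981076,
  750885896, 761878505, 772958803, 784126689, 795382058, 806724803, 818154817, 829671990,
  841276211, 852967367, 864745345, 876610030, 888561305, 900599055, 912723162, 924933509,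
  937229977, 949612448, 962080804, 974634927, 987274698, 1000000000]

/-- lower bounds of the weights -/
def Lt : List ℕ := [
  1000000000, 987267064, 974619701, 962058030, 949582170, 937192240, 924888359, 912670647,
  900539223, 888494205, 876535711, 864663859, 852878765, 841180545, 829569315, 818045187,
  806608274, 795258687, 783996534, 772821923, 761734959, 750735746, 739824384, 729000972,
  718265606, 707618378, 697059379, 686588697, 676206415, 665912613, 655707369, 645590756,
  635562843, 625623695, 615773373, 606011933, 596339428, 586755904, 577261404, 567855965,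
  558539618, 549312390, 540174302, 531125368, 522165598, 513294994, 504513553, 495821264,
  487218111, 478704071, 470279113, 461943199, 453696284, 445538317, 437469237, 429488976,
  421597458, 413794599, 406080308, 398454483, 390917016, 383467788, 376106673, 368833535,
  361648230, 354550603, 347540491, 340617720, 333782109, 327033464, 320371584, 313796256,
  307307258, 300904357, 294587311, 288355866, 282209759, 276148715, 270172450, 264280668,
  258473063, 252749318, 247109104, 241552083, 236077905, 230686209, 225376624, 220148766,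
  215002241, 209936645, 204951561, 200046562, 195221210, 190475056, 185807639, 181218489,
  176707123, 172273049, 167915762, 163634748, 159429482, 155299429, 151244042, 147262765,
  143355030, 139520261, 135757871, 132067263, 128447831, 124898958, 121420018, 118010376,
  114669389, 111396403, 108190756, 105051778, 101978791, 98971108, 96028034, 93148867, 90332897,
  87579407, 84887673, 82256965, 79686546, 77175672, 74723595, 72329560, 69992807, 67712571,
  65488083, 63318568, 61203249, 59141343, 57132066, 55174629, 53268240, 51412106, 49605431,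
  47847418, 46137267, 44474179, 42857352, 41285985, 39759276, 38276424, 36836629, 35439091,
  34083012, 32767595, 31492045, 30255570, 29057381, 27896691, 26772717, 25684679, 24631802,
  23613315, 22628451, 21676449, 20756554, 19868014, 19010085, 18182029, 17383115, 16612617,
  15869817, 15154005, 14464478, 13800541, 13161507, 12546698, 11955443, 11387082, 10840962,
  10316440, 9812882, 9329664, 8866172, 8421801, 7995957, 7588056, 7197524, 6823797, 6466323,
  6124559, 5797973, 5486044, 5188263, 4904130, 4633157, 4374866, 4128792, 3894479, 3671483,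
  3459370, 3257718, 3066116, 2884162, 2711467, 2547652, 2392349, 2245200, 2105857, 1973984,
  1849254, 1731350, 1619967, 1514808, 1415586, 1322025, 1233857, 1150824, 1072677, 999177,
  930092, 865200, 804288, 747150, 693589, 643416, 596450, 552516, 511448, 473086, 437279, 403881,
  372752, 343761, 316781, 291692, 268379, 246733, 226652, 208037, 190794, 174836, 160079, 146444,
  133856, 122245, 111544, 101691, 92626, 84293, 76641, 69619, 63182, 57287, 51893, 46962, 42459,
  38350, 34605, 31194, 28091, 25271, 22711, 20389, 18286, 16382, 14661, 13106, 11703, 10439,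
  9301, 8278, 7359, 6534, 5795, 5134, 4543, 4015, 3544, 3124, 2751, 2419, 2124, 1863, 1632, 1428,
  1247, 1088, 948, 825, 717, 622, 539, 466, 402, 346, 298, 256, 219, 187, 160, 136, 116, 98, 83,
  70, 59, 49, 41, 34, 28, 23, 19, 15, 12, 10, 8, 6, 4, 3, 2, 1, 0, 0, 0, 0, 0, 0, 0, 0, 0, 0, 0,
  0, 0, 0, 0, 0, 0, 0, 0, 0, 0, 0, 0, 0, 0, 0, 0, 0, 0, 0, 0, 0, 0, 0, 0, 0, 0, 0, 0, 0, 0, 0, 0,
  0, 0, 0, 0, 0, 0, 0, 0, 0, 0, 0, 0, 0, 0]

/-- upper bounds of the exponentials -/
def Et : List ℕ := [
  135335285, 132649010, 129989930, 127358300, 124754369, 122178376, 119630551, 117111117,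
  114620285, 112158259, 109725233, 107321391, 104946908, 102601949, 100286668, 98001211,
  95745712, 93520295, 91325073, 89160151, 87025620, 84921563, 82848051, 80805144, 78792892,
  76811333, 74860495, 72940394, 71051036, 69192414, 67364513, 65567304, 63800749, 62064798,
  60359390, 58684453, 57039904, 55425650, 53841586, 52287597, 50763558, 49269332, 47804772,
  46369721, 44964012, 43587468, 42239902, 40921117, 39630906, 38369054, 37135335, 35929515,
  34751352, 33600593, 32476979, 31380241, 30310104, 29266283, 28248487, 27256417, 26289768,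
  25348228, 24431477, 23539191, 22671040, 21826687, 21005790, 20208003, 19432974, 18680348,
  17949765, 17240862, 16553272, 15886624, 15240546, 14614662, 14008594, 13421963, 12854387,
  12305484, 11774871, 11262163, 10766977, 10288928, 9827631, 9382704, 8953763, 8540427, 8142316,
  7759052, 7390258, 7035560, 6694587, 6366970, 6052343, 5750343, 5460612, 5182795, 4916540,
  4661500, 4417333, 4183700, 3960268, 3746708, 3542697, 3347917, 3162055, 2984804, 2815861,
  2654931, 2501724, 2355955, 2217346, 2085625, 1960527, 1841791, 1729164, 1622399, 1521255,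
  1425498, 1334899, 1249237, 1168296, 1091867, 1019747, 951739, 887653, 827305, 770517, 717116,
  666937, 619819, 575607, 534153, 495314, 458952, 424935, 393137, 363435, 335713, 309860, 285769,
  263337, 242468, 223068, 205049, 188327, 172822, 158457, 145160, 132863, 121500, 111009, 101333,
  92416, 84206, 76654, 69714, 63342, 57497, 52141, 47238, 42754, 38657, 34917, 31507, 28401,
  25575, 23006, 20673, 18557, 16640, 14905, 13336, 11919, 10641, 9489, 8452, 7520, 6683, 5932,
  5259, 4657, 4119, 3639, 3211, 2830, 2491, 2190, 1923, 1686, 1476, 1291, 1128, 984, 857, 746,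
  648, 562, 487, 422, 365, 315, 272, 234, 201, 173, 149, 128, 110, 94, 80, 68, 58, 50, 43, 37,
  32, 27, 23, 20, 17, 15, 13, 11, 10, 9, 8, 7, 6, 5, 5, 5]

/-- lower bounds of the exponentials -/
def Ft : List ℕ := [
  135335282, 138048487, 140788349, 143554588, 146346916, 149165037, 152008648, 154877440,
  157771096, 160689292, 163631699, 166597980, 169587793, 172600791, 175636620, 178694921,
  181775329, 184877476, 188000988, 191145486, 194310588, 197495906, 200701050, 203925626,
  207169235, 210431477, 213711947, 217010237, 220325939, 223658639, 227007924, 230373377,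
  233754579, 237151111, 240562551, 243988476, 247428463, 250882087, 254348923, 257828544,
  261320525, 264824439, 268339860, 271866362, 275403519, 278950906, 282508098, 286074671,
  289650203, 293234272, 296826458, 300426342, 304033506, 307647535, 311268015, 314894535,
  318526685, 322164057, 325806246, 329452850, 333103469, 336757705, 340415164, 344075455,
  347738189, 351402980, 355069446, 358737208, 362405890, 366075120, 369744530, 373413754,
  377082431, 380750203, 384416717, 388081622, 391744573, 395405227, 399063247, 402718299,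
  406370053, 410018183, 413662368, 417302291, 420937639, 424568104, 428193382, 431813173,
  435427183, 439035120, 442636698, 446231635, 449819654, 453400482, 456973851, 460539498,
  464097163, 467646591, 471187533, 474719743, 478242980, 481757007, 485261593, 488756510,
  492241536, 495716452, 499181045, 502635105, 506078427, 509510811, 512932061, 516341985,
  519740397, 523127113, 526501955, 529864749, 533215325, 536553518, 539879166, 543192113,
  546492205, 549779294, 553053235, 556313888, 559561116, 562794786, 566014770, 569220944,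
  572413187, 575591382, 578755416, 581905180, 585040569, 588161481, 591267818, 594359485,
  597436392, 600498451, 603545579, 606577695, 609594723]

/-- upper bounds of the kernel -/
def TP : List ℕ := [
  106385, 209550, 309507, 406271, 499858, 590285, 677570, 761732, 842793, 920776, 995704,
  1067603, 1136499, 1202419, 1265393, 1325452, 1382627, 1436950, 1488457, 1537182, 1583161,
  1626433, 1667037, 1705011, 1740397, 1773238, 1803575, 1831453, 1856916, 1880011, 1900784,
  1919282, 1935553, 1949648, 1961614, 1971503, 1979365, 1985251, 1989215, 1991308, 1992000,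
  1992000, 1991583, 1990094, 1986893, 1982036, 1975576, 1967568, 1958066, 1947124, 1934798,
  1921142, 1906210, 1890057, 1872738, 1854306, 1834815, 1814319, 1792871, 1770524, 1747330,
  1723341, 1698609, 1673183, 1647115, 1620453, 1593246, 1565543, 1537390, 1508834, 1479919,
  1450692, 1421195, 1391470, 1361561, 1331506, 1301346, 1271119, 1240863, 1210614, 1180406,
  1150273, 1120249, 1090365, 1060650, 1031135, 1001846, 972811, 944054, 915601, 887472, 859691,
  840000, 840000, 840000, 840000, 840000, 840000, 840000, 840000, 840000, 840000, 840000, 840000,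
  840000, 840000, 840000, 840000, 840000, 840000, 840000, 840000, 490000, 490000, 490000, 490000,
  490000, 490000, 490000, 490000, 490000, 490000, 490000, 490000, 490000, 490000, 490000, 490000,
  490000, 490000, 490000, 490000, 490000, 490000, 490000, 490000, 490000, 490000, 490000, 490000,
  270000, 270000, 270000, 270000, 270000, 270000, 270000, 270000, 270000, 270000, 270000, 270000,
  270000, 270000, 270000, 270000, 270000, 270000, 270000, 270000, 270000, 270000, 270000, 270000,
  270000, 270000, 270000, 270000, 270000, 270000, 270000, 270000, 270000, 270000, 270000, 270000,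
  270000, 270000, 270000, 270000, 270000, 270000, 270000, 270000, 270000, 270000, 270000, 270000,
  270000, 270000, 270000, 270000, 270000, 270000, 270000, 270000, 270000, 270000, 270000, 270000,
  270000, 270000, 270000, 270000, 270000, 270000, 270000, 270000, 270000, 270000, 270000, 270000,
  270000, 270000, 270000, 270000, 270000, 270000, 270000, 270000, 270000, 270000, 270000, 270000,
  270000, 270000, 270000, 270000, 270000, 270000, 270000, 270000]

/-- lower bounds of the negative part of the kernel -/
def TN : List ℕ := [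
  0, 109615, 222473, 338581, 457946, 580574, 706470, 835638, 968078, 1103791, 1242776, 1385032,
  1530553, 1679337, 1831375, 1986661, 2145186, 2306940, 2471912, 2640089, 2811457, 2986002,
  3163708, 3344557, 3528531, 3715611, 3905776, 4099005, 4295275, 4494562, 4696843, 4902091,
  5110279, 5321382, 5535369, 5752213, 5971883, 6194348, 6419577, 6647536, 6878195, 7111517,
  7347469, 7586016, 7827122, 8070750, 8316863, 8565424, 8816395, 9069737, 9325411, 9583377,
  9843596, 10106026, 10370628, 10637360, 10906181, 11177048, 11449920, 11724754, 12001508,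
  12280139, 12560604, 12842860, 13126864, 13412571, 13699939, 13988923, 14279481, 14571568,
  14865140, 15160154, 15456566, 15754332, 16053408, 16353751, 16655318, 16958064, 17261946,
  17566921, 17872946, 18179978, 18487974, 18796893, 19106690, 19417324, 19728754, 20040938,
  20353833, 20667400, 20981597, 21296384, 21611719, 21927565, 22243880, 22560625, 22877762,
  23195252, 23513057, 23831138, 24149459, 24467981, 24786669, 25105486, 25424396, 25743364,
  26062354, 26381332, 26700263, 27019114, 27337850, 27656440, 27974851, 28293050, 28611005,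
  28928687, 29246063, 29563104, 29879779, 30196059, 30511916, 30827321, 31142246, 31456663,
  31770545, 32083866, 32396599, 32708719, 33020200, 33331018, 33641148, 33950567, 34259251,
  34567178, 34874324, 35180667, 35486187, 35790862, 36094671]

/-- the table of the first integral -/
def TB : List ℕ := [
  0, 0, 0, 0, 0, 0, 0, 0, 0, 0, 0, 0, 0, 0, 0, 0, 0, 0, 0, 0, 0, 0, 0, 0, 0, 0, 0, 0, 0, 0, 0, 0,
  0, 0, 0, 0, 0, 0, 0, 0, 0, 0, 0, 0, 0, 0, 0, 0, 0, 0, 0, 0, 0, 0, 0, 0, 0, 0, 0, 0, 0, 0, 0, 0,
  0, 0, 0, 0, 0, 1508834, 1479919, 1450692, 1421195, 1391470, 1361561, 1331506, 1301346, 1271119,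
  1240863, 1210614, 1180406, 1150273, 1120249, 1090365, 1060650, 1031135, 1001846, 972811,
  944054, 915601, 887472, 859691, 840000, 840000, 840000, 840000, 840000, 840000, 840000, 840000,
  840000, 840000, 840000, 840000, 840000, 840000, 840000, 840000, 840000, 840000, 840000, 840000,
  490000, 490000, 490000, 490000, 490000, 490000, 490000, 490000, 490000, 490000, 490000, 490000,
  490000, 490000, 490000, 490000, 490000, 490000, 490000, 490000, 490000, 490000, 490000, 490000,
  490000, 490000, 490000, 490000, 270000, 270000, 270000, 270000, 270000, 270000, 270000, 270000,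
  270000, 270000, 270000, 270000, 270000, 270000, 270000, 270000, 270000, 270000, 270000, 270000,
  270000, 270000, 270000, 270000, 270000, 270000, 270000, 270000, 270000, 270000, 270000, 270000,
  270000, 270000, 270000, 270000, 270000, 270000, 270000, 270000, 270000, 270000, 270000, 270000,
  270000, 270000, 270000, 270000, 270000, 270000, 270000, 270000, 270000, 270000, 270000, 270000,
  270000, 270000, 270000, 270000, 270000, 270000, 270000, 270000, 270000, 270000, 270000, 270000,
  270000, 270000, 270000, 270000, 270000, 270000, 270000, 270000, 270000, 270000, 270000, 270000,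
  270000, 270000, 270000, 270000, 270000, 270000, 270000, 270000, 270000, 270000, 270000, 270000]

/-- entry of a table -/
noncomputable def gt (l : List ℕ) : ℕ → ℕ :=
  @List.rec ℕ (fun _ => ℕ → ℕ) (fun _ => 0)
    (fun a _ ih j => @Nat.rec (fun _ => ℕ) a (fun n _ => ih n) j) l

/-- drop some entries of a table -/
noncomputable def dr (l : List ℕ) : ℕ → List ℕ :=
  @List.rec ℕ (fun _ => ℕ → List ℕ) (fun _ => [])
    (fun a l ih j => @Nat.rec (fun _ => List ℕ) (a :: l) (fun n _ => ih n) j) l

/-- scalar product -/
noncomputable def conv (l : List ℕ) : List ℕ → ℕ :=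
  @List.rec ℕ (fun _ => List ℕ → ℕ) (fun _ => 0)
    (fun a _ ih k => @List.rec ℕ (fun _ => ℕ) 0 (fun b k _ => a * b + ih k) k) l

/-- a check for all numbers below `n` -/
noncomputable def al (p : ℕ → Bool) (n : ℕ) : Bool :=
  @Nat.rec (fun _ => Bool) true (fun m ih => p m && ih) n

/-- the check of the grid and of the weights -/
noncomputable def cA (j : ℕ) : Bool :=
  Nat.ble (gt Xu j * 40401) (gt Xu (j + 1) * 40000) &&
  Nat.ble (gt Xl (j + 1) * 40000) (gt Xl j * 40401) &&
  Nat.ble (gt RU (373 - j) * 200 * (2 * (200000000000000 * 200000000000000)))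
    (gt RU (372 - j) * (2 * (200000000000000 * 200000000000000)
      + 2 * (15639 * gt Xl j) * 200000000000000 + (15639 * gt Xl j) * (15639 * gt Xl j)) * 201) &&
  Nat.ble (15639 * gt Xu j) 800000000000000 &&
  Nat.ble (gt Lt (j + 1) * (201 * 800000000000000 ^ 4))
    (gt Lt j * 200 * (800000000000000 - 15639 * gt Xu j) ^ 4)

theorem chkA : al cA 373 = true := by decide +kernel

/-- the check of the exponentials (positive part) -/
noncomputable def cE (m : ℕ) : Bool :=
  Nat.ble (gt Et m * (2 * (2000000000000 * 2000000000000)))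
    (gt Et (m + 1) * (2 * (2000000000000 * 2000000000000)
      + 2 * (401 * gt Xl m) * 2000000000000 + (401 * gt Xl m) * (401 * gt Xl m)))

theorem chkE : al cE 231 = true := by decide +kernel

/-- the check of the exponentials (negative part) -/
noncomputable def cF (k : ℕ) : Bool :=
  Nat.ble (gt Ft (k + 1) * (2 * ((40401 * gt Xu k) * (40401 * gt Xu k))))
    (gt Ft k * (2 * ((40401 * gt Xu k) * (40401 * gt Xu k))
      + 2 * 80200000000 * (40401 * gt Xu k) + 80200000000 * 80200000000))

theorem chkF : al cF 140 = true := by decide +kernel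

/-- first part of the table of the kernel -/
noncomputable def cP1 (m : ℕ) : Bool :=
  Nat.ble (8 * (gt Xu (m + 1) - 100000000) * gt Et (m + 1) * 10000000)
    (gt TP m * 100000000 * 1000000000)

theorem chkP1 : al cP1 40 = true := by decide +kernel

theorem chkP2 : (Nat.beq (gt TP 40) 1992000 && Nat.beq (gt TP 41) 1992000) = true := by
  decide +kernel

/-- last part of the table of the kernel, at `m = n + 42` -/
noncomputable def cP3 (n : ℕ) : Bool :=
  Nat.ble (8 * (gt Xu (n + 41) - 100000000) * gt Et (n + 41) * 10000000)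
    (gt TP (n + 42) * 100000000 * 1000000000) &&
  (Nat.ble 840000 (gt TP (n + 42)) ||
    (Nat.ble 300000001 (gt Xl (n + 41)) && Nat.ble 490000 (gt TP (n + 42))) ||
    (Nat.ble 400000001 (gt Xl (n + 41)) && Nat.ble 270000 (gt TP (n + 42))))

theorem chkP3 : al cP3 190 = true := by decide +kernel

/-- table of the kernel, negative part -/
noncomputable def cN (t : ℕ) : Bool :=
  Nat.ble 100000000 (gt Xl t) &&
  Nat.ble (gt TN t * gt Xl t * 1000000000) (8 * (gt Xl t - 100000000) * gt Ft t * 10000000)

theorem chkN : al cN 139 = true := by decide +kernel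

/-- the final check -/
noncomputable def cS (i : ℕ) : Bool :=
  Nat.ble (401 * conv TP (dr RU (373 - i)) * 40401 * 10000)
    (566 * 40000 * 40401 * 1000000000 * 10000000 +
      401 * conv TN (dr Lt (i + 2)) * 40000 * 10000)

theorem chkS : al cS 232 = true := by decide +kernel

/-- the final check for the first integral -/
noncomputable def cB (i : ℕ) : Bool :=
  Nat.ble (401 * conv TB (dr RU (373 - i)) * 10000)
    (566 * 40000 * 1000000000 * 10000000)

theorem chkB : al cB 232 = true := by decide +kernel

/-- `TB` and `TP` -/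
noncomputable def cT (m : ℕ) : Bool :=
  Nat.beq (gt TB m) 0 && Nat.ble m 68 || Nat.beq (gt TB m) (gt TP m)

theorem chkT : al cT 232 = true := by decide +kernel

/-! ### the list functions -/

theorem gt_dr (l : List ℕ) (n j : ℕ) : gt (dr l n) j = gt l (n + j) := by
  induction l generalizing n with
  | nil => rfl
  | cons a l ih =>
    cases n with
    | zero => rw [zero_add]; rfl
    | succ n =>
      have h1 : dr (a :: l) (n + 1) = dr l n := rfl
      have h2 : gt (a :: l) (n + j + 1) = gt l (n + j) := rfl
      rw [h1, ih, ← h2]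
      congr 1
      omega

theorem al_get {p : ℕ → Bool} {n : ℕ} (h : al p n = true) {m : ℕ} (hm : m < n) : p m = true := by
  induction n with
  | zero => omega
  | succ n ih =>
    have h' : (p n && al p n) = true := h
    rw [Bool.and_eq_true] at h'
    rcases Nat.lt_succ_iff_lt_or_eq.1 hm with hlt | rfl
    · exact ih h'.2 hlt
    · exact h'.1

theorem sum_le_conv (l k : List ℕ) (n : ℕ) :
    ∑ m ∈ Finset.range n, gt l m * gt k m ≤ conv l k := by
  induction l generalizing k n with
  | nil =>
    have : ∀ m, gt [] m = 0 := fun _ => rfl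
    simp [this]
  | cons a l ih =>
    cases k with
    | nil =>
      have : ∀ m, gt [] m = 0 := fun _ => rfl
      simp [this]
    | cons b k =>
      have h1 : conv (a :: l) (b :: k) = a * b + conv l k := rfl
      have h2 : ∀ m, gt (a :: l) (m + 1) = gt l m := fun _ => rfl
      have h3 : ∀ m, gt (b :: k) (m + 1) = gt k m := fun _ => rfl
      have h4 : gt (a :: l) 0 = a := rfl
      have h5 : gt (b :: k) 0 = b := rfl
      cases n with
      | zero => simp
      | succ n =>
        rw [Finset.sum_range_succ', h1, h4, h5]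
        simp only [h2, h3]
        have := ih k n
        omega

theorem conv_le_sum (l k : List ℕ) (n : ℕ) (hn : l.length ≤ n) :
    conv l k ≤ ∑ m ∈ Finset.range n, gt l m * gt k m := by
  induction l generalizing k n with
  | nil =>
    have : conv [] k = 0 := rfl
    rw [this]
    exact Nat.zero_le _
  | cons a l ih =>
    cases k with
    | nil =>
      have : conv (a :: l) [] = 0 := rfl
      rw [this]
      exact Nat.zero_le _
    | cons b k =>
      have h1 : conv (a :: l) (b :: k) = a * b + conv l k := rfl
      have h2 : ∀ m, gt (a :: l) (m + 1) = gt l m := fun _ => rfl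
      have h3 : ∀ m, gt (b :: k) (m + 1) = gt k m := fun _ => rfl
      have h4 : gt (a :: l) 0 = a := rfl
      have h5 : gt (b :: k) 0 = b := rfl
      cases n with
      | zero => simp at hn
      | succ n =>
        rw [Finset.sum_range_succ', h1, h4, h5]
        simp only [h2, h3]
        have := ih k n (by simpa using hn)
        omega

/-! ### the grid -/

/-- the grid -/
noncomputable def g (j : ℕ) : ℝ := (40401 / 40000) ^ j

theorem g_zero : g 0 = 1 := by simp [g]

theorem g_succ (j : ℕ) : g (j + 1) = 40401 / 40000 * g j := by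
  unfold g
  rw [pow_succ]
  ring

theorem g_pos (j : ℕ) : 0 < g j := by
  unfold g
  positivity

theorem g_mono {i j : ℕ} (h : i ≤ j) : g i ≤ g j := by
  unfold g
  exact pow_le_pow_right₀ (by norm_num) h

theorem one_le_g (j : ℕ) : 1 ≤ g j := by
  have := g_mono (Nat.zero_le j)
  rwa [g_zero] at this

theorem g_add (i j : ℕ) : g (i + j) = g i * g j := by
  unfold g
  rw [pow_add]

theorem g_lt (j : ℕ) : g j < g (j + 1) := by
  rw [g_succ]
  have := g_pos j
  linarith

/-- weights -/
noncomputable def A (j : ℕ) : ℝ := exp (-(78 / 100 * (g j - 1))) * (200 / 201) ^ j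

theorem A_pos (j : ℕ) : 0 < A j := by
  unfold A
  positivity

theorem A_succ (j : ℕ) : A (j + 1) = A j * exp (-(15639 / 2000000 * g j)) * (200 / 201) := by
  unfold A
  have : exp (-(78 / 100 * (g (j + 1) - 1))) =
      exp (-(78 / 100 * (g j - 1))) * exp (-(15639 / 2000000 * g j)) := by
    rw [← exp_add, g_succ]
    congr 1
    ring
  rw [this, pow_succ]
  ring

theorem tabX (j : ℕ) (hj : j ≤ 373) :
    (gt Xl j : ℝ) ≤ 100000000 * g j ∧ 100000000 * g j ≤ gt Xu j := by
  induction j with
  | zero =>
    have h1 : gt Xl 0 = 100000000 := by decide +kernel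
    have h2 : gt Xu 0 = 100000000 := by decide +kernel
    rw [h1, h2, g_zero]
    norm_num
  | succ j ih =>
    obtain ⟨i1, i2⟩ := ih (by omega)
    have hc := al_get chkA (m := j) (by omega)
    unfold cA at hc
    simp only [Bool.and_eq_true, Nat.ble_eq] at hc
    obtain ⟨⟨⟨⟨c1, c2⟩, -⟩, -⟩, -⟩ := hc
    have c1' : (gt Xu j : ℝ) * 40401 ≤ gt Xu (j + 1) * 40000 := by exact_mod_cast c1
    have c2' : (gt Xl (j + 1) : ℝ) * 40000 ≤ gt Xl j * 40401 := by exact_mod_cast c2
    rw [g_succ]
    constructor <;> linarith

theorem tabU (j : ℕ) (hj : j ≤ 373) : 1000000000 * A j ≤ gt RU (373 - j) := by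
  induction j with
  | zero =>
    have h1 : gt RU (373 - 0) = 1000000000 := by decide +kernel
    rw [h1]
    unfold A
    rw [g_zero]
    norm_num
  | succ j ih =>
    have i1 := ih (by omega)
    have hc := al_get chkA (m := j) (by omega)
    unfold cA at hc
    simp only [Bool.and_eq_true, Nat.ble_eq] at hc
    obtain ⟨⟨⟨⟨-, -⟩, c⟩, -⟩, -⟩ := hc
    have c' : (gt RU (373 - j) : ℝ) * 200 * (2 * (200000000000000 * 200000000000000)) ≤
      (gt RU (372 - j) : ℝ) * (2 * (200000000000000 * 200000000000000)
      + 2 * (15639 * gt Xl j) * 200000000000000 + (15639 * gt Xl j) * (15639 * gt Xl j)) * 201 := by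
      exact_mod_cast c
    have hX := (tabX j (by omega)).1
    have hj' : 373 - (j + 1) = 372 - j := by omega
    rw [hj', A_succ]
    set y : ℝ := 15639 / 2000000 * g j with hy
    have hy0 : 0 ≤ y := by
      have := g_pos j
      positivity
    set p : ℝ := 15639 * gt Xl j / 200000000000000 with hp
    have hp0 : 0 ≤ p := by positivity
    have hpy : p ≤ y := by
      rw [hp, hy, div_le_iff₀ (by norm_num)]
      linarith
    have he : 1 + p + p ^ 2 / 2 ≤ exp y := by
      have h1 := Real.quadratic_le_exp_of_nonneg hy0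
      have h2 : p ^ 2 ≤ y ^ 2 := pow_le_pow_left₀ hp0 hpy 2
      linarith
    have c2 : (gt RU (373 - j) : ℝ) * 200 ≤ gt RU (372 - j) * 201 * (1 + p + p ^ 2 / 2) := by
      have hpe : (15639 : ℝ) * gt Xl j = p * 200000000000000 := by
        rw [hp]
        ring
      rw [hpe] at c'
      nlinarith
    have c3 : (gt RU (373 - j) : ℝ) * 200 ≤ gt RU (372 - j) * 201 * exp y :=
      c2.trans (mul_le_mul_of_nonneg_left he (by positivity))
    have c4 : (gt RU (373 - j) : ℝ) * 200 * exp (-y) ≤ gt RU (372 - j) * 201 := by
      have := mul_le_mul_of_nonneg_right c3 (exp_pos (-y)).le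
      rw [mul_assoc (_ * _) (exp y), ← exp_add] at this
      simpa using this
    have c5 : 1000000000 * A j * 200 * exp (-y) ≤ gt RU (373 - j) * 200 * exp (-y) := by
      have := (exp_pos (-y)).le
      gcongr
    linarith

theorem tabL (j : ℕ) (hj : j ≤ 373) : (gt Lt j : ℝ) ≤ 1000000000 * A j := by
  induction j with
  | zero =>
    have h1 : gt Lt 0 = 1000000000 := by decide +kernel
    rw [h1]
    unfold A
    rw [g_zero]
    norm_num
  | succ j ih =>
    have i1 := ih (by omega)
    have hc := al_get chkA (m := j) (by omega)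
    unfold cA at hc
    simp only [Bool.and_eq_true, Nat.ble_eq] at hc
    obtain ⟨⟨⟨⟨-, -⟩, -⟩, c0⟩, c⟩ := hc
    have c0' : (15639 : ℝ) * gt Xu j ≤ 800000000000000 := by exact_mod_cast c0
    have c' : (gt Lt (j + 1) : ℝ) * (201 * 800000000000000 ^ 4) ≤
      (gt Lt j : ℝ) * 200 * (800000000000000 - 15639 * gt Xu j) ^ 4 := by
      have := (Nat.cast_le (α := ℝ)).2 c
      push_cast [Nat.cast_sub c0] at this
      linarith
    have hX := (tabX j (by omega)).2
    rw [A_succ]
    set y : ℝ := 15639 / 2000000 * g j with hy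
    have hy0 : 0 ≤ y := by
      have := g_pos j
      positivity
    set p : ℝ := 15639 * gt Xu j / 200000000000000 with hp
    have hpy : y ≤ p := by
      rw [hp, hy, le_div_iff₀ (by norm_num)]
      linarith
    have hp4 : 0 ≤ 1 - p / 4 := by
      rw [hp]
      linarith
    have he : (1 - p / 4) ^ 4 ≤ exp (-y) := by
      have h1 : 1 - p / 4 ≤ exp (-(y / 4)) := by
        have := Real.one_sub_le_exp_neg (y / 4)
        linarith
      have h2 := pow_le_pow_left₀ hp4 h1 4
      have h3 : exp (-(y / 4)) ^ 4 = exp (-y) := by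
        rw [← exp_nat_mul]
        congr 1
        push_cast
        ring
      rwa [h3] at h2
    have c2 : (gt Lt (j + 1) : ℝ) * 201 ≤ gt Lt j * 200 * (1 - p / 4) ^ 4 := by
      have hpe : (800000000000000 : ℝ) - 15639 * gt Xu j = (1 - p / 4) * 800000000000000 := by
        rw [hp]
        ring
      rw [hpe, mul_pow] at c'
      have h8 : (0 : ℝ) < 800000000000000 ^ 4 := by positivity
      nlinarith
    have c3 : (gt Lt j : ℝ) * 200 * (1 - p / 4) ^ 4 ≤ 1000000000 * A j * 200 * exp (-y) := by
      have h1 : 0 ≤ (1 - p / 4) ^ 4 := by positivity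
      have h2 := (A_pos j).le
      gcongr
    linarith

theorem tabE (m : ℕ) (hm : m ≤ 231) : 1000000000 * exp (-(2 * g m)) ≤ gt Et m := by
  induction m with
  | zero =>
    have h1 : gt Et 0 = 135335285 := by decide +kernel
    rw [h1, g_zero]
    have he : exp (-(2 * 1)) = (exp 1 ^ 2)⁻¹ := by
      rw [← exp_nat_mul, ← exp_neg]
      norm_num
    rw [he]
    have h2 := Real.exp_one_gt_d9
    have h3 : (2.7182818283 : ℝ) ^ 2 ≤ exp 1 ^ 2 := pow_le_pow_left₀ (by norm_num) h2.le 2
    have h4 : (exp 1 ^ 2)⁻¹ ≤ ((2.7182818283 : ℝ) ^ 2)⁻¹ :=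
      inv_anti₀ (by norm_num) h3
    refine (mul_le_mul_of_nonneg_left h4 (by norm_num)).trans ?_
    norm_num
  | succ m ih =>
    have i1 := ih (by omega)
    have hc := al_get chkE (m := m) (by omega)
    unfold cE at hc
    simp only [Nat.ble_eq] at hc
    have c' : (gt Et m : ℝ) * (2 * (2000000000000 * 2000000000000)) ≤
      (gt Et (m + 1) : ℝ) * (2 * (2000000000000 * 2000000000000)
      + 2 * (401 * gt Xl m) * 2000000000000 + (401 * gt Xl m) * (401 * gt Xl m)) := by
      exact_mod_cast hc
    have hX := (tabX m (by omega)).1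
    set y : ℝ := 401 / 20000 * g m with hy
    have hy0 : 0 ≤ y := by
      have := g_pos m
      positivity
    set p : ℝ := 401 * gt Xl m / 2000000000000 with hp
    have hp0 : 0 ≤ p := by positivity
    have hpy : p ≤ y := by
      rw [hp, hy, div_le_iff₀ (by norm_num)]
      linarith
    have hs : exp (-(2 * g (m + 1))) = exp (-(2 * g m)) * exp (-y) := by
      rw [← exp_add, g_succ, hy]
      congr 1
      ring
    rw [hs]
    have he : 1 + p + p ^ 2 / 2 ≤ exp y := by
      have h1 := Real.quadratic_le_exp_of_nonneg hy0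
      have h2 : p ^ 2 ≤ y ^ 2 := pow_le_pow_left₀ hp0 hpy 2
      linarith
    have c2 : (gt Et m : ℝ) ≤ gt Et (m + 1) * (1 + p + p ^ 2 / 2) := by
      have hpe : (401 : ℝ) * gt Xl m = p * 2000000000000 := by
        rw [hp]
        ring
      rw [hpe] at c'
      nlinarith
    have c3 : (gt Et m : ℝ) ≤ gt Et (m + 1) * exp y :=
      c2.trans (mul_le_mul_of_nonneg_left he (by positivity))
    have c4 : (gt Et m : ℝ) * exp (-y) ≤ gt Et (m + 1) := by
      have := mul_le_mul_of_nonneg_right c3 (exp_pos (-y)).le
      rw [mul_assoc _ (exp y), ← exp_add] at this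
      simpa using this
    have c5 : 1000000000 * exp (-(2 * g m)) * exp (-y) ≤ gt Et m * exp (-y) := by
      have := (exp_pos (-y)).le
      gcongr
    linarith

theorem tabF (k : ℕ) (hk : k ≤ 140) : (gt Ft k : ℝ) ≤ 1000000000 * exp (-(2 / g k)) := by
  induction k with
  | zero =>
    have h1 : gt Ft 0 = 135335282 := by decide +kernel
    rw [h1, g_zero]
    have he : exp (-(2 / 1)) = (exp 1 ^ 2)⁻¹ := by
      rw [← exp_nat_mul, ← exp_neg]
      norm_num
    rw [he]
    have h2 := Real.exp_one_lt_d9
    have h3 : exp 1 ^ 2 ≤ (2.7182818286 : ℝ) ^ 2 := pow_le_pow_left₀ (exp_pos 1).le h2.le 2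
    have h4 : ((2.7182818286 : ℝ) ^ 2)⁻¹ ≤ (exp 1 ^ 2)⁻¹ :=
      inv_anti₀ (by positivity) h3
    refine le_trans ?_ (mul_le_mul_of_nonneg_left h4 (by norm_num))
    norm_num
  | succ k ih =>
    have i1 := ih (by omega)
    have hc := al_get chkF (m := k) (by omega)
    unfold cF at hc
    simp only [Nat.ble_eq] at hc
    have c' : (gt Ft (k + 1) : ℝ) * (2 * ((40401 * gt Xu k) * (40401 * gt Xu k))) ≤
      (gt Ft k : ℝ) * (2 * ((40401 * gt Xu k) * (40401 * gt Xu k))
      + 2 * 80200000000 * (40401 * gt Xu k) + 80200000000 * 80200000000) := by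
      exact_mod_cast hc
    have hX := (tabX k (by omega)).2
    have hg := g_pos k
    have hXp : (0 : ℝ) < gt Xu k := by linarith
    set y : ℝ := 802 / (40401 * g k) with hy
    have hy0 : 0 ≤ y := by positivity
    set q : ℝ := 40401 * gt Xu k with hq
    have hqp : 0 < q := by positivity
    set p : ℝ := 80200000000 / q with hp
    have hp0 : 0 ≤ p := by positivity
    have hpy : p ≤ y := by
      rw [hp, hy, hq, div_le_div_iff₀ (by positivity) (by positivity)]
      nlinarith
    have hs : exp (-(2 / g (k + 1))) = exp (-(2 / g k)) * exp y := by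
      rw [← exp_add, g_succ, hy]
      congr 1
      field_simp
      ring
    rw [hs]
    have he : 1 + p + p ^ 2 / 2 ≤ exp y := by
      have h1 := Real.quadratic_le_exp_of_nonneg hy0
      have h2 : p ^ 2 ≤ y ^ 2 := pow_le_pow_left₀ hp0 hpy 2
      linarith
    have c2 : (gt Ft (k + 1) : ℝ) ≤ gt Ft k * (1 + p + p ^ 2 / 2) := by
      have hpe : (80200000000 : ℝ) = p * q := by
        rw [hp]
        field_simp
      rw [hpe] at c'
      have h2 : (gt Ft (k + 1) : ℝ) * (2 * (q * q)) ≤
          (gt Ft k * (1 + p + p ^ 2 / 2)) * (2 * (q * q)) := by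
        linarith
      exact le_of_mul_le_mul_right h2 (by positivity)
    have c3 : (gt Ft k : ℝ) * (1 + p + p ^ 2 / 2) ≤
        1000000000 * exp (-(2 / g k)) * exp y := by
      have h1 : 0 ≤ 1 + p + p ^ 2 / 2 := by positivity
      gcongr
    linarith

/-! ### the kernel -/

theorem D1_mono {a b : ℝ} (hab : a ≤ b) (hb : b ≤ 3 / 2) : D1 a ≤ D1 b := by
  have h : exp (-(2 * b)) = exp (-(2 * (b - a))) * exp (-(2 * a)) := by
    rw [← exp_add]
    congr 1
    ring
  unfold D1
  rw [h]
  have h1 : a - 1 ≤ (b - 1) * exp (-(2 * (b - a))) := by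
    by_cases hb1 : 0 ≤ b - 1
    · have h2 := Real.one_sub_le_exp_neg (2 * (b - a))
      have h3 := mul_le_mul_of_nonneg_left h2 hb1
      nlinarith
    · have h2 : exp (-(2 * (b - a))) ≤ 1 := by
        rw [← exp_zero]
        apply exp_le_exp.2
        linarith
      nlinarith
  have h2 := mul_le_mul_of_nonneg_right h1 (exp_pos (-(2 * a))).le
  linarith

theorem D1_anti {a b : ℝ} (hab : a ≤ b) (ha : 3 / 2 ≤ a) : D1 b ≤ D1 a := by
  have h : exp (-(2 * a)) = exp (2 * (b - a)) * exp (-(2 * b)) := by
    rw [← exp_add]
    congr 1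
    ring
  unfold D1
  rw [h]
  have h1 : b - 1 ≤ (a - 1) * exp (2 * (b - a)) := by
    have h2 := Real.add_one_le_exp (2 * (b - a))
    have h3 := mul_le_mul_of_nonneg_left h2 (by linarith : 0 ≤ a - 1)
    nlinarith
  have h2 := mul_le_mul_of_nonneg_right h1 (exp_pos (-(2 * b))).le
  linarith

theorem D1_le (a : ℝ) : D1 a ≤ 1992 / 10000 := by
  have h1 : 2 * a - 3 + 1 ≤ exp (2 * a - 3) := Real.add_one_le_exp _
  have h2 : exp (2 * a - 3) * exp (-(2 * a)) = (exp 1 ^ 3)⁻¹ := by
    rw [← exp_add, ← exp_nat_mul, ← exp_neg]
    congr 1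
    push_cast
    ring
  have h3 := mul_le_mul_of_nonneg_right h1 (exp_pos (-(2 * a))).le
  rw [h2] at h3
  have h4 := Real.exp_one_gt_d9
  have h5 : (2.7182818283 : ℝ) ^ 3 ≤ exp 1 ^ 3 := pow_le_pow_left₀ (by norm_num) h4.le 3
  have h6 : (exp 1 ^ 3)⁻¹ ≤ ((2.7182818283 : ℝ) ^ 3)⁻¹ := inv_anti₀ (by norm_num) h5
  have h7 : ((2.7182818283 : ℝ) ^ 3)⁻¹ ≤ 498 / 10000 := by norm_num
  unfold D1
  nlinarith

theorem Dbar_eq {a : ℝ} (ha : a ≤ 5 / 2) : Dbar a = D1 a := by
  unfold Dbar
  rw [if_pos ha]

theorem Dbar_env {a z c : ℝ} (ha : 3 / 2 ≤ a) (haz : a ≤ z) (h1 : D1 a ≤ c)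
    (h2 : 84 / 1000 ≤ c ∨ (3 < a ∧ 49 / 1000 ≤ c) ∨ (4 < a ∧ 27 / 1000 ≤ c)) : Dbar z ≤ c := by
  unfold Dbar
  split_ifs with k1 k2 k3
  · exact (D1_anti haz ha).trans h1
  · rcases h2 with h2 | ⟨h2, h3⟩ | ⟨h2, h3⟩
    · exact h2
    · linarith
    · linarith
  · rcases h2 with h2 | ⟨h2, h3⟩ | ⟨h2, h3⟩
    · linarith
    · exact h3
    · linarith
  · rcases h2 with h2 | ⟨h2, h3⟩ | ⟨h2, h3⟩ <;> linarith

theorem Dbar_le (a : ℝ) : Dbar a ≤ 1992 / 10000 := by
  unfold Dbar
  split_ifs
  · exact D1_le a
  · norm_num
  · norm_num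
  · norm_num

theorem Dbar_nonneg {a : ℝ} (ha : 1 ≤ a) : 0 ≤ Dbar a := by
  unfold Dbar
  split_ifs
  · unfold D1
    have : 0 ≤ a - 1 := by linarith
    positivity
  · norm_num
  · norm_num
  · norm_num

/-- upper bounds of the kernel -/
noncomputable def tp (m : ℕ) : ℝ := gt TP m / 10000000

/-- negative part -/
noncomputable def tn (m : ℕ) : ℝ := gt TN m / 10000000

theorem tp_nonneg (m : ℕ) : 0 ≤ tp m := by
  unfold tp
  exact div_nonneg (Nat.cast_nonneg _) (by norm_num)

theorem tn_nonneg (m : ℕ) : 0 ≤ tn m := by
  unfold tn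
  exact div_nonneg (Nat.cast_nonneg _) (by norm_num)

theorem D1_g_le {m : ℕ} (hm : m ≤ 231) {t : ℕ}
    (hc : 8 * (gt Xu m - 100000000) * gt Et m * 10000000 ≤ t * 100000000 * 1000000000) :
    D1 (g m) ≤ t / 10000000 := by
  have hX := (tabX m (by omega)).2
  have hE := tabE m hm
  have h1 := one_le_g m
  have hXn : 100000000 ≤ gt Xu m := by
    have : (100000000 : ℝ) ≤ gt Xu m := by linarith
    exact_mod_cast this
  have hc' : (8 : ℝ) * (gt Xu m - 100000000) * gt Et m * 10000000 ≤
      t * 100000000 * 1000000000 := by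
    have := (Nat.cast_le (α := ℝ)).2 hc
    push_cast [Nat.cast_sub hXn] at this
    exact this
  unfold D1
  rw [le_div_iff₀ (by norm_num)]
  have h2 : (100000000 * (g m - 1)) * (1000000000 * exp (-(2 * g m))) ≤
      (gt Xu m - 100000000) * gt Et m := by
    apply mul_le_mul (by linarith) hE (by positivity)
    linarith
  nlinarith

theorem tp_bound {m : ℕ} (hm : m < 232) {z : ℝ} (hlo : 1 ≤ m → g (m - 1) ≤ z)
    (hhi : z ≤ g (m + 1)) : Dbar z ≤ tp m := by
  by_cases h39 : m < 40
  · have hg : g 40 ≤ 3 / 2 := by
      have := (tabX 40 (by norm_num)).2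
      have h1 : gt Xu 40 ≤ 150000000 := by decide +kernel
      have h2 : (gt Xu 40 : ℝ) ≤ 150000000 := by exact_mod_cast h1
      linarith
    have hg' : g (m + 1) ≤ 3 / 2 := (g_mono (by omega)).trans hg
    rw [Dbar_eq (by linarith)]
    refine (D1_mono hhi hg').trans ?_
    have hc := al_get chkP1 h39
    unfold cP1 at hc
    rw [Nat.ble_eq] at hc
    exact D1_g_le (by omega) hc
  by_cases h41 : m < 42
  · have hg : g 42 ≤ 5 / 2 := by
      have := (tabX 42 (by norm_num)).2
      have h1 : gt Xu 42 ≤ 250000000 := by decide +kernel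
      have h2 : (gt Xu 42 : ℝ) ≤ 250000000 := by exact_mod_cast h1
      linarith
    have hg' : g (m + 1) ≤ 5 / 2 := (g_mono (by omega)).trans hg
    rw [Dbar_eq (by linarith)]
    refine (D1_le z).trans ?_
    have hc := chkP2
    rw [Bool.and_eq_true, Nat.beq_eq, Nat.beq_eq] at hc
    obtain rfl | rfl : m = 40 ∨ m = 41 := by omega
    · unfold tp
      rw [hc.1]
      norm_num
    · unfold tp
      rw [hc.2]
      norm_num
  · obtain ⟨n, rfl⟩ : ∃ n, m = n + 42 := ⟨m - 42, by omega⟩
    have hz : g (n + 41) ≤ z := by
      have := hlo (by omega)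
      simpa using this
    have hg : 3 / 2 ≤ g (n + 41) := by
      have := (tabX 41 (by norm_num)).1
      have h1 : 150000000 ≤ gt Xl 41 := by decide +kernel
      have h2 : (150000000 : ℝ) ≤ gt Xl 41 := by exact_mod_cast h1
      have h3 : g 41 ≤ g (n + 41) := g_mono (by omega)
      linarith
    have hc := al_get chkP3 (m := n) (by omega)
    unfold cP3 at hc
    simp only [Bool.and_eq_true, Bool.or_eq_true, Nat.ble_eq] at hc
    obtain ⟨c1, c2⟩ := hc
    have hX := (tabX (n + 41) (by omega)).1
    refine Dbar_env hg hz (D1_g_le (by omega) c1) ?_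
    rcases c2 with (c2 | ⟨c2, c3⟩) | ⟨c2, c3⟩
    · left
      have : (840000 : ℝ) ≤ gt TP (n + 42) := by exact_mod_cast c2
      unfold tp
      rw [le_div_iff₀ (by norm_num)]
      linarith
    · right
      left
      have h1 : (300000001 : ℝ) ≤ gt Xl (n + 41) := by exact_mod_cast c2
      have h2 : (490000 : ℝ) ≤ gt TP (n + 42) := by exact_mod_cast c3
      refine ⟨by linarith, ?_⟩
      unfold tp
      rw [le_div_iff₀ (by norm_num)]
      linarith
    · right
      right
      have h1 : (400000001 : ℝ) ≤ gt Xl (n + 41) := by exact_mod_cast c2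
      have h2 : (270000 : ℝ) ≤ gt TP (n + 42) := by exact_mod_cast c3
      refine ⟨by linarith, ?_⟩
      unfold tp
      rw [le_div_iff₀ (by norm_num)]
      linarith

theorem tn_bound {t : ℕ} (ht : t < 139) {z : ℝ} (hz : z ≤ 1 / g t) : Dbar z ≤ -tn t := by
  have h1 := one_le_g t
  have hgp := g_pos t
  have h2 : 1 / g t ≤ 1 := by
    rw [div_le_one hgp]
    exact h1
  rw [Dbar_eq (by linarith)]
  refine (D1_mono hz (by linarith)).trans ?_
  have hc := al_get chkN ht
  unfold cN at hc
  simp only [Bool.and_eq_true, Nat.ble_eq] at hc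
  obtain ⟨c1, c2⟩ := hc
  have hX := (tabX t (by omega)).1
  have hF := tabF t (by omega)
  have c1' : (100000000 : ℝ) ≤ gt Xl t := by exact_mod_cast c1
  have c2' : (gt TN t : ℝ) * gt Xl t * 1000000000 ≤
      8 * (gt Xl t - 100000000) * gt Ft t * 10000000 := by
    have := (Nat.cast_le (α := ℝ)).2 c2
    push_cast [Nat.cast_sub c1] at this
    exact this
  set x : ℝ := (gt Xl t : ℝ) with hx
  have hxp : 0 < x := by linarith
  have hF0 : (0 : ℝ) ≤ gt Ft t := Nat.cast_nonneg _
  -- `(x - 1e8) / x ≤ 1 - 1 / g`
  have h3 : (x - 100000000) / x ≤ 1 - 1 / g t := by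
    rw [sub_div, div_self hxp.ne']
    have : 1 / g t ≤ 100000000 / x := by
      rw [div_le_div_iff₀ hgp hxp]
      linarith
    linarith
  have h4 : 0 ≤ (x - 100000000) / x := div_nonneg (by linarith) hxp.le
  have h5 : (gt TN t : ℝ) * 1000000000 ≤
      8 * ((x - 100000000) / x) * gt Ft t * 10000000 := by
    have : 8 * ((x - 100000000) / x) * (gt Ft t : ℝ) * 10000000 =
        8 * (x - 100000000) * gt Ft t * 10000000 / x := by
      field_simp
    rw [this, le_div_iff₀ hxp]
    linarith
  have h6 : ((x - 100000000) / x) * gt Ft t ≤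
      (1 - 1 / g t) * (1000000000 * exp (-(2 / g t))) :=
    mul_le_mul h3 hF hF0 (by linarith)
  have h7 : exp (-(2 * (1 / g t))) = exp (-(2 / g t)) := by
    congr 1
    ring
  unfold D1 tn
  rw [h7]
  have h8 : (gt TN t : ℝ) / 10000000 ≤ 8 * (1 - 1 / g t) * exp (-(2 / g t)) := by
    rw [div_le_iff₀ (by norm_num)]
    nlinarith
  linarith

/-! ### the weight -/

/-- the weight function -/
noncomputable def wt (x : ℝ) : ℝ := exp (-(78 / 100 * (x - 1))) * x ^ (-(3 / 2) : ℝ)

theorem wt_nonneg {x : ℝ} (hx : 0 ≤ x) : 0 ≤ wt x := by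
  unfold wt
  positivity

theorem wt_anti {x y : ℝ} (hx : 0 < x) (hxy : x ≤ y) : wt y ≤ wt x := by
  unfold wt
  have h1 : exp (-(78 / 100 * (y - 1))) ≤ exp (-(78 / 100 * (x - 1))) := by
    apply exp_le_exp.2
    linarith
  have h2 : y ^ (-(3 / 2) : ℝ) ≤ x ^ (-(3 / 2) : ℝ) :=
    rpow_le_rpow_of_nonpos hx hxy (by norm_num)
  have h3 : 0 ≤ y ^ (-(3 / 2) : ℝ) := by
    have : 0 < y := by linarith
    positivity
  exact mul_le_mul h1 h2 h3 (exp_pos _).le

theorem wt_le {x : ℝ} (hx : 1 ≤ x) : wt x ≤ exp (-(78 / 100 * (x - 1))) := by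
  unfold wt
  have h2 : x ^ (-(3 / 2) : ℝ) ≤ 1 := rpow_le_one_of_one_le_of_nonpos hx (by norm_num)
  have := mul_le_mul_of_nonneg_left h2 (exp_pos (-(78 / 100 * (x - 1)))).le
  linarith

theorem wt_g (j : ℕ) : wt (g j) * (g (j + 1) - g j) = 401 / 40000 * A j := by
  have hy : (0 : ℝ) < (201 / 200) ^ j := by positivity
  have h1 : g j = ((201 / 200 : ℝ) ^ j) ^ 2 := by
    unfold g
    rw [← pow_mul, mul_comm, pow_mul]
    norm_num
  have h2 : (200 / 201 : ℝ) ^ j = ((201 / 200 : ℝ) ^ j)⁻¹ := by
    rw [← inv_pow]
    norm_num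
  have h3 : g j ^ (-(3 / 2) : ℝ) = (((201 / 200 : ℝ) ^ j) ^ 3)⁻¹ := by
    rw [h1, ← rpow_natCast ((201 / 200 : ℝ) ^ j) 2, ← rpow_mul hy.le,
      ← rpow_natCast ((201 / 200 : ℝ) ^ j) 3, ← rpow_neg hy.le]
    congr 1
    norm_num
  unfold wt A
  rw [h2, h3, g_succ]
  set y : ℝ := (201 / 200 : ℝ) ^ j with hyd
  rw [h1]
  field_simp
  ring

theorem wt_g' (j : ℕ) : wt (g (j + 1)) * (g (j + 1) - g j) = 401 / 40401 * A (j + 1) := by
  have h := wt_g (j + 1)
  rw [g_succ (j + 1)] at h
  have h2 := g_succ j
  have : g j = 40000 / 40401 * g (j + 1) := by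
    rw [h2]
    ring
  rw [this]
  linarith

/-! ### integrals -/

theorem int_cells {f : ℝ → ℝ} (hf : IntegrableOn f (Ioi 1)) (a : ℕ → ℝ) (n : ℕ)
    (ha : ∀ j < n, ∀ x ∈ Ioc (g j) (g (j + 1)), f x ≤ a j) (ht : ∀ x ∈ Ioi (g n), f x ≤ 0) :
    ∫ x in Ioi 1, f x ≤ ∑ j ∈ Finset.range n, a j * (g (j + 1) - g j) := by
  have key : ∀ m ≤ n, ∫ x in Ioi 1, f x ≤
      ∑ j ∈ Finset.range m, a j * (g (j + 1) - g j) + ∫ x in Ioi (g m), f x := by
    intro m hm
    induction m with
    | zero => simp [g_zero]
    | succ m ih =>
      refine (ih (by omega)).trans ?_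
      rw [Finset.sum_range_succ]
      have hle : g m ≤ g (m + 1) := (g_lt m).le
      have h1 : Ioc (g m) (g (m + 1)) ∪ Ioi (g (m + 1)) = Ioi (g m) :=
        Ioc_union_Ioi_eq_Ioi hle
      have hi1 : IntegrableOn f (Ioc (g m) (g (m + 1))) := by
        apply hf.mono_set
        intro x hx
        exact lt_of_le_of_lt (one_le_g m) hx.1
      have hi2 : IntegrableOn f (Ioi (g (m + 1))) := by
        apply hf.mono_set
        intro x hx
        exact lt_of_le_of_lt (one_le_g (m + 1)) hx
      rw [← h1, setIntegral_union (Ioc_disjoint_Ioi le_rfl) measurableSet_Ioi hi1 hi2]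
      have h2 : ∫ x in Ioc (g m) (g (m + 1)), f x ≤ a m * (g (m + 1) - g m) := by
        have h3 : ∫ x in Ioc (g m) (g (m + 1)), f x ≤ ∫ _ in Ioc (g m) (g (m + 1)), a m := by
          apply setIntegral_mono_on hi1 _ measurableSet_Ioc (ha m (by omega))
          exact integrableOn_const (by simp)
        refine h3.trans (le_of_eq ?_)
        rw [setIntegral_const, measureReal_def, Real.volume_Ioc,
          ENNReal.toReal_ofReal (by linarith), smul_eq_mul, mul_comm]
      linarith
  refine (key n le_rfl).trans ?_
  have : ∫ x in Ioi (g n), f x ≤ 0 := setIntegral_nonpos measurableSet_Ioi ht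
  linarith

theorem exp_integrable (c : ℝ) :
    IntegrableOn (fun x : ℝ => exp (-(78 / 100 * (x - 1)))) (Ioi c) := by
  have h := (integrableOn_exp_mul_Ioi (a := -(78 / 100)) (by norm_num) c).const_mul
    (exp (78 / 100))
  refine h.congr ?_
  filter_upwards with x
  rw [← exp_add]
  congr 1
  ring

theorem exp_integral (c : ℝ) :
    ∫ x in Ioi c, exp (-(78 / 100 * (x - 1))) = 100 / 78 * exp (-(78 / 100 * (c - 1))) := by
  have h := integral_exp_mul_Ioi (a := -(78 / 100)) (by norm_num) c
  have h2 : ∀ x : ℝ, exp (-(78 / 100 * (x - 1))) = exp (78 / 100) * exp (-(78 / 100) * x) := by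
    intro x
    rw [← exp_add]
    congr 1
    ring
  simp only [h2]
  rw [integral_const_mul, h]
  ring

theorem measurable_Dbar : Measurable Dbar := by
  unfold Dbar
  refine Measurable.ite measurableSet_Iic ?_ (Measurable.ite measurableSet_Iic measurable_const
    (Measurable.ite measurableSet_Iic measurable_const measurable_const))
  unfold D1
  fun_prop

theorem measurable_wt : Measurable wt := by
  unfold wt
  fun_prop

theorem abs_Dbar_le {z : ℝ} (hz : 0 ≤ z) : |Dbar z| ≤ 8 := by
  rw [abs_le]
  constructor
  · by_cases h : 1 ≤ z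
    · have := Dbar_nonneg h
      linarith
    · rw [Dbar_eq (by linarith)]
      unfold D1
      have h1 : exp (-(2 * z)) ≤ 1 := by
        rw [← exp_zero]
        apply exp_le_exp.2
        linarith
      have h2 := exp_pos (-(2 * z))
      nlinarith
  · have := Dbar_le z
    linarith

theorem f_integrable {κ : ℝ} (hκ : 1 ≤ κ) :
    IntegrableOn (fun x => wt x * Dbar (κ / x)) (Ioi 1) := by
  refine Integrable.mono' ((exp_integrable 1).const_mul 8) ?_ ?_
  · apply Measurable.aestronglyMeasurable
    exact measurable_wt.mul (measurable_Dbar.comp (measurable_const.div measurable_id))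
  · refine (ae_restrict_iff' measurableSet_Ioi).2 (Filter.Eventually.of_forall fun x hx => ?_)
    have hx' : (1 : ℝ) < x := hx
    have h1 := wt_le hx'.le
    have h2 := wt_nonneg (by linarith : (0 : ℝ) ≤ x)
    have h3 := abs_Dbar_le (z := κ / x) (div_nonneg (by linarith) (by linarith))
    rw [Real.norm_eq_abs, abs_mul, abs_of_nonneg h2, mul_comm 8]
    exact mul_le_mul h1 h3 (abs_nonneg _) (exp_pos _).le

/-! ### the estimate in one cell -/

theorem ratio_le {κ x : ℝ} {i j : ℕ} (hκ : κ ≤ g (i + 1)) (hji : j ≤ i) (hx : g j < x) :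
    κ / x ≤ g (i - j + 1) := by
  have hg := g_pos j
  have h1 : g (i + 1) = g j * g (i - j + 1) := by
    rw [← g_add]
    congr 1
    omega
  rw [div_le_iff₀ (by linarith)]
  have h2 := g_pos (i - j + 1)
  nlinarith

theorem le_ratio {κ x : ℝ} {i j : ℕ} (hκ : g i ≤ κ) (hji : j < i) (hx : x ≤ g (j + 1))
    (hx0 : 0 < x) : g (i - j - 1) ≤ κ / x := by
  have h1 : g i = g (j + 1) * g (i - j - 1) := by
    rw [← g_add]
    congr 1
    omega
  rw [le_div_iff₀ hx0]
  have h2 := g_pos (i - j - 1)
  nlinarith

theorem ratio_le' {κ x : ℝ} {i t : ℕ} (hκ : κ ≤ g (i + 1)) (hx : g (i + 1 + t) < x) :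
    κ / x ≤ 1 / g t := by
  have hg := g_pos (i + 1 + t)
  have h1 : g (i + 1 + t) = g (i + 1) * g t := g_add _ _
  have h2 := g_pos t
  rw [div_le_div_iff₀ (by linarith) h2]
  nlinarith

/-- the sum of the positive part -/
theorem sum_pos_le {i : ℕ} (hi : i < 232) (T : List ℕ) :
    ∑ j ∈ Finset.range (i + 1), (gt T (i - j) : ℝ) / 10000000 * (401 / 40000 * A j) ≤
      401 / 40000 * (conv T (dr RU (373 - i))) / (1000000000 * 10000000) := by
  have h1 := sum_le_conv T (dr RU (373 - i)) (i + 1)
  have h2 : (∑ m ∈ Finset.range (i + 1), (gt T m : ℝ) * gt (dr RU (373 - i)) m) ≤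
      conv T (dr RU (373 - i)) := by exact_mod_cast h1
  rw [← Finset.sum_range_reflect] at h2
  have h3 : ∑ j ∈ Finset.range (i + 1), (gt T (i - j) : ℝ) / 10000000 * (401 / 40000 * A j) ≤
      ∑ j ∈ Finset.range (i + 1), 401 / 40000 / (1000000000 * 10000000) *
        ((gt T (i + 1 - 1 - j) : ℝ) * gt (dr RU (373 - i)) (i + 1 - 1 - j)) := by
    apply Finset.sum_le_sum
    intro j hj
    have hj' : j ≤ i := by
      have := Finset.mem_range.1 hj
      omega
    have hU := tabU j (by omega)
    rw [gt_dr]
    have e1 : 373 - i + (i + 1 - 1 - j) = 373 - j := by omega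
    have e2 : i + 1 - 1 - j = i - j := by omega
    rw [e1, e2]
    have h0 : (0 : ℝ) ≤ gt T (i - j) := Nat.cast_nonneg _
    have := mul_le_mul_of_nonneg_left hU h0
    linarith
  refine h3.trans ?_
  rw [← Finset.mul_sum]
  have := mul_le_mul_of_nonneg_left h2 (by norm_num : (0 : ℝ) ≤ 401 / 40000 /
    (1000000000 * 10000000))
  linarith

/-- the sum of the negative part -/
theorem sum_neg_le {i : ℕ} (hi : i < 232) :
    401 / 40401 * (conv TN (dr Lt (i + 2)) : ℝ) / (1000000000 * 10000000) ≤
    ∑ t ∈ Finset.range 139, tn t * (401 / 40401 * A (i + 1 + t + 1)) := by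
  have h1 := conv_le_sum TN (dr Lt (i + 2)) 139 (by decide +kernel)
  have h2 : (conv TN (dr Lt (i + 2)) : ℝ) ≤
      ∑ m ∈ Finset.range 139, (gt TN m : ℝ) * gt (dr Lt (i + 2)) m := by exact_mod_cast h1
  have h3 : ∑ m ∈ Finset.range 139, 401 / 40401 / (1000000000 * 10000000) *
      ((gt TN m : ℝ) * gt (dr Lt (i + 2)) m) ≤
      ∑ t ∈ Finset.range 139, tn t * (401 / 40401 * A (i + 1 + t + 1)) := by
    apply Finset.sum_le_sum
    intro t ht
    have ht' := Finset.mem_range.1 ht
    have hL := tabL (i + 2 + t) (by omega)
    rw [gt_dr]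
    have e1 : i + 1 + t + 1 = i + 2 + t := by omega
    rw [e1]
    unfold tn
    have h0 : (0 : ℝ) ≤ gt TN t := Nat.cast_nonneg _
    have := mul_le_mul_of_nonneg_left hL h0
    linarith
  refine le_trans ?_ h3
  rw [← Finset.mul_sum]
  have := mul_le_mul_of_nonneg_left h2 (by norm_num : (0 : ℝ) ≤ 401 / 40401 /
    (1000000000 * 10000000))
  linarith

theorem cell_total {κ : ℝ} {i : ℕ} (hi : i < 232) (h1 : g i ≤ κ) (h2 : κ ≤ g (i + 1)) :
    ∫ x in Ioi 1, wt x * Dbar (κ / x) ≤ 566 / 10000 := by
  have hκ1 : 1 ≤ κ := (one_le_g i).trans h1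
  have hcells := int_cells (f_integrable hκ1)
    (fun j => if j ≤ i then wt (g j) * tp (i - j) else -(wt (g (j + 1)) * tn (j - i - 1)))
    (i + 1 + 139) ?_ ?_
  · refine hcells.trans ?_
    rw [Finset.sum_range_add]
    have e1 : ∑ j ∈ Finset.range (i + 1), (if j ≤ i then wt (g j) * tp (i - j)
        else -(wt (g (j + 1)) * tn (j - i - 1))) * (g (j + 1) - g j) =
        ∑ j ∈ Finset.range (i + 1), (gt TP (i - j) : ℝ) / 10000000 * (401 / 40000 * A j) := by
      apply Finset.sum_congr rfl
      intro j hj
      have hj' : j ≤ i := by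
        have := Finset.mem_range.1 hj
        omega
      rw [if_pos hj', ← wt_g]
      unfold tp
      ring
    have e2 : ∑ t ∈ Finset.range 139, (if i + 1 + t ≤ i then wt (g (i + 1 + t)) * tp (i - (i + 1 + t))
        else -(wt (g (i + 1 + t + 1)) * tn (i + 1 + t - i - 1))) *
          (g (i + 1 + t + 1) - g (i + 1 + t)) =
        -∑ t ∈ Finset.range 139, tn t * (401 / 40401 * A (i + 1 + t + 1)) := by
      rw [← Finset.sum_neg_distrib]
      apply Finset.sum_congr rfl
      intro t _
      have ht' : i + 1 + t - i - 1 = t := by omega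
      rw [if_neg (by omega), ht', ← wt_g']
      ring
    rw [e1, e2]
    have s1 := sum_pos_le hi TP
    have s2 := sum_neg_le hi
    have hc := al_get chkS hi
    unfold cS at hc
    rw [Nat.ble_eq] at hc
    have hc' : (401 : ℝ) * conv TP (dr RU (373 - i)) * 40401 * 10000 ≤
      566 * 40000 * 40401 * 1000000000 * 10000000 +
      401 * conv TN (dr Lt (i + 2)) * 40000 * 10000 := by exact_mod_cast hc
    linarith
  · intro j hj x hx
    have hg := g_pos j
    have hx0 : 0 < x := hg.trans hx.1
    by_cases hji : j ≤ i
    · simp only [if_pos hji]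
      have b1 : Dbar (κ / x) ≤ tp (i - j) := by
        apply tp_bound (by omega)
        · intro hm
          exact le_ratio h1 (by omega) hx.2 hx0
        · exact ratio_le h2 hji hx.1
      have b2 := wt_anti hg hx.1.le
      have b3 := wt_nonneg hx0.le
      have b4 := tp_nonneg (i - j)
      calc wt x * Dbar (κ / x) ≤ wt x * tp (i - j) := mul_le_mul_of_nonneg_left b1 b3
        _ ≤ wt (g j) * tp (i - j) := mul_le_mul_of_nonneg_right b2 b4
    · simp only [if_neg hji]
      obtain ⟨t, rfl⟩ : ∃ t, j = i + 1 + t := ⟨j - (i + 1), by omega⟩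
      have ht : i + 1 + t - i - 1 = t := by omega
      rw [ht]
      have b1 : Dbar (κ / x) ≤ -tn t := tn_bound (by omega) (ratio_le' h2 hx.1)
      have b2 := wt_anti hx0 hx.2
      have b3 := wt_nonneg hx0.le
      have b4 := tn_nonneg t
      have c1 := mul_le_mul_of_nonneg_left b1 b3
      have c2 := mul_le_mul_of_nonneg_right b2 b4
      linarith
  · intro x hx
    have hx' : g (i + 1 + 139) < x := hx
    have hx0 : 0 < x := (g_pos _).trans hx'
    have b1 : κ / x ≤ 1 := by
      rw [div_le_one hx0]
      have := g_mono (show i + 1 ≤ i + 1 + 139 by omega)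
      linarith
    have b3 := wt_nonneg hx0.le
    have b4 : Dbar (κ / x) ≤ 0 := by
      rw [Dbar_eq (by linarith)]
      unfold D1
      have := exp_pos (-(2 * (κ / x)))
      nlinarith
    exact mul_nonpos_of_nonneg_of_nonpos b3 b4

theorem cell_first {κ : ℝ} {i : ℕ} (hi : i < 232) (h1 : g i ≤ κ) (h2 : κ ≤ g (i + 1)) :
    ∫ x in Ioc 1 (max 1 (κ / 2)), wt x * Dbar (κ / x) ≤ 566 / 10000 := by
  have hκ1 : 1 ≤ κ := (one_le_g i).trans h1
  have hsub : Ioc 1 (max 1 (κ / 2)) ⊆ Ioi (1 : ℝ) := fun x hx => hx.1
  have hint : ∫ x in Ioc 1 (max 1 (κ / 2)), wt x * Dbar (κ / x) =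
      ∫ x in Ioi 1, (Ioc 1 (max 1 (κ / 2))).indicator (fun x => wt x * Dbar (κ / x)) x := by
    rw [setIntegral_indicator measurableSet_Ioc, inter_eq_right.2 hsub]
  rw [hint]
  have hI : IntegrableOn ((Ioc 1 (max 1 (κ / 2))).indicator (fun x => wt x * Dbar (κ / x)))
      (Ioi 1) := (f_integrable hκ1).indicator measurableSet_Ioc
  have hcells := int_cells hI
    (fun j => wt (g j) * ((gt TB (i - j) : ℝ) / 10000000)) (i + 1) ?_ ?_
  · refine hcells.trans ?_
    have e1 : ∑ j ∈ Finset.range (i + 1), wt (g j) * ((gt TB (i - j) : ℝ) / 10000000) *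
        (g (j + 1) - g j) =
        ∑ j ∈ Finset.range (i + 1), (gt TB (i - j) : ℝ) / 10000000 * (401 / 40000 * A j) := by
      apply Finset.sum_congr rfl
      intro j _
      rw [← wt_g]
      ring
    rw [e1]
    have s1 := sum_pos_le hi TB
    have hc := al_get chkB hi
    unfold cB at hc
    rw [Nat.ble_eq] at hc
    have hc' : (401 : ℝ) * conv TB (dr RU (373 - i)) * 10000 ≤
      566 * 40000 * 1000000000 * 10000000 := by exact_mod_cast hc
    linarith
  · intro j hj x hx
    have hg := g_pos j
    have hx0 : 0 < x := hg.trans hx.1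
    have hji : j ≤ i := by omega
    have b3 := wt_nonneg hx0.le
    have b2 := wt_anti hg hx.1.le
    have b5 : (0 : ℝ) ≤ (gt TB (i - j) : ℝ) / 10000000 :=
      div_nonneg (Nat.cast_nonneg _) (by norm_num)
    have b6 := wt_nonneg hg.le
    by_cases hmem : x ∈ Ioc 1 (max 1 (κ / 2))
    · rw [indicator_of_mem hmem]
      have hx2 : x ≤ κ / 2 := by
        rcases le_max_iff.1 hmem.2 with h | h
        · have := hmem.1
          linarith
        · exact h
      have hz2 : 2 ≤ κ / x := by
        rw [le_div_iff₀ hx0]
        linarith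
      have hzhi : κ / x ≤ g (i - j + 1) := ratio_le h2 hji hx.1
      have hm69 : ¬ i - j ≤ 68 := by
        intro hm
        have h3 : g (i - j + 1) ≤ g 69 := g_mono (by omega)
        have h4 := (tabX 69 (by norm_num)).2
        have h5 : gt Xu 69 < 200000000 := by decide +kernel
        have h6 : (gt Xu 69 : ℝ) < 200000000 := by exact_mod_cast h5
        linarith
      have hc := al_get chkT (m := i - j) (by omega)
      unfold cT at hc
      simp only [Bool.or_eq_true, Bool.and_eq_true, Nat.beq_eq, Nat.ble_eq] at hc
      have hTB : gt TB (i - j) = gt TP (i - j) := by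
        rcases hc with hc | hc
        · exact absurd hc.2 hm69
        · exact hc
      have b1 : Dbar (κ / x) ≤ tp (i - j) := by
        apply tp_bound (by omega)
        · intro hm
          exact le_ratio h1 (by omega) hx.2 hx0
        · exact hzhi
      rw [hTB]
      change wt x * Dbar (κ / x) ≤ wt (g j) * tp (i - j)
      have b4 := tp_nonneg (i - j)
      calc wt x * Dbar (κ / x) ≤ wt x * tp (i - j) := mul_le_mul_of_nonneg_left b1 b3
        _ ≤ wt (g j) * tp (i - j) := mul_le_mul_of_nonneg_right b2 b4
    · rw [indicator_of_notMem hmem]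
      positivity
  · intro x hx
    have hx' : g (i + 1) < x := hx
    have hmem : x ∉ Ioc 1 (max 1 (κ / 2)) := by
      intro hmem
      rcases le_max_iff.1 hmem.2 with h | h
      · have := hmem.1
        linarith
      · linarith
    rw [indicator_of_notMem hmem]

/-! ### large values -/

theorem rpow_bound {x : ℝ} (hx : 5 / 2 ≤ x) : x ^ (-(3 / 2) : ℝ) ≤ 2532 / 10000 := by
  have h1 : x ^ (-(3 / 2) : ℝ) ≤ (5 / 2 : ℝ) ^ (-(3 / 2) : ℝ) :=
    rpow_le_rpow_of_nonpos (by norm_num) hx (by norm_num)
  refine h1.trans ?_
  have h2 : (5 / 2 : ℝ) ^ (-(3 / 2) : ℝ) = ((5 / 2 : ℝ) ^ (3 / 2 : ℝ))⁻¹ :=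
    rpow_neg (by norm_num) _
  rw [h2]
  have h3 : (395 / 100 : ℝ) ≤ (5 / 2 : ℝ) ^ (3 / 2 : ℝ) := by
    have h4 : ((395 / 100 : ℝ) ^ (2 : ℝ)) ^ (1 / 2 : ℝ) ≤
        ((5 / 2 : ℝ) ^ (3 : ℝ)) ^ (1 / 2 : ℝ) := by
      apply rpow_le_rpow (by positivity) _ (by norm_num)
      norm_num
    rw [← rpow_mul (by norm_num), ← rpow_mul (by norm_num)] at h4
    norm_num at h4 ⊢
    exact h4
  have h5 := inv_anti₀ (by norm_num) h3
  refine h5.trans ?_
  norm_num

/-- majorant for large values -/
noncomputable def H (x : ℝ) : ℝ := 27 / 1000 * exp (-(78 / 100 * (x - 1))) +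
  (Ioi (5 / 2 : ℝ)).indicator (fun x => 24 / 1000 * exp (-(78 / 100 * (x - 1)))) x

theorem H_nonneg (x : ℝ) : 0 ≤ H x := by
  unfold H
  have : 0 ≤ (Ioi (5 / 2 : ℝ)).indicator (fun x => 24 / 1000 * exp (-(78 / 100 * (x - 1)))) x :=
    indicator_nonneg (fun y _ => by positivity) x
  positivity

theorem H_integrable : IntegrableOn H (Ioi 1) := by
  unfold H
  exact ((exp_integrable 1).const_mul _).add
    (((exp_integrable 1).const_mul _).indicator measurableSet_Ioi)

theorem H_integral : ∫ x in Ioi 1, H x ≤ 566 / 10000 := by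
  unfold H
  rw [integral_add ((exp_integrable 1).const_mul _)
    (((exp_integrable 1).const_mul _).indicator measurableSet_Ioi),
    integral_const_mul, exp_integral, setIntegral_indicator measurableSet_Ioi,
    inter_eq_right.2 (Ioi_subset_Ioi (by norm_num : (1 : ℝ) ≤ 5 / 2)),
    integral_const_mul, exp_integral]
  have h1 : exp (-(78 / 100 * (1 - 1))) = 1 := by norm_num
  have h2 : exp (-(78 / 100 * (5 / 2 - 1))) ≤ 1 / 2 := by
    have h3 : (2 : ℝ) ≤ exp (117 / 100) := by
      have := Real.add_one_le_exp (117 / 100 : ℝ)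
      linarith
    have h4 : exp (-(78 / 100 * (5 / 2 - 1))) = (exp (117 / 100))⁻¹ := by
      rw [← exp_neg]
      congr 1
      norm_num
    rw [h4, one_div]
    exact inv_anti₀ (by norm_num) h3
  rw [h1]
  linarith

theorem le_H {κ : ℝ} (hκ : g 232 ≤ κ) {x : ℝ} (hx : 1 < x) : wt x * Dbar (κ / x) ≤ H x := by
  have hκ10 : 10 < κ := by
    have h4 := (tabX 232 (by norm_num)).1
    have h5 : 1001000000 < gt Xl 232 := by decide +kernel
    have h6 : (1001000000 : ℝ) < gt Xl 232 := by exact_mod_cast h5
    linarith
  have hx0 : 0 < x := by linarith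
  have b3 := wt_nonneg hx0.le
  have he := exp_pos (-(78 / 100 * (x - 1)))
  unfold H
  by_cases h : 5 / 2 < x
  · rw [indicator_of_mem (by exact h)]
    have b1 := Dbar_le (κ / x)
    have b2 : wt x ≤ exp (-(78 / 100 * (x - 1))) * (2532 / 10000) := by
      unfold wt
      exact mul_le_mul_of_nonneg_left (rpow_bound h.le) he.le
    have c1 := mul_le_mul_of_nonneg_left b1 b3
    have c2 := mul_le_mul_of_nonneg_right b2 (by norm_num : (0 : ℝ) ≤ 1992 / 10000)
    nlinarith
  · rw [indicator_of_notMem (by exact h)]
    have h4 : 4 < κ / x := by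
      rw [lt_div_iff₀ hx0]
      linarith
    have b1 : Dbar (κ / x) = 27 / 1000 := by
      unfold Dbar
      rw [if_neg (by linarith), if_neg (by linarith), if_neg (by linarith)]
    rw [b1]
    have := wt_le hx.le
    linarith

theorem exists_cell {κ : ℝ} (h1 : 1 ≤ κ) (n : ℕ) (h2 : κ < g n) :
    ∃ i < n, g i ≤ κ ∧ κ ≤ g (i + 1) := by
  induction n with
  | zero =>
    rw [g_zero] at h2
    linarith
  | succ n ih =>
    by_cases h : κ < g n
    · obtain ⟨i, hi, h3⟩ := ih h
      exact ⟨i, by omega, h3⟩
    · exact ⟨n, by omega, not_lt.1 h, h2.le⟩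

theorem total_le {κ : ℝ} (hκ : 1 ≤ κ) : ∫ x in Ioi 1, wt x * Dbar (κ / x) ≤ 566 / 10000 := by
  by_cases h : κ < g 232
  · obtain ⟨i, hi, h1, h2⟩ := exists_cell hκ 232 h
    exact cell_total hi h1 h2
  · refine (setIntegral_mono_on (f_integrable hκ) H_integrable measurableSet_Ioi ?_).trans
      H_integral
    intro x hx
    exact le_H (not_lt.1 h) hx

theorem first_le {κ : ℝ} (hκ : 1 ≤ κ) :
    ∫ x in Ioc 1 (max 1 (κ / 2)), wt x * Dbar (κ / x) ≤ 566 / 10000 := by
  by_cases h : κ < g 232
  · obtain ⟨i, hi, h1, h2⟩ := exists_cell hκ 232 h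
    exact cell_first hi h1 h2
  · have hsub : Ioc 1 (max 1 (κ / 2)) ⊆ Ioi (1 : ℝ) := fun x hx => hx.1
    have h1 : ∫ x in Ioc 1 (max 1 (κ / 2)), wt x * Dbar (κ / x) ≤
        ∫ x in Ioc 1 (max 1 (κ / 2)), H x := by
      apply setIntegral_mono_on ((f_integrable hκ).mono_set hsub) (H_integrable.mono_set hsub)
        measurableSet_Ioc
      intro x hx
      exact le_H (not_lt.1 h) hx.1
    have h2 : ∫ x in Ioc 1 (max 1 (κ / 2)), H x ≤ ∫ x in Ioi 1, H x :=
      setIntegral_mono_set H_integrable (Filter.Eventually.of_forall H_nonneg)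
        (Filter.Eventually.of_forall hsub)
    exact (h1.trans h2).trans H_integral

end N2

open N2 in
theorem num2 {κ : ℝ} (hκ : 1 ≤ κ) :
    (∫ x in Ioc 1 (max 1 (κ / 2)),
        exp (-(78 / 100 * (x - 1))) * x ^ (-(3 / 2) : ℝ) * Dbar (κ / x))
      + max 0 (∫ x in Ioi (max 1 (κ / 2)),
        exp (-(78 / 100 * (x - 1))) * x ^ (-(3 / 2) : ℝ) * D1 (κ / x))
      ≤ 566 / 10000 := by
  have h1 := first_le hκ
  have h2 := total_le hκ
  have hμ : (1 : ℝ) ≤ max 1 (κ / 2) := le_max_left _ _
  have hi1 : IntegrableOn (fun x => wt x * Dbar (κ / x)) (Ioc 1 (max 1 (κ / 2))) :=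
    (f_integrable hκ).mono_set fun x hx => hx.1
  have hi2 : IntegrableOn (fun x => wt x * Dbar (κ / x)) (Ioi (max 1 (κ / 2))) :=
    (f_integrable hκ).mono_set fun x hx => lt_of_le_of_lt hμ hx
  rw [← Ioc_union_Ioi_eq_Ioi hμ,
    setIntegral_union (Ioc_disjoint_Ioi le_rfl) measurableSet_Ioi hi1 hi2] at h2
  have h3 : ∫ x in Ioi (max 1 (κ / 2)),
      exp (-(78 / 100 * (x - 1))) * x ^ (-(3 / 2) : ℝ) * D1 (κ / x) =
      ∫ x in Ioi (max 1 (κ / 2)), wt x * Dbar (κ / x) := by
    apply setIntegral_congr_fun measurableSet_Ioi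
    intro x hx
    have hx' : max 1 (κ / 2) < x := hx
    have hx1 : 1 < x := lt_of_le_of_lt (le_max_left _ _) hx'
    have hx2 : κ / 2 < x := lt_of_le_of_lt (le_max_right _ _) hx'
    have hz : κ / x ≤ 5 / 2 := by
      rw [div_le_iff₀ (by linarith)]
      linarith
    change _ = wt x * Dbar (κ / x)
    rw [Dbar_eq hz]
    rfl
  rw [h3]
  change (∫ x in Ioc 1 (max 1 (κ / 2)), wt x * Dbar (κ / x)) + _ ≤ _
  rcases le_total 0 (∫ x in Ioi (max 1 (κ / 2)), wt x * Dbar (κ / x)) with h | h
  · rw [max_eq_right h]
    exact h2
  · rw [max_eq_left h]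
    linarith

end Pool.Agent.H75.LO
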