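import Pool.Agent.H75.LO.Zs
import Pool.Agent.H75.LO.DzBar
import Pool.Agent.H75.LO.Num1
import Pool.Agent.H75.LO.Num2

/-!
# LO3-Zs3: the pointwise inequality for a shifted exponential time, `y = 35`

(The version with `y = 29` is `Zs_bound` in Zs.lean, proved; many pieces of that proof can be reused.)

By symmetry `a > b > 0`. Put `τ = ½ln(a/b)`, `σ = (a-b)r²/(4 ln(a/b))`. By `Dz_rep`
`(a-b)(Z s b r - Z s a r) = ab(√a-√b)² · E(s)`, `E(s) = ∫_s^∞ e^{-(u-s)} (2πu)^{-3/2} Dz τ (σ/u) du`, and the claim is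
`E(s) ≤ 35^{-3/2} = 0.0048294…` for all `s ≥ 0`.

* (M) `e^{-s}E(s) = ∫_s^∞ e^{-u}(2πu)^{-3/2} Dz τ (σ/u) du`; the integrand is `≥ 0` for `u ≤ σ`, `≤ 0` for `u ≥ σ`; so for `s ≥ s'`:
  `e^{-s}E(s) ≤ max 0 (e^{-s'}E(s'))`.
* `s ≤ 0.78`: `E(0) ≤ 0.0098/(√2π) = 0.00220577` (closed form `Z_zero` and `pr0`, as in Zs.lean) and (M): `E(s) ≤ e^{0.78}·0.00220577 = 0.0048119`.
* `0.78 ≤ s ≤ 0.95`: `E(0.78) ≤ (0.78)^{-1/2}(2π)^{-3/2}·0.0566` (substitute `u = 0.78 x`, `κ = σ/0.78`; if `κ ≤ 1` then `E ≤ 0`; for `κ ≥ 1`: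
  on `κ/x ≤ 2` use `Dz ≤ E1 τ · D1` (`Dz_le_low`), so that part is `≤ max 0 (∫ … D1)` as `0 < E1 ≤ 1`; on `κ/x ≥ 2` use
  `Dz_le_bar`; then `num2`), and (M): `E(s) ≤ e^{0.17}·0.0566/(√0.78 (2π)^{3/2}) = 0.0048233…`
  (`e^{0.17} = 1.185305`, `√0.78 = 0.883176`, `(2π)^{3/2} = 15.749610`).
* `s ≥ 0.95`: if `σ ≤ s` then `E(s) ≤ 0`. Otherwise `κ = σ/s > 1`, drop the part `u > σ`, `Dz_le_bar`, `u = s x`:
  `E(s) ≤ s^{-1/2}(2π)^{-3/2} ∫_1^κ e^{-s(x-1)}x^{-3/2} Dbar(κ/x) dx`; the right side is decreasing in `s` for fixed `κ`, so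
  `≤ (0.95)^{-1/2}(2π)^{-3/2}·0.0741 = 0.0048271` (`num1`; `√0.95 = 0.974679`).
-/

open MeasureTheory Set
open scoped ENNReal

namespace Pool.Agent.H75.LO

/-- the kernel in the time variable -/
noncomputable def z3F (τ σ u : ℝ) : ℝ :=
  Real.exp (-u) * (2 * Real.pi * u) ^ (-(3 / 2) : ℝ) * Dz τ (σ / u)

theorem z3_Dz_nonneg {τ ζ : ℝ} (hτ : 0 < τ) (hζ : 1 ≤ ζ) : 0 ≤ Dz τ ζ := by
  unfold Dz
  have h1 : 0 < Real.sinh (τ / 2) := Real.sinh_pos_iff.2 (by positivity)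
  have h2 : 0 ≤ Real.sinh (2 * τ * (ζ - 1)) := by
    rw [Real.sinh_nonneg_iff]
    exact mul_nonneg (by positivity) (by linarith)
  have h3 := Real.cosh_pos (τ / 2)
  positivity

theorem z3_Dbar_nonneg {ζ : ℝ} (hζ : 1 ≤ ζ) : 0 ≤ Dbar ζ := by
  unfold Dbar D1
  split_ifs
  · have : 0 ≤ ζ - 1 := by linarith
    positivity
  · norm_num
  · norm_num
  · norm_num

theorem z3_D1_abs {ζ : ℝ} (hζ : 0 ≤ ζ) : |D1 ζ| ≤ 8 * (ζ + 1) := by
  unfold D1
  rw [abs_mul, abs_of_pos (Real.exp_pos _)]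
  have h1 : |8 * (ζ - 1)| ≤ 8 * (ζ + 1) := by
    rw [abs_le]
    constructor <;> linarith
  have h2 : Real.exp (-(2 * ζ)) ≤ 1 := Real.exp_le_one_iff.2 (by linarith)
  calc |8 * (ζ - 1)| * Real.exp (-(2 * ζ)) ≤ |8 * (ζ - 1)| * 1 :=
        mul_le_mul_of_nonneg_left h2 (abs_nonneg _)
    _ ≤ _ := by rw [mul_one]; exact h1

theorem z3_Dbar_abs {ζ : ℝ} (hζ : 0 ≤ ζ) : |Dbar ζ| ≤ 8 * (ζ + 1) := by
  unfold Dbar
  split_ifs
  · exact z3_D1_abs hζ
  · rw [abs_of_pos (by norm_num)]; linarith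
  · rw [abs_of_pos (by norm_num)]; linarith
  · rw [abs_of_pos (by norm_num)]; linarith

theorem z3_meas_D1 : Measurable D1 := by
  unfold D1
  fun_prop

theorem z3_meas_Dbar : Measurable Dbar := by
  unfold Dbar
  refine Measurable.ite measurableSet_Iic z3_meas_D1 ?_
  refine Measurable.ite measurableSet_Iic measurable_const ?_
  exact Measurable.ite measurableSet_Iic measurable_const measurable_const

/-- integrability of the majorants -/
theorem z3_int {g : ℝ → ℝ} (hg : Measurable g) (hgb : ∀ ζ, 0 ≤ ζ → |g ζ| ≤ 8 * (ζ + 1))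
    {c κ : ℝ} (hc : 0 < c) (hκ : 0 ≤ κ) :
    IntegrableOn (fun x : ℝ => Real.exp (-(c * (x - 1))) * x ^ (-(3 / 2) : ℝ) * g (κ / x))
      (Ioi 1) := by
  have h1 : IntegrableOn (fun x : ℝ => Real.exp c * (8 * (κ + 1)) * Real.exp (-c * x)) (Ioi 1) :=
    (exp_neg_integrableOn_Ioi 1 hc).const_mul _
  refine Integrable.mono' h1 ?_ ?_
  · apply Measurable.aestronglyMeasurable
    have : Measurable (fun x : ℝ => g (κ / x)) := hg.comp (by fun_prop)
    fun_prop
  · filter_upwards [ae_restrict_mem measurableSet_Ioi] with x hx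
    simp only [mem_Ioi] at hx
    have hx0 : 0 < x := by linarith
    have e1 : Real.exp (-(c * (x - 1))) = Real.exp c * Real.exp (-c * x) := by
      rw [← Real.exp_add]; congr 1; ring
    have h2 : x ^ (-(3 / 2) : ℝ) ≤ 1 := Real.rpow_le_one_of_one_le_of_nonpos hx.le (by norm_num)
    have h3 : |g (κ / x)| ≤ 8 * (κ + 1) := by
      refine (hgb _ (by positivity)).trans ?_
      have : κ / x ≤ κ := div_le_self hκ hx.le
      linarith
    rw [norm_mul, norm_mul, Real.norm_of_nonneg (Real.exp_pos _).le,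
      Real.norm_of_nonneg (Real.rpow_nonneg hx0.le _), Real.norm_eq_abs, e1]
    have h4 : Real.exp c * Real.exp (-c * x) * x ^ (-(3 / 2) : ℝ)
        ≤ Real.exp c * Real.exp (-c * x) * 1 := mul_le_mul_of_nonneg_left h2 (by positivity)
    calc Real.exp c * Real.exp (-c * x) * x ^ (-(3 / 2) : ℝ) * |g (κ / x)|
        ≤ (Real.exp c * Real.exp (-c * x) * 1) * (8 * (κ + 1)) :=
          mul_le_mul h4 h3 (abs_nonneg _) (by positivity)
      _ = _ := by ring

section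
variable {a b r : ℝ}

/-- the representation -/
theorem z3_rep {s : ℝ} (hs : 0 ≤ s) (hb : 0 < b) (hab : b < a) (hr : 0 < r) :
    IntegrableOn (z3F (Real.log (a / b) / 2) ((a - b) * r ^ 2 / (4 * Real.log (a / b)))) (Ioi s) ∧
    (a - b) * (Z s b r - Z s a r) = a * b * (Real.sqrt a - Real.sqrt b) ^ 2 * (Real.exp s *
      ∫ u in Ioi s, z3F (Real.log (a / b) / 2) ((a - b) * r ^ 2 / (4 * Real.log (a / b))) u) := by
  have ha : 0 < a := hb.trans hab
  obtain ⟨hint, hd⟩ := zs_diff hs ha hb hr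
  set K := a * b * (Real.sqrt a - Real.sqrt b) ^ 2 with hK
  have hK0 : 0 < K := by
    have : Real.sqrt b < Real.sqrt a := Real.sqrt_lt_sqrt hb.le hab
    have h2 : 0 < (Real.sqrt a - Real.sqrt b) ^ 2 := pow_pos (by linarith) 2
    positivity
  set F := z3F (Real.log (a / b) / 2) ((a - b) * r ^ 2 / (4 * Real.log (a / b))) with hF
  have hpt : ∀ u ∈ Ioi s, (a - b) * (Real.exp (-(u - s)) * (2 * Real.pi * u) ^ (-(3 / 2) : ℝ) *
      (b ^ 2 * Real.exp (-(b * (r ^ 2 / (2 * u)))) - a ^ 2 * Real.exp (-(a * (r ^ 2 / (2 * u))))))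
      = K * (Real.exp s * F u) := by
    intro u hu
    simp only [mem_Ioi] at hu
    have hu0 : 0 < u := by linarith
    have h1 := Dz_rep hb hab hr hu0
    rw [← hK, mul_div_assoc, mul_div_assoc] at h1
    have e1 : Real.exp (-(u - s)) = Real.exp s * Real.exp (-u) := by
      rw [← Real.exp_add]; congr 1; ring
    rw [hF, e1]
    unfold z3F
    calc _ = Real.exp s * Real.exp (-u) * (2 * Real.pi * u) ^ (-(3 / 2) : ℝ) * ((a - b) *
          (b ^ 2 * Real.exp (-(b * (r ^ 2 / (2 * u))))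
            - a ^ 2 * Real.exp (-(a * (r ^ 2 / (2 * u)))))) := by ring
      _ = _ := by
        rw [h1]
        ring
  constructor
  · have h2 : IntegrableOn (fun u => K * (Real.exp s * F u)) (Ioi s) :=
      (integrableOn_congr_fun hpt measurableSet_Ioi).1 (hint.const_mul (a - b))
    have h3 := h2.const_mul (K⁻¹ * (Real.exp s)⁻¹)
    refine h3.congr (Filter.Eventually.of_forall fun u => ?_)
    simp only
    have := Real.exp_pos s
    field_simp
  · rw [hd, ← integral_const_mul, ← integral_const_mul, ← integral_const_mul]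
    exact setIntegral_congr_fun measurableSet_Ioi hpt

variable {τ σ : ℝ}

theorem z3_nonpos {s : ℝ} (hτ : 0 < τ) (hs : 0 ≤ s) (hσ : σ ≤ s) :
    ∫ u in Ioi s, z3F τ σ u ≤ 0 := by
  apply setIntegral_nonpos measurableSet_Ioi
  intro u hu
  simp only [mem_Ioi] at hu
  have hu0 : 0 < u := by linarith
  unfold z3F
  apply mul_nonpos_of_nonneg_of_nonpos (by positivity)
  apply Dz_nonpos hτ
  rw [div_le_one hu0]
  linarith

theorem z3_mono {s s' : ℝ} (hτ : 0 < τ) (hs' : 0 ≤ s') (h : s' ≤ s)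
    (hint : IntegrableOn (z3F τ σ) (Ioi s')) :
    ∫ u in Ioi s, z3F τ σ u ≤ max 0 (∫ u in Ioi s', z3F τ σ u) := by
  rcases le_or_gt σ s with hc | hc
  · exact (z3_nonpos hτ (hs'.trans h) hc).trans (le_max_left _ _)
  · have hun : Ioi s' = Ioc s' s ∪ Ioi s := (Ioc_union_Ioi_eq_Ioi h).symm
    have hdisj : Disjoint (Ioc s' s) (Ioi s) := by
      rw [Set.disjoint_left]
      intro x hx hx'
      exact absurd hx.2 (not_le.2 hx')
    have h1 : ∫ u in Ioi s', z3F τ σ u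
        = (∫ u in Ioc s' s, z3F τ σ u) + ∫ u in Ioi s, z3F τ σ u := by
      rw [hun, setIntegral_union hdisj measurableSet_Ioi
        (hint.mono_set (by rw [hun]; exact subset_union_left))
        (hint.mono_set (Ioi_subset_Ioi h))]
    have h2 : 0 ≤ ∫ u in Ioc s' s, z3F τ σ u := by
      apply setIntegral_nonneg measurableSet_Ioc
      intro u hu
      have hu0 : 0 < u := lt_of_le_of_lt hs' hu.1
      unfold z3F
      apply mul_nonneg (by positivity)
      apply z3_Dz_nonneg hτ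
      rw [le_div_iff₀ hu0]
      linarith [hu.2]
    refine le_trans ?_ (le_max_right _ _)
    linarith

/-- the scaled integral -/
theorem z3_scale {s : ℝ} (hs : 0 < s) (hint : IntegrableOn (z3F τ σ) (Ioi s)) :
    IntegrableOn (fun x : ℝ => Real.exp (-(s * (x - 1))) * x ^ (-(3 / 2) : ℝ) *
      Dz τ (σ / s / x)) (Ioi 1) ∧
    Real.exp s * ∫ u in Ioi s, z3F τ σ u = (s ^ (-(1 / 2) : ℝ) * (2 * Real.pi) ^ (-(3 / 2) : ℝ)) *
      ∫ x in Ioi (1 : ℝ), Real.exp (-(s * (x - 1))) * x ^ (-(3 / 2) : ℝ) * Dz τ (σ / s / x) := by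
  have hp : 0 < 2 * Real.pi := by positivity
  have hpt : ∀ x ∈ Ioi (1 : ℝ), Real.exp s * (s * z3F τ σ (s * x))
      = (s ^ (-(1 / 2) : ℝ) * (2 * Real.pi) ^ (-(3 / 2) : ℝ)) *
        (Real.exp (-(s * (x - 1))) * x ^ (-(3 / 2) : ℝ) * Dz τ (σ / s / x)) := by
    intro x hx
    simp only [mem_Ioi] at hx
    have hx0 : 0 < x := by linarith
    unfold z3F
    rw [Real.mul_rpow hp.le (by positivity), Real.mul_rpow hs.le hx0.le, div_div]
    have e1 : Real.exp (-(s * (x - 1))) = Real.exp s * Real.exp (-(s * x)) := by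
      rw [← Real.exp_add]; congr 1; ring
    have e2 : s ^ (-(1 / 2) : ℝ) = s * s ^ (-(3 / 2) : ℝ) := by
      rw [show (-(1 / 2) : ℝ) = 1 + -(3 / 2) by norm_num, Real.rpow_add hs, Real.rpow_one]
    rw [e1, e2]
    ring
  have hC : s ^ (-(1 / 2) : ℝ) * (2 * Real.pi) ^ (-(3 / 2) : ℝ) ≠ 0 := by positivity
  constructor
  · have h1 : IntegrableOn (fun x => z3F τ σ (s * x)) (Ioi 1) := by
      rw [integrableOn_Ioi_comp_mul_left_iff _ _ hs, mul_one]
      exact hint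
    have h2 := (integrableOn_congr_fun (μ := volume) hpt measurableSet_Ioi).1
      ((h1.const_mul s).const_mul (Real.exp s))
    have h3 := h2.const_mul (s ^ (-(1 / 2) : ℝ) * (2 * Real.pi) ^ (-(3 / 2) : ℝ))⁻¹
    refine h3.congr (Filter.Eventually.of_forall fun x => ?_)
    simp only
    rw [inv_mul_cancel_left₀ hC]
  · have h1 := integral_comp_mul_left_Ioi (z3F τ σ) 1 hs
    rw [mul_one, smul_eq_mul] at h1
    have h2 : ∫ u in Ioi s, z3F τ σ u = s * ∫ x in Ioi (1 : ℝ), z3F τ σ (s * x) := by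
      rw [h1]
      field_simp
    rw [h2, ← integral_const_mul, ← integral_const_mul, ← integral_const_mul]
    exact setIntegral_congr_fun measurableSet_Ioi hpt

/-- the case `s = 0.78` -/
theorem z3_mid (hτ : 0 < τ) (hσ : 0 < σ) (hint : IntegrableOn (z3F τ σ) (Ioi (78 / 100))) :
    Real.exp (78 / 100) * ∫ u in Ioi (78 / 100 : ℝ), z3F τ σ u
      ≤ (78 / 100 : ℝ) ^ (-(1 / 2) : ℝ) * (2 * Real.pi) ^ (-(3 / 2) : ℝ) * (566 / 10000) := by
  obtain ⟨hI, hE⟩ := z3_scale (s := 78 / 100) (by norm_num) hint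
  rcases le_or_gt (σ / (78 / 100)) 1 with hc | hc
  · have h1 := z3_nonpos (τ := τ) (σ := σ) (s := 78 / 100) hτ (by norm_num) (by
      rw [div_le_one (by norm_num)] at hc
      exact hc)
    have h2 : 0 ≤ (78 / 100 : ℝ) ^ (-(1 / 2) : ℝ) * (2 * Real.pi) ^ (-(3 / 2) : ℝ)
      * (566 / 10000) := by positivity
    have h3 := Real.exp_pos (78 / 100)
    nlinarith
  rw [hE]
  apply mul_le_mul_of_nonneg_left _ (by positivity)
  set κ := σ / (78 / 100) with hκ
  have hκ0 : 0 < κ := by linarith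
  refine le_trans ?_ (num2 hc.le)
  set μ := max 1 (κ / 2) with hμ
  have hμ1 : 1 ≤ μ := le_max_left _ _
  have hun : Ioi (1 : ℝ) = Ioc 1 μ ∪ Ioi μ := (Ioc_union_Ioi_eq_Ioi hμ1).symm
  have hdisj : Disjoint (Ioc 1 μ) (Ioi μ) := by
    rw [Set.disjoint_left]
    intro x hx hx'
    exact absurd hx.2 (not_le.2 hx')
  have hI1 := hI.mono_set (show Ioc 1 μ ⊆ Ioi (1 : ℝ) from fun x hx => hx.1)
  have hI2 := hI.mono_set (Ioi_subset_Ioi hμ1)
  rw [hun, setIntegral_union hdisj measurableSet_Ioi hI1 hI2]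
  apply add_le_add
  · refine setIntegral_mono_on hI1 ((z3_int z3_meas_Dbar (fun ζ h => z3_Dbar_abs h)
      (c := 78 / 100) (κ := κ) (by norm_num) hκ0.le).mono_set
      (fun x hx => hx.1)) measurableSet_Ioc ?_
    intro x hx
    have hx0 : 0 < x := by linarith [hx.1]
    apply mul_le_mul_of_nonneg_left _ (by positivity)
    apply Dz_le_bar hτ
    have hxk : x ≤ κ := by
      rcases le_total (κ / 2) 1 with h | h
      · have h2 := hx.2
        rw [hμ, max_eq_left h] at h2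
        linarith [hx.1]
      · have h2 := hx.2
        rw [hμ, max_eq_right h] at h2
        linarith
    rw [le_div_iff₀ hx0]
    linarith
  · have hJ := (z3_int z3_meas_D1 (fun ζ h => z3_D1_abs h) (c := 78 / 100) (κ := κ)
      (by norm_num) hκ0.le).mono_set (Ioi_subset_Ioi hμ1)
    set J := ∫ x in Ioi μ, Real.exp (-(78 / 100 * (x - 1))) * x ^ (-(3 / 2) : ℝ) * D1 (κ / x)
      with hJd
    have h1 : ∫ x in Ioi μ, Real.exp (-(78 / 100 * (x - 1))) * x ^ (-(3 / 2) : ℝ) * Dz τ (κ / x)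
        ≤ E1 τ * J := by
      rw [hJd, ← integral_const_mul]
      refine setIntegral_mono_on hI2 (hJ.const_mul _) measurableSet_Ioi ?_
      intro x hx
      simp only [mem_Ioi] at hx
      have hx0 : 0 < x := by linarith
      have h2 : κ / x ≤ 2 := by
        rw [div_le_iff₀ hx0]
        have : κ / 2 ≤ μ := le_max_right _ _
        linarith
      have h3 := Dz_le_low hτ (show 0 < κ / x by positivity) h2
      calc _ ≤ Real.exp (-(78 / 100 * (x - 1))) * x ^ (-(3 / 2) : ℝ) * (E1 τ * D1 (κ / x)) :=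
            mul_le_mul_of_nonneg_left h3 (by positivity)
        _ = _ := by ring
    refine h1.trans ?_
    rcases le_total 0 J with h | h
    · rw [max_eq_right h]
      have := E1_le_one hτ
      nlinarith
    · rw [max_eq_left h]
      exact mul_nonpos_of_nonneg_of_nonpos (E1_pos hτ).le h

/-- the case `s ≥ 0.95` -/
theorem z3_large {s : ℝ} (hs : 95 / 100 ≤ s) (hτ : 0 < τ) (hσ : 0 < σ)
    (hint : IntegrableOn (z3F τ σ) (Ioi s)) :
    Real.exp s * ∫ u in Ioi s, z3F τ σ u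
      ≤ (95 / 100 : ℝ) ^ (-(1 / 2) : ℝ) * (2 * Real.pi) ^ (-(3 / 2) : ℝ) * (741 / 10000) := by
  have hs0 : 0 < s := by linarith
  obtain ⟨hI, hE⟩ := z3_scale hs0 hint
  have hpos : 0 ≤ (95 / 100 : ℝ) ^ (-(1 / 2) : ℝ) * (2 * Real.pi) ^ (-(3 / 2) : ℝ)
      * (741 / 10000) := by positivity
  rcases le_or_gt (σ / s) 1 with hc | hc
  · have h1 := z3_nonpos (τ := τ) (σ := σ) (s := s) hτ hs0.le (by
      rw [div_le_one hs0] at hc
      exact hc)
    have h3 := Real.exp_pos s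
    nlinarith
  rw [hE]
  set κ := σ / s with hκ
  have hκ0 : 0 < κ := by linarith
  have hun : Ioi (1 : ℝ) = Ioc 1 κ ∪ Ioi κ := (Ioc_union_Ioi_eq_Ioi hc.le).symm
  have hdisj : Disjoint (Ioc 1 κ) (Ioi κ) := by
    rw [Set.disjoint_left]
    intro x hx hx'
    exact absurd hx.2 (not_le.2 hx')
  have hI1 := hI.mono_set (show Ioc 1 κ ⊆ Ioi (1 : ℝ) from fun x hx => hx.1)
  have hI2 := hI.mono_set (Ioi_subset_Ioi hc.le)
  have hG : ∫ x in Ioi (1 : ℝ), Real.exp (-(s * (x - 1))) * x ^ (-(3 / 2) : ℝ) * Dz τ (κ / x)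
      ≤ 741 / 10000 := by
    refine le_trans ?_ (num1 hc.le)
    rw [hun, setIntegral_union hdisj measurableSet_Ioi hI1 hI2]
    have h1 : ∫ x in Ioi κ, Real.exp (-(s * (x - 1))) * x ^ (-(3 / 2) : ℝ) * Dz τ (κ / x) ≤ 0 := by
      apply setIntegral_nonpos measurableSet_Ioi
      intro x hx
      simp only [mem_Ioi] at hx
      have hx0 : 0 < x := by linarith
      apply mul_nonpos_of_nonneg_of_nonpos (by positivity)
      apply Dz_nonpos hτ
      rw [div_le_one hx0]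
      exact hx.le
    have h2 : ∫ x in Ioc 1 κ, Real.exp (-(s * (x - 1))) * x ^ (-(3 / 2) : ℝ) * Dz τ (κ / x)
        ≤ ∫ x in Ioc 1 κ, Real.exp (-(95 / 100 * (x - 1))) * x ^ (-(3 / 2) : ℝ)
          * Dbar (κ / x) := by
      refine setIntegral_mono_on hI1 ((z3_int z3_meas_Dbar (fun ζ h => z3_Dbar_abs h)
        (c := 95 / 100) (κ := κ) (by norm_num) hκ0.le).mono_set
        (fun x hx => hx.1)) measurableSet_Ioc ?_
      intro x hx
      have hx1 := hx.1
      have hx0 : 0 < x := by linarith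
      have hz : 1 ≤ κ / x := by
        rw [le_div_iff₀ hx0]
        linarith [hx.2]
      apply mul_le_mul _ (Dz_le_bar hτ hz) (z3_Dz_nonneg hτ hz) (by positivity)
      apply mul_le_mul_of_nonneg_right _ (by positivity)
      apply Real.exp_le_exp.2
      have : 0 ≤ (s - 95 / 100) * (x - 1) := mul_nonneg (by linarith) (by linarith)
      linarith
    linarith
  have hp : 0 < (2 * Real.pi) ^ (-(3 / 2) : ℝ) := by positivity
  have hss : s ^ (-(1 / 2) : ℝ) ≤ (95 / 100 : ℝ) ^ (-(1 / 2) : ℝ) :=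
    Real.rpow_le_rpow_of_nonpos (by norm_num) hs (by norm_num)
  calc s ^ (-(1 / 2) : ℝ) * (2 * Real.pi) ^ (-(3 / 2) : ℝ) *
        ∫ x in Ioi (1 : ℝ), Real.exp (-(s * (x - 1))) * x ^ (-(3 / 2) : ℝ) * Dz τ (κ / x)
      ≤ s ^ (-(1 / 2) : ℝ) * (2 * Real.pi) ^ (-(3 / 2) : ℝ) * (741 / 10000) :=
        mul_le_mul_of_nonneg_left hG (by positivity)
    _ ≤ _ := by
        apply mul_le_mul_of_nonneg_right _ (by norm_num)
        exact mul_le_mul_of_nonneg_right hss hp.le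

end

/-! ### numerics -/

theorem z3_sqh {x : ℝ} (hx : 0 < x) : (x ^ (-(1 / 2) : ℝ)) ^ 2 = x⁻¹ := by
  rw [← Real.rpow_natCast, ← Real.rpow_mul hx.le, ← Real.rpow_neg_one]
  norm_num

theorem z3_sqm {x : ℝ} (hx : 0 < x) : (x ^ (-(3 / 2) : ℝ)) ^ 2 = (x ^ 3)⁻¹ := by
  rw [← Real.rpow_natCast, ← Real.rpow_mul hx.le, ← Real.rpow_natCast, ← Real.rpow_neg hx.le]
  norm_num

theorem z3_pi3 : (31.0035 : ℝ) ≤ Real.pi ^ 3 := by
  have h := Real.pi_gt_d4
  calc (31.0035 : ℝ) ≤ 3.1415 ^ 3 := by norm_num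
    _ ≤ Real.pi ^ 3 := pow_le_pow_left₀ (by norm_num) h.le 3

theorem z3_num_large : (95 / 100 : ℝ) ^ (-(1 / 2) : ℝ) * (2 * Real.pi) ^ (-(3 / 2) : ℝ)
    * (741 / 10000) ≤ (35 : ℝ) ^ (-(3 / 2) : ℝ) := by
  have hp : 0 < 2 * Real.pi := by positivity
  rw [← pow_le_pow_iff_left₀ (by positivity) (by positivity) two_ne_zero, mul_pow, mul_pow,
    z3_sqh (by norm_num), z3_sqm hp, z3_sqm (by norm_num)]
  have h := z3_pi3
  have h8 : (2 * Real.pi) ^ 3 = 8 * Real.pi ^ 3 := by ring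
  rw [h8, mul_assoc, mul_comm (95 / 100 : ℝ)⁻¹, mul_assoc, ← div_eq_inv_mul, div_le_iff₀ (by positivity)]
  have h2 : ((35 : ℝ) ^ 3)⁻¹ * (8 * 31.0035) ≤ ((35 : ℝ) ^ 3)⁻¹ * (8 * Real.pi ^ 3) := by gcongr
  refine le_trans ?_ h2
  norm_num

theorem z3_exp34 : Real.exp (17 / 100) ^ 2 ≤ 1.4055 := by
  have h1 : Real.exp (17 / 100) ≤ 1.1854 := by
    refine (Real.exp_bound' (x := 17 / 100) (by norm_num) (by norm_num) (n := 5)
      (by norm_num)).trans ?_
    norm_num [Finset.sum_range_succ, Nat.factorial]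
  calc Real.exp (17 / 100) ^ 2 ≤ (1.1854 : ℝ) ^ 2 := pow_le_pow_left₀ (Real.exp_pos _).le h1 2
    _ ≤ 1.4055 := by norm_num

theorem z3_num_mid : Real.exp (17 / 100) * ((78 / 100 : ℝ) ^ (-(1 / 2) : ℝ) *
    (2 * Real.pi) ^ (-(3 / 2) : ℝ) * (566 / 10000)) ≤ (35 : ℝ) ^ (-(3 / 2) : ℝ) := by
  have hp : 0 < 2 * Real.pi := by positivity
  rw [← pow_le_pow_iff_left₀ (by positivity) (by positivity) two_ne_zero, mul_pow, mul_pow,
    mul_pow, z3_sqh (by norm_num), z3_sqm hp, z3_sqm (by norm_num)]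
  have h := z3_pi3
  have h8 : (2 * Real.pi) ^ 3 = 8 * Real.pi ^ 3 := by ring
  rw [h8]
  have e : Real.exp (17 / 100) ^ 2 * ((78 / 100 : ℝ)⁻¹ * (8 * Real.pi ^ 3)⁻¹ *
      (566 / 10000) ^ 2) = (Real.exp (17 / 100) ^ 2 * ((78 / 100 : ℝ)⁻¹ * (566 / 10000) ^ 2))
        / (8 * Real.pi ^ 3) := by
    rw [div_eq_mul_inv]; ring
  rw [e, div_le_iff₀ (by positivity)]
  have h2 : ((35 : ℝ) ^ 3)⁻¹ * (8 * 31.0035) ≤ ((35 : ℝ) ^ 3)⁻¹ * (8 * Real.pi ^ 3) := by gcongr
  refine le_trans ?_ h2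
  calc Real.exp (17 / 100) ^ 2 * ((78 / 100 : ℝ)⁻¹ * (566 / 10000) ^ 2)
      ≤ 1.4055 * ((78 / 100 : ℝ)⁻¹ * (566 / 10000) ^ 2) :=
        mul_le_mul_of_nonneg_right z3_exp34 (by norm_num)
    _ ≤ _ := by norm_num

theorem z3_exp78 : Real.exp (78 / 100) ≤ 2.1816 := by
  refine (Real.exp_bound' (x := 78 / 100) (by norm_num) (by norm_num) (n := 7)
    (by norm_num)).trans ?_
  norm_num [Finset.sum_range_succ, Nat.factorial]

theorem z3_num_small : Real.exp (78 / 100) * (98 / 10000 / (Real.sqrt 2 * Real.pi))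
    ≤ (35 : ℝ) ^ (-(3 / 2) : ℝ) := by
  have h2 : 0 < Real.sqrt 2 := Real.sqrt_pos.2 (by norm_num)
  have h22 : Real.sqrt 2 ^ 2 = 2 := Real.sq_sqrt (by norm_num)
  have hpi := Real.pi_pos
  rw [← pow_le_pow_iff_left₀ (by positivity) (by positivity) two_ne_zero, mul_pow, div_pow,
    mul_pow, h22, z3_sqm (by norm_num)]
  rw [mul_div_assoc', div_le_iff₀ (by positivity)]
  have h3 : (3.1415 : ℝ) ^ 2 ≤ Real.pi ^ 2 :=
    pow_le_pow_left₀ (by norm_num) Real.pi_gt_d4.le 2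
  have h4 : Real.exp (78 / 100) ^ 2 ≤ 2.1816 ^ 2 :=
    pow_le_pow_left₀ (Real.exp_pos _).le z3_exp78 2
  calc Real.exp (78 / 100) ^ 2 * (98 / 10000) ^ 2 ≤ 2.1816 ^ 2 * (98 / 10000) ^ 2 :=
        mul_le_mul_of_nonneg_right h4 (by norm_num)
    _ ≤ ((35 : ℝ) ^ 3)⁻¹ * (2 * (3.1415 : ℝ) ^ 2) := by norm_num
    _ ≤ ((35 : ℝ) ^ 3)⁻¹ * (2 * Real.pi ^ 2) := by gcongr

theorem z3_ord {s a b r : ℝ} (hs : 0 ≤ s) (hb : 0 < b) (hab : b < a) (hr : 0 < r) :
    (a - b) * (Z s b r - Z s a r)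
      ≤ (35 : ℝ) ^ (-(3 / 2) : ℝ) * (a * b * (Real.sqrt a - Real.sqrt b) ^ 2) := by
  have ha : 0 < a := hb.trans hab
  have hlog : 0 < Real.log (a / b) := Real.log_pos (by rw [lt_div_iff₀ hb]; linarith)
  obtain ⟨hint, hE⟩ := z3_rep hs hb hab hr
  obtain ⟨hint0, hE0⟩ := z3_rep le_rfl hb hab hr
  set K := a * b * (Real.sqrt a - Real.sqrt b) ^ 2 with hK
  have hK0 : 0 < K := by
    have : Real.sqrt b < Real.sqrt a := Real.sqrt_lt_sqrt hb.le hab
    have h2 : 0 < (Real.sqrt a - Real.sqrt b) ^ 2 := pow_pos (by linarith) 2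
    positivity
  have hab' : 0 < a - b := by linarith
  set τ := Real.log (a / b) / 2 with hτd
  set σ := (a - b) * r ^ 2 / (4 * Real.log (a / b)) with hσd
  have hτ : 0 < τ := by positivity
  have hσ : 0 < σ := by positivity
  rw [hE, mul_comm K]
  apply mul_le_mul_of_nonneg_right _ hK0.le
  rcases le_total s (78 / 100) with h1 | h1
  · -- small `s`
    have h0 := zs_at_zero hb hab hr
    rw [hE0, Real.exp_zero, one_mul, mul_comm K] at h0
    have h0' := le_of_mul_le_mul_right h0 hK0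
    have hm := z3_mono (σ := σ) hτ le_rfl hs hint0
    have hc : 0 ≤ 98 / 10000 / (Real.sqrt 2 * Real.pi) := by positivity
    calc Real.exp s * ∫ u in Ioi s, z3F τ σ u
        ≤ Real.exp s * (98 / 10000 / (Real.sqrt 2 * Real.pi)) := by
          apply mul_le_mul_of_nonneg_left _ (Real.exp_pos _).le
          exact hm.trans (max_le hc h0')
      _ ≤ Real.exp (78 / 100) * (98 / 10000 / (Real.sqrt 2 * Real.pi)) :=
          mul_le_mul_of_nonneg_right (Real.exp_le_exp.2 h1) hc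
      _ ≤ _ := z3_num_small
  rcases le_total s (95 / 100) with h2 | h2
  · have hint1 : IntegrableOn (z3F τ σ) (Ioi (78 / 100)) :=
      hint0.mono_set (Ioi_subset_Ioi (by norm_num))
    have hm := z3_mono (σ := σ) hτ (by norm_num) h1 hint1
    have hmid := z3_mid hτ hσ hint1
    set B := (78 / 100 : ℝ) ^ (-(1 / 2) : ℝ) * (2 * Real.pi) ^ (-(3 / 2) : ℝ) * (566 / 10000)
      with hB
    have hB0 : 0 ≤ B := by positivity
    have h3 : ∫ u in Ioi (78 / 100 : ℝ), z3F τ σ u ≤ Real.exp (-(78 / 100)) * B := by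
      rw [Real.exp_neg, ← div_eq_inv_mul, le_div_iff₀ (Real.exp_pos _), mul_comm]
      exact hmid
    calc Real.exp s * ∫ u in Ioi s, z3F τ σ u
        ≤ Real.exp s * (Real.exp (-(78 / 100)) * B) := by
          apply mul_le_mul_of_nonneg_left _ (Real.exp_pos _).le
          exact hm.trans (max_le (by positivity) h3)
      _ = Real.exp (s - 78 / 100) * B := by
          rw [← mul_assoc, ← Real.exp_add]
          rfl
      _ ≤ Real.exp (17 / 100) * B := by
          apply mul_le_mul_of_nonneg_right _ hB0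
          apply Real.exp_le_exp.2
          linarith
      _ ≤ _ := z3_num_mid
  · exact (z3_large h2 hτ hσ hint).trans z3_num_large

theorem Zs_bound35 {s a b r : ℝ} (hs : 0 ≤ s) (ha : 0 ≤ a) (hb : 0 ≤ b) (hr : 0 < r) :
    (a - b) * (Z s b r - Z s a r)
      ≤ (35 : ℝ) ^ (-(3 / 2) : ℝ) * (a * b * (Real.sqrt a - Real.sqrt b) ^ 2) := by
  have hZ0 : Z s 0 r = 0 := by
    unfold Z
    simp
  rcases eq_or_lt_of_le ha with ha0 | ha0
  · subst ha0
    rw [hZ0]
    have := mul_nonneg hb (zs_nonneg (m := b) (r := r) hs)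
    simp only [zero_sub, sub_zero, zero_mul, mul_zero]
    linarith
  rcases eq_or_lt_of_le hb with hb0 | hb0
  · subst hb0
    rw [hZ0]
    have := mul_nonneg ha (zs_nonneg (m := a) (r := r) hs)
    simp only [zero_sub, sub_zero, mul_zero, zero_mul]
    linarith
  rcases lt_trichotomy a b with h | h | h
  · have := z3_ord hs ha0 h hr
    calc (a - b) * (Z s b r - Z s a r) = (b - a) * (Z s a r - Z s b r) := by ring
      _ ≤ _ := this
      _ = _ := by ring
  · subst h; simp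
  · exact z3_ord hs hb0 h hr

end Pool.Agent.H75.LO
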