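import Pool.Agent.H75.LO.FinB3
import Pool.Agent.H75.LO.FinG
import Pool.Agent.H75.LO.FinC3
import Pool.Agent.H75.LO.Main2
import Pool.Agent.H75.LO.PLcG
import Pool.Agent.H75.LO.Zs3

/-!
# LO3-Main3: the bound with constant `1.51`
-/

open MeasureTheory Set
open scoped ENNReal

namespace Pool.Agent.H75.LO

theorem ZB35 : ZB 35 := fun hs ha hb hr => Zs_bound35 hs ha hb hr

theorem PL35 : PL 0 35 := PL_zero_gen (by norm_num) ZB35

theorem PL35' (l : ℕ) : PL2 256 l 35 := PL2_gen (by norm_num) ZB35 (by norm_num) l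

theorem boundedLO_151 : BoundedLO (2 * (151 / 100)) := by
  intro Ω _ P _ N X hX ρ hρ hd E hE B hB hfin
  have h := bounded_gen (c := 256) (η := 35) (q := 608) (by norm_num) (by norm_num)
    (by norm_num) PL35 PL35' P X hX hρ hd hE hB hfin
  refine h.trans (add_le_add le_rfl (mul_le_mul' (ENNReal.ofReal_le_ofReal ?_) le_rfl))
  have h := const_bound3
  norm_num at h ⊢
  linarith

theorem qm_151 {q n : ℕ} {ψ : Wave q (n + 1)} (h : Admissible ψ) :
    -(151 / 100 : ℝ) * ∫ x, rho ψ x ^ (4 / 3 : ℝ) ≤ indirect ψ :=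
  qm_gen (by norm_num) boundedLO_151 h

end Pool.Agent.H75.LO
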