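import Pool.Agent.H75.LO.Defs

/-!
# LO-QDefs: `N`-electron states and the indirect Coulomb energy

`N = n+1` electrons, `q` spin states.
-/

open MeasureTheory Set
open scoped ENNReal

namespace Pool.Agent.H75.LO

/-- wave functions of `N` electrons with `q` spin states: `ψ(x_1,…,x_N;σ_1,…,σ_N)` -/
abbrev Wave (q N : ℕ) := (Fin N → E3) → (Fin N → Fin q) → ℂ

/-- antisymmetric, normalized, square integrable wave functions -/
structure IsState {q N : ℕ} (ψ : Wave q N) : Prop where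
  meas : ∀ σ, AEStronglyMeasurable (fun x => ψ x σ) volume
  /-- antisymmetry under exchange of `(x_i,σ_i)` and `(x_j,σ_j)` -/
  antisymm : ∀ i j : Fin N, i ≠ j → ∀ σ, ∀ᵐ x : Fin N → E3,
    ψ (x ∘ Equiv.swap i j) (σ ∘ Equiv.swap i j) = -ψ x σ
  sqInt : ∀ σ, Integrable (fun x => ‖ψ x σ‖ ^ 2) volume
  /-- `(ψ,ψ) = 1` -/
  norm : ∑ σ, ∫ x, ‖ψ x σ‖ ^ 2 = 1

/-- one-particle density `ρ_ψ(x) = N Σ_σ ∫ |ψ(x,x_2,…,x_N;σ)|² dx_2 … dx_N` -/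
noncomputable def rho {q n : ℕ} (ψ : Wave q (n + 1)) (x : E3) : ℝ :=
  ((n : ℝ) + 1) * ∑ σ, ∫ y : Fin n → E3, ‖ψ (Fin.cons x y) σ‖ ^ 2

/-- `Σ_{i<j} |x_i-x_j|⁻¹` -/
noncomputable def coulomb {N : ℕ} (x : Fin N → E3) : ℝ :=
  ∑ i, ∑ j ∈ Finset.Ioi i, ‖x i - x j‖⁻¹

/-- `(ψ, Σ_{i<j} |x_i-x_j|⁻¹ ψ)` -/
noncomputable def interaction {q N : ℕ} (ψ : Wave q N) : ℝ :=
  ∑ σ, ∫ x, coulomb x * ‖ψ x σ‖ ^ 2

/-- `D(ρ) = ½ ∬ ρ(x)ρ(y)|x-y|⁻¹ dx dy` -/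
noncomputable def directEnergy (ρ : E3 → ℝ) : ℝ :=
  (1 / 2) * ∫ p : E3 × E3, ρ p.1 * ρ p.2 * ‖p.1 - p.2‖⁻¹

/-- indirect Coulomb energy `I_ψ` -/
noncomputable def indirect {q n : ℕ} (ψ : Wave q (n + 1)) : ℝ :=
  interaction ψ - directEnergy (rho ψ)

/-- the states considered in the problem: all quantities in the inequality are finite -/
structure Admissible {q n : ℕ} (ψ : Wave q (n + 1)) : Prop where
  state : IsState ψ
  rho43 : Integrable (fun x => rho ψ x ^ (4 / 3 : ℝ)) volume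
  inter : ∀ σ, Integrable (fun x => coulomb x * ‖ψ x σ‖ ^ 2) volume
  direct : Integrable (fun p : E3 × E3 => rho ψ p.1 * rho ψ p.2 * ‖p.1 - p.2‖⁻¹) volume

/-- `N`-particle probability distribution `Σ_σ |ψ|²` -/
noncomputable def mu {q N : ℕ} (ψ : Wave q N) : Measure (Fin N → E3) :=
  volume.withDensity (fun x => ∑ σ, ENNReal.ofReal (‖ψ x σ‖ ^ 2))

end Pool.Agent.H75.LO
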