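import Pool.Agent.H75.LO.QDefs

/-!
# LO-QMa: marginals of `Σ_σ |ψ|²`

`P(x) = Σ_σ |ψ(x,σ)|²` is a.e. symmetric (reindex the sum over `σ` by `σ ∘ swap i j`), so
`∫ f(x_i) P = ∫ f(x_0) P` (`swap 0 i` preserves the volume on `Fin (n+1) → E3`:
`volume_measurePreserving_piCongrLeft` or `measurePreserving_piCongrLeft`), and by Tonelli
(`volume_preserving_piFinSuccAbove` / `MeasurableEquiv.piFinSuccAbove _ 0`, `Fin.cons`)
`∫ f(x_0) P = ∫ f(x) ∫ P(cons x y) dy dx`. The real integral in `rho` equals the `lintegral` for a.e. `x`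
because `P` is integrable. Use measurable modifications of `ψ(·,σ)` (or of `‖ψ(·,σ)‖²`) where needed.
-/

open MeasureTheory Set
open scoped ENNReal

namespace Pool.Agent.H75.LO

/-- the density of `mu` -/
noncomputable def dens {q N : ℕ} (ψ : Wave q N) (x : Fin N → E3) : ℝ≥0∞ :=
  ∑ σ, ENNReal.ofReal (‖ψ x σ‖ ^ 2)

theorem mu_eq {q N : ℕ} (ψ : Wave q N) : mu ψ = volume.withDensity (dens ψ) := rfl

theorem aem_term {q N : ℕ} {ψ : Wave q N} (h : IsState ψ) (σ : Fin N → Fin q) :
    AEMeasurable (fun x => ENNReal.ofReal (‖ψ x σ‖ ^ 2)) volume := by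
  have h1 : AEMeasurable (fun x => ‖ψ x σ‖ ^ 2) volume := (h.sqInt σ).aestronglyMeasurable.aemeasurable
  exact h1.ennreal_ofReal

theorem aem_dens {q N : ℕ} {ψ : Wave q N} (h : IsState ψ) : AEMeasurable (dens ψ) volume := by
  unfold dens
  exact Finset.aemeasurable_fun_sum _ fun σ _ => aem_term h σ

theorem lintegral_mu {q N : ℕ} {ψ : Wave q N} (h : IsState ψ) (f : (Fin N → E3) → ℝ≥0∞)
    (hf : Measurable f) : ∫⁻ x, f x ∂(mu ψ) = ∫⁻ x, dens ψ x * f x := by
  rw [mu_eq, lintegral_withDensity_eq_lintegral_mul₀ (aem_dens h) hf.aemeasurable]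
  rfl

theorem mu_prob {q N : ℕ} {ψ : Wave q N} (h : IsState ψ) : IsProbabilityMeasure (mu ψ) := by
  constructor
  have h1 := lintegral_mu h (fun _ => 1) measurable_const
  rw [lintegral_one] at h1
  rw [h1]
  simp only [mul_one]
  unfold dens
  rw [lintegral_finsetSum' _ fun σ _ => aem_term h σ]
  have h2 : ∀ σ, ∫⁻ x, ENNReal.ofReal (‖ψ x σ‖ ^ 2) = ENNReal.ofReal (∫ x, ‖ψ x σ‖ ^ 2) := by
    intro σ
    exact (ofReal_integral_eq_lintegral_ofReal (h.sqInt σ)
      (Filter.Eventually.of_forall fun x => by positivity)).symm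
  simp only [h2]
  rw [← ENNReal.ofReal_sum_of_nonneg fun σ _ => integral_nonneg fun x => by positivity, h.norm,
    ENNReal.ofReal_one]

theorem rho_nonneg {q n : ℕ} (ψ : Wave q (n + 1)) (x : E3) : 0 ≤ rho ψ x := by
  unfold rho
  have h1 : 0 ≤ ∑ σ, ∫ y : Fin n → E3, ‖ψ (Fin.cons x y) σ‖ ^ 2 :=
    Finset.sum_nonneg fun σ _ => integral_nonneg fun y => by positivity
  positivity

/-- permutation of the coordinates as a measurable equivalence -/
noncomputable def permE {N : ℕ} (e : Equiv.Perm (Fin N)) : (Fin N → E3) ≃ᵐ (Fin N → E3) :=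
  MeasurableEquiv.piCongrLeft (fun _ : Fin N => E3) e

theorem permE_apply {N : ℕ} (e : Equiv.Perm (Fin N)) (x : Fin N → E3) (i : Fin N) :
    permE e x (e i) = x i := by
  unfold permE
  exact MeasurableEquiv.piCongrLeft_apply_apply (β := fun _ : Fin N => E3) e x i

theorem permE_eq {N : ℕ} (i j : Fin N) (x : Fin N → E3) :
    permE (Equiv.swap i j) x = x ∘ Equiv.swap i j := by
  funext k
  have h := permE_apply (Equiv.swap i j) x (Equiv.swap i j k)
  rw [Equiv.swap_apply_self] at h
  exact h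

theorem permE_mp {N : ℕ} (e : Equiv.Perm (Fin N)) :
    MeasurePreserving (permE e) volume volume :=
  volume_measurePreserving_piCongrLeft (fun _ : Fin N => E3) e

theorem dens_symm {q N : ℕ} {ψ : Wave q N} (h : IsState ψ) (i j : Fin N) :
    ∀ᵐ x : Fin N → E3, dens ψ (x ∘ Equiv.swap i j) = dens ψ x := by
  rcases eq_or_ne i j with rfl | hij
  · refine Filter.Eventually.of_forall fun x => ?_
    rw [Equiv.swap_self]
    rfl
  · have h1 : ∀ᵐ x : Fin N → E3, ∀ σ, ψ (x ∘ Equiv.swap i j) (σ ∘ Equiv.swap i j) = -ψ x σ := by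
      rw [ae_all_iff]
      exact h.antisymm i j hij
    filter_upwards [h1] with x hx
    unfold dens
    let e : (Fin N → Fin q) ≃ (Fin N → Fin q) :=
      { toFun := fun σ => σ ∘ Equiv.swap i j
        invFun := fun σ => σ ∘ Equiv.swap i j
        left_inv := fun σ => by
          funext k
          simp
        right_inv := fun σ => by
          funext k
          simp }
    rw [← Equiv.sum_comp e]
    refine Finset.sum_congr rfl fun σ _ => ?_
    have h2 := hx σ
    show ENNReal.ofReal (‖ψ (x ∘ Equiv.swap i j) (σ ∘ Equiv.swap i j)‖ ^ 2) = _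
    rw [h2, norm_neg]

theorem lint_swap {q n : ℕ} {ψ : Wave q (n + 1)} (h : IsState ψ) (f : E3 → ℝ≥0∞) (i : Fin (n + 1)) :
    ∫⁻ x : Fin (n + 1) → E3, dens ψ x * f (x i) = ∫⁻ x : Fin (n + 1) → E3, dens ψ x * f (x 0) := by
  have h1 : ∫⁻ x : Fin (n + 1) → E3, dens ψ x * f (x i) =
      ∫⁻ x : Fin (n + 1) → E3, (fun z : Fin (n + 1) → E3 => dens ψ z * f (z 0))
        (permE (Equiv.swap 0 i) x) := by
    refine lintegral_congr_ae ?_
    filter_upwards [dens_symm h 0 i] with x hx
    show dens ψ x * f (x i) = dens ψ (permE (Equiv.swap 0 i) x) * f (permE (Equiv.swap 0 i) x 0)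
    have h2 : (x ∘ Equiv.swap 0 i) 0 = x i := by
      rw [Function.comp_apply, Equiv.swap_apply_left]
    rw [permE_eq, hx, h2]
  rw [h1]
  exact (permE_mp (Equiv.swap 0 i)).lintegral_comp_emb (permE (Equiv.swap 0 i)).measurableEmbedding
    (fun z : Fin (n + 1) → E3 => dens ψ z * f (z 0))

/-- splitting off the first coordinate -/
noncomputable def splitE (n : ℕ) : E3 × (Fin n → E3) ≃ᵐ (Fin (n + 1) → E3) :=
  (MeasurableEquiv.piFinSuccAbove (fun _ : Fin (n + 1) => E3) 0).symm

theorem splitE_apply (n : ℕ) (p : E3 × (Fin n → E3)) :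
    splitE n p = Fin.cons p.1 p.2 := by
  unfold splitE
  rw [MeasurableEquiv.piFinSuccAbove_symm_apply]
  exact Fin.insertNth_zero' (β := E3) p.1 p.2

theorem splitE_mp (n : ℕ) : MeasurePreserving (splitE n) (volume.prod volume) volume :=
  (volume_preserving_piFinSuccAbove (fun _ : Fin (n + 1) => E3) 0).symm _

theorem marginal {q n : ℕ} {ψ : Wave q (n + 1)} (h : IsState ψ) :
    ∃ ρ' : E3 → ℝ≥0∞, Measurable ρ' ∧
      (∀ᵐ x : E3, ρ' x = ENNReal.ofReal (rho ψ x)) ∧
      ∀ f : E3 → ℝ≥0∞, Measurable f →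
        ∑ i, ∫⁻ x, f (x i) ∂(mu ψ) = ∫⁻ x, f x * ρ' x := by
  have haem := aem_dens h
  obtain ⟨P, hP⟩ : ∃ P, P = haem.mk (dens ψ) := ⟨_, rfl⟩
  have hPm : Measurable P := by rw [hP]; exact haem.measurable_mk
  have hPae : dens ψ =ᵐ[volume] P := by rw [hP]; exact haem.ae_eq_mk
  have hQm : Measurable (fun p : E3 × (Fin n → E3) => P (splitE n p)) :=
    hPm.comp (splitE n).measurable
  refine ⟨fun a => ((n : ℝ≥0∞) + 1) * ∫⁻ y, P (splitE n (a, y)), ?_, ?_, ?_⟩
  · exact (Measurable.lintegral_prod_right' hQm).const_mul _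
  · -- almost everywhere equality
    have h1 : ∀ᵐ p : E3 × (Fin n → E3), dens ψ (splitE n p) = P (splitE n p) :=
      (splitE_mp n).quasiMeasurePreserving.ae hPae
    have h2 : ∀ᵐ a : E3, ∀ᵐ y : Fin n → E3, dens ψ (splitE n (a, y)) = P (splitE n (a, y)) :=
      Measure.ae_ae_of_ae_prod h1
    have h3 : ∀ σ, ∀ᵐ a : E3, Integrable (fun y : Fin n → E3 => ‖ψ (Fin.cons a y) σ‖ ^ 2) volume := by
      intro σ
      have h4 : Integrable (fun p : E3 × (Fin n → E3) => ‖ψ (splitE n p) σ‖ ^ 2)
          (volume.prod volume) :=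
        ((splitE_mp n).integrable_comp_emb (splitE n).measurableEmbedding).2 (h.sqInt σ)
      have h5 := h4.prod_right_ae
      filter_upwards [h5] with a ha
      refine ha.congr (Filter.Eventually.of_forall fun y => ?_)
      show ‖ψ (splitE n (a, y)) σ‖ ^ 2 = _
      rw [splitE_apply]
    have h3' : ∀ᵐ a : E3, ∀ σ,
        Integrable (fun y : Fin n → E3 => ‖ψ (Fin.cons a y) σ‖ ^ 2) volume := by
      rw [ae_all_iff]
      exact h3
    filter_upwards [h2, h3'] with a ha hi
    have h6 : ∫⁻ y, P (splitE n (a, y)) = ∫⁻ y, dens ψ (Fin.cons a y) := by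
      refine lintegral_congr_ae ?_
      filter_upwards [ha] with y hy
      rw [← hy, splitE_apply]
    have h7 : ∫⁻ y : Fin n → E3, dens ψ (Fin.cons a y) =
        ENNReal.ofReal (∑ σ, ∫ y : Fin n → E3, ‖ψ (Fin.cons a y) σ‖ ^ 2) := by
      unfold dens
      rw [lintegral_finsetSum' _ fun σ _ =>
        (hi σ).aestronglyMeasurable.aemeasurable.ennreal_ofReal]
      rw [ENNReal.ofReal_sum_of_nonneg fun σ _ => integral_nonneg fun y => by positivity]
      refine Finset.sum_congr rfl fun σ _ => ?_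
      exact (ofReal_integral_eq_lintegral_ofReal (hi σ)
        (Filter.Eventually.of_forall fun x => by positivity)).symm
    rw [h6, h7]
    unfold rho
    rw [ENNReal.ofReal_mul (by positivity)]
    congr 1
    rw [ENNReal.ofReal_add (Nat.cast_nonneg n) zero_le_one, ENNReal.ofReal_natCast,
      ENNReal.ofReal_one]
  · intro f hf
    have h1 : ∀ i : Fin (n + 1), ∫⁻ x, f (x i) ∂(mu ψ) =
        ∫⁻ x : Fin (n + 1) → E3, dens ψ x * f (x 0) := by
      intro i
      rw [lintegral_mu h (fun x => f (x i)) (hf.comp (measurable_pi_apply i))]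
      exact lint_swap h f i
    simp only [h1]
    rw [Finset.sum_const, Finset.card_univ, Fintype.card_fin, nsmul_eq_mul]
    have h2 : ∫⁻ x : Fin (n + 1) → E3, dens ψ x * f (x 0) =
        ∫⁻ a : E3, f a * ∫⁻ y, P (splitE n (a, y)) := by
      have h3 : ∫⁻ x : Fin (n + 1) → E3, dens ψ x * f (x 0) =
          ∫⁻ x : Fin (n + 1) → E3, P x * f (x 0) := by
        refine lintegral_congr_ae ?_
        filter_upwards [hPae] with x hx
        rw [hx]
      rw [h3, ← (splitE_mp n).lintegral_comp_emb (splitE n).measurableEmbedding,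
        lintegral_prod]
      · refine lintegral_congr fun a => ?_
        rw [← lintegral_const_mul]
        · refine lintegral_congr fun y => ?_
          rw [mul_comm]
          congr 2
        · exact hQm.comp measurable_prodMk_left
      · refine Measurable.aemeasurable ?_
        refine hQm.mul (hf.comp ?_)
        exact (measurable_pi_apply 0).comp (splitE n).measurable
    rw [h2, ← lintegral_const_mul]
    · refine lintegral_congr fun a => ?_
      push_cast
      ring
    · exact hf.mul (Measurable.lintegral_prod_right' hQm)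

end Pool.Agent.H75.LO
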