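import Pool.Agent.H75.LO.QMa
import Pool.Agent.H75.LO.Fin

/-!
# LO-QMb: the bound for `N`-electron states

Apply `process_bound` with `Ω = Fin (n+1) → E3`, `P = mu ψ`, `X i x = x i`, `ρ = ρ'` from `marginal`.
* left side `= ofReal (2 D(ρ_ψ))` (`Admissible.direct`, `ofReal_integral_eq_lintegral_ofReal`, product measure;
  `(ofReal ‖x-y‖)⁻¹ = ofReal ‖x-y‖⁻¹` off the diagonal, which is a null set of `E3 × E3`);
* `∫ Σ_i Σ_{j≠i} (ofReal ‖x_i-x_j‖)⁻¹ dμ = ofReal (2 · interaction ψ)` (`Admissible.inter`; the sets `x_i = x_j` are null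
  in `Fin (n+1) → E3`; `Σ_i Σ_{j≠i} = 2 Σ_i Σ_{j>i}`);
* `∫ ρ'^{4/3} = ofReal ∫ rho^{4/3}`.
So `2D ≤ 2·interaction + 2·1.54 ∫ρ^{4/3}` in `ℝ`.
-/

open MeasureTheory Set
open scoped ENNReal

namespace Pool.Agent.H75.LO

theorem qmb_sum_sym {N : ℕ} (a : Fin N → Fin N → ℝ) (ha : ∀ i j, a i j = a j i) :
    ∑ i, ∑ j ∈ Finset.univ.erase i, a i j = 2 * ∑ i, ∑ j ∈ Finset.Ioi i, a i j := by
  have h1 : ∀ i : Fin N, ∑ j ∈ Finset.univ.erase i, a i j =
      ∑ j ∈ Finset.Iio i, a i j + ∑ j ∈ Finset.Ioi i, a i j := by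
    intro i
    rw [← Finset.sum_union]
    · congr 1
      ext j
      simp only [Finset.mem_erase, Finset.mem_univ, and_true, Finset.mem_union, Finset.mem_Iio,
        Finset.mem_Ioi]
      exact ne_iff_lt_or_gt
    · rw [Finset.disjoint_left]
      intro j h1 h2
      exact absurd (Finset.mem_Iio.1 h1) (not_lt.2 (Finset.mem_Ioi.1 h2).le)
  simp only [h1]
  rw [Finset.sum_add_distrib, two_mul]
  congr 1
  rw [Finset.sum_comm' (t' := Finset.univ) (s' := fun j => Finset.Ioi j)]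
  · exact Finset.sum_congr rfl fun i _ => Finset.sum_congr rfl fun j _ => ha _ _
  · intro x y
    simp

theorem qmb_ae_ne {N : ℕ} (i j : Fin N) (hij : i ≠ j) :
    ∀ᵐ x : Fin N → E3, x i ≠ x j := by
  let S : Submodule ℝ (Fin N → E3) :=
    LinearMap.ker ((LinearMap.proj i : (Fin N → E3) →ₗ[ℝ] E3) - LinearMap.proj j)
  have hS : S ≠ ⊤ := by
    intro h
    obtain ⟨v, hv⟩ : ∃ v : E3, v ≠ 0 := exists_ne 0
    have hm : Function.update (0 : Fin N → E3) i v ∈ S := by rw [h]; exact Submodule.mem_top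
    rw [LinearMap.mem_ker] at hm
    simp only [LinearMap.sub_apply, LinearMap.proj_apply, Function.update_self] at hm
    rw [Function.update_of_ne (Ne.symm hij)] at hm
    simp at hm
    exact hv hm
  have h0 := Measure.addHaar_submodule (volume : Measure (Fin N → E3)) S hS
  rw [ae_iff]
  refine measure_mono_null ?_ h0
  intro x hx
  simp only [ne_eq, not_not, mem_setOf_eq] at hx
  show x ∈ S
  rw [LinearMap.mem_ker]
  simp [hx]

theorem qmb_coulomb_nonneg {N : ℕ} (x : Fin N → E3) : 0 ≤ coulomb x :=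
  Finset.sum_nonneg fun _ _ => Finset.sum_nonneg fun _ _ => inv_nonneg.2 (norm_nonneg _)

theorem qmb_pair {N : ℕ} : ∀ᵐ x : Fin N → E3,
    ∑ i, ∑ j ∈ Finset.univ.erase i, (ENNReal.ofReal ‖x i - x j‖)⁻¹ =
      ENNReal.ofReal (2 * coulomb x) := by
  have h : ∀ᵐ x : Fin N → E3, ∀ i j : Fin N, i ≠ j → x i ≠ x j := by
    rw [ae_all_iff]
    intro i
    rw [ae_all_iff]
    intro j
    by_cases hij : i = j
    · exact Filter.Eventually.of_forall fun x h => absurd hij h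
    · filter_upwards [qmb_ae_ne i j hij] with x hx _
      exact hx
  filter_upwards [h] with x hx
  unfold coulomb
  rw [← qmb_sum_sym (fun i j => ‖x i - x j‖⁻¹) (fun i j => by rw [norm_sub_rev])]
  rw [ENNReal.ofReal_sum_of_nonneg
    (fun i _ => Finset.sum_nonneg fun j _ => inv_nonneg.2 (norm_nonneg _))]
  refine Finset.sum_congr rfl fun i _ => ?_
  rw [ENNReal.ofReal_sum_of_nonneg (fun j _ => inv_nonneg.2 (norm_nonneg _))]
  refine Finset.sum_congr rfl fun j hj => ?_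
  have hne : x i ≠ x j := hx i j (Ne.symm (Finset.ne_of_mem_erase hj))
  rw [ENNReal.ofReal_inv_of_pos (norm_pos_iff.2 (sub_ne_zero.2 hne))]

theorem qmb_inter {q n : ℕ} {ψ : Wave q (n + 1)} (h : Admissible ψ) :
    ∫⁻ ω, ∑ i, ∑ j ∈ Finset.univ.erase i, (ENNReal.ofReal ‖ω i - ω j‖)⁻¹ ∂(mu ψ) =
      ENNReal.ofReal (2 * interaction ψ) := by
  have hdens : AEMeasurable (fun x : Fin (n + 1) → E3 => ∑ σ, ENNReal.ofReal (‖ψ x σ‖ ^ 2))
      volume := by
    refine Finset.aemeasurable_fun_sum _ fun σ _ => ?_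
    exact ENNReal.measurable_ofReal.comp_aemeasurable ((h.state.meas σ).norm.aemeasurable.pow_const 2)
  have hg : Measurable (fun ω : Fin (n + 1) → E3 =>
      ∑ i, ∑ j ∈ Finset.univ.erase i, (ENNReal.ofReal ‖ω i - ω j‖)⁻¹) := by
    refine Finset.measurable_fun_sum _ fun i _ => Finset.measurable_fun_sum _ fun j _ => ?_
    exact (ENNReal.measurable_ofReal.comp
      ((measurable_pi_apply i).sub (measurable_pi_apply j)).norm).inv
  unfold mu
  rw [lintegral_withDensity_eq_lintegral_mul₀ hdens hg.aemeasurable]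
  have hint : Integrable (fun x : Fin (n + 1) → E3 =>
      ∑ σ, 2 * (coulomb x * ‖ψ x σ‖ ^ 2)) volume :=
    integrable_finset_sum _ fun σ _ => (h.inter σ).const_mul 2
  have hnn : ∀ x : Fin (n + 1) → E3, 0 ≤ ∑ σ, 2 * (coulomb x * ‖ψ x σ‖ ^ 2) := fun x =>
    Finset.sum_nonneg fun σ _ => mul_nonneg (by norm_num)
      (mul_nonneg (qmb_coulomb_nonneg x) (sq_nonneg _))
  have h1 : 2 * interaction ψ = ∫ x : Fin (n + 1) → E3, ∑ σ, 2 * (coulomb x * ‖ψ x σ‖ ^ 2) := by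
    unfold interaction
    rw [integral_finset_sum _ fun σ _ => (h.inter σ).const_mul 2, Finset.mul_sum]
    exact Finset.sum_congr rfl fun σ _ => (integral_const_mul _ _).symm
  rw [h1, ofReal_integral_eq_lintegral_ofReal hint (Filter.Eventually.of_forall hnn)]
  refine lintegral_congr_ae ?_
  filter_upwards [qmb_pair (N := n + 1)] with x hx
  simp only [Pi.mul_apply]
  rw [hx, Finset.sum_mul, ENNReal.ofReal_sum_of_nonneg
    (fun σ _ => mul_nonneg (by norm_num) (mul_nonneg (qmb_coulomb_nonneg x) (sq_nonneg _)))]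
  refine Finset.sum_congr rfl fun σ _ => ?_
  rw [← ENNReal.ofReal_mul (sq_nonneg _)]
  congr 1
  ring

theorem qmb_direct {q n : ℕ} {ψ : Wave q (n + 1)} (h : Admissible ψ) {ρ' : E3 → ℝ≥0∞}
    (hρ : Measurable ρ') (hρ' : ∀ᵐ x : E3, ρ' x = ENNReal.ofReal (rho ψ x)) :
    ENNReal.ofReal (2 * directEnergy (rho ψ)) ≤
      ∫⁻ x, ∫⁻ y, ρ' x * ρ' y * (ENNReal.ofReal ‖x - y‖)⁻¹ := by
  have h1 : 2 * directEnergy (rho ψ) =
      ∫ p : E3 × E3, rho ψ p.1 * rho ψ p.2 * ‖p.1 - p.2‖⁻¹ := by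
    unfold directEnergy
    ring
  have hnn : ∀ p : E3 × E3, 0 ≤ rho ψ p.1 * rho ψ p.2 * ‖p.1 - p.2‖⁻¹ := fun p =>
    mul_nonneg (mul_nonneg (rho_nonneg ψ _) (rho_nonneg ψ _)) (inv_nonneg.2 (norm_nonneg _))
  rw [h1, ofReal_integral_eq_lintegral_ofReal h.direct (Filter.Eventually.of_forall hnn)]
  have hm : Measurable (fun p : E3 × E3 => ρ' p.1 * ρ' p.2 * (ENNReal.ofReal ‖p.1 - p.2‖)⁻¹) := by
    refine ((hρ.comp measurable_fst).mul (hρ.comp measurable_snd)).mul ?_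
    exact (ENNReal.measurable_ofReal.comp (measurable_fst.sub measurable_snd).norm).inv
  have h2 : ∫⁻ x, ∫⁻ y, ρ' x * ρ' y * (ENNReal.ofReal ‖x - y‖)⁻¹ =
      ∫⁻ p : E3 × E3, ρ' p.1 * ρ' p.2 * (ENNReal.ofReal ‖p.1 - p.2‖)⁻¹ := by
    rw [Measure.volume_eq_prod, lintegral_prod _ hm.aemeasurable]
  rw [h2]
  refine lintegral_mono_ae ?_
  have ha : ∀ᵐ p : E3 × E3, ρ' p.1 = ENNReal.ofReal (rho ψ p.1) := by
    rw [Measure.volume_eq_prod]
    exact Measure.quasiMeasurePreserving_fst.ae hρ'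
  have hb : ∀ᵐ p : E3 × E3, ρ' p.2 = ENNReal.ofReal (rho ψ p.2) := by
    rw [Measure.volume_eq_prod]
    exact Measure.quasiMeasurePreserving_snd.ae hρ'
  filter_upwards [ha, hb] with p h3 h4
  rw [h3, h4, ENNReal.ofReal_mul (mul_nonneg (rho_nonneg ψ _) (rho_nonneg ψ _)),
    ENNReal.ofReal_mul (rho_nonneg ψ _)]
  refine mul_le_mul_right ?_ _
  by_cases h5 : ‖p.1 - p.2‖ = 0
  · rw [h5]; simp
  · rw [ENNReal.ofReal_inv_of_pos (lt_of_le_of_ne (norm_nonneg _) (Ne.symm h5))]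

theorem qmb_43 {q n : ℕ} {ψ : Wave q (n + 1)} (h : Admissible ψ) {ρ' : E3 → ℝ≥0∞}
    (hρ' : ∀ᵐ x : E3, ρ' x = ENNReal.ofReal (rho ψ x)) :
    ∫⁻ x, ρ' x ^ (4 / 3 : ℝ) = ENNReal.ofReal (∫ x, rho ψ x ^ (4 / 3 : ℝ)) := by
  rw [ofReal_integral_eq_lintegral_ofReal h.rho43
    (Filter.Eventually.of_forall fun x => Real.rpow_nonneg (rho_nonneg ψ x) _)]
  refine lintegral_congr_ae ?_
  filter_upwards [hρ'] with x hx
  rw [hx, ENNReal.ofReal_rpow_of_nonneg (rho_nonneg ψ x) (by norm_num)]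

theorem qm_bound {q n : ℕ} {ψ : Wave q (n + 1)} (h : Admissible ψ) :
    -(154 / 100 : ℝ) * ∫ x, rho ψ x ^ (4 / 3 : ℝ) ≤ indirect ψ := by
  obtain ⟨ρ', hρm, hρ', hd⟩ := marginal h.state
  haveI := mu_prob h.state
  have h1 := process_bound (mu ψ) (fun (i : Fin (n + 1)) (x : Fin (n + 1) → E3) => x i)
    (fun i => measurable_pi_apply i) hρm hd
  rw [qmb_inter h, qmb_43 h hρ'] at h1
  have h2 := (qmb_direct h hρm hρ').trans h1
  have h43 : 0 ≤ ∫ x, rho ψ x ^ (4 / 3 : ℝ) :=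
    integral_nonneg fun x => Real.rpow_nonneg (rho_nonneg ψ x) _
  have hI : 0 ≤ interaction ψ := by
    unfold interaction
    exact Finset.sum_nonneg fun σ _ => integral_nonneg fun x =>
      mul_nonneg (qmb_coulomb_nonneg x) (sq_nonneg _)
  rw [← ENNReal.ofReal_mul (by norm_num), ← ENNReal.ofReal_add (by positivity)
    (mul_nonneg (by norm_num) h43)] at h2
  rw [ENNReal.ofReal_le_ofReal_iff (add_nonneg (by positivity) (mul_nonneg (by norm_num) h43))] at h2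
  unfold indirect
  linarith

end Pool.Agent.H75.LO
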