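import Pool.Agent.H75.LO.GauD

/-!
# LO-ResA: the Neumann series `R Λ ε v`: first properties

Notation: `b = ε+Λ > 0`, `g = gk 0 b`, `U = Λ - v ≥ 0`, `R = Σ_n (gU)^n g` (with `it`).

* measurability: termwise;
* `R_eq : R = g + (g U) R` — shift the series;
* `R_eq' : R = g + (R U) g` — from `it_comp`: `it A (n+1) g = it A n (comp A g)`, `comp A g = comp (mulV g U) g`
  and `(it A n g) U g = it A n (g U g)`;
* symmetry: each term is symmetric (`it_mulV_symm`);
* `RS_succ : RS (N+1) = g + (g U) (RS N)`, `R = ⨆ N, RS N`;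
* `R ≤ gk 0 ε`: by induction `RS N ≤ gk 0 ε`:
  `RS (N+1) = g + gU(RS N) ≤ g + Λ g∘(gk 0 ε) = gk 0 ε` (`gk_resolvent'`);
* row sums (for `ε = 0`): by induction `∫ RS N x z * v z ≤ 1`:
  `∫ g v + ∫ g(x,w) U(w) (∫ RS N w z v z) ≤ ∫ g (v + U) = Λ ∫ g = 1`.
-/

open MeasureTheory Set
open scoped ENNReal

namespace Pool.Agent.H75.LO

variable {Λ ε : ℝ} {v : E3 → ℝ}

theorem Pot.measVf (hv : Pot Λ v) : Measurable (Vf v) := by
  exact hv.meas.ennreal_ofReal

theorem Pot.measU (hv : Pot Λ v) : Measurable (Vf fun z => Λ - v z) := by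
  exact (measurable_const.sub hv.meas).ennreal_ofReal

/-- `v + U = Λ` -/
theorem Pot.add (hv : Pot Λ v) : (Vf v + Vf fun z => Λ - v z) = fun _ => ENNReal.ofReal Λ := by
  funext z
  simp only [Pi.add_apply, Vf]
  rw [← ENNReal.ofReal_add (hv.nonneg z) (sub_nonneg.2 (hv.le z))]
  congr 1
  ring

theorem resa_T_meas (hv : Pot Λ v) :
    MKer (mulV (gk 0 (ε + Λ)) (Vf fun z => Λ - v z)) :=
  (gk_meas 0 _).mulV hv.measU

theorem resa_it_meas (hv : Pot Λ v) (n : ℕ) :
    MKer (it (mulV (gk 0 (ε + Λ)) (Vf fun z => Λ - v z)) n (gk 0 (ε + Λ))) :=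
  (resa_T_meas hv).it (gk_meas 0 _) n

theorem R_meas (hv : Pot Λ v) : MKer (R Λ ε v) := by
  unfold MKer R
  exact Measurable.tsum fun n => resa_it_meas hv n

theorem R_symm (hv : Pot Λ v) : SymK (R Λ ε v) := by
  intro x y
  unfold R
  refine tsum_congr fun n => ?_
  exact it_mulV_symm (gk_symm 0 _) (gk_meas 0 _) hv.measU n x y

theorem RS_zero : RS Λ ε v 0 = 0 := by
  funext x y
  simp [RS]

theorem RS_succ (hv : Pot Λ v) (N : ℕ) :
    RS Λ ε v (N + 1)
      = gk 0 (ε + Λ) + comp (mulV (gk 0 (ε + Λ)) (Vf fun z => Λ - v z)) (RS Λ ε v N) := by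
  funext x y
  set T := mulV (gk 0 (ε + Λ)) (Vf fun z => Λ - v z) with hT
  have h1 : comp T (RS Λ ε v N) x y =
      ∑ n ∈ Finset.range N, it T (n + 1) (gk 0 (ε + Λ)) x y := by
    unfold comp RS
    simp only [Finset.mul_sum]
    rw [lintegral_finsetSum]
    · refine Finset.sum_congr rfl fun n _ => ?_
      rw [it_succ]
      rfl
    · intro n _
      exact ((resa_T_meas hv).right x).mul ((resa_it_meas hv n).left y)
  simp only [Pi.add_apply]
  rw [h1]
  unfold RS
  rw [Finset.sum_range_succ', it_zero, add_comm]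

theorem RS_mono (N : ℕ) : RS Λ ε v N ≤ RS Λ ε v (N + 1) := by
  intro x y
  unfold RS
  rw [Finset.sum_range_succ]
  exact le_self_add

theorem R_eq_iSup (x y : E3) : R Λ ε v x y = ⨆ N, RS Λ ε v N x y := by
  unfold R RS
  exact ENNReal.tsum_eq_iSup_nat

theorem R_eq (hv : Pot Λ v) :
    R Λ ε v = gk 0 (ε + Λ) + comp (mulV (gk 0 (ε + Λ)) (Vf fun z => Λ - v z)) (R Λ ε v) := by
  funext x y
  set T := mulV (gk 0 (ε + Λ)) (Vf fun z => Λ - v z) with hT
  have h1 : comp T (R Λ ε v) x y = ∑' n, it T (n + 1) (gk 0 (ε + Λ)) x y := by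
    unfold comp R
    simp only [← ENNReal.tsum_mul_left]
    rw [lintegral_tsum]
    · refine tsum_congr fun n => ?_
      rw [it_succ]
      rfl
    · intro n
      exact (((resa_T_meas hv).right x).mul ((resa_it_meas hv n).left y)).aemeasurable
  simp only [Pi.add_apply]
  rw [h1]
  unfold R
  rw [tsum_eq_zero_add' ENNReal.summable, it_zero]

theorem R_eq' (hv : Pot Λ v) :
    R Λ ε v = gk 0 (ε + Λ) + comp (mulV (R Λ ε v) (Vf fun z => Λ - v z)) (gk 0 (ε + Λ)) := by
  funext x y
  set T := mulV (gk 0 (ε + Λ)) (Vf fun z => Λ - v z) with hT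
  have h0 : ∀ n, mulV (it T n (gk 0 (ε + Λ))) (Vf fun z => Λ - v z) = it T n T := by
    intro n
    induction n with
    | zero => rw [it_zero, it_zero]
    | succ n ih =>
      rw [it_succ, mulV_comp (resa_T_meas hv) (resa_it_meas hv n) hv.measU, ih, ← it_succ]
  have h2 : ∀ n, comp (mulV (it T n (gk 0 (ε + Λ))) (Vf fun z => Λ - v z)) (gk 0 (ε + Λ)) =
      it T (n + 1) (gk 0 (ε + Λ)) := by
    intro n
    rw [h0, it_comp (resa_T_meas hv) (resa_T_meas hv) (gk_meas 0 _), it_succ']
  have h1 : comp (mulV (R Λ ε v) (Vf fun z => Λ - v z)) (gk 0 (ε + Λ)) x y =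
      ∑' n, it T (n + 1) (gk 0 (ε + Λ)) x y := by
    have h3 : ∀ n, it T (n + 1) (gk 0 (ε + Λ)) x y =
        ∫⁻ z, it T n (gk 0 (ε + Λ)) x z * Vf (fun z => Λ - v z) z * gk 0 (ε + Λ) z y := by
      intro n
      rw [← h2 n]
      rfl
    simp only [h3]
    rw [← lintegral_tsum]
    · unfold comp mulV R
      refine lintegral_congr fun z => ?_
      rw [ENNReal.tsum_mul_right, ENNReal.tsum_mul_right]
    · intro n
      exact ((((resa_it_meas hv n).right x).mul hv.measU).mul
        ((gk_meas 0 _).left y)).aemeasurable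
  simp only [Pi.add_apply]
  rw [h1]
  unfold R
  rw [tsum_eq_zero_add' ENNReal.summable, it_zero]

theorem R_le (hv : Pot Λ v) (hε : 0 ≤ ε) : R Λ ε v ≤ gk 0 ε := by
  have hT : mulV (gk 0 (ε + Λ)) (Vf fun z => Λ - v z) ≤
      mulV (gk 0 (ε + Λ)) (fun _ => ENNReal.ofReal Λ) := by
    intro x z
    unfold mulV Vf
    refine mul_le_mul_right (ENNReal.ofReal_le_ofReal ?_) _
    have := hv.nonneg z
    linarith
  have h1 : ∀ N, RS Λ ε v N ≤ gk 0 ε := by
    intro N
    induction N with
    | zero =>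
      rw [RS_zero]
      intro x y
      exact zero_le
    | succ N ih =>
      rw [RS_succ hv]
      have h2 := gk_resolvent' (a := ε) (b := ε + Λ) (by linarith [hv.pos])
      have h3 : ε + Λ - ε = Λ := by ring
      rw [h3, ← comp_mulV_const _ (gk_meas 0 _) (gk_meas 0 _)] at h2
      rw [h2]
      exact add_le_add le_rfl (comp_mono hT ih)
  intro x y
  rw [R_eq_iSup]
  exact iSup_le fun N => h1 N x y

theorem R_row (hv : Pot Λ v) (x : E3) : ∫⁻ z, R Λ 0 v x z * ENNReal.ofReal (v z) ≤ 1 := by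
  have hRSm : ∀ N, MKer (RS Λ 0 v N) := by
    intro N
    unfold MKer RS
    exact Finset.measurable_sum _ fun n _ => resa_it_meas hv n
  have hTm : MKer (mulV (gk 0 (0 + Λ)) (Vf fun z => Λ - v z)) := resa_T_meas hv
  have h1 : ∀ N x, ∫⁻ z, RS Λ 0 v N x z * ENNReal.ofReal (v z) ≤ 1 := by
    intro N
    induction N with
    | zero =>
      intro x
      rw [RS_zero]
      simp
    | succ N ih =>
      intro x
      rw [RS_succ hv]
      simp only [Pi.add_apply, add_mul]
      have hmv : Measurable (fun z => gk 0 (0 + Λ) x z * ENNReal.ofReal (v z)) :=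
        ((gk_meas 0 _).right x).mul hv.meas.ennreal_ofReal
      rw [lintegral_add_left hmv]
      have h2 : ∫⁻ z, comp (mulV (gk 0 (0 + Λ)) (Vf fun z => Λ - v z)) (RS Λ 0 v N) x z *
          ENNReal.ofReal (v z) =
          ∫⁻ w, mulV (gk 0 (0 + Λ)) (Vf fun z => Λ - v z) x w *
            ∫⁻ z, RS Λ 0 v N w z * ENNReal.ofReal (v z) := by
        unfold comp
        have h3 : ∀ z, (∫⁻ w, mulV (gk 0 (0 + Λ)) (Vf fun z => Λ - v z) x w * RS Λ 0 v N w z) *
            ENNReal.ofReal (v z) =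
            ∫⁻ w, mulV (gk 0 (0 + Λ)) (Vf fun z => Λ - v z) x w * RS Λ 0 v N w z *
              ENNReal.ofReal (v z) := by
          intro z
          rw [lintegral_mul_const]
          exact (hTm.right x).mul ((hRSm N).left z)
        simp only [h3]
        rw [lintegral_lintegral_swap]
        · refine lintegral_congr fun w => ?_
          rw [← lintegral_const_mul]
          · refine lintegral_congr fun z => ?_
            rw [mul_assoc]
          · exact ((hRSm N).right w).mul hv.meas.ennreal_ofReal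
        · refine Measurable.aemeasurable ?_
          refine (Measurable.mul ?_ ?_).mul ?_
          · exact (hTm.right x).comp measurable_snd
          · exact Measurable.comp (g := fun p : E3 × E3 => RS Λ 0 v N p.1 p.2) (hRSm N)
              (measurable_snd.prodMk measurable_fst)
          · exact hv.meas.ennreal_ofReal.comp measurable_fst
      rw [h2]
      have h4 : ∫⁻ w, mulV (gk 0 (0 + Λ)) (Vf fun z => Λ - v z) x w *
            ∫⁻ z, RS Λ 0 v N w z * ENNReal.ofReal (v z) ≤
          ∫⁻ w, gk 0 (0 + Λ) x w * Vf (fun z => Λ - v z) w := by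
        refine lintegral_mono fun w => ?_
        calc mulV (gk 0 (0 + Λ)) (Vf fun z => Λ - v z) x w *
            ∫⁻ z, RS Λ 0 v N w z * ENNReal.ofReal (v z)
            ≤ mulV (gk 0 (0 + Λ)) (Vf fun z => Λ - v z) x w * 1 := mul_le_mul_right (ih w) _
          _ = _ := by rw [mul_one]; rfl
      refine (add_le_add le_rfl h4).trans (le_of_eq ?_)
      rw [← lintegral_add_left hmv]
      have h5 : ∀ z, gk 0 (0 + Λ) x z * ENNReal.ofReal (v z) +
          gk 0 (0 + Λ) x z * Vf (fun z => Λ - v z) z = gk 0 (0 + Λ) x z * ENNReal.ofReal Λ := by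
        intro z
        rw [← mul_add]
        congr 1
        exact congrFun hv.add z
      simp only [h5]
      rw [lintegral_mul_const _ ((gk_meas 0 _).right x), gk_mass (by linarith [hv.pos]), zero_add]
      refine ENNReal.inv_mul_cancel ?_ ENNReal.ofReal_ne_top
      rw [Ne, ENNReal.ofReal_eq_zero, not_le]
      exact hv.pos
  have h6 : ∀ z, R Λ 0 v x z * ENNReal.ofReal (v z) =
      ⨆ N, RS Λ 0 v N x z * ENNReal.ofReal (v z) := by
    intro z
    rw [R_eq_iSup, ENNReal.iSup_mul]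
  simp only [h6]
  rw [lintegral_iSup]
  · exact iSup_le fun N => h1 N x
  · intro N
    exact ((hRSm N).right x).mul hv.meas.ennreal_ofReal
  · refine monotone_nat_of_le_succ fun N => ?_
    intro z
    exact mul_le_mul_left (RS_mono N x z) _

end Pool.Agent.H75.LO
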