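import Pool.Agent.H75.LO.ResA

/-!
# LO-ResB: the resolvent identity for `ε > 0`

`gk 0 ε = R + (gk 0 ε) v R` for `ε > 0`. Write `G = gk 0 ε`, `g = gk 0 (ε+Λ)`, `U = Λ - v`.
Then `G v R + G U R = Λ G∘R` (`comp_mulV_add`, `Pot.add`, `comp_mulV_const`), and with
`G = g + Λ G∘g` (`gk_resolvent`) and `gUR + g = R` (`R_eq`):
`G U R = gUR + Λ G∘(gUR)`, so `G U R + g + Λ G∘g = R + Λ G∘R`, i.e. `G U R + G = R + Λ G∘R = R + G v R + G U R`.
Cancel `(G U R)(x,y) ≤ Λ (G∘G)(x,y) = Λ gk 1 ε x y < ∞` (`R_le`, `gk_comp`, `gk_lt_top`).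
-/

open MeasureTheory Set
open scoped ENNReal

namespace Pool.Agent.H75.LO

variable {Λ ε : ℝ} {v : E3 → ℝ}

theorem R_resolvent_pos (hv : Pot Λ v) (hε : 0 < ε) :
    gk 0 ε = R Λ ε v + comp (mulV (gk 0 ε) (Vf v)) (R Λ ε v) := by
  set G : Ker := gk 0 ε with hG
  set g : Ker := gk 0 (ε + Λ) with hg
  set U : E3 → ℝ≥0∞ := Vf fun z => Λ - v z with hU
  set Rr : Ker := R Λ ε v with hR
  set L : ℝ≥0∞ := ENNReal.ofReal Λ with hL
  have mG : MKer G := gk_meas 0 ε
  have mg : MKer g := gk_meas 0 (ε + Λ)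
  have mU : Measurable U := hv.measU
  have mR : MKer Rr := R_meas hv
  have mgU : MKer (mulV g U) := mg.mulV mU
  have h1 : comp (mulV G (Vf v)) Rr + comp (mulV G U) Rr = L • comp G Rr := by
    rw [← comp_mulV_add mG mR hv.measVf, hU, hv.add, comp_mulV_const _ mG mR]
  have h2 : G = g + L • comp G g := by
    have h := gk_resolvent (a := ε) (b := ε + Λ) (by linarith [hv.pos])
    rw [show ε + Λ - ε = Λ by ring] at h
    exact h
  have h3 : Rr = g + comp (mulV g U) Rr := R_eq hv
  have h4 : comp (mulV G U) Rr = comp (mulV g U) Rr + L • comp G (comp (mulV g U) Rr) := by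
    have e1 : mulV G U = mulV g U + L • comp G (mulV g U) := by
      rw [← mulV_comp mG mg mU]
      funext x z
      have h := congrFun (congrFun h2 x) z
      simp only [Pi.add_apply, Pi.smul_apply, smul_eq_mul] at h
      simp only [mulV, Pi.add_apply, Pi.smul_apply, smul_eq_mul]
      rw [h]
      ring
    rw [e1, comp_add_left mgU mR, comp_smul_left _ (mG.comp mgU) mR, comp_assoc mG mgU mR]
  have h5 : comp (mulV G U) Rr + G
      = Rr + (comp (mulV G (Vf v)) Rr + comp (mulV G U) Rr) := by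
    have e2 : comp G Rr = comp G g + comp G (comp (mulV g U) Rr) := by
      conv_lhs => rw [h3]
      exact comp_add_right mG mg
    rw [h1, e2, h4]
    funext x y
    have q2 := congrFun (congrFun h2 x) y
    have q3 := congrFun (congrFun h3 x) y
    simp only [Pi.add_apply, Pi.smul_apply, smul_eq_mul] at q2 q3 ⊢
    rw [q2, q3]
    ring
  have h6 : ∀ x y, comp (mulV G U) Rr x y ≠ ∞ := by
    intro x y
    have a1 : comp (mulV G U) Rr x y ≤ L * comp G Rr x y := by
      have h := congrFun (congrFun h1 x) y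
      simp only [Pi.add_apply, Pi.smul_apply, smul_eq_mul] at h
      rw [← h]
      exact le_add_self
    have a2 : comp G Rr x y ≤ comp G G x y := comp_mono le_rfl (R_le hv hε.le) x y
    have a3 : comp G G x y < ∞ := by
      rw [hG, gk_comp]
      exact gk_lt_top (by norm_num) hε x y
    refine (lt_of_le_of_lt a1 ?_).ne
    exact ENNReal.mul_lt_top ENNReal.ofReal_lt_top (lt_of_le_of_lt a2 a3)
  funext x y
  have h := congrFun (congrFun h5 x) y
  simp only [Pi.add_apply] at h ⊢
  have h' : comp (mulV G U) Rr x y + G x y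
      = comp (mulV G U) Rr x y + (Rr x y + comp (mulV G (Vf v)) Rr x y) := by
    rw [h]
    ring
  exact (ENNReal.add_right_inj (h6 x y)).1 h'

end Pool.Agent.H75.LO
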