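import Pool.Agent.H75.LO.ResB

/-!
# LO-ResC: the limit `ε ↓ 0`

With `ε_n = 1/(n+1)`: each term `it (mulV g_{ε+Λ} U) k g_{ε+Λ}` increases to the one with `ε = 0`
(induction on `k`, monotone convergence, `gk_iSup`, `gk_anti`), so `R Λ ε_n v` increases to `R Λ 0 v`
(`tsum` of increasing sequences: `ENNReal.tsum_iSup_eq`-type or monotone convergence for the counting
measure), `comp (mulV (gk 0 ε_n) v) (R Λ ε_n v)` increases to `comp (mulV G0 v) (R Λ 0 v)`, and
`R_resolvent_pos` passes to the limit (`ENNReal.iSup_add_iSup_of_monotone`, `gk_iSup` with `b = 0`).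
-/

open MeasureTheory Set
open scoped ENNReal

namespace Pool.Agent.H75.LO

variable {Λ ε : ℝ} {v : E3 → ℝ}

theorem mulV_le_mulV {A A' : Ker} (V : E3 → ℝ≥0∞) (h : A ≤ A') : mulV A V ≤ mulV A' V :=
  fun x z => mul_le_mul_left (h x z) (V z)

/-- product of suprema of monotone sequences -/
theorem iSup_mul_iSup_mono {f g : ℕ → ℝ≥0∞} (hf : Monotone f) (hg : Monotone g) :
    (⨆ n, f n) * (⨆ n, g n) = ⨆ n, f n * g n := by
  refine le_antisymm ?_ (iSup_le fun n => mul_le_mul' (le_iSup f n) (le_iSup g n))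
  rw [ENNReal.iSup_mul]
  refine iSup_le fun n => ?_
  rw [ENNReal.mul_iSup]
  refine iSup_le fun m => ?_
  refine le_trans ?_ (le_iSup (fun k => f k * g k) (max n m))
  exact mul_le_mul' (hf (le_max_left n m)) (hg (le_max_right n m))

/-- monotone convergence for compositions -/
theorem comp_iSup {A B : ℕ → Ker} {A' B' : Ker} (V : E3 → ℝ≥0∞) (hV : Measurable V)
    (hA : ∀ n, MKer (A n)) (hB : ∀ n, MKer (B n)) (hAm : Monotone A) (hBm : Monotone B)
    (hA' : ∀ x y, ⨆ n, A n x y = A' x y) (hB' : ∀ x y, ⨆ n, B n x y = B' x y) (x y : E3) :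
    ⨆ n, comp (mulV (A n) V) (B n) x y = comp (mulV A' V) B' x y := by
  unfold comp mulV
  have hmeas : ∀ n, Measurable (fun z => A n x z * V z * B n z y) := fun n =>
    (((hA n).right x).mul hV).mul ((hB n).left y)
  have hmono : Monotone (fun (n : ℕ) (z : E3) => A n x z * V z * B n z y) := fun n m hnm z =>
    mul_le_mul' (mul_le_mul_left (hAm hnm x z) (V z)) (hBm hnm z y)
  rw [← lintegral_iSup hmeas hmono]
  refine lintegral_congr fun z => ?_
  rw [← hA' x z, ← hB' z y, ENNReal.iSup_mul, iSup_mul_iSup_mono]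
  · exact fun n m hnm => mul_le_mul_left (hAm hnm x z) (V z)
  · exact fun n m hnm => hBm hnm z y

/-- the sequence `ε_n` -/
theorem eps_anti {n m : ℕ} (h : n ≤ m) : 1 / ((m : ℝ) + 1) ≤ 1 / ((n : ℝ) + 1) := by
  have h1 : (n : ℝ) ≤ m := by exact_mod_cast h
  exact one_div_le_one_div_of_le (by positivity) (by linarith)

theorem gk_mono_eps (b : ℝ) : Monotone (fun n : ℕ => gk 0 (1 / ((n : ℝ) + 1) + b)) :=
  fun _ _ h => gk_anti (by linarith [eps_anti h]) 0

theorem it_anti (U : E3 → ℝ≥0∞) {g g' : Ker} (h : g' ≤ g) (k : ℕ) :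
    it (mulV g' U) k g' ≤ it (mulV g U) k g :=
  (it_mono_left (mulV_le_mulV U h) k).trans (it_mono h k)

theorem it_iSup (hv : Pot Λ v) (k : ℕ) (x y : E3) :
    ⨆ n : ℕ, it (mulV (gk 0 (1 / ((n : ℝ) + 1) + Λ)) (Vf fun z => Λ - v z)) k
      (gk 0 (1 / ((n : ℝ) + 1) + Λ)) x y =
    it (mulV (gk 0 (0 + Λ)) (Vf fun z => Λ - v z)) k (gk 0 (0 + Λ)) x y := by
  rw [zero_add]
  induction k generalizing x y with
  | zero =>
    simp only [it_zero]
    exact gk_iSup Λ x y
  | succ k ih =>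
    simp only [it_succ]
    exact comp_iSup _ hv.measU (fun n => gk_meas 0 _)
      (fun n => ((gk_meas 0 _).mulV hv.measU).it (gk_meas 0 _) k) (gk_mono_eps Λ)
      (fun n m h => it_anti _ (gk_mono_eps Λ h) k) (fun x y => gk_iSup Λ x y) ih x y

theorem R_anti (hv : Pot Λ v) {ε ε' : ℝ} (h : ε ≤ ε') : R Λ ε' v ≤ R Λ ε v := by
  have hg : gk 0 (ε' + Λ) ≤ gk 0 (ε + Λ) := gk_anti (by linarith) 0
  intro x y
  exact ENNReal.tsum_le_tsum fun k => it_anti _ hg k x y

theorem R_iSup (hv : Pot Λ v) (x y : E3) :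
    ⨆ n : ℕ, R Λ (1 / ((n : ℝ) + 1)) v x y = R Λ 0 v x y := by
  unfold R
  simp only [ENNReal.tsum_eq_iSup_nat]
  rw [iSup_comm]
  refine iSup_congr fun N => ?_
  rw [← ENNReal.finsetSum_iSup_of_monotone]
  · exact Finset.sum_congr rfl fun k _ => it_iSup hv k x y
  · exact fun k n m h => it_anti _ (gk_mono_eps Λ h) k x y

theorem R_resolvent (hv : Pot Λ v) :
    G0 = R Λ 0 v + comp (mulV G0 (Vf v)) (R Λ 0 v) := by
  have hRm : Monotone (fun n : ℕ => R Λ (1 / ((n : ℝ) + 1)) v) := fun n m h =>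
    R_anti hv (eps_anti h)
  have hGm : Monotone (fun n : ℕ => gk 0 (1 / ((n : ℝ) + 1))) := fun n m h =>
    gk_anti (eps_anti h) 0
  have hG : ∀ x y, ⨆ n : ℕ, gk 0 (1 / ((n : ℝ) + 1)) x y = G0 x y := by
    intro x y
    have h := gk_iSup 0 x y
    simp only [add_zero] at h
    exact h
  funext x y
  have h1 : ∀ n : ℕ, gk 0 (1 / ((n : ℝ) + 1)) x y = R Λ (1 / ((n : ℝ) + 1)) v x y +
      comp (mulV (gk 0 (1 / ((n : ℝ) + 1))) (Vf v)) (R Λ (1 / ((n : ℝ) + 1)) v) x y := by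
    intro n
    have h2 := R_resolvent_pos (ε := 1 / ((n : ℝ) + 1)) hv (by positivity)
    exact congrFun (congrFun h2 x) y
  rw [← hG x y]
  simp only [h1]
  rw [← ENNReal.iSup_add_iSup_of_monotone]
  · rw [R_iSup hv x y, comp_iSup (Vf v) hv.measVf (fun n => gk_meas 0 _) (fun n => R_meas hv)
      hGm hRm hG (fun x y => R_iSup hv x y) x y]
    rfl
  · exact fun n m h => hRm h x y
  · exact fun n m h => comp_mono (mulV_le_mulV _ (hGm h)) (hRm h) x y

end Pool.Agent.H75.LO
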