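import Pool.Agent.H75.LO.ResC

/-!
# LO-ResD: consequences of the resolvent identity

Write `R = R Λ 0 v`, `RV = R v`.

* `R_resolvent'`: `G0 = R + (R v) G0` — transpose `R_resolvent` (`comp_mulV_symm`, symmetry);
* `R_comm`: `G0 v R = R v G0` everywhere: off the diagonal cancel `R(x,y) ≤ G0(x,y) < ∞`; on the diagonal
  both sides agree by `comp_mulV_symm`;
* `R_gk`: for `0 < m ≤ Λ`: `g_m + m R∘g_m = R + (R v) g_m` everywhere. Proof: `g_m = g + (Λ-m) g∘g_m`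
  (`gk_resolvent'`, if `m < Λ`; trivial for `m = Λ`), `R = g + R U g` (`R_eq'`, `g = gk 0 Λ`); so
  `R U g_m + g_m = R + (Λ-m) R∘g_m`; add `R v g_m + m R∘g_m` to both sides, use
  `R v g_m + R U g_m = Λ R∘g_m` and cancel `Λ R∘g_m` and `(Λ-m) R∘g_m`-terms, finite by `R_le` and
  `G0_comp_lt_top`;
* `R_tel`: off the diagonal, from `R_resolvent'`, `G0 = g_m + m G0∘g_m` (`gk_resolvent`) and `R_gk`, cancelling
  `R(x,y) + g_m(x,y) ≤ 2 G0(x,y) < ∞`.
-/

open MeasureTheory Set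
open scoped ENNReal

namespace Pool.Agent.H75.LO

variable {Λ : ℝ} {v : E3 → ℝ}

theorem RV_meas (hv : Pot Λ v) : MKer (RV Λ v) :=
  (R_meas hv).mulV hv.measVf

theorem R_resolvent' (hv : Pot Λ v) : G0 = R Λ 0 v + comp (RV Λ v) G0 := by
  funext x y
  have h := congrFun (congrFun (R_resolvent hv) y) x
  have h1 : comp (mulV G0 (Vf v)) (R Λ 0 v) y x = comp (RV Λ v) G0 x y :=
    comp_mulV_symm (gk_symm 0 0) (R_symm hv) y x
  have h2 : G0 y x = G0 x y := gk_symm 0 0 y x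
  have h3 : R Λ 0 v y x = R Λ 0 v x y := R_symm hv y x
  rw [Pi.add_apply, Pi.add_apply, h1, h2, h3] at h
  rw [Pi.add_apply, Pi.add_apply]
  exact h

theorem resD_R_le (hv : Pot Λ v) (x y : E3) : R Λ 0 v x y ≤ G0 x y :=
  R_le hv le_rfl x y

theorem R_comm (hv : Pot Λ v) : comp (mulV G0 (Vf v)) (R Λ 0 v) = comp (RV Λ v) G0 := by
  funext x y
  by_cases hxy : x = y
  · subst hxy
    exact comp_mulV_symm (gk_symm 0 0) (R_symm hv) x x
  · have h1 := congrFun (congrFun (R_resolvent hv) x) y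
    have h2 := congrFun (congrFun (R_resolvent' hv) x) y
    rw [Pi.add_apply, Pi.add_apply] at h1 h2
    have h3 : R Λ 0 v x y ≠ ∞ := ((resD_R_le hv x y).trans_lt (G0_lt_top hxy)).ne
    exact (ENNReal.add_right_inj h3).1 (h1.symm.trans h2)

theorem R_gk (hv : Pot Λ v) {m : ℝ} (hm : 0 < m) (hmΛ : m ≤ Λ) :
    gk 0 m + ENNReal.ofReal m • comp (R Λ 0 v) (gk 0 m)
      = R Λ 0 v + comp (RV Λ v) (gk 0 m) := by
  have hR : MKer (R Λ 0 v) := R_meas hv
  have hRV : MKer (RV Λ v) := RV_meas hv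
  have hRU : MKer (mulV (R Λ 0 v) (Vf fun z => Λ - v z)) := hR.mulV hv.measU
  have hg : MKer (gk 0 Λ) := gk_meas 0 Λ
  have hgm : MKer (gk 0 m) := gk_meas 0 m
  set c : ℝ≥0∞ := ENNReal.ofReal (Λ - m) with hc
  set s : ℝ≥0∞ := ENNReal.ofReal m with hs
  have hcs : ENNReal.ofReal Λ = c + s := by
    rw [hc, hs, ← ENNReal.ofReal_add (by linarith) hm.le]
    congr 1
    ring
  -- the resolvent equation of the free kernels
  have hres : gk 0 m = gk 0 Λ + c • comp (gk 0 Λ) (gk 0 m) := by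
    rcases hmΛ.lt_or_eq with h | h
    · exact gk_resolvent' h
    · rw [hc, h, sub_self, ENNReal.ofReal_zero, zero_smul, add_zero]
  -- the Neumann equation
  have hN : R Λ 0 v = gk 0 Λ + comp (mulV (R Λ 0 v) (Vf fun z => Λ - v z)) (gk 0 Λ) := by
    have h := R_eq' (Λ := Λ) (ε := 0) hv
    rw [zero_add] at h
    exact h
  -- `R U g_m + g_m = R + c R g_m`
  have h1 : comp (mulV (R Λ 0 v) (Vf fun z => Λ - v z)) (gk 0 m) + gk 0 m
      = R Λ 0 v + c • comp (R Λ 0 v) (gk 0 m) := by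
    have e1 : comp (mulV (R Λ 0 v) (Vf fun z => Λ - v z)) (gk 0 m)
        = comp (mulV (R Λ 0 v) (Vf fun z => Λ - v z)) (gk 0 Λ)
          + c • comp (comp (mulV (R Λ 0 v) (Vf fun z => Λ - v z)) (gk 0 Λ)) (gk 0 m) := by
      conv_lhs => rw [hres]
      rw [comp_add_right hRU hg, comp_smul_right _ hRU (hg.comp hgm), comp_assoc hRU hg hgm]
    have e2 : comp (R Λ 0 v) (gk 0 m)
        = comp (gk 0 Λ) (gk 0 m)
          + comp (comp (mulV (R Λ 0 v) (Vf fun z => Λ - v z)) (gk 0 Λ)) (gk 0 m) := by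
      conv_lhs => rw [hN]
      rw [comp_add_left hg hgm]
    rw [e2, smul_add]
    funext x y
    have f1 := congrFun (congrFun e1 x) y
    have f2 := congrFun (congrFun hres x) y
    have f3 := congrFun (congrFun hN x) y
    simp only [Pi.add_apply] at f1 f2 f3 ⊢
    rw [f1, f2, f3]
    ring
  -- `R V g_m + R U g_m = Λ R g_m`
  have h2 : comp (RV Λ v) (gk 0 m) + comp (mulV (R Λ 0 v) (Vf fun z => Λ - v z)) (gk 0 m)
      = ENNReal.ofReal Λ • comp (R Λ 0 v) (gk 0 m) := by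
    rw [← comp_mulV_const _ hR hgm, ← hv.add, comp_mulV_add hR hgm hv.measVf]
    rfl
  funext x y
  have f1 := congrFun (congrFun h1 x) y
  have f2 := congrFun (congrFun h2 x) y
  rw [hcs, add_smul] at f2
  simp only [Pi.add_apply] at f1 f2 ⊢
  have hfin : (c • comp (R Λ 0 v) (gk 0 m)) x y ≠ ∞ := by
    have h3 : comp (R Λ 0 v) (gk 0 m) x y ≤ comp G0 (gk 0 m) x y :=
      comp_mono (fun x y => resD_R_le hv x y) le_rfl x y
    have h4 : comp (R Λ 0 v) (gk 0 m) x y < ∞ := h3.trans_lt (G0_comp_lt_top hm x y)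
    change c * comp (R Λ 0 v) (gk 0 m) x y ≠ ∞
    exact ENNReal.mul_ne_top ENNReal.ofReal_ne_top h4.ne
  refine (ENNReal.add_right_inj hfin).1 ?_
  calc (c • comp (R Λ 0 v) (gk 0 m)) x y
        + (gk 0 m x y + (s • comp (R Λ 0 v) (gk 0 m)) x y)
      = ((c • comp (R Λ 0 v) (gk 0 m)) x y + (s • comp (R Λ 0 v) (gk 0 m)) x y)
        + gk 0 m x y := by ring
    _ = comp (RV Λ v) (gk 0 m) x y
        + (comp (mulV (R Λ 0 v) (Vf fun z => Λ - v z)) (gk 0 m) x y + gk 0 m x y) := by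
        rw [← f2]
        ring
    _ = _ := by
        rw [f1]
        ring

theorem R_tel (hv : Pot Λ v) {m : ℝ} (hm : 0 < m) (hmΛ : m ≤ Λ) {x y : E3} (hxy : x ≠ y) :
    comp (RV Λ v) G0 x y + ENNReal.ofReal m * comp (R Λ 0 v) (gk 0 m) x y
      = ENNReal.ofReal m * comp G0 (gk 0 m) x y + comp (RV Λ v) (gk 0 m) x y := by
  have h1 := congrFun (congrFun (R_resolvent' hv) x) y
  have h2 : G0 x y = gk 0 m x y + ENNReal.ofReal m * comp G0 (gk 0 m) x y := by
    have h := congrFun (congrFun (gk_resolvent hm) x) y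
    rw [sub_zero] at h
    exact h
  have h3 : gk 0 m x y + ENNReal.ofReal m * comp (R Λ 0 v) (gk 0 m) x y
      = R Λ 0 v x y + comp (RV Λ v) (gk 0 m) x y :=
    congrFun (congrFun (R_gk hv hm hmΛ) x) y
  rw [Pi.add_apply, Pi.add_apply] at h1
  have hG := G0_lt_top hxy
  have hR' : R Λ 0 v x y ≠ ∞ := ((resD_R_le hv x y).trans_lt hG).ne
  have hg' : gk 0 m x y ≠ ∞ := ((gk_anti hm.le 0 x y).trans_lt hG).ne
  have hfin : R Λ 0 v x y + gk 0 m x y ≠ ∞ := ENNReal.add_ne_top.2 ⟨hR', hg'⟩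
  refine (ENNReal.add_right_inj hfin).1 ?_
  calc R Λ 0 v x y + gk 0 m x y
        + (comp (RV Λ v) G0 x y + ENNReal.ofReal m * comp (R Λ 0 v) (gk 0 m) x y)
      = (R Λ 0 v x y + comp (RV Λ v) G0 x y)
        + (gk 0 m x y + ENNReal.ofReal m * comp (R Λ 0 v) (gk 0 m) x y) := by ring
    _ = (gk 0 m x y + ENNReal.ofReal m * comp G0 (gk 0 m) x y)
        + (R Λ 0 v x y + comp (RV Λ v) (gk 0 m) x y) := by rw [← h1, h3, ← h2]
    _ = _ := by ring

end Pool.Agent.H75.LO
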