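import Pool.Agent.H75.LO.ResC

/-!
# LO2-ResG: the general resolvent identity `R_v + R_v v R_w = R_w + R_v w R_w`

`ε > 0`: `R_v = g + R_v U_v g` (`R_eq'`), `R_w = g + g U_w R_w` (`R_eq`), `g = gk 0 (ε+Λ)`. Then
`R_v U_v R_w = R_v U_v g + R_v U_v g U_w R_w`, so `R_v U_v R_w + (g + g U_w R_w) = (g + R_v U_v g) + (g + R_v U_v g) U_w R_w`,
i.e. `R_v U_v R_w + R_w = R_v + R_v U_w R_w`. Add `R_v v R_w + R_v w R_w` to both sides, use
`R_v U_v R_w + R_v v R_w = Λ R_v∘R_w = R_v U_w R_w + R_v w R_w` and cancel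
`Λ R_v∘R_w ≤ Λ gk 1 ε < ∞` (`R_le`, `gk_comp`, `gk_lt_top`).
`ε ↓ 0` with `ε_n = 1/(n+1)` as in ResC (`R_iSup`, `R_anti`, monotone convergence for `comp`).
-/

open MeasureTheory Set
open scoped ENNReal

namespace Pool.Agent.H75.LO

variable {Λ ε : ℝ} {v w : E3 → ℝ}

theorem R_general_pos (hv : Pot Λ v) (hw : Pot Λ w) (hε : 0 < ε) :
    R Λ ε v + comp (mulV (R Λ ε v) (Vf v)) (R Λ ε w)
      = R Λ ε w + comp (mulV (R Λ ε v) (Vf w)) (R Λ ε w) := by
  set g : Ker := gk 0 (ε + Λ) with hg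
  set Uv : E3 → ℝ≥0∞ := Vf fun z => Λ - v z with hUv
  set Uw : E3 → ℝ≥0∞ := Vf fun z => Λ - w z with hUw
  set Rv : Ker := R Λ ε v with hRv
  set Rw : Ker := R Λ ε w with hRw
  set L : ℝ≥0∞ := ENNReal.ofReal Λ with hL
  have mg : MKer g := gk_meas 0 (ε + Λ)
  have mUv : Measurable Uv := hv.measU
  have mUw : Measurable Uw := hw.measU
  have mRv : MKer Rv := R_meas hv
  have mRw : MKer Rw := R_meas hw
  have mgU : MKer (mulV g Uw) := mg.mulV mUw
  have mRU : MKer (mulV Rv Uv) := mRv.mulV mUv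
  have h1v : comp (mulV Rv (Vf v)) Rw + comp (mulV Rv Uv) Rw = L • comp Rv Rw := by
    rw [← comp_mulV_add mRv mRw hv.measVf, hUv, hv.add, comp_mulV_const _ mRv mRw]
  have h1w : comp (mulV Rv (Vf w)) Rw + comp (mulV Rv Uw) Rw = L • comp Rv Rw := by
    rw [← comp_mulV_add mRv mRw hw.measVf, hUw, hw.add, comp_mulV_const _ mRv mRw]
  have h2 : Rv = g + comp (mulV Rv Uv) g := R_eq' hv
  have h3 : Rw = g + comp (mulV g Uw) Rw := R_eq hw
  have h4 : comp (mulV Rv Uv) Rw =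
      comp (mulV Rv Uv) g + comp (mulV Rv Uv) (comp (mulV g Uw) Rw) := by
    conv_lhs => rw [h3]
    exact comp_add_right mRU mg
  have h5 : comp (mulV Rv Uw) Rw =
      comp (mulV g Uw) Rw + comp (mulV Rv Uv) (comp (mulV g Uw) Rw) := by
    have e1 : mulV Rv Uw = mulV g Uw + comp (mulV Rv Uv) (mulV g Uw) := by
      rw [← mulV_comp mRU mg mUw]
      funext x z
      have h := congrFun (congrFun h2 x) z
      simp only [Pi.add_apply] at h
      simp only [mulV, Pi.add_apply]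
      rw [← add_mul, ← h]
    rw [e1, comp_add_left mgU mRw, comp_assoc mRU mgU mRw]
  have h6 : comp (mulV Rv Uv) Rw + Rw = Rv + comp (mulV Rv Uw) Rw := by
    rw [h4, h5]
    funext x y
    have q2 := congrFun (congrFun h2 x) y
    have q3 := congrFun (congrFun h3 x) y
    simp only [Pi.add_apply] at q2 q3 ⊢
    rw [q3, q2]
    ring
  have hfin : ∀ x y, (L • comp Rv Rw) x y ≠ ∞ := by
    intro x y
    simp only [Pi.smul_apply, smul_eq_mul]
    have a2 : comp Rv Rw x y ≤ comp (gk 0 ε) (gk 0 ε) x y :=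
      comp_mono (R_le hv hε.le) (R_le hw hε.le) x y
    have a3 : comp (gk 0 ε) (gk 0 ε) x y < ∞ := by
      rw [gk_comp]
      exact gk_lt_top (by norm_num) hε x y
    exact (ENNReal.mul_lt_top ENNReal.ofReal_lt_top (lt_of_le_of_lt a2 a3)).ne
  funext x y
  have q6 := congrFun (congrFun h6 x) y
  have q1v := congrFun (congrFun h1v x) y
  have q1w := congrFun (congrFun h1w x) y
  have hf := hfin x y
  simp only [Pi.add_apply] at q6 q1v q1w ⊢
  have hBv : comp (mulV Rv Uv) Rw x y ≠ ∞ := by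
    refine ne_top_of_le_ne_top hf ?_
    rw [← q1v]
    exact le_add_self
  have hBw : comp (mulV Rv Uw) Rw x y ≠ ∞ := by
    refine ne_top_of_le_ne_top hf ?_
    rw [← q1w]
    exact le_add_self
  have hB : comp (mulV Rv Uv) Rw x y + comp (mulV Rv Uw) Rw x y ≠ ∞ :=
    ENNReal.add_ne_top.2 ⟨hBv, hBw⟩
  refine (ENNReal.add_right_inj hB).1 ?_
  calc comp (mulV Rv Uv) Rw x y + comp (mulV Rv Uw) Rw x y +
      (Rv x y + comp (mulV Rv (Vf v)) Rw x y)
      = (Rv x y + comp (mulV Rv Uw) Rw x y) +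
        (comp (mulV Rv (Vf v)) Rw x y + comp (mulV Rv Uv) Rw x y) := by ring
    _ = (comp (mulV Rv Uv) Rw x y + Rw x y) +
        (comp (mulV Rv (Vf w)) Rw x y + comp (mulV Rv Uw) Rw x y) := by
        rw [q6, q1v, q1w]
    _ = _ := by ring

theorem R_general (hv : Pot Λ v) (hw : Pot Λ w) :
    R Λ 0 v + comp (mulV (R Λ 0 v) (Vf v)) (R Λ 0 w)
      = R Λ 0 w + comp (mulV (R Λ 0 v) (Vf w)) (R Λ 0 w) := by
  have hmv : Monotone (fun n : ℕ => R Λ (1 / ((n : ℝ) + 1)) v) := fun n m h =>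
    R_anti hv (eps_anti h)
  have hmw : Monotone (fun n : ℕ => R Λ (1 / ((n : ℝ) + 1)) w) := fun n m h =>
    R_anti hw (eps_anti h)
  funext x y
  have h1 : ∀ n : ℕ, R Λ (1 / ((n : ℝ) + 1)) v x y +
      comp (mulV (R Λ (1 / ((n : ℝ) + 1)) v) (Vf v)) (R Λ (1 / ((n : ℝ) + 1)) w) x y =
      R Λ (1 / ((n : ℝ) + 1)) w x y +
      comp (mulV (R Λ (1 / ((n : ℝ) + 1)) v) (Vf w)) (R Λ (1 / ((n : ℝ) + 1)) w) x y := by
    intro n
    have h2 := R_general_pos (ε := 1 / ((n : ℝ) + 1)) hv hw (by positivity)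
    exact congrFun (congrFun h2 x) y
  rw [Pi.add_apply, Pi.add_apply, Pi.add_apply, Pi.add_apply, ← R_iSup hv x y, ← R_iSup hw x y,
    ← comp_iSup (Vf v) hv.measVf (fun n => R_meas hv) (fun n => R_meas hw) hmv hmw
      (fun x y => R_iSup hv x y) (fun x y => R_iSup hw x y) x y,
    ← comp_iSup (Vf w) hw.measVf (fun n => R_meas hv) (fun n => R_meas hw) hmv hmw
      (fun x y => R_iSup hv x y) (fun x y => R_iSup hw x y) x y,
    ENNReal.iSup_add_iSup_of_monotone, ENNReal.iSup_add_iSup_of_monotone]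
  · exact iSup_congr h1
  · exact fun n m h => hmw h x y
  · exact fun n m h => comp_mono (mulV_le_mulV _ (hmv h)) (hmw h) x y
  · exact fun n m h => hmv h x y
  · exact fun n m h => comp_mono (mulV_le_mulV _ (hmv h)) (hmw h) x y

end Pool.Agent.H75.LO
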