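import Pool.Agent.H75.LO.RJ

/-!
# LO-Tel: the diagonal identity

Fix `x` and `m = v x > 0` (so `m ≤ Λ`). Write `A_l := m^l gk l m`. For `0 ≤ j < k` put
`F_j := it (RV) j (m^(k-j) • comp G0 (gk (k-j-1) m))` and `F_k := it (RV) k G0`. Step: with `l = k-1-j`,
`F_{j+1}(x,x) + m (Rj j ∘ A_l)(x,x) = F_j(x,x) + (Rj j) v A_l (x,x)`.

* `l ≥ 1`: compose `R_tel` (off-diagonal, so a.e. in `z`) on the right with `m^l gk (l-1) m`, use
  `gk_comp'` (`gk 0 m ∘ gk (l-1) m = gk l m`): everywhere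
  `RV (m^l G0∘gk (l-1) m) + m R∘A_l = m^{l+1} G0∘gk l m + RV A_l`; apply `it RV j`
  (`it_add_right`, `it_comp`: `it RV j (comp R A_l) = comp (Rj j) A_l`,
  `it RV j (comp (RV) A_l) = comp (mulV (Rj j) v) A_l`).
* `l = 0`, `j = k-1 ≥ 1`: `R_tel` holds a.e. in the first variable for fixed second variable `x`; apply
  `it RV j`, which involves at least one integration.

Sum over `j < k`, cancel `F_1(x,x), …, F_{k-1}(x,x)`, finite by `F_j ≤ m^{k-j} G0∘gk (k-j-1) m` at `(x,x)`
(since `RV G0 ≤ G0`, `RV_G0_le`, `it_comp`) and `frozen'`; and `F_0(x,x) = alpha k √m` (`frozen'`).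
Finally `(Rj i ∘ A_l)(x,x) = ∫ Rj i x z · m^l gr l m ‖z-x‖`.
-/

open MeasureTheory Set
open scoped ENNReal

namespace Pool.Agent.H75.LO

variable {Λ : ℝ} {v : E3 → ℝ}

theorem tel_mulV_it (hv : Pot Λ v) (j : ℕ) :
    it (RV Λ v) j (RV Λ v) = mulV (Rj Λ v j) (Vf v) := by
  induction j with
  | zero => rw [it_zero, Rj_zero]; rfl
  | succ j ih =>
    rw [it_succ, ih, Rj_succ, mulV_comp (RV_meas hv) (Rj_meas hv j) hv.measVf]

theorem tel_ae (x : E3) : ∀ᵐ z : E3, z ≠ x := by
  rw [ae_iff]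
  simp

/-- composition on the right only sees the second variable almost everywhere -/
theorem tel_comp_congr_left {A B C : Ker} (h : ∀ x y, x ≠ y → A x y = B x y) :
    comp A C = comp B C := by
  funext x y
  unfold comp
  refine lintegral_congr_ae ?_
  filter_upwards [tel_ae x] with z hz
  rw [h x z hz.symm]

theorem tel_comp_congr_right {A B C : Ker} (h : ∀ x y, x ≠ y → B x y = C x y) :
    comp A B = comp A C := by
  funext x y
  unfold comp
  refine lintegral_congr_ae ?_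
  filter_upwards [tel_ae y] with z hz
  rw [h z y hz]

noncomputable def telA (l : ℕ) (m : ℝ) : Ker := ENNReal.ofReal (m ^ l) • gk l m

noncomputable def telB (l : ℕ) (m : ℝ) : Ker := ENNReal.ofReal (m ^ (l + 1)) • comp G0 (gk l m)

theorem telA_meas (l : ℕ) (m : ℝ) : MKer (telA l m) := (gk_meas l m).smul _

theorem tel_G0_meas : MKer G0 := gk_meas 0 0

theorem telB_meas (l : ℕ) (m : ℝ) : MKer (telB l m) := (tel_G0_meas.comp (gk_meas l m)).smul _

/-- the identity for `l ≥ 1` -/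
theorem tel_pos (hv : Pot Λ v) {m : ℝ} (hm : 0 < m) (hmΛ : m ≤ Λ) (l : ℕ) :
    comp (RV Λ v) (telB l m) + ENNReal.ofReal m • comp (R Λ 0 v) (telA (l + 1) m)
      = telB (l + 1) m + comp (RV Λ v) (telA (l + 1) m) := by
  have hR : MKer (R Λ 0 v) := R_meas hv
  have hRV : MKer (RV Λ v) := RV_meas hv
  have hg : MKer (gk 0 m) := gk_meas 0 m
  have hgl : MKer (gk l m) := gk_meas l m
  set c : ℝ≥0∞ := ENNReal.ofReal (m ^ (l + 1)) with hc
  have hC : MKer (c • gk l m) := hgl.smul c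
  have key : comp (comp (RV Λ v) G0 + ENNReal.ofReal m • comp (R Λ 0 v) (gk 0 m)) (c • gk l m)
      = comp (ENNReal.ofReal m • comp G0 (gk 0 m) + comp (RV Λ v) (gk 0 m)) (c • gk l m) := by
    refine tel_comp_congr_left (fun x y hxy => ?_)
    exact R_tel hv hm hmΛ hxy
  have h1 : comp (gk 0 m) (c • gk l m) = telA (l + 1) m := by
    rw [comp_smul_right c hg hgl, gk_comp']
    rfl
  have h2 : comp G0 (c • gk l m) = telB l m := by
    rw [comp_smul_right c tel_G0_meas hgl]
    rfl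
  rw [comp_add_left (hRV.comp tel_G0_meas) hC, comp_add_left ((tel_G0_meas.comp hg).smul _) hC,
    comp_smul_left _ (hR.comp hg) hC, comp_smul_left _ (tel_G0_meas.comp hg) hC,
    comp_assoc hRV tel_G0_meas hC, comp_assoc hR hg hC, comp_assoc tel_G0_meas hg hC,
    comp_assoc hRV hg hC, h1, h2] at key
  rw [key]
  congr 1
  unfold telA telB
  rw [comp_smul_right _ tel_G0_meas (gk_meas (l + 1) m), smul_smul,
    ← ENNReal.ofReal_mul hm.le, ← pow_succ']

theorem tel_stepP (hv : Pot Λ v) {m : ℝ} (hm : 0 < m) (hmΛ : m ≤ Λ) (j l : ℕ) :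
    it (RV Λ v) (j + 1) (telB l m) + ENNReal.ofReal m • comp (Rj Λ v j) (telA (l + 1) m)
      = it (RV Λ v) j (telB (l + 1) m)
        + comp (mulV (Rj Λ v j) (Vf v)) (telA (l + 1) m) := by
  have hR : MKer (R Λ 0 v) := R_meas hv
  have hRV : MKer (RV Λ v) := RV_meas hv
  have hA := telA_meas (l + 1) m
  have hB := telB_meas (l + 1) m
  have hB' := telB_meas l m
  have key := congrArg (it (RV Λ v) j) (tel_pos hv hm hmΛ l)
  rw [it_add_right hRV (hRV.comp hB'), it_add_right hRV hB,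
    it_smul_right _ hRV (hR.comp hA), ← it_succ', ← it_comp hRV hR hA, ← it_comp hRV hRV hA,
    tel_mulV_it hv] at key
  exact key

theorem tel_stepZ (hv : Pot Λ v) {m : ℝ} (hm : 0 < m) (hmΛ : m ≤ Λ) (j : ℕ) :
    it (RV Λ v) (j + 1 + 1) G0 + ENNReal.ofReal m • comp (Rj Λ v (j + 1)) (telA 0 m)
      = it (RV Λ v) (j + 1) (telB 0 m)
        + comp (mulV (Rj Λ v (j + 1)) (Vf v)) (telA 0 m) := by
  have hR : MKer (R Λ 0 v) := R_meas hv
  have hRV : MKer (RV Λ v) := RV_meas hv
  have hg : MKer (gk 0 m) := gk_meas 0 m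
  have hA0 : telA 0 m = gk 0 m := by
    unfold telA
    rw [pow_zero, ENNReal.ofReal_one, one_smul]
  have hB0 : telB 0 m = ENNReal.ofReal m • comp G0 (gk 0 m) := by
    unfold telB
    rw [zero_add, pow_one]
  have key : comp (RV Λ v) (comp (RV Λ v) G0 + ENNReal.ofReal m • comp (R Λ 0 v) (gk 0 m))
      = comp (RV Λ v) (ENNReal.ofReal m • comp G0 (gk 0 m) + comp (RV Λ v) (gk 0 m)) := by
    refine tel_comp_congr_right (fun x y hxy => ?_)
    exact R_tel hv hm hmΛ hxy
  have key2 := congrArg (it (RV Λ v) j) key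
  rw [← it_succ', ← it_succ', it_add_right hRV (hRV.comp tel_G0_meas),
    it_add_right hRV ((tel_G0_meas.comp hg).smul _), it_smul_right _ hRV (hR.comp hg), ← it_succ',
    ← it_comp hRV hR hg, ← it_comp hRV hRV hg, tel_mulV_it hv] at key2
  rw [hA0, hB0]
  exact key2

theorem tel (hv : Pot Λ v) {k : ℕ} (hk : 2 ≤ k) {x : E3} (hx : 0 < v x) :
    it (RV Λ v) k G0 x x
      + ∑ i ∈ Finset.range k, ∫⁻ z, Rj Λ v i x z * ENNReal.ofReal (v x)
          * (ENNReal.ofReal (v x ^ (k - 1 - i)) * gr (k - 1 - i) (v x) ‖x - z‖)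
    = ENNReal.ofReal (alpha k * Real.sqrt (v x))
      + ∑ i ∈ Finset.range k, ∫⁻ z, Rj Λ v i x z * ENNReal.ofReal (v z)
          * (ENNReal.ofReal (v x ^ (k - 1 - i)) * gr (k - 1 - i) (v x) ‖x - z‖) := by
  have hR : MKer (R Λ 0 v) := R_meas hv
  have hRV : MKer (RV Λ v) := RV_meas hv
  set m : ℝ := v x with hmdef
  have hmΛ : m ≤ Λ := hv.le x
  let F : ℕ → Ker := fun j => if j < k then it (RV Λ v) j (telB (k - 1 - j) m)
    else it (RV Λ v) j G0
  have hL : ∀ i, ∫⁻ z, Rj Λ v i x z * ENNReal.ofReal m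
      * (ENNReal.ofReal (m ^ (k - 1 - i)) * gr (k - 1 - i) m ‖x - z‖)
      = (ENNReal.ofReal m • comp (Rj Λ v i) (telA (k - 1 - i) m)) x x := by
    intro i
    rw [← comp_smul_left _ (Rj_meas hv i) (telA_meas _ _)]
    unfold comp
    refine lintegral_congr (fun z => ?_)
    rw [norm_sub_rev x z]
    change _ = (ENNReal.ofReal m * Rj Λ v i x z) *
      (ENNReal.ofReal (m ^ (k - 1 - i)) * gr (k - 1 - i) m ‖z - x‖)
    ring
  have hRr : ∀ i, ∫⁻ z, Rj Λ v i x z * ENNReal.ofReal (v z)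
      * (ENNReal.ofReal (m ^ (k - 1 - i)) * gr (k - 1 - i) m ‖x - z‖)
      = comp (mulV (Rj Λ v i) (Vf v)) (telA (k - 1 - i) m) x x := by
    intro i
    unfold comp
    refine lintegral_congr (fun z => ?_)
    rw [norm_sub_rev x z]
    rfl
  have hstep : ∀ j, j < k → F (j + 1) x x
      + (ENNReal.ofReal m • comp (Rj Λ v j) (telA (k - 1 - j) m)) x x
      = F j x x + comp (mulV (Rj Λ v j) (Vf v)) (telA (k - 1 - j) m) x x := by
    intro j hj
    by_cases hj' : j + 1 < k
    · obtain ⟨l, hl⟩ : ∃ l, k - 1 - j = l + 1 := ⟨k - 1 - j - 1, by omega⟩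
      have hl' : k - 1 - (j + 1) = l := by omega
      have e1 : F (j + 1) = it (RV Λ v) (j + 1) (telB l m) := by
        simp only [F, if_pos hj', hl']
      have e2 : F j = it (RV Λ v) j (telB (l + 1) m) := by
        simp only [F, if_pos hj, hl]
      rw [e1, e2, hl]
      exact congrFun (congrFun (tel_stepP hv hx hmΛ j l) x) x
    · obtain ⟨n, rfl⟩ : ∃ n, j = n + 1 := ⟨j - 1, by omega⟩
      have hl : k - 1 - (n + 1) = 0 := by omega
      have e1 : F (n + 1 + 1) = it (RV Λ v) (n + 1 + 1) G0 := by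
        simp only [F, if_neg hj']
      have e2 : F (n + 1) = it (RV Λ v) (n + 1) (telB 0 m) := by
        simp only [F, if_pos hj, hl]
      rw [e1, e2, hl]
      exact congrFun (congrFun (tel_stepZ hv hx hmΛ n) x) x
  have hind : ∀ n, n ≤ k → F n x x + ∑ i ∈ Finset.range n,
        (ENNReal.ofReal m • comp (Rj Λ v i) (telA (k - 1 - i) m)) x x
      = F 0 x x + ∑ i ∈ Finset.range n,
        comp (mulV (Rj Λ v i) (Vf v)) (telA (k - 1 - i) m) x x := by
    intro n
    induction n with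
    | zero => intro _; simp
    | succ n ih =>
      intro hn
      have ih' := ih (by omega)
      have hs := hstep n (by omega)
      rw [Finset.sum_range_succ, Finset.sum_range_succ]
      calc F (n + 1) x x + (∑ i ∈ Finset.range n,
            (ENNReal.ofReal m • comp (Rj Λ v i) (telA (k - 1 - i) m)) x x
            + (ENNReal.ofReal m • comp (Rj Λ v n) (telA (k - 1 - n) m)) x x)
          = (F (n + 1) x x + (ENNReal.ofReal m • comp (Rj Λ v n) (telA (k - 1 - n) m)) x x)
            + ∑ i ∈ Finset.range n,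
              (ENNReal.ofReal m • comp (Rj Λ v i) (telA (k - 1 - i) m)) x x := by ring
        _ = (F n x x + ∑ i ∈ Finset.range n,
              (ENNReal.ofReal m • comp (Rj Λ v i) (telA (k - 1 - i) m)) x x)
            + comp (mulV (Rj Λ v n) (Vf v)) (telA (k - 1 - n) m) x x := by rw [hs]; ring
        _ = _ := by rw [ih']; ring
  have h := hind k le_rfl
  have e0 : F 0 x x = ENNReal.ofReal (alpha k * Real.sqrt m) := by
    have h1 : F 0 = telB (k - 1) m := by
      simp only [F, if_pos (show 0 < k by omega), it_zero, Nat.sub_zero]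
    have h2 := frozen' (k - 1) hx x
    rw [show k - 1 + 1 = k by omega] at h2
    rw [h1, ← h2]
    unfold telB
    rw [show k - 1 + 1 = k by omega]
    rfl
  have ek : F k = it (RV Λ v) k G0 := by
    simp only [F, if_neg (lt_irrefl k)]
  rw [e0, ek] at h
  rw [Finset.sum_congr rfl (fun i _ => hL i), Finset.sum_congr rfl (fun i _ => hRr i)]
  exact h

end Pool.Agent.H75.LO
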