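import Pool.Agent.H75.LO.Main3

/-!
# MP_0d715d_mp: the indirect Coulomb energy bound holds with constant `1.51`

For all numbers `q` of spin states, all particle numbers `N = n+1` and all `N`-electron states `ψ`
(antisymmetric, normalized) for which the quantities involved are finite,
`I_ψ ≥ -1.51 ∫ ρ_ψ^{4/3}`.
-/

open MeasureTheory Pool.Agent.H75.LO

namespace Pool.Agent.H75.LO.Upper151

/-- `I_ψ ≥ -C ∫ ρ_ψ^{4/3}` with `C = 1.51`, for all `q`, all `N = n+1` and all admissible `ψ`. -/
theorem result (q n : ℕ) (ψ : Wave q (n + 1)) (h : Admissible ψ) :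
    -(151 / 100 : ℝ) * ∫ x, rho ψ x ^ (4 / 3 : ℝ) ≤ indirect ψ :=
  qm_151 h

end Pool.Agent.H75.LO.Upper151
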