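import Pool.Agent.H75.LO.Defs2
import Pool.Agent.H75.LO.Pr0
import Pool.Agent.H75.LO.Hc
import Pool.Agent.H75.LO.GauC

/-!
# LO2-Zs: the pointwise inequality for a shifted exponential time

`Z s m r = m² ∫_s^∞ e^{-(u-s)} (2πu)^{-3/2} e^{-m r²/(2u)} du`. Claim (`y = 29`): for all `s ≥ 0`, `a, b ≥ 0`, `r > 0`:
`(a-b)(Z s b r - Z s a r) ≤ 29^{-3/2} a b (√a-√b)²`. By symmetry `a > b > 0`.

**`s ≥ 1`**: integrate `hardcut` (with `s := r²/(2u)`): the left side is
`≤ 4e^{-3} ab(√a-√b)² ∫_s^∞ e^{-(u-s)} (2πu)^{-3/2} du`, and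
`∫_s^∞ e^{-(u-s)} (2πu)^{-3/2} du = ∫_0^∞ e^{-t} (2π(s+t))^{-3/2} dt ≤ (2π)^{-3/2} M`, `M = ∫_0^∞ e^{-t}(1+t)^{-3/2} dt = 0.48426…`
(`Zs_num : M ≤ 0.5`), while `29^{-3/2}/(4e^{-3}(2π)^{-3/2}) = 0.5064…`.

**`s ≤ 1`**: put `φ(u) = (2πu)^{-3/2}(b² e^{-b r²/2u} - a² e^{-a r²/2u})`; it is `≥ 0` for `u ≤ σ₀` and `≤ 0` for `u ≥ σ₀`,
`σ₀ = (a-b) r²/(4 ln(a/b))`. So `e^{-s}(Z s b - Z s a) = ∫_s^∞ e^{-u} φ(u) du` is `≤ 0` if `s ≥ σ₀` and
`≤ ∫_0^∞ e^{-u} φ = Z 0 b - Z 0 a` if `s ≤ σ₀`. By the closed form (`gr_zero`: `Z 0 m r = m^{3/2} e^{-√(2m) r}/(2πr)`, substitution `u = m t`)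
and `pr0`, `(a-b)(Z 0 b - Z 0 a) ≤ (0.0098/(√2π)) ab(√a-√b)²`, and `e · 0.0098/(√2π) = 0.0059960 ≤ 29^{-3/2} = 0.0064033`.
-/

open MeasureTheory Set
open scoped ENNReal

namespace Pool.Agent.H75.LO

/-! ### the closed form at `s = 0` -/

theorem zs_eq (s m r u : ℝ) (hm : 0 < m) :
    Real.exp (-(u - s)) * (2 * Real.pi * u) ^ (-(3 / 2) : ℝ) * Real.exp (-(m * r ^ 2 / (2 * u)))
      = Real.exp s * (u ^ 0 / ((0 : ℕ).factorial : ℝ) * Real.exp (-(1 * u))
        * heatR u (Real.sqrt m * r)) := by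
  unfold heatR
  rw [mul_pow, Real.sq_sqrt hm.le, show -(u - s) = s + -(1 * u) by ring, Real.exp_add]
  simp
  ring

theorem zs_int0 {m r : ℝ} (hm : 0 < m) (hr : 0 < r) :
    IntegrableOn (fun u : ℝ => u ^ 0 / ((0 : ℕ).factorial : ℝ) * Real.exp (-(1 * u))
        * heatR u (Real.sqrt m * r)) (Ioi 0) := by
  have hs : 0 < Real.sqrt m * r := mul_pos (Real.sqrt_pos.2 hm) hr
  have h := gr_zero (m := 1) one_pos hs
  unfold gr at h
  have hmeas : Measurable (fun u : ℝ => u ^ 0 / ((0 : ℕ).factorial : ℝ) * Real.exp (-(1 * u))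
        * heatR u (Real.sqrt m * r)) := by
    unfold heatR
    fun_prop
  unfold IntegrableOn
  rw [← lintegral_ofReal_ne_top_iff_integrable hmeas.aestronglyMeasurable, h]
  · exact ENNReal.ofReal_ne_top
  · filter_upwards [ae_restrict_mem measurableSet_Ioi] with u hu
    simp only [mem_Ioi] at hu
    unfold heatR
    simp only [Pi.zero_apply]
    positivity

/-- finiteness -/
theorem Z_integrable {s m r : ℝ} (hs : 0 ≤ s) (hm : 0 < m) (hr : 0 < r) :
    IntegrableOn (fun u : ℝ => Real.exp (-(u - s)) * (2 * Real.pi * u) ^ (-(3 / 2) : ℝ)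
      * Real.exp (-(m * r ^ 2 / (2 * u)))) (Ioi s) := by
  have h := ((zs_int0 hm hr).mono_set (Ioi_subset_Ioi hs)).const_mul (Real.exp s)
  refine h.congr (Filter.Eventually.of_forall fun u => ?_)
  simp only
  rw [zs_eq s m r u hm]

/-- closed form at `s = 0` -/
theorem Z_zero {m r : ℝ} (hm : 0 < m) (hr : 0 < r) :
    Z 0 m r = m ^ (3 / 2 : ℝ) * Real.exp (-(Real.sqrt (2 * m) * r)) / (2 * Real.pi * r) := by
  have hs : 0 < Real.sqrt m * r := mul_pos (Real.sqrt_pos.2 hm) hr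
  have hsm : 0 < Real.sqrt m := Real.sqrt_pos.2 hm
  have h := gr_zero (m := 1) one_pos hs
  unfold gr at h
  have hint := zs_int0 hm hr
  have hI : ∫ u in Ioi (0 : ℝ), (u ^ 0 / ((0 : ℕ).factorial : ℝ) * Real.exp (-(1 * u))
        * heatR u (Real.sqrt m * r)) = Real.exp (-(Real.sqrt (2 * 1) * (Real.sqrt m * r)))
          / (2 * Real.pi * (Real.sqrt m * r)) := by
    rw [integral_eq_lintegral_of_nonneg_ae _ hint.aestronglyMeasurable, h, ENNReal.toReal_ofReal]
    · positivity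
    · filter_upwards [ae_restrict_mem measurableSet_Ioi] with u hu
      simp only [mem_Ioi] at hu
      unfold heatR
      simp only [Pi.zero_apply]
      positivity
  unfold Z
  have h2 : ∫ u in Ioi (0 : ℝ), Real.exp (-(u - 0)) * (2 * Real.pi * u) ^ (-(3 / 2) : ℝ)
      * Real.exp (-(m * r ^ 2 / (2 * u)))
      = ∫ u in Ioi (0 : ℝ), (u ^ 0 / ((0 : ℕ).factorial : ℝ) * Real.exp (-(1 * u))
        * heatR u (Real.sqrt m * r)) := by
    refine integral_congr_ae (Filter.Eventually.of_forall fun u => ?_)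
    simp only
    rw [zs_eq 0 m r u hm, Real.exp_zero, one_mul]
  rw [h2, hI]
  have e1 : Real.sqrt (2 * 1) * (Real.sqrt m * r) = Real.sqrt (2 * m) * r := by
    rw [mul_one, Real.sqrt_mul (by norm_num)]
    ring
  have e2 : m ^ (3 / 2 : ℝ) = m * Real.sqrt m := by
    rw [show (3 / 2 : ℝ) = 1 + 1 / 2 by norm_num, Real.rpow_add hm, Real.rpow_one,
      ← Real.sqrt_eq_rpow]
  have e3 : Real.sqrt m ^ 2 = m := Real.sq_sqrt hm.le
  rw [e1, e2]
  have hpi := Real.pi_pos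
  rw [mul_div_assoc', div_eq_div_iff (by positivity) (by positivity)]
  have : m ^ 2 = m * Real.sqrt m ^ 2 := by rw [e3]; ring
  rw [this]
  ring

/-! ### the integral `M` -/

theorem zs_poly {y : ℝ} (hy : 1 ≤ y) :
    (8 * y ^ 3 + 96 * y ^ 2 + 246 * y + 48) / (y * (8 * y ^ 3 + 108 * y ^ 2 + 378 * y + 315))
      ≤ 1 / 2 := by
  have h0 : 0 < y * (8 * y ^ 3 + 108 * y ^ 2 + 378 * y + 315) := by positivity
  rw [div_le_iff₀ h0]
  have h1 : 0 ≤ (y - 1) * (y ^ 3 + 10 * y ^ 2) := by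
    apply mul_nonneg (by linarith) (by positivity)
  nlinarith [mul_nonneg (sub_nonneg.2 hy) (sub_nonneg.2 hy), pow_pos (lt_of_lt_of_le one_pos hy) 2,
    pow_pos (lt_of_lt_of_le one_pos hy) 3]

theorem zs_ineq {y : ℝ} (hy : 0 < y) :
    1 / y ≤ (8 * y ^ 3 + 96 * y ^ 2 + 246 * y + 48) / (y * (8 * y ^ 3 + 108 * y ^ 2 + 378 * y + 315))
      * (1 + 1 / (2 * y))
      - ((24 * y ^ 2 + 192 * y + 246) * (y * (8 * y ^ 3 + 108 * y ^ 2 + 378 * y + 315))
        - (8 * y ^ 3 + 96 * y ^ 2 + 246 * y + 48) * (32 * y ^ 3 + 324 * y ^ 2 + 756 * y + 315))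
        / (y * (8 * y ^ 3 + 108 * y ^ 2 + 378 * y + 315)) ^ 2 := by
  have h0 : 0 < 8 * y ^ 3 + 108 * y ^ 2 + 378 * y + 315 := by positivity
  rw [← sub_nonneg]
  have : (8 * y ^ 3 + 96 * y ^ 2 + 246 * y + 48) / (y * (8 * y ^ 3 + 108 * y ^ 2 + 378 * y + 315))
      * (1 + 1 / (2 * y))
      - ((24 * y ^ 2 + 192 * y + 246) * (y * (8 * y ^ 3 + 108 * y ^ 2 + 378 * y + 315))
        - (8 * y ^ 3 + 96 * y ^ 2 + 246 * y + 48) * (32 * y ^ 3 + 324 * y ^ 2 + 756 * y + 315))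
        / (y * (8 * y ^ 3 + 108 * y ^ 2 + 378 * y + 315)) ^ 2 - 1 / y
      = 22680 / (y * (8 * y ^ 3 + 108 * y ^ 2 + 378 * y + 315)) ^ 2 := by
    field_simp
    ring
  rw [this]
  positivity

/-- the comparison function -/
theorem zs_deriv (a c u : ℝ) (hu : 0 < u + c) :
    HasDerivAt (fun u => Real.exp (-(u - a)) * (u + c) ^ (-(1 / 2) : ℝ) *
      ((8 * (u + c) ^ 3 + 96 * (u + c) ^ 2 + 246 * (u + c) + 48) /
        ((u + c) * (8 * (u + c) ^ 3 + 108 * (u + c) ^ 2 + 378 * (u + c) + 315))))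
      (-(Real.exp (-(u - a)) * (u + c) ^ (-(1 / 2) : ℝ) *
      ((8 * (u + c) ^ 3 + 96 * (u + c) ^ 2 + 246 * (u + c) + 48) /
        ((u + c) * (8 * (u + c) ^ 3 + 108 * (u + c) ^ 2 + 378 * (u + c) + 315))
        * (1 + 1 / (2 * (u + c)))
      - ((24 * (u + c) ^ 2 + 192 * (u + c) + 246) *
          ((u + c) * (8 * (u + c) ^ 3 + 108 * (u + c) ^ 2 + 378 * (u + c) + 315))
        - (8 * (u + c) ^ 3 + 96 * (u + c) ^ 2 + 246 * (u + c) + 48) *
          (32 * (u + c) ^ 3 + 324 * (u + c) ^ 2 + 756 * (u + c) + 315))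
        / ((u + c) * (8 * (u + c) ^ 3 + 108 * (u + c) ^ 2 + 378 * (u + c) + 315)) ^ 2))) u := by
  have hy : HasDerivAt (fun u : ℝ => u + c) 1 u := (hasDerivAt_id u).add_const c
  have h1 : HasDerivAt (fun u : ℝ => Real.exp (-(u - a))) (Real.exp (-(u - a)) * (-1)) u := by
    have := ((hasDerivAt_id u).sub_const a).neg.exp
    simpa using this
  have h2 : HasDerivAt (fun u : ℝ => (u + c) ^ (-(1 / 2) : ℝ))
      (1 * (-(1 / 2)) * (u + c) ^ ((-(1 / 2) : ℝ) - 1)) u :=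
    hy.rpow_const (Or.inl hu.ne')
  have h3 : HasDerivAt (fun u : ℝ => 8 * (u + c) ^ 3 + 96 * (u + c) ^ 2 + 246 * (u + c) + 48)
      (24 * (u + c) ^ 2 + 192 * (u + c) + 246) u := by
    have := ((((hy.pow 3).const_mul 8).add ((hy.pow 2).const_mul 96)).add
      (hy.const_mul 246)).add_const 48
    refine this.congr_deriv ?_
    simp
    ring
  have h4 : HasDerivAt (fun u : ℝ => (u + c) * (8 * (u + c) ^ 3 + 108 * (u + c) ^ 2
      + 378 * (u + c) + 315)) (32 * (u + c) ^ 3 + 324 * (u + c) ^ 2 + 756 * (u + c) + 315) u := by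
    have := hy.mul ((((((hy.pow 3).const_mul 8).add ((hy.pow 2).const_mul 108)).add
      (hy.const_mul 378)).add_const 315))
    refine this.congr_deriv ?_
    simp
    ring
  have h0 : 0 < 8 * (u + c) ^ 3 + 108 * (u + c) ^ 2 + 378 * (u + c) + 315 := by positivity
  have h5 := (h1.mul h2).mul (h3.div h4 (mul_pos hu h0).ne')
  refine h5.congr_deriv ?_
  have e : (u + c) ^ ((-(1 / 2) : ℝ) - 1) = (u + c) ^ (-(1 / 2) : ℝ) / (u + c) := by
    rw [Real.rpow_sub hu, Real.rpow_one]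
  simp only [Pi.mul_apply, Pi.div_apply]
  rw [e]
  field_simp
  ring

theorem zs_M (a c : ℝ) (h1 : 1 ≤ a + c) :
    IntegrableOn (fun u => Real.exp (-(u - a)) * (u + c) ^ (-(3 / 2) : ℝ)) (Ioi a) ∧
    ∫ u in Ioi a, Real.exp (-(u - a)) * (u + c) ^ (-(3 / 2) : ℝ) ≤ 1 / 2 := by
  set H : ℝ → ℝ := fun u => Real.exp (-(u - a)) * (u + c) ^ (-(1 / 2) : ℝ) *
      ((8 * (u + c) ^ 3 + 96 * (u + c) ^ 2 + 246 * (u + c) + 48) /
        ((u + c) * (8 * (u + c) ^ 3 + 108 * (u + c) ^ 2 + 378 * (u + c) + 315))) with hH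
  set H' : ℝ → ℝ := fun u => -(Real.exp (-(u - a)) * (u + c) ^ (-(1 / 2) : ℝ) *
      ((8 * (u + c) ^ 3 + 96 * (u + c) ^ 2 + 246 * (u + c) + 48) /
        ((u + c) * (8 * (u + c) ^ 3 + 108 * (u + c) ^ 2 + 378 * (u + c) + 315))
        * (1 + 1 / (2 * (u + c)))
      - ((24 * (u + c) ^ 2 + 192 * (u + c) + 246) *
          ((u + c) * (8 * (u + c) ^ 3 + 108 * (u + c) ^ 2 + 378 * (u + c) + 315))
        - (8 * (u + c) ^ 3 + 96 * (u + c) ^ 2 + 246 * (u + c) + 48) *
          (32 * (u + c) ^ 3 + 324 * (u + c) ^ 2 + 756 * (u + c) + 315))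
        / ((u + c) * (8 * (u + c) ^ 3 + 108 * (u + c) ^ 2 + 378 * (u + c) + 315)) ^ 2)) with hH'
  have hder : ∀ x ∈ Ioi a, HasDerivAt H (H' x) x := by
    intro x hx
    simp only [mem_Ioi] at hx
    exact zs_deriv a c x (by linarith)
  have hdera : HasDerivAt H (H' a) a := zs_deriv a c a (by linarith)
  have hge : ∀ x ∈ Ioi a, Real.exp (-(x - a)) * (x + c) ^ (-(3 / 2) : ℝ) ≤ - H' x := by
    intro x hx
    simp only [mem_Ioi] at hx
    have hy : 0 < x + c := by linarith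
    have e : (x + c) ^ (-(3 / 2) : ℝ) = (x + c) ^ (-(1 / 2) : ℝ) * (1 / (x + c)) := by
      rw [show (-(3 / 2) : ℝ) = -(1 / 2) - 1 by norm_num, Real.rpow_sub hy, Real.rpow_one]
      ring
    rw [hH', e]
    simp only [neg_neg]
    rw [← mul_assoc]
    apply mul_le_mul_of_nonneg_left (zs_ineq hy)
    positivity
  have hneg : ∀ x ∈ Ioi a, H' x ≤ 0 := by
    intro x hx
    have := hge x hx
    simp only [mem_Ioi] at hx
    have hy : 0 < x + c := by linarith
    have h2 : 0 ≤ Real.exp (-(x - a)) * (x + c) ^ (-(3 / 2) : ℝ) := by positivity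
    linarith
  have hlim : Filter.Tendsto H Filter.atTop (nhds 0) := by
    have hb : Filter.Tendsto (fun u : ℝ => Real.exp (-(u - a)) * (1 / 2)) Filter.atTop
        (nhds (0 * (1 / 2))) := by
      refine Filter.Tendsto.mul_const _ ?_
      refine Real.tendsto_exp_atBot.comp ?_
      exact Filter.tendsto_neg_atTop_atBot.comp (Filter.tendsto_atTop_add_const_right _ (-a)
        Filter.tendsto_id)
    rw [zero_mul] at hb
    refine squeeze_zero' ?_ ?_ hb
    · filter_upwards [Filter.eventually_gt_atTop a] with u hu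
      have hy : 0 < u + c := by linarith
      rw [hH]
      positivity
    · filter_upwards [Filter.eventually_gt_atTop a] with u hu
      have hy : 1 ≤ u + c := by linarith
      have hz := zs_poly hy
      have hr : (u + c) ^ (-(1 / 2) : ℝ) ≤ 1 := Real.rpow_le_one_of_one_le_of_nonpos hy (by norm_num)
      rw [hH]
      simp only
      apply mul_le_mul _ hz (by positivity) (Real.exp_pos _).le
      calc Real.exp (-(u - a)) * (u + c) ^ (-(1 / 2) : ℝ) ≤ Real.exp (-(u - a)) * 1 :=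
            mul_le_mul_of_nonneg_left hr (Real.exp_pos _).le
        _ = _ := mul_one _
  have hintH := integrableOn_Ioi_deriv_of_nonpos hdera.continuousAt.continuousWithinAt hder hneg hlim
  have hvalH := integral_Ioi_of_hasDerivAt_of_nonpos hdera.continuousAt.continuousWithinAt hder hneg
    hlim
  have hmeas : Measurable (fun u : ℝ => Real.exp (-(u - a)) * (u + c) ^ (-(3 / 2) : ℝ)) := by
    fun_prop
  have hint : IntegrableOn (fun u => Real.exp (-(u - a)) * (u + c) ^ (-(3 / 2) : ℝ)) (Ioi a) := by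
    refine Integrable.mono' hintH.neg hmeas.aestronglyMeasurable ?_
    filter_upwards [ae_restrict_mem measurableSet_Ioi] with x hx
    have := hge x hx
    simp only [mem_Ioi] at hx
    have hy : 0 < x + c := by linarith
    rw [Real.norm_of_nonneg (by positivity)]
    exact this
  refine ⟨hint, ?_⟩
  calc ∫ u in Ioi a, Real.exp (-(u - a)) * (u + c) ^ (-(3 / 2) : ℝ)
      ≤ ∫ u in Ioi a, - H' u := setIntegral_mono_on hint hintH.neg measurableSet_Ioi hge
    _ = H a := by rw [integral_neg, hvalH]; ring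
    _ ≤ 1 / 2 := by
        have hz := zs_poly h1
        have hr : (a + c) ^ (-(1 / 2) : ℝ) ≤ 1 :=
          Real.rpow_le_one_of_one_le_of_nonpos h1 (by norm_num)
        have hy : 0 < a + c := by linarith
        rw [hH]
        simp only [sub_self, neg_zero, Real.exp_zero, one_mul]
        calc _ ≤ 1 * (1 / 2 : ℝ) := mul_le_mul hr hz (by positivity) (by norm_num)
          _ = 1 / 2 := one_mul _

/-- `M ≤ 1/2` (true value `0.48426…`) -/
theorem Zs_num :
    ∫ t in Ioi (0 : ℝ), Real.exp (-t) * (1 + t) ^ (-(3 / 2) : ℝ) ≤ 1 / 2 := by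
  have h := (zs_M 0 1 (by norm_num)).2
  refine le_trans (le_of_eq ?_) h
  refine integral_congr_ae (Filter.Eventually.of_forall fun u => ?_)
  simp only
  rw [sub_zero, add_comm 1 u]

/-! ### the pointwise inequality -/

theorem zs_nonneg {s m r : ℝ} (hs : 0 ≤ s) : 0 ≤ Z s m r := by
  unfold Z
  refine mul_nonneg (sq_nonneg _) (setIntegral_nonneg measurableSet_Ioi fun u hu => ?_)
  simp only [mem_Ioi] at hu
  have : 0 < u := by linarith
  positivity

theorem zs_sq {x : ℝ} (hx : 0 < x) : (x ^ (3 / 2 : ℝ)) ^ 2 = x ^ 3 := by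
  rw [← Real.rpow_natCast, ← Real.rpow_mul hx.le, ← Real.rpow_natCast]
  norm_num

theorem zs_num1 : 4 * Real.exp (-3) * (2 * Real.pi) ^ (-(3 / 2) : ℝ) * (1 / 2)
    ≤ (29 : ℝ) ^ (-(3 / 2) : ℝ) := by
  have hp : 0 < 2 * Real.pi := by positivity
  have h29 : (0 : ℝ) < 29 := by norm_num
  rw [Real.rpow_neg hp.le, Real.rpow_neg h29.le, Real.exp_neg]
  set P : ℝ := (29 : ℝ) ^ (3 / 2 : ℝ) with hP
  set T : ℝ := (2 * Real.pi) ^ (3 / 2 : ℝ) with hT
  have hP0 : 0 < P := Real.rpow_pos_of_pos h29 _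
  have hT0 : 0 < T := Real.rpow_pos_of_pos hp _
  have hP2 : P ^ 2 = 29 ^ 3 := zs_sq h29
  have hT2 : T ^ 2 = (2 * Real.pi) ^ 3 := zs_sq hp
  have he : (2.718 : ℝ) ^ 3 ≤ Real.exp 3 := by
    have h1 : Real.exp 3 = Real.exp 1 ^ 3 := by
      rw [← Real.exp_nat_mul]; norm_num
    rw [h1]
    apply pow_le_pow_left₀ (by norm_num)
    have := Real.exp_one_gt_d9
    linarith
  have hpi : (2 * 3.141 : ℝ) ^ 3 ≤ (2 * Real.pi) ^ 3 := by
    apply pow_le_pow_left₀ (by norm_num)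
    have := Real.pi_gt_d4
    linarith
  have hkey : 2 * P ≤ Real.exp 3 * T := by
    rw [← pow_le_pow_iff_left₀ (by positivity) (by positivity) two_ne_zero, mul_pow, mul_pow, hP2,
      hT2]
    calc (2 : ℝ) ^ 2 * 29 ^ 3 ≤ ((2.718 : ℝ) ^ 3) ^ 2 * (2 * 3.141 : ℝ) ^ 3 := by norm_num
      _ ≤ Real.exp 3 ^ 2 * (2 * Real.pi) ^ 3 := by
        apply mul_le_mul _ hpi (by norm_num) (by positivity)
        exact pow_le_pow_left₀ (by norm_num) he 2
  have he0 := Real.exp_pos 3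
  have e1 : 4 * (Real.exp 3)⁻¹ * T⁻¹ * (1 / 2) = 2 / (Real.exp 3 * T) := by
    field_simp
    norm_num
  rw [e1, div_le_iff₀ (by positivity), ← div_eq_inv_mul, le_div_iff₀ hP0]
  exact hkey

theorem zs_num2 : Real.exp 1 * (98 / 10000 / (Real.sqrt 2 * Real.pi))
    ≤ (29 : ℝ) ^ (-(3 / 2) : ℝ) := by
  have h29 : (0 : ℝ) < 29 := by norm_num
  rw [Real.rpow_neg h29.le]
  set P : ℝ := (29 : ℝ) ^ (3 / 2 : ℝ) with hP
  have hP0 : 0 < P := Real.rpow_pos_of_pos h29 _
  have hP2 : P ^ 2 = 29 ^ 3 := zs_sq h29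
  have h2 : 0 < Real.sqrt 2 := Real.sqrt_pos.2 (by norm_num)
  have h22 : Real.sqrt 2 ^ 2 = 2 := Real.sq_sqrt (by norm_num)
  have hpi := Real.pi_pos
  have he0 := Real.exp_pos 1
  have hkey : Real.exp 1 * 98 * P ≤ 10000 * Real.sqrt 2 * Real.pi := by
    rw [← pow_le_pow_iff_left₀ (by positivity) (by positivity) two_ne_zero]
    have e1 : (Real.exp 1 * 98 * P) ^ 2 = Real.exp 1 ^ 2 * (98 ^ 2 * 29 ^ 3) := by
      rw [mul_pow, mul_pow, hP2]; ring
    have e2 : (10000 * Real.sqrt 2 * Real.pi) ^ 2 = 200000000 * Real.pi ^ 2 := by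
      rw [mul_pow, mul_pow, h22]; ring
    rw [e1, e2]
    calc Real.exp 1 ^ 2 * (98 ^ 2 * 29 ^ 3) ≤ (2.719 : ℝ) ^ 2 * (98 ^ 2 * 29 ^ 3) := by
          apply mul_le_mul_of_nonneg_right _ (by norm_num)
          apply pow_le_pow_left₀ he0.le
          have := Real.exp_one_lt_d9
          linarith
      _ ≤ 200000000 * (3.141 : ℝ) ^ 2 := by norm_num
      _ ≤ 200000000 * Real.pi ^ 2 := by
          apply mul_le_mul_of_nonneg_left _ (by norm_num)
          apply pow_le_pow_left₀ (by norm_num)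
          have := Real.pi_gt_d4
          linarith
  have e3 : Real.exp 1 * (98 / 10000 / (Real.sqrt 2 * Real.pi))
      = Real.exp 1 * 98 / (10000 * Real.sqrt 2 * Real.pi) := by
    field_simp
  rw [e3, div_le_iff₀ (by positivity), ← div_eq_inv_mul, le_div_iff₀ hP0]
  exact hkey

/-- the difference of two `Z` as an integral -/
theorem zs_diff {s a b r : ℝ} (hs : 0 ≤ s) (ha : 0 < a) (hb : 0 < b) (hr : 0 < r) :
    IntegrableOn (fun u : ℝ => Real.exp (-(u - s)) * (2 * Real.pi * u) ^ (-(3 / 2) : ℝ) *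
      (b ^ 2 * Real.exp (-(b * (r ^ 2 / (2 * u)))) - a ^ 2 * Real.exp (-(a * (r ^ 2 / (2 * u))))))
      (Ioi s) ∧
    Z s b r - Z s a r = ∫ u in Ioi s, Real.exp (-(u - s)) * (2 * Real.pi * u) ^ (-(3 / 2) : ℝ) *
      (b ^ 2 * Real.exp (-(b * (r ^ 2 / (2 * u)))) - a ^ 2 * Real.exp (-(a * (r ^ 2 / (2 * u))))) := by
  have h1 := (Z_integrable hs hb hr).const_mul (b ^ 2)
  have h2 := (Z_integrable hs ha hr).const_mul (a ^ 2)
  have e : (fun u : ℝ => Real.exp (-(u - s)) * (2 * Real.pi * u) ^ (-(3 / 2) : ℝ) *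
      (b ^ 2 * Real.exp (-(b * (r ^ 2 / (2 * u)))) - a ^ 2 * Real.exp (-(a * (r ^ 2 / (2 * u))))))
      = (fun u : ℝ => b ^ 2 * (Real.exp (-(u - s)) * (2 * Real.pi * u) ^ (-(3 / 2) : ℝ)
      * Real.exp (-(b * r ^ 2 / (2 * u)))) - a ^ 2 * (Real.exp (-(u - s)) *
        (2 * Real.pi * u) ^ (-(3 / 2) : ℝ) * Real.exp (-(a * r ^ 2 / (2 * u))))) := by
    funext u
    rw [mul_div_assoc, mul_div_assoc]
    ring
  rw [e]
  refine ⟨h1.sub h2, ?_⟩
  rw [integral_sub h1 h2, integral_const_mul, integral_const_mul]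
  rfl

/-- the case `s ≥ 1` -/
theorem zs_large {s a b r : ℝ} (hs : 1 ≤ s) (ha : 0 < a) (hb : 0 < b) (hr : 0 < r) :
    (a - b) * (Z s b r - Z s a r)
      ≤ (29 : ℝ) ^ (-(3 / 2) : ℝ) * (a * b * (Real.sqrt a - Real.sqrt b) ^ 2) := by
  obtain ⟨hint, hd⟩ := zs_diff (by linarith : 0 ≤ s) ha hb hr
  obtain ⟨hMi, hM⟩ := zs_M s 0 (by linarith)
  set K := a * b * (Real.sqrt a - Real.sqrt b) ^ 2 with hK
  have hK0 : 0 ≤ K := by positivity
  have hp : 0 < 2 * Real.pi := by positivity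
  rw [hd, ← integral_const_mul]
  calc ∫ u in Ioi s, (a - b) * (Real.exp (-(u - s)) * (2 * Real.pi * u) ^ (-(3 / 2) : ℝ) *
      (b ^ 2 * Real.exp (-(b * (r ^ 2 / (2 * u)))) - a ^ 2 * Real.exp (-(a * (r ^ 2 / (2 * u))))))
      ≤ ∫ u in Ioi s, (4 * Real.exp (-3) * K * (2 * Real.pi) ^ (-(3 / 2) : ℝ)) *
          (Real.exp (-(u - s)) * (u + 0) ^ (-(3 / 2) : ℝ)) := by
        refine setIntegral_mono_on (hint.const_mul _) (hMi.const_mul _) measurableSet_Ioi ?_
        intro u hu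
        simp only [mem_Ioi] at hu
        have hu0 : 0 < u := by linarith
        have h := hardcut ha.le hb.le (s := r ^ 2 / (2 * u)) (by positivity)
        rw [add_zero, Real.mul_rpow hp.le hu0.le]
        have h2 := mul_le_mul_of_nonneg_left h
          (show 0 ≤ Real.exp (-(u - s)) * ((2 * Real.pi) ^ (-(3 / 2) : ℝ) * u ^ (-(3 / 2) : ℝ)) by
            positivity)
        calc _ = Real.exp (-(u - s)) * ((2 * Real.pi) ^ (-(3 / 2) : ℝ) * u ^ (-(3 / 2) : ℝ)) *
              ((a - b) * (b ^ 2 * Real.exp (-(b * (r ^ 2 / (2 * u))))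
                - a ^ 2 * Real.exp (-(a * (r ^ 2 / (2 * u)))))) := by ring
          _ ≤ _ := h2
          _ = _ := by rw [hK]; ring
    _ = (4 * Real.exp (-3) * K * (2 * Real.pi) ^ (-(3 / 2) : ℝ)) *
          ∫ u in Ioi s, (Real.exp (-(u - s)) * (u + 0) ^ (-(3 / 2) : ℝ)) := integral_const_mul _ _
    _ ≤ (4 * Real.exp (-3) * K * (2 * Real.pi) ^ (-(3 / 2) : ℝ)) * (1 / 2) :=
        mul_le_mul_of_nonneg_left hM (by positivity)
    _ = (4 * Real.exp (-3) * (2 * Real.pi) ^ (-(3 / 2) : ℝ) * (1 / 2)) * K := by ring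
    _ ≤ _ := mul_le_mul_of_nonneg_right zs_num1 hK0

/-- the case `s = 0` -/
theorem zs_at_zero {a b r : ℝ} (hb : 0 < b) (hab : b < a) (hr : 0 < r) :
    (a - b) * (Z 0 b r - Z 0 a r)
      ≤ 98 / 10000 / (Real.sqrt 2 * Real.pi) * (a * b * (Real.sqrt a - Real.sqrt b) ^ 2) := by
  have ha : 0 < a := hb.trans hab
  rw [Z_zero hb hr, Z_zero ha hr]
  set x := Real.sqrt a with hx
  set y := Real.sqrt b with hy
  have hx0 : 0 < x := Real.sqrt_pos.2 ha
  have hy0 : 0 < y := Real.sqrt_pos.2 hb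
  have hxx : a = x ^ 2 := (Real.sq_sqrt ha.le).symm
  have hyy : b = y ^ 2 := (Real.sq_sqrt hb.le).symm
  have hxy : y < x := Real.sqrt_lt_sqrt hb.le hab
  set q := Real.sqrt 2 with hq
  have hq0 : 0 < q := Real.sqrt_pos.2 (by norm_num)
  have hqq : q ^ 2 = 2 := Real.sq_sqrt (by norm_num)
  have e1 : ∀ m : ℝ, 0 < m → m ^ (3 / 2 : ℝ) = m * Real.sqrt m := by
    intro m hm
    rw [show (3 / 2 : ℝ) = 1 + 1 / 2 by norm_num, Real.rpow_add hm, Real.rpow_one,
      ← Real.sqrt_eq_rpow]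
  rw [e1 a ha, e1 b hb, Real.sqrt_mul (by norm_num), Real.sqrt_mul (by norm_num)]
  rw [← hx, ← hy, ← hq]
  have h := pr0 (A := q * x * r) (B := q * y * r) (by positivity) (by gcongr)
  set EA := Real.exp (-(q * x * r)) with hEA
  set EB := Real.exp (-(q * y * r)) with hEB
  have hpi := Real.pi_pos
  have h3 : (q * x * r - q * y * r) * ((q * x * r + q * y * r) *
      ((q * y * r) ^ 3 * EB - (q * x * r) ^ 3 * EA))
      ≤ (q * x * r - q * y * r) * (98 / 10000 * ((q * x * r) ^ 2 * (q * y * r) ^ 2 *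
        (q * x * r - q * y * r))) := by
    apply mul_le_mul_of_nonneg_left h
    have : q * y * r < q * x * r := by gcongr
    linarith
  have e2 : (q * x * r - q * y * r) * ((q * x * r + q * y * r) *
      ((q * y * r) ^ 3 * EB - (q * x * r) ^ 3 * EA))
      = (q ^ 5 * r ^ 6 * (2 * Real.pi)) * ((a - b) * (b * y * EB / (2 * Real.pi * r)
        - a * x * EA / (2 * Real.pi * r))) := by
    rw [hxx, hyy]
    field_simp
    ring
  have e3 : (q * x * r - q * y * r) * (98 / 10000 * ((q * x * r) ^ 2 * (q * y * r) ^ 2 *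
        (q * x * r - q * y * r)))
      = (q ^ 5 * r ^ 6 * (2 * Real.pi)) * (98 / 10000 / (q * Real.pi) * (a * b * (x - y) ^ 2)) := by
    rw [hxx, hyy]
    have : q ^ 5 * r ^ 6 * (2 * Real.pi) * (98 / 10000 / (q * Real.pi) *
        (x ^ 2 * y ^ 2 * (x - y) ^ 2)) = q ^ 4 * 2 * r ^ 6 * (98 / 10000) *
        (x ^ 2 * y ^ 2 * (x - y) ^ 2) := by
      field_simp
    rw [this, ← hqq]
    ring
  rw [e2, e3] at h3
  exact le_of_mul_le_mul_left h3 (by positivity)

/-- the case `s ≤ 1` -/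
theorem zs_small {s a b r : ℝ} (hs : 0 ≤ s) (hs1 : s ≤ 1) (hb : 0 < b) (hab : b < a)
    (hr : 0 < r) :
    (a - b) * (Z s b r - Z s a r)
      ≤ (29 : ℝ) ^ (-(3 / 2) : ℝ) * (a * b * (Real.sqrt a - Real.sqrt b) ^ 2) := by
  have ha : 0 < a := hb.trans hab
  set K := a * b * (Real.sqrt a - Real.sqrt b) ^ 2 with hK
  have hK0 : 0 ≤ K := by positivity
  obtain ⟨hint, hd⟩ := zs_diff hs ha hb hr
  obtain ⟨hint0, hd0⟩ := zs_diff le_rfl ha hb hr
  have hab0 : 0 < a - b := by linarith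
  have hlog : 0 < Real.log (a / b) := Real.log_pos (by rw [lt_div_iff₀ hb]; linarith)
  -- sign of the bracket
  set σ : ℝ := (a - b) * r ^ 2 / (4 * Real.log (a / b)) with hσ
  have hsign : ∀ u : ℝ, 0 < u → (2 * Real.log (a / b) ≤ (a - b) * (r ^ 2 / (2 * u)) ↔ u ≤ σ) := by
    intro u hu
    rw [hσ, le_div_iff₀ (by positivity), mul_div_assoc', le_div_iff₀ (by positivity)]
    constructor <;> intro h <;> nlinarith
  have hbr : ∀ w : ℝ, b ^ 2 * Real.exp (-(b * w)) - a ^ 2 * Real.exp (-(a * w))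
      = b ^ 2 * Real.exp (-(b * w)) * (1 - Real.exp (2 * Real.log (a / b) - (a - b) * w)) := by
    intro w
    have e1 : Real.exp (2 * Real.log (a / b) - (a - b) * w)
        = (a / b) ^ 2 * Real.exp (-((a - b) * w)) := by
      rw [sub_eq_add_neg, Real.exp_add, two_mul, Real.exp_add,
        Real.exp_log (by positivity)]
      ring
    have e2 : Real.exp (-(a * w)) = Real.exp (-(b * w)) * Real.exp (-((a - b) * w)) := by
      rw [← Real.exp_add]; congr 1; ring
    rw [e1, e2]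
    field_simp
  rcases le_or_gt σ s with hc | hc
  · -- the difference is nonpositive
    have hle : Z s b r - Z s a r ≤ 0 := by
      rw [hd]
      apply setIntegral_nonpos measurableSet_Ioi
      intro u hu
      simp only [mem_Ioi] at hu
      have hu0 : 0 < u := by linarith
      rw [hbr]
      have h2 : (a - b) * (r ^ 2 / (2 * u)) ≤ 2 * Real.log (a / b) := by
        by_contra hcon
        have := (hsign u hu0).1 (not_le.1 hcon).le
        linarith
      have h3 : 1 ≤ Real.exp (2 * Real.log (a / b) - (a - b) * (r ^ 2 / (2 * u))) :=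
        Real.one_le_exp (by linarith)
      apply mul_nonpos_of_nonneg_of_nonpos (by positivity)
      apply mul_nonpos_of_nonneg_of_nonpos (by positivity)
      linarith
    have h29 : 0 ≤ (29 : ℝ) ^ (-(3 / 2) : ℝ) * K := by positivity
    nlinarith
  · -- comparison with `s = 0`
    set F : ℝ → ℝ := fun u => Real.exp (-(u - 0)) * (2 * Real.pi * u) ^ (-(3 / 2) : ℝ) *
      (b ^ 2 * Real.exp (-(b * (r ^ 2 / (2 * u)))) - a ^ 2 * Real.exp (-(a * (r ^ 2 / (2 * u)))))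
      with hF
    have hsc : Z s b r - Z s a r = Real.exp s * ∫ u in Ioi s, F u := by
      rw [hd, ← integral_const_mul]
      refine integral_congr_ae (Filter.Eventually.of_forall fun u => ?_)
      simp only [hF]
      rw [show -(u - s) = s + -(u - 0) by ring, Real.exp_add]
      ring
    have hmono : ∫ u in Ioi s, F u ≤ ∫ u in Ioi (0 : ℝ), F u := by
      have hun : Ioi (0 : ℝ) = Ioc 0 s ∪ Ioi s := (Ioc_union_Ioi_eq_Ioi hs).symm
      have hdisj : Disjoint (Ioc (0 : ℝ) s) (Ioi s) := by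
        rw [Set.disjoint_left]
        intro x hx hx'
        exact absurd hx.2 (not_le.2 hx')
      rw [hun, setIntegral_union hdisj measurableSet_Ioi
        (hint0.mono_set (by rw [hun]; exact subset_union_left))
        (hint0.mono_set (Ioi_subset_Ioi hs))]
      have : 0 ≤ ∫ u in Ioc (0 : ℝ) s, F u := by
        apply setIntegral_nonneg measurableSet_Ioc
        intro u hu
        have hu0 : 0 < u := hu.1
        simp only [hF]
        rw [hbr]
        have h2 := (hsign u hu0).2 (hu.2.trans hc.le)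
        have h3 : Real.exp (2 * Real.log (a / b) - (a - b) * (r ^ 2 / (2 * u))) ≤ 1 := by
          rw [Real.exp_le_one_iff]
          linarith
        apply mul_nonneg (by positivity)
        apply mul_nonneg (by positivity)
        linarith
      linarith
    have h0 := zs_at_zero hb hab hr
    rw [hd0] at h0
    calc (a - b) * (Z s b r - Z s a r) = Real.exp s * ((a - b) * ∫ u in Ioi s, F u) := by
          rw [hsc]; ring
      _ ≤ Real.exp s * ((a - b) * ∫ u in Ioi (0 : ℝ), F u) := by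
          apply mul_le_mul_of_nonneg_left _ (Real.exp_pos _).le
          exact mul_le_mul_of_nonneg_left hmono hab0.le
      _ ≤ Real.exp s * (98 / 10000 / (Real.sqrt 2 * Real.pi) * K) :=
          mul_le_mul_of_nonneg_left h0 (Real.exp_pos _).le
      _ ≤ Real.exp 1 * (98 / 10000 / (Real.sqrt 2 * Real.pi) * K) := by
          apply mul_le_mul_of_nonneg_right (Real.exp_le_exp.2 hs1)
          positivity
      _ = (Real.exp 1 * (98 / 10000 / (Real.sqrt 2 * Real.pi))) * K := by ring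
      _ ≤ _ := mul_le_mul_of_nonneg_right zs_num2 hK0

theorem zs_ord {s a b r : ℝ} (hs : 0 ≤ s) (hb : 0 < b) (hab : b < a) (hr : 0 < r) :
    (a - b) * (Z s b r - Z s a r)
      ≤ (29 : ℝ) ^ (-(3 / 2) : ℝ) * (a * b * (Real.sqrt a - Real.sqrt b) ^ 2) := by
  rcases le_total s 1 with h | h
  · exact zs_small hs h hb hab hr
  · exact zs_large h (hb.trans hab) hb hr

theorem Zs_bound {s a b r : ℝ} (hs : 0 ≤ s) (ha : 0 ≤ a) (hb : 0 ≤ b) (hr : 0 < r) :
    (a - b) * (Z s b r - Z s a r)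
      ≤ (29 : ℝ) ^ (-(3 / 2) : ℝ) * (a * b * (Real.sqrt a - Real.sqrt b) ^ 2) := by
  have hZ0 : Z s 0 r = 0 := by
    unfold Z
    simp
  rcases eq_or_lt_of_le ha with ha0 | ha0
  · subst ha0
    rw [hZ0]
    have := mul_nonneg hb (zs_nonneg (m := b) (r := r) hs)
    simp only [zero_sub, sub_zero, zero_mul, mul_zero]
    linarith
  rcases eq_or_lt_of_le hb with hb0 | hb0
  · subst hb0
    rw [hZ0]
    have := mul_nonneg ha (zs_nonneg (m := a) (r := r) hs)
    simp only [zero_sub, sub_zero, mul_zero, zero_mul]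
    linarith
  rcases lt_trichotomy a b with h | h | h
  · have := zs_ord hs ha0 h hr
    calc (a - b) * (Z s b r - Z s a r) = (b - a) * (Z s a r - Z s b r) := by ring
      _ ≤ _ := this
      _ = _ := by ring
  · subst h; simp
  · exact zs_ord hs hb0 h hr

end Pool.Agent.H75.LO
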